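import Pool.Agent.H91.CS.TBase

/-!
# Module TCST: real holomorphic functions are constant

PROOF. The imaginary part vanishes on a dense subset of `U` (a set of full measure meets every ball), so on `U` by continuity. If `g` is not constant on `U` then by the open mapping theorem (`AnalyticOnNhd.is_constant_or_isOpen`, `hg.analyticOnNhd hU`) `g '' U` is open, but it is contained in the
real line, which has empty interior. (If `U` is empty nothing to prove.)
-/

set_option autoImplicit false

open Filter Topology Polynomial Metric Set MeasureTheory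

namespace Pool.Agent.H91.CS

open Pool.Agent.H44.Fatou Pool.Agent.H61.TT Pool.Agent.H35.EX Pool.Agent.H91.CE

theorem real_const {U : Set ℂ} (hU : IsOpen U) (hc : IsPreconnected U) {g : ℂ → ℂ}
    (hg : DifferentiableOn ℂ g U) (hr : ∀ᵐ y : ℂ, y ∈ U → (g y).im = 0) :
    ∃ l : ℂ, ∀ y ∈ U, g y = l := by
  have him : ∀ y ∈ U, (g y).im = 0 := by
    intro y hy
    by_contra hne
    have ho : IsOpen (U ∩ g ⁻¹' {z : ℂ | z.im ≠ 0}) :=
      hg.continuousOn.isOpen_inter_preimage hU (isOpen_ne_fun Complex.continuous_im
        continuous_const)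
    have hpos := ho.measure_pos volume ⟨y, hy, hne⟩
    have hz : volume (U ∩ g ⁻¹' {z : ℂ | z.im ≠ 0}) = 0 := by
      refine measure_mono_null ?_ (ae_iff.1 hr)
      rintro z ⟨h1, h2⟩
      exact fun h3 => h2 (h3 h1)
    exact hpos.ne' hz
  rcases (hg.analyticOnNhd hU).is_constant_or_isOpen hc with h | h
  · exact h
  · rcases U.eq_empty_or_nonempty with he | ⟨y0, hy0⟩
    · exact ⟨0, fun y hy => absurd hy (by rw [he]; exact notMem_empty y)⟩
    · exfalso
      have h1 := h U Subset.rfl hU
      obtain ⟨ε, hε, hb⟩ := Metric.isOpen_iff.1 h1 (g y0) (mem_image_of_mem g hy0)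
      have h2 : g y0 + ((ε / 2 : ℝ) : ℂ) * Complex.I ∈ ball (g y0) ε := by
        rw [mem_ball_iff_norm, add_sub_cancel_left, norm_mul, Complex.norm_I, mul_one,
          Complex.norm_real, Real.norm_eq_abs, abs_of_pos (by positivity)]
        linarith
      obtain ⟨z, hz, hgz⟩ := hb h2
      have h3 := him z hz
      rw [hgz, Complex.add_im, him y0 hy0, Complex.im_ofReal_mul, Complex.I_im] at h3
      linarith

end Pool.Agent.H91.CS
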