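import Pool.Agent.H91.CS.ADefs
import Pool.Agent.H79.Par.CopNear
import Pool.Agent.H79.Par.It

/-!
# Collet-Eckmann maps without hypothesis on the basins: charts along an orbit (definitions)

The orbit `it v0 n x` of a point `x` of the plane (all denominators not zero) is looked at in the chart `z` (`σ = false`) when `‖it v0 n x‖ ≤ R` and in the chart `1 / z` (`σ = true`) otherwise; `ch σ` is the inverse of
the chart (H44/Fatou/Pow), `XC σ z` the coordinate of the point `z`, `jc σ z` the derivative of the coordinate. `TC v0 R x n v` is the coefficient vector of the map `v` from the chart at time `n`, centered at the point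
of the orbit, to the chart at time `n + 1`, centered at the point of the orbit.
-/

set_option autoImplicit false

open Filter Topology Metric Set Polynomial

namespace Pool.Agent.H91.CS

open Pool.Agent.H44.Fatou Pool.Agent.H32.BT Pool.Agent.H79.Eul Pool.Agent.H79.Par

noncomputable def sg {d : ℕ} (v0 : E d) (R : ℝ) (x : ℂ) (n : ℕ) : Bool :=
  if R < ‖it v0 n x‖ then true else false

noncomputable def XC (σ : Bool) (z : ℂ) : ℂ := if σ then z⁻¹ else z

noncomputable def jc (σ : Bool) (z : ℂ) : ℂ := if σ then -(z ^ 2)⁻¹ else 1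

def tr {d : ℕ} (σ τ : Bool) (v : E d) : E d :=
  if τ then ((if σ then rv v else v).2, (if σ then rv v else v).1) else (if σ then rv v else v)

noncomputable def sh {d : ℕ} (x : ℂ) (p : Fin (d + 1) → ℂ) : Fin (d + 1) → ℂ :=
  cf d ((pol p).comp (X + C x))

noncomputable def TC {d : ℕ} (v0 : E d) (R : ℝ) (x : ℂ) (n : ℕ) (v : E d) : E d :=
  (sh (XC (sg v0 R x n) (it v0 n x)) (tr (sg v0 R x n) (sg v0 R x (n + 1)) v).1 -
      XC (sg v0 R x (n + 1)) (it v0 (n + 1) x) •
        sh (XC (sg v0 R x n) (it v0 n x)) (tr (sg v0 R x n) (sg v0 R x (n + 1)) v).2,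
    sh (XC (sg v0 R x n) (it v0 n x)) (tr (sg v0 R x n) (sg v0 R x (n + 1)) v).2)

/-- the orbit of `x` stays in the plane and its derivatives, in the chordal metric, grow
exponentially -/
def GrS {d : ℕ} (v0 : E d) (x : ℂ) : Prop :=
  (∀ n, ev v0.2 (it v0 n x) ≠ 0) ∧
    ∃ c q : ℝ, 0 < c ∧ 1 < q ∧ ∀ n : ℕ, c * q ^ n * (1 + ‖it v0 n x‖ ^ 2) ≤ ‖trD v0 n x‖

end Pool.Agent.H91.CS
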