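import Pool.Agent.H91.CS.MLAN
import Pool.Agent.H91.CS.PDefs
import Pool.Agent.H79.Par.PerFin

/-!
# Module MNEAR: near a point with exponential growth there are points landing on a critical point

PROOF. Let `xk = it v0 k x`, `ball xk r ⊆ U`. `c1` has a preimage `a1` and `a1` a preimage `a2`, in the plane (the map of the sphere is surjective: the polynomial `fib`, `a - c1 b`, has a root, or `∞ ↦ c1`, which is excluded by `hinf`; same for `a1`);
`c1, a1, a2` are distinct because `c1` is not periodic (`hno`). Suppose no `y ∈ ball xk r`, `y ≠ xk`, satisfies `(Rf v0)^[l] y = c1` for some `l` (if it does, then the orbit up to time `l` is in the plane, since `∞` does not land on `c1`: denominators not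
zero, `it v0 l y = c1`; and `trD v0 l y ≠ 0`: otherwise `it v0 i y` is critical for some `i < l` and lands on `c1` after `l - i > 0` steps, against `hno`). Also `xk` itself does not land on `c1`: `trD v0 n x ≠ 0` for all `n` by `GrS`, but
`wv v0 c1 = 0` would give `trD v0 (k + l + 1) x = 0`. So for all `n` and `z ∈ ball xk r` `(Rf v0)^[n] z` is none of `c1, a1, a2`. With `(R, S) = perRS .. n` (H79/Par/PerFin: `(Rf v0)^[n] z = pt (R z) (S z)`, not both zero) the
function `h = ((R - c1 S) (a1 - a2)) / ((R - a2 S) (a1 - c1))` is holomorphic on the ball without the values `0, 1`. `landau` for `z ↦ h (xk + r z)`: `r ‖deriv h xk‖ ≤ C (1 + ‖h xk‖ ^ 2)`. Near `xk` `h z = M (it v0 n z)`,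
`M w = ((w - c1) (a1 - a2)) / ((w - a2) (a1 - c1))`, so `deriv h xk = M' (w) * trD v0 n xk`, `w = it v0 (n + k) x`, and `‖M' w‖ / (1 + ‖M w‖ ^ 2) = K / (‖(w - a2) (a1 - c1)‖ ^ 2 + ‖(w - c1) (a1 - a2)‖ ^ 2) ≥ K' / (1 + ‖w‖ ^ 2)` with constants
`K, K' > 0`. But `‖trD v0 n xk‖ = ‖trD v0 (n + k) x‖ / ‖trD v0 k x‖ ≥ c q ^ (n + k) (1 + ‖w‖ ^ 2) / ‖trD v0 k x‖`: a contradiction for large `n`.
-/

set_option autoImplicit false

open Filter Topology Metric Set Polynomial

namespace Pool.Agent.H91.CS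

open Pool.Agent.H44.Fatou Pool.Agent.H32.BT Pool.Agent.H79.Eul Pool.Agent.H79.Par

/-- `y` lands on `c1` after `l` steps, in the plane, away from the critical points -/
def Lands {d : ℕ} (v0 : E d) (c1 y : ℂ) (l : ℕ) : Prop :=
  (∀ i < l, ev v0.2 (it v0 i y) ≠ 0) ∧ it v0 l y = c1 ∧ trD v0 l y ≠ 0

private theorem MNEAR_root {d : ℕ} (hd : 2 ≤ d) {v0 : E d} (hcop : IsCoprime (pol v0.1) (pol v0.2))
    (hdeg : max (pol v0.1).natDegree (pol v0.2).natDegree = d) {a : ℂ}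
    (ha : Rf v0 OnePoint.infty ≠ (a : OnePoint ℂ)) : ∃ z : ℂ, Rf v0 (z : OnePoint ℂ) = (a : OnePoint ℂ) := by
  have hdg : dg (pol v0.1) (pol v0.2) = d := hdeg
  have hc := coeff_dg hcop
  rw [hdg] at hc
  have ha' : pt ((pol v0.1).coeff d) ((pol v0.2).coeff d) ≠ (a : OnePoint ℂ) := by
    have h := ha
    unfold Rf at h
    rw [rat_infty, hdg] at h
    exact h
  have hne : (pol v0.1 - C a * pol v0.2).coeff d ≠ 0 := by
    rw [coeff_sub, coeff_C_mul]
    intro h
    have h1 : (pol v0.1).coeff d = a * (pol v0.2).coeff d := sub_eq_zero.1 h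
    have h2 : (pol v0.2).coeff d ≠ 0 := by
      intro h2
      rw [h2, mul_zero] at h1
      exact hc.elim (fun h => h h1) (fun h => h h2)
    apply ha'
    unfold pt
    rw [if_neg h2, h1, mul_div_cancel_right₀ _ h2]
  have hdeg2 : (pol v0.1 - C a * pol v0.2).degree ≠ 0 := by
    intro h
    have h1 : (pol v0.1 - C a * pol v0.2).natDegree = 0 := natDegree_eq_zero_iff_degree_le_zero.2 h.le
    exact hne (coeff_eq_zero_of_natDegree_lt (by omega))
  obtain ⟨z, hz⟩ := IsAlgClosed.exists_root (pol v0.1 - C a * pol v0.2) hdeg2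
  refine ⟨z, ?_⟩
  have hz' : (pol v0.1).eval z = a * (pol v0.2).eval z := by
    have h := hz
    rw [IsRoot.def, eval_sub, eval_mul, eval_C] at h
    exact sub_eq_zero.1 h
  have hQ : (pol v0.2).eval z ≠ 0 := by
    intro h
    rw [h, mul_zero] at hz'
    exact (coprime_eval hcop z).elim (fun h1 => h1 hz') (fun h1 => h1 h)
  unfold Rf
  rw [rat_coe_of_ne hQ, hz', mul_div_cancel_right₀ _ hQ]

private theorem MNEAR_alg {c a b R S : ℂ} (hca : c ≠ b) :
    (R - c * S) * (a - b) = (R - b * S) * (a - c) → R = a * S := by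
  intro h
  have h1 : (R - a * S) * (c - b) = 0 := by linear_combination h
  rcases mul_eq_zero.1 h1 with h2 | h2
  · exact sub_eq_zero.1 h2
  · exact absurd (sub_eq_zero.1 h2) hca

private theorem MNEAR_nrm (w a : ℂ) : ‖w - a‖ ^ 2 ≤ 2 * (1 + ‖a‖ ^ 2) * (1 + ‖w‖ ^ 2) := by
  have h := norm_sub_le w a
  have h1 := norm_nonneg (w - a)
  have h2 := norm_nonneg w
  have h3 := norm_nonneg a
  have h4 : ‖w - a‖ ^ 2 ≤ (‖w‖ + ‖a‖) ^ 2 := pow_le_pow_left₀ h1 h 2
  nlinarith [sq_nonneg (‖w‖ - ‖a‖), mul_nonneg (sq_nonneg ‖w‖) (sq_nonneg ‖a‖)]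

private theorem MNEAR_lands {d : ℕ} {v0 : E d} {c1 : ℂ}
    (hinf : ∀ n, (Rf v0)^[n] OnePoint.infty ≠ (c1 : OnePoint ℂ))
    (hno : ∀ c : ℂ, wv v0 c = 0 → ∀ l, 0 < l → (Rf v0)^[l] (c : OnePoint ℂ) ≠ (c1 : OnePoint ℂ))
    {y : ℂ} {l : ℕ} (hy : (Rf v0)^[l] (y : OnePoint ℂ) = (c1 : OnePoint ℂ)) : Lands v0 c1 y l := by
  have ho := orb_of_fin (v0 := v0) (z := y) (n := l) (by
    intro j hj h
    apply hinf (l - j)
    rw [← h, ← Function.iterate_add_apply, Nat.sub_add_cancel hj]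
    exact hy)
  have hev : ∀ i < l, ev v0.2 (it v0 i y) ≠ 0 := fun i hi => (ho i hi).1
  refine ⟨hev, ?_, ?_⟩
  · rw [rat_it hev] at hy
    exact OnePoint.coe_injective hy
  · unfold trD
    rw [Finset.prod_ne_zero_iff]
    intro i hi
    have hi' := Finset.mem_range.1 hi
    refine div_ne_zero ?_ (pow_ne_zero _ (hev i hi'))
    intro h
    apply hno _ h (l - i) (by omega)
    rw [← rat_it (j := i) fun m hm => hev m (by omega), ← Function.iterate_add_apply,
      Nat.sub_add_cancel hi'.le]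
    exact hy

private theorem MNEAR_trD {d : ℕ} (v0 : E d) (n k : ℕ) (x : ℂ) :
    trD v0 (n + k) x = trD v0 n (it v0 k x) * trD v0 k x := by
  unfold trD
  rw [Nat.add_comm n k, Finset.prod_range_add, mul_comm]
  congr 1
  refine Finset.prod_congr rfl fun i _ => ?_
  rw [Nat.add_comm k i, it_add]

theorem land_near {d : ℕ} (hd : 2 ≤ d) {v0 : E d} (hcop : IsCoprime (pol v0.1) (pol v0.2))
    (hdeg : max (pol v0.1).natDegree (pol v0.2).natDegree = d) {c1 : ℂ} (h1 : wv v0 c1 = 0)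
    (hinf : ∀ n, (Rf v0)^[n] OnePoint.infty ≠ (c1 : OnePoint ℂ))
    (hno : ∀ c : ℂ, wv v0 c = 0 → ∀ l, 0 < l → (Rf v0)^[l] (c : OnePoint ℂ) ≠ (c1 : OnePoint ℂ))
    {x : ℂ} (hx : GrS v0 x) {U : Set ℂ} (hU : IsOpen U) {k : ℕ} (hk : it v0 k x ∈ U) :
    ∃ y ∈ U, y ≠ it v0 k x ∧ ∃ l, Lands v0 c1 y l := by
  obtain ⟨hevx, c, q, hc, hq, hg⟩ := hx
  obtain ⟨r, hr, hrU⟩ := Metric.isOpen_iff.1 hU _ hk
  set xk := it v0 k x with hxk
  have hcc : wv v0 c1 = 0 := h1
  -- the preimages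
  obtain ⟨a1, ha1⟩ := MNEAR_root hd hcop hdeg (a := c1) (hinf 1)
  obtain ⟨a2, ha2⟩ := MNEAR_root hd hcop hdeg (a := a1) (by
    intro h
    apply hinf 2
    show Rf v0 (Rf v0 OnePoint.infty) = _
    rw [h, ha1])
  have hn1 : c1 ≠ a1 := by
    intro h
    apply hno c1 hcc 1 one_pos
    show Rf v0 (c1 : OnePoint ℂ) = _
    rw [← h] at ha1
    exact ha1
  have hn2 : a1 ≠ a2 := by
    intro h
    rw [← h] at ha2
    rw [ha2] at ha1
    exact hn1 (OnePoint.coe_injective ha1).symm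
  have hn3 : c1 ≠ a2 := by
    intro h
    apply hno c1 hcc 2 two_pos
    show Rf v0 (Rf v0 (c1 : OnePoint ℂ)) = _
    rw [← h] at ha2
    rw [ha2, ha1]
  by_contra hcon
  -- no point of the ball lands on `c1`
  have hno1 : ∀ z ∈ ball xk r, ∀ l, (Rf v0)^[l] (z : OnePoint ℂ) ≠ (c1 : OnePoint ℂ) := by
    intro z hz l hl
    by_cases hzk : z = xk
    · rw [hzk] at hl
      have h2 : ∀ i < l, ev v0.2 (it v0 i xk) ≠ 0 := by
        intro i _
        rw [hxk, ← it_add]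
        exact hevx _
      rw [rat_it h2] at hl
      have h3 : it v0 l xk = c1 := OnePoint.coe_injective hl
      have h4 := hg (l + k + 1)
      have h5 : trD v0 (l + k + 1) x = 0 := by
        unfold trD
        rw [Finset.prod_range_succ, it_add, ← hxk, h3, hcc, zero_div, mul_zero]
      rw [h5, norm_zero] at h4
      have h6 : 0 < c * q ^ (l + k + 1) * (1 + ‖it v0 (l + k + 1) x‖ ^ 2) := by positivity
      linarith
    · exact hcon ⟨z, hrU hz, hzk, l, MNEAR_lands hinf hno hl⟩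
  have hno2 : ∀ z ∈ ball xk r, ∀ l, (Rf v0)^[l] (z : OnePoint ℂ) ≠ (a1 : OnePoint ℂ) := by
    intro z hz l hl
    apply hno1 z hz (l + 1)
    rw [Function.iterate_succ_apply', hl, ha1]
  have hno3 : ∀ z ∈ ball xk r, ∀ l, (Rf v0)^[l] (z : OnePoint ℂ) ≠ (a2 : OnePoint ℂ) := by
    intro z hz l hl
    apply hno2 z hz (l + 1)
    rw [Function.iterate_succ_apply', hl, ha2]
  obtain ⟨CL, hCL, hlan⟩ := landau
  have hxkb : xk ∈ ball xk r := mem_ball_self hr
  have hevk : ∀ i, ev v0.2 (it v0 i xk) ≠ 0 := by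
    intro i
    rw [hxk, ← it_add]
    exact hevx _
  -- Landau for each `n`
  have hkey : ∀ n : ℕ, r * (‖(a1 - a2) * (c1 - a2) * (a1 - c1)‖ * ‖trD v0 n xk‖) ≤
      CL * (‖(it v0 n xk - a2) * (a1 - c1)‖ ^ 2 + ‖(it v0 n xk - c1) * (a1 - a2)‖ ^ 2) := by
    intro n
    set R := (perRS (pol v0.1) (pol v0.2) n).1 with hR
    set S := (perRS (pol v0.1) (pol v0.2) n).2 with hS
    have hspec : ∀ z : ℂ, (R.eval z ≠ 0 ∨ S.eval z ≠ 0) ∧
        (Rf v0)^[n] (z : OnePoint ℂ) = pt (R.eval z) (S.eval z) := fun z => perRS_spec hcop z n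
    have hne : ∀ a : ℂ, ∀ z : ℂ, (Rf v0)^[n] (z : OnePoint ℂ) ≠ (a : OnePoint ℂ) →
        R.eval z - a * S.eval z ≠ 0 := by
      intro a z h h2
      have h3 : R.eval z = a * S.eval z := sub_eq_zero.1 h2
      have h4 : S.eval z ≠ 0 := by
        intro h4
        rw [h4, mul_zero] at h3
        exact (hspec z).1.elim (fun h => h h3) (fun h => h h4)
      apply h
      rw [(hspec z).2]
      unfold pt
      rw [if_neg h4, h3, mul_div_cancel_right₀ _ h4]
    have hd1 : a1 - a2 ≠ 0 := sub_ne_zero.2 hn2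
    have hd2 : a1 - c1 ≠ 0 := sub_ne_zero.2 hn1.symm
    set h : ℂ → ℂ := fun z => ((R.eval z - c1 * S.eval z) * (a1 - a2)) /
      ((R.eval z - a2 * S.eval z) * (a1 - c1)) with hh
    have hden : ∀ z ∈ ball xk r, (R.eval z - a2 * S.eval z) * (a1 - c1) ≠ 0 := fun z hz =>
      mul_ne_zero (hne a2 z (hno3 z hz n)) hd2
    have hdiff : ∀ z ∈ ball xk r, DifferentiableAt ℂ h z := by
      intro z hz
      refine DifferentiableAt.div ?_ ?_ (hden z hz)
      · exact (R.differentiable.differentiableAt.sub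
          (S.differentiable.differentiableAt.const_mul c1)).mul_const _
      · exact (R.differentiable.differentiableAt.sub
          (S.differentiable.differentiableAt.const_mul a2)).mul_const _
    have hmap : ∀ z ∈ ball (0 : ℂ) 1, xk + (r : ℂ) * z ∈ ball xk r := by
      intro z hz
      rw [mem_ball, dist_eq_norm, add_sub_cancel_left, norm_mul, Complex.norm_real,
        Real.norm_eq_abs, abs_of_pos hr]
      have : ‖z‖ < 1 := by simpa using hz
      nlinarith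
    have haff : ∀ z : ℂ, HasDerivAt (fun z => xk + (r : ℂ) * z) (r : ℂ) z := by
      intro z
      have := ((hasDerivAt_id z).const_mul (r : ℂ)).const_add xk
      simpa using this
    have hgd : DifferentiableOn ℂ (fun z => h (xk + (r : ℂ) * z)) (ball 0 1) := by
      intro z hz
      refine DifferentiableAt.differentiableWithinAt ?_
      exact (hdiff _ (hmap z hz)).comp z (haff z).differentiableAt
    have hlan1 := hlan _ hgd (by
      intro z hz
      have hz2 := hmap z hz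
      have hA := hne c1 _ (hno1 _ hz2 n)
      have hB := hden _ hz2
      constructor
      · show ((R.eval (xk + (r : ℂ) * z) - c1 * S.eval (xk + (r : ℂ) * z)) * (a1 - a2)) /
          ((R.eval (xk + (r : ℂ) * z) - a2 * S.eval (xk + (r : ℂ) * z)) * (a1 - c1)) ≠ 0
        exact div_ne_zero (mul_ne_zero hA hd1) hB
      · intro h2
        have h3 : ((R.eval (xk + (r : ℂ) * z) - c1 * S.eval (xk + (r : ℂ) * z)) * (a1 - a2)) /
          ((R.eval (xk + (r : ℂ) * z) - a2 * S.eval (xk + (r : ℂ) * z)) * (a1 - c1)) = 1 := h2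
        have h4 := (div_eq_one_iff_eq hB).1 h3
        have h5 := MNEAR_alg hn3 h4
        exact hne a1 _ (hno2 _ hz2 n) (sub_eq_zero.2 h5))
    -- the derivative at the centre
    set w := it v0 n xk with hw
    have hSx : ∀ z : ℂ, (∀ i < n, ev v0.2 (it v0 i z) ≠ 0) →
        S.eval z ≠ 0 ∧ R.eval z = it v0 n z * S.eval z := by
      intro z hz
      have h2 := (hspec z).2
      rw [rat_it hz] at h2
      unfold pt at h2
      split_ifs at h2 with h3
      · exact absurd h2 (OnePoint.coe_ne_infty _)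
      · refine ⟨h3, ?_⟩
        have h4 : it v0 n z = R.eval z / S.eval z := OnePoint.coe_injective h2
        rw [h4, div_mul_cancel₀ _ h3]
    have hwa2 : w - a2 ≠ 0 := by
      intro h2
      apply hno3 xk hxkb n
      rw [rat_it fun i _ => hevk i, ← hw, sub_eq_zero.1 h2]
    have hwc : w - c1 ≠ 0 := by
      intro h2
      apply hno1 xk hxkb n
      rw [rat_it fun i _ => hevk i, ← hw, sub_eq_zero.1 h2]
    have hquot : ∀ z : ℂ, (∀ i < n, ev v0.2 (it v0 i z) ≠ 0) →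
        h z = ((it v0 n z - c1) * (a1 - a2)) / ((it v0 n z - a2) * (a1 - c1)) := by
      intro z hz
      obtain ⟨h2, h3⟩ := hSx z hz
      show ((R.eval z - c1 * S.eval z) * (a1 - a2)) / ((R.eval z - a2 * S.eval z) * (a1 - c1)) = _
      rw [h3]
      have e1 : (it v0 n z * S.eval z - c1 * S.eval z) * (a1 - a2) =
        ((it v0 n z - c1) * (a1 - a2)) * S.eval z := by ring
      have e2 : (it v0 n z * S.eval z - a2 * S.eval z) * (a1 - c1) =
        ((it v0 n z - a2) * (a1 - c1)) * S.eval z := by ring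
      rw [e1, e2, mul_div_mul_right _ _ h2]
    have hnear : ∀ᶠ z in 𝓝 xk, ∀ i < n, ev v0.2 (it v0 i z) ≠ 0 := by
      have ho : Orb v0 (fun j => it v0 j xk) n := fun j _ => ⟨hevk j, rfl⟩
      have h2 := orb_near ho
      have h3 : Tendsto (fun z : ℂ => (v0, z)) (𝓝 xk) (𝓝 (v0, xk)) :=
        (continuous_const.prodMk continuous_id).continuousAt
      exact h3.eventually h2
    have hder : HasDerivAt h (((a1 - a2) * (c1 - a2)) / ((w - a2) ^ 2 * (a1 - c1)) *
        trD v0 n xk) xk := by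
      have hit := tr_hasDerivAt v0 xk n fun i _ => hevk i
      have hM : HasDerivAt (fun y : ℂ => ((y - c1) * (a1 - a2)) / ((y - a2) * (a1 - c1)))
          (((a1 - a2) * (c1 - a2)) / ((w - a2) ^ 2 * (a1 - c1))) w := by
        have h2 : HasDerivAt (fun y : ℂ => (y - c1) * (a1 - a2)) (1 * (a1 - a2)) w :=
          ((hasDerivAt_id w).sub_const c1).mul_const _
        have h3 : HasDerivAt (fun y : ℂ => (y - a2) * (a1 - c1)) (1 * (a1 - c1)) w :=
          ((hasDerivAt_id w).sub_const a2).mul_const _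
        refine (h2.div h3 (mul_ne_zero hwa2 hd2)).congr_deriv ?_
        field_simp
        ring
      have h4 : HasDerivAt (fun z => ((it v0 n z - c1) * (a1 - a2)) /
          ((it v0 n z - a2) * (a1 - c1))) (((a1 - a2) * (c1 - a2)) /
          ((w - a2) ^ 2 * (a1 - c1)) * trD v0 n xk) xk := HasDerivAt.comp xk hM hit
      refine h4.congr_of_eventuallyEq ?_
      filter_upwards [hnear] with z hz
      exact hquot z hz
    have hder2 : deriv (fun z => h (xk + (r : ℂ) * z)) 0 =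
        (((a1 - a2) * (c1 - a2)) / ((w - a2) ^ 2 * (a1 - c1)) * trD v0 n xk) * r := by
      have h2 : HasDerivAt h (((a1 - a2) * (c1 - a2)) / ((w - a2) ^ 2 * (a1 - c1)) *
        trD v0 n xk) (xk + (r : ℂ) * 0) := by
        rw [mul_zero, add_zero]
        exact hder
      exact (HasDerivAt.comp (0 : ℂ) h2 (haff 0)).deriv
    have hval : h (xk + (r : ℂ) * 0) = ((w - c1) * (a1 - a2)) / ((w - a2) * (a1 - c1)) := by
      rw [mul_zero, add_zero, hquot xk fun i _ => hevk i]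
    rw [hder2] at hlan1
    simp only [hval] at hlan1
    rw [norm_mul, norm_mul, norm_div, norm_div, Complex.norm_real, Real.norm_eq_abs,
      abs_of_pos hr] at hlan1
    have hp1 : 0 < ‖(w - a2) * (a1 - c1)‖ := norm_pos_iff.2 (mul_ne_zero hwa2 hd2)
    have hp2 : 0 < ‖(w - a2) ^ 2 * (a1 - c1)‖ :=
      norm_pos_iff.2 (mul_ne_zero (pow_ne_zero _ hwa2) hd2)
    have hp3 : 0 < ‖a1 - c1‖ := norm_pos_iff.2 hd2
    have hp4 : 0 < ‖w - a2‖ := norm_pos_iff.2 hwa2
    have e3 : ‖(w - a2) * (a1 - c1)‖ ^ 2 = ‖(w - a2) ^ 2 * (a1 - c1)‖ * ‖a1 - c1‖ := by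
      rw [norm_mul, norm_mul, norm_pow]
      ring
    have h9 := mul_le_mul_of_nonneg_right hlan1 (sq_nonneg ‖(w - a2) * (a1 - c1)‖)
    have e4 : ‖(a1 - a2) * (c1 - a2)‖ / ‖(w - a2) ^ 2 * (a1 - c1)‖ * ‖trD v0 n xk‖ * r *
        ‖(w - a2) * (a1 - c1)‖ ^ 2 =
        r * (‖(a1 - a2) * (c1 - a2) * (a1 - c1)‖ * ‖trD v0 n xk‖) := by
      rw [e3, norm_mul ((a1 - a2) * (c1 - a2))]
      field_simp
    have e5 : CL * (1 + (‖(w - c1) * (a1 - a2)‖ / ‖(w - a2) * (a1 - c1)‖) ^ 2) *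
        ‖(w - a2) * (a1 - c1)‖ ^ 2 =
        CL * (‖(w - a2) * (a1 - c1)‖ ^ 2 + ‖(w - c1) * (a1 - a2)‖ ^ 2) := by
      field_simp
    rw [e4, e5] at h9
    exact h9
  -- the final contradiction
  set K0 := ‖(a1 - a2) * (c1 - a2) * (a1 - c1)‖ with hK0
  have hK0p : 0 < K0 := norm_pos_iff.2 (mul_ne_zero (mul_ne_zero (sub_ne_zero.2 hn2)
    (sub_ne_zero.2 hn3)) (sub_ne_zero.2 hn1.symm))
  set K1 := 2 * (1 + ‖a2‖ ^ 2) * ‖a1 - c1‖ ^ 2 + 2 * (1 + ‖c1‖ ^ 2) * ‖a1 - a2‖ ^ 2 with hK1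
  have hbd : ∀ n : ℕ, r * K0 * (c * q ^ (n + k)) ≤ CL * K1 * ‖trD v0 k x‖ := by
    intro n
    have h2 := hkey n
    have h3 := hg (n + k)
    rw [MNEAR_trD, ← hxk, it_add, ← hxk, norm_mul] at h3
    set w := it v0 n xk with hw
    have h4 : ‖(w - a2) * (a1 - c1)‖ ^ 2 + ‖(w - c1) * (a1 - a2)‖ ^ 2 ≤ K1 * (1 + ‖w‖ ^ 2) := by
      rw [norm_mul, norm_mul, mul_pow, mul_pow]
      have h5 := mul_le_mul_of_nonneg_right (MNEAR_nrm w a2) (sq_nonneg ‖a1 - c1‖)
      have h6 := mul_le_mul_of_nonneg_right (MNEAR_nrm w c1) (sq_nonneg ‖a1 - a2‖)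
      rw [hK1]
      linarith
    have hD := norm_nonneg (trD v0 k x)
    have hwp : 0 < 1 + ‖w‖ ^ 2 := by positivity
    have h7 : r * (K0 * ‖trD v0 n xk‖) * ‖trD v0 k x‖ ≤
        CL * (K1 * (1 + ‖w‖ ^ 2)) * ‖trD v0 k x‖ :=
      mul_le_mul_of_nonneg_right (h2.trans (mul_le_mul_of_nonneg_left h4 hCL.le)) hD
    have h8 : r * K0 * (c * q ^ (n + k) * (1 + ‖w‖ ^ 2)) ≤
        r * K0 * (‖trD v0 n xk‖ * ‖trD v0 k x‖) :=
      mul_le_mul_of_nonneg_left h3 (by positivity)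
    have h9 : (r * K0 * (c * q ^ (n + k))) * (1 + ‖w‖ ^ 2) ≤
        (CL * K1 * ‖trD v0 k x‖) * (1 + ‖w‖ ^ 2) := by
      calc (r * K0 * (c * q ^ (n + k))) * (1 + ‖w‖ ^ 2)
          = r * K0 * (c * q ^ (n + k) * (1 + ‖w‖ ^ 2)) := by ring
        _ ≤ r * K0 * (‖trD v0 n xk‖ * ‖trD v0 k x‖) := h8
        _ = r * (K0 * ‖trD v0 n xk‖) * ‖trD v0 k x‖ := by ring
        _ ≤ CL * (K1 * (1 + ‖w‖ ^ 2)) * ‖trD v0 k x‖ := h7
        _ = (CL * K1 * ‖trD v0 k x‖) * (1 + ‖w‖ ^ 2) := by ring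
    exact le_of_mul_le_mul_right h9 hwp
  obtain ⟨n, hn⟩ := pow_unbounded_of_one_lt (CL * K1 * ‖trD v0 k x‖ / (r * K0 * c)) hq
  have hpos : 0 < r * K0 * c := by positivity
  rw [div_lt_iff₀ hpos] at hn
  have h2 := hbd n
  have h3 : q ^ n ≤ q ^ (n + k) := pow_le_pow_right₀ hq.le (by omega)
  have h4 : q ^ n * (r * K0 * c) ≤ q ^ (n + k) * (r * K0 * c) :=
    mul_le_mul_of_nonneg_right h3 hpos.le
  have h5 : r * K0 * (c * q ^ (n + k)) = q ^ (n + k) * (r * K0 * c) := by ring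
  linarith

end Pool.Agent.H91.CS
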