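import Pool.Agent.H91.CS.PDefs
import Pool.Agent.H91.CS.MNEAR

/-!
# Collet-Eckmann maps without hypothesis on the basins: the system of equations (definitions)

`WP v` is the Wronskian of the map `v` (its roots are the critical points), `W1 v0 p` its derivative in the direction `p`. `LFn σ l (w, Z)` is the `l`-th iterate of the map `w` at the point with coordinate `Z` in the
chart `σ`.
-/

set_option autoImplicit false

open Filter Topology Metric Set Polynomial

namespace Pool.Agent.H91.CS

open Pool.Agent.H44.Fatou Pool.Agent.H32.BT Pool.Agent.H79.Eul Pool.Agent.H79.Par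
open Pool.Agent.H61.TT

noncomputable def WP {d : ℕ} (v : E d) : Polynomial ℂ := ww (pol v.1) (pol v.2)

noncomputable def W1 {d : ℕ} (v0 p : E d) : Polynomial ℂ :=
  derivative (pol p.1) * pol v0.2 + derivative (pol v0.1) * pol p.2 -
    pol p.1 * derivative (pol v0.2) - pol v0.1 * derivative (pol p.2)

noncomputable def LFn {d : ℕ} (σ : Bool) (l : ℕ) (x : E d × ℂ) : ℂ := it x.1 l (XC σ x.2)

/-- attracted by an attracting cycle, in the plane -/
def AttG {d : ℕ} (v0 : E d) (c : ℂ) : Prop :=
  (∀ n, ev v0.2 (it v0 n c) ≠ 0) ∧ ∃ (z : ℂ) (n : ℕ), IsSink (Rf v0) (z : OnePoint ℂ) n ∧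
    (∀ j, (Rf v0)^[j] (z : OnePoint ℂ) ≠ OnePoint.infty) ∧
    Tendsto (fun j => (Rf v0)^[n * j] (c : OnePoint ℂ)) atTop (𝓝 (z : OnePoint ℂ))

end Pool.Agent.H91.CS
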