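import Pool.Agent.H91.CS.EDefs

/-!
# Module ECRIT: multiple critical points of nearby maps, periodic critical points

PROOF. `div_of`: `(X - C z) ^ m` divides `P` iff `(hasseDeriv l P).eval z = 0` for `l < m` (Taylor expansion: `Polynomial.taylor`, `hasseDeriv_eval..`, `taylor_coeff`, `X_pow_dvd_iff`), and `b` is prime to `X - z` if `b.eval z ≠ 0` (`IsCoprime.dvd_of_dvd_mul_left`).
`crit_iso`: `U (w, z, z') = ∑ l in Icc m (2 d), (hasseDeriv l (WP w)).eval z * (z' - z) ^ (l - m)` is continuous, `U (v0, c, c) = (hasseDeriv m (WP v0)).eval c ≠ 0` since the multiplicity is exactly `m` (and `WP v0 ≠ 0`). If `(X - C z) ^ m` divides `WP w` then the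
Taylor expansion at `z` gives `(WP w).eval z' = (z' - z) ^ m * U (w, z, z')` (degree at most `2 d`).
`super_att`: choose `s` not in the orbit of `z` (finite set), conjugate by `z ↦ 1 / (z - s)` (`exists_mob`, H32/BT/Mob; `att_conj`, H32/BT/Top): the orbit is in the plane, the first point is critical (`IsCrit` is invariant by conjugation; `wv = 0` iff critical: `crit_of_wr`,
H32/BT or H79, and `wr_inj`, H44/Fatou/Basic, for the converse), so the multiplier of the cycle is `0`: `sink_of_mult` (H32/BT/TrapSink) gives a sink near the point attracting a ball around it; being attracted and periodic the point is this sink.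
-/

set_option autoImplicit false

open Filter Topology Metric Set Polynomial

namespace Pool.Agent.H91.CS

open Pool.Agent.H44.Fatou Pool.Agent.H32.BT Pool.Agent.H79.Eul Pool.Agent.H79.Par

private theorem ecrit_tay (c : ℂ) (k : ℕ) (W : Polynomial ℂ) :
    taylor c ((X - C c) ^ k * W) = X ^ k * taylor c W := by
  have h : taylor c (X - C c : Polynomial ℂ) = X := by
    rw [map_sub, taylor_X, taylor_C]
    ring
  rw [taylor_mul, taylor_pow, h]

private theorem ecrit_zero {c : ℂ} {k l : ℕ} {Q : Polynomial ℂ} (h : (X - C c) ^ k ∣ Q)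
    (hl : l < k) : (hasseDeriv l Q).eval c = 0 := by
  obtain ⟨W, rfl⟩ := h
  rw [← taylor_coeff, ecrit_tay, coeff_X_pow_mul', if_neg (by omega)]

private theorem ecrit_cop {c : ℂ} {b : Polynomial ℂ} (hb : b.eval c ≠ 0) :
    IsCoprime (X - C c) b := by
  rw [(irreducible_X_sub_C c).coprime_iff_not_dvd, dvd_iff_isRoot]
  exact hb

private theorem ecrit_dvd {c : ℂ} {k : ℕ} {Q : Polynomial ℂ}
    (h : ∀ l < k, (hasseDeriv l Q).eval c = 0) : (X - C c) ^ k ∣ Q := by
  have h1 : (X : Polynomial ℂ) ^ k ∣ taylor c Q := by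
    rw [X_pow_dvd_iff]
    intro l hl
    rw [taylor_coeff]
    exact h l hl
  obtain ⟨W, hW⟩ := h1
  have h2 : taylor (-c) (taylor c Q) = Q := by
    rw [taylor_taylor, neg_add_cancel, taylor_zero]
  have h3 : taylor (-c) (X : Polynomial ℂ) = X - C c := by
    rw [taylor_X, C_neg]
    ring
  rw [hW, taylor_mul, taylor_pow, h3] at h2
  exact ⟨_, h2.symm⟩

private theorem ecrit_wr {P Q : Polynomial ℂ} {c : ℂ} (hc : IsCrit (rat P Q) (c : OnePoint ℂ)) :
    (Wr P Q).eval c = 0 := by
  by_contra hW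
  apply hc
  have h := wr_inj hW
  rw [nhds_prod_eq] at h
  obtain ⟨V, hV, hVV⟩ := Filter.eventually_prod_self_iff'.1 h
  refine ⟨(fun z : ℂ => (z : OnePoint ℂ)) '' V, ?_, ?_⟩
  · rw [← OnePoint.isOpenEmbedding_coe.map_nhds_eq c]
    exact Filter.image_mem_map hV
  · rintro _ ⟨a, ha, rfl⟩ _ ⟨b, hb, rfl⟩ hab
    have h1 : rat P Q (a : OnePoint ℂ) = rat P Q (b : OnePoint ℂ) := hab
    rw [rat_coe, rat_coe] at h1
    have h3 : a = b := hVV a ha b hb (pt_eq h1)
    show (a : OnePoint ℂ) = (b : OnePoint ℂ)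
    rw [h3]

private theorem ecrit_deg {d : ℕ} (v : E d) : (WP v).natDegree ≤ 2 * d := by
  unfold WP Pool.Agent.H61.TT.ww
  have h1 := pol_deg v.1
  have h2 := pol_deg v.2
  have h3 := natDegree_derivative_le (pol v.1)
  have h4 := natDegree_derivative_le (pol v.2)
  refine (natDegree_sub_le _ _).trans (max_le ?_ ?_)
  · exact natDegree_mul_le.trans (by omega)
  · exact natDegree_mul_le.trans (by omega)

private theorem ecrit_pc {d : ℕ} (n : ℕ) :
    Continuous (fun v : Fin (d + 1) → ℂ => (pol v).coeff n) := by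
  simp only [pol_coeff']
  by_cases h : n < d + 1
  · simp only [h, dif_pos]
    exact continuous_apply _
  · simp only [h, dif_neg, not_false_eq_true]
    exact continuous_const

private theorem ecrit_cc {d : ℕ} (n : ℕ) : Continuous (fun v : E d => (WP v).coeff n) := by
  unfold WP Pool.Agent.H61.TT.ww
  simp only [coeff_sub, coeff_mul, coeff_derivative]
  refine Continuous.sub ?_ ?_
  · refine continuous_finsetSum _ fun i _ => ?_
    refine Continuous.mul ?_ ?_
    · exact ((ecrit_pc _).comp continuous_fst).mul continuous_const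
    · exact (ecrit_pc _).comp continuous_snd
  · refine continuous_finsetSum _ fun i _ => ?_
    refine Continuous.mul ?_ ?_
    · exact (ecrit_pc _).comp continuous_fst
    · exact ((ecrit_pc _).comp continuous_snd).mul continuous_const

private theorem ecrit_hc {d : ℕ} (l : ℕ) :
    Continuous (fun x : E d × ℂ => (hasseDeriv l (WP x.1)).eval x.2) := by
  have h : ∀ x : E d × ℂ, (hasseDeriv l (WP x.1)).eval x.2 =
      ∑ n ∈ Finset.range (2 * d + 1), ((n + l).choose l : ℂ) * (WP x.1).coeff (n + l) * x.2 ^ n := by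
    intro x
    have h1 : (hasseDeriv l (WP x.1)).natDegree < 2 * d + 1 := by
      have h2 := natDegree_hasseDeriv_le (WP x.1) l
      have h3 := ecrit_deg x.1
      omega
    rw [eval_eq_sum_range' h1]
    refine Finset.sum_congr rfl fun n _ => ?_
    rw [hasseDeriv_coeff]
  simp only [h]
  refine continuous_finsetSum _ fun n _ => ?_
  exact (continuous_const.mul ((ecrit_cc _).comp continuous_fst)).mul (continuous_snd.pow n)

theorem div_of {b P : Polynomial ℂ} {z : ℂ} {m : ℕ} (hb : b.eval z ≠ 0)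
    (h : ∀ l < m, (hasseDeriv l (b * P)).eval z = 0) : (X - C z) ^ m ∣ P := by
  have h1 := ecrit_dvd h
  exact IsCoprime.dvd_of_dvd_mul_left (IsCoprime.pow_left (ecrit_cop hb)) h1

theorem of_div {b P : Polynomial ℂ} {z : ℂ} {m : ℕ} (hb : b.eval z ≠ 0)
    (hP : P ≠ 0) (hm : P.rootMultiplicity z = m) :
    (∀ l < m, (hasseDeriv l (b * P)).eval z = 0) ∧ (hasseDeriv m (b * P)).eval z ≠ 0 := by
  obtain ⟨Q, hQ, hnd⟩ := exists_eq_pow_rootMultiplicity_mul_and_not_dvd P hP z
  rw [hm] at hQ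
  have hQz : Q.eval z ≠ 0 := by
    intro h0
    exact hnd (dvd_iff_isRoot.2 h0)
  have hbP : b * P = (X - C z) ^ m * (b * Q) := by
    nth_rewrite 1 [hQ]
    ring
  refine ⟨fun l hl => ecrit_zero ⟨_, hbP⟩ hl, ?_⟩
  rw [← taylor_coeff, hbP, ecrit_tay, coeff_X_pow_mul', if_pos le_rfl, Nat.sub_self, taylor_coeff,
    hasseDeriv_zero]
  show (b * Q).eval z ≠ 0
  rw [eval_mul]
  exact mul_ne_zero hb hQz

theorem crit_iso {d : ℕ} {v0 : E d} {c : ℂ} {m : ℕ} (hne : WP v0 ≠ 0)
    (hm : (WP v0).rootMultiplicity c = m) : ∃ R : ℝ, 0 < R ∧ ∀ᶠ w in 𝓝 v0, ∀ z ∈ ball c R,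
      (X - C z) ^ m ∣ WP w → ∀ z' ∈ ball c R, (WP w).eval z' = 0 → z' = z := by
  obtain ⟨U, hU⟩ : ∃ U : E d × (ℂ × ℂ) → ℂ, U = fun x => ∑ l ∈ Finset.range (2 * d + 1),
      if m ≤ l then (hasseDeriv l (WP x.1)).eval x.2.1 * (x.2.2 - x.2.1) ^ (l - m) else 0 :=
    ⟨_, rfl⟩
  have hUc : Continuous U := by
    rw [hU]
    refine continuous_finsetSum _ fun l _ => ?_
    by_cases hl : m ≤ l
    · simp only [hl, if_true]
      refine Continuous.mul ?_ ?_
      · exact (ecrit_hc l).comp (continuous_fst.prodMk (continuous_fst.comp continuous_snd))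
      · exact ((continuous_snd.comp continuous_snd).sub
          (continuous_fst.comp continuous_snd)).pow _
    · simp only [hl, if_false]
      exact continuous_const
  have hone := of_div (b := 1) (z := c) (m := m) (by simp) hne hm
  rw [one_mul] at hone
  have hm2 : m ≤ 2 * d := by
    have h1 := natDegree_le_of_dvd (pow_rootMultiplicity_dvd (WP v0) c) hne
    rw [natDegree_pow, natDegree_X_sub_C, mul_one, hm] at h1
    exact h1.trans (ecrit_deg v0)
  have hU0 : U (v0, (c, c)) ≠ 0 := by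
    have h1 : U (v0, (c, c)) = (hasseDeriv m (WP v0)).eval c := by
      rw [hU]
      show ∑ l ∈ Finset.range (2 * d + 1),
        (if m ≤ l then (hasseDeriv l (WP v0)).eval c * (c - c) ^ (l - m) else 0) = _
      rw [Finset.sum_eq_single m]
      · rw [if_pos le_rfl, Nat.sub_self, pow_zero, mul_one]
      · intro l _ hl
        split_ifs with h1
        · rw [sub_self, zero_pow (by omega), mul_zero]
        · rfl
      · intro h1
        exact absurd (Finset.mem_range.2 (by omega)) h1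
    rw [h1]
    exact hone.2
  have hev := hUc.continuousAt.eventually_ne hU0
  obtain ⟨R, hR, hball⟩ := Metric.eventually_nhds_iff_ball.1 hev
  refine ⟨R, hR, ?_⟩
  filter_upwards [ball_mem_nhds v0 hR] with w hw z hz hdvd z' hz' h0
  have hne' : U (w, (z, z')) ≠ 0 := by
    apply hball
    show max (dist w v0) (max (dist z c) (dist z' c)) < R
    exact max_lt (mem_ball.1 hw) (max_lt (mem_ball.1 hz) (mem_ball.1 hz'))
  have hexp : (WP w).eval z' = (z' - z) ^ m * U (w, (z, z')) := by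
    have h1 : (WP w).eval z' = (taylor z (WP w)).eval (z' - z) := by
      rw [taylor_eval, sub_add_cancel]
    have h2 : (taylor z (WP w)).natDegree < 2 * d + 1 := by
      rw [natDegree_taylor]
      have := ecrit_deg w
      omega
    rw [h1, eval_eq_sum_range' h2, hU]
    show _ = (z' - z) ^ m * ∑ l ∈ Finset.range (2 * d + 1),
      (if m ≤ l then (hasseDeriv l (WP w)).eval z * (z' - z) ^ (l - m) else 0)
    rw [Finset.mul_sum]
    refine Finset.sum_congr rfl fun l _ => ?_
    rw [taylor_coeff]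
    split_ifs with hl
    · obtain ⟨j, rfl⟩ := Nat.exists_eq_add_of_le hl
      rw [Nat.add_sub_cancel_left, pow_add]
      ring
    · rw [ecrit_zero hdvd (by omega), zero_mul, mul_zero]
  rw [hexp] at h0
  rcases mul_eq_zero.1 h0 with h1 | h1
  · by_contra hcon
    exact pow_ne_zero m (sub_ne_zero.2 hcon) h1
  · exact absurd h1 hne'

theorem super_att {d : ℕ} (hd : 2 ≤ d) {w : E d} (hcop : IsCoprime (pol w.1) (pol w.2))
    (hdeg : max (pol w.1).natDegree (pol w.2).natDegree = d) {z : ℂ} (hz : wv w z = 0)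
    {N : ℕ} (hN : 0 < N) (h : (Rf w)^[N] (z : OnePoint ℂ) = (z : OnePoint ℂ)) :
    Att (Rf w) (z : OnePoint ℂ) := by
  have hd1 : 1 ≤ max (pol w.1).natDegree (pol w.2).natDegree := by omega
  have hW0 : (Wr (pol w.1) (pol w.2)).eval z = 0 := by
    rw [← wv_cf (pol_deg w.1) (pol_deg w.2), cf_pol, cf_pol]
    exact hz
  have hcrit : IsCrit (Rf w) (z : OnePoint ℂ) := crit_of_wr hcop hd1 hW0
  have hfin : Set.Finite {s : ℂ | ∃ j < N, (s : OnePoint ℂ) = (Rf w)^[j] (z : OnePoint ℂ)} := by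
    have h1 : ((fun j => (Rf w)^[j] (z : OnePoint ℂ)) '' (Set.Iio N)).Finite :=
      (Set.finite_Iio N).image _
    refine (h1.preimage (OnePoint.coe_injective.injOn)).subset ?_
    rintro s ⟨j, hj, hs⟩
    exact ⟨j, hj, hs.symm⟩
  obtain ⟨s, hs⟩ := hfin.exists_notMem
  have hper : Function.IsPeriodicPt (Rf w) N (z : OnePoint ℂ) := h
  have hs' : ∀ j, (Rf w)^[j] (z : OnePoint ℂ) ≠ (s : OnePoint ℂ) := by
    intro j h0
    rw [← hper.iterate_mod_apply j] at h0
    exact hs ⟨j % N, Nat.mod_lt j hN, h0.symm⟩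
  obtain ⟨φ, -, hφ2, -, hφ4⟩ := exists_mob s
  obtain ⟨hcop1, hdeg1, hconj⟩ := hφ4 d (pol w.1) (pol w.2) hcop hdeg (by omega)
  obtain ⟨P1, hP1⟩ : ∃ P1, P1 = cj1 s d (pol w.1) (pol w.2) := ⟨_, rfl⟩
  obtain ⟨Q1, hQ1⟩ : ∃ Q1, Q1 = cj2 s d (pol w.1) (pol w.2) := ⟨_, rfl⟩
  rw [← hP1, ← hQ1] at hcop1 hdeg1 hconj
  have hconj' : ∀ x, rat P1 Q1 (φ x) = φ (Rf w x) := hconj
  have hiter : ∀ j, (rat P1 Q1)^[j] (φ z) = φ ((Rf w)^[j] (z : OnePoint ℂ)) := fun j =>
    iter_conj φ hconj' j z
  have hninf : ∀ j, (rat P1 Q1)^[j] (φ z) ≠ OnePoint.infty := by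
    intro j h0
    rw [hiter, ← hφ2] at h0
    exact hs' j (φ.injective h0)
  choose x hx using fun j => OnePoint.ne_infty_iff_exists.1 (hninf j)
  have hx0 : (x 0 : OnePoint ℂ) = φ z := hx 0
  have hcrit1 : IsCrit (rat P1 Q1) (x 0 : OnePoint ℂ) := by
    rw [hx0]
    exact (isCrit_conj φ hconj' z).2 hcrit
  have hWr := ecrit_wr hcrit1
  have hPd : P1.natDegree ≤ d := by
    rw [← hdeg1]
    exact le_max_left _ _
  have hQd : Q1.natDegree ≤ d := by
    rw [← hdeg1]
    exact le_max_right _ _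
  have hstep : ∀ j, Q1.eval (x j) ≠ 0 ∧ P1.eval (x j) / Q1.eval (x j) = x (j + 1) := by
    intro j
    have h1 : rat P1 Q1 (x j : OnePoint ℂ) = (x (j + 1) : OnePoint ℂ) := by
      rw [hx j, hx (j + 1), Function.iterate_succ_apply']
    rw [rat_coe] at h1
    unfold pt at h1
    split_ifs at h1 with h2
    · exact absurd h1.symm (OnePoint.coe_ne_infty _)
    · exact ⟨h2, OnePoint.coe_injective h1⟩
  have hxN : x N = x 0 := by
    apply OnePoint.coe_injective
    rw [hx N, hx0, hiter, h]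
  obtain ⟨r, hr, -, hev⟩ := sink_of_mult (cf d P1, cf d Q1) x N hN hxN
    (fun j _ => by
      show ev (cf d Q1) (x j) ≠ 0
      rw [ev_cf hQd]
      exact (hstep j).1)
    (fun j _ => by
      show ev (cf d P1) (x j) / ev (cf d Q1) (x j) = x (j + 1)
      rw [ev_cf hPd, ev_cf hQd]
      exact (hstep j).2)
    (by
      have h1 : ∏ j ∈ Finset.range N, wv (cf d P1, cf d Q1) (x j) / ev (cf d Q1) (x j) ^ 2 = 0 := by
        refine Finset.prod_eq_zero (Finset.mem_range.2 hN) ?_
        rw [wv_cf hPd hQd, hWr, zero_div]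
      show ‖∏ j ∈ Finset.range N, wv (cf d P1, cf d Q1) (x j) / ev (cf d Q1) (x j) ^ 2‖ < 1
      rw [h1, norm_zero]
      exact one_pos)
    Set.univ Filter.univ_mem
  obtain ⟨z', -, hsink, hten⟩ := hev.self_of_nhds P1 Q1 hcop1 hPd hQd rfl
  have hatt : Att (rat P1 Q1) (φ z) := by
    rw [← hx0]
    exact ⟨z', N, hsink, (hten (x 0) (mem_closedBall_self hr.le)).1⟩
  exact (att_conj φ hconj' z).1 hatt

end Pool.Agent.H91.CS
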