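import Mathlib

/-!
# Module MNET: the points `v` at which `(cosh (2 v) + 1) / 2` is an integer form a net

PROOF. `w = x + i y`. Let `n = ⌊(cosh (2 x) + 1) / 2⌋ ≥ 1`: `2 n - 1 ≤ cosh (2 x) < 2 n + 1`. By the intermediate value theorem on `[0, |x|]` there is `x' ∈ [0, |x|]` with `cosh (2 x') = 2 n - 1`. If `|x| ≥ x' + 1` then
`cosh (2 x) ≥ cosh (2 x' + 2) ≥ cosh (2 x') cosh 2 ≥ 3 (2 n - 1) ≥ 2 n + 1` (`cosh 2 ≥ 1 + 2 = 3`), a contradiction; so `|x| - x' < 1`. Let `m` be an integer with `|y - π m| ≤ π / 2`. `v = ± x' + i π m` (the sign of `x`):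
`cosh (2 v) = cosh (± 2 x' + 2 π i m) = cosh (2 x')`, `‖w - v‖ ≤ 1 + π / 2 < 3`.
-/

set_option autoImplicit false

open Metric Set Filter Topology

namespace Pool.Agent.H91.CS

private theorem net_real (x : ℝ) (hx : 0 ≤ x) :
    ∃ (n : ℤ) (x' : ℝ), 0 ≤ x' ∧ x' ≤ x ∧ x - x' < 1 ∧ Real.cosh (2 * x') = 2 * (n : ℝ) - 1 := by
  have hC : 1 ≤ Real.cosh (2 * x) := Real.one_le_cosh _
  obtain ⟨n, hn⟩ : ∃ n : ℤ, n = ⌊(Real.cosh (2 * x) + 1) / 2⌋ := ⟨_, rfl⟩
  have h1 : (n : ℝ) ≤ (Real.cosh (2 * x) + 1) / 2 := hn ▸ Int.floor_le _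
  have h2 : (Real.cosh (2 * x) + 1) / 2 < (n : ℝ) + 1 := hn ▸ Int.lt_floor_add_one _
  have h3 : (1 : ℤ) ≤ n := by
    rw [hn, Int.le_floor]
    push_cast
    linarith
  have h3' : (1 : ℝ) ≤ n := by exact_mod_cast h3
  have hcont : ContinuousOn (fun t : ℝ => Real.cosh (2 * t)) (Icc 0 x) :=
    (Real.continuous_cosh.comp (continuous_const.mul continuous_id)).continuousOn
  have h4 : 2 * (n : ℝ) - 1 ∈ (fun t : ℝ => Real.cosh (2 * t)) '' Icc 0 x := by
    refine intermediate_value_Icc hx hcont ⟨?_, ?_⟩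
    · simp only [mul_zero, Real.cosh_zero]
      linarith
    · linarith
  obtain ⟨x', ⟨h5, h6⟩, h7⟩ := h4
  simp only at h7
  refine ⟨n, x', h5, h6, ?_, h7⟩
  by_contra hcon
  have h8 : x' + 1 ≤ x := by linarith
  have h9 : Real.cosh (2 * x' + 2) ≤ Real.cosh (2 * x) := by
    rw [Real.cosh_le_cosh, abs_of_nonneg (by linarith), abs_of_nonneg (by linarith)]
    linarith
  have h10 : (1 : ℝ) ≤ Real.sinh 1 := Real.self_le_sinh_iff.mpr zero_le_one
  have h11 : 3 ≤ Real.cosh 2 := by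
    have h12 : Real.cosh 2 = 1 + 2 * Real.sinh 1 ^ 2 := by
      rw [show (2 : ℝ) = 2 * 1 by norm_num, Real.cosh_two_mul, Real.cosh_sq]
      ring
    rw [h12]
    nlinarith
  have h12 : 0 ≤ Real.sinh (2 * x') := Real.sinh_nonneg_iff.mpr (by linarith)
  have h13 : 0 ≤ Real.sinh 2 := Real.sinh_nonneg_iff.mpr (by norm_num)
  rw [Real.cosh_add, h7] at h9
  have h14 : 0 ≤ Real.sinh (2 * x') * Real.sinh 2 := mul_nonneg h12 h13
  nlinarith

theorem net (w : ℂ) : ∃ v ∈ ball w 3, ∃ n : ℤ, (Complex.cosh (2 * v) + 1) / 2 = n := by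
  obtain ⟨n, x', h1, h2, h3, h4⟩ := net_real |w.re| (abs_nonneg _)
  obtain ⟨s, hs1, hs2⟩ : ∃ s : ℝ, |w.re - s| < 1 ∧ Real.cosh (2 * s) = Real.cosh (2 * x') := by
    rcases le_or_gt 0 w.re with h | h
    · refine ⟨x', ?_, rfl⟩
      rw [abs_of_nonneg h] at h2 h3
      rw [abs_of_nonneg (by linarith)]
      exact h3
    · refine ⟨-x', ?_, ?_⟩
      · rw [abs_of_neg h] at h2 h3
        rw [abs_lt]
        constructor <;> linarith
      · rw [mul_neg, Real.cosh_neg]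
  obtain ⟨m, hm⟩ : ∃ m : ℤ, m = round (w.im / Real.pi) := ⟨_, rfl⟩
  have hpi := Real.pi_pos
  have h5 : |w.im - Real.pi * m| ≤ Real.pi / 2 := by
    have h6 := abs_sub_round (w.im / Real.pi)
    rw [← hm] at h6
    have h7 : w.im - Real.pi * m = Real.pi * (w.im / Real.pi - m) := by
      field_simp
    rw [h7, abs_mul, abs_of_pos hpi]
    nlinarith
  refine ⟨⟨s, Real.pi * m⟩, ?_, n, ?_⟩
  · rw [mem_ball, dist_comm, Complex.dist_eq]
    have h6 := Complex.norm_le_abs_re_add_abs_im (w - ⟨s, Real.pi * m⟩)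
    rw [Complex.sub_re, Complex.sub_im] at h6
    simp only at h6
    have h7 := Real.pi_lt_d2
    linarith
  · have h6 : (2 * (⟨s, Real.pi * m⟩ : ℂ)) = ((2 * s : ℝ) : ℂ) +
        ((m : ℂ) * (2 * (Real.pi : ℂ))) * Complex.I := by
      apply Complex.ext
      · simp
      · simp
        ring
    have h7 : Complex.sin ((m : ℂ) * (2 * (Real.pi : ℂ))) = 0 := by
      have h8 := Complex.sin_int_mul_pi (2 * m)
      push_cast at h8
      rw [← h8]
      congr 1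
      ring
    rw [h6, Complex.cosh_add, Complex.cosh_mul_I, Complex.sinh_mul_I, h7,
      Complex.cos_int_mul_two_pi, zero_mul, mul_zero, add_zero, mul_one, ← Complex.ofReal_cosh,
      hs2, h4]
    push_cast
    ring

end Pool.Agent.H91.CS
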