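import Pool.Agent.H91.CS.MBLO
import Pool.Agent.H91.CS.MNET

/-!
# Module MLAN: Landau's theorem

PROOF. Lemma: a holomorphic function without zeros on `ball 0 1` has a holomorphic logarithm `l` there, `exp (l z) = u z`, with `l 0 = log (u 0)` (primitive of `u' / u`: `DifferentiableOn.isExactOn_ball`; then `u * exp (- l)`
has derivative `0`). Let `l` be the logarithm of `g`, `h = l / (2 π i)`: `exp (2 π i h) = g`, so `h z` is never an integer. So `h` and `h - 1` have no zeros: holomorphic `s, t` with `s ^ 2 = h`, `t ^ 2 = h - 1` (exponential of half of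
the logarithm). `(s - t) (s + t) = 1`, so `s - t` has no zeros: `s - t = exp v`, `s + t = exp (- v)`, `s = cosh v`, `t = - sinh v`, `h = cosh v ^ 2 = (cosh (2 v) + 1) / 2`. By `net` the image of `v` contains no ball of radius
`3`, so by `bloch` `‖deriv v 0‖ / 96 < 3`. `h' = 2 cosh v sinh v v'`, so `‖h' 0‖ = 2 ‖s 0‖ ‖t 0‖ ‖v' 0‖ ≤ 2 * 288 * (‖h 0‖ + 1)` (`‖s‖ ‖t‖ ≤ (‖s‖ ^ 2 + ‖t‖ ^ 2) / 2 ≤ ‖h‖ + 1`), `g' = 2 π i g h'`,
`‖h 0‖ ≤ (|log ‖g 0‖| + π) / (2 π)`, and `x (1 + |log x|) ≤ 3 (1 + x ^ 2)` for `x > 0`.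
-/

set_option autoImplicit false

open Metric Set Filter Topology

namespace Pool.Agent.H91.CS

private theorem lan_log {u : ℂ → ℂ} (hu : DifferentiableOn ℂ u (ball 0 1))
    (h0 : ∀ z ∈ ball (0 : ℂ) 1, u z ≠ 0) :
    ∃ l : ℂ → ℂ, DifferentiableOn ℂ l (ball 0 1) ∧ l 0 = Complex.log (u 0) ∧
      ∀ z ∈ ball (0 : ℂ) 1, Complex.exp (l z) = u z := by
  have hz : (0 : ℂ) ∈ ball (0 : ℂ) 1 := mem_ball_self one_pos
  have hf : DifferentiableOn ℂ (fun z => deriv u z / u z) (ball 0 1) :=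
    (hu.deriv isOpen_ball).div hu h0
  obtain ⟨F, hF0, hF⟩ := hf.isExactOn_ball.with_val_at 0 (Complex.log (u 0))
  have hw : ∀ z ∈ ball (0 : ℂ) 1,
      HasDerivAt (fun z => u z * Complex.exp (-(F z))) 0 z := by
    intro z hzb
    have h1 : HasDerivAt u (deriv u z) z :=
      (hu.differentiableAt (isOpen_ball.mem_nhds hzb)).hasDerivAt
    have h2 := h1.mul (hF z hzb).neg.cexp
    refine h2.congr_deriv ?_
    have := h0 z hzb
    field_simp
    ring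
  have hc : ∀ z ∈ ball (0 : ℂ) 1, u z * Complex.exp (-(F z)) = 1 := by
    intro z hzb
    have h1 : u z * Complex.exp (-(F z)) = u 0 * Complex.exp (-(F 0)) :=
      isOpen_ball.is_const_of_deriv_eq_zero (convex_ball (0 : ℂ) 1).isPreconnected
        (fun z hz => (hw z hz).differentiableAt.differentiableWithinAt)
        (fun z hz => (hw z hz).deriv) hzb hz
    rw [h1, hF0, Complex.exp_neg, Complex.exp_log (h0 0 hz)]
    exact mul_inv_cancel₀ (h0 0 hz)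
  refine ⟨F, fun z hz => (hF z hz).differentiableAt.differentiableWithinAt, hF0, ?_⟩
  intro z hzb
  have h1 := hc z hzb
  rw [Complex.exp_neg] at h1
  have h2 := Complex.exp_ne_zero (F z)
  field_simp at h1
  exact h1.symm

private theorem lan_real (x : ℝ) (hx : 0 < x) : x * |Real.log x| ≤ 1 + x ^ 2 := by
  rcases le_or_gt 1 x with h | h
  · rw [abs_of_nonneg (Real.log_nonneg h)]
    have := Real.log_le_sub_one_of_pos hx
    nlinarith
  · rw [abs_of_nonpos (Real.log_nonpos hx.le h.le)]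
    have h1 := Real.log_le_sub_one_of_pos (inv_pos.mpr hx)
    rw [Real.log_inv] at h1
    have h2 : x * -Real.log x ≤ x * (x⁻¹ - 1) := mul_le_mul_of_nonneg_left h1 hx.le
    rw [mul_sub, mul_inv_cancel₀ hx.ne'] at h2
    nlinarith

theorem landau : ∃ C : ℝ, 0 < C ∧ ∀ g : ℂ → ℂ, DifferentiableOn ℂ g (ball 0 1) →
    (∀ z ∈ ball (0 : ℂ) 1, g z ≠ 0 ∧ g z ≠ 1) → ‖deriv g 0‖ ≤ C * (1 + ‖g 0‖ ^ 2) := by
  refine ⟨3456, by norm_num, fun g hg hg01 => ?_⟩
  have hz : (0 : ℂ) ∈ ball (0 : ℂ) 1 := mem_ball_self one_pos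
  have hpi : (Real.pi : ℂ) ≠ 0 := by exact_mod_cast Real.pi_ne_zero
  have hpp := Real.pi_pos
  have h2pi : (2 * (Real.pi : ℂ) * Complex.I) ≠ 0 :=
    mul_ne_zero (mul_ne_zero two_ne_zero hpi) Complex.I_ne_zero
  obtain ⟨l, hl, hl0, hle⟩ := lan_log hg fun z hz => (hg01 z hz).1
  obtain ⟨h, hh⟩ : ∃ h : ℂ → ℂ, h = fun z => l z / (2 * (Real.pi : ℂ) * Complex.I) := ⟨_, rfl⟩
  have hhd : DifferentiableOn ℂ h (ball 0 1) := by
    rw [hh]
    exact hl.div_const _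
  have hlh : ∀ z, l z = 2 * (Real.pi : ℂ) * Complex.I * h z := by
    intro z
    rw [hh]
    field_simp
  have hint : ∀ z ∈ ball (0 : ℂ) 1, ∀ k : ℤ, h z ≠ k := by
    intro z hzb k hk
    apply (hg01 z hzb).2
    rw [← hle z hzb, hlh, hk, mul_comm]
    exact Complex.exp_int_mul_two_pi_mul_I k
  obtain ⟨l1, hl1, _, hl1e⟩ := lan_log hhd fun z hz => by
    have := hint z hz 0
    simpa using this
  obtain ⟨l2, hl2, _, hl2e⟩ := lan_log (hhd.sub_const 1) fun z hz => by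
    have := hint z hz 1
    rw [Int.cast_one] at this
    exact sub_ne_zero.mpr this
  obtain ⟨s, hs⟩ : ∃ s : ℂ → ℂ, s = fun z => Complex.exp (l1 z / 2) := ⟨_, rfl⟩
  obtain ⟨t, ht⟩ : ∃ t : ℂ → ℂ, t = fun z => Complex.exp (l2 z / 2) := ⟨_, rfl⟩
  have hss : ∀ z ∈ ball (0 : ℂ) 1, s z ^ 2 = h z := by
    intro z hzb
    rw [hs, ← hl1e z hzb]
    simp only
    rw [← Complex.exp_nat_mul]
    congr 1
    push_cast
    ring
  have htt : ∀ z ∈ ball (0 : ℂ) 1, t z ^ 2 = h z - 1 := by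
    intro z hzb
    rw [ht, ← hl2e z hzb]
    simp only
    rw [← Complex.exp_nat_mul]
    congr 1
    push_cast
    ring
  have hsd : DifferentiableOn ℂ s (ball 0 1) := by
    rw [hs]
    exact (hl1.div_const 2).cexp
  have htd : DifferentiableOn ℂ t (ball 0 1) := by
    rw [ht]
    exact (hl2.div_const 2).cexp
  have hst : ∀ z ∈ ball (0 : ℂ) 1, (s z - t z) * (s z + t z) = 1 := by
    intro z hzb
    linear_combination hss z hzb - htt z hzb
  have hst0 : ∀ z ∈ ball (0 : ℂ) 1, s z - t z ≠ 0 := by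
    intro z hzb h0
    have := hst z hzb
    rw [h0, zero_mul] at this
    exact zero_ne_one this
  obtain ⟨v, hv, _, hve⟩ := lan_log (hsd.sub htd) hst0
  have hve : ∀ z ∈ ball (0 : ℂ) 1, Complex.exp (v z) = s z - t z := hve
  have hven : ∀ z ∈ ball (0 : ℂ) 1, Complex.exp (-(v z)) = s z + t z := by
    intro z hzb
    rw [Complex.exp_neg, hve z hzb]
    exact inv_eq_of_mul_eq_one_right (hst z hzb)
  have hcosh : ∀ z ∈ ball (0 : ℂ) 1, Complex.cosh (v z) = s z := by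
    intro z hzb
    rw [Complex.cosh, hve z hzb, hven z hzb]
    ring
  have hsinh : ∀ z ∈ ball (0 : ℂ) 1, Complex.sinh (v z) = -(t z) := by
    intro z hzb
    rw [Complex.sinh, hve z hzb, hven z hzb]
    ring
  have hhc : ∀ z ∈ ball (0 : ℂ) 1, h z = Complex.cosh (v z) ^ 2 := by
    intro z hzb
    rw [hcosh z hzb, hss z hzb]
  obtain ⟨w, hw⟩ := bloch hv
  have hv288 : ‖deriv v 0‖ < 288 := by
    by_contra hcon
    rw [not_lt] at hcon
    obtain ⟨v0, hv0, n, hn⟩ := net w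
    obtain ⟨z, hzb, hzv⟩ := hw (ball_subset_ball (by linarith) hv0)
    apply hint z hzb n
    rw [hhc z hzb, hzv, ← hn, Complex.cosh_two_mul, Complex.sinh_sq]
    ring
  have hhe : h =ᶠ[𝓝 0] fun z => Complex.cosh (v z) ^ 2 :=
    Filter.eventuallyEq_of_mem (isOpen_ball.mem_nhds hz) hhc
  have hvd : HasDerivAt v (deriv v 0) 0 :=
    (hv.differentiableAt (isOpen_ball.mem_nhds hz)).hasDerivAt
  have hdh : HasDerivAt h (2 * Complex.cosh (v 0) * (Complex.sinh (v 0) * deriv v 0)) 0 := by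
    refine HasDerivAt.congr_of_eventuallyEq ?_ hhe
    refine (hvd.ccosh.pow 2).congr_deriv ?_
    push_cast
    ring
  have hge : g =ᶠ[𝓝 0] fun z => Complex.exp (2 * (Real.pi : ℂ) * Complex.I * h z) := by
    refine Filter.eventuallyEq_of_mem (isOpen_ball.mem_nhds hz) fun z hzb => ?_
    rw [← hlh, hle z hzb]
  have hdg : HasDerivAt g (Complex.exp (2 * (Real.pi : ℂ) * Complex.I * h 0) *
      (2 * (Real.pi : ℂ) * Complex.I *
        (2 * Complex.cosh (v 0) * (Complex.sinh (v 0) * deriv v 0)))) 0 :=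
    HasDerivAt.congr_of_eventuallyEq (hdh.const_mul _).cexp hge
  rw [hdg.deriv, ← hlh, hle 0 hz, hcosh 0 hz, hsinh 0 hz]
  simp only [norm_mul, norm_neg, Complex.norm_I, Complex.norm_real, Real.norm_eq_abs,
    abs_of_pos hpp, Complex.norm_ofNat, mul_one]
  have hx : 0 < ‖g 0‖ := norm_pos_iff.mpr (hg01 0 hz).1
  have h1 : ‖s 0‖ ^ 2 = ‖h 0‖ := by rw [← norm_pow, hss 0 hz]
  have h2 : ‖t 0‖ ^ 2 ≤ ‖h 0‖ + 1 := by
    rw [← norm_pow, htt 0 hz]
    refine (norm_sub_le _ _).trans ?_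
    rw [norm_one]
  have h3 : ‖s 0‖ * ‖t 0‖ ≤ ‖h 0‖ + 1 := by
    nlinarith [sq_nonneg (‖s 0‖ - ‖t 0‖), norm_nonneg (h 0)]
  have h4 : 2 * Real.pi * ‖h 0‖ ≤ |Real.log ‖g 0‖| + Real.pi := by
    have h5 : ‖l 0‖ = 2 * Real.pi * ‖h 0‖ := by
      rw [hlh]
      simp only [norm_mul, Complex.norm_I, Complex.norm_real, Real.norm_eq_abs,
        abs_of_pos hpp, Complex.norm_ofNat, mul_one]
    rw [← h5, hl0]
    refine (Complex.norm_le_abs_re_add_abs_im _).trans ?_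
    rw [Complex.log_re, Complex.log_im]
    have := Complex.abs_arg_le_pi (g 0)
    linarith
  have h5 := lan_real ‖g 0‖ hx
  have hpi4 : Real.pi < 3.15 := Real.pi_lt_d2
  have h6 : 0 ≤ ‖s 0‖ * ‖t 0‖ := by positivity
  calc ‖g 0‖ * (2 * Real.pi * (2 * ‖s 0‖ * (‖t 0‖ * ‖deriv v 0‖)))
      = ‖g 0‖ * (2 * Real.pi * (2 * ((‖s 0‖ * ‖t 0‖) * ‖deriv v 0‖))) := by ring
    _ ≤ ‖g 0‖ * (2 * Real.pi * (2 * ((‖h 0‖ + 1) * 288))) := by
        gcongr
    _ = 576 * ‖g 0‖ * (2 * Real.pi * ‖h 0‖ + 2 * Real.pi) := by ring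
    _ ≤ 576 * ‖g 0‖ * ((|Real.log ‖g 0‖| + Real.pi) + 2 * Real.pi) := by
        gcongr
    _ = 576 * (‖g 0‖ * |Real.log ‖g 0‖| + 3 * Real.pi * ‖g 0‖) := by ring
    _ ≤ 576 * ((1 + ‖g 0‖ ^ 2) + 10 * ‖g 0‖) := by
        have : 3 * Real.pi * ‖g 0‖ ≤ 10 * ‖g 0‖ := by
          gcongr
          linarith
        linarith
    _ ≤ 3456 * (1 + ‖g 0‖ ^ 2) := by nlinarith [sq_nonneg (‖g 0‖ - 1)]

end Pool.Agent.H91.CS
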