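import Pool.Agent.H91.CS.EGRS
import Pool.Agent.H91.CS.EDefs
import Pool.Agent.H91.CE.CHARTC

/-!
# Module ECH: a good chart

PROOF (compare `chart_ce`, H91/CE/CHARTC, and `chart_K`, H35/EX/ChartK). `f = Rf v0`, `Cr = {c | IsCrit f c}` finite (`crit_finite`). For each `c ∈ Cr` attracted choose a sink `z_c` of period `n_c` attracting it. `S` = the set of `x` with: `x ∈ ⋃ c ∈ Cr, range (f^[j] c)`, or `x = f^[j] z_c` for some `j`, or `f^[n] x ∈ Cr` for some `n`
(`pre_countable`, H79/Par/PerFin): countable. Choose `s : ℂ`, `(s : OnePoint ℂ) ∉ S`; `φ`, `hconj` from `exists_mob` (H32/BT/Mob) or as obtained by `good_U` in CHARTC (with `U = univ`); `g = Rf (Lin s v0)`, coprime of degree `d`. `∞ = φ s` is not critical (`isCrit_conj`, `s ∉ Cr`); `g^[n] ∞ = φ (f^[n] s)` is not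
critical; a zero `c` of `wv (Lin s v0)` is critical (`crit_of_wr`), `c = φ c'`, `c' ∈ Cr`, and its orbit does not meet `∞` as `s ∉ range (f^[j] c')`: `orb_all` (H79/Par/PerDec) gives the denominators and `g^[j] c = it (Lin s v0) j c`. If `c'` is attracted by `z_c'`: `AttG` with `φ z_c' = z`
(`isSink_conj`; `z_c' ≠ s`; its orbit does not meet `s`). If `CEAt f (f c')`: `grs_conj` for `x = f c'`, `w = it (Lin s v0) 1 c`. Last: `c'` with infinite orbit: `j ↦ it (Lin s v0) j c` is injective, otherwise the orbit of `c'` is finite (`it _ i c = it _ j c`, `i < j`, makes the orbit eventually periodic).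
-/

set_option autoImplicit false

open Filter Topology Polynomial Metric Set

namespace Pool.Agent.H91.CS

open Pool.Agent.H44.Fatou Pool.Agent.H32.BT Pool.Agent.H79.Eul Pool.Agent.H79.Par
open Pool.Agent.H35.RL Pool.Agent.H35.EX Pool.Agent.H91.CE

private theorem ECH_fin {α : Type*} {g : α → α} {x : α} {u v : ℕ} (huv : u < v)
    (he : g^[u] x = g^[v] x) : (Set.range fun k : ℕ => g^[k] x).Finite := by
  refine Set.Finite.subset ((Set.finite_Iio v).image fun k : ℕ => g^[k] x) ?_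
  rintro _ ⟨m, rfl⟩
  induction m using Nat.strong_induction_on with
  | _ m ih =>
    by_cases hm : m < v
    · exact ⟨m, hm, rfl⟩
    · have h2 : g^[m] x = g^[(m - v) + u] x := by
        rw [Function.iterate_add_apply, he, ← Function.iterate_add_apply,
          Nat.sub_add_cancel (not_lt.1 hm)]
      show (fun k : ℕ => g^[k] x) m ∈ _
      have h3 : (fun k : ℕ => g^[k] x) m = (fun k : ℕ => g^[k] x) ((m - v) + u) := h2
      rw [h3]
      exact ih ((m - v) + u) (by omega)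

theorem chart_cs {d : ℕ} (hd : 2 ≤ d) {v0 : E d} (hcop : IsCoprime (pol v0.1) (pol v0.2))
    (hdeg : max (pol v0.1).natDegree (pol v0.2).natDegree = d)
    (h : ∀ c, IsCrit (Rf v0) c → Att (Rf v0) c ∨ CEAt (Rf v0) (Rf v0 c))
    (hex : ∃ c, IsCrit (Rf v0) c ∧ (Set.range fun k : ℕ => (Rf v0)^[k] c).Infinite) :
    ∃ s : ℂ, IsCoprime (pol (Lin s v0).1) (pol (Lin s v0).2) ∧
      max (pol (Lin s v0).1).natDegree (pol (Lin s v0).2).natDegree = d ∧
      ¬ IsCrit (Rf (Lin s v0)) OnePoint.infty ∧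
      (∀ c : ℂ, wv (Lin s v0) c = 0 →
        ∀ n, (Rf (Lin s v0))^[n] OnePoint.infty ≠ (c : OnePoint ℂ)) ∧
      (∀ c : ℂ, wv (Lin s v0) c = 0 → AttG (Lin s v0) c ∨
        (ev (Lin s v0).2 c ≠ 0 ∧ GrS (Lin s v0) (it (Lin s v0) 1 c))) ∧
      ∃ c : ℂ, wv (Lin s v0) c = 0 ∧ (∀ k, ev (Lin s v0).2 (it (Lin s v0) k c) ≠ 0) ∧
        Function.Injective fun k : ℕ => it (Lin s v0) k c := by
  classical
  have hd1 : 1 ≤ max (pol v0.1).natDegree (pol v0.2).natDegree := by rw [hdeg]; omega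
  have hfin : {c | IsCrit (Rf v0) c}.Finite := crit_finite hcop hd1
  have hZ0 : ∀ c : OnePoint ℂ, ∃ (z : OnePoint ℂ) (n : ℕ), Att (Rf v0) c →
      IsSink (Rf v0) z n ∧ Tendsto (fun k : ℕ => (Rf v0)^[n * k] c) atTop (𝓝 z) := by
    intro c
    by_cases hc : Att (Rf v0) c
    · obtain ⟨z, n, h1, h2⟩ := hc
      exact ⟨z, n, fun _ => ⟨h1, h2⟩⟩
    · exact ⟨c, 0, fun h => absurd h hc⟩
  choose Z N hZ using hZ0
  obtain ⟨S, hS⟩ : ∃ S : Set (OnePoint ℂ), S =
      (({c | IsCrit (Rf v0) c} ∪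
      (⋃ c ∈ {c | IsCrit (Rf v0) c}, Set.range (fun j : ℕ => (Rf v0)^[j] c))) ∪
      (⋃ c ∈ {c | IsCrit (Rf v0) c}, Set.range (fun j : ℕ => (Rf v0)^[j] (Z c)))) ∪
      (⋃ c ∈ {c | IsCrit (Rf v0) c}, {x | ∃ j : ℕ, (Rf v0)^[j] x = c}) := ⟨_, rfl⟩
  have hScount : S.Countable := by
    rw [hS]
    exact ((hfin.countable.union
      (hfin.countable.biUnion fun c _ => Set.countable_range _)).union
      (hfin.countable.biUnion fun c _ => Set.countable_range _)).union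
      (hfin.countable.biUnion fun c _ => pre_countable hcop hd1 c)
  obtain ⟨s, φ, hsS, -, hφs, hφ, hφi, hconj, hcop1, hdeg1⟩ :=
    good_U hd hcop hdeg hScount isOpen_univ Set.univ_nonempty
  rw [hS] at hsS
  have hs1 : ¬ IsCrit (Rf v0) (s : OnePoint ℂ) :=
    fun hh => hsS (Or.inl (Or.inl (Or.inl hh)))
  have hs2 : ∀ c, IsCrit (Rf v0) c → ∀ j, (Rf v0)^[j] c ≠ (s : OnePoint ℂ) := by
    intro c hc j hj
    apply hsS
    refine Or.inl (Or.inl (Or.inr ?_))
    rw [Set.mem_iUnion₂]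
    exact ⟨c, hc, j, hj⟩
  have hs3 : ∀ c, IsCrit (Rf v0) c → ∀ j, (Rf v0)^[j] (Z c) ≠ (s : OnePoint ℂ) := by
    intro c hc j hj
    apply hsS
    refine Or.inl (Or.inr ?_)
    rw [Set.mem_iUnion₂]
    exact ⟨c, hc, j, hj⟩
  have hs4 : ∀ c, IsCrit (Rf v0) c → ∀ j, (Rf v0)^[j] (s : OnePoint ℂ) ≠ c := by
    intro c hc j hj
    apply hsS
    refine Or.inr ?_
    rw [Set.mem_iUnion₂]
    exact ⟨c, hc, j, hj⟩
  have hne : ∀ x : OnePoint ℂ, x ≠ (s : OnePoint ℂ) → φ x ≠ OnePoint.infty := by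
    intro x hx hh
    rw [← hφs] at hh
    exact hx (φ.injective hh)
  have hic : ∀ (j : ℕ) (x : OnePoint ℂ), (Rf (Lin s v0))^[j] (φ x) = φ ((Rf v0)^[j] x) :=
    fun j x => iter_conj φ hconj j x
  have hd1' : 1 ≤ max (pol (Lin s v0).1).natDegree (pol (Lin s v0).2).natDegree := by
    rw [hdeg1]; omega
  -- zeros of the Wronskian
  have hcrit : ∀ c : ℂ, wv (Lin s v0) c = 0 → ∃ c' : OnePoint ℂ, φ c' = (c : OnePoint ℂ) ∧
      IsCrit (Rf v0) c' := by
    intro c hc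
    obtain ⟨c', hc'⟩ := φ.surjective (c : OnePoint ℂ)
    refine ⟨c', hc', ?_⟩
    rw [← isCrit_conj φ hconj, hc']
    apply crit_of_wr hcop1 hd1'
    rw [← wv_cf (d := d) (pol_deg _) (pol_deg _), cf_pol, cf_pol]
    exact hc
  have horb : ∀ (c : ℂ) (c' : OnePoint ℂ), φ c' = (c : OnePoint ℂ) → IsCrit (Rf v0) c' →
      (∀ j, (Rf (Lin s v0))^[j] (c : OnePoint ℂ) ≠ OnePoint.infty) ∧
      (∀ n, ev (Lin s v0).2 (it (Lin s v0) n c) ≠ 0) ∧
      ∀ j, (Rf (Lin s v0))^[j] (c : OnePoint ℂ) = ((it (Lin s v0) j c : ℂ) : OnePoint ℂ) := by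
    intro c c' hcc hcr
    have h0 : ∀ j, (Rf (Lin s v0))^[j] (c : OnePoint ℂ) ≠ OnePoint.infty := by
      intro j
      rw [← hcc, hic]
      exact hne _ (hs2 c' hcr j)
    obtain ⟨h1, h2⟩ := orb_all h0
    exact ⟨h0, fun n => (h1 (n + 1) n (Nat.lt_succ_self n)).1, h2⟩
  refine ⟨s, hcop1, hdeg1, ?_, ?_, ?_, ?_⟩
  · rw [← hφs, isCrit_conj φ hconj]
    exact hs1
  · intro c hc n hn
    obtain ⟨c', hcc, hcr⟩ := hcrit c hc
    rw [← hφs, hic, ← hcc] at hn
    exact hs4 c' hcr n (φ.injective hn)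
  · intro c hc
    obtain ⟨c', hcc, hcr⟩ := hcrit c hc
    obtain ⟨h0, h1, h2⟩ := horb c c' hcc hcr
    rcases h c' hcr with hA | hE
    · obtain ⟨hA1, hA2⟩ := hZ c' hA
      have hzf : ∀ j, φ ((Rf v0)^[j] (Z c')) ≠ OnePoint.infty := fun j => hne _ (hs3 c' hcr j)
      obtain ⟨z', hz'⟩ := OnePoint.ne_infty_iff_exists.1 (hzf 0)
      have hz'' : (z' : OnePoint ℂ) = φ (Z c') := hz'
      refine Or.inl ⟨h1, z', N c', ?_, ?_, ?_⟩
      · rw [hz'', isSink_conj φ hconj]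
        exact hA1
      · intro j
        rw [hz'', hic]
        exact hzf j
      · rw [hz'', ← hcc]
        have h3 := (φ.continuous.tendsto (Z c')).comp hA2
        refine h3.congr fun j => ?_
        exact (hic _ _).symm
    · refine Or.inr ⟨h1 0, ?_⟩
      have hxw : φ (Rf v0 c') = ((it (Lin s v0) 1 c : ℂ) : OnePoint ℂ) := by
        rw [← h2 1, ← hcc]
        exact (hconj c').symm
      refine grs_conj hφs hφ hφi hconj hxw hE ?_
      intro j
      rw [← h2 1, ← Function.iterate_add_apply]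
      exact h0 _
  · obtain ⟨c', hcr, hinf⟩ := hex
    obtain ⟨c, hcc⟩ := OnePoint.ne_infty_iff_exists.1 (hne c' (hs2 c' hcr 0))
    have hcc' : φ c' = (c : OnePoint ℂ) := hcc.symm
    obtain ⟨h0, h1, h2⟩ := horb c c' hcc' hcr
    refine ⟨c, ?_, h1, ?_⟩
    · have h3 : IsCrit (Rf (Lin s v0)) (c : OnePoint ℂ) := by
        rw [← hcc', isCrit_conj φ hconj]
        exact hcr
      have h5 := crit_coe h3
      rw [← wv_cf (d := d) (pol_deg _) (pol_deg _), cf_pol, cf_pol] at h5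
      exact h5
    · have key : ∀ i j : ℕ, i < j → it (Lin s v0) i c ≠ it (Lin s v0) j c := by
        intro i j hij he
        have h3 : (Rf (Lin s v0))^[i] (c : OnePoint ℂ) = (Rf (Lin s v0))^[j] (c : OnePoint ℂ) := by
          rw [h2, h2, he]
        rw [← hcc', hic, hic] at h3
        exact hinf (ECH_fin hij (φ.injective h3))
      intro i j hij
      rcases lt_trichotomy i j with h3 | h3 | h3
      · exact absurd hij (key i j h3)
      · exact h3
      · exact absurd hij.symm (key j i h3)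

end Pool.Agent.H91.CS
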