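import Pool.Agent.H91.CS.EFIN
import Pool.Agent.H91.CS.ECH
import Pool.Agent.H91.CE.BACK

/-!
# Collet-Eckmann maps are limits of hyperbolic maps
-/

set_option autoImplicit false

open Filter Topology Polynomial Metric Set

namespace Pool.Agent.H91.CS

open Pool.Agent.H44.Fatou Pool.Agent.H32.BT Pool.Agent.H79.Eul Pool.Agent.H79.Par
open Pool.Agent.H91.CE

theorem cs_main {d : ℕ} (hd : 2 ≤ d) {v0 : E d} (hcop : IsCoprime (pol v0.1) (pol v0.2))
    (hdeg : max (pol v0.1).natDegree (pol v0.2).natDegree = d)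
    (h : ∀ c, IsCrit (Rf v0) c → Att (Rf v0) c ∨ CEAt (Rf v0) (Rf v0 c))
    (hex : ∃ c, IsCrit (Rf v0) c ∧ (Set.range fun k : ℕ => (Rf v0)^[k] c).Infinite) {ε : ℝ}
    (hε : 0 < ε) : ∃ w ∈ ball v0 ε, HypDeg w := by
  obtain ⟨s, h0, h1, h2, h3, h4, h5⟩ := chart_cs hd hcop hdeg h hex
  exact hyp_back hd (s := s) (fun ε hε => cs_core hd h0 h1 h2 h3 h4 h5 hε) hε

end Pool.Agent.H91.CS
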