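import Pool.Agent.H91.CS.TBase
import Pool.Agent.H61.TT.Equal
import Pool.Agent.H35.EX.SerP

/-!
# Module TEQ: equality in the triangle inequality

PROOF. `A x = ∑ y ∈ fs a b x, ‖q y / dg a b y ^ 2‖ₑ` is almost everywhere measurable (`fs_aem`, H35/EX/SerP), `B x = ‖q x‖ₑ ≤ A x` almost everywhere (`hpush`, `enorm_sum_le`). By `area` (H61/TT/Area) with `T = univ`
`∫⁻ A = ∫⁻ y in pre a b univ, ‖q y / dg a b y ^ 2‖ₑ * ofReal (‖dg a b y‖ ^ 2) ≤ ∫⁻ ‖q y‖ₑ = ∫⁻ B < ⊤` (`‖q / dg ^ 2‖ₑ * ofReal ‖dg‖ ^ 2 ≤ ‖q‖ₑ`, see `hFle` in H61/TT/Equal). So `A = B` almost everywhere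
(`ae_eq_of_ae_le_of_lintegral_le`). For such `x` with `c y = q y / dg a b y ^ 2`, `s = q x = ∑ c y`, `‖s‖ = ∑ ‖c y‖`: as in `sum_norm_eq` (H61/TT/Equal) `(c y * conj s).re = ‖c y‖ * ‖s‖` and the imaginary part is `0`; so
`c y = (‖c y‖ / ‖s‖) * s` if `s ≠ 0`, and all `c y = 0` if `s = 0` (`l = 0`). This holds for almost every `x` and all `y ∈ fs a b x`; by `null_pre` (see `equal_y`) for almost every `y` with `b.eval y ≠ 0`, `x = gg a b y`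
(`mem_fs`); multiply by `dg a b y ^ 2`, `dg a b y ≠ 0` almost everywhere (`ae_ww`, `dg_ne`).
-/

set_option autoImplicit false

open Filter Topology Polynomial Metric Set MeasureTheory

namespace Pool.Agent.H91.CS

open Pool.Agent.H44.Fatou Pool.Agent.H61.TT Pool.Agent.H35.EX Pool.Agent.H91.CE

private theorem teq_sum {ι : Type*} {J : Finset ι} {c : ι → ℂ}
    (h : ‖∑ j ∈ J, c j‖ = ∑ j ∈ J, ‖c j‖) :
    ∀ j ∈ J, ∃ l : ℝ, 0 ≤ l ∧ c j = l * ∑ j ∈ J, c j := by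
  set s := ∑ j ∈ J, c j with hs
  intro j hj
  by_cases hs0 : s = 0
  · rw [hs0, norm_zero] at h
    have h1 := (Finset.sum_eq_zero_iff_of_nonneg (fun j _ => norm_nonneg (c j))).1 h.symm j hj
    refine ⟨0, le_rfl, ?_⟩
    rw [norm_eq_zero.1 h1, hs0, mul_zero]
  have h1 : ∀ j ∈ J, (c j * (starRingEnd ℂ) s).re ≤ ‖c j‖ * ‖s‖ := by
    intro j _
    calc (c j * (starRingEnd ℂ) s).re ≤ ‖c j * (starRingEnd ℂ) s‖ := Complex.re_le_norm _
      _ = ‖c j‖ * ‖s‖ := by rw [norm_mul, RCLike.norm_conj]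
  have h2 : ∑ j ∈ J, (c j * (starRingEnd ℂ) s).re = ∑ j ∈ J, ‖c j‖ * ‖s‖ := by
    rw [← Finset.sum_mul, ← h, ← Complex.re_sum, ← Finset.sum_mul, ← hs, Complex.mul_conj,
      Complex.ofReal_re, Complex.normSq_eq_norm_sq]
    ring
  have h3 := (Finset.sum_eq_sum_iff_of_le h1).1 h2
  have h4 := h3 j hj
  have him := sum_norm_eq (hs ▸ h) j hj
  rw [← hs] at him
  have h5 : c j * (starRingEnd ℂ) s = ((‖c j‖ * ‖s‖ : ℝ) : ℂ) := by
    apply Complex.ext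
    · rw [h4, Complex.ofReal_re]
    · rw [him, Complex.ofReal_im]
  have hsn : ‖s‖ ≠ 0 := norm_ne_zero_iff.2 hs0
  have hsn' : ((‖s‖ : ℝ) : ℂ) ≠ 0 := by exact_mod_cast hsn
  have hcs : (starRingEnd ℂ) s ≠ 0 := by
    rw [Ne, map_eq_zero]
    exact hs0
  refine ⟨‖c j‖ / ‖s‖, by positivity, ?_⟩
  have h6 : s * (starRingEnd ℂ) s = ((‖s‖ : ℝ) : ℂ) ^ 2 := by
    rw [Complex.mul_conj, Complex.normSq_eq_norm_sq]
    push_cast
    ring
  apply mul_right_cancel₀ hcs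
  rw [h5, mul_assoc, h6]
  push_cast
  field_simp

theorem equal_pos {d : ℕ} {a b : Polynomial ℂ} (h : RatD d a b) {q : ℂ → ℂ} (hq : Measurable q)
    (hfin : ∫⁻ x, ‖q x‖ₑ ≠ ⊤) (hpush : ∀ᵐ x : ℂ, q x = ∑ y ∈ fs a b x, q y / dg a b y ^ 2) :
    ∀ᵐ y : ℂ, b.eval y ≠ 0 →
      ∃ l : ℝ, 0 ≤ l ∧ q y = l * dg a b y ^ 2 * q (gg a b y) := by
  have hdm : Measurable (Pool.Agent.H61.TT.dg a b) := by
    unfold Pool.Agent.H61.TT.dg
    exact (ww a b).continuous.measurable.div (b.continuous.measurable.pow_const 2)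
  set F : ℂ → ENNReal := fun y => ‖q y / dg a b y ^ 2‖ₑ with hFdef
  have hF : Measurable F := (hq.div (hdm.pow_const 2)).enorm
  set A : ℂ → ENNReal := fun x => ∑ y ∈ fs a b x, F y with hA
  set B : ℂ → ENNReal := fun x => ‖q x‖ₑ with hB
  have hAm : AEMeasurable A volume := fs_aem h hF
  have hBA : B ≤ᵐ[volume] A := by
    filter_upwards [hpush] with x hx
    show ‖q x‖ₑ ≤ ∑ y ∈ fs a b x, ‖q y / dg a b y ^ 2‖ₑ
    rw [hx]
    exact enorm_sum_le _ _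
  have hFle : ∀ y, F y * ENNReal.ofReal (‖dg a b y‖ ^ 2) ≤ ‖q y‖ₑ := by
    intro y
    by_cases hy : dg a b y = 0
    · rw [hy]; simp
    · rw [hFdef]
      simp only
      rw [← ofReal_norm, ← ofReal_norm, ← ENNReal.ofReal_mul (norm_nonneg _)]
      apply ENNReal.ofReal_le_ofReal
      rw [norm_div, norm_pow]
      have : ‖dg a b y‖ ≠ 0 := norm_ne_zero_iff.2 hy
      apply le_of_eq
      field_simp
  have hkey : ∫⁻ x, A x ≤ ∫⁻ x, B x := by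
    have h1 := area h MeasurableSet.univ hF
    rw [Measure.restrict_univ] at h1
    show ∫⁻ x, ∑ y ∈ fs a b x, F y ≤ ∫⁻ x, ‖q x‖ₑ
    rw [h1]
    exact (lintegral_mono hFle).trans (setLIntegral_le_lintegral _ _)
  have hae := ae_eq_of_ae_le_of_lintegral_le hBA hfin hAm hkey
  have he : ∀ᵐ x : ℂ, ∀ y ∈ fs a b x, ∃ l : ℝ, 0 ≤ l ∧ q y / dg a b y ^ 2 = l * q x := by
    filter_upwards [hpush, hae] with x hx1 hx2
    have h2 : ‖∑ y ∈ fs a b x, q y / dg a b y ^ 2‖ = ∑ y ∈ fs a b x, ‖q y / dg a b y ^ 2‖ := by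
      apply le_antisymm (norm_sum_le _ _)
      have h3 : ∑ y ∈ fs a b x, ‖q y / dg a b y ^ 2‖ₑ ≤ ‖q x‖ₑ := hx2.ge
      rw [hx1] at h3
      simp only [← ofReal_norm] at h3
      rw [← ENNReal.ofReal_sum_of_nonneg (fun _ _ => norm_nonneg _),
        ENNReal.ofReal_le_ofReal_iff (norm_nonneg _)] at h3
      exact h3
    have h4 := teq_sum h2
    rw [← hx1] at h4
    exact h4
  rw [ae_iff] at he
  have h1 := null_pre h he
  have h3 : ∀ᵐ y : ℂ, y ∉ pre a b {x | ¬∀ y ∈ fs a b x,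
      ∃ l : ℝ, 0 ≤ l ∧ q y / dg a b y ^ 2 = l * q x} := by
    rw [ae_iff]
    simp only [not_not]
    exact h1
  filter_upwards [h3, ae_ww h] with y hy hw hb
  have h5 : ∀ z ∈ fs a b (gg a b y), ∃ l : ℝ, 0 ≤ l ∧ q z / dg a b z ^ 2 = l * q (gg a b y) := by
    by_contra hcon
    exact hy ⟨hb, hcon⟩
  obtain ⟨l, hl, h6⟩ := h5 y ((mem_fs h _ _).2 ⟨hb, rfl⟩)
  refine ⟨l, hl, ?_⟩
  have hd : dg a b y ≠ 0 := (dg_ne hb).2 hw
  rw [div_eq_iff (pow_ne_zero 2 hd)] at h6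
  rw [h6]
  ring

end Pool.Agent.H91.CS
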