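import Pool.Agent.H91.CS.TKER

/-!
# Module TINT: the quadratic differential is integrable

PROOF. For almost every `x` (`x ≠ 0`, `x ≠ 1`, `x ≠ P k` for all `k`, `Summable (fun k => β k / (x - P k))` by `ae_sum`, H35/EX/SerA):
`β k / (x - P k) = β k * (P k * (P k - 1) / (x * (x - 1) * (x - P k))) - (β k * P k - β k) / x + β k * P k / (x - 1)`. Sum over `k`: `Summable β`, `Summable (β k * P k)` (`‖P‖ ≤ 1 + ‖P‖ ^ 2`), the last two sums vanish by `h0`, `h1`.
So `qs β P x = ∑' k, β k * φ (P k) x`, `‖·‖ₑ ≤ ∑' ‖β k‖ₑ * ‖φ (P k) x‖ₑ` (`enorm_tsum_le_tsum_enorm`), `lintegral_tsum` and `ker_phi`: at most `∑' k, ofReal (‖β k‖ * K * (1 + ‖P k‖ ^ 2)) < ⊤` (compare `qs_fub`, H35/EX/SerA).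
-/

set_option autoImplicit false

open Filter Topology Polynomial Metric Set MeasureTheory

namespace Pool.Agent.H91.CS

open Pool.Agent.H44.Fatou Pool.Agent.H61.TT Pool.Agent.H35.EX Pool.Agent.H91.CE

private theorem tint_alg (β p x : ℂ) (h0 : x ≠ 0) (h1 : x ≠ 1) (hp : x ≠ p) :
    β * (p * (p - 1) / (x * (x - 1) * (x - p))) =
      β / (x - p) + ((β * p - β) * x⁻¹ - β * p * (x - 1)⁻¹) := by
  have e1 : x - 1 ≠ 0 := sub_ne_zero.2 h1
  have e2 : x - p ≠ 0 := sub_ne_zero.2 hp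
  field_simp
  ring

theorem qs_fin' {β P : ℕ → ℂ} (hs : Summable fun k => ‖β k‖ * (1 + ‖P k‖ ^ 2))
    (h0 : ∑' k, β k = 0) (h1 : ∑' k, β k * P k = 0) : ∫⁻ x : ℂ, ‖qs β P x‖ₑ ≠ ⊤ := by
  obtain ⟨K, hK, hker⟩ := ker_phi
  have hβ : Summable fun k => ‖β k‖ := by
    refine Summable.of_nonneg_of_le (fun k => norm_nonneg _) (fun k => ?_) hs
    have h2 : 0 ≤ ‖P k‖ ^ 2 := by positivity
    nlinarith [norm_nonneg (β k)]
  have hβ1 : Summable β := hβ.of_norm
  have hβP : Summable fun k => β k * P k := by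
    refine Summable.of_norm_bounded hs (fun k => ?_)
    rw [norm_mul]
    refine mul_le_mul_of_nonneg_left ?_ (norm_nonneg _)
    nlinarith [sq_nonneg (‖P k‖ - 1)]
  have hcount : ∀ᵐ x : ℂ, ∀ k, x ≠ P k := by
    rw [ae_all_iff]
    intro k
    exact compl_mem_ae_iff.2 (measure_singleton (P k))
  have hz : ∀ᵐ x : ℂ, x ≠ 0 := compl_mem_ae_iff.2 (measure_singleton (0 : ℂ))
  have ho : ∀ᵐ x : ℂ, x ≠ 1 := compl_mem_ae_iff.2 (measure_singleton (1 : ℂ))
  have hle : ∀ᵐ x : ℂ, ‖qs β P x‖ₑ ≤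
      ∑' k, ‖β k * (P k * (P k - 1) / (x * (x - 1) * (x - P k)))‖ₑ := by
    filter_upwards [hcount, hz, ho, ae_sum (p := P) hβ] with x hx hx0 hx1 hxs
    have h2 : ∑' k, β k * (P k * (P k - 1) / (x * (x - 1) * (x - P k))) = qs β P x := by
      have h3 : ∀ k, β k * (P k * (P k - 1) / (x * (x - 1) * (x - P k))) =
          β k / (x - P k) + ((β k * P k - β k) * x⁻¹ - β k * P k * (x - 1)⁻¹) :=
        fun k => tint_alg _ _ _ hx0 hx1 (hx k)
      simp_rw [h3]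
      have s1 : Summable fun k => (β k * P k - β k) * x⁻¹ := (hβP.sub hβ1).mul_right _
      have s2 : Summable fun k => β k * P k * (x - 1)⁻¹ := hβP.mul_right _
      rw [Summable.tsum_add hxs (s1.sub s2), Summable.tsum_sub s1 s2, tsum_mul_right,
        tsum_mul_right, Summable.tsum_sub hβP hβ1, h0, h1]
      simp [qs]
    rw [← h2]
    exact enorm_tsum_le_tsum_enorm
  have hm : ∀ k, Measurable fun x : ℂ =>
      ‖β k * (P k * (P k - 1) / (x * (x - 1) * (x - P k)))‖ₑ := by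
    intro k
    have h2 : Measurable fun x : ℂ => x * (x - 1) * (x - P k) :=
      (measurable_id.mul (measurable_id.sub_const 1)).mul (measurable_id.sub_const (P k))
    exact ((measurable_const.div h2).const_mul (β k)).enorm
  have hfin : ∫⁻ x : ℂ, ‖qs β P x‖ₑ ≤
      ∑' k, ENNReal.ofReal (‖β k‖ * (1 + ‖P k‖ ^ 2) * K) := by
    refine (lintegral_mono_ae hle).trans ?_
    rw [lintegral_tsum (fun k => (hm k).aemeasurable)]
    refine ENNReal.tsum_le_tsum (fun k => ?_)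
    have h2 : ∀ x : ℂ, ‖β k * (P k * (P k - 1) / (x * (x - 1) * (x - P k)))‖ₑ =
        ‖β k‖ₑ * ‖P k * (P k - 1) / (x * (x - 1) * (x - P k))‖ₑ := fun x => enorm_mul _ _
    simp_rw [h2]
    rw [lintegral_const_mul' _ _ enorm_ne_top]
    calc ‖β k‖ₑ * ∫⁻ x : ℂ, ‖P k * (P k - 1) / (x * (x - 1) * (x - P k))‖ₑ
        ≤ ‖β k‖ₑ * ENNReal.ofReal (K * (1 + ‖P k‖ ^ 2)) := by
          gcongr
          exact hker (P k)
      _ = ENNReal.ofReal (‖β k‖ * (1 + ‖P k‖ ^ 2) * K) := by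
          rw [← ofReal_norm, ← ENNReal.ofReal_mul (norm_nonneg _)]
          congr 1
          ring
  refine ne_top_of_le_ne_top ?_ hfin
  rw [← ENNReal.ofReal_tsum_of_nonneg (fun k => by positivity) (hs.mul_right K)]
  exact ENNReal.ofReal_ne_top

end Pool.Agent.H91.CS
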