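import Pool.Agent.H91.CS.TBase

/-!
# Module TPOL: growth of polynomials of degree 2 d

PROOF. `a, b` have no common zero (`h.cop`), and their coefficients of degree `d` are not both `0` (`h.deg`). On the compact disc `‖z‖ ≤ 1` the continuous function `‖a z‖ ^ 2 + ‖b z‖ ^ 2` has a positive minimum `c1`. With the reflected polynomials `a' = reflect d a`, `b' = reflect d b` (`a.eval z = z ^ d * a'.eval z⁻¹` for `z ≠ 0`: `eval_reflect`
of H44/Fatou/Basic) `‖a' w‖ ^ 2 + ‖b' w‖ ^ 2` has a positive minimum `c2` on `‖w‖ ≤ 1` (at `w = 0` it is `‖a_d‖ ^ 2 + ‖b_d‖ ^ 2`, at `w ≠ 0` a common zero would give the common zero `w⁻¹` of `a, b`). Also `‖η z‖ ≤ M` on `‖z‖ ≤ 1` and `‖η z‖ = ‖z‖ ^ (2 d) * ‖η' z⁻¹‖ ≤ M ‖z‖ ^ (2 d)`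
for `‖z‖ ≥ 1`. So `‖η z‖ ≤ K (‖a z‖ ^ 2 + ‖b z‖ ^ 2)` for all `z`, `K = M / min c1 c2`; divide by `‖b z‖ ^ 2`.
-/

set_option autoImplicit false

open Filter Topology Polynomial Metric Set MeasureTheory

namespace Pool.Agent.H91.CS

open Pool.Agent.H44.Fatou Pool.Agent.H61.TT Pool.Agent.H35.EX Pool.Agent.H91.CE

theorem eta_bound {d : ℕ} {a b : Polynomial ℂ} (h : RatD d a b) {η : Polynomial ℂ}
    (hη : η.natDegree ≤ 2 * d) : ∃ K : ℝ, 0 ≤ K ∧ ∀ z : ℂ, b.eval z ≠ 0 →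
      ‖η.eval z / b.eval z ^ 2‖ ≤ K * (1 + ‖gg a b z‖ ^ 2) := by
  have ha : a.natDegree ≤ d := le_trans (le_max_left _ _) h.deg.le
  have hb : b.natDegree ≤ d := le_trans (le_max_right _ _) h.deg.le
  have hcomp : IsCompact (closedBall (0 : ℂ) 1) := isCompact_closedBall _ _
  have hne : (closedBall (0 : ℂ) 1).Nonempty := ⟨0, by simp⟩
  -- the first chart
  obtain ⟨x1, hx1, hm1⟩ := hcomp.exists_isMinOn hne
    (f := fun z : ℂ => ‖a.eval z‖ ^ 2 + ‖b.eval z‖ ^ 2) (by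
      apply Continuous.continuousOn
      exact ((a.continuous.norm).pow 2).add ((b.continuous.norm).pow 2))
  obtain ⟨x2, hx2, hm2⟩ := hcomp.exists_isMinOn hne
    (f := fun z : ℂ => ‖(reflect d a).eval z‖ ^ 2 + ‖(reflect d b).eval z‖ ^ 2) (by
      apply Continuous.continuousOn
      exact (((reflect d a).continuous.norm).pow 2).add (((reflect d b).continuous.norm).pow 2))
  obtain ⟨x3, hx3, hm3⟩ := hcomp.exists_isMaxOn hne
    (f := fun z : ℂ => ‖η.eval z‖) (η.continuous.norm.continuousOn)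
  obtain ⟨x4, hx4, hm4⟩ := hcomp.exists_isMaxOn hne
    (f := fun z : ℂ => ‖(reflect (2 * d) η).eval z‖) ((reflect (2 * d) η).continuous.norm.continuousOn)
  have pos : ∀ u v : ℂ, u ≠ 0 ∨ v ≠ 0 → 0 < ‖u‖ ^ 2 + ‖v‖ ^ 2 := by
    intro u v huv
    rcases huv with hu | hv
    · have := norm_pos_iff.2 hu
      positivity
    · have := norm_pos_iff.2 hv
      positivity
  set c1 := ‖a.eval x1‖ ^ 2 + ‖b.eval x1‖ ^ 2 with hc1
  set c2 := ‖(reflect d a).eval x2‖ ^ 2 + ‖(reflect d b).eval x2‖ ^ 2 with hc2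
  have hc1p : 0 < c1 := pos _ _ (coprime_eval h.cop x1)
  have hc2p : 0 < c2 := by
    apply pos
    by_contra hcon
    push Not at hcon
    obtain ⟨h1, h2⟩ := hcon
    by_cases hx : x2 = 0
    · rw [hx, eval_reflect_zero] at h1 h2
      rcases max_choice a.natDegree b.natDegree with hm | hm
      · have h3 : a.natDegree = d := by rw [← hm]; exact h.deg
        rw [← h3] at h1
        have h4 : a = 0 := by
          rw [← leadingCoeff_eq_zero]
          exact h1
        rw [h4, natDegree_zero] at h3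
        have := h.hd
        omega
      · have h3 : b.natDegree = d := by rw [← hm]; exact h.deg
        rw [← h3] at h2
        have h4 : b = 0 := by
          rw [← leadingCoeff_eq_zero]
          exact h2
        rw [h4, natDegree_zero] at h3
        have := h.hd
        omega
    · have h3 := eval_reflect ha (inv_ne_zero hx)
      have h4 := eval_reflect hb (inv_ne_zero hx)
      rw [inv_inv] at h3 h4
      rw [h1, zero_mul] at h3
      rw [h2, zero_mul] at h4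
      rcases coprime_eval h.cop x2⁻¹ with h5 | h5
      · exact h5 h3
      · exact h5 h4
  set M := max ‖η.eval x3‖ ‖(reflect (2 * d) η).eval x4‖ with hM
  have hM0 : 0 ≤ M := le_trans (norm_nonneg _) (le_max_left _ _)
  set c := min c1 c2 with hc
  have hcp : 0 < c := lt_min hc1p hc2p
  have key : ∀ z : ℂ, ‖η.eval z‖ ≤ M / c * (‖a.eval z‖ ^ 2 + ‖b.eval z‖ ^ 2) := by
    intro z
    rw [div_mul_eq_mul_div, le_div_iff₀ hcp]
    rcases le_total ‖z‖ 1 with hz | hz
    · have hz' : z ∈ closedBall (0 : ℂ) 1 := by simpa using hz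
      have e1 : c ≤ ‖a.eval z‖ ^ 2 + ‖b.eval z‖ ^ 2 := le_trans (min_le_left _ _) (hm1 hz')
      have e2 : ‖η.eval z‖ ≤ M := le_trans (hm3 hz') (le_max_left _ _)
      exact mul_le_mul e2 e1 hcp.le hM0
    · have hz0 : z ≠ 0 := by
        intro h0
        rw [h0, norm_zero] at hz
        linarith
      have hz' : z⁻¹ ∈ closedBall (0 : ℂ) 1 := by
        rw [mem_closedBall_zero_iff, norm_inv]
        exact inv_le_one_of_one_le₀ hz
      have e1 : c ≤ ‖(reflect d a).eval z⁻¹‖ ^ 2 + ‖(reflect d b).eval z⁻¹‖ ^ 2 :=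
        le_trans (min_le_right _ _) (hm2 hz')
      have e2 : ‖(reflect (2 * d) η).eval z⁻¹‖ ≤ M := le_trans (hm4 hz') (le_max_right _ _)
      rw [eval_reflect ha hz0, eval_reflect hb hz0, eval_reflect hη hz0]
      simp only [norm_mul, norm_pow]
      have e3 : ‖(reflect (2 * d) η).eval z⁻¹‖ * c
          ≤ M * (‖(reflect d a).eval z⁻¹‖ ^ 2 + ‖(reflect d b).eval z⁻¹‖ ^ 2) :=
        mul_le_mul e2 e1 hcp.le hM0
      have e4 : 0 ≤ ‖z‖ ^ (2 * d) := by positivity
      calc ‖(reflect (2 * d) η).eval z⁻¹‖ * ‖z‖ ^ (2 * d) * c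
          = (‖(reflect (2 * d) η).eval z⁻¹‖ * c) * ‖z‖ ^ (2 * d) := by ring
        _ ≤ (M * (‖(reflect d a).eval z⁻¹‖ ^ 2 + ‖(reflect d b).eval z⁻¹‖ ^ 2)) * ‖z‖ ^ (2 * d) :=
          mul_le_mul_of_nonneg_right e3 e4
        _ = M * ((‖(reflect d a).eval z⁻¹‖ * ‖z‖ ^ d) ^ 2
            + (‖(reflect d b).eval z⁻¹‖ * ‖z‖ ^ d) ^ 2) := by
          rw [pow_mul' ‖z‖ 2 d]; ring
  refine ⟨M / c, by positivity, fun z hz => ?_⟩
  have hbz : 0 < ‖b.eval z‖ ^ 2 := by
    have := norm_pos_iff.2 hz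
    positivity
  rw [norm_div, norm_pow, div_le_iff₀ hbz]
  calc ‖η.eval z‖ ≤ M / c * (‖a.eval z‖ ^ 2 + ‖b.eval z‖ ^ 2) := key z
    _ = M / c * (1 + ‖gg a b z‖ ^ 2) * ‖b.eval z‖ ^ 2 := by
      unfold gg
      rw [norm_div]
      have : ‖b.eval z‖ ≠ 0 := norm_ne_zero_iff.2 hz
      field_simp
      ring

end Pool.Agent.H91.CS
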