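import Pool.Agent.H91.CS.TBase

/-!
# Module TLF: the direction is preserved by all iterates

PROOF. `dn_succ'`: `Finset.prod_range_succ'`, `Function.iterate_succ_apply`. `fi_succ'`: cases `i = 0`, `i + 1`. `lf_of`: for every `N`, almost every `y` satisfies the claim for `N`, by induction: `N = 0`: `l = 1`. `N + 1`: by `null_pre` (H61/TT/Area, `pre a b`)
for almost every `y` with `b.eval y ≠ 0` the claim for `N` holds at `gg a b y`; combine with `h1`: `l * l'`. `ae_all_iff`.
-/

set_option autoImplicit false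

open Filter Topology Polynomial Metric Set MeasureTheory

namespace Pool.Agent.H91.CS

open Pool.Agent.H44.Fatou Pool.Agent.H61.TT Pool.Agent.H35.EX Pool.Agent.H91.CE

theorem dn_succ' (a b : Polynomial ℂ) (N : ℕ) (y : ℂ) :
    dn a b (N + 1) y = dg a b y * dn a b N (gg a b y) := by
  unfold dn
  rw [Finset.prod_range_succ', mul_comm]
  rfl

theorem fi_succ' (a b : Polynomial ℂ) (N : ℕ) (y : ℂ) :
    Fi a b (N + 1) y ↔ b.eval y ≠ 0 ∧ Fi a b N (gg a b y) := by
  unfold Fi
  constructor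
  · intro h
    refine ⟨h 0 (by omega), fun i hi => ?_⟩
    have := h (i + 1) (by omega)
    rwa [Function.iterate_succ_apply] at this
  · rintro ⟨h0, h⟩ i hi
    cases i with
    | zero => exact h0
    | succ i =>
      rw [Function.iterate_succ_apply]
      exact h i (by omega)

theorem lf_of {d : ℕ} {a b : Polynomial ℂ} (h : RatD d a b) {q : ℂ → ℂ}
    (h1 : ∀ᵐ y : ℂ, b.eval y ≠ 0 →
      ∃ l : ℝ, 0 ≤ l ∧ q y = l * dg a b y ^ 2 * q (gg a b y)) : LF a b q := by
  unfold LF
  rw [ae_all_iff]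
  intro N
  induction N with
  | zero =>
    refine Eventually.of_forall fun y _ => ⟨1, zero_le_one, ?_⟩
    simp [dn]
  | succ N ih =>
    rw [ae_iff] at ih
    have h2 := null_pre h ih
    have h3 : ∀ᵐ y : ℂ, y ∉ pre a b {y | ¬(Fi a b N y →
        ∃ l : ℝ, 0 ≤ l ∧ q y = l * dn a b N y ^ 2 * q ((gg a b)^[N] y))} := by
      rw [ae_iff]
      simp only [not_not]
      exact h2
    filter_upwards [h1, h3] with y hy1 hy3 hfi
    rw [fi_succ'] at hfi
    obtain ⟨l, hl, hq⟩ := hy1 hfi.1
    have h4 : Fi a b N (gg a b y) →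
        ∃ l : ℝ, 0 ≤ l ∧ q (gg a b y) = l * dn a b N (gg a b y) ^ 2 *
          q ((gg a b)^[N] (gg a b y)) := by
      by_contra hcon
      exact hy3 ⟨hfi.1, hcon⟩
    obtain ⟨l', hl', hq'⟩ := h4 hfi.2
    refine ⟨l * l', mul_nonneg hl hl', ?_⟩
    rw [hq, hq', dn_succ', Function.iterate_succ_apply]
    push_cast
    ring

end Pool.Agent.H91.CS
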