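import Pool.Agent.H91.CS.TRF
import Pool.Agent.H91.CS.TCST

/-!
# Module TFUN: the functional equation of the rational quadratic differential

PROOF. `Z = {x ∉ S | rf x = 0}` is finite (`rf_zeros`). `F = S ∪ {b.eval y = 0} ∪ {(ww a b).eval y = 0} ∪ Z ∪ pre a b (S ∪ Z)` is finite (`finite_ww`, `pre_finite` of H61/TT, `b ≠ 0`: `b_ne`). `U = Fᶜ` is open and connected (complement of a countable set: `Set.Countable.isPathConnected_compl_of_one_lt_rank` or
`Set.Countable.isConnected_compl_of_one_lt_rank`, real rank of `ℂ` is `2`: `Complex.rank_real_complex`). `g y = rf S R y / (dg a b y ^ 2 * rf S R (gg a b y))` is holomorphic on `U` (`rf_diff`, `hasDerivAt_gg`, `differentiableAt_dg`; the denominator is not `0`: `dg_ne`) and almost everywhere equal to the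
real number `l` of `hlf`. `real_const`: `g = l` on `U`; `l ≠ 0` since `rf S R y ≠ 0` for `y ∈ U` (`U` is not empty: infinite complement).
-/

set_option autoImplicit false

open Filter Topology Polynomial Metric Set MeasureTheory

namespace Pool.Agent.H91.CS

open Pool.Agent.H44.Fatou Pool.Agent.H61.TT Pool.Agent.H35.EX Pool.Agent.H91.CE

theorem rf_fun {d : ℕ} {a b : Polynomial ℂ} (h : RatD d a b) {S : Finset ℂ} {R : ℂ → ℂ}
    (hR : ∀ s ∈ S, R s ≠ 0) (hS : S.Nonempty)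
    (hlf : ∀ᵐ y : ℂ, b.eval y ≠ 0 →
      ∃ l : ℝ, 0 ≤ l ∧ rf S R y = l * dg a b y ^ 2 * rf S R (gg a b y)) :
    ∃ (l : ℂ) (F : Set ℂ), l ≠ 0 ∧ F.Finite ∧
      ∀ y ∉ F, rf S R y = l * dg a b y ^ 2 * rf S R (gg a b y) := by
  classical
  obtain ⟨Z, hZdef⟩ : ∃ Z : Set ℂ, Z = {x : ℂ | x ∉ S ∧ rf S R x = 0} := ⟨_, rfl⟩
  have hZ : Z.Finite := by rw [hZdef]; exact rf_zeros hR hS
  obtain ⟨F, hFdef⟩ : ∃ F : Set ℂ, F = ((((S : Set ℂ) ∪ {y | b.eval y = 0}) ∪
    {y | (ww a b).eval y = 0}) ∪ Z) ∪ pre a b ((S : Set ℂ) ∪ Z) := ⟨_, rfl⟩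
  have hbz : {y : ℂ | b.eval y = 0}.Finite := by
    refine (b.roots.toFinset.finite_toSet).subset ?_
    intro y hy
    rw [Finset.mem_coe, Multiset.mem_toFinset, mem_roots (b_ne h)]
    exact hy
  have hF : F.Finite := by
    rw [hFdef]
    exact ((((S.finite_toSet).union hbz).union (finite_ww h)).union hZ).union
      (pre_finite h ((S.finite_toSet).union hZ))
  have hFmem : ∀ y, y ∉ F → y ∉ S ∧ b.eval y ≠ 0 ∧ (ww a b).eval y ≠ 0 ∧ gg a b y ∉ S ∧
      rf S R y ≠ 0 ∧ rf S R (gg a b y) ≠ 0 := by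
    intro y hy
    rw [hFdef] at hy
    have hb : b.eval y ≠ 0 := fun hh => hy (Or.inl (Or.inl (Or.inl (Or.inr hh))))
    have h1 : y ∉ S := fun hh => hy (Or.inl (Or.inl (Or.inl (Or.inl hh))))
    have h2 : y ∉ Z := fun hh => hy (Or.inl (Or.inr hh))
    have h3 : gg a b y ∉ S := fun hh => hy (Or.inr ⟨hb, Or.inl hh⟩)
    have h4 : gg a b y ∉ Z := fun hh => hy (Or.inr ⟨hb, Or.inr hh⟩)
    refine ⟨h1, hb, fun hh => hy (Or.inl (Or.inl (Or.inr hh))), h3, ?_, ?_⟩
    · intro h5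
      apply h2
      rw [hZdef]
      exact ⟨h1, h5⟩
    · intro h5
      apply h4
      rw [hZdef]
      exact ⟨h3, h5⟩
  have hUo : IsOpen Fᶜ := hF.isClosed.isOpen_compl
  have hUc : IsPreconnected Fᶜ := by
    refine (hF.countable.isPathConnected_compl_of_one_lt_rank ?_).isConnected.isPreconnected
    rw [Complex.rank_real_complex]
    exact Cardinal.one_lt_two
  obtain ⟨g, hg⟩ : ∃ g : ℂ → ℂ, g = fun y => rf S R y / (dg a b y ^ 2 * rf S R (gg a b y)) :=
    ⟨_, rfl⟩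
  have hgd : DifferentiableOn ℂ g Fᶜ := by
    intro z hz
    obtain ⟨h1, h2, h3, h4, h5, h6⟩ := hFmem z hz
    have hgz : DifferentiableAt ℂ (gg a b) z := (hasDerivAt_gg h2).differentiableAt
    have hqg : DifferentiableAt ℂ (fun y => rf S R (gg a b y)) z :=
      DifferentiableAt.comp (g := rf S R) (f := gg a b) z (rf_diff R h4) hgz
    rw [hg]
    exact ((rf_diff R h1).div (((differentiableAt_dg h2).pow 2).mul hqg)
      (mul_ne_zero (pow_ne_zero 2 ((dg_ne h2).2 h3)) h6)).differentiableWithinAt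
  have hgr : ∀ᵐ z : ℂ, z ∈ Fᶜ → (g z).im = 0 := by
    filter_upwards [hlf] with z hz1 hz2
    obtain ⟨h1, h2, h3, h4, h5, h6⟩ := hFmem z hz2
    obtain ⟨l, hl0, hl⟩ := hz1 h2
    have h10 : dg a b z ≠ 0 := (dg_ne h2).2 h3
    have h7 : g z = (l : ℂ) := by
      rw [hg]
      simp only
      rw [hl, div_eq_iff (mul_ne_zero (pow_ne_zero 2 h10) h6)]
      ring
    rw [h7, Complex.ofReal_im]
  obtain ⟨l, hl⟩ := real_const hUo hUc hgd hgr
  have hid : ∀ y ∉ F, rf S R y = l * dg a b y ^ 2 * rf S R (gg a b y) := by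
    intro y hy
    obtain ⟨h1, h2, h3, h4, h5, h6⟩ := hFmem y hy
    have h10 : dg a b y ≠ 0 := (dg_ne h2).2 h3
    have h11 := hl y hy
    rw [hg] at h11
    simp only at h11
    rw [div_eq_iff (mul_ne_zero (pow_ne_zero 2 h10) h6)] at h11
    rw [h11]
    ring
  refine ⟨l, F, ?_, hF, hid⟩
  obtain ⟨y, hy⟩ := hF.infinite_compl.nonempty
  intro hl0
  have h1 := hid y hy
  rw [hl0, zero_mul, zero_mul] at h1
  exact (hFmem y hy).2.2.2.2.1 h1

end Pool.Agent.H91.CS
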