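import Pool.Agent.H91.CS.TRF

/-!
# Module TLOQ: the functional equation at a point

PROOF. `T x = l * dg a b x ^ 2 * rf S R (gg a b x)` is continuous at `y` (`differentiableAt_dg`, `hasDerivAt_gg`, `rf_diff` at `gg a b y ∉ S`), and `rf S R = T` on a punctured neighbourhood of `y` (`hF.subset` closed: `(hF.isClosed.isOpen_compl)` or `Set.Finite` and `𝓝[≠] y`). If `y ∈ S`: `‖rf S R x‖ → ∞`
(`rf_pole`) and `‖T x‖ → ‖T y‖` along `𝓝[≠] y`, a contradiction (`not_tendsto_nhds_of_tendsto_atTop`). So `y ∉ S`, `rf S R` is continuous at `y`, `tendsto_nhds_unique`.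
-/

set_option autoImplicit false

open Filter Topology Polynomial Metric Set MeasureTheory

namespace Pool.Agent.H91.CS

open Pool.Agent.H44.Fatou Pool.Agent.H61.TT Pool.Agent.H35.EX Pool.Agent.H91.CE

theorem rf_loc {a b : Polynomial ℂ} {S : Finset ℂ} {R : ℂ → ℂ} (hR : ∀ s ∈ S, R s ≠ 0) {l : ℂ}
    {F : Set ℂ} (hF : F.Finite)
    (hfun : ∀ y ∉ F, rf S R y = l * dg a b y ^ 2 * rf S R (gg a b y)) {y : ℂ}
    (hy : b.eval y ≠ 0) (hgy : gg a b y ∉ S) :
    y ∉ S ∧ rf S R y = l * dg a b y ^ 2 * rf S R (gg a b y) := by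
  have hT : ContinuousAt (fun x => l * dg a b x ^ 2 * rf S R (gg a b x)) y := by
    have h1 : ContinuousAt (dg a b) y := (differentiableAt_dg hy).continuousAt
    have h2 : ContinuousAt (gg a b) y := (hasDerivAt_gg hy).continuousAt
    have h3 : ContinuousAt (fun x => rf S R (gg a b x)) y :=
      ContinuousAt.comp (f := gg a b) (g := rf S R) (rf_diff R hgy).continuousAt h2
    exact (continuousAt_const.mul (h1.pow 2)).mul h3
  have hT' : Tendsto (fun x => l * dg a b x ^ 2 * rf S R (gg a b x)) (𝓝[≠] y)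
      (𝓝 (l * dg a b y ^ 2 * rf S R (gg a b y))) := hT.tendsto.mono_left nhdsWithin_le_nhds
  have hev : ∀ᶠ x in 𝓝[≠] y, rf S R x = l * dg a b x ^ 2 * rf S R (gg a b x) := by
    have h1 : (F \ {y})ᶜ ∈ 𝓝 y :=
      (hF.subset diff_subset).isClosed.isOpen_compl.mem_nhds (fun h => h.2 rfl)
    have h2 : ∀ᶠ x in 𝓝[≠] y, x ∈ (F \ {y})ᶜ := nhdsWithin_le_nhds h1
    filter_upwards [h2, self_mem_nhdsWithin] with x hx hxy
    exact hfun x fun hxF => hx ⟨hxF, hxy⟩
  have hrf : Tendsto (rf S R) (𝓝[≠] y) (𝓝 (l * dg a b y ^ 2 * rf S R (gg a b y))) :=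
    hT'.congr' (hev.mono fun x hx => hx.symm)
  have hyS : y ∉ S := by
    intro hyS
    exact not_tendsto_nhds_of_tendsto_atTop (rf_pole hyS (hR y hyS)) _ hrf.norm
  exact ⟨hyS, tendsto_nhds_unique
    ((rf_diff R hyS).continuousAt.tendsto.mono_left nhdsWithin_le_nhds) hrf⟩

end Pool.Agent.H91.CS
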