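import Pool.Agent.H91.CS.TBase

/-!
# Module TREG: finitely many residues: a rational function

PROOF. For almost every `x`: `Summable (fun k => β k / (x - P k))` (`ae_sum`, H35/EX/SerA). Regroup by the value `s = P k` (`HasSum.tsum_fiberwise` as in `serM_group`, H35/EX/SerM; `tsum_subtype`): `∑' k, β k / (x - P k) = ∑' s, ∑' k, indicator {k | P k = s} (fun k => β k / (x - P k)) k`
and the inner sum is `rs β P s / (x - s)` (`tsum_div_const`, on the fibre `P k = s`). It vanishes for `s ∉ S`: `tsum_eq_sum`.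
-/

set_option autoImplicit false

open Filter Topology Polynomial Metric Set MeasureTheory

namespace Pool.Agent.H91.CS

open Pool.Agent.H44.Fatou Pool.Agent.H61.TT Pool.Agent.H35.EX Pool.Agent.H91.CE

theorem qs_rat {β P : ℕ → ℂ} (hβ : Summable fun k => ‖β k‖) {S : Finset ℂ}
    (hS : ∀ s ∉ S, rs β P s = 0) : ∀ᵐ x : ℂ, qs β P x = rf S (rs β P) x := by
  filter_upwards [ae_sum (p := P) hβ] with x hx
  have h1 := hx.hasSum.tsum_fiberwise P
  have h2 : ∀ s, ∑' k : (P ⁻¹' {s} : Set ℕ), β k / (x - P k) = rs β P s / (x - s) := by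
    intro s
    rw [tsum_subtype (P ⁻¹' {s}) (fun k => β k / (x - P k))]
    unfold rs
    rw [← tsum_div_const]
    refine tsum_congr fun k => ?_
    by_cases hk : P k = s
    · rw [Set.indicator_of_mem (show k ∈ P ⁻¹' {s} from hk), Set.indicator_of_mem (show k ∈ {k | P k = s} from hk), hk]
    · rw [Set.indicator_of_notMem (show k ∉ P ⁻¹' {s} from hk), Set.indicator_of_notMem (show k ∉ {k | P k = s} from hk),
        zero_div]
  have h3 : (fun s => ∑' k : (P ⁻¹' {s} : Set ℕ), β k / (x - P k)) = fun s => rs β P s / (x - s) := funext h2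
  rw [h3] at h1
  have h4 : HasSum (fun s => rs β P s / (x - s)) (∑ s ∈ S, rs β P s / (x - s)) :=
    hasSum_sum_of_ne_finset_zero (fun s hs => by rw [hS s hs, zero_div])
  exact h1.unique h4

end Pool.Agent.H91.CS
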