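import Pool.Agent.H91.CS.TDefs
import Pool.Agent.H91.CE.TAYL

/-!
# Transversality for Collet-Eckmann orbits: definitions of the split

The index set `ι × ℕ` of all pairs (critical point, time) is enumerated by `e : ℕ ≃ ι × ℕ`; `bt`, `pt` are the residues and the poles
of the quadratic differential `qs (bt e α B) (pt e p)` (`qs` of H35/EX/SerD).
-/

set_option autoImplicit false

open Filter Topology Polynomial Metric Set MeasureTheory

namespace Pool.Agent.H91.CS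

open Pool.Agent.H44.Fatou Pool.Agent.H61.TT Pool.Agent.H35.EX Pool.Agent.H91.CE

/-- the residues `α i * B i k` -/
noncomputable def bt {ι : Type} (e : ℕ ≃ ι × ℕ) (α : ι → ℂ) (B : ι → ℕ → ℂ) (n : ℕ) : ℂ :=
  α (e n).1 * B (e n).1 (e n).2

/-- the poles `p i (k + 1)` -/
def pt' {ι : Type} (e : ℕ ≃ ι × ℕ) (p : ι → ℕ → ℂ) (n : ℕ) : ℂ := p (e n).1 ((e n).2 + 1)

/-- the residue at `s` of a sum of simple poles -/
noncomputable def rs (β P : ℕ → ℂ) (s : ℂ) : ℂ := ∑' k, Set.indicator {k : ℕ | P k = s} β k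

/-- the derivative of the `N`-th iterate along the orbit of `y` -/
noncomputable def dn (a b : Polynomial ℂ) (N : ℕ) (y : ℂ) : ℂ :=
  ∏ i ∈ Finset.range N, dg a b ((gg a b)^[i] y)

/-- the first `N` points of the orbit of `y` are finite -/
def Fi (a b : Polynomial ℂ) (N : ℕ) (y : ℂ) : Prop := ∀ i < N, b.eval ((gg a b)^[i] y) ≠ 0

/-- the direction of the quadratic differential `q` is preserved by all iterates -/
def LF (a b : Polynomial ℂ) (q : ℂ → ℂ) : Prop :=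
  ∀ᵐ y : ℂ, ∀ N : ℕ, Fi a b N y →
    ∃ l : ℝ, 0 ≤ l ∧ q y = l * dn a b N y ^ 2 * q ((gg a b)^[N] y)

/-- near `c` the function `q` is in the mean close to `t * (x - c) ^ l` -/
def Lead (q : ℂ → ℂ) (c : ℂ) (l : ℕ) (t : ℂ) : Prop :=
  t ≠ 0 ∧ Tendsto (fun δ : ℝ => (∫⁻ x in ball c δ, ‖q x - t * (x - c) ^ l‖ₑ) /
    ENNReal.ofReal (δ ^ (l + 2))) (𝓝[>] 0) (𝓝 0)

/-- on a ball around `s` the values of `q` are in a half plane, away from its boundary -/
def Cone (q : ℂ → ℂ) (s : ℂ) : Prop :=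
  ∃ (u : ℂ) (r : ℝ), u ≠ 0 ∧ 0 < r ∧
    ∀ᵐ w : ℂ, w ∈ ball s r → ‖q w‖ * ‖u‖ / 2 ≤ (q w * (starRingEnd ℂ) u).re

/-- a rational function with simple poles -/
noncomputable def rf (S : Finset ℂ) (R : ℂ → ℂ) (x : ℂ) : ℂ := ∑ s ∈ S, R s / (x - s)

end Pool.Agent.H91.CS
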