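import Pool.Agent.H91.CS.TRES

/-!
# Module TCON: the residue vanishes if the values are in a half plane

PROOF. `R = rs β P s`, `q = qs β P`, `0 < δ < r`, all integrals over `ball s δ`. `q` is integrable there (`qs_ball`, H35/EX/SerA, `qs_meas`), `w ↦ 1 / (w - s)` too (`ker_bound`, H35/EX/KerB), and `∫ 1 / (w - s) = 0` (substitution `w ↦ 2 s - w`:
`integral_sub_left_eq_self` or `MeasurePreserving` for `w ↦ 2 * s - w`, which maps the ball onto itself). So with `E δ = ∫ ‖q w - R / (w - s)‖`: `(‖u‖ / 2) * ∫ ‖q‖ ≤ ∫ (q * conj u).re = re (conj u * ∫ q) = re (conj u * ∫ (q - R / (w - s))) ≤ ‖u‖ * E δ`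
and `∫ ‖q‖ ≥ ‖R‖ * ∫ 1 / ‖w - s‖ - E δ ≥ ‖R‖ * π * δ - E δ` (`1 / ‖w - s‖ ≥ 1 / δ`, area `π δ ^ 2`). So `‖R‖ * π * δ ≤ 3 * E δ`, and `E δ / δ → 0` by `qs_res`: `R = 0`.
-/

set_option autoImplicit false

open Filter Topology Polynomial Metric Set MeasureTheory

namespace Pool.Agent.H91.CS

open Pool.Agent.H44.Fatou Pool.Agent.H61.TT Pool.Agent.H35.EX Pool.Agent.H91.CE

private theorem tcon_int (R s : ℂ) (δ : ℝ) :
    Integrable (fun x : ℂ => R / (x - s)) (volume.restrict (ball s δ)) := by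
  obtain ⟨C, hC, hker⟩ := ker_bound s δ
  have hm : Measurable fun x : ℂ => R / (x - s) := measurable_const.div (measurable_id.sub_const s)
  refine ⟨hm.aestronglyMeasurable, ?_⟩
  show ∫⁻ x in ball s δ, ‖R / (x - s)‖ₑ < ⊤
  have h2 : ∀ x : ℂ, ‖R / (x - s)‖ₑ = ENNReal.ofReal ‖R‖ * ENNReal.ofReal (‖x - s‖⁻¹) := by
    intro x
    rw [← ofReal_norm, norm_div, div_eq_mul_inv, ENNReal.ofReal_mul (norm_nonneg _)]
  simp_rw [h2]
  rw [lintegral_const_mul' _ _ ENNReal.ofReal_ne_top]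
  exact ENNReal.mul_lt_top ENNReal.ofReal_lt_top (lt_of_le_of_lt (hker s) hC.lt_top)

private theorem tcon_zero (R s : ℂ) (δ : ℝ) : ∫ x in ball s δ, R / (x - s) = 0 := by
  rw [← integral_indicator measurableSet_ball]
  have h1 := integral_sub_left_eq_self
    (fun x : ℂ => (ball s δ).indicator (fun x => R / (x - s)) x) volume (2 * s)
  have h2 : (fun x : ℂ => (ball s δ).indicator (fun x => R / (x - s)) (2 * s - x)) =
      fun x => - (ball s δ).indicator (fun x => R / (x - s)) x := by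
    funext x
    have e : 2 * s - x - s = -(x - s) := by ring
    by_cases hx : x ∈ ball s δ
    · have hx' : 2 * s - x ∈ ball s δ := by
        rw [mem_ball_iff_norm] at hx ⊢
        rw [e, norm_neg]
        exact hx
      rw [indicator_of_mem hx, indicator_of_mem hx', e, div_neg]
    · have hx' : 2 * s - x ∉ ball s δ := by
        rw [mem_ball_iff_norm] at hx ⊢
        rw [e, norm_neg]
        exact hx
      rw [indicator_of_notMem hx, indicator_of_notMem hx', neg_zero]
  rw [h2, integral_neg] at h1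
  have h3 : (2 : ℂ) * ∫ x, (ball s δ).indicator (fun x => R / (x - s)) x = 0 := by
    rw [two_mul]
    nth_rewrite 1 [← h1]
    exact neg_add_cancel _
  exact (mul_eq_zero.1 h3).resolve_left two_ne_zero

private theorem tcon_low (R s : ℂ) {δ : ℝ} (hδ : 0 < δ) :
    ‖R‖ * Real.pi * δ ≤ ∫ x in ball s δ, ‖R / (x - s)‖ := by
  have h1 : ∫ _ in ball s δ, ‖R‖ / δ ≤ ∫ x in ball s δ, ‖R / (x - s)‖ := by
    refine integral_mono_ae ?_ (tcon_int R s δ).norm ?_
    · exact integrableOn_const (measure_ball_lt_top.ne)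
    · have h2 : ∀ᵐ x : ℂ, x ≠ s := compl_mem_ae_iff.2 (measure_singleton s)
      rw [Filter.EventuallyLE, ae_restrict_iff' measurableSet_ball]
      filter_upwards [h2] with x hx hxb
      rw [mem_ball_iff_norm] at hxb
      rw [norm_div]
      exact div_le_div_of_nonneg_left (norm_nonneg _) (norm_pos_iff.2 (sub_ne_zero.2 hx)) hxb.le
  refine le_trans (le_of_eq ?_) h1
  rw [setIntegral_const, smul_eq_mul, Measure.real, Complex.volume_ball, ENNReal.toReal_mul,
    ENNReal.toReal_pow, ENNReal.toReal_ofReal hδ.le, ENNReal.coe_toReal, NNReal.coe_real_pi]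
  field_simp

theorem rs_zero_of_cone {β P : ℕ → ℂ} (hβ : Summable fun k => ‖β k‖) {s : ℂ}
    (hc : Cone (qs β P) s) : rs β P s = 0 := by
  obtain ⟨u, r, hu, hr, hcone⟩ := hc
  by_contra hR
  set R := rs β P s with hRdef
  have hRp : 0 < ‖R‖ := norm_pos_iff.2 hR
  have hup : 0 < ‖u‖ := norm_pos_iff.2 hu
  have hpi := Real.pi_pos
  have hεp : (0 : ENNReal) < ENNReal.ofReal (‖R‖ * Real.pi / 4) :=
    ENNReal.ofReal_pos.2 (by positivity)
  have hev := (qs_res (P := P) hβ s).eventually (gt_mem_nhds hεp)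
  have hev2 : ∀ᶠ δ : ℝ in 𝓝[>] 0, δ ∈ Ioo 0 r := Ioo_mem_nhdsGT hr
  obtain ⟨δ, hδ1, hδ2⟩ := (hev.and hev2).exists
  have hδ := hδ2.1
  have hqi : Integrable (qs β P) (volume.restrict (ball s δ)) :=
    ⟨(qs_meas β P).aestronglyMeasurable, (qs_ball hβ s δ).lt_top⟩
  have hfi := tcon_int R s δ
  have hdi : Integrable (fun x => qs β P x - R / (x - s)) (volume.restrict (ball s δ)) :=
    hqi.sub hfi
  -- the error
  have hE : ∫ x in ball s δ, ‖qs β P x - R / (x - s)‖ ≤ ‖R‖ * Real.pi / 4 * δ := by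
    rw [integral_norm_eq_lintegral_enorm hdi.1]
    have h1 : ∫⁻ x in ball s δ, ‖qs β P x - R / (x - s)‖ₑ ≤
        ENNReal.ofReal (‖R‖ * Real.pi / 4) * ENNReal.ofReal δ := by
      have h2 : (∫⁻ x in ball s δ, ‖qs β P x - R / (x - s)‖ₑ) / ENNReal.ofReal δ ≤
          ENNReal.ofReal (‖R‖ * Real.pi / 4) := le_of_lt hδ1
      rwa [ENNReal.div_le_iff (ENNReal.ofReal_pos.2 hδ).ne' ENNReal.ofReal_ne_top] at h2
    rw [← ENNReal.ofReal_mul (by positivity)] at h1
    exact ENNReal.toReal_le_of_le_ofReal (by positivity) h1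
  set E := ∫ x in ball s δ, ‖qs β P x - R / (x - s)‖ with hEdef
  -- the mean value of `q`
  have h1 : ‖∫ x in ball s δ, qs β P x‖ ≤ E := by
    have e : ∫ x in ball s δ, qs β P x = ∫ x in ball s δ, (qs β P x - R / (x - s)) := by
      rw [integral_sub hqi hfi, tcon_zero, sub_zero]
    rw [e]
    exact norm_integral_le_integral_norm _
  have h2 : ‖u‖ / 2 * ∫ x in ball s δ, ‖qs β P x‖ ≤ ‖u‖ * E := by
    have h3 : ‖u‖ / 2 * ∫ x in ball s δ, ‖qs β P x‖ ≤
        ∫ x in ball s δ, (qs β P x * (starRingEnd ℂ) u).re := by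
      rw [← integral_const_mul]
      refine integral_mono_ae (hqi.norm.const_mul _) ?_ ?_
      · exact (hqi.mul_const _).re
      · rw [Filter.EventuallyLE, ae_restrict_iff' measurableSet_ball]
        filter_upwards [hcone] with x hx hxb
        have h4 := hx (ball_subset_ball hδ2.2.le hxb)
        refine le_trans (le_of_eq ?_) h4
        ring
    have h5 : ∫ x in ball s δ, (qs β P x * (starRingEnd ℂ) u).re =
        ((∫ x in ball s δ, qs β P x) * (starRingEnd ℂ) u).re := by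
      rw [← integral_mul_const]
      exact integral_re (hqi.mul_const _)
    rw [h5] at h3
    refine h3.trans ((Complex.re_le_norm _).trans ?_)
    rw [norm_mul, RCLike.norm_conj, mul_comm]
    exact mul_le_mul_of_nonneg_left h1 hup.le
  have h6 : ∫ x in ball s δ, ‖qs β P x‖ ≤ 2 * E := by
    have h7 : ‖u‖ * (∫ x in ball s δ, ‖qs β P x‖) ≤ ‖u‖ * (2 * E) := by linarith
    exact le_of_mul_le_mul_left h7 hup
  have h8 : ∫ x in ball s δ, ‖R / (x - s)‖ ≤ (∫ x in ball s δ, ‖qs β P x‖) + E := by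
    rw [hEdef, ← integral_add hqi.norm hdi.norm]
    refine integral_mono hfi.norm (hqi.norm.add hdi.norm) ?_
    intro x
    show ‖R / (x - s)‖ ≤ ‖qs β P x‖ + ‖qs β P x - R / (x - s)‖
    have := norm_sub_le (qs β P x) (qs β P x - R / (x - s))
    rwa [sub_sub_cancel] at this
  have h9 := tcon_low R s hδ
  have h10 : 0 < ‖R‖ * Real.pi * δ := by positivity
  linarith

end Pool.Agent.H91.CS
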