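import Pool.Agent.H91.CS.TBase

/-!
# Module TORD: order of a - f(c) b at c

PROOF. `v = gg a b c`, `g = a - C v * b`, `g.eval c = 0`, `g ≠ 0` (`fib_ne`, H61/TT/Fib: `fib a b v`). `ww a b = derivative g * b - g * derivative b`. Let `n = g.rootMultiplicity c ≥ 1`, `g = (X - C c) ^ n * u`, `u.eval c ≠ 0`. `derivative g = (X - C c) ^ (n - 1) * (C n * u + (X - C c) * derivative u)`. So
`ww a b = (X - C c) ^ (n - 1) * (C n * u * b + (X - C c) * (derivative u * b - u * derivative b))`, and the second factor is `n * u(c) * b(c) ≠ 0` at `c`: the root multiplicity of `ww a b` at `c` is `n - 1`. So `n` is that plus `1`.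
-/

set_option autoImplicit false

open Filter Topology Polynomial Metric Set MeasureTheory

namespace Pool.Agent.H91.CS

open Pool.Agent.H44.Fatou Pool.Agent.H61.TT Pool.Agent.H35.EX Pool.Agent.H91.CE

theorem ord_fib {d : ℕ} {a b : Polynomial ℂ} (h : RatD d a b) {c : ℂ} (hc : b.eval c ≠ 0) :
    (X - C c) ^ ((ww a b).rootMultiplicity c + 1) ∣ a - C (gg a b c) * b := by
  have hg0 : a - C (gg a b c) * b ≠ 0 := fib_ne h (gg a b c)
  have hev : (a - C (gg a b c) * b).eval c = 0 := by
    unfold gg
    rw [eval_sub, eval_mul, eval_C, div_mul_cancel₀ _ hc, sub_self]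
  generalize gg a b c = v at hg0 hev ⊢
  obtain ⟨u, hu, hnd⟩ := exists_eq_pow_rootMultiplicity_mul_and_not_dvd _ hg0 c
  have hn1 : 0 < (a - C v * b).rootMultiplicity c := (rootMultiplicity_pos hg0).2 hev
  obtain ⟨m, hm⟩ : ∃ m, (a - C v * b).rootMultiplicity c = m + 1 :=
    ⟨(a - C v * b).rootMultiplicity c - 1, by omega⟩
  rw [hm] at hu
  have huc : u.eval c ≠ 0 := fun h0 => hnd (dvd_iff_isRoot.2 h0)
  have hww : ww a b = (X - C c) ^ m * ((C ((m : ℂ) + 1) * u * b) +
      (X - C c) * (derivative u * b - u * derivative b)) := by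
    have h1 : ww a b = derivative (a - C v * b) * b - (a - C v * b) * derivative b := by
      unfold ww
      rw [derivative_sub, derivative_mul, derivative_C]
      ring
    rw [h1, hu, derivative_mul, derivative_X_sub_C_pow]
    simp only [Nat.add_sub_cancel, Nat.cast_add, Nat.cast_one, map_add, map_natCast, map_one]
    ring
  have hwc : ((C ((m : ℂ) + 1) * u * b) +
      (X - C c) * (derivative u * b - u * derivative b)).eval c ≠ 0 := by
    rw [eval_add, eval_mul, eval_mul, eval_C, eval_mul (p := X - C c), eval_sub, eval_X, eval_C,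
      sub_self, zero_mul, add_zero]
    have : ((m : ℂ) + 1) ≠ 0 := by exact_mod_cast Nat.succ_ne_zero m
    exact mul_ne_zero (mul_ne_zero this huc) hc
  generalize (C ((m : ℂ) + 1) * u * b) +
      (X - C c) * (derivative u * b - u * derivative b) = w at hww hwc
  have hw0 : w ≠ 0 := by
    rintro rfl
    exact hwc (eval_zero)
  have hX : (X - C c) ^ m ≠ 0 := pow_ne_zero _ (X_sub_C_ne_zero c)
  have hwwne : ww a b ≠ 0 := by
    rw [hww]
    exact mul_ne_zero hX hw0
  have hle : (ww a b).rootMultiplicity c ≤ m := by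
    rw [rootMultiplicity_le_iff hwwne]
    intro hd
    rw [hww, pow_succ, mul_dvd_mul_iff_left hX] at hd
    exact hwc (dvd_iff_isRoot.1 hd)
  rw [hu]
  exact (pow_dvd_pow _ (by omega)).mul_right u

end Pool.Agent.H91.CS
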