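import Pool.Agent.H91.CS.TBase

/-!
# Module TNZA: interpolation modulo a power

PROOF. `(X - C c) ^ n` and `u` are coprime (`u.eval c ≠ 0`): `v * u + w * (X - C c) ^ n = 1`. `G = (v * b ^ 2) %ₘ (X - C c) ^ n` has degree `< n` and `G * u ≡ b ^ 2` modulo `(X - C c) ^ n`. `G = ∑ l < n, C (g l) * (X - C c) ^ l` (Taylor: `Polynomial.sum_taylor_eq`, or `G.comp (X + C c)` as a sum of monomials
(`as_sum_range'`) composed with `X - C c`).
-/

set_option autoImplicit false

open Filter Topology Polynomial Metric Set MeasureTheory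

namespace Pool.Agent.H91.CS

open Pool.Agent.H44.Fatou Pool.Agent.H61.TT Pool.Agent.H35.EX Pool.Agent.H91.CE

theorem interp {b u : Polynomial ℂ} {c : ℂ} (hu : u.eval c ≠ 0) (n : ℕ) :
    ∃ g : ℕ → ℂ, (X - C c) ^ n ∣ (∑ l ∈ Finset.range n, C (g l) * ((X - C c) ^ l * u)) - b ^ 2 := by
  induction n with
  | zero => exact ⟨fun _ => 0, by rw [pow_zero]; exact one_dvd _⟩
  | succ n ih =>
    obtain ⟨g, q, hq⟩ := ih
    refine ⟨Function.update g n (-(q.eval c / u.eval c)), ?_⟩
    have h1 : ∑ l ∈ Finset.range (n + 1),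
        C (Function.update g n (-(q.eval c / u.eval c)) l) * ((X - C c) ^ l * u) =
        (∑ l ∈ Finset.range n, C (g l) * ((X - C c) ^ l * u)) +
          C (-(q.eval c / u.eval c)) * ((X - C c) ^ n * u) := by
      rw [Finset.sum_range_succ, Function.update_self]
      congr 1
      refine Finset.sum_congr rfl fun l hl => ?_
      rw [Function.update_of_ne (Finset.mem_range.1 hl).ne]
    have h2 : (X - C c) ∣ q + C (-(q.eval c / u.eval c)) * u := by
      rw [dvd_iff_isRoot, IsRoot.def, eval_add, eval_mul, eval_C]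
      field_simp
      ring
    have h3 : (∑ l ∈ Finset.range n, C (g l) * ((X - C c) ^ l * u)) +
        C (-(q.eval c / u.eval c)) * ((X - C c) ^ n * u) - b ^ 2 =
        (X - C c) ^ n * (q + C (-(q.eval c / u.eval c)) * u) := by
      rw [mul_add, ← hq]
      ring
    rw [h1, h3, pow_succ]
    exact mul_dvd_mul_left _ h2

end Pool.Agent.H91.CS
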