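import Pool.Agent.H91.CS.TORD

/-!
# Module TLOC: the interpolation polynomial is local

PROOF. `v = gg a b c ≠ x`, `M = (X - C c) ^ n`, `n` the multiplicity of `ww a b` at `c`; `M ∣ ww a b` (`pow_rootMultiplicity_dvd`) and `M ∣ a - C v * b` (`ord_fib`). `fib a b x = a - C x * b = (a - C v * b) + C (v - x) * b`. So modulo `M`: `C (v - x) * b * E ≡ b ^ 3`, i.e. `M ∣ b * (C (v - x) * E - b ^ 2)`. `M` and `b` are coprime
(`b.eval c ≠ 0`: `(X - C c)` is irreducible and does not divide `b`; `IsCoprime.pow_left`), so `M ∣ C (v - x) * E - b ^ 2`; multiply by `C (v - x)⁻¹`: `e = (v - x)⁻¹`.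
-/

set_option autoImplicit false

open Filter Topology Polynomial Metric Set MeasureTheory

namespace Pool.Agent.H91.CS

open Pool.Agent.H44.Fatou Pool.Agent.H61.TT Pool.Agent.H35.EX Pool.Agent.H91.CE

theorem loc_E {d : ℕ} {a b : Polynomial ℂ} (h : RatD d a b) {E T : Polynomial ℂ} {x c : ℂ}
    (hc : b.eval c ≠ 0) (hx : gg a b c ≠ x) (hE : fib a b x * E = b ^ 3 - ww a b * T) :
    ∃ e : ℂ, (X - C c) ^ ((ww a b).rootMultiplicity c) ∣ E - C e * b ^ 2 := by
  have hO := ord_fib h hc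
  generalize gg a b c = v at hx hO
  generalize hn : (ww a b).rootMultiplicity c = n at hO ⊢
  have hW : (X - C c) ^ n ∣ ww a b := by
    rw [← hn]
    exact pow_rootMultiplicity_dvd _ _
  have hV : (X - C c) ^ n ∣ a - C v * b := (pow_dvd_pow _ (Nat.le_succ n)).trans hO
  have hvx : v - x ≠ 0 := sub_ne_zero.2 hx
  have h1 : (X - C c) ^ n ∣ b * (C (v - x) * E - b ^ 2) := by
    have e : b * (C (v - x) * E - b ^ 2) = -(a - C v * b) * E - ww a b * T := by
      have : ww a b * T = b ^ 3 - fib a b x * E := by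
        rw [hE]
        ring
      rw [this]
      unfold fib
      rw [C_sub]
      ring
    rw [e]
    exact dvd_sub ((hV.neg_right).mul_right E) (hW.mul_right T)
  have hco : IsCoprime ((X - C c) ^ n) b := by
    apply IsCoprime.pow_left
    refine (Irreducible.coprime_iff_not_dvd (irreducible_X_sub_C c)).2 ?_
    intro hd
    exact hc (dvd_iff_isRoot.1 hd)
  have h2 : (X - C c) ^ n ∣ C (v - x) * E - b ^ 2 := hco.dvd_of_dvd_mul_left h1
  refine ⟨(v - x)⁻¹, ?_⟩
  have e : E - C (v - x)⁻¹ * b ^ 2 = C (v - x)⁻¹ * (C (v - x) * E - b ^ 2) := by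
    rw [mul_sub, ← mul_assoc, ← C_mul, inv_mul_cancel₀ hvx, C_1, one_mul]
  rw [e]
  exact h2.mul_left _

end Pool.Agent.H91.CS
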