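import Pool.Agent.H91.CS.TBase

/-!
# Module TMER: merging of orbits

PROOF. For every `i` there is `n_i` such that the claim holds for `n ≥ n_i`; take the maximum over the finite type `ι` (`Finset.exists_le` or `Finset.univ.sup`). If `p i` is not injective: `p i u = p i (u + v)`, `v ≥ 1`, the range of `p i` is finite (periodic from `u` on, by `ho`), and since `p i0` is injective only finitely many `n` satisfy
`p i0 (n + 1) ∈ range (p i)`. If `p i` is injective and there is no pair `(k0, n1)` with `p i (k0 + 1) = p i0 (n1 + 1)`: `n_i = 0`. Otherwise `n_i = n1 + 1`: if `n ≥ n1 + 1` and `p i (k + 1) = p i0 (n + 1)`, then `p i (k0 + 1 + t) = p i0 (n1 + 1 + t)` for all `t` (induction, `ho`), so with `t = n - n1`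
`p i (k0 + 1 + (n - n1)) = p i (k + 1)`, `k = k0 + (n - n1) ≥ 1`, and with `t = n - n1 - 1` `p i k = p i0 n`.
-/

set_option autoImplicit false

open Filter Topology Polynomial Metric Set MeasureTheory

namespace Pool.Agent.H91.CS

open Pool.Agent.H44.Fatou Pool.Agent.H61.TT Pool.Agent.H35.EX Pool.Agent.H91.CE

private theorem TMER_shift {f : ℂ → ℂ} {a b : ℕ → ℂ} (ha : ∀ k, f (a k) = a (k + 1))
    (hb : ∀ k, f (b k) = b (k + 1)) {u v : ℕ} (h : a u = b v) (t : ℕ) : a (u + t) = b (v + t) := by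
  induction t with
  | zero => exact h
  | succ t ih =>
    rw [← Nat.add_assoc, ← Nat.add_assoc, ← ha, ← hb, ih]

private theorem TMER_fin {f : ℂ → ℂ} {a : ℕ → ℂ} (ha : ∀ k, f (a k) = a (k + 1))
    (hn : ¬ Function.Injective a) : (Set.range a).Finite := by
  have h1 : ∃ u v : ℕ, u < v ∧ a u = a v := by
    by_contra hcon
    push Not at hcon
    apply hn
    intro u v huv
    rcases lt_trichotomy u v with h | h | h
    · exact absurd huv (hcon u v h)
    · exact h
    · exact absurd huv.symm (hcon v u h)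
  obtain ⟨u, v, huv, he⟩ := h1
  refine Set.Finite.subset ((Set.finite_Iio v).image a) ?_
  rintro _ ⟨m, rfl⟩
  induction m using Nat.strong_induction_on with
  | _ m ih =>
    by_cases hm : m < v
    · exact ⟨m, hm, rfl⟩
    · have h2 := TMER_shift ha ha he (m - v)
      rw [Nat.add_sub_cancel' (not_lt.1 hm)] at h2
      rw [← h2]
      exact ih (u + (m - v)) (by omega)

private theorem TMER_one {f : ℂ → ℂ} {a b : ℕ → ℂ} (ha : ∀ k, f (a k) = a (k + 1))
    (hb : ∀ k, f (b k) = b (k + 1)) (hinj : Function.Injective b) :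
    ∃ n0 : ℕ, ∀ n ≥ n0, ∀ k, a (k + 1) = b (n + 1) → 1 ≤ k ∧ a k = b n := by
  by_cases hi : Function.Injective a
  · by_cases hp : ∃ k0 n1 : ℕ, a (k0 + 1) = b (n1 + 1)
    · obtain ⟨k0, n1, h⟩ := hp
      refine ⟨n1 + 1, fun n hn k hk => ?_⟩
      have h2 := TMER_shift ha hb h (n - n1)
      have e1 : n1 + 1 + (n - n1) = n + 1 := by omega
      rw [e1, ← hk] at h2
      have h3 := hi h2
      have h4 := TMER_shift ha hb h (n - n1 - 1)
      have e2 : n1 + 1 + (n - n1 - 1) = n := by omega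
      have e3 : k0 + 1 + (n - n1 - 1) = k := by omega
      rw [e2, e3] at h4
      exact ⟨by omega, h4⟩
    · refine ⟨0, fun n _ k hk => ?_⟩
      exact absurd ⟨k, n, hk⟩ hp
  · have hf := TMER_fin ha hi
    have hf2 : {n : ℕ | b (n + 1) ∈ Set.range a}.Finite :=
      hf.preimage (f := fun n : ℕ => b (n + 1)) (fun x _ y _ hxy => by
        have := hinj hxy
        omega)
    obtain ⟨N, hN⟩ := hf2.bddAbove
    refine ⟨N + 1, fun n hn k hk => ?_⟩
    have := hN (show n ∈ {n : ℕ | b (n + 1) ∈ Set.range a} from ⟨k + 1, hk⟩)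
    omega

theorem merge {ι : Type} [Fintype ι] {f : ℂ → ℂ} {p : ι → ℕ → ℂ}
    (ho : ∀ i k, f (p i k) = p i (k + 1)) {i0 : ι} (hinj : Function.Injective (p i0)) :
    ∃ n0 : ℕ, ∀ n ≥ n0, ∀ i k, p i (k + 1) = p i0 (n + 1) → 1 ≤ k ∧ p i k = p i0 n := by
  have h : ∀ i, ∃ n0 : ℕ, ∀ n ≥ n0, ∀ k, p i (k + 1) = p i0 (n + 1) → 1 ≤ k ∧ p i k = p i0 n :=
    fun i => TMER_one (ho i) (ho i0) hinj
  choose N hN using h
  refine ⟨Finset.univ.sup N, fun n hn i k hk => ?_⟩
  exact hN i n ((Finset.le_sup (Finset.mem_univ i)).trans hn) k hk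

end Pool.Agent.H91.CS
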