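import Pool.Agent.H91.CS.ALOW

/-!
# Module ACMP: comparison of the differences and of the size after one step

PROOF. `r1 ≤` both of `a_step`, `a_low`, `ρ ≤ r1`; `g = st T v0 n`. Let `Mx` be the maximum of `‖deriv g‖` on `closedBall 0 D`, attained at `z0` (`deriv g` is continuous there: `g` is holomorphic near the compact ball, by `a_step`). Upper bound: with `Z = GG n u`,
`Z' = GG n u'` (in `closedBall 0 D`), `p = θ u.1`: `‖st T (v0 + p) n Z - st T (v0 + p') n Z'‖ ≤ ‖g Z - g Z'‖ + L ‖p‖ + L ‖p'‖ ≤ Mx ‖Z - Z'‖ + 2 L ρ` (mean value inequality on the convex ball). Lower bound: for `ε > 0` take `r` from `a_low`. The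
function `u ↦ ‖GG n u‖` is continuous on the connected set `ball 0 ρ`, vanishes at `0` (`nit` at `v0` fixes `0`) and takes a value `> r`, so there is `u1` with `‖GG n u1‖ = r` (`IsPreconnected.intermediate_value`), and
`D' ≥ ‖GG (n + 1) u1‖ ≥ ‖g (GG n u1)‖ - L ρ`. So `Mx D ≤ (1 + L min ..) (D' + L ρ) + ε` for all `ε > 0`. Multiply the upper bound by `D`.
-/

set_option autoImplicit false

open Filter Topology Metric Set

namespace Pool.Agent.H91.CS

open Pool.Agent.H44.Fatou Pool.Agent.H79.Eul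

private theorem acmp_nit0 {d : ℕ} {T : ℕ → E d → E d} {v0 : E d} {R δ : ℝ}
    (h : AS T v0 R δ) (n : ℕ) : nit T v0 n 0 = 0 := by
  induction n with
  | zero => rfl
  | succ n ih =>
    show st T v0 n (nit T v0 n 0) = 0
    rw [ih]
    show ev (T n v0).1 0 / ev (T n v0).2 0 = 0
    rw [h.zero n, zero_div]

theorem a_cmp {d : ℕ} {T : ℕ → E d → E d} {v0 : E d} {R δ : ℝ} (h : AS T v0 R δ)
    (he : ∀ n, en T v0 n ≠ 0) {θ : ℝ} (hθ : 0 < θ) (hθ1 : θ ≤ 1) :
    ∃ r1 L : ℝ, 0 < r1 ∧ r1 ≤ 1 ∧ 1 ≤ L ∧ ∀ (n : ℕ) (ρ D D' : ℝ), 0 < ρ → ρ ≤ r1 → 0 < D →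
      D ≤ r1 → DifferentiableOn ℂ (GG T v0 θ n) (ball 0 ρ) →
      (∀ u ∈ ball (0 : E d × ℂ) ρ, ‖GG T v0 θ n u‖ ≤ D) →
      (∀ D1 < D, ∃ u ∈ ball (0 : E d × ℂ) ρ, D1 < ‖GG T v0 θ n u‖) →
      (∀ u ∈ ball (0 : E d × ℂ) ρ, ‖GG T v0 θ (n + 1) u‖ ≤ D') →
        ∀ u ∈ ball (0 : E d × ℂ) ρ, ∀ u' ∈ ball (0 : E d × ℂ) ρ,
          ‖GG T v0 θ (n + 1) u - GG T v0 θ (n + 1) u'‖ * D ≤
            (1 + L * min 1 (D / ‖en T v0 n‖)) * (D' + L * ρ) *
              ‖GG T v0 θ n u - GG T v0 θ n u'‖ + L * ρ * D := by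
  obtain ⟨r1, L1, hr1, hr11, hL1, hs⟩ := a_step h
  obtain ⟨r2, L2, hr2, hr21, hL2, hl⟩ := a_low h he
  refine ⟨min r1 r2, 2 * L1 + L2, lt_min hr1 hr2, (min_le_left _ _).trans hr11, by linarith, ?_⟩
  intro n ρ D D' hρ hρ1 hD hD1 hdiff hle hsup hle' u hu u' hu'
  have hρr1 : ρ ≤ r1 := hρ1.trans (min_le_left _ _)
  have hDr1 : D ≤ r1 := hD1.trans (min_le_left _ _)
  have hDr2 : D ≤ r2 := hD1.trans (min_le_right _ _)
  have hsn := (hs n).2
  -- differentiability of g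
  have hgd : ∀ Z : ℂ, ‖Z‖ ≤ 2 * r1 → DifferentiableAt ℂ (st T v0 n) Z := by
    intro Z hZ
    have h1 := (hsn 0 (by simpa using hr1.le) Z hZ).2.2.1
    have h2 : DifferentiableAt ℂ (fun w : ℂ => ((0 : E d), w)) Z :=
      (differentiableAt_const _).prodMk differentiableAt_id
    have h3 := DifferentiableAt.comp Z h1 h2
    have h4 : ((fun x : E d × ℂ => st T (v0 + x.1) n x.2) ∘ fun w : ℂ => ((0 : E d), w)) =
        st T v0 n := by
      funext w
      simp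
    rwa [h4] at h3
  have hgon : DifferentiableOn ℂ (st T v0 n) (ball 0 (2 * r1)) := fun Z hZ =>
    (hgd Z (by rw [mem_ball_zero_iff] at hZ; exact hZ.le)).differentiableWithinAt
  have hderc : ContinuousOn (fun z => ‖deriv (st T v0 n) z‖) (closedBall 0 D) := by
    have h1 : ContinuousOn (deriv (st T v0 n)) (ball 0 (2 * r1)) :=
      (hgon.deriv isOpen_ball).continuousOn
    refine (h1.mono ?_).norm
    exact closedBall_subset_ball (by linarith)
  obtain ⟨z0, hz0, hmax⟩ := (isCompact_closedBall (0 : ℂ) D).exists_isMaxOn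
    ⟨0, mem_closedBall_self hD.le⟩ hderc
  have hz0' : ‖z0‖ ≤ D := by simpa using hz0
  set Mx : ℝ := ‖deriv (st T v0 n) z0‖ with hMx
  have hMx0 : 0 ≤ Mx := norm_nonneg _
  have hmvt : ∀ Z Z' : ℂ, ‖Z‖ ≤ D → ‖Z'‖ ≤ D →
      ‖st T v0 n Z - st T v0 n Z'‖ ≤ Mx * ‖Z - Z'‖ := by
    intro Z Z' hZ hZ'
    refine (convex_closedBall (0 : ℂ) D).norm_image_sub_le_of_norm_deriv_le
      (f := st T v0 n) (C := Mx) (x := Z') (y := Z) ?_ ?_ (by simpa using hZ') (by simpa using hZ)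
    · intro x hx
      have : ‖x‖ ≤ D := by simpa using hx
      exact hgd x (by linarith)
    · intro x hx
      exact hmax hx
  have hnp : ∀ w ∈ ball (0 : E d × ℂ) ρ, ‖(θ : ℂ) • w.1‖ ≤ ρ := by
    intro w hw
    rw [mem_ball_zero_iff] at hw
    rw [norm_smul, Complex.norm_real, Real.norm_eq_abs, abs_of_pos hθ]
    have h1 : ‖w.1‖ ≤ ‖w‖ := norm_fst_le w
    calc θ * ‖w.1‖ ≤ 1 * ‖w.1‖ := mul_le_mul_of_nonneg_right hθ1 (norm_nonneg _)
      _ ≤ ρ := by linarith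
  have hpert : ∀ w ∈ ball (0 : E d × ℂ) ρ,
      ‖GG T v0 θ (n + 1) w - st T v0 n (GG T v0 θ n w)‖ ≤ L1 * ρ := by
    intro w hw
    have h1 := (hsn ((θ : ℂ) • w.1) ((hnp w hw).trans hρr1) (GG T v0 θ n w)
      ((hle w hw).trans (by linarith))).2.2.2.2.1
    exact h1.trans (mul_le_mul_of_nonneg_left (hnp w hw) (by linarith))
  have h0mem : (0 : E d × ℂ) ∈ ball (0 : E d × ℂ) ρ := mem_ball_self hρ
  have hG0 : GG T v0 θ n 0 = 0 := by
    show nit T (v0 + (θ : ℂ) • (0 : E d × ℂ).1) n (0 : E d × ℂ).2 = 0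
    have h1 : v0 + (θ : ℂ) • (0 : E d × ℂ).1 = v0 := by simp
    rw [h1]
    exact acmp_nit0 h n
  have hD'0 : 0 ≤ D' := (norm_nonneg _).trans (hle' 0 h0mem)
  set m : ℝ := min 1 (D / ‖en T v0 n‖) with hm
  have hm0 : 0 ≤ m := le_min zero_le_one (div_nonneg hD.le (norm_nonneg _))
  have hMD : Mx * D ≤ (1 + L2 * m) * (D' + L1 * ρ) := by
    refine le_of_forall_pos_le_add ?_
    intro ε hε
    obtain ⟨r, hr0, hrD, hr⟩ := hl n D hD hDr2 z0 hz0' ε hε
    obtain ⟨u2, hu2, hru2⟩ := hsup r hrD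
    have hcont : ContinuousOn (fun w => ‖GG T v0 θ n w‖) (ball (0 : E d × ℂ) ρ) :=
      hdiff.continuousOn.norm
    have hpre : IsPreconnected (ball (0 : E d × ℂ) ρ) := (convex_ball 0 ρ).isPreconnected
    have hiv := hpre.intermediate_value h0mem hu2 hcont
    have hmem : r ∈ Icc ‖GG T v0 θ n 0‖ ‖GG T v0 θ n u2‖ := by
      refine ⟨?_, hru2.le⟩
      rw [hG0, norm_zero]
      exact hr0.le
    obtain ⟨u1, hu1, hu1r⟩ := hiv hmem
    have h1 := hr (GG T v0 θ n u1) hu1r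
    have h2 := hpert u1 hu1
    have h3 := hle' u1 hu1
    have h4 : ‖st T v0 n (GG T v0 θ n u1)‖ ≤ D' + L1 * ρ := by
      have h5 : st T v0 n (GG T v0 θ n u1) = GG T v0 θ (n + 1) u1 -
          (GG T v0 θ (n + 1) u1 - st T v0 n (GG T v0 θ n u1)) := by ring
      rw [h5]
      refine (norm_sub_le _ _).trans ?_
      linarith
    have h6 : (1 + L2 * m) * ‖st T v0 n (GG T v0 θ n u1)‖ ≤ (1 + L2 * m) * (D' + L1 * ρ) :=
      mul_le_mul_of_nonneg_left h4 (by positivity)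
    linarith
  have hfin : ‖GG T v0 θ (n + 1) u - GG T v0 θ (n + 1) u'‖ ≤
      Mx * ‖GG T v0 θ n u - GG T v0 θ n u'‖ + 2 * L1 * ρ := by
    have h1 := hpert u hu
    have h2 := hpert u' hu'
    have h3 := hmvt _ _ (hle u hu) (hle u' hu')
    have h5 : GG T v0 θ (n + 1) u - GG T v0 θ (n + 1) u' =
        (GG T v0 θ (n + 1) u - st T v0 n (GG T v0 θ n u)) +
        (st T v0 n (GG T v0 θ n u) - st T v0 n (GG T v0 θ n u')) -
        (GG T v0 θ (n + 1) u' - st T v0 n (GG T v0 θ n u')) := by ring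
    rw [h5]
    refine (norm_sub_le _ _).trans ?_
    refine (add_le_add_left (norm_add_le _ _) _).trans ?_
    linarith
  set A : ℝ := ‖GG T v0 θ n u - GG T v0 θ n u'‖ with hA
  have hA0 : 0 ≤ A := norm_nonneg _
  calc ‖GG T v0 θ (n + 1) u - GG T v0 θ (n + 1) u'‖ * D
      ≤ (Mx * A + 2 * L1 * ρ) * D := mul_le_mul_of_nonneg_right hfin hD.le
    _ = (Mx * D) * A + 2 * L1 * ρ * D := by ring
    _ ≤ ((1 + L2 * m) * (D' + L1 * ρ)) * A + 2 * L1 * ρ * D := by
        have := mul_le_mul_of_nonneg_right hMD hA0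
        linarith
    _ ≤ ((1 + (2 * L1 + L2) * m) * (D' + (2 * L1 + L2) * ρ)) * A + (2 * L1 + L2) * ρ * D := by
        have h1 : (1 + L2 * m) * (D' + L1 * ρ) ≤
            (1 + (2 * L1 + L2) * m) * (D' + (2 * L1 + L2) * ρ) := by
          apply mul_le_mul
          · have := mul_le_mul_of_nonneg_right (show L2 ≤ 2 * L1 + L2 by linarith) hm0
            linarith
          · have := mul_le_mul_of_nonneg_right (show L1 ≤ 2 * L1 + L2 by linarith) hρ.le
            linarith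
          · positivity
          · positivity
        have h2 := mul_le_mul_of_nonneg_right h1 hA0
        have h3 : 2 * L1 * ρ * D ≤ (2 * L1 + L2) * ρ * D := by
          have : 0 ≤ L2 * ρ * D := by positivity
          linarith
        linarith

end Pool.Agent.H91.CS
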