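import Pool.Agent.H91.CS.ASTEP

/-!
# Module ADER: first order expansion

PROOF. Induction on `n`. `gg_diff`: `GG (n + 1) u = st T (v0 + θ u.1) n (GG n u)`, `GG n 0 = 0`, `GG n` is continuous at `0`; `a_step` (differentiability of `(p, Z) ↦ st T (v0 + p) n Z` for small `(p, Z)`) and the chain rule. `gg_der`: one step: as `(p, Z) → 0`
`st T (v0 + p) n Z = en T v0 n * Z + xn T v0 p n + o(‖p‖ + ‖Z‖)` (quotient of `ev (T n v0).1 Z + ev (T n p).1 Z = dev (T n v0).1 0 * Z + ev (T n p).1 0 + o` by `ev (T n v0).2 0 + O(‖p‖ + ‖Z‖)`); put `Z = GG n u = O(‖u‖)`, `p = θ u.1`, and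
`EN (n + 1) = EN n * en n`, `xn T v0 (θ u.1) n = θ xn T v0 u.1 n`.
-/

set_option autoImplicit false

open Filter Topology Metric Set Asymptotics

namespace Pool.Agent.H91.CS

open Pool.Agent.H44.Fatou Pool.Agent.H79.Eul

private theorem ader_ev_add {d : ℕ} (p q : Fin (d + 1) → ℂ) (z : ℂ) :
    ev (p + q) z = ev p z + ev q z := by
  simp [ev, add_mul, Finset.sum_add_distrib]

private theorem ader_ev_smul {d : ℕ} (k : ℂ) (p : Fin (d + 1) → ℂ) (z : ℂ) :
    ev (k • p) z = k * ev p z := by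
  simp [ev, Finset.mul_sum, mul_assoc]

theorem nit_zero {d : ℕ} {T : ℕ → E d → E d} {v0 : E d} {R δ : ℝ} (h : AS T v0 R δ) (n : ℕ) :
    nit T v0 n 0 = 0 := by
  induction n with
  | zero => rfl
  | succ n ih => rw [nit, ih, st, h.zero n, zero_div]

private theorem ader_GG0 {d : ℕ} {T : ℕ → E d → E d} {v0 : E d} {R δ : ℝ} (h : AS T v0 R δ)
    (θ : ℝ) (n : ℕ) : GG T v0 θ n 0 = 0 := by
  unfold GG
  rw [Prod.fst_zero, Prod.snd_zero, smul_zero, add_zero, nit_zero h]

theorem gg_diff {d : ℕ} {T : ℕ → E d → E d} {v0 : E d} {R δ : ℝ} (h : AS T v0 R δ) (θ : ℝ)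
    (n : ℕ) : ∀ᶠ u in 𝓝 (0 : E d × ℂ), DifferentiableAt ℂ (GG T v0 θ n) u := by
  obtain ⟨r1, L, hr, -, hL, hs⟩ := a_step h
  induction n with
  | zero => exact Filter.Eventually.of_forall fun u => differentiableAt_snd
  | succ n ih =>
    have hc : ContinuousAt (GG T v0 θ n) 0 := ih.self_of_nhds.continuousAt
    have h1 : ∀ᶠ u in 𝓝 (0 : E d × ℂ), ‖GG T v0 θ n u‖ < 2 * r1 := by
      have h2 : Tendsto (fun u => ‖GG T v0 θ n u‖) (𝓝 0) (𝓝 ‖GG T v0 θ n 0‖) := hc.norm
      rw [ader_GG0 h, norm_zero] at h2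
      exact h2.eventually_lt_const (by positivity)
    have h2 : ∀ᶠ u in 𝓝 (0 : E d × ℂ), ‖(θ : ℂ) • u.1‖ < r1 := by
      have hcont : Continuous fun u : E d × ℂ => ‖(θ : ℂ) • u.1‖ := by fun_prop
      have h3 := hcont.tendsto 0
      rw [Prod.fst_zero, smul_zero, norm_zero] at h3
      exact h3.eventually_lt_const hr
    filter_upwards [ih, h1, h2] with u hu1 hu2 hu3
    have h3 := ((hs n).2 _ hu3.le _ hu2.le).2.2.1
    have h4 : DifferentiableAt ℂ (fun u : E d × ℂ => ((θ : ℂ) • u.1, GG T v0 θ n u)) u :=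
      (differentiableAt_fst.const_smul (θ : ℂ)).prodMk hu1
    exact DifferentiableAt.comp u h3 h4

/-- the derivative of one step -/
private theorem ader_step {d : ℕ} {T : ℕ → E d → E d} {v0 : E d} {R δ : ℝ} (h : AS T v0 R δ)
    (n : ℕ) : (fun x : E d × ℂ => st T (v0 + x.1) n x.2 - (en T v0 n * x.2 + xn T v0 x.1 n))
      =o[𝓝 0] fun x : E d × ℂ => x := by
  obtain ⟨r1, L, hr, -, hL, hs⟩ := a_step h
  have hB : ev (T n v0).2 0 ≠ 0 := by
    intro h0
    have := h.den n
    rw [h0, norm_zero] at this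
    exact absurd this (not_le.mpr h.hδ)
  have hd : DifferentiableAt ℂ (fun x : E d × ℂ => st T (v0 + x.1) n x.2) (0 : E d × ℂ) := by
    have := ((hs n).2 0 (by rw [norm_zero]; exact hr.le) 0
      (by rw [norm_zero]; positivity)).2.2.1
    exact this
  have hf := hd.hasFDerivAt
  set D := fderiv ℂ (fun x : E d × ℂ => st T (v0 + x.1) n x.2) (0 : E d × ℂ) with hD
  have hD1 : ∀ p : E d, D (p, 0) = xn T v0 p n := by
    intro p
    have hcurve : HasDerivAt (fun t : ℂ => ((t • p, (0 : ℂ)) : E d × ℂ)) (p, 0) 0 := by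
      have h1 : HasDerivAt (fun t : ℂ => t • p) p 0 := by
        simpa using (hasDerivAt_id (0 : ℂ)).smul_const p
      exact h1.prodMk (hasDerivAt_const 0 (0 : ℂ))
    have hf' : HasFDerivAt (fun x : E d × ℂ => st T (v0 + x.1) n x.2) D
        ((fun t : ℂ => ((t • p, (0 : ℂ)) : E d × ℂ)) 0) := by
      have e0 : (fun t : ℂ => ((t • p, (0 : ℂ)) : E d × ℂ)) 0 = 0 := by
        simp only [zero_smul]
        rfl
      rw [e0]
      exact hf
    have h1 := HasFDerivAt.comp_hasDerivAt (f := fun t : ℂ => ((t • p, (0 : ℂ)) : E d × ℂ))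
      (0 : ℂ) hf' hcurve
    have e : ((fun x : E d × ℂ => st T (v0 + x.1) n x.2) ∘
        fun t : ℂ => ((t • p, (0 : ℂ)) : E d × ℂ)) = fun t : ℂ =>
          (t * ev (T n p).1 0) / (ev (T n v0).2 0 + t * ev (T n p).2 0) := by
      funext t
      simp only [Function.comp_apply, st]
      rw [h.add, h.smul, Prod.fst_add, Prod.snd_add, Prod.smul_fst, Prod.smul_snd, ader_ev_add,
        ader_ev_add, ader_ev_smul, ader_ev_smul, h.zero n, zero_add]
    rw [e] at h1
    have h2 : HasDerivAt (fun t : ℂ => t * ev (T n p).1 0) (ev (T n p).1 0) 0 := by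
      simpa using (hasDerivAt_id (0 : ℂ)).mul_const (ev (T n p).1 0)
    have h3 : HasDerivAt (fun t : ℂ => ev (T n v0).2 0 + t * ev (T n p).2 0)
        (ev (T n p).2 0) 0 := by
      simpa using ((hasDerivAt_id (0 : ℂ)).mul_const (ev (T n p).2 0)).const_add
        (ev (T n v0).2 0)
    have h4 := h2.div h3 (by simpa using hB)
    have h5 := h1.unique h4
    rw [h5]
    simp only [zero_mul, add_zero, sub_zero, xn]
    field_simp
  have hD2 : D (0, 1) = en T v0 n := by
    have hcurve : HasDerivAt (fun t : ℂ => (((0 : E d), t) : E d × ℂ)) (0, 1) 0 :=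
      (hasDerivAt_const (0 : ℂ) (0 : E d)).prodMk (hasDerivAt_id (0 : ℂ))
    have hf' : HasFDerivAt (fun x : E d × ℂ => st T (v0 + x.1) n x.2) D
        ((fun t : ℂ => (((0 : E d), t) : E d × ℂ)) 0) := by
      have e0 : (fun t : ℂ => (((0 : E d), t) : E d × ℂ)) 0 = 0 := rfl
      rw [e0]
      exact hf
    have h1 := HasFDerivAt.comp_hasDerivAt (f := fun t : ℂ => (((0 : E d), t) : E d × ℂ))
      (0 : ℂ) hf' hcurve
    have e : ((fun x : E d × ℂ => st T (v0 + x.1) n x.2) ∘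
        fun t : ℂ => (((0 : E d), t) : E d × ℂ)) = st T v0 n := by
      funext t
      simp only [Function.comp_apply, add_zero]
    rw [e] at h1
    have h2 : HasDerivAt (st T v0 n) (en T v0 n) 0 := by
      rw [hasDerivAt_iff_isLittleO]
      have h0 : st T v0 n 0 = 0 := by rw [st, h.zero n, zero_div]
      simp only [h0, sub_zero, smul_eq_mul]
      have h3 : (fun Z : ℂ => st T v0 n Z - Z * en T v0 n) =O[𝓝 0] fun Z : ℂ => ‖Z‖ ^ 2 := by
        refine Asymptotics.IsBigO.of_bound L ?_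
        have hZ : ∀ᶠ Z in 𝓝 (0 : ℂ), ‖Z‖ < 2 * r1 := by
          have h4 := (continuous_norm (E := ℂ)).tendsto 0
          rw [norm_zero] at h4
          exact h4.eventually_lt_const (by positivity)
        filter_upwards [hZ] with Z hZ1
        have h5 := ((hs n).2 0 (by rw [norm_zero]; exact hr.le) Z hZ1.le).2.2.2.2.2.1
        rw [mul_comm Z, norm_pow, norm_norm]
        exact h5
      refine h3.trans_isLittleO ?_
      have h6 : (fun Z : ℂ => ‖Z‖ ^ 2) =o[𝓝 0] fun Z : ℂ => ‖Z‖ ^ 1 := by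
        exact (Asymptotics.isLittleO_pow_pow (m := 1) (n := 2) (by norm_num)).comp_tendsto
          tendsto_norm_zero
      simp only [pow_one] at h6
      exact h6.trans_isBigO (Asymptotics.isBigO_refl _ _).norm_left
    exact h1.unique h2
  have hDx : ∀ x : E d × ℂ, D x = en T v0 n * x.2 + xn T v0 x.1 n := by
    intro x
    have e : x = (x.1, 0) + x.2 • ((0 : E d), (1 : ℂ)) := by
      ext <;> simp
    conv_lhs => rw [e]
    rw [map_add, map_smul, hD1, hD2, smul_eq_mul]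
    ring
  have h7 := hf.isLittleO
  refine (Asymptotics.IsLittleO.congr' h7 ?_ ?_)
  · refine Filter.Eventually.of_forall fun x => ?_
    have h0 : st T (v0 + (0 : E d × ℂ).1) n (0 : E d × ℂ).2 = 0 := by
      rw [Prod.fst_zero, Prod.snd_zero, add_zero, st, h.zero n, zero_div]
    simp only [sub_zero]
    rw [h0, hDx x, sub_zero]
  · exact Filter.Eventually.of_forall fun x => by simp

private theorem ader_xn {d : ℕ} {T : ℕ → E d → E d} {v0 : E d} {R δ : ℝ} (h : AS T v0 R δ)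
    (k : ℂ) (v : E d) (n : ℕ) : xn T v0 (k • v) n = k * xn T v0 v n := by
  unfold xn
  rw [h.smul, Prod.smul_fst, ader_ev_smul]
  ring

theorem gg_der {d : ℕ} {T : ℕ → E d → E d} {v0 : E d} {R δ : ℝ} (h : AS T v0 R δ)
    (he : ∀ n, en T v0 n ≠ 0) (θ : ℝ) (n : ℕ) :
    (fun u : E d × ℂ => GG T v0 θ n u - EN T v0 n *
      (u.2 + θ * ∑ k ∈ Finset.range n, xn T v0 u.1 k / EN T v0 (k + 1))) =o[𝓝 0]
      fun u : E d × ℂ => u := by
  induction n with
  | zero =>
    have e : (fun u : E d × ℂ => GG T v0 θ 0 u - EN T v0 0 *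
        (u.2 + θ * ∑ k ∈ Finset.range 0, xn T v0 u.1 k / EN T v0 (k + 1))) = fun _ => 0 := by
      funext u
      simp [GG, nit, EN]
    rw [e]
    exact Asymptotics.isLittleO_zero _ _
  | succ n ih =>
    have hd := (gg_diff h θ n).self_of_nhds
    have hO : (fun u : E d × ℂ => GG T v0 θ n u) =O[𝓝 0] fun u : E d × ℂ => u := by
      have := hd.isBigO_sub
      simpa [ader_GG0 h] using this
    have hO1 : (fun u : E d × ℂ => (θ : ℂ) • u.1) =O[𝓝 0] fun u : E d × ℂ => u := by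
      refine Asymptotics.IsBigO.of_bound ‖(θ : ℂ)‖ (Filter.Eventually.of_forall fun u => ?_)
      rw [norm_smul]
      exact mul_le_mul_of_nonneg_left (norm_fst_le u) (norm_nonneg _)
    have hO2 : (fun u : E d × ℂ => ((θ : ℂ) • u.1, GG T v0 θ n u)) =O[𝓝 0]
        fun u : E d × ℂ => u := hO1.prod_left hO
    have ht : Tendsto (fun u : E d × ℂ => ((θ : ℂ) • u.1, GG T v0 θ n u)) (𝓝 0)
        (𝓝 (0 : E d × ℂ)) := hO2.trans_tendsto tendsto_id
    have h1 := ((ader_step h n).comp_tendsto ht).trans_isBigO hO2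
    have h2 := h1.add (ih.const_mul_left (en T v0 n))
    refine h2.congr_left fun u => ?_
    have hE : EN T v0 (n + 1) = EN T v0 n * en T v0 n := Finset.prod_range_succ _ _
    have hE0 : EN T v0 (n + 1) ≠ 0 := Finset.prod_ne_zero_iff.mpr fun k _ => he k
    have hG : GG T v0 θ (n + 1) u = st T (v0 + (θ : ℂ) • u.1) n (GG T v0 θ n u) := rfl
    simp only [Function.comp_apply]
    rw [hG, ader_xn h, Finset.sum_range_succ]
    have h3 : EN T v0 (n + 1) * (xn T v0 u.1 n / EN T v0 (n + 1)) = xn T v0 u.1 n :=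
      mul_div_cancel₀ _ hE0
    have h4 : EN T v0 (n + 1) * (u.2 + θ * (∑ k ∈ Finset.range n, xn T v0 u.1 k /
        EN T v0 (k + 1) + xn T v0 u.1 n / EN T v0 (n + 1))) =
        EN T v0 (n + 1) * (u.2 + θ * ∑ k ∈ Finset.range n, xn T v0 u.1 k / EN T v0 (k + 1)) +
          θ * xn T v0 u.1 n := by
      have h5 : ∀ S X : ℂ, EN T v0 (n + 1) * (u.2 + θ * (S + X)) =
          EN T v0 (n + 1) * (u.2 + θ * S) + θ * (EN T v0 (n + 1) * X) := fun S X => by ring
      rw [h5, h3]
    rw [h4, hE]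
    ring

end Pool.Agent.H91.CS
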