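import Mathlib

/-!
# Collet-Eckmann maps without hypothesis on the basins: scales (definitions)

`G n : W → ℂ` are holomorphic functions near `0` of a complex normed space `W` (parameters and starting points), `G n 0 = 0`; `Dn G n ρ` is the supremum of `‖G n‖` on `ball 0 ρ`; `ex G r1 ρ` the first time at which it is
larger than `r1`. `e n > 0` is the size of the derivative of the `n`-th step at `0`. `rel` relates points of `W` which are not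
distinguished by the linear parts of the `G n` (in the limit).
-/

set_option autoImplicit false

open Filter Topology Metric Set

namespace Pool.Agent.H91.CS

structure SR {W : Type} [NormedAddCommGroup W] [NormedSpace ℂ W] (G : ℕ → W → ℂ)
    (ok : ℕ → W → Prop) (e : ℕ → ℝ) (rel : W → W → Prop) (ρ0 r1 L c q : ℝ) : Prop where
  hρ0 : 0 < ρ0
  hρ1 : ρ0 ≤ 1
  hr1 : 0 < r1
  hr2 : r1 ≤ 1
  hL : 1 ≤ L
  hc : 0 < c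
  hq : 1 < q
  zero : ∀ n, G n 0 = 0
  start : DifferentiableOn ℂ (G 0) (ball 0 ρ0)
  start' : ∀ u ∈ ball (0 : W) ρ0, ‖G 0 u‖ ≤ L * ‖u‖
  step : ∀ (n : ℕ) (ρ D : ℝ), 0 < ρ → ρ ≤ ρ0 → 0 ≤ D → D ≤ r1 →
    DifferentiableOn ℂ (G n) (ball 0 ρ) → (∀ u ∈ ball (0 : W) ρ, ‖G n u‖ ≤ D) →
      DifferentiableOn ℂ (G (n + 1)) (ball 0 ρ) ∧ (∀ u ∈ ball (0 : W) ρ, ok n u) ∧
        ∀ u ∈ ball (0 : W) ρ, ‖G (n + 1) u‖ ≤ L * (D + ρ)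
  low : ∀ (n : ℕ) (ρ D : ℝ), 0 < ρ → ρ ≤ ρ0 → DifferentiableOn ℂ (G n) (ball 0 ρ) →
    (∀ u ∈ ball (0 : W) ρ, ‖G n u‖ ≤ D) → c * q ^ n * ρ ≤ D
  epos : ∀ n, 0 < e n
  esum : ∀ n : ℕ, ∑ i ∈ Finset.range n, max 0 (-Real.log (e i)) ≤ L * (n + 1)
  cmp : ∀ (n : ℕ) (ρ D D' : ℝ), 0 < ρ → ρ ≤ ρ0 → 0 < D → D ≤ r1 →
    DifferentiableOn ℂ (G n) (ball 0 ρ) → (∀ u ∈ ball (0 : W) ρ, ‖G n u‖ ≤ D) →
    (∀ D1 < D, ∃ u ∈ ball (0 : W) ρ, D1 < ‖G n u‖) →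
    (∀ u ∈ ball (0 : W) ρ, ‖G (n + 1) u‖ ≤ D') →
      ∀ u ∈ ball (0 : W) ρ, ∀ u' ∈ ball (0 : W) ρ, ‖G (n + 1) u - G (n + 1) u'‖ * D ≤
        (1 + L * min 1 (D / e n)) * (D' + L * ρ) * ‖G n u - G n u'‖ + L * ρ * D
  init : ∀ η : ℝ, 0 < η → ∃ N : ℕ, ∀ n ≥ N, ∃ ρ1 : ℝ, 0 < ρ1 ∧ ∀ ρ : ℝ, 0 < ρ → ρ ≤ ρ1 →
    ∀ D : ℝ, DifferentiableOn ℂ (G n) (ball 0 ρ) → (∀ u ∈ ball (0 : W) ρ, ‖G n u‖ ≤ D) →
      ∀ u ∈ ball (0 : W) ρ, ∀ u' ∈ ball (0 : W) ρ, rel u u' → ‖G n u - G n u'‖ ≤ η * D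

/-- the supremum on a ball -/
noncomputable def Dn {W : Type} [NormedAddCommGroup W] (G : ℕ → W → ℂ) (n : ℕ) (ρ : ℝ) : ℝ :=
  sSup ((fun u : W => ‖G n u‖) '' ball 0 ρ)

/-- the exit time -/
noncomputable def ex {W : Type} [NormedAddCommGroup W] (G : ℕ → W → ℂ) (r1 ρ : ℝ) : ℕ :=
  sInf {n : ℕ | ¬ ∀ u ∈ ball (0 : W) ρ, ‖G n u‖ ≤ r1}

/-- the scales -/
noncomputable def sc (ρ0 r1 L : ℝ) (j : ℕ) : ℝ := min ρ0 (r1 / L) / 2 ^ j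

end Pool.Agent.H91.CS
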