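import Pool.Agent.H91.CE.CDefs
import Pool.Agent.H91.CS.SDefs

/-!
# Collet-Eckmann maps without hypothesis on the basins: a sequence of rational maps (definitions)

`T n v : E d` is, for every `n`, a coefficient vector depending linearly on the coefficient vector `v`; `st T v n` is the rational map of the plane with coefficients `T n v`, `nit T v n` the composition of the first `n` of
them. For `v = v0` all of them fix `0`; their derivatives at `0` are the `en T v0 n`, their products the `EN T v0 n`; `xn T v0 v n` is the derivative of `st T · n 0` in the direction `v`. (Application: the map in local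
coordinates along an orbit on the sphere.)
-/

set_option autoImplicit false

open Filter Topology Metric Set

namespace Pool.Agent.H91.CS

open Pool.Agent.H44.Fatou Pool.Agent.H79.Eul

structure AS {d : ℕ} (T : ℕ → E d → E d) (v0 : E d) (R δ : ℝ) : Prop where
  hR : 1 ≤ R
  hδ : 0 < δ
  add : ∀ n v w, T n (v + w) = T n v + T n w
  smul : ∀ n (k : ℂ) v, T n (k • v) = k • T n v
  bdd : ∀ n v, ‖T n v‖ ≤ R * ‖v‖
  zero : ∀ n, ev (T n v0).1 0 = 0
  den : ∀ n, δ ≤ ‖ev (T n v0).2 0‖

noncomputable def st {d : ℕ} (T : ℕ → E d → E d) (v : E d) (n : ℕ) (Z : ℂ) : ℂ :=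
  ev (T n v).1 Z / ev (T n v).2 Z

noncomputable def nit {d : ℕ} (T : ℕ → E d → E d) (v : E d) : ℕ → ℂ → ℂ
  | 0, Z => Z
  | n + 1, Z => st T v n (nit T v n Z)

noncomputable def en {d : ℕ} (T : ℕ → E d → E d) (v0 : E d) (n : ℕ) : ℂ :=
  dev (T n v0).1 0 / ev (T n v0).2 0

noncomputable def EN {d : ℕ} (T : ℕ → E d → E d) (v0 : E d) (n : ℕ) : ℂ :=
  ∏ k ∈ Finset.range n, en T v0 k

noncomputable def xn {d : ℕ} (T : ℕ → E d → E d) (v0 v : E d) (n : ℕ) : ℂ :=
  ev (T n v).1 0 / ev (T n v0).2 0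

noncomputable def kp {d : ℕ} (T : ℕ → E d → E d) (v0 v : E d) : ℂ :=
  ∑' k : ℕ, xn T v0 v k / EN T v0 (k + 1)

/-- the functions of the parameter `u.1` and the starting point `u.2` -/
noncomputable def GG {d : ℕ} (T : ℕ → E d → E d) (v0 : E d) (θ : ℝ) (n : ℕ) (u : E d × ℂ) : ℂ :=
  nit T (v0 + (θ : ℂ) • u.1) n u.2

/-- exponential growth -/
def AG {d : ℕ} (T : ℕ → E d → E d) (v0 : E d) (c q : ℝ) : Prop :=
  0 < c ∧ 1 < q ∧ ∀ n, c * q ^ n ≤ ‖EN T v0 n‖

end Pool.Agent.H91.CS
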