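import Pool.Agent.H91.CS.ASTEP

/-!
# Module AKP: the functional and the sum of logarithms

PROOF. `‖xn T v0 p k‖ ≤ R ‖p‖ / δ` (`ev (T n p).1 0` is the coefficient `0`), `‖EN (k + 1)‖ ≥ c q ^ (k + 1)`: the series converges absolutely and is linear in `p`, with `‖kp‖ ≤ C ‖p‖`; `LinearMap.mkContinuous`. The tail is at most
`(R / δ) ‖p‖ ∑_(k ≥ n) 1 / (c q ^ (k + 1)) = C ‖p‖ q ^ (- n)`. `e_sum`: `∏_(i < n) ‖en i‖ = ‖EN n‖ ≥ c q ^ n ≥ c`, `‖en i‖ ≤ L`, so with `log = max 0 log - max 0 (- log)`: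
`∑ max 0 (- log ‖en i‖) = - log ‖EN n‖ + ∑ max 0 (log ‖en i‖) ≤ - log c + n log L ≤ C (n + 1)`.
-/

set_option autoImplicit false

open Filter Topology Metric Set

namespace Pool.Agent.H91.CS

open Pool.Agent.H44.Fatou Pool.Agent.H79.Eul

private theorem akp_ev {d : ℕ} (p : Fin (d + 1) → ℂ) : ev p 0 = p 0 := by
  unfold ev
  rw [Finset.sum_eq_single (0 : Fin (d + 1))]
  · simp
  · intro i _ hi
    have : (i : ℕ) ≠ 0 := fun h => hi (Fin.ext h)
    rw [zero_pow this, mul_zero]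
  · intro h
    exact absurd (Finset.mem_univ _) h

private theorem akp_xn {d : ℕ} {T : ℕ → E d → E d} {v0 : E d} {R δ : ℝ} (h : AS T v0 R δ)
    (p : E d) (n : ℕ) : ‖xn T v0 p n‖ ≤ R * ‖p‖ / δ := by
  unfold xn
  rw [norm_div, akp_ev (T n p).1]
  have h1 : ‖(T n p).1 0‖ ≤ R * ‖p‖ :=
    ((norm_le_pi_norm (T n p).1 0).trans (norm_fst_le (T n p))).trans (h.bdd n p)
  have h2 := h.den n
  have h3 := h.hδ
  exact div_le_div₀ ((norm_nonneg _).trans h1) h1 h3 h2

private theorem akp_term {d : ℕ} {T : ℕ → E d → E d} {v0 : E d} {R δ c q : ℝ} (h : AS T v0 R δ)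
    (hg : AG T v0 c q) (p : E d) (k : ℕ) :
    ‖xn T v0 p k / EN T v0 (k + 1)‖ ≤ R / (δ * c) * ‖p‖ * (1 / q) ^ (k + 1) := by
  obtain ⟨hc, hq, hE⟩ := hg
  have hq0 : 0 < q := by linarith
  have h1 := akp_xn h p k
  have h2 := hE (k + 1)
  have h3 := h.hδ
  rw [norm_div]
  calc ‖xn T v0 p k‖ / ‖EN T v0 (k + 1)‖ ≤ (R * ‖p‖ / δ) / (c * q ^ (k + 1)) :=
        div_le_div₀ ((norm_nonneg _).trans h1) h1 (by positivity) h2
    _ = R / (δ * c) * ‖p‖ * (1 / q) ^ (k + 1) := by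
        rw [div_pow, one_pow]
        field_simp

private theorem akp_sum {d : ℕ} {T : ℕ → E d → E d} {v0 : E d} {R δ c q : ℝ} (h : AS T v0 R δ)
    (hg : AG T v0 c q) (p : E d) : Summable fun k => xn T v0 p k / EN T v0 (k + 1) := by
  obtain ⟨hc, hq, hE⟩ := hg
  have hq0 : 0 < q := by linarith
  have h1 : 0 ≤ 1 / q := by positivity
  have h2 : 1 / q < 1 := by
    rw [div_lt_one hq0]
    exact hq
  have h3 : Summable fun k : ℕ => R / (δ * c) * ‖p‖ * (1 / q) ^ (k + 1) :=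
    ((summable_nat_add_iff 1).2 (summable_geometric_of_lt_one h1 h2)).mul_left _
  exact Summable.of_norm_bounded h3 (akp_term h ⟨hc, hq, hE⟩ p)

theorem ag_ne {d : ℕ} {T : ℕ → E d → E d} {v0 : E d} {c q : ℝ} (hg : AG T v0 c q) (n : ℕ) :
    en T v0 n ≠ 0 ∧ EN T v0 n ≠ 0 := by
  obtain ⟨hc, hq, h⟩ := hg
  have h1 : ∀ n, EN T v0 n ≠ 0 := by
    intro n h0
    have h2 := h n
    rw [h0, norm_zero] at h2
    have h3 : 0 < c * q ^ n := by positivity
    linarith
  refine ⟨fun h0 => h1 (n + 1) ?_, h1 n⟩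
  unfold EN
  rw [Finset.prod_range_succ, h0, mul_zero]

theorem kp_lin {d : ℕ} {T : ℕ → E d → E d} {v0 : E d} {R δ c q : ℝ} (h : AS T v0 R δ)
    (hg : AG T v0 c q) : ∃ κ : E d →L[ℂ] ℂ, ∀ p, κ p = kp T v0 p := by
  let f : E d →ₗ[ℂ] ℂ :=
    { toFun := fun p => kp T v0 p
      map_add' := fun p p' => by
        unfold kp
        rw [← (akp_sum h hg p).tsum_add (akp_sum h hg p')]
        refine tsum_congr fun k => ?_
        have h1 : xn T v0 (p + p') k = xn T v0 p k + xn T v0 p' k := by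
          unfold xn
          rw [akp_ev (T k (p + p')).1, akp_ev (T k p).1, akp_ev (T k p').1, h.add]
          exact add_div _ _ _
        rw [h1, add_div]
      map_smul' := fun a p => by
        unfold kp
        rw [RingHom.id_apply, smul_eq_mul, ← tsum_mul_left]
        refine tsum_congr fun k => ?_
        have h1 : xn T v0 (a • p) k = a * xn T v0 p k := by
          unfold xn
          rw [akp_ev (T k (a • p)).1, akp_ev (T k p).1, h.smul]
          exact mul_div_assoc _ _ _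
        rw [h1, mul_div_assoc] }
  exact ⟨LinearMap.toContinuousLinearMap f, fun p => rfl⟩

theorem kp_tail {d : ℕ} {T : ℕ → E d → E d} {v0 : E d} {R δ c q : ℝ} (h : AS T v0 R δ)
    (hg : AG T v0 c q) : ∃ C : ℝ, 0 < C ∧ ∀ (n : ℕ) (p : E d),
      ‖kp T v0 p - ∑ k ∈ Finset.range n, xn T v0 p k / EN T v0 (k + 1)‖ ≤
        C * (1 / q) ^ n * ‖p‖ := by
  obtain ⟨hc, hq, hE⟩ := hg
  have hg : AG T v0 c q := ⟨hc, hq, hE⟩
  have hq0 : 0 < q := by linarith
  have hq1 : 0 < q - 1 := by linarith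
  have hR : 0 < R := by linarith [h.hR]
  have hδ := h.hδ
  refine ⟨R / (δ * c) / (q - 1), by positivity, fun n p => ?_⟩
  have h1 : 0 ≤ 1 / q := by positivity
  have h2 : 1 / q < 1 := by
    rw [div_lt_one hq0]
    exact hq
  have h3 := (akp_sum h hg p).sum_add_tsum_nat_add n
  have h4 : kp T v0 p - ∑ k ∈ Finset.range n, xn T v0 p k / EN T v0 (k + 1) =
      ∑' k : ℕ, xn T v0 p (k + n) / EN T v0 (k + n + 1) := by
    unfold kp
    rw [← h3]
    ring
  rw [h4]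
  have h5 : HasSum (fun k : ℕ => R / (δ * c) * ‖p‖ * (1 / q) ^ (n + 1) * (1 / q) ^ k)
      (R / (δ * c) * ‖p‖ * (1 / q) ^ (n + 1) * (1 - 1 / q)⁻¹) :=
    (hasSum_geometric_of_lt_one h1 h2).mul_left _
  refine (tsum_of_norm_bounded h5 fun k => ?_).trans (le_of_eq ?_)
  · refine (akp_term h hg p (k + n)).trans (le_of_eq ?_)
    rw [mul_assoc (R / (δ * c) * ‖p‖), ← pow_add]
    congr 2
    omega
  · have h6 : (1 - 1 / q)⁻¹ = q / (q - 1) := by
      rw [show 1 - 1 / q = (q - 1) / q by field_simp, inv_div]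
    rw [h6, pow_succ]
    field_simp

theorem e_sum {d : ℕ} {T : ℕ → E d → E d} {v0 : E d} {R δ c q : ℝ} (h : AS T v0 R δ)
    (hg : AG T v0 c q) : ∃ C : ℝ, ∀ n : ℕ,
      ∑ i ∈ Finset.range n, max 0 (-Real.log ‖en T v0 i‖) ≤ C * (n + 1) := by
  obtain ⟨hc, hq, hE⟩ := hg
  have hg : AG T v0 c q := ⟨hc, hq, hE⟩
  obtain ⟨r1, L, -, -, hL, hstep⟩ := a_step h
  have hlogL : 0 ≤ Real.log L := Real.log_nonneg hL
  refine ⟨Real.log L + |Real.log c|, fun n => ?_⟩
  have hen : ∀ i, 0 < ‖en T v0 i‖ := fun i => norm_pos_iff.2 (ag_ne hg i).1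
  have h1 : ∀ i, max 0 (-Real.log ‖en T v0 i‖) ≤ Real.log L - Real.log ‖en T v0 i‖ := by
    intro i
    have h2 : Real.log ‖en T v0 i‖ ≤ Real.log L := Real.log_le_log (hen i) (hstep i).1
    exact max_le (by linarith) (by linarith)
  have h3 : ∑ i ∈ Finset.range n, Real.log ‖en T v0 i‖ = Real.log ‖EN T v0 n‖ := by
    unfold EN
    rw [norm_prod, Real.log_prod fun i _ => (hen i).ne']
  have h4 : Real.log c ≤ Real.log ‖EN T v0 n‖ := by
    refine Real.log_le_log hc ((?_ : c ≤ c * q ^ n).trans (hE n))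
    exact le_mul_of_one_le_right hc.le (one_le_pow₀ hq.le)
  have h5 : ∑ i ∈ Finset.range n, max 0 (-Real.log ‖en T v0 i‖) ≤
      n * Real.log L - Real.log ‖EN T v0 n‖ := by
    refine (Finset.sum_le_sum fun i _ => h1 i).trans (le_of_eq ?_)
    rw [Finset.sum_sub_distrib, h3, Finset.sum_const, nsmul_eq_mul, Finset.card_range]
  have h6 := neg_abs_le (Real.log c)
  have h7 := abs_nonneg (Real.log c)
  have h8 : (0 : ℝ) ≤ n := Nat.cast_nonneg n
  have h9 : 0 ≤ |Real.log c| * n := by positivity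
  calc _ ≤ n * Real.log L - Real.log ‖EN T v0 n‖ := h5
    _ ≤ (Real.log L + |Real.log c|) * (n + 1) := by
      have e1 : (Real.log L + |Real.log c|) * (n + 1) =
          n * Real.log L + |Real.log c| * n + Real.log L + |Real.log c| := by ring
      rw [e1]
      linarith

end Pool.Agent.H91.CS
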