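import Mathlib

/-!
# Module APOL: a circle on which a polynomial is large

PROOF. `N = a ∏ (X - z_i)` with at most `d` roots (`IsAlgClosed.splits`, multiset of roots); nothing to show if `N = 0`. The intervals `(‖z_i‖ - D / (4 (d + 1)), ‖z_i‖ + D / (4 (d + 1)))` have total length at most
`d D / (2 (d + 1)) < D / 2`, so there is `r ∈ [D / 2, D)` with `|r - ‖z_i‖| ≥ D / (4 (d + 1))` for all `i` (or: pigeonhole, one of the `d + 1` radii `D / 2 + (2 k + 1) D / (4 (d + 1))`, `k = 0..d`, has this property, since two of them have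
distance at least `D / (2 (d + 1))`: each root excludes at most one of them, if the inequality is strict). For `‖z‖ = r`, `‖w‖ ≤ 2 D`: if `‖z_i‖ ≤ 2 D` then
`‖w - z_i‖ ≤ 4 D ≤ 16 (d + 1) ‖z - z_i‖`; if `‖z_i‖ > 2 D` then `‖w - z_i‖ ≤ 2 ‖z_i‖ ≤ 4 (‖z_i‖ - D) ≤ 4 ‖z - z_i‖`. So `κ = (16 (d + 1)) ^ (- d)`.
-/

set_option autoImplicit false

open Filter Topology Metric Set Polynomial

namespace Pool.Agent.H91.CS

theorem pol_circle (d : ℕ) : ∃ κ : ℝ, 0 < κ ∧ ∀ N : Polynomial ℂ, N.natDegree ≤ d →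
    ∀ D : ℝ, 0 < D → ∃ r : ℝ, D / 2 ≤ r ∧ r < D ∧ ∀ z : ℂ, ‖z‖ = r → ∀ w : ℂ, ‖w‖ ≤ 2 * D →
      κ * ‖N.eval w‖ ≤ ‖N.eval z‖ := by
  refine ⟨((16 * ((d : ℝ) + 1)) ^ d)⁻¹, by positivity, ?_⟩
  intro N hN D hD
  have hd0 : (0 : ℝ) < (d : ℝ) + 1 := by positivity
  set w0 : ℝ := D / (4 * ((d : ℝ) + 1)) with hw0
  have hw0p : 0 < w0 := by positivity
  have hw0d : w0 * (4 * ((d : ℝ) + 1)) = D := div_mul_cancel₀ _ (by positivity)
  set ρ : Fin (d + 1) → ℝ := fun k => D / 2 + (2 * (k : ℕ) + 1) * w0 with hρ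
  -- the choice of the radius
  obtain ⟨k, hk⟩ : ∃ k : Fin (d + 1), ∀ z ∈ N.roots, w0 ≤ |ρ k - ‖z‖| := by
    by_contra hcon
    push Not at hcon
    choose f hf1 hf2 using hcon
    have hinj : Function.Injective f := by
      intro k k' hkk
      have h1 := hf2 k
      have h2 := hf2 k'
      rw [hkk] at h1
      by_contra hne
      have h3 : |ρ k - ρ k'| < 2 * w0 := by
        have e1 : |ρ k - ρ k'| ≤ |ρ k - ‖f k'‖| + |ρ k' - ‖f k'‖| := by
          have := abs_sub (ρ k - ‖f k'‖) (ρ k' - ‖f k'‖)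
          rwa [sub_sub_sub_cancel_right] at this
        linarith
      have h4 : ρ k - ρ k' = 2 * w0 * (((k : ℕ) : ℝ) - ((k' : ℕ) : ℝ)) := by
        rw [hρ]
        ring
      rw [h4, abs_mul, abs_of_pos (by positivity)] at h3
      have h5 : (1 : ℝ) ≤ |((k : ℕ) : ℝ) - ((k' : ℕ) : ℝ)| := by
        have h6 : ((k : ℕ) : ℤ) - ((k' : ℕ) : ℤ) ≠ 0 := by
          intro h
          apply hne
          apply Fin.ext
          omega
        have h7 : (1 : ℤ) ≤ |((k : ℕ) : ℤ) - ((k' : ℕ) : ℤ)| := Int.one_le_abs h6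
        exact_mod_cast h7
      nlinarith
    have hcard : Fintype.card (Fin (d + 1)) ≤ N.roots.toFinset.card := by
      rw [← Finset.card_univ]
      refine Finset.card_le_card_of_injOn f (fun k _ => ?_) (fun k _ k' _ h => hinj h)
      rw [Finset.mem_coe, Multiset.mem_toFinset]
      exact hf1 k
    rw [Fintype.card_fin] at hcard
    have h1 := Multiset.toFinset_card_le N.roots
    have h2 := N.card_roots'
    omega
  have hk1 : ((k : ℕ) : ℝ) ≤ d := by
    have := k.2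
    exact_mod_cast Nat.lt_succ_iff.1 this
  have hk0 : (0 : ℝ) ≤ ((k : ℕ) : ℝ) := Nat.cast_nonneg _
  have hr1 : D / 2 ≤ ρ k := by
    rw [hρ]
    dsimp only
    have : 0 ≤ (2 * ((k : ℕ) : ℝ) + 1) * w0 := by positivity
    linarith
  have hr2 : ρ k < D := by
    rw [hρ]
    dsimp only
    nlinarith
  refine ⟨ρ k, hr1, hr2, ?_⟩
  intro z hz w hw
  have hsp : N.Splits := IsAlgClosed.splits N
  have hroot : ∀ a ∈ N.roots, ‖w - a‖ ≤ 16 * ((d : ℝ) + 1) * ‖z - a‖ := by
    intro a ha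
    have h1 := hk a ha
    have h2 : |ρ k - ‖a‖| ≤ ‖z - a‖ := by
      rw [← hz]
      exact abs_norm_sub_norm_le z a
    rcases le_or_gt ‖a‖ (2 * D) with h3 | h3
    · have h4 : ‖w - a‖ ≤ 4 * D := (norm_sub_le _ _).trans (by linarith)
      have h5 : 16 * ((d : ℝ) + 1) * w0 = 4 * D := by
        rw [← hw0d]
        ring
      have h6 : 16 * ((d : ℝ) + 1) * w0 ≤ 16 * ((d : ℝ) + 1) * ‖z - a‖ :=
        mul_le_mul_of_nonneg_left (h1.trans h2) (by positivity)
      linarith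
    · have h4 : ‖w - a‖ ≤ 2 * ‖a‖ := (norm_sub_le _ _).trans (by linarith)
      have h5 : ‖a‖ - ρ k ≤ ‖z - a‖ := by
        have := neg_le_abs (ρ k - ‖a‖)
        linarith
      have h6 : ‖a‖ / 2 ≤ ‖z - a‖ := by linarith
      have h7 : 4 * ‖z - a‖ ≤ 16 * ((d : ℝ) + 1) * ‖z - a‖ := by
        have e1 : (0 : ℝ) ≤ d := Nat.cast_nonneg d
        refine mul_le_mul_of_nonneg_right ?_ (norm_nonneg _)
        linarith
      linarith
  have hev : ∀ x : ℂ, ‖N.eval x‖ = ‖N.leadingCoeff‖ * (N.roots.map fun a => ‖x - a‖).prod := by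
    intro x
    rw [hsp.eval_eq_prod_roots x, norm_mul]
    congr 1
    have h1 : ∀ s : Multiset ℂ, ‖(s.map fun a => x - a).prod‖ = (s.map fun a => ‖x - a‖).prod := by
      intro s
      induction s using Multiset.induction_on with
      | empty => simp
      | cons a s ih => rw [Multiset.map_cons, Multiset.prod_cons, norm_mul, ih, Multiset.map_cons,
          Multiset.prod_cons]
    exact h1 N.roots
  rw [hev w, hev z, inv_mul_le_iff₀ (by positivity)]
  have h8 : (N.roots.map fun a => ‖w - a‖).prod ≤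
      (N.roots.map fun a => 16 * ((d : ℝ) + 1) * ‖z - a‖).prod :=
    Multiset.prod_map_le_prod_map₀ _ _ (fun a _ => norm_nonneg _) hroot
  rw [Multiset.prod_map_mul, Multiset.map_const', Multiset.prod_replicate] at h8
  have h9 : (16 * ((d : ℝ) + 1)) ^ N.roots.card ≤ (16 * ((d : ℝ) + 1)) ^ d := by
    refine pow_le_pow_right₀ ?_ ((N.card_roots').trans hN)
    have e1 : (0 : ℝ) ≤ d := Nat.cast_nonneg d
    linarith
  have h10 : 0 ≤ (N.roots.map fun a => ‖z - a‖).prod :=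
    Multiset.prod_nonneg fun x hx => by
      obtain ⟨a, _, rfl⟩ := Multiset.mem_map.1 hx
      exact norm_nonneg _
  calc ‖N.leadingCoeff‖ * (N.roots.map fun a => ‖w - a‖).prod
      ≤ ‖N.leadingCoeff‖ * ((16 * ((d : ℝ) + 1)) ^ N.roots.card *
          (N.roots.map fun a => ‖z - a‖).prod) := mul_le_mul_of_nonneg_left h8 (norm_nonneg _)
    _ ≤ ‖N.leadingCoeff‖ * ((16 * ((d : ℝ) + 1)) ^ d *
          (N.roots.map fun a => ‖z - a‖).prod) := by gcongr
    _ = _ := by ring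

end Pool.Agent.H91.CS
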