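import Pool.Agent.H91.CS.ASTEP
import Pool.Agent.H91.CS.APOL

/-!
# Module ALOW: the size of a step is controlled from below by its derivative

PROOF. `r1, L0` from `a_step`, `κ` from `pol_circle d`; `e = ‖en T v0 n‖ > 0`, `g = st T v0 n`. Case `D ≤ e / (2 L0)`, `x = L0 D / e ≤ 1 / 2`: `‖deriv g z0‖ ≤ e (1 + x)`, `‖g z‖ ≥ e r - L0 r ^ 2 ≥ e r - L0 D ^ 2` for `‖z‖ = r`. As `r → D` the right side
`(1 + L D / e) (e r - L0 D ^ 2) → e D (1 + (L / L0) x) (1 - x) ≥ e D (1 + x) ≥ ‖deriv g z0‖ D` if `L ≥ 4 L0`; so for `r` close to `D` the inequality with `ε` holds. Case `D > e / (2 L0)`: `min 1 (D / e) ≥ 1 / (2 L0)`.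
Cauchy's estimate on the circle of radius `D` around `z0` (contained in `closedBall 0 (2 D)`, `2 D ≤ 2 r1`): `‖deriv g z0‖ D ≤ sup_(‖w‖ ≤ 2 D) ‖g w‖ ≤ (2 / δ) sup ‖ev (T n v0).1 w‖`, which by `pol_circle` (for the polynomial
`pol (T n v0).1` of degree at most `d`, `pol_eval` in H79/Eul) is at most `(2 / δ) κ⁻¹ ‖ev (T n v0).1 z‖ ≤ (2 / δ) κ⁻¹ L0 ‖g z‖` for `‖z‖ = r`, some `r ∈ [D / 2, D)`. Take `L ≥ 2 L0 * (2 / δ) κ⁻¹ L0`.
-/

set_option autoImplicit false

open Filter Topology Metric Set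

namespace Pool.Agent.H91.CS

open Pool.Agent.H44.Fatou Pool.Agent.H79.Eul

private theorem alow_facts {d : ℕ} {T : ℕ → E d → E d} {v0 : E d} {R δ : ℝ} (h : AS T v0 R δ) :
    ∃ r1 L : ℝ, 0 < r1 ∧ r1 ≤ 1 ∧ 1 ≤ L ∧ ∀ n, ∀ Z : ℂ, ‖Z‖ ≤ 2 * r1 →
      δ / 2 ≤ ‖ev (T n v0).2 Z‖ ∧ ‖ev (T n v0).2 Z‖ ≤ L ∧ DifferentiableAt ℂ (st T v0 n) Z ∧
      ‖deriv (st T v0 n) Z - en T v0 n‖ ≤ L * ‖Z‖ ∧
      ‖st T v0 n Z - en T v0 n * Z‖ ≤ L * ‖Z‖ ^ 2 := by
  obtain ⟨r1, L, h1, h2, h3, H⟩ := a_step h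
  refine ⟨r1, L, h1, h2, h3, ?_⟩
  intro n Z hZ
  obtain ⟨a1, a2, a3, a4, -, a6, -⟩ := (H n).2 0 (by simpa using h1.le) Z hZ
  rw [add_zero] at a1 a2
  refine ⟨a1, a2, ?_, a4, a6⟩
  have e : st T v0 n = (fun x : E d × ℂ => st T (v0 + x.1) n x.2) ∘ (fun z : ℂ => ((0 : E d), z)) := by
    funext z
    simp
  rw [e]
  exact DifferentiableAt.comp Z a3 ((differentiableAt_const _).prodMk differentiableAt_id)

private theorem alow_small {e L0 D c x : ℝ} (he : 0 < e) (hL0 : 1 ≤ L0) (hD : 0 < D)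
    (hDe : D ≤ e / (2 * L0)) (hc : c ≤ e + L0 * D) {L : ℝ} (hL : 4 * L0 ≤ L) (hx : 0 < x) :
    ∃ r : ℝ, 0 < r ∧ r < D ∧ c * D ≤ (1 + L * (D / e)) * (e * r - L0 * r ^ 2) + x := by
  have hL0' : 0 < L0 := by linarith
  have h1 : c * D < (1 + L * (D / e)) * (e * D - L0 * D ^ 2) + x := by
    have h2 : c * D ≤ (e + L0 * D) * D := mul_le_mul_of_nonneg_right hc hD.le
    have h3 : (e + L0 * D) * D ≤ (1 + L * (D / e)) * (e * D - L0 * D ^ 2) := by
      have h4 : (1 + L * (D / e)) * (e * D - L0 * D ^ 2) - (e + L0 * D) * D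
          = D ^ 2 * (L - 2 * L0 - L * (L0 * D / e)) := by
        field_simp
        ring
      have h5 : L0 * D / e ≤ 1 / 2 := by
        rw [div_le_div_iff₀ he two_pos]
        rw [le_div_iff₀ (by positivity)] at hDe
        linarith
      have h6 : 0 ≤ L - 2 * L0 - L * (L0 * D / e) := by
        have : L * (L0 * D / e) ≤ L * (1 / 2) :=
          mul_le_mul_of_nonneg_left h5 (by linarith)
        linarith
      have h7 : 0 ≤ D ^ 2 * (L - 2 * L0 - L * (L0 * D / e)) := by positivity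
      linarith
    linarith
  have hcont : Continuous (fun r : ℝ => (1 + L * (D / e)) * (e * r - L0 * r ^ 2) + x) := by
    fun_prop
  have hev : ∀ᶠ r in 𝓝[<] D, c * D < (1 + L * (D / e)) * (e * r - L0 * r ^ 2) + x :=
    (hcont.continuousAt.tendsto.mono_left nhdsWithin_le_nhds).eventually (lt_mem_nhds h1)
  have hev2 : ∀ᶠ r in 𝓝[<] D, r ∈ Ioo 0 D := Ioo_mem_nhdsLT hD
  obtain ⟨r, hr1, hr2⟩ := (hev.and hev2).exists
  exact ⟨r, hr2.1, hr2.2, hr1.le⟩

theorem a_low {d : ℕ} {T : ℕ → E d → E d} {v0 : E d} {R δ : ℝ} (h : AS T v0 R δ)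
    (he : ∀ n, en T v0 n ≠ 0) : ∃ r1 L : ℝ, 0 < r1 ∧ r1 ≤ 1 ∧ 1 ≤ L ∧
      ∀ (n : ℕ) (D : ℝ), 0 < D → D ≤ r1 → ∀ z0 : ℂ, ‖z0‖ ≤ D → ∀ ε : ℝ, 0 < ε →
        ∃ r : ℝ, 0 < r ∧ r < D ∧ ∀ z : ℂ, ‖z‖ = r → ‖deriv (st T v0 n) z0‖ * D ≤
          (1 + L * min 1 (D / ‖en T v0 n‖)) * ‖st T v0 n z‖ + ε := by
  obtain ⟨r1, L0, hr1, hr1', hL0, H⟩ := alow_facts h
  obtain ⟨κ, hκ, hpol⟩ := pol_circle d
  have hδ := h.hδ
  have hL0' : 0 < L0 := by linarith
  refine ⟨r1, max (4 * L0) (2 * L0 * (2 / δ * κ⁻¹ * L0)), hr1, hr1',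
    le_trans (by linarith) (le_max_left _ _), ?_⟩
  intro n D hD hDr z0 hz0 ε hε
  have hen : 0 < ‖en T v0 n‖ := norm_pos_iff.2 (he n)
  set e := ‖en T v0 n‖ with he_def
  set L := max (4 * L0) (2 * L0 * (2 / δ * κ⁻¹ * L0)) with hL_def
  have hL1 : 4 * L0 ≤ L := le_max_left _ _
  have hL2 : 2 * L0 * (2 / δ * κ⁻¹ * L0) ≤ L := le_max_right _ _
  have hLpos : 0 < L := by linarith
  by_cases hcase : D ≤ e / (2 * L0)
  · -- small steps
    have hder : ‖deriv (st T v0 n) z0‖ ≤ e + L0 * D := by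
      have h1 := (H n z0 (by linarith)).2.2.2.1
      have h2 : ‖deriv (st T v0 n) z0‖ ≤ ‖deriv (st T v0 n) z0 - en T v0 n‖ + ‖en T v0 n‖ := by
        have := norm_add_le (deriv (st T v0 n) z0 - en T v0 n) (en T v0 n)
        rwa [sub_add_cancel] at this
      have h3 : L0 * ‖z0‖ ≤ L0 * D := mul_le_mul_of_nonneg_left hz0 hL0'.le
      linarith
    obtain ⟨r, hr0, hrD, hr⟩ := alow_small hen hL0 hD hcase hder hL1 hε
    refine ⟨r, hr0, hrD, ?_⟩
    intro z hz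
    have h1 : D / e ≤ 1 := by
      rw [div_le_one hen]
      refine hcase.trans ?_
      rw [div_le_iff₀ (by positivity)]
      nlinarith
    rw [min_eq_right h1]
    have h2 := (H n z (by rw [hz]; linarith)).2.2.2.2
    have h3 : e * r - L0 * r ^ 2 ≤ ‖st T v0 n z‖ := by
      have h4 : ‖en T v0 n * z‖ ≤ ‖st T v0 n z‖ + ‖st T v0 n z - en T v0 n * z‖ := by
        have := norm_sub_le (st T v0 n z) (st T v0 n z - en T v0 n * z)
        rwa [sub_sub_cancel] at this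
      rw [norm_mul, hz] at h4
      rw [hz] at h2
      linarith
    have h5 : 0 ≤ 1 + L * (D / e) := by positivity
    have h6 := mul_le_mul_of_nonneg_left h3 h5
    linarith
  · -- large steps
    push Not at hcase
    obtain ⟨r, hr1, hr2, hr3⟩ := hpol (pol (T n v0).1) (pol_deg _) D hD
    refine ⟨r, by linarith, hr2, ?_⟩
    intro z hz
    have hzr : ‖z‖ ≤ 2 * r1 := by rw [hz]; linarith
    have hCau : ‖deriv (st T v0 n) z0‖ ≤ (2 / δ * κ⁻¹ * L0 * ‖st T v0 n z‖) / D := by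
      apply Complex.norm_deriv_le_of_forall_mem_sphere_norm_le hD
      · apply DifferentiableOn.diffContOnCl_ball (U := closedBall z0 D)
        · intro w hw
          have hw' : ‖w‖ ≤ 2 * r1 := by
            rw [mem_closedBall_iff_norm] at hw
            have := norm_add_le (w - z0) z0
            rw [sub_add_cancel] at this
            linarith
          exact (H n w hw').2.2.1.differentiableWithinAt
        · exact subset_rfl
      · intro w hw
        rw [mem_sphere_iff_norm] at hw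
        have hw1 : ‖w‖ ≤ 2 * D := by
          have := norm_add_le (w - z0) z0
          rw [sub_add_cancel] at this
          linarith
        have hw' : ‖w‖ ≤ 2 * r1 := by linarith
        have h1 := (H n w hw').1
        have h2 := (H n z hzr).2.1
        have h3 := hr3 z hz w hw1
        rw [pol_eval, pol_eval] at h3
        have h4 : 0 < ‖ev (T n v0).2 z‖ := lt_of_lt_of_le (by positivity) (H n z hzr).1
        have h5 : ‖st T v0 n w‖ ≤ 2 / δ * ‖ev (T n v0).1 w‖ := by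
          unfold st
          rw [norm_div, div_le_iff₀ (lt_of_lt_of_le (by positivity) h1)]
          have h51 : 2 / δ * ‖ev (T n v0).1 w‖ * (δ / 2) = ‖ev (T n v0).1 w‖ := by
            field_simp
          have h52 : 2 / δ * ‖ev (T n v0).1 w‖ * (δ / 2) ≤
              2 / δ * ‖ev (T n v0).1 w‖ * ‖ev (T n v0).2 w‖ :=
            mul_le_mul_of_nonneg_left h1 (by positivity)
          rw [h51] at h52
          exact h52
        have h6 : ‖ev (T n v0).1 w‖ ≤ κ⁻¹ * ‖ev (T n v0).1 z‖ := by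
          rw [inv_mul_eq_div, le_div_iff₀ hκ, mul_comm]
          exact h3
        have h7 : ‖ev (T n v0).1 z‖ ≤ L0 * ‖st T v0 n z‖ := by
          unfold st
          rw [norm_div, mul_div_assoc', le_div_iff₀ h4, mul_comm]
          exact mul_le_mul_of_nonneg_right h2 (norm_nonneg _)
        calc ‖st T v0 n w‖ ≤ 2 / δ * ‖ev (T n v0).1 w‖ := h5
          _ ≤ 2 / δ * (κ⁻¹ * (L0 * ‖st T v0 n z‖)) := by
              apply mul_le_mul_of_nonneg_left _ (by positivity)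
              exact h6.trans (mul_le_mul_of_nonneg_left h7 (by positivity))
          _ = 2 / δ * κ⁻¹ * L0 * ‖st T v0 n z‖ := by ring
    rw [le_div_iff₀ hD] at hCau
    have hm : 1 / (2 * L0) ≤ min 1 (D / e) := by
      apply le_min
      · rw [div_le_one (by positivity)]
        linarith
      · rw [div_le_div_iff₀ (by positivity) hen, one_mul]
        rw [div_lt_iff₀ (by positivity)] at hcase
        exact hcase.le
    have h8 : 2 / δ * κ⁻¹ * L0 ≤ L * min 1 (D / e) := by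
      calc 2 / δ * κ⁻¹ * L0 = 2 * L0 * (2 / δ * κ⁻¹ * L0) * (1 / (2 * L0)) := by
            field_simp
        _ ≤ L * min 1 (D / e) := mul_le_mul hL2 hm (by positivity) hLpos.le
    have h9 : 2 / δ * κ⁻¹ * L0 * ‖st T v0 n z‖ ≤
        (1 + L * min 1 (D / e)) * ‖st T v0 n z‖ :=
      mul_le_mul_of_nonneg_right (by linarith) (norm_nonneg _)
    linarith

end Pool.Agent.H91.CS
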