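import Pool.Agent.H91.CS.ACMP
import Pool.Agent.H91.CS.ADER
import Pool.Agent.H91.CS.AKP
import Pool.Agent.H91.CE.CAU

/-!
# Module ASR: the sequence of maps satisfies the axioms `SR`

PROOF. Constants: `r1, L` from `a_step`, `a_cmp`, `L` also at least the constant of `e_sum`; `ρ0 = r1`. `zero`: `nit_zero`. `start`: `GG 0 u = u.2`. `step`: `a_step`: `‖st T (v0 + p) n Z‖ ≤ ‖st T (v0 + p) n Z - st T (v0 + p) n 0‖ + ‖st T (v0 + p) n 0 - st T v0 n 0‖
≤ L (‖Z‖ + ‖p‖)` (`st T v0 n 0 = 0`), differentiability of the composition. `low`: `y ↦ GG n (0, y)` is holomorphic on `ball 0 ρ`, bounded by `D`, with derivative `EN n` at `0` (`gg_der`): `‖EN n‖ ρ ≤ D` (`cau` of H91/CE with `M = 1`). `epos`: `ag_ne`.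
`esum`: `e_sum`. `cmp`: `a_cmp`. `init`: let `u, u'` be related, in `ball 0 ρ`. By `gg_der` `GG n u - GG n u' = EN n (a - a') + o(ρ)`, `a = u.2 + θ ∑_(k < n) ..`, and `a - a' = - θ (tail u.1) + θ (tail u'.1)` as
`u.2 + θ kp u.1 = u'.2 + θ kp u'.1`; by `kp_tail` `‖a - a'‖ ≤ 2 C q ^ (- n) ρ`. Choose `N` with `2 C q ^ (- n) ≤ η / 2` for `n ≥ N`, then `ρ1` (depending on `n`) with `o(ρ) ≤ (η / 2) ‖EN n‖ ρ`; `‖EN n‖ ρ ≤ D` as in `low`.
-/

set_option autoImplicit false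

open Filter Topology Metric Set

namespace Pool.Agent.H91.CS

open Pool.Agent.H44.Fatou Pool.Agent.H79.Eul

private theorem aSR_T0 {d : ℕ} {T : ℕ → E d → E d} {v0 : E d} {R δ : ℝ} (h : AS T v0 R δ)
    (n : ℕ) : T n 0 = 0 := by
  have h1 := h.smul n 0 0
  rwa [zero_smul, zero_smul] at h1

private theorem aSR_xn0 {d : ℕ} {T : ℕ → E d → E d} {v0 : E d} {R δ : ℝ} (h : AS T v0 R δ)
    (n : ℕ) : xn T v0 0 n = 0 := by
  unfold xn
  rw [aSR_T0 h]
  simp [ev]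

private theorem aSR_low {d : ℕ} {T : ℕ → E d → E d} {v0 : E d} {R δ : ℝ} (h : AS T v0 R δ)
    (he : ∀ n, en T v0 n ≠ 0) (θ : ℝ) (n : ℕ) {ρ D : ℝ} (hρ : 0 < ρ)
    (hd : DifferentiableOn ℂ (GG T v0 θ n) (ball 0 ρ))
    (hb : ∀ u ∈ ball (0 : E d × ℂ) ρ, ‖GG T v0 θ n u‖ ≤ D) : ‖EN T v0 n‖ * ρ ≤ D := by
  have hmem : ∀ y ∈ ball (0 : ℂ) ρ, ((0 : E d), y) ∈ ball (0 : E d × ℂ) ρ := by
    intro y hy
    rw [mem_ball_zero_iff] at hy ⊢
    rw [Prod.norm_mk, norm_zero]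
    exact max_lt hρ hy
  have h1 : DifferentiableOn ℂ (fun y : ℂ => GG T v0 θ n ((0 : E d), y)) (ball 0 ρ) := by
    refine hd.comp (t := ball 0 ρ) ?_ hmem
    exact ((differentiable_const (0 : E d)).prodMk differentiable_id).differentiableOn
  have htend : Tendsto (fun y : ℂ => ((0 : E d), y)) (𝓝 0) (𝓝 0) := by
    have : Continuous fun y : ℂ => ((0 : E d), y) := by fun_prop
    exact this.tendsto 0
  have h2 := (gg_der h he θ n).comp_tendsto htend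
  have h3 : (fun t : ℂ => GG T v0 θ n ((0 : E d), t) - EN T v0 n * t ^ 1) =o[𝓝 0]
      fun t : ℂ => t ^ 1 := by
    have e1 : ((fun u : E d × ℂ => GG T v0 θ n u - EN T v0 n *
        (u.2 + θ * ∑ k ∈ Finset.range n, xn T v0 u.1 k / EN T v0 (k + 1))) ∘
        fun y : ℂ => ((0 : E d), y)) =
        fun t : ℂ => GG T v0 θ n ((0 : E d), t) - EN T v0 n * t ^ 1 := by
      funext t
      simp only [Function.comp_apply, aSR_xn0 h, zero_div, Finset.sum_const_zero, mul_zero,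
        add_zero, pow_one]
    rw [e1] at h2
    refine h2.trans_isBigO ?_
    apply Asymptotics.IsBigO.of_bound 1
    refine Filter.Eventually.of_forall fun t => ?_
    simp only [Function.comp_apply, id, Prod.norm_mk, norm_zero, pow_one, one_mul]
    exact max_le (norm_nonneg _) le_rfl
  have h4 := Pool.Agent.H91.CE.cau hρ h1 (fun t ht => hb _ (hmem t ht)) h3
  rwa [pow_one] at h4

private theorem aSR_init {d : ℕ} {T : ℕ → E d → E d} {v0 : E d} {R δ c q : ℝ}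
    (h : AS T v0 R δ) (hg : AG T v0 c q) {θ : ℝ} (hθ : 0 < θ) (hθ1 : θ ≤ 1) (η : ℝ)
    (hη : 0 < η) : ∃ N : ℕ, ∀ n ≥ N, ∃ ρ1 : ℝ, 0 < ρ1 ∧ ∀ ρ : ℝ, 0 < ρ → ρ ≤ ρ1 →
    ∀ D : ℝ, DifferentiableOn ℂ (GG T v0 θ n) (ball 0 ρ) →
      (∀ u ∈ ball (0 : E d × ℂ) ρ, ‖GG T v0 θ n u‖ ≤ D) →
      ∀ u ∈ ball (0 : E d × ℂ) ρ, ∀ u' ∈ ball (0 : E d × ℂ) ρ,
        u.2 + θ * kp T v0 u.1 = u'.2 + θ * kp T v0 u'.1 →
        ‖GG T v0 θ n u - GG T v0 θ n u'‖ ≤ η * D := by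
  obtain ⟨hc, hq, _⟩ := hg
  have he : ∀ n, en T v0 n ≠ 0 := fun n => (ag_ne ⟨hc, hq, by assumption⟩ n).1
  have hE : ∀ n, EN T v0 n ≠ 0 := fun n => (ag_ne ⟨hc, hq, by assumption⟩ n).2
  obtain ⟨C, hC, hkp⟩ := kp_tail h ⟨hc, hq, by assumption⟩
  have hq1 : 1 / q < 1 := by
    rw [div_lt_one (by linarith)]
    exact hq
  have hq0 : 0 ≤ 1 / q := by positivity
  have ht : Tendsto (fun n : ℕ => 2 * C * (1 / q) ^ n) atTop (𝓝 0) := by
    have := (tendsto_pow_atTop_nhds_zero_of_lt_one hq0 hq1).const_mul (2 * C)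
    rwa [mul_zero] at this
  obtain ⟨N, hN⟩ := eventually_atTop.1 (ht.eventually_lt_const (show (0 : ℝ) < η / 2 by positivity))
  refine ⟨N, fun n hn => ?_⟩
  have hEpos : 0 < ‖EN T v0 n‖ := norm_pos_iff.2 (hE n)
  have hder := (gg_der h he θ n).def (show 0 < η / 4 * ‖EN T v0 n‖ by positivity)
  obtain ⟨ρ1, hρ1, hball⟩ := Metric.eventually_nhds_iff_ball.1 hder
  refine ⟨ρ1, hρ1, ?_⟩
  intro ρ hρ hρle D hd hb u hu u' hu' hrel
  have hlow := aSR_low h he θ n hρ hd hb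
  have hun : ‖u‖ < ρ := mem_ball_zero_iff.1 hu
  have hun' : ‖u'‖ < ρ := mem_ball_zero_iff.1 hu'
  have b1 := hball u (ball_subset_ball hρle hu)
  have b2 := hball u' (ball_subset_ball hρle hu')
  set a1 : ℂ := u.2 + θ * ∑ k ∈ Finset.range n, xn T v0 u.1 k / EN T v0 (k + 1) with ha1
  set a2 : ℂ := u'.2 + θ * ∑ k ∈ Finset.range n, xn T v0 u'.1 k / EN T v0 (k + 1) with ha2
  have k1 := hkp n u.1
  have k2 := hkp n u'.1
  set s1 : ℂ := ∑ k ∈ Finset.range n, xn T v0 u.1 k / EN T v0 (k + 1) with hs1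
  set s2 : ℂ := ∑ k ∈ Finset.range n, xn T v0 u'.1 k / EN T v0 (k + 1) with hs2
  have hf1 : ‖u.1‖ ≤ ρ := (norm_fst_le u).trans hun.le
  have hf2 : ‖u'.1‖ ≤ ρ := (norm_fst_le u').trans hun'.le
  have hCq : 0 ≤ C * (1 / q) ^ n := by positivity
  have hdiff : a1 - a2 = (θ : ℂ) * ((kp T v0 u'.1 - s2) - (kp T v0 u.1 - s1)) := by
    rw [ha1, ha2]
    linear_combination hrel
  have hθn : ‖(θ : ℂ)‖ ≤ 1 := by
    rw [Complex.norm_real, Real.norm_of_nonneg hθ.le]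
    exact hθ1
  have hdn : ‖a1 - a2‖ ≤ η / 2 * ρ := by
    have h1 : ‖(kp T v0 u'.1 - s2) - (kp T v0 u.1 - s1)‖ ≤ 2 * C * (1 / q) ^ n * ρ := by
      refine (norm_sub_le _ _).trans ?_
      have c1 := k1.trans (mul_le_mul_of_nonneg_left hf1 hCq)
      have c2 := k2.trans (mul_le_mul_of_nonneg_left hf2 hCq)
      linarith
    rw [hdiff, norm_mul]
    calc ‖(θ : ℂ)‖ * ‖(kp T v0 u'.1 - s2) - (kp T v0 u.1 - s1)‖
        ≤ 1 * (2 * C * (1 / q) ^ n * ρ) := mul_le_mul hθn h1 (norm_nonneg _) (by norm_num)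
      _ ≤ η / 2 * ρ := by
          rw [one_mul]
          exact mul_le_mul_of_nonneg_right (hN n hn).le hρ.le
  have htri : ‖GG T v0 θ n u - GG T v0 θ n u'‖ ≤
      ‖GG T v0 θ n u - EN T v0 n * a1‖ + ‖EN T v0 n‖ * ‖a1 - a2‖ +
        ‖GG T v0 θ n u' - EN T v0 n * a2‖ := by
    have e1 : GG T v0 θ n u - GG T v0 θ n u' = (GG T v0 θ n u - EN T v0 n * a1) +
        EN T v0 n * (a1 - a2) - (GG T v0 θ n u' - EN T v0 n * a2) := by ring
    rw [e1]
    refine (norm_sub_le _ _).trans ?_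
    refine add_le_add ((norm_add_le _ _).trans ?_) le_rfl
    rw [norm_mul]
  have b1' : ‖GG T v0 θ n u - EN T v0 n * a1‖ ≤ η / 4 * ‖EN T v0 n‖ * ρ :=
    b1.trans (mul_le_mul_of_nonneg_left hun.le (by positivity))
  have b2' : ‖GG T v0 θ n u' - EN T v0 n * a2‖ ≤ η / 4 * ‖EN T v0 n‖ * ρ :=
    b2.trans (mul_le_mul_of_nonneg_left hun'.le (by positivity))
  have b3 : ‖EN T v0 n‖ * ‖a1 - a2‖ ≤ ‖EN T v0 n‖ * (η / 2 * ρ) :=
    mul_le_mul_of_nonneg_left hdn (norm_nonneg _)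
  calc ‖GG T v0 θ n u - GG T v0 θ n u'‖ ≤ η * (‖EN T v0 n‖ * ρ) := by linarith
    _ ≤ η * D := mul_le_mul_of_nonneg_left hlow hη.le

theorem a_sr {d : ℕ} {T : ℕ → E d → E d} {v0 : E d} {R δ c q : ℝ} (h : AS T v0 R δ)
    (hg : AG T v0 c q) {θ : ℝ} (hθ : 0 < θ) (hθ1 : θ ≤ 1) :
    ∃ ρ0 r1 L c' q' : ℝ, SR (GG T v0 θ)
      (fun n u => ev (T n (v0 + (θ : ℂ) • u.1)).2 (GG T v0 θ n u) ≠ 0) (fun n => ‖en T v0 n‖)
      (fun u u' => u.2 + θ * kp T v0 u.1 = u'.2 + θ * kp T v0 u'.1) ρ0 r1 L c' q' := by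
  have he : ∀ n, en T v0 n ≠ 0 := fun n => (ag_ne hg n).1
  obtain ⟨ra, La, hra, hra1, hLa, hstep⟩ := a_step h
  obtain ⟨rb, Lb, hrb, hrb1, hLb, hcmp⟩ := a_cmp h he hθ hθ1
  obtain ⟨C, hC⟩ := e_sum h hg
  set r1 : ℝ := min ra rb with hr1
  set L : ℝ := max La (max Lb C) with hL
  have hLaL : La ≤ L := le_max_left _ _
  have hLbL : Lb ≤ L := (le_max_left _ _).trans (le_max_right _ _)
  have hCL : C ≤ L := (le_max_right _ _).trans (le_max_right _ _)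
  have hL1 : 1 ≤ L := hLa.trans hLaL
  have hr10 : 0 < r1 := lt_min hra hrb
  have hr1a : r1 ≤ ra := min_le_left _ _
  have hr1b : r1 ≤ rb := min_le_right _ _
  have hθn : ‖(θ : ℂ)‖ ≤ 1 := by
    rw [Complex.norm_real, Real.norm_of_nonneg hθ.le]
    exact hθ1
  have hst0 : ∀ n, st T v0 n 0 = 0 := by
    intro n
    unfold st
    rw [h.zero n, zero_div]
  refine ⟨r1, r1, L, c, q, ?_⟩
  refine
    { hρ0 := hr10
      hρ1 := hr1a.trans hra1
      hr1 := hr10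
      hr2 := hr1a.trans hra1
      hL := hL1
      hc := hg.1
      hq := hg.2.1
      zero := ?_
      start := ?_
      start' := ?_
      step := ?_
      low := ?_
      epos := fun n => norm_pos_iff.2 (he n)
      esum := ?_
      cmp := ?_
      init := fun η hη => aSR_init h hg hθ hθ1 η hη }
  · intro n
    unfold GG
    rw [Prod.fst_zero, Prod.snd_zero, smul_zero, add_zero]
    exact nit_zero h n
  · exact differentiable_snd.differentiableOn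
  · intro u _
    calc ‖u.2‖ ≤ ‖u‖ := norm_snd_le u
      _ = 1 * ‖u‖ := (one_mul _).symm
      _ ≤ L * ‖u‖ := mul_le_mul_of_nonneg_right hL1 (norm_nonneg _)
  · intro n ρ D hρ hρ0 hD hDr hd hb
    have hp : ∀ u ∈ ball (0 : E d × ℂ) ρ, ‖(θ : ℂ) • u.1‖ ≤ ρ := by
      intro u hu
      rw [norm_smul]
      calc ‖(θ : ℂ)‖ * ‖u.1‖ ≤ 1 * ‖u‖ :=
            mul_le_mul hθn (norm_fst_le u) (norm_nonneg _) (by norm_num)
        _ ≤ ρ := by
            rw [one_mul]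
            exact (mem_ball_zero_iff.1 hu).le
    have hp' : ∀ u ∈ ball (0 : E d × ℂ) ρ, ‖(θ : ℂ) • u.1‖ ≤ ra := fun u hu =>
      (hp u hu).trans (hρ0.trans hr1a)
    have hZ : ∀ u ∈ ball (0 : E d × ℂ) ρ, ‖GG T v0 θ n u‖ ≤ 2 * ra := by
      intro u hu
      have h1 := hb u hu
      linarith
    refine ⟨?_, ?_, ?_⟩
    · intro u hu
      obtain ⟨_, _, h3, _⟩ := (hstep n).2 _ (hp' u hu) _ (hZ u hu)
      have h4 : DifferentiableAt ℂ (fun u : E d × ℂ => ((θ : ℂ) • u.1, GG T v0 θ n u)) u := by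
        refine DifferentiableAt.prodMk ?_ ?_
        · exact (differentiable_fst.const_smul (θ : ℂ)) u
        · exact (hd u hu).differentiableAt (isOpen_ball.mem_nhds hu)
      have h5 := DifferentiableAt.comp u (f := fun u : E d × ℂ => ((θ : ℂ) • u.1, GG T v0 θ n u))
        (g := fun x : E d × ℂ => st T (v0 + x.1) n x.2) h3 h4
      exact h5.differentiableWithinAt
    · intro u hu
      obtain ⟨h1, _⟩ := (hstep n).2 _ (hp' u hu) _ (hZ u hu)
      intro h0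
      rw [h0, norm_zero] at h1
      have := h.hδ
      linarith
    · intro u hu
      obtain ⟨_, _, _, _, _, _, h7⟩ := (hstep n).2 _ (hp' u hu) _ (hZ u hu)
      have h8 := h7 0 (by rw [norm_zero]; positivity)
      obtain ⟨_, _, _, _, h9, _⟩ := (hstep n).2 _ (hp' u hu) 0 (by rw [norm_zero]; positivity)
      rw [hst0, sub_zero] at h9
      rw [sub_zero] at h8
      have h10 : GG T v0 θ (n + 1) u = st T (v0 + (θ : ℂ) • u.1) n (GG T v0 θ n u) := rfl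
      rw [h10]
      have h11 : ‖st T (v0 + (θ : ℂ) • u.1) n (GG T v0 θ n u)‖ ≤
          ‖st T (v0 + (θ : ℂ) • u.1) n (GG T v0 θ n u) - st T (v0 + (θ : ℂ) • u.1) n 0‖ +
            ‖st T (v0 + (θ : ℂ) • u.1) n 0‖ := by
        have := norm_add_le (st T (v0 + (θ : ℂ) • u.1) n (GG T v0 θ n u) -
          st T (v0 + (θ : ℂ) • u.1) n 0) (st T (v0 + (θ : ℂ) • u.1) n 0)
        rwa [sub_add_cancel] at this
      have h12 : La * ‖GG T v0 θ n u‖ ≤ La * D :=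
        mul_le_mul_of_nonneg_left (hb u hu) (by linarith)
      have h13 : La * ‖(θ : ℂ) • u.1‖ ≤ La * ρ :=
        mul_le_mul_of_nonneg_left (hp u hu) (by linarith)
      have h14 : La * (D + ρ) ≤ L * (D + ρ) :=
        mul_le_mul_of_nonneg_right hLaL (by linarith)
      linarith
  · intro n ρ D hρ _ hd hb
    have h1 := aSR_low h he θ n hρ hd hb
    have h2 := mul_le_mul_of_nonneg_right (hg.2.2 n) hρ.le
    exact h2.trans h1
  · intro n
    refine (hC n).trans ?_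
    exact mul_le_mul_of_nonneg_right hCL (by positivity)
  · intro n ρ D D' hρ hρ0 hD hDr hd hb hsup hb' u hu u' hu'
    refine (hcmp n ρ D D' hρ (hρ0.trans hr1b) hD (hDr.trans hr1b) hd hb hsup hb' u hu u' hu').trans
      ?_
    have hD'0 : 0 ≤ D' := (norm_nonneg _).trans (hb' u hu)
    have hm : 0 ≤ min 1 (D / ‖en T v0 n‖) := le_min (by norm_num) (by positivity)
    have e1 : 1 + Lb * min 1 (D / ‖en T v0 n‖) ≤ 1 + L * min 1 (D / ‖en T v0 n‖) := by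
      have := mul_le_mul_of_nonneg_right hLbL hm
      linarith
    have e2 : D' + Lb * ρ ≤ D' + L * ρ := by
      have := mul_le_mul_of_nonneg_right hLbL hρ.le
      linarith
    have hLb0 : 0 ≤ Lb := by linarith
    have hL0 : 0 ≤ L := by linarith
    have e3 : (1 + Lb * min 1 (D / ‖en T v0 n‖)) * (D' + Lb * ρ) ≤
        (1 + L * min 1 (D / ‖en T v0 n‖)) * (D' + L * ρ) :=
      mul_le_mul e1 e2 (by positivity) (by positivity)
    have e4 := mul_le_mul_of_nonneg_right e3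
      (norm_nonneg (GG T v0 θ n u - GG T v0 θ n u'))
    have e5 : Lb * ρ * D ≤ L * ρ * D :=
      mul_le_mul_of_nonneg_right (mul_le_mul_of_nonneg_right hLbL hρ.le) hD.le
    linarith

end Pool.Agent.H91.CS
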