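import Pool.Agent.H91.CS.ADefs

/-!
# Module ASTEP: bounds for one step

PROOF. `ev p Z` is Lipschitz in `(p, Z)` for `‖Z‖ ≤ 2` with a constant depending on `d` and a bound of `‖p‖` (it is linear in `p`, `‖ev p Z‖ ≤ (d + 1) 2 ^ d ‖p‖`, `‖dev p Z‖ ≤ (d + 1) d 2 ^ d ‖p‖`), and `‖T n (v0 + p) - T n v0‖ ≤ R ‖p‖`.
So for small `r1 ≤ 1` (depending on `d, R, δ, ‖v0‖` only) `‖ev (T n (v0 + p)).2 Z‖ ≥ δ / 2` for `‖p‖ ≤ r1`, `‖Z‖ ≤ 2 r1`, and the quotient `st` and its derivative `wv / ev ^ 2` (`tr_hasDerivAt_ev`, H32/BT/Trap) satisfy the Lipschitz bounds.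
`deriv (st T v0 n) 0 = en T v0 n` since `ev (T n v0).1 0 = 0`.
-/

set_option autoImplicit false

open Filter Topology Metric Set

namespace Pool.Agent.H91.CS

open Pool.Agent.H44.Fatou Pool.Agent.H79.Eul

private theorem as_pow {Z Z' : ℂ} (hZ : ‖Z‖ ≤ 2) (hZ' : ‖Z'‖ ≤ 2) (i : ℕ) :
    ‖Z ^ i - Z' ^ i‖ ≤ i * 2 ^ i * ‖Z - Z'‖ := by
  induction i with
  | zero => simp
  | succ i ih =>
    have e : Z ^ (i + 1) - Z' ^ (i + 1) = Z * (Z ^ i - Z' ^ i) + (Z - Z') * Z' ^ i := by ring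
    rw [e]
    have h1 : ‖Z * (Z ^ i - Z' ^ i)‖ ≤ 2 * (i * 2 ^ i * ‖Z - Z'‖) := by
      rw [norm_mul]
      exact mul_le_mul hZ ih (norm_nonneg _) (by norm_num)
    have h2 : ‖(Z - Z') * Z' ^ i‖ ≤ ‖Z - Z'‖ * 2 ^ i := by
      rw [norm_mul, norm_pow]
      exact mul_le_mul_of_nonneg_left (pow_le_pow_left₀ (norm_nonneg _) hZ' i) (norm_nonneg _)
    refine (norm_add_le _ _).trans ((add_le_add h1 h2).trans ?_)
    push_cast
    rw [pow_succ]
    have h3 : 0 ≤ (2 : ℝ) ^ i * ‖Z - Z'‖ := by positivity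
    nlinarith

private theorem as_sum {d : ℕ} (p c : Fin (d + 1) → ℂ) {B : ℝ} (hc : ∀ i, ‖c i‖ ≤ B) :
    ‖∑ i, p i * c i‖ ≤ ((d : ℝ) + 1) * (‖p‖ * B) := by
  refine (norm_sum_le _ _).trans ?_
  have h1 : ∀ i ∈ (Finset.univ : Finset (Fin (d + 1))), ‖p i * c i‖ ≤ ‖p‖ * B := by
    intro i _
    rw [norm_mul]
    exact mul_le_mul (norm_le_pi_norm p i) (hc i) (norm_nonneg _) (norm_nonneg _)
  refine (Finset.sum_le_card_nsmul _ _ _ h1).trans ?_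
  rw [Finset.card_univ, Fintype.card_fin, nsmul_eq_mul]
  push_cast
  exact le_rfl

private noncomputable def KK (d : ℕ) : ℝ := ((d : ℝ) + 1) * (((d : ℝ) + 1) ^ 2 * 2 ^ d)

private theorem as_KK (d : ℕ) : 0 < KK d := by
  unfold KK
  positivity

private theorem as_i {d : ℕ} (i : Fin (d + 1)) : ((i : ℕ) : ℝ) ≤ d ∧ (2 : ℝ) ^ (i : ℕ) ≤ 2 ^ d ∧
    (2 : ℝ) ^ ((i : ℕ) - 1) ≤ 2 ^ d := by
  have h := i.is_le
  refine ⟨by exact_mod_cast h, pow_le_pow_right₀ (by norm_num) h,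
    pow_le_pow_right₀ (by norm_num) (by omega)⟩

private theorem as_ev {d : ℕ} (p : Fin (d + 1) → ℂ) {Z Z' : ℂ} (hZ : ‖Z‖ ≤ 2) (hZ' : ‖Z'‖ ≤ 2) :
    ‖ev p Z‖ ≤ KK d * ‖p‖ ∧ ‖ev p Z - ev p Z'‖ ≤ KK d * ‖p‖ * ‖Z - Z'‖ ∧
      ‖dev p Z‖ ≤ KK d * ‖p‖ ∧ ‖dev p Z - dev p Z'‖ ≤ KK d * ‖p‖ * ‖Z - Z'‖ := by
  have hd0 : (0 : ℝ) ≤ d := Nat.cast_nonneg d
  have h2d : (0 : ℝ) < 2 ^ d := by positivity
  have hzz : 0 ≤ ‖Z - Z'‖ := norm_nonneg _
  refine ⟨?_, ?_, ?_, ?_⟩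
  · have h1 := as_sum p (fun i => Z ^ (i : ℕ)) (B := ((d : ℝ) + 1) ^ 2 * 2 ^ d) (fun i => by
      rw [norm_pow]
      refine (pow_le_pow_left₀ (norm_nonneg _) hZ _).trans ((as_i i).2.1.trans ?_)
      nlinarith [mul_nonneg hd0 h2d.le, mul_nonneg (mul_nonneg hd0 hd0) h2d.le])
    refine h1.trans (le_of_eq ?_)
    unfold KK
    ring
  · have e : ev p Z - ev p Z' = ∑ i, p i * (Z ^ (i : ℕ) - Z' ^ (i : ℕ)) := by
      unfold ev
      rw [← Finset.sum_sub_distrib]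
      exact Finset.sum_congr rfl fun i _ => by ring
    rw [e]
    have h1 := as_sum p (fun i => Z ^ (i : ℕ) - Z' ^ (i : ℕ))
      (B := ((d : ℝ) + 1) ^ 2 * 2 ^ d * ‖Z - Z'‖) (fun i => by
      refine (as_pow hZ hZ' _).trans (mul_le_mul_of_nonneg_right ?_ hzz)
      obtain ⟨a1, a2, _⟩ := as_i i
      have a3 : ((i : ℕ) : ℝ) * 2 ^ (i : ℕ) ≤ d * 2 ^ d :=
        mul_le_mul a1 a2 (by positivity) hd0
      nlinarith [mul_nonneg hd0 h2d.le, mul_nonneg (mul_nonneg hd0 hd0) h2d.le])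
    refine h1.trans (le_of_eq ?_)
    unfold KK
    ring
  · have h1 := as_sum p (fun i => ((i : ℕ) : ℂ) * Z ^ ((i : ℕ) - 1))
      (B := ((d : ℝ) + 1) ^ 2 * 2 ^ d) (fun i => by
      rw [norm_mul, norm_pow, Complex.norm_natCast]
      obtain ⟨a1, _, a2⟩ := as_i i
      have a3 : ((i : ℕ) : ℝ) * ‖Z‖ ^ ((i : ℕ) - 1) ≤ d * 2 ^ d :=
        mul_le_mul a1 ((pow_le_pow_left₀ (norm_nonneg _) hZ _).trans a2) (by positivity) hd0
      nlinarith [mul_nonneg hd0 h2d.le, mul_nonneg (mul_nonneg hd0 hd0) h2d.le])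
    refine h1.trans (le_of_eq ?_)
    unfold KK
    ring
  · have e : dev p Z - dev p Z' =
        ∑ i, p i * (((i : ℕ) : ℂ) * (Z ^ ((i : ℕ) - 1) - Z' ^ ((i : ℕ) - 1))) := by
      unfold dev
      rw [← Finset.sum_sub_distrib]
      exact Finset.sum_congr rfl fun i _ => by ring
    rw [e]
    have h1 := as_sum p (fun i => ((i : ℕ) : ℂ) * (Z ^ ((i : ℕ) - 1) - Z' ^ ((i : ℕ) - 1)))
      (B := ((d : ℝ) + 1) ^ 2 * 2 ^ d * ‖Z - Z'‖) (fun i => by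
      rw [norm_mul, Complex.norm_natCast]
      obtain ⟨a1, _, a2⟩ := as_i i
      have a4 := as_pow hZ hZ' ((i : ℕ) - 1)
      have a5 : (((i : ℕ) - 1 : ℕ) : ℝ) ≤ d := le_trans (by exact_mod_cast Nat.sub_le _ _) a1
      have a6 : (((i : ℕ) - 1 : ℕ) : ℝ) * 2 ^ ((i : ℕ) - 1) ≤ d * 2 ^ d :=
        mul_le_mul a5 a2 (by positivity) hd0
      have a7 : ‖Z ^ ((i : ℕ) - 1) - Z' ^ ((i : ℕ) - 1)‖ ≤ d * 2 ^ d * ‖Z - Z'‖ :=
        a4.trans (mul_le_mul_of_nonneg_right a6 hzz)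
      have a8 : ((i : ℕ) : ℝ) * ‖Z ^ ((i : ℕ) - 1) - Z' ^ ((i : ℕ) - 1)‖ ≤
          d * (d * 2 ^ d * ‖Z - Z'‖) := mul_le_mul a1 a7 (norm_nonneg _) hd0
      refine a8.trans ?_
      have a9 : (d : ℝ) * (d * 2 ^ d) ≤ ((d : ℝ) + 1) ^ 2 * 2 ^ d := by
        nlinarith [mul_nonneg hd0 h2d.le, mul_nonneg (mul_nonneg hd0 hd0) h2d.le]
      calc (d : ℝ) * (d * 2 ^ d * ‖Z - Z'‖) = (d * (d * 2 ^ d)) * ‖Z - Z'‖ := by ring
        _ ≤ _ := mul_le_mul_of_nonneg_right a9 hzz)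
    refine h1.trans (le_of_eq ?_)
    unfold KK
    ring

private theorem as_der {d : ℕ} (p : Fin (d + 1) → ℂ) (Z : ℂ) :
    HasDerivAt (ev p) (dev p Z) Z := by
  unfold ev dev
  exact HasDerivAt.fun_sum fun i _ => (hasDerivAt_pow (i : ℕ) Z).const_mul (p i)

private theorem as_quot {a b a' b' : ℂ} {m δ e : ℝ} (hδ : 0 < δ) (hb : δ / 2 ≤ ‖b‖)
    (hb' : δ / 2 ≤ ‖b'‖) (ha' : ‖a'‖ ≤ m) (h1 : ‖a - a'‖ ≤ e) (h2 : ‖b - b'‖ ≤ e) :
    ‖a / b - a' / b'‖ ≤ (2 / δ + m * (4 / δ ^ 2)) * e := by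
  have hδ2 : 0 < δ / 2 := by positivity
  have hb0 : b ≠ 0 := norm_pos_iff.1 (hδ2.trans_le hb)
  have hb0' : b' ≠ 0 := norm_pos_iff.1 (hδ2.trans_le hb')
  have he : 0 ≤ e := (norm_nonneg _).trans h1
  have hm : 0 ≤ m := (norm_nonneg _).trans ha'
  have e1 : a / b - a' / b' = (a - a') / b + a' * (b' - b) / (b * b') := by
    field_simp
    ring
  rw [e1]
  have h3 : ‖(a - a') / b‖ ≤ 2 / δ * e := by
    rw [norm_div, div_le_iff₀ (hδ2.trans_le hb)]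
    calc ‖a - a'‖ ≤ e := h1
      _ = 2 / δ * e * (δ / 2) := by field_simp
      _ ≤ 2 / δ * e * ‖b‖ := mul_le_mul_of_nonneg_left hb (by positivity)
  have h4 : ‖a' * (b' - b) / (b * b')‖ ≤ m * (4 / δ ^ 2) * e := by
    have hbb : (δ / 2) * (δ / 2) ≤ ‖b‖ * ‖b'‖ := mul_le_mul hb hb' hδ2.le (norm_nonneg _)
    rw [norm_div, norm_mul, norm_mul, norm_sub_rev b' b,
      div_le_iff₀ (lt_of_lt_of_le (by positivity) hbb)]
    calc ‖a'‖ * ‖b - b'‖ ≤ m * e := mul_le_mul ha' h2 (norm_nonneg _) hm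
      _ = m * (4 / δ ^ 2) * e * ((δ / 2) * (δ / 2)) := by
        field_simp
        ring
      _ ≤ m * (4 / δ ^ 2) * e * (‖b‖ * ‖b'‖) :=
        mul_le_mul_of_nonneg_left hbb (by positivity)
  refine (norm_add_le _ _).trans ((add_le_add h3 h4).trans (le_of_eq ?_))
  ring

theorem a_step {d : ℕ} {T : ℕ → E d → E d} {v0 : E d} {R δ : ℝ} (h : AS T v0 R δ) :
    ∃ r1 L : ℝ, 0 < r1 ∧ r1 ≤ 1 ∧ 1 ≤ L ∧ ∀ n, ‖en T v0 n‖ ≤ L ∧
      ∀ p : E d, ‖p‖ ≤ r1 → ∀ Z : ℂ, ‖Z‖ ≤ 2 * r1 →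
        δ / 2 ≤ ‖ev (T n (v0 + p)).2 Z‖ ∧ ‖ev (T n (v0 + p)).2 Z‖ ≤ L ∧
        DifferentiableAt ℂ (fun x : E d × ℂ => st T (v0 + x.1) n x.2) (p, Z) ∧
        ‖deriv (st T v0 n) Z - en T v0 n‖ ≤ L * ‖Z‖ ∧
        ‖st T (v0 + p) n Z - st T v0 n Z‖ ≤ L * ‖p‖ ∧
        ‖st T v0 n Z - en T v0 n * Z‖ ≤ L * ‖Z‖ ^ 2 ∧
        ∀ Z' : ℂ, ‖Z'‖ ≤ 2 * r1 →
          ‖st T (v0 + p) n Z - st T (v0 + p) n Z'‖ ≤ L * ‖Z - Z'‖ := by
  have hR := h.hR
  have hδ := h.hδ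
  have hR0 : 0 < R := by linarith
  have hK := as_KK d
  set M : ℝ := R * (‖v0‖ + 1) with hM
  have hv0 : 0 ≤ ‖v0‖ := norm_nonneg _
  have hM0 : 0 < M := by positivity
  have hRM : R ≤ M := by
    rw [hM]
    nlinarith
  set A : ℝ := KK d * M with hA
  have hA0 : 0 < A := by positivity
  set r1 : ℝ := min 1 (δ / (6 * A)) with hr1
  have hr1p : 0 < r1 := lt_min one_pos (by positivity)
  have hr11 : r1 ≤ 1 := min_le_left _ _
  have hr12 : 6 * A * r1 ≤ δ := by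
    have h1 : r1 ≤ δ / (6 * A) := min_le_right _ _
    calc 6 * A * r1 ≤ 6 * A * (δ / (6 * A)) := mul_le_mul_of_nonneg_left h1 (by positivity)
      _ = δ := by field_simp
  set L0 : ℝ := (2 / δ + A * (4 / δ ^ 2)) * A with hL0
  have hL0p : 0 ≤ L0 := by positivity
  set L1 : ℝ := A * A * (4 / δ ^ 2) with hL1
  have hL1p : 0 ≤ L1 := by positivity
  -- basic bounds
  have hTn : ∀ n (p : E d), ‖p‖ ≤ 1 → ‖T n (v0 + p)‖ ≤ M := by
    intro n p hp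
    refine (h.bdd n _).trans ?_
    exact mul_le_mul_of_nonneg_left ((norm_add_le _ _).trans (by linarith)) hR0.le
  have hev : ∀ n (p : E d), ‖p‖ ≤ 1 → ∀ Z Z' : ℂ, ‖Z‖ ≤ 2 → ‖Z'‖ ≤ 2 →
      (‖ev (T n (v0 + p)).1 Z‖ ≤ A ∧ ‖ev (T n (v0 + p)).1 Z - ev (T n (v0 + p)).1 Z'‖ ≤
        A * ‖Z - Z'‖ ∧ ‖dev (T n (v0 + p)).1 Z‖ ≤ A ∧
        ‖dev (T n (v0 + p)).1 Z - dev (T n (v0 + p)).1 Z'‖ ≤ A * ‖Z - Z'‖) ∧
      (‖ev (T n (v0 + p)).2 Z‖ ≤ A ∧ ‖ev (T n (v0 + p)).2 Z - ev (T n (v0 + p)).2 Z'‖ ≤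
        A * ‖Z - Z'‖ ∧ ‖dev (T n (v0 + p)).2 Z‖ ≤ A) := by
    intro n p hp Z Z' hZ hZ'
    have h0 := hTn n p hp
    have h1 : ‖(T n (v0 + p)).1‖ ≤ M := (norm_fst_le _).trans h0
    have h2 : ‖(T n (v0 + p)).2‖ ≤ M := (norm_snd_le _).trans h0
    have k1 : KK d * ‖(T n (v0 + p)).1‖ ≤ A := mul_le_mul_of_nonneg_left h1 hK.le
    have k2 : KK d * ‖(T n (v0 + p)).2‖ ≤ A := mul_le_mul_of_nonneg_left h2 hK.le
    obtain ⟨a1, a2, a3, a4⟩ := as_ev (T n (v0 + p)).1 hZ hZ'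
    obtain ⟨b1, b2, b3, _⟩ := as_ev (T n (v0 + p)).2 hZ hZ'
    exact ⟨⟨a1.trans k1, a2.trans (mul_le_mul_of_nonneg_right k1 (norm_nonneg _)), a3.trans k1,
      a4.trans (mul_le_mul_of_nonneg_right k1 (norm_nonneg _))⟩,
      ⟨b1.trans k2, b2.trans (mul_le_mul_of_nonneg_right k2 (norm_nonneg _)), b3.trans k2⟩⟩
  -- dependence on the parameter
  have hpar : ∀ n (p : E d) (Z : ℂ), ‖Z‖ ≤ 2 →
      ‖ev (T n (v0 + p)).1 Z - ev (T n v0).1 Z‖ ≤ A * ‖p‖ ∧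
        ‖ev (T n (v0 + p)).2 Z - ev (T n v0).2 Z‖ ≤ A * ‖p‖ := by
    intro n p Z hZ
    have h0 : ∀ q q' : Fin (d + 1) → ℂ, ev (q + q') Z - ev q Z = ev q' Z := by
      intro q q'
      unfold ev
      rw [← Finset.sum_sub_distrib]
      exact Finset.sum_congr rfl fun i _ => by
        rw [Pi.add_apply]
        ring
    have h1 : ‖T n p‖ ≤ M / M * (R * ‖p‖) := by
      rw [div_self hM0.ne', one_mul]
      exact h.bdd n p
    have h2 : KK d * (R * ‖p‖) ≤ A * ‖p‖ := by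
      rw [hA, mul_assoc]
      exact mul_le_mul_of_nonneg_left (mul_le_mul_of_nonneg_right hRM (norm_nonneg _)) hK.le
    rw [div_self hM0.ne', one_mul] at h1
    rw [h.add, Prod.fst_add, Prod.snd_add, h0, h0]
    refine ⟨(as_ev (T n p).1 hZ hZ).1.trans ?_, (as_ev (T n p).2 hZ hZ).1.trans ?_⟩
    · exact (mul_le_mul_of_nonneg_left ((norm_fst_le _).trans h1) hK.le).trans h2
    · exact (mul_le_mul_of_nonneg_left ((norm_snd_le _).trans h1) hK.le).trans h2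
  have hden : ∀ n (p : E d), ‖p‖ ≤ r1 → ∀ Z : ℂ, ‖Z‖ ≤ 2 * r1 →
      δ / 2 ≤ ‖ev (T n (v0 + p)).2 Z‖ := by
    intro n p hp Z hZ
    have hp1 : ‖p‖ ≤ 1 := hp.trans hr11
    have hZ2 : ‖Z‖ ≤ 2 := hZ.trans (by linarith)
    have e1 := (hev n p hp1 Z 0 hZ2 (by simp)).2.2.1
    rw [sub_zero] at e1
    have e2 := (hpar n p 0 (by simp)).2
    have e3 := h.den n
    have e4 : ‖ev (T n v0).2 0‖ ≤ ‖ev (T n (v0 + p)).2 Z‖ +
        ‖ev (T n (v0 + p)).2 Z - ev (T n (v0 + p)).2 0‖ +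
        ‖ev (T n (v0 + p)).2 0 - ev (T n v0).2 0‖ := by
      have e5 : ev (T n v0).2 0 = ev (T n (v0 + p)).2 Z -
          (ev (T n (v0 + p)).2 Z - ev (T n (v0 + p)).2 0) -
          (ev (T n (v0 + p)).2 0 - ev (T n v0).2 0) := by ring
      calc ‖ev (T n v0).2 0‖ = ‖ev (T n (v0 + p)).2 Z -
          (ev (T n (v0 + p)).2 Z - ev (T n (v0 + p)).2 0) -
          (ev (T n (v0 + p)).2 0 - ev (T n v0).2 0)‖ := by rw [← e5]
        _ ≤ _ := (norm_sub_le _ _).trans (add_le_add (norm_sub_le _ _) le_rfl)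
    have e6 : A * ‖Z‖ ≤ A * (2 * r1) := mul_le_mul_of_nonneg_left hZ hA0.le
    have e7 : A * ‖p‖ ≤ A * r1 := mul_le_mul_of_nonneg_left hp hA0.le
    linarith
  have hz0 : (v0 : E d) + 0 = v0 := add_zero v0
  -- the derivative at the central parameter
  have hder : ∀ n (Z : ℂ), ‖Z‖ ≤ 2 * r1 →
      HasDerivAt (st T v0 n) ((dev (T n v0).1 Z * ev (T n v0).2 Z -
        ev (T n v0).1 Z * dev (T n v0).2 Z) / ev (T n v0).2 Z ^ 2) Z := by
    intro n Z hZ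
    have h1 := hden n 0 (by rw [norm_zero]; exact hr1p.le) Z hZ
    rw [hz0] at h1
    have h2 : ev (T n v0).2 Z ≠ 0 :=
      norm_pos_iff.1 (lt_of_lt_of_le (by positivity) h1)
    exact (as_der (T n v0).1 Z).div (as_der (T n v0).2 Z) h2
  have h4 : ∀ n (Z : ℂ), ‖Z‖ ≤ 2 * r1 →
      ‖deriv (st T v0 n) Z - en T v0 n‖ ≤ (L0 + L1) * ‖Z‖ := by
    intro n Z hZ
    have hZ2 : ‖Z‖ ≤ 2 := hZ.trans (by linarith)
    have d1 := hden n 0 (by rw [norm_zero]; exact hr1p.le) Z hZ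
    have d2 := hden n 0 (by rw [norm_zero]; exact hr1p.le) 0 (by simp; exact hr1p.le)
    have a1 := hev n 0 (by simp) Z 0 hZ2 (by simp)
    have a2 := hev n 0 (by simp) 0 0 (by simp) (by simp)
    rw [hz0] at d1 d2 a1 a2
    rw [sub_zero] at a1
    obtain ⟨⟨_, n1, _, n3⟩, ⟨_, n4, n5⟩⟩ := a1
    have n6 := a2.1.2.2.1
    rw [h.zero n, sub_zero] at n1
    have h2 : ev (T n v0).2 Z ≠ 0 := norm_pos_iff.1 (lt_of_lt_of_le (by positivity) d1)
    rw [(hder n Z hZ).deriv]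
    unfold en
    have e1 : (dev (T n v0).1 Z * ev (T n v0).2 Z - ev (T n v0).1 Z * dev (T n v0).2 Z) /
        ev (T n v0).2 Z ^ 2 - dev (T n v0).1 0 / ev (T n v0).2 0 =
        (dev (T n v0).1 Z / ev (T n v0).2 Z - dev (T n v0).1 0 / ev (T n v0).2 0) -
          ev (T n v0).1 Z * dev (T n v0).2 Z / ev (T n v0).2 Z ^ 2 := by
      have e2 : (dev (T n v0).1 Z * ev (T n v0).2 Z - ev (T n v0).1 Z * dev (T n v0).2 Z) /
          ev (T n v0).2 Z ^ 2 = dev (T n v0).1 Z / ev (T n v0).2 Z -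
          ev (T n v0).1 Z * dev (T n v0).2 Z / ev (T n v0).2 Z ^ 2 := by
        field_simp
      rw [e2]
      ring
    rw [e1]
    have b1 := as_quot hδ d1 d2 n6 n3 n4
    have b2 : ‖ev (T n v0).1 Z * dev (T n v0).2 Z / ev (T n v0).2 Z ^ 2‖ ≤ L1 * ‖Z‖ := by
      rw [norm_div, norm_mul, norm_pow, div_le_iff₀ (by positivity)]
      have b3 : (δ / 2) ^ 2 ≤ ‖ev (T n v0).2 Z‖ ^ 2 := pow_le_pow_left₀ (by positivity) d1 2
      calc ‖ev (T n v0).1 Z‖ * ‖dev (T n v0).2 Z‖ ≤ (A * ‖Z‖) * A :=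
            mul_le_mul n1 n5 (norm_nonneg _) (by positivity)
        _ = L1 * ‖Z‖ * (δ / 2) ^ 2 := by
            rw [hL1]
            field_simp
            ring
        _ ≤ L1 * ‖Z‖ * ‖ev (T n v0).2 Z‖ ^ 2 :=
            mul_le_mul_of_nonneg_left b3 (by positivity)
    refine (norm_sub_le _ _).trans ((add_le_add b1 b2).trans (le_of_eq ?_))
    rw [hL0]
    ring
  refine ⟨r1, 1 + A + L0 + L1, hr1p, hr11, by linarith, fun n => ⟨?_, fun p hp Z hZ => ?_⟩⟩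
  · -- bound of `en`
    have a2 := hev n 0 (by simp) 0 0 (by simp) (by simp)
    rw [hz0] at a2
    have n6 := a2.1.2.2.1
    have d2 := h.den n
    unfold en
    rw [norm_div, div_le_iff₀ (hδ.trans_le d2)]
    have h5 : A ≤ (1 + A + L0 + L1) * δ := by
      have h6 : 2 * A ≤ L0 * δ := by
        rw [hL0]
        have h7 : (2 / δ + A * (4 / δ ^ 2)) * A * δ = 2 * A + A * A * (4 / δ) := by
          field_simp
        rw [h7]
        have : 0 ≤ A * A * (4 / δ) := by positivity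
        linarith
      have h8 : 0 ≤ (1 + A + L1) * δ := by positivity
      linarith
    calc ‖dev (T n v0).1 0‖ ≤ A := n6
      _ ≤ (1 + A + L0 + L1) * δ := h5
      _ ≤ (1 + A + L0 + L1) * ‖ev (T n v0).2 0‖ :=
        mul_le_mul_of_nonneg_left d2 (by positivity)
  · have hp1 : ‖p‖ ≤ 1 := hp.trans hr11
    have hZ2 : ‖Z‖ ≤ 2 := hZ.trans (by linarith)
    have hd := hden n p hp Z hZ
    have hd0 := hden n 0 (by rw [norm_zero]; exact hr1p.le) Z hZ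
    rw [hz0] at hd0
    refine ⟨hd, ?_, ?_, ?_, ?_, ?_, fun Z' hZ' => ?_⟩
    · exact (hev n p hp1 Z Z hZ2 hZ2).2.1.trans (by linarith)
    · -- differentiability
      let TL : E d →ₗ[ℂ] E d :=
        { toFun := T n
          map_add' := h.add n
          map_smul' := fun k v => h.smul n k v }
      have hT : Differentiable ℂ (T n) := (LinearMap.toContinuousLinearMap TL).differentiable
      have hTc : Differentiable ℂ (fun x : E d × ℂ => T n (v0 + x.1)) :=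
        hT.comp ((differentiable_const v0).add differentiable_fst)
      have h1 : Differentiable ℂ (fun x : E d × ℂ => ev (T n (v0 + x.1)).1 x.2) := by
        unfold ev
        exact Differentiable.fun_sum fun i _ =>
          (differentiable_pi.1 hTc.fst i).mul (differentiable_snd.pow _)
      have h2 : Differentiable ℂ (fun x : E d × ℂ => ev (T n (v0 + x.1)).2 x.2) := by
        unfold ev
        exact Differentiable.fun_sum fun i _ =>
          (differentiable_pi.1 hTc.snd i).mul (differentiable_snd.pow _)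
      have h3 : DifferentiableAt ℂ (fun x : E d × ℂ =>
          ev (T n (v0 + x.1)).1 x.2 / ev (T n (v0 + x.1)).2 x.2) (p, Z) := by
        have h5 : DifferentiableAt ℂ (fun x : E d × ℂ => (ev (T n (v0 + x.1)).2 x.2)⁻¹)
            (p, Z) := by
          refine DifferentiableAt.fun_inv (h2 (p, Z)) ?_
          exact norm_pos_iff.1 (lt_of_lt_of_le (by positivity) hd)
        simp only [div_eq_mul_inv]
        exact (h1 (p, Z)).fun_mul h5
      exact h3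
    · refine (h4 n Z hZ).trans (mul_le_mul_of_nonneg_right ?_ (norm_nonneg _))
      linarith
    · have a1 := hev n 0 (by simp) Z Z hZ2 hZ2
      rw [hz0] at a1
      obtain ⟨b1, b2⟩ := hpar n p Z hZ2
      have b3 := as_quot hδ hd hd0 a1.1.1 b1 b2
      refine b3.trans ?_
      calc (2 / δ + A * (4 / δ ^ 2)) * (A * ‖p‖) = L0 * ‖p‖ := by
            rw [hL0]
            ring
        _ ≤ (1 + A + L0 + L1) * ‖p‖ :=
            mul_le_mul_of_nonneg_right (by linarith) (norm_nonneg _)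
    · -- second order
      have h6 : ‖(st T v0 n Z - en T v0 n * Z) - (st T v0 n 0 - en T v0 n * 0)‖ ≤
          ((L0 + L1) * ‖Z‖) * ‖Z - 0‖ := by
        refine Convex.norm_image_sub_le_of_norm_hasDerivWithin_le
          (f := fun z => st T v0 n z - en T v0 n * z)
          (f' := fun z => deriv (st T v0 n) z - en T v0 n) (s := closedBall (0 : ℂ) ‖Z‖)
          (fun z hz => ?_) (fun z hz => ?_) (convex_closedBall _ _)
          (mem_closedBall_self (norm_nonneg _)) (by simp)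
        · have hz' : ‖z‖ ≤ 2 * r1 := (mem_closedBall_zero_iff.1 hz).trans hZ
          have h7 := hder n z hz'
          have h8 := (h7.sub ((hasDerivAt_id z).const_mul (en T v0 n))).hasDerivWithinAt
            (s := closedBall (0 : ℂ) ‖Z‖)
          rw [mul_one] at h8
          rw [h7.deriv]
          exact h8
        · have hz' : ‖z‖ ≤ ‖Z‖ := mem_closedBall_zero_iff.1 hz
          exact (h4 n z (hz'.trans hZ)).trans
            (mul_le_mul_of_nonneg_left hz' (by positivity))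
      have h7 : st T v0 n 0 = 0 := by
        unfold st
        rw [h.zero n, zero_div]
      rw [h7, mul_zero, sub_zero, sub_zero, sub_zero] at h6
      refine h6.trans ?_
      calc (L0 + L1) * ‖Z‖ * ‖Z‖ = (L0 + L1) * ‖Z‖ ^ 2 := by ring
        _ ≤ (1 + A + L0 + L1) * ‖Z‖ ^ 2 :=
            mul_le_mul_of_nonneg_right (by linarith) (by positivity)
    · have hZ2' : ‖Z'‖ ≤ 2 := hZ'.trans (by linarith)
      have hd' := hden n p hp Z' hZ'
      have a1 := hev n p hp1 Z Z' hZ2 hZ2'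
      have a2 := hev n p hp1 Z' Z' hZ2' hZ2'
      have b3 := as_quot hδ hd hd' a2.1.1 a1.1.2.1 a1.2.2.1
      refine b3.trans ?_
      calc (2 / δ + A * (4 / δ ^ 2)) * (A * ‖Z - Z'‖) = L0 * ‖Z - Z'‖ := by
            rw [hL0]
            ring
        _ ≤ (1 + A + L0 + L1) * ‖Z - Z'‖ :=
            mul_le_mul_of_nonneg_right (by linarith) (norm_nonneg _)

end Pool.Agent.H91.CS
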