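import Pool.Agent.H91.CE.CDefs

/-!
# Collet-Eckmann maps without hypothesis on the basins: definitions for the transversality

`a / b` is the map (`gg a b`), `dg a b` its derivative, `ww a b` the Wronskian (notation of H61/TT). The index `i` runs over the
critical points `p i 0` which are not attracted; `p i k` is the orbit (finite points), `B i k = 1 / (f^k)'(p i 1)`. The orbits may be
unbounded (the Julia set may be the sphere), orbit relations `p i k = p j l` are allowed for `k, l ≥ 1`, the orbits may be preperiodic.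
-/

set_option autoImplicit false

open Filter Topology Polynomial Metric Set

namespace Pool.Agent.H91.CS

open Pool.Agent.H44.Fatou Pool.Agent.H61.TT

/-- the orbits of finitely many critical points `p i 0` of multiplicity `m i` with exponentially
growing chordal derivatives -/
structure JS (d : ℕ) (a b : Polynomial ℂ) {ι : Type} (m : ι → ℕ) (p B : ι → ℕ → ℂ) : Prop where
  orb : ∀ i k, gg a b (p i k) = p i (k + 1)
  bb : ∀ i k, b.eval (p i k) ≠ 0
  inj : Function.Injective fun i => p i 0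
  mult : ∀ i, (ww a b).rootMultiplicity (p i 0) = m i
  hm : ∀ i, 1 ≤ m i
  B0 : ∀ i, B i 0 = 1
  hB : ∀ i k, B i (k + 1) * dg a b (p i (k + 1)) = B i k
  grow : ∀ i, ∃ C q : ℝ, 0 < q ∧ q < 1 ∧ ∀ k, ‖B i k‖ * (1 + ‖p i (k + 1)‖ ^ 2) ≤ C * q ^ k

/-- the iterates blow up small discs at `c`, conformally near some point `ζ ≠ 0` of the rescaled disc, to a
neighbourhood of `s`. The `Φj j` are the iterates `N j` except at countably many points. -/
def Blow (a b : Polynomial ℂ) (c s : ℂ) : Prop :=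
  ∃ (ζ : ℂ) (r : ℝ) (δ : ℕ → ℝ) (N : ℕ → ℕ) (Φj : ℕ → ℂ → ℂ) (Φ : ℂ → ℂ),
    ζ ≠ 0 ∧ 0 < r ∧ ball ζ r ⊆ ball 0 1 ∧ (∀ j, 0 < δ j) ∧ Tendsto δ atTop (𝓝 0) ∧
    DifferentiableOn ℂ Φ (ball ζ r) ∧ Φ ζ = s ∧ deriv Φ ζ ≠ 0 ∧
    (∀ j, DifferentiableOn ℂ (Φj j) (ball ζ r)) ∧ TendstoUniformlyOn Φj Φ atTop (ball ζ r) ∧
    ∀ j, {z ∈ ball ζ r | ¬ ((∀ i < N j, b.eval ((gg a b)^[i] (c + δ j * z)) ≠ 0) ∧
      Φj j z = (gg a b)^[N j] (c + δ j * z))}.Countable

/-- the linear functional `Λ` vanishes on all polynomials which are, at every `p i 0`, congruent to a constant times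
`b ^ 2` modulo `(X - p i 0) ^ m i` -/
def Loc (b : Polynomial ℂ) {ι : Type} (m : ι → ℕ) (p : ι → ℕ → ℂ) (Λ : Polynomial ℂ →ₗ[ℂ] ℂ) : Prop :=
  ∀ η : Polynomial ℂ, (∀ i, ∃ e : ℂ, (X - C (p i 0)) ^ m i ∣ η - C e * b ^ 2) → Λ η = 0

end Pool.Agent.H91.CS
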