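import Pool.Agent.H91.CS.PTAIL
import Pool.Agent.H91.CS.TDefs
import Pool.Agent.H79.Par.PerFin

/-!
# Module PBLO: the iterates blow up small discs at a critical point

PROOF. `x = it v0 1 c`, `tails` for the one point `x` and a small `θ` (`ι = Unit`), only for the parameter `0`: `h j y = g () j (0, y)` is holomorphic on `ball 0 1`, `h j y' → Y y` as `(j, y') → (∞, y)`, `‖y‖ < 3 / 4`,
`(Rf v0)^[n j] (x + ρ j * y) = ch σ (h j y)` for large `j`. `F u = it v0 1 (c + u) - x` is holomorphic near `0`, `F 0 = F' 0 = 0`, not locally constant (as in H91/CE/CRB, use `CE.wv_ne`): `F u = a u ^ M (1 + o(1))`, `a ≠ 0`, `M ≥ 2`. Choose `δ j > 0` with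
`‖a‖ δ j ^ M = ρ j`, `δ j → 0`; `F (δ j z) / ρ j → a' z ^ M` uniformly on `ball 0 1`, `a' = a / ‖a‖`. So `Q j z = h j (F (δ j z) / ρ j) → Φ0 z = Y (a' z ^ M)` locally uniformly for `‖z‖ < 1 / 2` (say), `Φ0` is not constant, and
`(Rf v0)^[n j + 1] (c + δ j z) = ch σ (Q j z)`. The set `Bd` of the values of `Φ0` at its critical points in `closedBall 0 (1 / 4)` (finite: zeros of the nonzero holomorphic function `deriv Φ0` in a compact set), together with `Φ0 0` and `0`, is finite;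
`Φ0 '' ball 0 (1 / 4)` is a neighbourhood of `Φ0 0` (open mapping). The points `s j = h j 0`, coordinates of `it v0 (n j) x = it v0 (n j + 1) c`, converge to `Y 0 = Φ0 0` and are distinct for distinct `n j` (`hinj`); `n j → ∞`, so for infinitely
many values `N' = n j + 1` `s j ∈ Φ0 '' ball 0 (1 / 4)`, `s j ∉ Bd ∪ {Φ0 0, 0}`. For such a `j0`: `s j0 = Φ0 ζ`, `ζ ≠ 0`, `deriv Φ0 ζ ≠ 0`, and if `σ = true` `Φ0 ζ ≠ 0`. In a small ball around `ζ` the functions `Φj j z = Q j z` (`σ = false`) or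
`(Q j z)⁻¹` (`σ = true`), `j` large (shift the sequences), and their limit satisfy all of `Blow` with `s = it v0 (n j0 + 1) c`; the exceptional `z` are among those for which the orbit of `c + δ j z` hits `∞`, countably many by `pre_countable`
(H79/Par/PerFin); off them `(gg a b)^[i] (c + δ j z)` is the point `(Rf v0)^[i] (c + δ j z)` of the plane (`gg a b w = ev v0.1 w / ev v0.2 w`, `pol_eval`; `Rf v0 w = ∞` if the denominator vanishes).
-/

set_option autoImplicit false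

open Filter Topology Metric Set Polynomial

namespace Pool.Agent.H91.CS

open Pool.Agent.H44.Fatou Pool.Agent.H32.BT Pool.Agent.H79.Eul Pool.Agent.H79.Par
open Pool.Agent.H61.TT

private theorem pblo_ch {σ : Bool} {w z : ℂ} (h : ch σ w = (z : OnePoint ℂ)) :
    z = XC σ w ∧ (σ = true → w ≠ 0) := by
  cases σ
  · rw [ch_false_coe, OnePoint.coe_eq_coe] at h
    refine ⟨?_, fun h => by simp at h⟩
    rw [← h]
    simp [XC]
  · rw [ch_true] at h
    unfold pt at h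
    split_ifs at h with h0
    · exact absurd h (OnePoint.infty_ne_coe z)
    · rw [OnePoint.coe_eq_coe] at h
      refine ⟨?_, fun _ => h0⟩
      rw [← h]
      simp [XC]

private theorem pblo_xc {σ : Bool} {f : ℂ → ℂ} {S : Set ℂ} (hf : DifferentiableOn ℂ f S)
    (h0 : σ = true → ∀ z ∈ S, f z ≠ 0) : DifferentiableOn ℂ (fun z => XC σ (f z)) S := by
  cases σ
  · simpa [XC] using hf
  · have h1 := hf.fun_inv (h0 rfl)
    simpa [XC] using h1

theorem blow {d : ℕ} (hd : 2 ≤ d) {v0 : E d} (hcop : IsCoprime (pol v0.1) (pol v0.2))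
    (hdeg : max (pol v0.1).natDegree (pol v0.2).natDegree = d) {c : ℂ} (hc : wv v0 c = 0)
    (hb : ev v0.2 c ≠ 0) (hx : GrS v0 (it v0 1 c)) (hinj : Function.Injective fun k => it v0 k c) :
    ∃ᶠ n in atTop, Blow (pol v0.1) (pol v0.2) c (it v0 n c) := by
  have hd1 : 1 ≤ max (pol v0.1).natDegree (pol v0.2).natDegree := by rw [hdeg]; omega
  obtain ⟨x, hxe⟩ : ∃ x : ℂ, x = it v0 1 c := ⟨_, rfl⟩
  rw [← hxe] at hx
  obtain ⟨κ, -, hκ⟩ := tails hd hcop hdeg (ι := Unit) (x := fun _ => x) (fun _ => hx)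
  obtain ⟨θ, hθ0, hθ1, hθκ⟩ : ∃ θ : ℝ, 0 < θ ∧ θ ≤ 1 ∧
      ∀ (i : Unit) (p : E d), θ * ‖κ i p‖ ≤ ‖p‖ / 4 := by
    have h0 : 0 ≤ ‖κ ()‖ := norm_nonneg _
    refine ⟨min 1 (1 / (4 * (‖κ ()‖ + 1))), ?_, min_le_left _ _, ?_⟩
    · exact lt_min one_pos (by positivity)
    · rintro ⟨⟩ p
      have h1 := (κ ()).le_opNorm p
      calc min 1 (1 / (4 * (‖κ ()‖ + 1))) * ‖κ () p‖
          ≤ (1 / (4 * (‖κ ()‖ + 1))) * (‖κ ()‖ * ‖p‖) :=
            mul_le_mul (min_le_right _ _) h1 (norm_nonneg _) (by positivity)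
        _ ≤ ‖p‖ / 4 := by
            rw [div_mul_eq_mul_div, div_le_div_iff₀ (by positivity) (by norm_num)]
            nlinarith [norm_nonneg p]
  obtain ⟨ρ, nn, σσ, g, YY, hρ, hρ0, hall⟩ := hκ θ hθ0 hθ1 hθκ
  obtain ⟨hn, hYd, ⟨η, hη, hYη⟩, hgd, hglim, hRf⟩ := hall ()
  obtain ⟨n, hnn⟩ : ∃ n, n = nn () := ⟨_, rfl⟩
  obtain ⟨σ, hσσ⟩ : ∃ σ, σ = σσ () := ⟨_, rfl⟩
  obtain ⟨Y, hYY⟩ : ∃ Y, Y = YY () := ⟨_, rfl⟩
  obtain ⟨h, hh⟩ : ∃ h : ℕ → ℂ → ℂ, ∀ j y, h j y = g () j ((0 : E d), y) :=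
    ⟨fun j y => g () j ((0 : E d), y), fun _ _ => rfl⟩
  rw [← hnn] at hn hRf
  rw [← hYY] at hYd hYη hglim
  rw [← hσσ] at hRf
  have hhd : ∀ j, DifferentiableOn ℂ (h j) (ball 0 1) := by
    intro j
    have h1 : DifferentiableOn ℂ (fun y : ℂ => g () j ((0 : E d), y)) (ball 0 1) := by
      refine (hgd j).comp (g := g () j) (f := fun y : ℂ => ((0 : E d), y)) ?_ ?_
      · exact ((differentiable_const (0 : E d)).prodMk differentiable_id).differentiableOn
      · intro y hy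
        rw [mem_ball_zero_iff] at hy ⊢
        rw [Prod.norm_mk, norm_zero]
        exact max_lt one_pos hy
    exact h1.congr fun y _ => hh j y
  have hhlim : ∀ y ∈ ball (0 : ℂ) (3 / 4),
      Tendsto (fun w : ℕ × ℂ => h w.1 w.2) (atTop ×ˢ 𝓝 y) (𝓝 (Y y)) := by
    intro y hy
    have h0 : ((0 : E d), y) ∈ ball (0 : E d × ℂ) (3 / 4) := by
      rw [mem_ball_zero_iff] at hy ⊢
      rw [Prod.norm_mk, norm_zero]
      exact max_lt (by norm_num) hy
    have h1 := hglim _ h0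
    have h2 : Tendsto (fun w : ℕ × ℂ => ((w.1, ((0 : E d), w.2)) : ℕ × (E d × ℂ)))
        (atTop ×ˢ 𝓝 y) (atTop ×ˢ 𝓝 ((0 : E d), y)) := by
      refine tendsto_fst.prodMk ?_
      have h3 : Continuous (fun y : ℂ => ((0 : E d), y)) := by fun_prop
      exact (h3.tendsto y).comp tendsto_snd
    have h3 := h1.comp h2
    simp only [map_zero, mul_zero, add_zero] at h3
    refine h3.congr fun w => ?_
    rw [hh]
    rfl
  have hRf' : ∀ᶠ j in atTop, ∀ y ∈ ball (0 : ℂ) 1,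
      (Rf v0)^[n j] ((x + ρ j * y : ℂ) : OnePoint ℂ) = ch σ (h j y) := by
    filter_upwards [hRf] with j hj y hy
    have h0 : ((0 : E d), y) ∈ ball (0 : E d × ℂ) 1 := by
      rw [mem_ball_zero_iff] at hy ⊢
      rw [Prod.norm_mk, norm_zero]
      exact max_lt one_pos hy
    have h1 := hj _ h0
    simp only [smul_zero, add_zero] at h1
    rw [hh]
    exact h1
  clear hRf hglim hgd hκ hθκ hall
  -- the points whose orbit hits a given point
  have hcnt : ∀ y : OnePoint ℂ,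
      {z : ℂ | ∃ j : ℕ, (Rf v0)^[j] (z : OnePoint ℂ) = y}.Countable := fun y =>
    countable_coe (pre_countable hcop hd1 y)
  -- continuity of the denominator
  have hevc : ∀ p : Fin (d + 1) → ℂ, Continuous (fun z : ℂ => ev p z) := by
    intro p
    unfold ev
    fun_prop
  have hevd : ∀ p : Fin (d + 1) → ℂ, Differentiable ℂ (fun z => ev p z) := by
    intro p
    unfold ev
    fun_prop
  -- the local expansion
  have hdn : ∀ᶠ u : ℂ in 𝓝 0, ev v0.2 (c + u) ≠ 0 := by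
    have h1 : ContinuousAt (fun u : ℂ => ev v0.2 (c + u)) 0 :=
      ((hevc v0.2).comp (continuous_const.add continuous_id)).continuousAt
    exact h1.eventually_ne (by rw [add_zero]; exact hb)
  have hFa : AnalyticAt ℂ (fun u : ℂ => it v0 1 (c + u) - x) 0 := by
    rw [Complex.analyticAt_iff_eventually_differentiableAt]
    filter_upwards [hdn] with u hu
    have h1 : DifferentiableAt ℂ (fun u : ℂ => ev v0.1 (c + u) / ev v0.2 (c + u)) u := by
      refine DifferentiableAt.div ?_ ?_ hu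
      · exact ((hevd v0.1).comp (differentiable_id.const_add c)).differentiableAt
      · exact ((hevd v0.2).comp (differentiable_id.const_add c)).differentiableAt
    exact h1.sub_const x
  have hFn : ¬ ∀ᶠ u : ℂ in 𝓝 0, it v0 1 (c + u) - x = 0 := by
    intro hcon
    obtain ⟨ε, hε, hb'⟩ := Metric.eventually_nhds_iff_ball.1 (hcon.and hdn)
    obtain ⟨y, hy1, hy2⟩ := ((hcnt x).dense_compl ℂ).inter_open_nonempty (ball c ε) isOpen_ball
      ⟨c, mem_ball_self hε⟩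
    apply hy2
    have h1 : y - c ∈ ball (0 : ℂ) ε := by
      rw [mem_ball_zero_iff, ← dist_eq_norm]
      exact hy1
    obtain ⟨h2, h3⟩ := hb' _ h1
    rw [add_sub_cancel] at h2 h3
    refine ⟨1, ?_⟩
    have h4 : ∀ i < 1, ev v0.2 (it v0 i y) ≠ 0 := by
      intro i hi
      obtain rfl : i = 0 := by omega
      exact h3
    rw [rat_it h4, sub_eq_zero.1 h2]
  obtain ⟨m, G, hGa, hG0, hGe⟩ := hFa.exists_eventuallyEq_pow_smul_nonzero_iff.2 hFn
  have hm : 0 < m := by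
    rcases Nat.eq_zero_or_pos m with h | h
    · exfalso
      have h1 := hGe.self_of_nhds
      rw [h, pow_zero, one_smul, add_zero, ← hxe, sub_self] at h1
      exact hG0 h1.symm
    · exact h
  obtain ⟨a, ha⟩ : ∃ a : ℂ, a = G 0 := ⟨_, rfl⟩
  rw [← ha] at hG0
  have hap : 0 < ‖a‖ := norm_pos_iff.2 hG0
  have hap' : (‖a‖ : ℂ) ≠ 0 := by exact_mod_cast hap.ne'
  obtain ⟨a', ha'⟩ : ∃ a' : ℂ, a' = a / ‖a‖ := ⟨_, rfl⟩
  have ha1 : ‖a'‖ = 1 := by
    rw [ha', norm_div, Complex.norm_real, norm_norm, div_self hap.ne']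
  have ha0 : a' ≠ 0 := by
    intro h
    rw [h, norm_zero] at ha1
    exact zero_ne_one ha1
  -- the scales
  obtain ⟨δ, hδ⟩ : ∃ δ : ℕ → ℝ, ∀ j, δ j = (ρ j / ‖a‖) ^ ((m : ℝ)⁻¹) := ⟨_, fun _ => rfl⟩
  have hδp : ∀ j, 0 < δ j := by
    intro j
    rw [hδ]
    exact Real.rpow_pos_of_pos (div_pos (hρ j) hap) _
  have hδm : ∀ j, δ j ^ m = ρ j / ‖a‖ := by
    intro j
    rw [hδ]
    exact Real.rpow_inv_natCast_pow (div_pos (hρ j) hap).le hm.ne'
  have hδ0 : Tendsto δ atTop (𝓝 0) := by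
    have hminv : 0 < ((m : ℝ)⁻¹) := by positivity
    have h1 : Tendsto (fun j => ρ j / ‖a‖) atTop (𝓝 0) := by
      have := hρ0.div_const ‖a‖
      rwa [zero_div] at this
    have h2 := h1.rpow_const (p := (m : ℝ)⁻¹) (Or.inr hminv.le)
    rw [Real.zero_rpow hminv.ne'] at h2
    exact h2.congr fun j => (hδ j).symm
  -- the limit function
  obtain ⟨Φ0, hΦ0⟩ : ∃ Φ0 : ℂ → ℂ, ∀ z, Φ0 z = Y (a' * z ^ m) := ⟨_, fun _ => rfl⟩
  have hmaps : ∀ z ∈ ball (0 : ℂ) 1, a' * z ^ m ∈ ball (0 : ℂ) 1 := by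
    intro z hz
    rw [mem_ball_zero_iff] at hz ⊢
    rw [norm_mul, ha1, one_mul, norm_pow]
    exact pow_lt_one₀ (norm_nonneg _) hz hm.ne'
  have hmaps' : ∀ z ∈ ball (0 : ℂ) (3 / 4), a' * z ^ m ∈ ball (0 : ℂ) (3 / 4) := by
    intro z hz
    rw [mem_ball_zero_iff] at hz ⊢
    rw [norm_mul, ha1, one_mul, norm_pow]
    calc ‖z‖ ^ m ≤ ‖z‖ ^ 1 := pow_le_pow_of_le_one (norm_nonneg _) (by linarith) hm
      _ < 3 / 4 := by rw [pow_one]; exact hz
  have hΦd : DifferentiableOn ℂ Φ0 (ball 0 1) := by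
    have h1 : DifferentiableOn ℂ (fun z : ℂ => Y (a' * z ^ m)) (ball 0 1) :=
      hYd.comp (g := Y) (f := fun z : ℂ => a' * z ^ m)
        (((differentiable_id.pow m).const_mul a').differentiableOn) hmaps
    exact h1.congr fun z _ => hΦ0 z
  have hΦan : AnalyticOnNhd ℂ Φ0 (ball 0 1) := hΦd.analyticOnNhd isOpen_ball
  have hΦ00 : Φ0 0 = Y 0 := by rw [hΦ0, zero_pow hm.ne', mul_zero]
  have h01 : (0 : ℂ) ∈ ball (0 : ℂ) 1 := mem_ball_self one_pos
  have hΦn : ¬ ∀ᶠ z in 𝓝 (0 : ℂ), Φ0 z = Φ0 0 := by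
    intro hcon
    have h1 : EqOn Φ0 (fun _ => Φ0 0) (ball 0 1) :=
      hΦan.eqOn_of_preconnected_of_eventuallyEq analyticOnNhd_const
        (convex_ball 0 1).isPreconnected h01 hcon
    obtain ⟨z, hz⟩ := IsAlgClosed.exists_pow_nat_eq (η / a') hm
    have hz1 : ‖z‖ ^ m = ‖η‖ := by rw [← norm_pow, hz, norm_div, ha1, div_one]
    have hz2 : z ∈ ball (0 : ℂ) 1 := by
      rw [mem_ball_zero_iff] at hη ⊢
      by_contra h
      have h3 : 1 ≤ ‖z‖ ^ m := one_le_pow₀ (not_lt.1 h)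
      rw [hz1] at h3
      linarith
    have h2 := h1 hz2
    simp only at h2
    rw [hΦ0, hz, hΦ00, mul_div_cancel₀ _ ha0] at h2
    exact hYη h2
  have hΦder : ∀ᶠ z in 𝓝[≠] (0 : ℂ), deriv Φ0 z ≠ 0 := by
    have h1 : AnalyticAt ℂ (deriv Φ0) 0 := (hΦan 0 h01).deriv
    rcases h1.eventually_eq_zero_or_eventually_ne_zero with h2 | h2
    · exfalso
      apply hΦn
      obtain ⟨ε, hε, hb'⟩ := Metric.eventually_nhds_iff_ball.1
        (h2.and (isOpen_ball.mem_nhds h01))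
      have h3 : ∀ z ∈ ball (0 : ℂ) ε, Φ0 z = Φ0 0 := by
        intro z hz
        refine (isOpen_ball (x := (0 : ℂ)) (ε := ε)).is_const_of_deriv_eq_zero
          (convex_ball (0 : ℂ) ε).isPreconnected ?_ ?_ hz (mem_ball_self hε)
        · intro w hw
          exact ((hΦd w (hb' w hw).2).differentiableAt
            (isOpen_ball.mem_nhds (hb' w hw).2)).differentiableWithinAt
        · intro w hw
          exact (hb' w hw).1
      exact eventually_of_mem (ball_mem_nhds 0 hε) h3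
    · exact h2
  have hΦopen : 𝓝 (Φ0 0) ≤ map Φ0 (𝓝 0) :=
    (hΦan 0 h01).eventually_constant_or_nhds_le_map_nhds.resolve_left hΦn
  -- the orbit
  have hxorb : ∀ k, (Rf v0)^[k] (x : OnePoint ℂ) = ((it v0 k x : ℂ) : OnePoint ℂ) := fun k =>
    rat_it fun i _ => hx.1 i
  have hinjx : ∀ k l, it v0 k x = it v0 l x → k = l := by
    intro k l hkl
    have h1 : it v0 (k + 1) c = it v0 (l + 1) c := by
      rw [it_add, it_add, ← hxe]
      exact hkl
    have h2 := hinj h1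
    omega
  have hj0 : ∀ᶠ j in atTop, ((it v0 (n j) x : ℂ) : OnePoint ℂ) = ch σ (h j 0) := by
    filter_upwards [hRf'] with j hj
    have h1 := hj 0 h01
    rw [mul_zero, add_zero, hxorb] at h1
    exact h1
  have hlim0 : Tendsto (fun j => h j 0) atTop (𝓝 (Φ0 0)) := by
    rw [hΦ00]
    have h1 := hhlim 0 (mem_ball_self (by norm_num))
    have h2 : Tendsto (fun j : ℕ => ((j, (0 : ℂ)) : ℕ × ℂ)) atTop (atTop ×ˢ 𝓝 (0 : ℂ)) :=
      tendsto_id.prodMk tendsto_const_nhds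
    exact h1.comp h2
  have hne0 : ∀ᶠ j in atTop, h j 0 ≠ Φ0 0 := by
    by_cases hex : ∃ k, ((it v0 k x : ℂ) : OnePoint ℂ) = ch σ (Φ0 0)
    · obtain ⟨k, hk⟩ := hex
      filter_upwards [hj0, hn.eventually_gt_atTop k] with j hj1 hj2 hj3
      rw [hj3, ← hk, OnePoint.coe_eq_coe] at hj1
      have := hinjx _ _ hj1
      omega
    · filter_upwards [hj0] with j hj1 hj2
      rw [hj2] at hj1
      exact hex ⟨_, hj1⟩
  -- the punctured neighbourhood without critical points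
  obtain ⟨r1, hr1, hr1b⟩ : ∃ r1 > 0, ∀ z ∈ ball (0 : ℂ) r1, z ≠ 0 → deriv Φ0 z ≠ 0 := by
    rw [eventually_nhdsWithin_iff] at hΦder
    obtain ⟨ε, hε, hb'⟩ := Metric.eventually_nhds_iff_ball.1 hΦder
    exact ⟨ε, hε, fun z hz hz0 => hb' z hz hz0⟩
  have himg : Φ0 '' ball (0 : ℂ) (min r1 (3 / 4)) ∈ 𝓝 (Φ0 0) :=
    hΦopen (image_mem_map (ball_mem_nhds 0 (lt_min hr1 (by norm_num))))
  rw [Filter.frequently_atTop]
  intro n0
  have hev := ((hj0.and hne0).and (hlim0.eventually himg)).and (hn.eventually_ge_atTop n0)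
  obtain ⟨j0, ⟨⟨hj01, hj02⟩, hj03⟩, hj04⟩ := hev.exists
  obtain ⟨ζ, hζb, hζ⟩ := hj03
  have hζ1 : ‖ζ‖ < r1 := (mem_ball_zero_iff.1 hζb).trans_le (min_le_left _ _)
  have hζ2 : ζ ∈ ball (0 : ℂ) (3 / 4) := ball_subset_ball (min_le_right _ _) hζb
  have hζ0 : ζ ≠ 0 := by
    rintro rfl
    exact hj02 hζ.symm
  have hζd : deriv Φ0 ζ ≠ 0 := hr1b ζ (mem_ball_zero_iff.2 hζ1) hζ0
  obtain ⟨hs1, hs2⟩ := pblo_ch hj01.symm
  rw [← hζ] at hs1 hs2
  have hb34 : ball (0 : ℂ) (3 / 4) ⊆ ball 0 1 := ball_subset_ball (by norm_num)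
  -- the local picture
  obtain ⟨A, hAA⟩ : ∃ A : ℕ → ℂ → ℂ, ∀ j z, A j z = z ^ m * G ((δ j : ℂ) * z) / ‖a‖ :=
    ⟨_, fun _ _ => rfl⟩
  have hprod : ∀ z0 : ℂ, Tendsto (fun w : ℕ × ℂ => (δ w.1 : ℂ) * w.2) (atTop ×ˢ 𝓝 z0) (𝓝 0) := by
    intro z0
    have h1 : Tendsto (fun w : ℕ × ℂ => (δ w.1 : ℂ)) (atTop ×ˢ 𝓝 z0) (𝓝 ((0 : ℝ) : ℂ)) :=
      (Complex.continuous_ofReal.tendsto 0).comp (hδ0.comp tendsto_fst)
    have h2 := h1.mul (tendsto_snd (f := (atTop : Filter ℕ)) (g := 𝓝 z0))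
    rw [Complex.ofReal_zero, zero_mul] at h2
    exact h2
  have hA : ∀ z0 : ℂ, Tendsto (fun w : ℕ × ℂ => A w.1 w.2) (atTop ×ˢ 𝓝 z0)
      (𝓝 (a' * z0 ^ m)) := by
    intro z0
    have h1 : Tendsto (fun w : ℕ × ℂ => G ((δ w.1 : ℂ) * w.2)) (atTop ×ˢ 𝓝 z0) (𝓝 a) := by
      rw [ha]
      exact hGa.continuousAt.tendsto.comp (hprod z0)
    have h2 : Tendsto (fun w : ℕ × ℂ => w.2 ^ m) (atTop ×ˢ 𝓝 z0) (𝓝 (z0 ^ m)) :=
      tendsto_snd.pow m
    have h3 := (h2.mul h1).div_const (‖a‖ : ℂ)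
    have h4 : z0 ^ m * a / (‖a‖ : ℂ) = a' * z0 ^ m := by
      rw [ha']
      ring
    rw [h4] at h3
    exact h3.congr fun w => (hAA w.1 w.2).symm
  have hQ : ∀ z0 ∈ ball (0 : ℂ) (3 / 4),
      Tendsto (fun w : ℕ × ℂ => h w.1 (A w.1 w.2)) (atTop ×ˢ 𝓝 z0) (𝓝 (Φ0 z0)) := by
    intro z0 hz0
    rw [hΦ0]
    exact (hhlim _ (hmaps' z0 hz0)).comp (tendsto_fst.prodMk (hA z0))
  have hX : ∀ z0 ∈ ball (0 : ℂ) (3 / 4), (σ = true → Φ0 z0 ≠ 0) →
      Tendsto (fun w : ℕ × ℂ => XC σ (h w.1 (A w.1 w.2))) (atTop ×ˢ 𝓝 z0)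
        (𝓝 (XC σ (Φ0 z0))) := by
    intro z0 hz0 h0
    cases σ
    · simpa [XC] using hQ z0 hz0
    · have h1 := (hQ z0 hz0).inv₀ (h0 rfl)
      simpa [XC] using h1
  have hGd : ∀ᶠ u : ℂ in 𝓝 0, DifferentiableAt ℂ G u :=
    hGa.eventually_analyticAt.mono fun u hu => hu.differentiableAt
  have hev2 : ∀ᶠ w : ℕ × ℂ in atTop ×ˢ 𝓝 ζ, A w.1 w.2 ∈ ball (0 : ℂ) 1 ∧
      (DifferentiableAt ℂ G ((δ w.1 : ℂ) * w.2) ∧
      (it v0 1 (c + (δ w.1 : ℂ) * w.2) - x = ((δ w.1 : ℂ) * w.2 - 0) ^ m • G ((δ w.1 : ℂ) * w.2) ∧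
      ev v0.2 (c + (δ w.1 : ℂ) * w.2) ≠ 0)) ∧ (σ = true → h w.1 (A w.1 w.2) ≠ 0) := by
    have h1 := (hA ζ).eventually (isOpen_ball.mem_nhds (hmaps ζ (hb34 hζ2)))
    have h2 := (hprod ζ).eventually (hGd.and (hGe.and hdn))
    have h3 : ∀ᶠ w : ℕ × ℂ in atTop ×ˢ 𝓝 ζ, (σ = true → h w.1 (A w.1 w.2) ≠ 0) := by
      by_cases hσ : σ = true
      · filter_upwards [(hQ ζ hζ2).eventually_ne (hs2 hσ)] with w hw _
        exact hw
      · exact Eventually.of_forall fun w hw => absurd hw hσ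
    exact h1.and (h2.and h3)
  rw [Filter.eventually_prod_iff] at hev2
  obtain ⟨pa, hpa, pb, hpb, hab⟩ := hev2
  obtain ⟨J, hJ⟩ := Filter.eventually_atTop.1 (hpa.and hRf')
  have hΦc : ContinuousAt Φ0 ζ := (hΦan ζ (hb34 hζ2)).continuousAt
  have hnz : ∀ᶠ z in 𝓝 ζ, (σ = true → Φ0 z ≠ 0) := by
    by_cases hσ : σ = true
    · filter_upwards [hΦc.eventually_ne (hs2 hσ)] with w hw _
      exact hw
    · exact Eventually.of_forall fun w hw => absurd hw hσ
  obtain ⟨r', hr', hrb⟩ := Metric.eventually_nhds_iff_ball.1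
    ((hpb.and hnz).and (isOpen_ball.mem_nhds hζ2))
  obtain ⟨r, hr, hrr⟩ : ∃ r : ℝ, 0 < r ∧ r < r' := ⟨r' / 2, by positivity, by linarith⟩
  have hcb : closedBall ζ r ⊆ ball ζ r' := closedBall_subset_ball hrr
  have hbb : ball ζ r ⊆ ball ζ r' := ball_subset_ball hrr.le
  refine ⟨n j0 + 1, by omega, ζ, r, fun j => δ (j + J), fun j => n (j + J) + 1,
    fun j z => XC σ (h (j + J) (A (j + J) z)), fun z => XC σ (Φ0 z), hζ0, hr, ?_,
    fun j => hδp _, hδ0.comp (tendsto_add_atTop_nat J), ?_, ?_, ?_, ?_, ?_, ?_⟩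
  · intro z hz
    exact hb34 (hrb z (hbb hz)).2
  · refine pblo_xc (hΦd.mono fun z hz => hb34 (hrb z (hbb hz)).2) ?_
    intro hσ z hz
    exact (hrb z (hbb hz)).1.2 hσ
  · show XC σ (Φ0 ζ) = _
    rw [← hs1, it_add, ← hxe]
  · have h1 : HasDerivAt Φ0 (deriv Φ0 ζ) ζ :=
      (hΦan ζ (hb34 hζ2)).differentiableAt.hasDerivAt
    cases σ
    · have h2 : (fun z => XC false (Φ0 z)) = Φ0 := by
        funext z
        simp [XC]
      rw [h2]
      exact hζd
    · have h2 : (fun z => XC true (Φ0 z)) = fun z => (Φ0 z)⁻¹ := by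
        funext z
        simp [XC]
      rw [h2, (h1.fun_inv (hs2 rfl)).deriv]
      exact div_ne_zero (neg_ne_zero.2 hζd) (pow_ne_zero 2 (hs2 rfl))
  · intro j
    refine pblo_xc ?_ ?_
    · have h1 : DifferentiableOn ℂ (A (j + J)) (ball ζ r) := by
        intro z hz
        obtain ⟨-, ⟨h2, -⟩, -⟩ := hab (hJ (j + J) (Nat.le_add_left _ _)).1
          (hrb z (hbb hz)).1.1
        simp only at h2
        have h3 : DifferentiableAt ℂ (fun z : ℂ => z ^ m * G ((δ (j + J) : ℂ) * z) / ‖a‖) z := by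
          have h4 : DifferentiableAt ℂ (fun z : ℂ => G ((δ (j + J) : ℂ) * z)) z :=
            DifferentiableAt.comp z h2 (differentiableAt_id.const_mul _)
          exact ((differentiableAt_id.pow m).mul h4).div_const _
        exact (h3.congr_of_eventuallyEq
          (Eventually.of_forall fun w => hAA (j + J) w)).differentiableWithinAt
      exact (hhd (j + J)).comp h1 fun z hz =>
        (hab (hJ (j + J) (Nat.le_add_left _ _)).1 (hrb z (hbb hz)).1.1).1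
    · intro hσ z hz
      exact (hab (hJ (j + J) (Nat.le_add_left _ _)).1 (hrb z (hbb hz)).1.1).2.2 hσ
  · have h1 : TendstoUniformlyOn (fun j z => XC σ (h j (A j z))) (fun z => XC σ (Φ0 z)) atTop
        (closedBall ζ r) := by
      rw [← tendstoLocallyUniformlyOn_iff_tendstoUniformlyOn_of_compact
        (isCompact_closedBall ζ r), tendstoLocallyUniformlyOn_iff_forall_tendsto]
      intro z hz
      have h2 := hrb z (hcb hz)
      have h3 := hX z h2.2 h2.1.2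
      have h4 : ContinuousAt (fun z => XC σ (Φ0 z)) z := by
        have h5 : ContinuousAt Φ0 z := (hΦan z (hb34 h2.2)).continuousAt
        cases σ
        · simpa [XC] using h5
        · have h6 : ContinuousAt (fun z => (Φ0 z)⁻¹) z := h5.inv₀ (h2.1.2 rfl)
          simpa [XC] using h6
      have h5 : Tendsto (fun w : ℕ × ℂ => XC σ (Φ0 w.2)) (atTop ×ˢ 𝓝 z)
          (𝓝 (XC σ (Φ0 z))) := h4.tendsto.comp tendsto_snd
      exact ((h5.prodMk_nhds h3).mono_right (nhds_le_uniformity _)).mono_left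
        (Filter.prod_mono le_rfl nhdsWithin_le_nhds)
    intro u hu
    exact ((tendsto_add_atTop_nat J).eventually (h1 u hu)).mono fun j hj z hz =>
      hj z (ball_subset_closedBall hz)
  · intro j
    have hcp : {z : ℂ | c + (δ (j + J) : ℂ) * z ∈ {z : ℂ | ∃ j : ℕ,
        (Rf v0)^[j] (z : OnePoint ℂ) = OnePoint.infty}}.Countable := by
      refine (hcnt OnePoint.infty).preimage_of_injOn
        (f := fun z : ℂ => c + (δ (j + J) : ℂ) * z) ?_
      intro ζ _ ζ' _ h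
      have h1 : (δ (j + J) : ℂ) ≠ 0 := by exact_mod_cast (hδp (j + J)).ne'
      exact mul_left_cancel₀ h1 (add_left_cancel h)
    refine hcp.mono ?_
    rintro z ⟨hz, hz2⟩
    by_contra hcon
    apply hz2
    obtain ⟨h1, ⟨-, h2, h3⟩, h4⟩ := hab (hJ (j + J) (Nat.le_add_left _ _)).1
      (hrb z (hbb hz)).1.1
    simp only at h1 h2 h3 h4
    have hgg : ∀ i, (gg (pol v0.1) (pol v0.2))^[i] (c + (δ (j + J) : ℂ) * z) =
        it v0 i (c + (δ (j + J) : ℂ) * z) := by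
      intro i
      induction i with
      | zero => rfl
      | succ i ih =>
        rw [Function.iterate_succ_apply', ih]
        show (pol v0.1).eval _ / (pol v0.2).eval _ = _
        rw [pol_eval, pol_eval]
        rfl
    have hden : ∀ i, ev v0.2 (it v0 i (c + (δ (j + J) : ℂ) * z)) ≠ 0 := by
      intro i
      induction i using Nat.strong_induction_on with
      | _ i ih =>
        intro h5
        apply hcon
        refine ⟨i + 1, ?_⟩
        rw [Function.iterate_succ_apply', rat_it ih]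
        show rat (pol v0.1) (pol v0.2) _ = _
        rw [rat_coe]
        unfold pt
        rw [if_pos (by rw [pol_eval]; exact h5)]
    have hval : it v0 1 (c + (δ (j + J) : ℂ) * z) = x + (ρ (j + J) : ℂ) * A (j + J) z := by
      have h5 : ((δ (j + J) : ℂ)) ^ m = (ρ (j + J) : ℂ) / (‖a‖ : ℂ) := by
        rw [← Complex.ofReal_pow, hδm, Complex.ofReal_div]
      rw [sub_zero, mul_pow, h5, smul_eq_mul] at h2
      have h6 : it v0 1 (c + (δ (j + J) : ℂ) * z) =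
          x + (ρ (j + J) : ℂ) / (‖a‖ : ℂ) * z ^ m * G ((δ (j + J) : ℂ) * z) := by
        rw [← h2]
        ring
      rw [h6, hAA]
      ring
    refine ⟨fun i _ => by rw [hgg, pol_eval]; exact hden i, ?_⟩
    rw [hgg]
    have h7 := (hJ (j + J) (Nat.le_add_left _ _)).2 _ h1
    rw [← hval] at h7
    have h8 : (Rf v0)^[n (j + J)] ((it v0 1 (c + (δ (j + J) : ℂ) * z) : ℂ) : OnePoint ℂ) =
        ((it v0 (n (j + J) + 1) (c + (δ (j + J) : ℂ) * z) : ℂ) : OnePoint ℂ) := by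
      rw [← rat_it (j := 1) fun i _ => hden i, ← Function.iterate_add_apply,
        rat_it fun i _ => hden i]
    rw [h8] at h7
    exact (pblo_ch h7.symm).1.symm

end Pool.Agent.H91.CS
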