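import Pool.Agent.H91.CS.TBase

/-!
# Module TANG: directions (complex numbers)

PROOF. `u = t * ζ ^ l / v ^ 2 ≠ 0`. The function `(z, x, D) ↦ x / D ^ 2` restricted to `x` close to `t * z ^ l` is continuous: by continuity of `(z, y, D) ↦ (t * z ^ l + y) / D ^ 2` at `(ζ, 0, v)` there is `ε > 0` (`ε < 1`) with `‖x / D ^ 2 - u‖ ≤ ‖u‖ / 4`, `x ≠ 0` and `D ≠ 0`
whenever the three inequalities hold (`Metric.eventually_nhds_iff` for the product, or explicit estimates). Then `w = μ * (x / D ^ 2) = μ * (u + e)`, `‖e‖ ≤ ‖u‖ / 4`: `(w * conj u).re ≥ μ * (3 / 4) * ‖u‖ ^ 2` and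
`‖w‖ * ‖u‖ / 2 ≤ μ * (5 / 8) * ‖u‖ ^ 2`.
-/

set_option autoImplicit false

open Filter Topology Polynomial Metric Set MeasureTheory

namespace Pool.Agent.H91.CS

open Pool.Agent.H44.Fatou Pool.Agent.H61.TT Pool.Agent.H35.EX Pool.Agent.H91.CE

theorem cone_alg {t ζ v : ℂ} (l : ℕ) (ht : t ≠ 0) (hζ : ζ ≠ 0) (hv : v ≠ 0) :
    ∃ ε : ℝ, 0 < ε ∧ ∀ z x D : ℂ, ‖z - ζ‖ ≤ ε → ‖x - t * z ^ l‖ ≤ ε → ‖D - v‖ ≤ ε * ‖v‖ →
      x ≠ 0 ∧ D ≠ 0 ∧ ∀ (w : ℂ) (μ : ℝ), 0 ≤ μ → w * D ^ 2 = μ * x →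
        ‖w‖ * ‖t * ζ ^ l / v ^ 2‖ / 2 ≤ (w * (starRingEnd ℂ) (t * ζ ^ l / v ^ 2)).re := by
  set u : ℂ := t * ζ ^ l / v ^ 2 with hu
  have hnum : t * ζ ^ l ≠ 0 := mul_ne_zero ht (pow_ne_zero _ hζ)
  have hu0 : u ≠ 0 := div_ne_zero hnum (pow_ne_zero _ hv)
  have hupos : 0 < ‖u‖ := norm_pos_iff.2 hu0
  have hcont : ContinuousAt (fun p : ℂ × ℂ × ℂ => (t * p.1 ^ l + p.2.1) / p.2.2 ^ 2) (ζ, 0, v) := by
    apply ContinuousAt.div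
    · fun_prop
    · fun_prop
    · exact pow_ne_zero _ hv
  have hcont2 : ContinuousAt (fun p : ℂ × ℂ × ℂ => t * p.1 ^ l + p.2.1) (ζ, 0, v) := by fun_prop
  have hcont3 : ContinuousAt (fun p : ℂ × ℂ × ℂ => p.2.2) (ζ, 0, v) := by fun_prop
  have e1 : ∀ᶠ p : ℂ × ℂ × ℂ in 𝓝 (ζ, 0, v),
      ‖(t * p.1 ^ l + p.2.1) / p.2.2 ^ 2 - u‖ < ‖u‖ / 4 := by
    have h1 : ContinuousAt (fun p : ℂ × ℂ × ℂ => ‖(t * p.1 ^ l + p.2.1) / p.2.2 ^ 2 - u‖)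
        (ζ, 0, v) := (hcont.sub continuousAt_const).norm
    refine h1.eventually_lt continuousAt_const ?_
    simp only [add_zero]
    rw [hu, sub_self, norm_zero]
    rw [← hu]
    positivity
  have e2 : ∀ᶠ p : ℂ × ℂ × ℂ in 𝓝 (ζ, 0, v), t * p.1 ^ l + p.2.1 ≠ 0 :=
    hcont2.eventually_ne (by simpa using hnum)
  have e3 : ∀ᶠ p : ℂ × ℂ × ℂ in 𝓝 (ζ, 0, v), p.2.2 ≠ 0 := hcont3.eventually_ne hv
  obtain ⟨δ, hδ, hball⟩ := Metric.eventually_nhds_iff.1 (e1.and (e2.and e3))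
  have hvn : 0 ≤ ‖v‖ := norm_nonneg v
  refine ⟨δ / (2 * (1 + ‖v‖)), by positivity, fun z x D hz hx hD => ?_⟩
  have hε1 : δ / (2 * (1 + ‖v‖)) < δ := by
    rw [div_lt_iff₀ (by positivity)]
    nlinarith
  have hε2 : δ / (2 * (1 + ‖v‖)) * ‖v‖ < δ := by
    rw [div_mul_eq_mul_div, div_lt_iff₀ (by positivity)]
    nlinarith
  have hd : dist (z, x - t * z ^ l, D) (ζ, 0, v) < δ := by
    rw [Prod.dist_eq, Prod.dist_eq, max_lt_iff, max_lt_iff]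
    refine ⟨?_, ?_, ?_⟩
    · rw [dist_eq_norm]; exact hz.trans_lt hε1
    · rw [dist_eq_norm, sub_zero]; exact hx.trans_lt hε1
    · rw [dist_eq_norm]; exact hD.trans_lt hε2
  obtain ⟨h1, h2, h3⟩ := hball hd
  simp only [add_sub_cancel] at h1 h2 h3
  refine ⟨h2, h3, fun w μ hμ hw => ?_⟩
  have hw' : w = μ * (x / D ^ 2) := by
    have hD2 : D ^ 2 ≠ 0 := pow_ne_zero _ h3
    field_simp
    exact hw
  obtain ⟨e, he⟩ : ∃ e, e = x / D ^ 2 - u := ⟨_, rfl⟩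
  have he1 : ‖e‖ ≤ ‖u‖ / 4 := by rw [he]; exact h1.le
  have hx' : x / D ^ 2 = u + e := by rw [he]; ring
  rw [hw', hx']
  have h4 : ((μ : ℂ) * (u + e) * (starRingEnd ℂ) u).re =
      μ * (‖u‖ ^ 2 + (e * (starRingEnd ℂ) u).re) := by
    have h5 : (μ : ℂ) * (u + e) * (starRingEnd ℂ) u =
        (μ : ℂ) * (u * (starRingEnd ℂ) u + e * (starRingEnd ℂ) u) := by ring
    rw [h5, Complex.re_ofReal_mul, Complex.add_re, Complex.mul_conj, Complex.ofReal_re,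
      Complex.normSq_eq_norm_sq]
  have h6 : |(e * (starRingEnd ℂ) u).re| ≤ ‖e‖ * ‖u‖ := by
    refine (Complex.abs_re_le_norm _).trans ?_
    rw [norm_mul, RCLike.norm_conj]
  have h7 : -(‖e‖ * ‖u‖) ≤ (e * (starRingEnd ℂ) u).re := (abs_le.1 h6).1
  have h8 : ‖(μ : ℂ) * (u + e)‖ ≤ μ * (5 / 4 * ‖u‖) := by
    rw [norm_mul, Complex.norm_real, Real.norm_of_nonneg hμ]
    refine mul_le_mul_of_nonneg_left ?_ hμ
    have := norm_add_le u e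
    linarith
  rw [h4]
  have h9 : ‖(μ : ℂ) * (u + e)‖ * ‖u‖ ≤ μ * (5 / 4 * ‖u‖) * ‖u‖ :=
    mul_le_mul_of_nonneg_right h8 hupos.le
  have h10 : ‖e‖ * ‖u‖ ≤ ‖u‖ / 4 * ‖u‖ := mul_le_mul_of_nonneg_right he1 hupos.le
  have h11 : μ * (3 / 4 * ‖u‖ ^ 2) ≤ μ * (‖u‖ ^ 2 + (e * (starRingEnd ℂ) u).re) := by
    refine mul_le_mul_of_nonneg_left ?_ hμ
    nlinarith
  nlinarith [mul_nonneg hμ (sq_nonneg ‖u‖)]

end Pool.Agent.H91.CS
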