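import Pool.Agent.H91.CS.TBase

/-!
# Module TDER: derivatives of the iterates

PROOF. `dn_hasDerivAt`: induction on `N` (`Function.iterate_succ_apply'`, `Finset.prod_range_succ`, `hasDerivAt_gg` of H61/TT/Fib, chain rule). `fi_eventually`: induction, continuity of `gg a b` iterates at `y` (`dn_hasDerivAt`) and of `b.eval`.
`blow_deriv`: let `V = {z ∈ ball ζ r | Fi a b N (c + δ * z)}`, open by `fi_eventually`. On `V` both `Φ` and `G z = (gg a b)^[N] (c + δ * z)` are continuous and they agree off a countable set; the complement of a countable set is dense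
(`Set.Countable.dense_compl ℂ`, or `ℝ`), so they agree on `V` (if they differ at a point they differ on a ball). `V` is a neighbourhood of `z`, so `deriv Φ z = deriv G z = δ * dn a b N (c + δ * z)` (`Filter.EventuallyEq.deriv_eq`, chain rule).
-/

set_option autoImplicit false

open Filter Topology Polynomial Metric Set MeasureTheory

namespace Pool.Agent.H91.CS

open Pool.Agent.H44.Fatou Pool.Agent.H61.TT Pool.Agent.H35.EX Pool.Agent.H91.CE

theorem dn_hasDerivAt {a b : Polynomial ℂ} {N : ℕ} {y : ℂ} (hy : Fi a b N y) :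
    HasDerivAt (gg a b)^[N] (dn a b N y) y := by
  induction N with
  | zero => simpa [dn, Fi] using hasDerivAt_id y
  | succ N ih =>
    have h1 := ih (fun i hi => hy i (by omega))
    have h2 := (hasDerivAt_gg (a := a) (hy N (by omega))).comp y h1
    rw [Function.iterate_succ']
    have h3 : dn a b (N + 1) y = dg a b ((gg a b)^[N] y) * dn a b N y := by
      unfold dn
      rw [Finset.prod_range_succ, mul_comm]
    rw [h3]
    exact h2

theorem fi_eventually {a b : Polynomial ℂ} {N : ℕ} {y : ℂ} (hy : Fi a b N y) :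
    ∀ᶠ y' in 𝓝 y, Fi a b N y' := by
  have h : ∀ i ∈ Finset.range N, ∀ᶠ y' in 𝓝 y, b.eval ((gg a b)^[i] y') ≠ 0 := by
    intro i hi
    rw [Finset.mem_range] at hi
    have hc : ContinuousAt (fun y' => b.eval ((gg a b)^[i] y')) y := by
      have h1 : ContinuousAt (gg a b)^[i] y :=
        (dn_hasDerivAt (fun j hj => hy j (by omega))).continuousAt
      exact ContinuousAt.comp (g := fun z => b.eval z) b.continuous.continuousAt h1
    exact hc.eventually_ne (hy i hi)
  have := (Filter.eventually_all_finset _).2 h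
  filter_upwards [this] with y' h' i hi
  exact h' i (Finset.mem_range.2 hi)

theorem blow_deriv {a b : Polynomial ℂ} {c ζ : ℂ} {r δ : ℝ} {N : ℕ} {Φ : ℂ → ℂ}
    (hΦ : DifferentiableOn ℂ Φ (ball ζ r))
    (hc : {z ∈ ball ζ r | ¬ (Fi a b N (c + δ * z) ∧
      Φ z = (gg a b)^[N] (c + δ * z))}.Countable) {z : ℂ} (hz : z ∈ ball ζ r)
    (h1 : Fi a b N (c + δ * z)) : deriv Φ z = δ * dn a b N (c + δ * z) := by
  have hG : ∀ w : ℂ, Fi a b N (c + δ * w) →
      HasDerivAt (fun w : ℂ => (gg a b)^[N] (c + δ * w)) (δ * dn a b N (c + δ * w)) w := by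
    intro w hw
    have h2 : HasDerivAt (fun w : ℂ => c + δ * w) (δ : ℂ) w := by
      simpa using ((hasDerivAt_id w).const_mul (δ : ℂ)).const_add c
    have h3 := (dn_hasDerivAt hw).comp w h2
    rw [mul_comm] at h3
    exact h3
  have hcont : ContinuousAt (fun w : ℂ => c + δ * w) z := by fun_prop
  have hev : ∀ᶠ w in 𝓝 z, Fi a b N (c + δ * w) ∧ w ∈ ball ζ r :=
    (hcont.eventually (fi_eventually h1)).and (isOpen_ball.mem_nhds hz)
  have hev2 := hev.eventually_nhds
  have heq : Φ =ᶠ[𝓝 z] fun w => (gg a b)^[N] (c + δ * w) := by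
    filter_upwards [hev2] with w hw
    by_contra hne
    obtain ⟨hw1, hw2⟩ := hw.self_of_nhds
    have hc1 : ContinuousAt Φ w := (hΦ.differentiableAt (isOpen_ball.mem_nhds hw2)).continuousAt
    have hc2 : ContinuousAt (fun w : ℂ => (gg a b)^[N] (c + δ * w)) w := (hG w hw1).continuousAt
    have hne' : ∀ᶠ u in 𝓝 w, Φ u ≠ (gg a b)^[N] (c + δ * u) := hc1.ne_iff_eventually_ne hc2 |>.1 hne
    have hall := hne'.and hw
    obtain ⟨U, hU, hUo, hwU⟩ := _root_.eventually_nhds_iff.1 hall
    have hd : Dense ({z ∈ ball ζ r | ¬ (Fi a b N (c + δ * z) ∧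
      Φ z = (gg a b)^[N] (c + δ * z))}ᶜ) := hc.dense_compl ℂ
    obtain ⟨u, hu1, hu2⟩ := hd.inter_open_nonempty U hUo ⟨w, hwU⟩
    obtain ⟨h5, h6, h7⟩ := hU u hu1
    exact hu2 ⟨h7, fun h8 => h5 h8.2⟩
  rw [heq.deriv_eq]
  exact (hG z h1).deriv

end Pool.Agent.H91.CS
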