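import Pool.Agent.H91.CS.TBase

/-!
# Module TIMG: area of the image

PROOF. `addHaar_image_le_lintegral_abs_det_fderiv` with the real derivative of `Φ` at the points of `Z` (`HasDerivAt.hasFDerivAt.restrictScalars ℝ`), its determinant is `‖deriv Φ z‖ ^ 2` (`abs_det_smulRight`, H61/TT/Area; see `area_piece` there), `≤ M ^ 2`; `setLIntegral_mono`,
`setLIntegral_const`.
-/

set_option autoImplicit false

open Filter Topology Polynomial Metric Set MeasureTheory

namespace Pool.Agent.H91.CS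

open Pool.Agent.H44.Fatou Pool.Agent.H61.TT Pool.Agent.H35.EX Pool.Agent.H91.CE

theorem image_le {Φ : ℂ → ℂ} {ζ : ℂ} {r M : ℝ} (hΦ : DifferentiableOn ℂ Φ (ball ζ r))
    (hM : ∀ z ∈ ball ζ r, ‖deriv Φ z‖ ≤ M) {Z : Set ℂ} (hZ : MeasurableSet Z)
    (hZ' : Z ⊆ ball ζ r) : volume (Φ '' Z) ≤ ENNReal.ofReal (M ^ 2) * volume Z := by
  have hd : ∀ z ∈ Z, HasFDerivWithinAt Φ
      ((ContinuousLinearMap.smulRight (1 : ℂ →L[ℂ] ℂ) (deriv Φ z)).restrictScalars ℝ) Z z := by
    intro z hz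
    have h1 : HasDerivAt Φ (deriv Φ z) z :=
      ((hΦ z (hZ' hz)).differentiableAt (isOpen_ball.mem_nhds (hZ' hz))).hasDerivAt
    exact (h1.hasFDerivAt.restrictScalars ℝ).hasFDerivWithinAt
  refine (addHaar_image_le_lintegral_abs_det_fderiv volume hZ hd).trans ?_
  rw [← setLIntegral_const]
  refine setLIntegral_mono measurable_const ?_
  intro z hz
  rw [abs_det_smulRight]
  exact ENNReal.ofReal_le_ofReal (pow_le_pow_left₀ (norm_nonneg _) (hM z (hZ' hz)) 2)

end Pool.Agent.H91.CS
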