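import Pool.Agent.H91.CS.TBase

/-!
# Module TMK: the rescaled function is close to its leading term off a small set

PROOF. Markov (`mul_meas_ge_le_lintegral`, the function is measurable): `ofReal ε * volume {..} ≤ ∫⁻ z in ball 0 1, ‖q (c + δ z) / δ ^ l - t * z ^ l‖ₑ` and with `x = c + δ z` (scaling and translation of Lebesgue measure on `ℂ`, real dimension `2`:
`lintegral_comp_smul`-type lemma or `Measure.map` of `fun z => c + δ * z`, `Measure.addHaar_smul`; or `lintegral_image_eq_lintegral_abs_det_fderiv_mul` for the map `z ↦ c + δ z` of `ball 0 1` onto `ball c δ`) this is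
`(δ ^ 2)⁻¹ * (δ ^ l)⁻¹ * ∫⁻ x in ball c δ, ‖q x - t * (x - c) ^ l‖ₑ`, which tends to `0` by `hl.2` composed with `δ j → 0`, `δ j > 0`.
-/

set_option autoImplicit false

open Filter Topology Polynomial Metric Set MeasureTheory

namespace Pool.Agent.H91.CS

open Pool.Agent.H44.Fatou Pool.Agent.H61.TT Pool.Agent.H35.EX Pool.Agent.H91.CE

/-- scaling of Lebesgue measure on the plane -/
private theorem tmk_scale (F : ℂ → ENNReal) (hF : Measurable F) (c : ℂ) {δ : ℝ} (hδ : 0 < δ) :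
    ENNReal.ofReal (δ ^ 2) * ∫⁻ z in ball (0 : ℂ) 1, F (c + δ * z) = ∫⁻ x in ball c δ, F x := by
  have hder : ∀ z ∈ ball (0 : ℂ) 1, HasFDerivWithinAt (fun z : ℂ => c + δ * z)
      (δ • ContinuousLinearMap.id ℝ ℂ) (ball 0 1) z := by
    intro z _
    have h1 : HasFDerivAt (fun z : ℂ => c + δ • z) (δ • ContinuousLinearMap.id ℝ ℂ) z :=
      ((hasFDerivAt_id z).const_smul δ).const_add c
    have h2 : (fun z : ℂ => c + δ * z) = fun z : ℂ => c + δ • z := by
      funext z
      rw [Complex.real_smul]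
    rw [h2]
    exact h1.hasFDerivWithinAt
  have hinj : InjOn (fun z : ℂ => c + δ * z) (ball 0 1) := by
    intro z _ w _ hzw
    have h3 : (δ : ℂ) * z = δ * w := add_left_cancel hzw
    exact mul_left_cancel₀ (by exact_mod_cast hδ.ne') h3
  have h4 := lintegral_image_eq_lintegral_abs_det_fderiv_mul volume measurableSet_ball hder hinj F
  have himg : (fun z : ℂ => c + δ * z) '' ball 0 1 = ball c δ := by
    ext x
    simp only [mem_image, mem_ball_iff_norm, sub_zero]
    constructor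
    · rintro ⟨z, hz, rfl⟩
      rw [add_sub_cancel_left, norm_mul, Complex.norm_real, Real.norm_eq_abs, abs_of_pos hδ]
      nlinarith
    · intro hx
      refine ⟨(x - c) / δ, ?_, ?_⟩
      · rw [norm_div, Complex.norm_real, Real.norm_eq_abs, abs_of_pos hδ, div_lt_one hδ]
        exact hx
      · have : (δ : ℂ) ≠ 0 := by exact_mod_cast hδ.ne'
        field_simp
        ring
  have hdet : |(δ • ContinuousLinearMap.id ℝ ℂ : ℂ →L[ℝ] ℂ).det| = δ ^ 2 := by
    have h5 : (δ • ContinuousLinearMap.id ℝ ℂ : ℂ →L[ℝ] ℂ).det =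
        LinearMap.det (δ • (LinearMap.id : ℂ →ₗ[ℝ] ℂ)) := rfl
    rw [h5, LinearMap.det_smul, LinearMap.det_id, mul_one, Complex.finrank_real_complex,
      abs_of_nonneg (by positivity)]
  rw [himg] at h4
  rw [h4, hdet, lintegral_const_mul' _ _ ENNReal.ofReal_ne_top]

theorem lead_bad {q : ℂ → ℂ} (hq : Measurable q) {c t : ℂ} {l : ℕ} (hl : Lead q c l t)
    {δ : ℕ → ℝ} (hδ0 : ∀ j, 0 < δ j) (hδ : Tendsto δ atTop (𝓝 0)) {ε : ℝ} (hε : 0 < ε) :
    Tendsto (fun j => volume {z ∈ ball (0 : ℂ) 1 |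
      ε ≤ ‖q (c + δ j * z) / (δ j : ℂ) ^ l - t * z ^ l‖}) atTop (𝓝 0) := by
  have hG : Measurable fun x : ℂ => ‖q x - t * (x - c) ^ l‖ₑ :=
    (hq.sub ((measurable_const.mul ((measurable_id.sub_const c).pow_const l)))).enorm
  have hbound : ∀ j, volume {z ∈ ball (0 : ℂ) 1 |
      ε ≤ ‖q (c + δ j * z) / (δ j : ℂ) ^ l - t * z ^ l‖} ≤
      (ENNReal.ofReal ε)⁻¹ * ((∫⁻ x in ball c (δ j), ‖q x - t * (x - c) ^ l‖ₑ) /
        ENNReal.ofReal (δ j ^ (l + 2))) := by
    intro j
    have hδj := hδ0 j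
    have hδc : (δ j : ℂ) ≠ 0 := by exact_mod_cast hδj.ne'
    have hm : Measurable fun z : ℂ => ‖q (c + δ j * z) / (δ j : ℂ) ^ l - t * z ^ l‖ₑ := by
      have h1 : Measurable fun z : ℂ => q (c + δ j * z) :=
        hq.comp (measurable_const.add (measurable_const.mul measurable_id))
      exact ((h1.div_const _).sub (measurable_const.mul (measurable_id.pow_const l))).enorm
    have hmk := mul_meas_ge_le_lintegral (μ := volume.restrict (ball (0 : ℂ) 1)) hm
      (ENNReal.ofReal ε)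
    have hset : {z ∈ ball (0 : ℂ) 1 | ε ≤ ‖q (c + δ j * z) / (δ j : ℂ) ^ l - t * z ^ l‖} =
        {z | ENNReal.ofReal ε ≤ ‖q (c + δ j * z) / (δ j : ℂ) ^ l - t * z ^ l‖ₑ} ∩
          ball (0 : ℂ) 1 := by
      ext z
      simp only [mem_setOf_eq, mem_inter_iff]
      rw [← ofReal_norm, ENNReal.ofReal_le_ofReal_iff (norm_nonneg _), and_comm]
    have hint : ∫⁻ z in ball (0 : ℂ) 1, ‖q (c + δ j * z) / (δ j : ℂ) ^ l - t * z ^ l‖ₑ =
        (∫⁻ x in ball c (δ j), ‖q x - t * (x - c) ^ l‖ₑ) / ENNReal.ofReal (δ j ^ (l + 2)) := by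
      rw [← tmk_scale _ hG c hδj]
      have h2 : ∀ z : ℂ, ‖q (c + δ j * z) / (δ j : ℂ) ^ l - t * z ^ l‖ₑ =
          ENNReal.ofReal ((δ j ^ l)⁻¹) * ‖q (c + δ j * z) - t * (c + δ j * z - c) ^ l‖ₑ := by
        intro z
        have h3 : q (c + δ j * z) / (δ j : ℂ) ^ l - t * z ^ l =
            ((δ j : ℂ) ^ l)⁻¹ * (q (c + δ j * z) - t * (c + δ j * z - c) ^ l) := by
          rw [add_sub_cancel_left, mul_pow]
          field_simp
        rw [h3, ← ofReal_norm, ← ofReal_norm, norm_mul, norm_inv, norm_pow, Complex.norm_real,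
          Real.norm_eq_abs, abs_of_pos hδj, ENNReal.ofReal_mul (by positivity)]
      simp_rw [h2]
      rw [lintegral_const_mul' _ _ ENNReal.ofReal_ne_top]
      have h4 : ENNReal.ofReal (δ j ^ (l + 2)) =
          ENNReal.ofReal (δ j ^ l) * ENNReal.ofReal (δ j ^ 2) := by
        rw [← ENNReal.ofReal_mul (by positivity), pow_add]
      have h5 : ENNReal.ofReal (δ j ^ 2) ≠ 0 := by
        rw [Ne, ENNReal.ofReal_eq_zero, not_le]
        positivity
      have h6 : ENNReal.ofReal (δ j ^ l) ≠ 0 := by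
        rw [Ne, ENNReal.ofReal_eq_zero, not_le]
        positivity
      rw [h4, mul_comm (ENNReal.ofReal (δ j ^ l)), ENNReal.mul_div_mul_left _ _ h5
        ENNReal.ofReal_ne_top, ENNReal.ofReal_inv_of_pos (by positivity), div_eq_mul_inv, mul_comm]
    rw [Measure.restrict_apply' measurableSet_ball, ← hset, hint] at hmk
    have hε0 : ENNReal.ofReal ε ≠ 0 := by
      rw [Ne, ENNReal.ofReal_eq_zero, not_le]
      exact hε
    calc volume {z ∈ ball (0 : ℂ) 1 | ε ≤ ‖q (c + δ j * z) / (δ j : ℂ) ^ l - t * z ^ l‖}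
        = (ENNReal.ofReal ε)⁻¹ * (ENNReal.ofReal ε * volume {z ∈ ball (0 : ℂ) 1 |
            ε ≤ ‖q (c + δ j * z) / (δ j : ℂ) ^ l - t * z ^ l‖}) := by
          rw [← mul_assoc, ENNReal.inv_mul_cancel hε0 ENNReal.ofReal_ne_top, one_mul]
      _ ≤ _ := mul_le_mul_right hmk _
  have hδ' : Tendsto δ atTop (𝓝[>] 0) :=
    tendsto_nhdsWithin_iff.2 ⟨hδ, Eventually.of_forall hδ0⟩
  have hlim := ENNReal.Tendsto.const_mul (a := (ENNReal.ofReal ε)⁻¹) (hl.2.comp hδ')
    (Or.inr (by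
      rw [Ne, ENNReal.inv_eq_top, ENNReal.ofReal_eq_zero, not_le]
      exact hε))
  rw [mul_zero] at hlim
  exact tendsto_of_tendsto_of_tendsto_of_le_of_le tendsto_const_nhds hlim
    (fun _ => bot_le) hbound

end Pool.Agent.H91.CS
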