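import Pool.Agent.H91.CS.TSUR
import Pool.Agent.H91.CS.TDER
import Pool.Agent.H91.CS.TANG
import Pool.Agent.H91.CS.TMK
import Pool.Agent.H91.CS.TIMG

/-!
# Module TDIR: the values near s are in a half plane

PROOF. From `Blow`: `ζ, r, δ, N, Φj, Φ`, `v = deriv Φ ζ`. `ε` from `cone_alg` with `t, ζ, v`; `r1, r2` from `blow_sur` with this `ε`; `u = t * ζ ^ l / v ^ 2`, radius `r2`. `Bad = {w ∈ ball s r2 | ¬ ‖q w‖ * ‖u‖ / 2 ≤ (q w * conj u).re}` is measurable. For large `j`: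
`Bad ⊆ Φj j '' Z j`, `Z j = {z ∈ ball ζ r1 | Φj j z ∈ Bad}` measurable (`Φj j` is continuous on the open ball), so by `image_le` (`M = (1 + ε) * ‖v‖`) `volume Bad ≤ ofReal (M ^ 2) * volume (Z j)`. For almost every `z ∈ ball ζ r1` (off a
countable set, and such that `y = c + δ j * z` is good for `hlf`: the map `z ↦ c + δ j * z` is nonsingular) we have `Fi a b (N j) y`, `Φj j z = (gg a b)^[N j] y`, `q y = l0 * dn a b (N j) y ^ 2 * q (Φj j z)`, `D = deriv (Φj j) z = δ j * dn a b (N j) y`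
(`blow_deriv`). If `‖q y / δ j ^ l - t * z ^ l‖ < ε` then `cone_alg` (with `x = q y / δ j ^ l`): `q y ≠ 0` so `l0 ≠ 0`, `w * D ^ 2 = μ * x` for `w = q (Φj j z)`, `μ = δ j ^ (l + 2) / l0`, and `Φj j z ∉ Bad`. So `Z j` is, up to a null set, contained in the
set of `lead_bad` (`ball ζ r1 ⊆ ball 0 1`), `volume (Z j) → 0`, so `volume Bad = 0` (`ge_of_tendsto`).
-/

set_option autoImplicit false

open Filter Topology Polynomial Metric Set MeasureTheory

namespace Pool.Agent.H91.CS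

open Pool.Agent.H44.Fatou Pool.Agent.H61.TT Pool.Agent.H35.EX Pool.Agent.H91.CE

private theorem tdir_null {S : Set ℂ} (hS : volume S = 0) (c : ℂ) {δ : ℝ} (hδ : δ ≠ 0) :
    volume {z : ℂ | c + δ * z ∈ S} = 0 := by
  have h1 : {z : ℂ | c + δ * z ∈ S} = (fun z : ℂ => δ • z) ⁻¹' ((fun z => c + z) ⁻¹' S) := by
    ext z
    simp only [mem_setOf_eq, mem_preimage, Complex.real_smul]
  rw [h1, Measure.addHaar_preimage_smul volume hδ, measure_preimage_add, hS, mul_zero]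

theorem cone_of_blow {a b : Polynomial ℂ} {q : ℂ → ℂ} (hq : Measurable q) (hlf : LF a b q)
    {c s t : ℂ} {l : ℕ} (hl : Lead q c l t) (hb : Blow a b c s) : Cone q s := by
  obtain ⟨ζ, r, δ, N, Φj, Φ, hζ, hr, hsub, hδ0, hδ, hΦ, hs, hd, hj, hu, hcount⟩ := hb
  obtain ⟨v, hv⟩ : ∃ v, v = deriv Φ ζ := ⟨_, rfl⟩
  obtain ⟨ε, hε, hang⟩ := cone_alg (t := t) (ζ := ζ) (v := v) l hl.1 hζ (by rwa [hv])
  obtain ⟨r1, r2, hr1, hr1ε, hr1r, hr2, hev⟩ := blow_sur hr hΦ hs hd hj hu hε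
  rw [← hv] at hev hd
  obtain ⟨u, hu'⟩ : ∃ u, u = t * ζ ^ l / v ^ 2 := ⟨_, rfl⟩
  rw [← hu'] at hang
  have hu0 : u ≠ 0 := by
    rw [hu']
    exact div_ne_zero (mul_ne_zero hl.1 (pow_ne_zero _ hζ)) (pow_ne_zero _ hd)
  refine ⟨u, r2, hu0, hr2, ?_⟩
  obtain ⟨Bad, hBad⟩ : ∃ Bad : Set ℂ, Bad = {w | w ∈ ball s r2 ∧
    ¬ ‖q w‖ * ‖u‖ / 2 ≤ (q w * (starRingEnd ℂ) u).re} := ⟨_, rfl⟩
  have hBadm : MeasurableSet Bad := by
    rw [hBad]
    refine measurableSet_ball.inter (MeasurableSet.compl ?_)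
    refine measurableSet_le ((hq.norm.mul_const _).div_const _) ?_
    exact Complex.measurable_re.comp (hq.mul_const _)
  have hkey : ∀ᶠ j in atTop, volume Bad ≤ ENNReal.ofReal (((1 + ε) * ‖v‖) ^ 2) *
      volume {z ∈ ball (0 : ℂ) 1 | ε ≤ ‖q (c + δ j * z) / (δ j : ℂ) ^ l - t * z ^ l‖} := by
    filter_upwards [hev] with j hjj
    obtain ⟨hj1, hj2⟩ := hjj
    obtain ⟨Z, hZ⟩ : ∃ Z : Set ℂ, Z = {z | z ∈ ball ζ r1 ∧ Φj j z ∈ Bad} := ⟨_, rfl⟩
    have hsub1 : ball ζ r1 ⊆ ball ζ r := ball_subset_ball hr1r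
    have hZm : MeasurableSet Z := by
      have h1 : ContinuousOn (Φj j) (ball ζ r1) := (hj j).continuousOn.mono hsub1
      obtain ⟨g, hg⟩ : ∃ g : ℂ → ℂ, g = (ball ζ r1).indicator (Φj j) := ⟨_, rfl⟩
      have h2 : Measurable g := by
        rw [hg]
        refine measurable_of_restrict_of_restrict_compl (s := ball ζ r1) measurableSet_ball ?_ ?_
        · have h3 : (ball ζ r1).domRestrict ((ball ζ r1).indicator (Φj j)) =
              (ball ζ r1).domRestrict (Φj j) := by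
            funext z
            simp [Set.domRestrict]
          rw [h3]
          exact (continuousOn_iff_continuous_restrict.1 h1).measurable
        · have h3 : (ball ζ r1)ᶜ.domRestrict ((ball ζ r1).indicator (Φj j)) = fun _ => 0 := by
            funext z
            have := z.2
            rw [Set.domRestrict_apply, indicator_of_notMem this]
          rw [h3]
          exact measurable_const
      have h4 : Z = ball ζ r1 ∩ g ⁻¹' Bad := by
        ext z
        rw [hZ, hg]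
        simp only [mem_setOf_eq, mem_inter_iff, mem_preimage]
        constructor
        · rintro ⟨h5, h6⟩
          exact ⟨h5, by rwa [indicator_of_mem h5]⟩
        · rintro ⟨h5, h6⟩
          exact ⟨h5, by rwa [indicator_of_mem h5] at h6⟩
      rw [h4]
      exact measurableSet_ball.inter (h2 hBadm)
    have hZs : Z ⊆ ball ζ r1 := by
      rw [hZ]
      exact fun z hz => hz.1
    have hBZ : Bad ⊆ Φj j '' Z := by
      intro w hw
      have hwb : w ∈ ball s r2 := by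
        rw [hBad] at hw
        exact hw.1
      obtain ⟨z, hz, hzw⟩ := hj1 hwb
      refine ⟨z, ?_, hzw⟩
      rw [hZ]
      exact ⟨hz, by rwa [hzw]⟩
    have hM : ∀ z ∈ ball ζ r1, ‖deriv (Φj j) z‖ ≤ (1 + ε) * ‖v‖ := by
      intro z hz
      have h1 := hj2 z hz
      calc ‖deriv (Φj j) z‖ = ‖(deriv (Φj j) z - v) + v‖ := by rw [sub_add_cancel]
        _ ≤ ‖deriv (Φj j) z - v‖ + ‖v‖ := norm_add_le _ _
        _ ≤ (1 + ε) * ‖v‖ := by linarith
    have h1 := image_le ((hj j).mono hsub1) hM hZm hZs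
    refine (measure_mono hBZ).trans (h1.trans ?_)
    refine mul_le_mul_right ?_ _
    refine measure_mono_ae ?_
    -- almost every point
    have hn1 : ∀ᵐ z : ℂ, c + δ j * z ∉ {y : ℂ | ¬ ∀ N : ℕ, Fi a b N y →
        ∃ l : ℝ, 0 ≤ l ∧ q y = l * dn a b N y ^ 2 * q ((gg a b)^[N] y)} := by
      exact measure_eq_zero_iff_ae_notMem.1 (tdir_null hlf c (hδ0 j).ne')
    have hn2 : ∀ᵐ z : ℂ, z ∉ {z ∈ ball ζ r | ¬ ((∀ i < N j,
        b.eval ((gg a b)^[i] (c + δ j * z)) ≠ 0) ∧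
        Φj j z = (gg a b)^[N j] (c + δ j * z))} :=
      measure_eq_zero_iff_ae_notMem.1 ((hcount j).measure_zero _)
    filter_upwards [hn1, hn2] with z hz1 hz2 hzZ
    have hzZ' : z ∈ ball ζ r1 ∧ Φj j z ∈ Bad := by
      have h5 : z ∈ Z := hzZ
      rw [hZ] at h5
      exact h5
    have hzr : z ∈ ball ζ r := hsub1 hzZ'.1
    show z ∈ ball (0 : ℂ) 1 ∧ ε ≤ ‖q (c + δ j * z) / (δ j : ℂ) ^ l - t * z ^ l‖
    refine ⟨hsub hzr, ?_⟩
    by_contra hlt
    push Not at hlt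
    obtain ⟨hfi, heq⟩ : (∀ i < N j, b.eval ((gg a b)^[i] (c + δ j * z)) ≠ 0) ∧
        Φj j z = (gg a b)^[N j] (c + δ j * z) := by
      by_contra hc
      exact hz2 ⟨hzr, hc⟩
    have hfi' : Fi a b (N j) (c + δ j * z) := hfi
    obtain ⟨l0, hl0, hl1⟩ : ∃ l : ℝ, 0 ≤ l ∧ q (c + δ j * z) =
        l * dn a b (N j) (c + δ j * z) ^ 2 * q ((gg a b)^[N j] (c + δ j * z)) := by
      by_contra hc
      exact hz1 fun hall => hc (hall (N j) hfi')
    have hder := blow_deriv (hj j) (hcount j) hzr hfi'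
    have hzε : ‖z - ζ‖ ≤ ε := by
      have := mem_ball_iff_norm.1 hzZ'.1
      linarith
    obtain ⟨hx0, hD0, hcone⟩ := hang z _ _ hzε hlt.le (hj2 z hzZ'.1)
    have hδc : (δ j : ℂ) ≠ 0 := by
      exact_mod_cast (hδ0 j).ne'
    have hqy : q (c + δ j * z) ≠ 0 := by
      intro h0
      apply hx0
      rw [h0, zero_div]
    have hl0' : (l0 : ℂ) ≠ 0 := by
      intro h0
      apply hqy
      rw [hl1, h0, zero_mul, zero_mul]
    rw [← heq] at hl1
    have h6 := hcone (q (Φj j z)) (δ j ^ 2 * δ j ^ l / l0) (by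
      have := hδ0 j
      positivity) (by
      rw [hder, hl1]
      push_cast
      field_simp)
    have h7 := hzZ'.2
    rw [hBad] at h7
    exact h7.2 h6
  have hlim := ENNReal.Tendsto.const_mul (a := ENNReal.ofReal (((1 + ε) * ‖v‖) ^ 2))
    (lead_bad hq hl hδ0 hδ hε) (Or.inr ENNReal.ofReal_ne_top)
  rw [mul_zero] at hlim
  have hzero : volume Bad = 0 := le_antisymm (ge_of_tendsto hlim hkey) bot_le
  have hae := measure_eq_zero_iff_ae_notMem.1 hzero
  filter_upwards [hae] with w hw hws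
  by_contra hcon
  apply hw
  rw [hBad]
  exact ⟨hws, hcon⟩

end Pool.Agent.H91.CS
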