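import Pool.Agent.H91.CS.TTAY

/-!
# Module TLEAD: leading term

PROOF. `lead_of`: let `l` be the least index `< m` with `tq β P c l ≠ 0` (`Nat.find`), `t = - tq β P c l`. `tsum_tq` gives the hypothesis `hs` for `l + 1`; `qs_taylor'` with `m := l + 1`; the sum over `Finset.range (l + 1)` is `tq β P c l * (x - c) ^ l`
(`Finset.sum_range_succ`, the other terms vanish). `lead_ne`: if `q = 0` almost everywhere then the integral is `‖t‖ * ∫⁻ x in ball c δ, ‖x - c‖ ^ l ≥ ‖t‖ * (δ / 2) ^ l * vol (ball c δ \ ball c (δ / 2)) = ‖t‖ * (δ / 2) ^ l * π * (3 / 4) * δ ^ 2`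
(`Complex.volume_ball`), so the quotient by `δ ^ (l + 2)` does not tend to `0`.
-/

set_option autoImplicit false

open Filter Topology Polynomial Metric Set MeasureTheory

namespace Pool.Agent.H91.CS

open Pool.Agent.H44.Fatou Pool.Agent.H61.TT Pool.Agent.H35.EX Pool.Agent.H91.CE

theorem lead_of {β P : ℕ → ℂ} {c : ℂ} {m : ℕ} (hne : ∀ k, P k ≠ c)
    (hβ : Summable fun k => ‖β k‖) (hs : Summable fun k => ‖β k‖ / ‖P k - c‖ ^ m)
    (hex : ∃ l < m, tq β P c l ≠ 0) : ∃ (l : ℕ) (t : ℂ), Lead (qs β P) c l t := by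
  classical
  have hex' : ∃ l, l < m ∧ tq β P c l ≠ 0 := hex
  obtain ⟨hlm, hl0⟩ := Nat.find_spec hex'
  have hmin : ∀ l' < Nat.find hex', tq β P c l' = 0 := by
    intro l' hl'
    have h1 := Nat.find_min hex' hl'
    by_contra hcon
    exact h1 ⟨by omega, hcon⟩
  set l := Nat.find hex' with hl
  refine ⟨l, -tq β P c l, neg_ne_zero.2 hl0, ?_⟩
  have h2 := qs_taylor' (m := l + 1) hne hβ (tsum_tq hne hβ hs hlm)
  refine h2.congr (fun δ => ?_)
  have h3 : ∀ x : ℂ, qs β P x + ∑ l' ∈ Finset.range (l + 1), tq β P c l' * (x - c) ^ l' =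
      qs β P x - -tq β P c l * (x - c) ^ l := by
    intro x
    rw [Finset.sum_range_succ, Finset.sum_eq_zero, zero_add]
    · ring
    · intro l' hl'
      rw [hmin l' (Finset.mem_range.1 hl'), zero_mul]
  simp only [h3]

theorem lead_ne {q : ℂ → ℂ} {c t : ℂ} {l : ℕ} (hl : Lead q c l t) : ¬ ∀ᵐ x : ℂ, q x = 0 := by
  intro hq
  obtain ⟨ht, hlim⟩ := hl
  have ht0 : 0 < ‖t‖ := norm_pos_iff.2 ht
  have hlow : ∀ δ : ℝ, 0 < δ → ENNReal.ofReal (‖t‖ * (1 / 2) ^ l * (Real.pi / 16)) ≤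
      (∫⁻ x in ball c δ, ‖q x - t * (x - c) ^ l‖ₑ) / ENNReal.ofReal (δ ^ (l + 2)) := by
    intro δ hδ
    rw [ENNReal.le_div_iff_mul_le (Or.inl (by
      rw [Ne, ENNReal.ofReal_eq_zero, not_le]
      positivity)) (Or.inl ENNReal.ofReal_ne_top)]
    have h1 : (∫⁻ x in ball c δ, ‖q x - t * (x - c) ^ l‖ₑ) =
        ∫⁻ x in ball c δ, ‖t * (x - c) ^ l‖ₑ := by
      refine lintegral_congr_ae (ae_restrict_of_ae ?_)
      filter_upwards [hq] with x hx
      rw [hx, zero_sub, enorm_neg]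
    rw [h1]
    set c' : ℂ := c + ((3 * δ / 4 : ℝ) : ℂ) with hc'
    have hcc : ‖c' - c‖ = 3 * δ / 4 := by
      rw [hc', add_sub_cancel_left, Complex.norm_real, Real.norm_eq_abs, abs_of_pos (by positivity)]
    have hsub : ball c' (δ / 4) ⊆ ball c δ := by
      intro x hx
      rw [mem_ball_iff_norm] at hx ⊢
      calc ‖x - c‖ = ‖(x - c') + (c' - c)‖ := by rw [sub_add_sub_cancel]
        _ ≤ ‖x - c'‖ + ‖c' - c‖ := norm_add_le _ _
        _ < δ := by rw [hcc]; linarith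
    have hge : ∀ x ∈ ball c' (δ / 4), ENNReal.ofReal (‖t‖ * (δ / 2) ^ l) ≤
        ‖t * (x - c) ^ l‖ₑ := by
      intro x hx
      rw [mem_ball_iff_norm] at hx
      have h2 : δ / 2 ≤ ‖x - c‖ := by
        have h3 : ‖c' - c‖ ≤ ‖x - c'‖ + ‖x - c‖ := by
          calc ‖c' - c‖ = ‖-(x - c') + (x - c)‖ := by congr 1; ring
            _ ≤ ‖-(x - c')‖ + ‖x - c‖ := norm_add_le _ _
            _ = _ := by rw [norm_neg]
        rw [hcc] at h3
        linarith
      rw [← ofReal_norm]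
      apply ENNReal.ofReal_le_ofReal
      rw [norm_mul, norm_pow]
      exact mul_le_mul_of_nonneg_left (pow_le_pow_left₀ (by positivity) h2 l) (norm_nonneg _)
    calc ENNReal.ofReal (‖t‖ * (1 / 2) ^ l * (Real.pi / 16)) * ENNReal.ofReal (δ ^ (l + 2))
        = ∫⁻ x in ball c' (δ / 4), ENNReal.ofReal (‖t‖ * (δ / 2) ^ l) := by
          rw [setLIntegral_const, Complex.volume_ball]
          have h2 : ((NNReal.pi : NNReal) : ENNReal) = ENNReal.ofReal Real.pi := by
            rw [← NNReal.coe_real_pi, ENNReal.ofReal_coe_nnreal]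
          rw [h2, ← ENNReal.ofReal_pow (by positivity), ← ENNReal.ofReal_mul (by positivity),
            ← ENNReal.ofReal_mul (by positivity), ← ENNReal.ofReal_mul (by positivity)]
          congr 1
          rw [div_pow, div_pow, div_pow, one_pow]
          ring
      _ ≤ ∫⁻ x in ball c' (δ / 4), ‖t * (x - c) ^ l‖ₑ :=
          setLIntegral_mono' measurableSet_ball hge
      _ ≤ ∫⁻ x in ball c δ, ‖t * (x - c) ^ l‖ₑ := lintegral_mono_set hsub
  have h5 : ENNReal.ofReal (‖t‖ * (1 / 2) ^ l * (Real.pi / 16)) ≤ 0 := by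
    refine ge_of_tendsto hlim ?_
    filter_upwards [self_mem_nhdsWithin] with δ hδ
    exact hlow δ hδ
  rw [nonpos_iff_eq_zero, ENNReal.ofReal_eq_zero] at h5
  have h6 : 0 < ‖t‖ * (1 / 2) ^ l * (Real.pi / 16) := by
    have := Real.pi_pos
    positivity
  linarith

end Pool.Agent.H91.CS
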