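import Pool.Agent.H91.CS.TPR
import Pool.Agent.H91.CS.TSUM
import Pool.Agent.H91.CS.TLAG
import Pool.Agent.H91.CS.TLOC
import Pool.Agent.H35.EX.SerP

/-!
# Module TPUSH: the quadratic differential is invariant under push forward

PROOF (compare `qs_push`, H35/EX/SerP). Almost every `x`: `RegV d a b x` (`reg_finite`), `x ≠ p i k` for all `i, k`, the series of `qs` converges at `x` (`ae_sum`) and at all `y ∈ fs a b x` (`ae_fib` of H35/EX/SerP). `E, T` from `lagr_fac`. For `n` with `e n = (i, k)`, `z = p i (k + 1)`, `gg a b z = p i (k + 2) ≠ x`: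
`∑ y ∈ fs, (α i * B i k / (y - z)) / dg y ^ 2 = α i * B i (k+1) * (1 / (x - p i (k+2)) + E z / b z ^ 2)` (`B i k = B i (k+1) * dg z`). Sum over `n`: the left side is `∑ y, qs y / dg y ^ 2` (`Summable.tsum_finsetSum`, `tsum_div_const`). The right side, by `sum_e`, is
`∑ i, ∑' k, (α i * B i (k+1) / (x - p i (k+2)) + α i * B i (k+1) * E (p i (k+1)) / b ^ 2)`; by `Summable.tsum_eq_zero_add` it is `∑ i, (∑' k, α i * B i k / (x - p i (k+1)) - α i / (x - p i 1)) + ∑ i, (α i * ∑' k, B i k * E (p i k) / b ^ 2 - α i * E (p i 0) / b (p i 0) ^ 2)`,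
the two corrections cancel (`lagr_fac` at `z = p i 0`: `dg = 0`, `js_ww`), the first sum is `qs x` (`sum_e`), the second is `- Λ E = 0` (`hvan`, `hΛ` with `loc_E` and `hs.mult`).
-/

set_option autoImplicit false

open Filter Topology Polynomial Metric Set MeasureTheory

namespace Pool.Agent.H91.CS

open Pool.Agent.H44.Fatou Pool.Agent.H61.TT Pool.Agent.H35.EX Pool.Agent.H91.CE

variable {d : ℕ} {a b : Polynomial ℂ} {ι : Type} [Fintype ι] {m : ι → ℕ} {p B : ι → ℕ → ℂ}


theorem js_push (h : RatD d a b) (hs : JS d a b m p B) (e : ℕ ≃ ι × ℕ) {α : ι → ℂ}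
    {Λ : Polynomial ℂ →ₗ[ℂ] ℂ} (hΛ : Loc b m p Λ)
    (hvan : ∀ η : Polynomial ℂ, η.natDegree ≤ 2 * d →
      Λ η + ∑ i, α i * ∑' k, B i k * (η.eval (p i k) / b.eval (p i k) ^ 2) = 0) :
    ∀ᵐ x : ℂ, qs (bt e α B) (pt' e p) x =
      ∑ y ∈ fs a b x, qs (bt e α B) (pt' e p) y / dg a b y ^ 2 := by
  classical
  have hPs : Summable fun n => ‖bt e α B n‖ := by
    have h1 := (sum_e e (F := fun x : ι × ℕ => ‖α x.1 * B x.1 x.2‖) (fun i => by
      have h2 := (js_P hs i).mul_left ‖α i‖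
      refine Summable.of_nonneg_of_le (fun k => norm_nonneg _) (fun k => ?_) h2
      rw [norm_mul]
      refine mul_le_mul_of_nonneg_left ?_ (norm_nonneg _)
      nlinarith [norm_nonneg (B i k), sq_nonneg ‖p i (k + 1)‖])).1
    exact h1
  have hsum := ae_sum (β := bt e α B) (p := pt' e p) hPs
  have hN : volume {x : ℂ | ¬ Summable (fun n => bt e α B n / (x - pt' e p n))} = 0 := hsum
  have hreg : ∀ᵐ x : ℂ, RegV d a b x := by
    rw [ae_iff]
    exact (reg_finite h).measure_zero _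
  have hpk : ∀ᵐ x : ℂ, ∀ i k, x ≠ p i k := by
    rw [ae_all_iff]
    intro i
    rw [ae_all_iff]
    intro k
    exact Measure.ae_ne volume (p i k)
  filter_upwards [hsum, hreg, hpk, ae_fib h hN] with x hx hxr hxp hxf
  obtain ⟨E, T, hEd, hET, hE⟩ := lagr_fac h hxr
  obtain ⟨G, hG⟩ : ∃ G : ι × ℕ → ℂ, ∀ i k, G (i, k) = α i * B i k / (x - p i (k + 1)) :=
    ⟨fun z => α z.1 * B z.1 z.2 / (x - p z.1 (z.2 + 1)), fun _ _ => rfl⟩
  obtain ⟨J, hJ⟩ : ∃ J : ι × ℕ → ℂ, ∀ i k, J (i, k) =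
      α i * (B i k * (E.eval (p i k) / b.eval (p i k) ^ 2)) :=
    ⟨fun z => α z.1 * (B z.1 z.2 * (E.eval (p z.1 z.2) / b.eval (p z.1 z.2) ^ 2)), fun _ _ => rfl⟩
  have hGe : ∀ n, bt e α B n / (x - pt' e p n) = G (e n) := by
    intro n
    rw [show e n = ((e n).1, (e n).2) from rfl, hG]
    rfl
  have hxG : Summable fun n => G (e n) := hx.congr hGe
  have hGs : Summable G := (e.summable_iff (f := G)).1 hxG
  have hGi : ∀ i, Summable fun k => G (i, k) := fun i =>
    hGs.comp_injective (i := fun k : ℕ => (i, k)) fun k l hkl => (Prod.ext_iff.1 hkl).2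
  have hJi : ∀ i, Summable fun k => J (i, k) := fun i => by
    have h1 := (js_eta h hs hEd i).mul_left (α i)
    exact h1.congr fun k => (hJ i k).symm
  -- the identity for one term
  have hk : ∀ i k, ∑ y ∈ fs a b x, (α i * B i k / (y - p i (k + 1))) / dg a b y ^ 2 =
      G (i, k + 1) + J (i, k + 1) := by
    intro i k
    have h1 := hE (p i (k + 1)) (hs.bb i (k + 1)) (by
      rw [hs.orb i (k + 1)]
      exact (hxp i (k + 2)).symm)
    rw [hs.orb i (k + 1)] at h1
    have h2 : ∑ y ∈ fs a b x, (α i * B i k / (y - p i (k + 1))) / dg a b y ^ 2 =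
        α i * B i (k + 1) * ∑ y ∈ fs a b x, dg a b (p i (k + 1)) /
          ((y - p i (k + 1)) * dg a b y ^ 2) := by
      rw [Finset.mul_sum]
      apply Finset.sum_congr rfl
      intro y _
      rw [← hs.hB i k, div_div]
      ring
    rw [h2, h1, hG, hJ]
    ring
  have hyS : ∀ y ∈ fs a b x,
      Summable (fun n => bt e α B n / (y - pt' e p n) / dg a b y ^ 2) := by
    intro y hy
    have h1 : Summable (fun n => bt e α B n / (y - pt' e p n)) := by
      by_contra h2
      exact hxf y hy h2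
    exact h1.div_const _
  have hL : ∑ y ∈ fs a b x, qs (bt e α B) (pt' e p) y / dg a b y ^ 2 =
      ∑' n, ∑ y ∈ fs a b x, bt e α B n / (y - pt' e p n) / dg a b y ^ 2 := by
    rw [Summable.tsum_finsetSum hyS]
    apply Finset.sum_congr rfl
    intro y _
    unfold qs
    rw [tsum_div_const]
  obtain ⟨H, hH⟩ : ∃ H : ι × ℕ → ℂ, ∀ i k, H (i, k) = G (i, k + 1) + J (i, k + 1) :=
    ⟨fun z => G (z.1, z.2 + 1) + J (z.1, z.2 + 1), fun _ _ => rfl⟩
  have hG1 : ∀ i, Summable fun k => G (i, k + 1) := fun i => (summable_nat_add_iff 1).2 (hGi i)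
  have hJ1 : ∀ i, Summable fun k => J (i, k + 1) := fun i => (summable_nat_add_iff 1).2 (hJi i)
  have hHi : ∀ i, Summable fun k => H (i, k) := fun i =>
    ((hG1 i).add (hJ1 i)).congr fun k => (hH i k).symm
  have hLH : ∀ n, ∑ y ∈ fs a b x, bt e α B n / (y - pt' e p n) / dg a b y ^ 2 = H (e n) := by
    intro n
    have h1 := hk (e n).1 (e n).2
    rw [show e n = ((e n).1, (e n).2) from rfl, hH, ← h1]
    rfl
  rw [hL, tsum_congr hLH, (sum_e e hHi).2]
  have hqx : qs (bt e α B) (pt' e p) x = ∑ i, ∑' k, G (i, k) := by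
    unfold qs
    rw [tsum_congr hGe, (sum_e e hGi).2]
  rw [hqx]
  have h0 : ∀ i, G (i, 0) + J (i, 0) = 0 := by
    intro i
    have h1 := hE (p i 0) (hs.bb i 0) (by
      rw [hs.orb i 0]
      exact (hxp i 1).symm)
    have h2 : ∑ y ∈ fs a b x, dg a b (p i 0) / ((y - p i 0) * dg a b y ^ 2) = 0 := by
      apply Finset.sum_eq_zero
      intro y _
      have h3 : Pool.Agent.H61.TT.dg a b (p i 0) = 0 := by
        unfold Pool.Agent.H61.TT.dg
        rw [js_ww h hs i, zero_div]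
      rw [h3, zero_div]
    rw [h2, hs.orb i 0] at h1
    rw [hG, hJ, hs.B0 i]
    linear_combination (- α i) * h1
  have hi : ∀ i, ∑' k, H (i, k) = (∑' k, G (i, k)) + ∑' k, J (i, k) := by
    intro i
    rw [tsum_congr (hH i), (hG1 i).tsum_add (hJ1 i), (hGi i).tsum_eq_zero_add,
      (hJi i).tsum_eq_zero_add]
    linear_combination (-1 : ℂ) * h0 i
  rw [Finset.sum_congr rfl fun i _ => hi i, Finset.sum_add_distrib]
  have hΛE : Λ E = 0 := by
    apply hΛ
    intro i
    have h1 := loc_E h (hs.bb i 0) (by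
      rw [hs.orb i 0]
      exact (hxp i 1).symm) hET
    rwa [hs.mult i] at h1
  have h1 := hvan E hEd
  rw [hΛE, zero_add] at h1
  have h2 : ∑ i, ∑' k, J (i, k) = 0 := by
    rw [← h1]
    apply Finset.sum_congr rfl
    intro i _
    rw [tsum_congr (hJ i), tsum_mul_left]
  rw [h2, add_zero]

end Pool.Agent.H91.CS
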