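import Pool.Agent.H91.CS.TBase
import Pool.Agent.H35.NA.Alg

/-!
# Module TCNT: finite backward invariant sets

PROOF. `Z' = {y ∈ Z | ∃ n, (rat a b)^[n] y = c}` (in `OnePoint ℂ`), finite, contains `c` (`n = 0`). Every `y ∈ Z'` has a preimage `w` under `rat a b` (`rat_surjective`, H35/NA/Alg; `dg P Q` there is the degree, use its full name or the fact that it is the maximum of the degrees, `h.deg`, `h.hd`). `w ≠ ∞`: otherwise
`(rat a b)^[n + 1] ∞ = c`, against `hinf`. So `w = (g y : ℂ)`, and `b.eval (g y) ≠ 0`: otherwise `rat a b w = ∞` (`a.eval ≠ 0`, coprime; unfold `rat_coe`, `pt`). So `gg a b (g y) = y` (`rat_coe_of_ne`), `g y ∈ Z` by `hback`, and `g y ∈ Z'` (`n + 1`, `iterate_succ_apply`).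
`g : Z' → Z'` is injective (`gg a b (g y) = y`), so surjective (`Finite.surjective_of_injective`): `gg a b` maps `Z'` into itself. So all `(gg a b)^[k] c ∈ Z'`, against `hinj` (`Set.infinite_of_injective_forall_mem`).
-/

set_option autoImplicit false

open Filter Topology Polynomial Metric Set MeasureTheory

namespace Pool.Agent.H91.CS

open Pool.Agent.H44.Fatou Pool.Agent.H61.TT Pool.Agent.H35.EX Pool.Agent.H91.CE

theorem back_contr {d : ℕ} {a b : Polynomial ℂ} (h : RatD d a b) {Z : Set ℂ} (hZ : Z.Finite)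
    {c : ℂ} (hc : c ∈ Z) (hback : ∀ y, b.eval y ≠ 0 → gg a b y ∈ Z → y ∈ Z)
    (hinj : Function.Injective fun k : ℕ => (gg a b)^[k] c)
    (hinf : ∀ n, (rat a b)^[n] OnePoint.infty ≠ (c : OnePoint ℂ)) : False := by
  have hsur : Function.Surjective (rat a b) := by
    apply Pool.Agent.H35.NA.rat_surjective h.cop
    change 1 ≤ max a.natDegree b.natDegree
    rw [h.deg]
    have := h.hd
    omega
  obtain ⟨Z', hZ'⟩ : ∃ Z' : Set ℂ, Z' = {y | y ∈ Z ∧
    ∃ n : ℕ, (rat a b)^[n] (y : OnePoint ℂ) = (c : OnePoint ℂ)} := ⟨_, rfl⟩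
  have hfin : Z'.Finite := by
    rw [hZ']
    exact hZ.subset fun y hy => hy.1
  have hcZ : c ∈ Z' := by
    rw [hZ']
    exact ⟨hc, 0, rfl⟩
  have hpre : ∀ y ∈ Z', ∃ w ∈ Z', gg a b w = y := by
    intro y hy
    rw [hZ'] at hy
    obtain ⟨hyZ, n, hn⟩ := hy
    obtain ⟨w, hw⟩ := hsur (y : OnePoint ℂ)
    induction w using OnePoint.rec with
    | infty =>
      exfalso
      apply hinf (n + 1)
      rw [Function.iterate_succ_apply, hw, hn]
    | coe w =>
      have hbw : b.eval w ≠ 0 := by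
        intro hb
        rw [rat_coe, hb] at hw
        unfold pt at hw
        rw [if_pos rfl] at hw
        exact OnePoint.infty_ne_coe _ hw
      have h1 : gg a b w = y := by
        rw [rat_coe_of_ne hbw] at hw
        exact OnePoint.coe_injective hw
      refine ⟨w, ?_, h1⟩
      rw [hZ']
      refine ⟨hback w hbw (by rw [h1]; exact hyZ), n + 1, ?_⟩
      rw [Function.iterate_succ_apply, hw, hn]
  choose! g hg1 hg2 using hpre
  have hfin' : Finite Z' := hfin
  obtain ⟨G, hG⟩ : ∃ G : Z' → Z', ∀ y, (G y : ℂ) = g y := ⟨fun y => ⟨g y, hg1 y y.2⟩, fun _ => rfl⟩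
  have hGinj : Function.Injective G := by
    intro y y' hyy
    apply Subtype.ext
    rw [← hg2 y y.2, ← hg2 y' y'.2, ← hG, ← hG, hyy]
  have hGsur : Function.Surjective G := Finite.surjective_of_injective hGinj
  have hmap : ∀ y ∈ Z', gg a b y ∈ Z' := by
    intro y hy
    obtain ⟨w, hw⟩ := hGsur ⟨y, hy⟩
    have h1 : g w = y := by
      rw [← hG, hw]
    rw [← h1, hg2 w w.2]
    exact w.2
  have hall : ∀ k : ℕ, (gg a b)^[k] c ∈ Z' := by
    intro k
    induction k with
    | zero => exact hcZ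
    | succ k ih =>
      rw [Function.iterate_succ_apply']
      exact hmap _ ih
  exact (Set.infinite_of_injective_forall_mem hinj hall) hfin

end Pool.Agent.H91.CS
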