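import Pool.Agent.H91.CS.TFUN
import Pool.Agent.H91.CS.TLOQ
import Pool.Agent.H91.CS.TCNT

/-!
# Module TRAT: there is no invariant rational quadratic differential with simple poles

PROOF. `l, F` from `rf_fun`, `c` from `hinf`. Case `gg a b c ∈ S`: `y ∈ S → gg a b y ∈ S` (contraposition of `rf_loc`, `hSb`), so `(gg a b)^[k + 1] c ∈ S` for all `k`, an injective map from `ℕ` to a finite set. Case `gg a b c ∉ S`: `Z = {x ∉ S | rf S R x = 0}` is finite (`rf_zeros`); `c ∈ Z`: `rf_loc` at `c`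
(`b.eval c ≠ 0`: `k = 0`), `dg a b c = 0`. `hback`: `gg a b y ∈ Z` gives by `rf_loc` `y ∉ S` and `rf S R y = l * _ * 0 = 0`. `back_contr`.
-/

set_option autoImplicit false

open Filter Topology Polynomial Metric Set MeasureTheory

namespace Pool.Agent.H91.CS

open Pool.Agent.H44.Fatou Pool.Agent.H61.TT Pool.Agent.H35.EX Pool.Agent.H91.CE

theorem rat_contr {d : ℕ} {a b : Polynomial ℂ} (h : RatD d a b) {S : Finset ℂ} {R : ℂ → ℂ}
    (hR : ∀ s ∈ S, R s ≠ 0) (hS : S.Nonempty) (hSb : ∀ s ∈ S, b.eval s ≠ 0)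
    (hlf : ∀ᵐ y : ℂ, b.eval y ≠ 0 →
      ∃ l : ℝ, 0 ≤ l ∧ rf S R y = l * dg a b y ^ 2 * rf S R (gg a b y))
    (hinf : ∃ c : ℂ, (ww a b).eval c = 0 ∧ (∀ k, b.eval ((gg a b)^[k] c) ≠ 0) ∧
      (Function.Injective fun k : ℕ => (gg a b)^[k] c) ∧
      ∀ n, (rat a b)^[n] OnePoint.infty ≠ (c : OnePoint ℂ)) : False := by
  obtain ⟨l, F, -, hF, hfun⟩ := rf_fun h hR hS hlf
  obtain ⟨c, hc, hb, hinj, hoo⟩ := hinf
  have hloc : ∀ y : ℂ, b.eval y ≠ 0 → gg a b y ∉ S →
      y ∉ S ∧ rf S R y = l * dg a b y ^ 2 * rf S R (gg a b y) :=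
    fun y hy hgy => rf_loc hR hF hfun hy hgy
  by_cases hcS : gg a b c ∈ S
  · have hall : ∀ k : ℕ, (gg a b)^[k + 1] c ∈ S := by
      intro k
      induction k with
      | zero => exact hcS
      | succ k ih =>
        rw [Function.iterate_succ_apply']
        by_contra hne
        exact (hloc _ (hSb _ ih) hne).1 ih
    have hinj' : Function.Injective fun k : ℕ => (gg a b)^[k + 1] c := by
      intro i j hij
      have := hinj hij
      omega
    exact (Set.infinite_of_injective_forall_mem (s := (S : Set ℂ)) hinj' hall) S.finite_toSet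
  · have hb0 : b.eval c ≠ 0 := hb 0
    have hdg : dg a b c = 0 := by
      change (ww a b).eval c / b.eval c ^ 2 = 0
      rw [hc, zero_div]
    obtain ⟨h1, h2⟩ := hloc c hb0 hcS
    refine back_contr h (rf_zeros hR hS) (c := c) ⟨h1, ?_⟩ ?_ hinj hoo
    · rw [h2, hdg]
      ring
    · rintro y hy ⟨hy1, hy2⟩
      obtain ⟨h3, h4⟩ := hloc y hy hy1
      refine ⟨h3, ?_⟩
      rw [h4, hy2, mul_zero]

end Pool.Agent.H91.CS
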