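import Pool.Agent.H91.CS.TPR
import Pool.Agent.H91.CS.TSUM
import Pool.Agent.H91.CS.TMER

/-!
# Module TREC: infinitely many residues

PROOF. `β = bt e α B`, `P = pt' e p`. `js_rs`: `sum_e` with `F (i, k) = if p i (k+1) = s then α i * B i k else 0` (summable: bounded by `‖α i‖ * ‖B i k‖ * (1 + ..)`, `js_P`). If `rs β P s ≠ 0` then `s = p i (k + 1)` for some `i, k` with `α i ≠ 0`. The set of such `s` is infinite, `ι` is finite, so for some `i0` with `α i0 ≠ 0` infinitely
many of the points of `range (p i0)` have residue `≠ 0`; the range of `p i0` is infinite, so `p i0` is injective (if `p i0 u = p i0 v`, `u < v`, the range is finite, by `hs.orb`), and `{n | rs β P (p i0 n) ≠ 0}` is infinite. For `n ≥ n0` (`merge`), `s = p i0 n`, `s' = p i0 (n + 1)`: by `js_rs`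
`rs s' = ∑ i, ∑' k, if p i (k+1) = s' then α i * B i k else 0`; the terms `k = 0` vanish and `p i (k+2) = s' ↔ p i (k+1) = s` (`merge`, `hs.orb`), `B i (k+1) * dg a b s = B i k` on it, so `rs s' * dg a b s = rs s` (`n ≥ 1`, `Summable.tsum_eq_zero_add`, `tsum_mul_right`). So for `n ≥ max n0 1` `rs (p i0 n) ≠ 0` implies
`rs (p i0 (n + 1)) ≠ 0`; there is such an `n`, so all later ones.
-/

set_option autoImplicit false

open Filter Topology Polynomial Metric Set MeasureTheory

namespace Pool.Agent.H91.CS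

open Pool.Agent.H44.Fatou Pool.Agent.H61.TT Pool.Agent.H35.EX Pool.Agent.H91.CE

variable {d : ℕ} {a b : Polynomial ℂ} {ι : Type} [Fintype ι] {m : ι → ℕ} {p B : ι → ℕ → ℂ}


private theorem trec_sum (hs : JS d a b m p B) (α : ι → ℂ) (i : ι) :
    Summable fun k => α i * B i k := by
  have h2 := (js_P hs i).mul_left ‖α i‖
  refine Summable.of_norm (Summable.of_nonneg_of_le (fun k => norm_nonneg _) (fun k => ?_) h2)
  rw [norm_mul]
  refine mul_le_mul_of_nonneg_left ?_ (norm_nonneg _)
  nlinarith [norm_nonneg (B i k), sq_nonneg ‖p i (k + 1)‖]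

theorem js_rs (hs : JS d a b m p B) (e : ℕ ≃ ι × ℕ) (α : ι → ℂ) (s : ℂ) :
    rs (bt e α B) (pt' e p) s =
      ∑ i, ∑' k, Set.indicator {k : ℕ | p i (k + 1) = s} (fun k => α i * B i k) k := by
  classical
  obtain ⟨F, hF⟩ : ∃ F : ι × ℕ → ℂ, ∀ i k, F (i, k) =
      Set.indicator {k : ℕ | p i (k + 1) = s} (fun k => α i * B i k) k :=
    ⟨fun z => Set.indicator {k : ℕ | p z.1 (k + 1) = s} (fun k => α z.1 * B z.1 k) z.2,
      fun _ _ => rfl⟩
  have h1 : ∀ i, Summable fun k => F (i, k) := fun i =>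
    ((trec_sum hs α i).indicator _).congr fun k => (hF i k).symm
  have h2 := (sum_e e h1).2
  unfold rs
  rw [← Finset.sum_congr rfl fun i _ => tsum_congr (hF i), ← h2]
  refine tsum_congr fun n => ?_
  rw [show e n = ((e n).1, (e n).2) from rfl, hF]
  unfold Set.indicator
  rfl

private theorem trec_range {f : ℂ → ℂ} {x : ℕ → ℂ} (ho : ∀ k, f (x k) = x (k + 1))
    (hinf : (Set.range x).Infinite) : Function.Injective x := by
  by_contra hcon
  have h1 : ∃ u v : ℕ, u < v ∧ x u = x v := by
    unfold Function.Injective at hcon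
    push Not at hcon
    obtain ⟨u, v, huv, hne⟩ := hcon
    rcases lt_or_gt_of_ne hne with h | h
    · exact ⟨u, v, h, huv⟩
    · exact ⟨v, u, h, huv.symm⟩
  obtain ⟨u, v, huv, hxuv⟩ := h1
  have hper : ∀ t : ℕ, x (u + t) = x (v + t) := by
    intro t
    induction t with
    | zero => exact hxuv
    | succ t ih => rw [← add_assoc, ← add_assoc, ← ho, ← ho, ih]
  apply hinf
  have hsub : Set.range x ⊆ x '' (Finset.range v : Set ℕ) := by
    have h2 : ∀ n : ℕ, x n ∈ x '' (Finset.range v : Set ℕ) := by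
      intro n
      induction n using Nat.strong_induction_on with
      | _ n ih =>
        by_cases hn : n < v
        · exact ⟨n, by simpa using hn, rfl⟩
        · have h3 := hper (n - v)
          have h4 : v + (n - v) = n := by omega
          rw [h4] at h3
          rw [← h3]
          exact ih (u + (n - v)) (by omega)
    rintro _ ⟨n, rfl⟩
    exact h2 n
  exact ((Finset.range v).finite_toSet.image x).subset hsub

theorem js_rec (hs : JS d a b m p B) (e : ℕ ≃ ι × ℕ) (α : ι → ℂ)
    (hinf : {s | rs (bt e α B) (pt' e p) s ≠ 0}.Infinite) :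
    ∃ i, α i ≠ 0 ∧ Function.Injective (p i) ∧
      ∀ᶠ n in atTop, rs (bt e α B) (pt' e p) (p i n) ≠ 0 := by
  classical
  obtain ⟨ρ, hρ⟩ : ∃ ρ : ℂ → ℂ, ∀ s, rs (bt e α B) (pt' e p) s = ρ s := ⟨_, fun _ => rfl⟩
  have hrs : ∀ s, ρ s =
      ∑ i, ∑' k, Set.indicator {k : ℕ | p i (k + 1) = s} (fun k => α i * B i k) k :=
    fun s => by rw [← hρ, js_rs hs e α s]
  simp only [hρ] at hinf ⊢
  -- the support is contained in the union of the ranges
  have hsub : {s | ρ s ≠ 0} ⊆ ⋃ i ∈ {i : ι | α i ≠ 0}, ({s | ρ s ≠ 0} ∩ Set.range (p i)) := by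
    intro s hsρ
    have hsρ' : ρ s ≠ 0 := hsρ
    rw [hrs] at hsρ'
    obtain ⟨i, -, hi⟩ := Finset.exists_ne_zero_of_sum_ne_zero hsρ'
    have h1 : ∃ k, Set.indicator {k : ℕ | p i (k + 1) = s} (fun k => α i * B i k) k ≠ 0 := by
      by_contra hall
      push Not at hall
      apply hi
      rw [tsum_congr hall, tsum_zero]
    obtain ⟨k, hk⟩ := h1
    have hk1 : k ∈ {k : ℕ | p i (k + 1) = s} := by
      by_contra h2
      exact hk (indicator_of_notMem h2 _)
    rw [indicator_of_mem hk1] at hk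
    simp only [mem_iUnion]
    exact ⟨i, left_ne_zero_of_mul hk, hsρ, k + 1, hk1⟩
  obtain ⟨i0, hi0, hI⟩ : ∃ i0, α i0 ≠ 0 ∧ ({s | ρ s ≠ 0} ∩ Set.range (p i0)).Infinite := by
    by_contra hcon
    push Not at hcon
    apply hinf
    refine (Set.Finite.biUnion (Set.toFinite _) fun i hi => ?_).subset hsub
    exact hcon i hi
  have hrange : (Set.range (p i0)).Infinite := hI.mono inter_subset_right
  have hinj : Function.Injective (p i0) := trec_range (hs.orb i0) hrange
  refine ⟨i0, hi0, hinj, ?_⟩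
  obtain ⟨n0, hn0⟩ := merge (f := gg a b) hs.orb hinj
  -- infinitely many n
  have hn : ∃ n, max n0 1 ≤ n ∧ ρ (p i0 n) ≠ 0 := by
    by_contra hcon
    push Not at hcon
    apply hI
    refine ((Finset.range (max n0 1)).finite_toSet.image (p i0)).subset ?_
    rintro s ⟨hs1, n, rfl⟩
    refine ⟨n, ?_, rfl⟩
    rw [Finset.mem_coe, Finset.mem_range]
    by_contra h3
    exact hs1 (hcon n (not_lt.1 h3))
  -- the recursion
  have hstep : ∀ n, max n0 1 ≤ n →
      ρ (p i0 (n + 1)) * Pool.Agent.H61.TT.dg a b (p i0 n) = ρ (p i0 n) := by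
    intro n hn1
    have hn01 : n0 ≤ n := (le_max_left _ _).trans hn1
    have h1n : 1 ≤ n := (le_max_right _ _).trans hn1
    rw [hrs, hrs, Finset.sum_mul]
    refine Finset.sum_congr rfl fun i _ => ?_
    have hs1 : Summable fun k => Set.indicator {k : ℕ | p i (k + 1) = p i0 (n + 1)}
        (fun k => α i * B i k) k := (trec_sum hs α i).indicator _
    rw [hs1.tsum_eq_zero_add]
    have h0 : Set.indicator {k : ℕ | p i (k + 1) = p i0 (n + 1)} (fun k => α i * B i k) 0 = 0 := by
      apply indicator_of_notMem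
      intro h4
      have := (hn0 n hn01 i 0 h4).1
      omega
    rw [h0, zero_add, ← tsum_mul_right]
    refine tsum_congr fun k => ?_
    by_cases hk : p i (k + 1) = p i0 n
    · have hk' : p i (k + 1 + 1) = p i0 (n + 1) := by
        rw [← hs.orb i (k + 1), hk, hs.orb]
      rw [indicator_of_mem (show k + 1 ∈ {k : ℕ | p i (k + 1) = p i0 (n + 1)} from hk'),
        indicator_of_mem (show k ∈ {k : ℕ | p i (k + 1) = p i0 n} from hk), ← hk, mul_assoc,
        hs.hB i k]
    · have hk' : p i (k + 1 + 1) ≠ p i0 (n + 1) := by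
        intro h4
        exact hk (hn0 n hn01 i (k + 1) h4).2
      rw [indicator_of_notMem (show k + 1 ∉ {k : ℕ | p i (k + 1) = p i0 (n + 1)} from hk'),
        indicator_of_notMem (show k ∉ {k : ℕ | p i (k + 1) = p i0 n} from hk), zero_mul]
  obtain ⟨N, hN1, hN2⟩ := hn
  rw [eventually_atTop]
  refine ⟨N, fun n hn => ?_⟩
  induction n, hn using Nat.le_induction with
  | base => exact hN2
  | succ n hnN ih =>
    intro h0
    apply ih
    rw [← hstep n (hN1.trans hnN), h0, zero_mul]

end Pool.Agent.H91.CS
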