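import Pool.Agent.H91.CS.TINT
import Pool.Agent.H91.CS.TEQ
import Pool.Agent.H91.CS.TLF
import Pool.Agent.H91.CS.TLEAD
import Pool.Agent.H91.CS.TDIR
import Pool.Agent.H91.CS.TCON
import Pool.Agent.H91.CS.TREG
import Pool.Agent.H91.CS.TRAT
import Pool.Agent.H91.CS.TS01
import Pool.Agent.H91.CS.TPUSH
import Pool.Agent.H91.CS.TNZ
import Pool.Agent.H91.CS.TREC

/-!
# Module TMAIN: transversality (independence of the functionals of the critical points)

Assembly of the modules `T*.lean`. The plan (helper91): suppose some `α i ≠ 0`. Let `β (i, k) = α i * B i k`, `P (i, k) = p i (k + 1)`, `q x = ∑ β (i, k) / (x - P (i, k))`.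
(1) `∑ β = 0`, `∑ β P = 0` (TS01), so `q` is integrable (TINT). (2) `q` is invariant under push forward (TPUSH). (3) equality in the triangle inequality: the direction of `q` is invariant (TEQ, TLF). (4) at `c = p i 0` with `α i ≠ 0` the
Taylor coefficients of `q` of order `< m i` are not all zero (TNZ), so `q` has a leading term there in the mean (TLEAD). (5) if infinitely many residues are not zero, there is `i` with `α i ≠ 0` and `rs (p i n) ≠ 0` for all large `n` (TREC). (6) by `Blow` the values of `q` near such a point are in a half plane (TDIR). (7) so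
the residue vanishes (TCON), a contradiction. (8) if there are only finitely many residues, `q` is a rational function with simple poles (TREG), impossible by TRAT.
-/

set_option autoImplicit false

open Filter Topology Polynomial Metric Set MeasureTheory

namespace Pool.Agent.H91.CS

open Pool.Agent.H44.Fatou Pool.Agent.H61.TT Pool.Agent.H35.EX Pool.Agent.H91.CE

theorem tv_main {d : ℕ} {a b : Polynomial ℂ} (h : RatD d a b) {ι : Type} [Fintype ι] {m : ι → ℕ}
    {p B : ι → ℕ → ℂ} (hs : JS d a b m p B)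
    (hblow : ∀ i, Function.Injective (p i) → ∃ᶠ n in atTop, Blow a b (p i 0) (p i n))
    (hinf : ∃ c : ℂ, (ww a b).eval c = 0 ∧ (∀ k, b.eval ((gg a b)^[k] c) ≠ 0) ∧
      (Function.Injective fun k : ℕ => (gg a b)^[k] c) ∧
      ∀ n, (rat a b)^[n] OnePoint.infty ≠ (c : OnePoint ℂ))
    {α : ι → ℂ} {Λ : Polynomial ℂ →ₗ[ℂ] ℂ} (hΛ : Loc b m p Λ)
    (hvan : ∀ η : Polynomial ℂ, η.natDegree ≤ 2 * d →
      Λ η + ∑ i, α i * ∑' k, B i k * (η.eval (p i k) / b.eval (p i k) ^ 2) = 0) :
    ∀ i, α i = 0 := by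
  by_contra hcon
  push Not at hcon
  obtain ⟨i0, hi0⟩ := hcon
  have : Nonempty ι := ⟨i0⟩
  obtain ⟨e⟩ : Nonempty (ℕ ≃ ι × ℕ) := nonempty_equiv_of_countable
  obtain ⟨β, hβd⟩ : ∃ β : ℕ → ℂ, β = bt e α B := ⟨_, rfl⟩
  obtain ⟨P, hPd⟩ : ∃ P : ℕ → ℂ, P = pt' e p := ⟨_, rfl⟩
  have hsm := js_sm hs e α
  have h0 := js_sum0 h hs e hΛ hvan
  have h1 := js_sum1 h hs e hΛ hvan
  have hpush := js_push h hs e hΛ hvan
  have htq : ∀ i, α i ≠ 0 → (∀ n, pt' e p n ≠ p i 0) ∧
      (Summable fun n => ‖bt e α B n‖ / ‖pt' e p n - p i 0‖ ^ m i) ∧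
      ∃ l < m i, tq (bt e α B) (pt' e p) (p i 0) l ≠ 0 := fun i hi => js_tq h hs e hΛ hvan hi
  have hrec := js_rec hs e α
  have hPb : ∀ n, b.eval (pt' e p n) ≠ 0 := fun n => hs.bb _ _
  rw [← hβd] at hsm h0 h1 hpush hrec
  rw [← hPd] at hsm h1 hpush hrec
  simp only [← hPd] at hPb
  simp only [← hβd, ← hPd] at htq
  have hβ : Summable fun k => ‖β k‖ := by
    refine Summable.of_nonneg_of_le (fun k => norm_nonneg _) (fun k => ?_) hsm
    nlinarith [norm_nonneg (β k), sq_nonneg ‖P k‖]
  have hqm : Measurable (qs β P) := qs_meas β P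
  have hfin := qs_fin' hsm h0 h1
  have hlf : LF a b (qs β P) := lf_of h (equal_pos h hqm hfin hpush)
  have hlead : ∀ i, α i ≠ 0 → ∃ (l : ℕ) (t : ℂ), Lead (qs β P) (p i 0) l t := by
    intro i hi
    obtain ⟨g1, g2, g3⟩ := htq i hi
    exact lead_of g1 hβ g2 g3
  by_cases hinfS : {s | rs β P s ≠ 0}.Infinite
  · obtain ⟨i, hi, hinj, hev⟩ := hrec hinfS
    obtain ⟨n, hbl, hne⟩ := ((hblow i hinj).and_eventually hev).exists
    obtain ⟨l, t, hlt⟩ := hlead i hi
    exact hne (rs_zero_of_cone hβ (cone_of_blow hqm hlf hlt hbl))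
  · rw [Set.not_infinite] at hinfS
    obtain ⟨S, hS⟩ : ∃ S : Finset ℂ, S = hinfS.toFinset := ⟨_, rfl⟩
    have hmem : ∀ s, s ∈ S ↔ rs β P s ≠ 0 := by
      intro s
      rw [hS, Set.Finite.mem_toFinset]
      exact Iff.rfl
    have hrat : ∀ᵐ x : ℂ, qs β P x = rf S (rs β P) x := qs_rat hβ fun s hs' => by
      by_contra hne
      exact hs' ((hmem s).2 hne)
    have hSne : S.Nonempty := by
      rw [Finset.nonempty_iff_ne_empty]
      intro hemp
      obtain ⟨l, t, hlt⟩ := hlead i0 hi0
      refine lead_ne hlt ?_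
      filter_upwards [hrat] with x hx
      rw [hx, hemp]
      simp [rf]
    refine rat_contr h (S := S) (R := rs β P) (fun s hs' => (hmem s).1 hs') hSne ?_ ?_ hinf
    · intro s hs'
      have h2 := (hmem s).1 hs'
      by_contra hb
      apply h2
      unfold rs
      have h3 : {k : ℕ | P k = s} = ∅ := by
        ext k
        simp only [mem_setOf_eq, mem_empty_iff_false, iff_false]
        intro hk
        exact hPb k (by rw [hk]; exact hb)
      rw [h3]
      simp
    · have h2 := null_pre h (measure_mono_null (s := {x : ℂ | ¬ qs β P x = rf S (rs β P) x})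
        (fun x hx => hx) hrat)
      have h3 : ∀ᵐ y : ℂ, y ∉ pre a b {x : ℂ | ¬ qs β P x = rf S (rs β P) x} :=
        measure_eq_zero_iff_ae_notMem.1 h2
      filter_upwards [hrat, hlf, h3] with y hy1 hy2 hy3 hby
      have h4 : qs β P (gg a b y) = rf S (rs β P) (gg a b y) := by
        by_contra hne
        exact hy3 ⟨hby, hne⟩
      obtain ⟨l, hl0, hl⟩ := hy2 1 (by
        intro i hi
        have : i = 0 := by omega
        rw [this]
        exact hby)
      refine ⟨l, hl0, ?_⟩
      have h5 : dn a b 1 y = dg a b y := by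
        unfold dn
        rw [Finset.prod_range_one]
        rfl
      rw [h5, Function.iterate_one, h4, hy1] at hl
      exact hl

end Pool.Agent.H91.CS
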