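import Pool.Agent.H91.CS.EHERM
import Pool.Agent.H91.CS.ECRIT
import Pool.Agent.H91.CS.PBLO
import Pool.Agent.H91.CS.TMAIN
import Pool.Agent.H61.TT.Surj

/-!
# Module ESUR: the linear parts of the equations are independent

PROOF. `a = pol v0.1`, `b = pol v0.2`, `x i = it v0 1 (c i)`, `p i k = it v0 k (c i)`, `B i k = (trD v0 k (x i))⁻¹`, so `p i (k + 1) = it v0 k (x i)` (`it_add`), `JS d a b m p B` (`wv_pol`, `WP = ww a b`; `dg a b z = wv v0 z / ev v0.2 z ^ 2`; `grow` from `GrS` with constants `1 / c`, `1 / q`). `eta_id`: for `η = pol v.1 * b - a * pol v.2`: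
`b * W1 v0 v = η' b - 2 η b' + 2 pol v.2 * WP v0` (`ring` after expanding the derivatives), so for `l < m i` both have the same `(hasseDeriv l ·).eval (c i)` with `η' b - 2 η b'` (`(X - c i) ^ m i` divides `WP v0`). Suppose the (linear) map is not surjective. Its range is a
proper subspace (the map is linear in `v`: `κ i` is, `xi v0 · z` is, `W1 v0` is), so there is a nonzero linear functional `φ` vanishing on it (`Submodule.exists_le_ker_of_lt_top`): `φ (s, t) = ∑ α i s i + ∑ i l, β i l t i l`. Let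
`Λ η = ∑ i, ∑ l, β i l * (hasseDeriv l (η' b - 2 η b')).eval (c i)`, a linear functional; `Loc b m p Λ`: for `η = e b ^ 2 + (X - c i) ^ m i * θ` the polynomial `η' b - 2 η b'` is divisible by `(X - c i) ^ (m i - 1)`. For every `η` of degree at most `2 d` there is `v` with
`pol v.1 * b - a * pol v.2 = η` (`surj`, H61/TT/Surj), so `xi v0 v z = η z / b z ^ 2`, and `φ` of the value at `v` is `Λ η + ∑ i, α i * (xi v0 v (c i) + κ i v) = Λ η + ∑ i, α i * ∑' k, B i k * (η (p i k) / b (p i k) ^ 2)`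
(`hκ`, `tsum_eq_zero_add`; summable: `‖η z‖ / ‖b z‖ ^ 2 ≤ C (1 + ‖gg a b z‖ ^ 2)` and `grow`). `tv_main` (with `blow`): `α = 0`. Then `Λ` vanishes on the polynomials of degree at most `2 d`, `herm` (`D = 2 d`, `∑ m i ≤ natDegree (ww a b) ≤ 2 d`): `β = 0`, so `φ = 0`, a contradiction.
-/

set_option autoImplicit false

open Filter Topology Metric Set Polynomial

namespace Pool.Agent.H91.CS

open Pool.Agent.H44.Fatou Pool.Agent.H32.BT Pool.Agent.H79.Eul Pool.Agent.H79.Par
open Pool.Agent.H61.TT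

theorem eta_id {d : ℕ} (v0 v : E d) : pol v0.2 * W1 v0 v =
    derivative (pol v.1 * pol v0.2 - pol v0.1 * pol v.2) * pol v0.2 -
      2 * (pol v.1 * pol v0.2 - pol v0.1 * pol v.2) * derivative (pol v0.2) +
        2 * pol v.2 * WP v0 := by
  unfold W1 WP ww
  rw [derivative_sub, derivative_mul, derivative_mul]
  ring

private theorem esur_it {d : ℕ} (v0 : E d) (k : ℕ) (z : ℂ) :
    it v0 k z = (gg (pol v0.1) (pol v0.2))^[k] z := by
  induction k with
  | zero => rfl
  | succ k ih =>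
    rw [Function.iterate_succ_apply', ← ih]
    simp only [it, gg, pol_eval]

private theorem esur_it1 {d : ℕ} (v0 : E d) (k : ℕ) (z : ℂ) :
    it v0 (k + 1) z = it v0 k (it v0 1 z) := it_add v0 k 1 z

theorem js_it {d : ℕ} {v0 : E d} {ι : Type} {c : ι → ℂ} {m : ι → ℕ}
    (hinj : Function.Injective c) (hm : ∀ i, 1 ≤ m i)
    (hmult : ∀ i, (WP v0).rootMultiplicity (c i) = m i) (hb : ∀ i, ev v0.2 (c i) ≠ 0)
    (hgr : ∀ i, GrS v0 (it v0 1 (c i))) :
    JS d (pol v0.1) (pol v0.2) m (fun i k => it v0 k (c i))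
      (fun i k => (trD v0 k (it v0 1 (c i)))⁻¹) where
  orb i k := by
    simp only [it, gg, pol_eval]
  bb i k := by
    rw [pol_eval]
    cases k with
    | zero => exact hb i
    | succ k =>
      rw [esur_it1 v0 k (c i)]
      exact (hgr i).1 k
  inj := hinj
  mult := hmult
  hm := hm
  B0 i := by simp [trD]
  hB i k := by
    obtain ⟨hne, c1, q, hc1, hq, hg⟩ := hgr i
    have h1 : Pool.Agent.H61.TT.dg (pol v0.1) (pol v0.2) (it v0 (k + 1) (c i)) =
        wv v0 (it v0 k (it v0 1 (c i))) / ev v0.2 (it v0 k (it v0 1 (c i))) ^ 2 := by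
      rw [esur_it1 v0 k (c i)]
      unfold Pool.Agent.H61.TT.dg
      rw [pol_eval, ← wv_pol]
    have h2 : trD v0 (k + 1) (it v0 1 (c i)) = trD v0 k (it v0 1 (c i)) *
        (wv v0 (it v0 k (it v0 1 (c i))) / ev v0.2 (it v0 k (it v0 1 (c i))) ^ 2) := by
      unfold trD
      rw [Finset.prod_range_succ]
    have h3 : trD v0 (k + 1) (it v0 1 (c i)) ≠ 0 := by
      intro h0
      have h4 := hg (k + 1)
      rw [h0, norm_zero] at h4
      have h5 : 0 < c1 * q ^ (k + 1) * (1 + ‖it v0 (k + 1) (it v0 1 (c i))‖ ^ 2) := by positivity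
      linarith
    rw [h1]
    rw [h2] at h3 ⊢
    have h5 := right_ne_zero_of_mul h3
    rw [mul_inv, mul_assoc, inv_mul_cancel₀ h5, mul_one]
  grow i := by
    obtain ⟨hne, c1, q, hc1, hq, hg⟩ := hgr i
    refine ⟨1 / c1, 1 / q, by positivity, ?_, fun k => ?_⟩
    · rw [div_lt_one (by linarith)]
      exact hq
    · have h4 := hg k
      have h5 : 0 < c1 * q ^ k * (1 + ‖it v0 k (it v0 1 (c i))‖ ^ 2) := by positivity
      have h6 : 0 < ‖trD v0 k (it v0 1 (c i))‖ := lt_of_lt_of_le h5 h4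
      rw [esur_it1 v0 k (c i), norm_inv, one_div_pow, inv_mul_eq_div, div_le_iff₀ h6]
      have h7 : 0 < c1 * q ^ k := by positivity
      have h8 : 1 / c1 * (1 / q ^ k) = 1 / (c1 * q ^ k) := by
        rw [one_div_mul_one_div]
      rw [h8, one_div, inv_mul_eq_div, le_div_iff₀ h7]
      linarith

private theorem esur_ev_add {d : ℕ} (p q : Fin (d + 1) → ℂ) (z : ℂ) :
    ev (p + q) z = ev p z + ev q z := by
  simp [ev, add_mul, Finset.sum_add_distrib]

private theorem esur_ev_smul {d : ℕ} (k : ℂ) (p : Fin (d + 1) → ℂ) (z : ℂ) :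
    ev (k • p) z = k * ev p z := by
  simp [ev, Finset.mul_sum, mul_assoc]

private theorem esur_xi_add {d : ℕ} (v0 v w : E d) (z : ℂ) :
    xi v0 (v + w) z = xi v0 v z + xi v0 w z := by
  unfold xi
  rw [Prod.fst_add, Prod.snd_add, esur_ev_add, esur_ev_add]
  ring

private theorem esur_xi_smul {d : ℕ} (v0 v : E d) (k : ℂ) (z : ℂ) :
    xi v0 (k • v) z = k * xi v0 v z := by
  unfold xi
  rw [Prod.smul_fst, Prod.smul_snd, esur_ev_smul, esur_ev_smul]
  ring

private theorem esur_W1_add {d : ℕ} (v0 v w : E d) : W1 v0 (v + w) = W1 v0 v + W1 v0 w := by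
  unfold W1
  rw [Prod.fst_add, Prod.snd_add, pol_add, pol_add, derivative_add, derivative_add]
  ring

private theorem esur_W1_smul {d : ℕ} (v0 v : E d) (k : ℂ) : W1 v0 (k • v) = C k * W1 v0 v := by
  unfold W1
  rw [Prod.smul_fst, Prod.smul_snd, pol_smul, pol_smul, derivative_C_mul, derivative_C_mul]
  ring

private theorem esur_hd {Q : Polynomial ℂ} {c : ℂ} {k l : ℕ} (h : (X - C c) ^ k ∣ Q)
    (hl : l < k) : (hasseDeriv l Q).eval c = 0 := by
  obtain ⟨R, rfl⟩ := h
  rw [← taylor_coeff, taylor_mul]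
  have e : taylor c ((X - C c) ^ k) = X ^ k := by
    rw [taylor_pow, map_sub, taylor_X, taylor_C, add_sub_cancel_right]
  rw [e, coeff_X_pow_mul', if_neg (by omega)]

private theorem esur_lin {κ : Type} [Fintype κ] [DecidableEq κ] (f : (κ → ℂ) →ₗ[ℂ] ℂ)
    (s : κ → ℂ) : f s = ∑ i, f (Pi.single i 1) * s i := by
  have h : s = ∑ i, s i • (Pi.single i (1 : ℂ) : κ → ℂ) := by
    conv_lhs => rw [← Finset.univ_sum_single s]
    refine Finset.sum_congr rfl fun i _ => ?_
    rw [← Pi.single_smul, smul_eq_mul, mul_one]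
  conv_lhs => rw [h, map_sum]
  refine Finset.sum_congr rfl fun i _ => ?_
  rw [map_smul, smul_eq_mul, mul_comm]

private theorem esur_form {ι : Type} [Fintype ι] [DecidableEq ι] {k : ι → ℕ}
    (φ : ((ι → ℂ) × ((i : ι) → Fin (k i) → ℂ)) →ₗ[ℂ] ℂ) (s : ι → ℂ)
    (t : (i : ι) → Fin (k i) → ℂ) :
    φ (s, t) = ∑ i, φ (Pi.single i 1, 0) * s i +
      ∑ i, ∑ l, φ (0, Pi.single i (Pi.single l 1)) * t i l := by
  have e : (s, t) = (s, (0 : (i : ι) → Fin (k i) → ℂ)) + ((0 : ι → ℂ), t) := by simp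
  rw [e, map_add]
  congr 1
  · exact esur_lin (φ ∘ₗ LinearMap.inl ℂ (ι → ℂ) ((i : ι) → Fin (k i) → ℂ)) s
  · have h1 : φ ((0 : ι → ℂ), t) =
        (φ ∘ₗ LinearMap.inr ℂ (ι → ℂ) ((i : ι) → Fin (k i) → ℂ)) t := rfl
    rw [h1]
    conv_lhs => rw [← Finset.univ_sum_single t, map_sum]
    refine Finset.sum_congr rfl fun i _ => ?_
    exact esur_lin ((φ ∘ₗ LinearMap.inr ℂ (ι → ℂ) ((i : ι) → Fin (k i) → ℂ)) ∘ₗ
      LinearMap.single ℂ (fun i => Fin (k i) → ℂ) i) (t i)

/-- the value of the derivatives at the critical points -/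
private noncomputable def esur_V (b : Polynomial ℂ) {ι : Type} (c : ι → ℂ) (k : ι → ℕ) :
    Polynomial ℂ →ₗ[ℂ] ((i : ι) → Fin (k i) → ℂ) where
  toFun η i l := (hasseDeriv (l : ℕ) (derivative η * b - 2 * η * derivative b)).eval (c i)
  map_add' x y := by
    funext i l
    have e : derivative (x + y) * b - 2 * (x + y) * derivative b =
        (derivative x * b - 2 * x * derivative b) + (derivative y * b - 2 * y * derivative b) := by
      rw [derivative_add]
      ring
    rw [e, map_add, eval_add]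
    rfl
  map_smul' u x := by
    funext i l
    have e : derivative (u • x) * b - 2 * (u • x) * derivative b =
        u • (derivative x * b - 2 * x * derivative b) := by
      rw [smul_eq_C_mul, smul_eq_C_mul, derivative_C_mul]
      ring
    rw [e, map_smul, eval_smul]
    rfl

private theorem esur_sum {P : Polynomial ℂ} {ι : Type} [Fintype ι] {c : ι → ℂ}
    (hinj : Function.Injective c) {m : ι → ℕ} (hm : ∀ i, P.rootMultiplicity (c i) = m i) :
    ∑ i, m i ≤ P.natDegree := by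
  classical
  have h1 : ∑ i, m i = ∑ a ∈ Finset.univ.map ⟨c, hinj⟩, P.roots.count a := by
    rw [Finset.sum_map]
    refine Finset.sum_congr rfl fun i _ => ?_
    rw [count_roots, ← hm i]
    rfl
  have h2 : ∑ a ∈ Finset.univ.map ⟨c, hinj⟩, P.roots.count a ≤
      ∑ a ∈ Finset.univ.map ⟨c, hinj⟩ ∪ P.roots.toFinset, P.roots.count a :=
    Finset.sum_le_sum_of_subset Finset.subset_union_left
  have h3 : ∑ a ∈ Finset.univ.map ⟨c, hinj⟩ ∪ P.roots.toFinset, P.roots.count a =
      P.roots.card := by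
    refine Multiset.sum_count_eq_card fun a ha => ?_
    exact Finset.mem_union_right _ (Multiset.mem_toFinset.mpr ha)
  rw [h1]
  exact h2.trans (h3.le.trans (card_roots' P))

theorem esur {d : ℕ} (hd : 2 ≤ d) {v0 : E d} (hcop : IsCoprime (pol v0.1) (pol v0.2))
    (hdeg : max (pol v0.1).natDegree (pol v0.2).natDegree = d) {ι : Type} [Fintype ι]
    {c : ι → ℂ} {m : ι → ℕ} (hinj : Function.Injective c) (hm : ∀ i, 1 ≤ m i)
    (hmult : ∀ i, (WP v0).rootMultiplicity (c i) = m i) (hb : ∀ i, ev v0.2 (c i) ≠ 0)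
    (hgr : ∀ i, GrS v0 (it v0 1 (c i)))
    (hex : ∃ c0 : ℂ, wv v0 c0 = 0 ∧ (∀ k, ev v0.2 (it v0 k c0) ≠ 0) ∧
      (Function.Injective fun k : ℕ => it v0 k c0) ∧
      ∀ n, (Rf v0)^[n] OnePoint.infty ≠ (c0 : OnePoint ℂ)) {κ : ι → E d →L[ℂ] ℂ}
    (hκ : ∀ i p, κ i p = ∑' k : ℕ, xi v0 p (it v0 k (it v0 1 (c i))) /
      trD v0 (k + 1) (it v0 1 (c i))) :
    Function.Surjective (fun v : E d => ((fun i => xi v0 v (c i) + κ i v,
      fun i l => (hasseDeriv (l : ℕ) (pol v0.2 * W1 v0 v)).eval (c i)) :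
        (ι → ℂ) × ((i : ι) → Fin (m i - 1) → ℂ))) := by
  classical
  by_contra hns
  have hR : RatD d (pol v0.1) (pol v0.2) := ⟨hd, hcop, hdeg⟩
  have hJ := js_it (d := d) hinj hm hmult hb hgr
  let F : E d →ₗ[ℂ] (ι → ℂ) × ((i : ι) → Fin (m i - 1) → ℂ) :=
    { toFun := fun v => (fun i => xi v0 v (c i) + κ i v,
        fun i l => (hasseDeriv (l : ℕ) (pol v0.2 * W1 v0 v)).eval (c i))
      map_add' := by
        intro v w
        refine Prod.ext ?_ ?_
        · funext i
          change xi v0 (v + w) (c i) + κ i (v + w) =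
            (xi v0 v (c i) + κ i v) + (xi v0 w (c i) + κ i w)
          rw [map_add, esur_xi_add]
          ring
        · funext i l
          change (hasseDeriv (l : ℕ) (pol v0.2 * W1 v0 (v + w))).eval (c i) =
            (hasseDeriv (l : ℕ) (pol v0.2 * W1 v0 v)).eval (c i) +
              (hasseDeriv (l : ℕ) (pol v0.2 * W1 v0 w)).eval (c i)
          rw [esur_W1_add, mul_add, map_add, eval_add]
      map_smul' := by
        intro k v
        refine Prod.ext ?_ ?_
        · funext i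
          change xi v0 (k • v) (c i) + κ i (k • v) = k * (xi v0 v (c i) + κ i v)
          rw [map_smul, esur_xi_smul, smul_eq_mul]
          ring
        · funext i l
          change (hasseDeriv (l : ℕ) (pol v0.2 * W1 v0 (k • v))).eval (c i) =
            k * (hasseDeriv (l : ℕ) (pol v0.2 * W1 v0 v)).eval (c i)
          have e : pol v0.2 * (C k * W1 v0 v) = k • (pol v0.2 * W1 v0 v) := by
            rw [smul_eq_C_mul]
            ring
          rw [esur_W1_smul, e, map_smul, eval_smul, smul_eq_mul] }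
  have hlt : LinearMap.range F < ⊤ := by
    rw [lt_top_iff_ne_top]
    intro htop
    exact hns (LinearMap.range_eq_top.mp htop)
  obtain ⟨φ, hφ, hle⟩ := Submodule.exists_le_ker_of_lt_top _ hlt
  have hφ0 : ∀ v, φ (F v) = 0 := fun v => hle ⟨v, rfl⟩
  obtain ⟨α, hα⟩ : ∃ α : ι → ℂ, α = fun i => φ (Pi.single i 1, 0) := ⟨_, rfl⟩
  obtain ⟨β, hβ⟩ : ∃ β : (i : ι) → Fin (m i - 1) → ℂ,
    β = fun i l => φ (0, Pi.single i (Pi.single l 1)) := ⟨_, rfl⟩
  have hform : ∀ (s : ι → ℂ) (t : (i : ι) → Fin (m i - 1) → ℂ),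
      φ (s, t) = ∑ i, α i * s i + ∑ i, ∑ l, β i l * t i l := by
    intro s t
    rw [hα, hβ]
    exact esur_form φ s t
  obtain ⟨Λ, hΛd⟩ : ∃ Λ : Polynomial ℂ →ₗ[ℂ] ℂ, Λ = (φ ∘ₗ LinearMap.inr ℂ (ι → ℂ)
    ((i : ι) → Fin (m i - 1) → ℂ)) ∘ₗ esur_V (pol v0.2) c (fun i => m i - 1) := ⟨_, rfl⟩
  have hΛ : ∀ η, Λ η = ∑ i, ∑ l : Fin (m i - 1), β i l * (hasseDeriv (l : ℕ)
      (derivative η * pol v0.2 - 2 * η * derivative (pol v0.2))).eval (c i) := by
    intro η
    have h1 : Λ η = φ (0, esur_V (pol v0.2) c (fun i => m i - 1) η) := by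
      rw [hΛd]
      rfl
    rw [h1, hform]
    simp only [Pi.zero_apply, mul_zero, Finset.sum_const_zero, zero_add]
    rfl
  have hww : ∀ i, (X - C (c i)) ^ m i ∣ WP v0 := by
    intro i
    rw [← hmult i]
    exact pow_rootMultiplicity_dvd _ _
  have hloc : Loc (pol v0.2) m (fun i k => it v0 k (c i)) Λ := by
    intro η hη
    rw [hΛ]
    refine Finset.sum_eq_zero fun i _ => Finset.sum_eq_zero fun l _ => ?_
    obtain ⟨e, he⟩ := hη i
    have he' : (X - C (c i)) ^ m i ∣ η - C e * (pol v0.2 * pol v0.2) := by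
      rw [← sq]
      exact he
    have h1 : derivative η * pol v0.2 - 2 * η * derivative (pol v0.2) =
        derivative (η - C e * (pol v0.2 * pol v0.2)) * pol v0.2 -
          2 * (η - C e * (pol v0.2 * pol v0.2)) * derivative (pol v0.2) := by
      rw [derivative_sub, derivative_C_mul, derivative_mul]
      ring
    have h2 : (X - C (c i)) ^ (m i - 1) ∣
        derivative η * pol v0.2 - 2 * η * derivative (pol v0.2) := by
      rw [h1]
      refine dvd_sub (Dvd.dvd.mul_right (pow_sub_one_dvd_derivative_of_pow_dvd he') _) ?_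
      have h3 : (X - C (c i)) ^ (m i - 1) ∣ η - C e * (pol v0.2 * pol v0.2) :=
        (pow_dvd_pow _ (Nat.sub_le _ _)).trans he'
      exact Dvd.dvd.mul_right (Dvd.dvd.mul_left h3 2) _
    rw [esur_hd h2 l.2, mul_zero]
  have hvan : ∀ η : Polynomial ℂ, η.natDegree ≤ 2 * d →
      Λ η + ∑ i, α i * ∑' k : ℕ, (trD v0 k (it v0 1 (c i)))⁻¹ *
        (η.eval (it v0 k (c i)) / (pol v0.2).eval (it v0 k (c i)) ^ 2) = 0 := by
    intro η hη
    obtain ⟨A, B, hA, hB, hAB⟩ := surj hR hη
    obtain ⟨v, hv⟩ : ∃ v : E d, v = (cf d A, cf d B) := ⟨_, rfl⟩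
    have hv1 : pol v.1 = A := by rw [hv]; exact pol_cf hA
    have hv2 : pol v.2 = B := by rw [hv]; exact pol_cf hB
    have hxi : ∀ z, xi v0 v z = η.eval z / (pol v0.2).eval z ^ 2 := by
      intro z
      unfold xi
      rw [← pol_eval v.1, ← pol_eval v0.2, ← pol_eval v0.1, ← pol_eval v.2, hv1, hv2, ← hAB,
        eval_sub, eval_mul, eval_mul]
    have h0 := hφ0 v
    have h1 : F v = (fun i => xi v0 v (c i) + κ i v,
        esur_V (pol v0.2) c (fun i => m i - 1) η) := by
      refine Prod.ext rfl ?_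
      funext i l
      change (hasseDeriv (l : ℕ) (pol v0.2 * W1 v0 v)).eval (c i) = (hasseDeriv (l : ℕ)
        (derivative η * pol v0.2 - 2 * η * derivative (pol v0.2))).eval (c i)
      rw [eta_id, hv1, hv2, hAB, map_add, eval_add]
      have h2 : (X - C (c i)) ^ m i ∣ 2 * B * WP v0 := Dvd.dvd.mul_left (hww i) _
      rw [esur_hd h2 (by have := l.2; omega), add_zero]
    rw [h1, hform] at h0
    rw [hΛ, add_comm]
    refine Eq.trans ?_ h0
    congr 1
    refine Finset.sum_congr rfl fun i _ => ?_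
    congr 1
    have hsum : Summable fun k : ℕ => (trD v0 k (it v0 1 (c i)))⁻¹ *
        (η.eval (it v0 k (c i)) / (pol v0.2).eval (it v0 k (c i)) ^ 2) := js_eta hR hJ hη i
    rw [hsum.tsum_eq_zero_add, hxi, hκ]
    congr 1
    · simp [it, trD]
    · refine tsum_congr fun k => ?_
      rw [esur_it1 v0 k (c i), hxi, inv_mul_eq_div]
  have hwv : ∀ i, wv v0 (c i) = 0 := by
    intro i
    rw [wv_pol]
    by_contra h0
    have h1 : (WP v0).rootMultiplicity (c i) = 0 := rootMultiplicity_eq_zero h0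
    have := hm i
    have := hmult i
    omega
  have hinf : ∃ c : ℂ, (ww (pol v0.1) (pol v0.2)).eval c = 0 ∧
      (∀ k, (pol v0.2).eval ((gg (pol v0.1) (pol v0.2))^[k] c) ≠ 0) ∧
      (Function.Injective fun k : ℕ => (gg (pol v0.1) (pol v0.2))^[k] c) ∧
      ∀ n, (rat (pol v0.1) (pol v0.2))^[n] OnePoint.infty ≠ (c : OnePoint ℂ) := by
    obtain ⟨c0, g1, g2, g3, g4⟩ := hex
    refine ⟨c0, ?_, fun k => ?_, ?_, g4⟩
    · rw [← wv_pol]
      exact g1
    · rw [← esur_it, pol_eval]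
      exact g2 k
    · simpa only [esur_it] using g3
  have hα0 := tv_main hR hJ (fun i hi => blow hd hcop hdeg (hwv i) (hb i) (hgr i) hi) hinf
    hloc hvan
  have hdegw : (WP v0).natDegree ≤ 2 * d := by
    have ha : (pol v0.1).natDegree ≤ d := pol_deg _
    have hb : (pol v0.2).natDegree ≤ d := pol_deg _
    have ha' := natDegree_derivative_le (pol v0.1)
    have hb' := natDegree_derivative_le (pol v0.2)
    unfold WP ww
    refine (natDegree_sub_le _ _).trans (max_le ?_ ?_)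
    · refine natDegree_mul_le.trans ?_
      omega
    · refine natDegree_mul_le.trans ?_
      omega
  have hβ0 : ∀ i l, β i l = 0 := by
    refine herm hinj hm (D := 2 * d) ((esur_sum hinj hmult).trans hdegw) (b := pol v0.2)
      (fun i => by rw [pol_eval]; exact hb i) ?_
    intro η hη
    have h1 := hvan η hη
    rw [hΛ] at h1
    simp only [hα0, zero_mul, Finset.sum_const_zero, add_zero] at h1
    exact h1
  apply hφ
  refine LinearMap.ext fun x => ?_
  obtain ⟨s, t⟩ := x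
  rw [hform]
  simp [hα0, hβ0]

end Pool.Agent.H91.CS
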