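import Pool.Agent.H91.CS.ESYS
import Pool.Agent.H91.CS.ESUR
import Pool.Agent.H91.CE.HYPF
import Pool.Agent.H79.Par.AttGood

/-!
# Module EFIN: the theorem in a good chart

PROOF. The zeros of `wv v0` are finitely many (`CE.wv_ne`). Let `ι = {c : ℂ // wv v0 c = 0 ∧ ¬ AttG v0 c}`, a finite type. `R c` for `c` with `AttG v0 c`: `att_good` (H79/Par/AttGood, `y j = it v0 j c`): `Att (Rf w) z` for `(w, z)` near `(v0, c)`. If `ι` is empty, `hyp_near` (H91/CE/HYPF) and `w = v0` (or near `v0`). Otherwise fix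
`i1 : ι`, `c1 = i1`. `hno`: no zero `c` of `wv v0` lands on `c1` after `l > 0` steps: if `AttG v0 c` then `c1` would be attracted too (`isSink_map`, the orbit of the sink stays in the plane; `tendsto` shifted); if `GrS v0 (it v0 1 c)` then `c1 = it v0 (l - 1) (it v0 1 c)` and
`trD v0 l (it v0 1 c) = 0`, against `GrS`. `m i = (WP v0).rootMultiplicity c ≥ 1` (`wv_pol`). `κ` from `tails` (or from its statement: first component), `esur`, `land_near`, `sys`: `w j, z j, N j`. `R c` for `c ∈ ι`: `crit_iso`. For large `j` `hyp_near` applies: let `wv (w j) z' = 0`,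
`z' ∈ ball c (R c)`. If `AttG v0 c`, done. If `c ∈ ι`: `z' = z j c` by `crit_iso` (`z j c ∈ ball c R` for large `j`), `(Rf (w j))^[N j c] (z j c) = z j i1` and `z j i1` is a periodic critical point (`(X - z j i1) ^ m ∣ WP (w j)`, `m ≥ 1`), so attracted by `super_att`
(`w j` is coprime of degree `d` for large `j`: `cop_near`), and `z j c` is attracted by `att_iter` (H32/BT/Top). So `HypDeg (w j)`, `w j ∈ ball v0 ε` for large `j`.
-/

set_option autoImplicit false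

open Filter Topology Metric Set Polynomial

namespace Pool.Agent.H91.CS

open Pool.Agent.H44.Fatou Pool.Agent.H32.BT Pool.Agent.H79.Eul Pool.Agent.H79.Par

private theorem efin_sink {f : OnePoint ℂ → OnePoint ℂ} (hf : Continuous f) {z : OnePoint ℂ}
    {n : ℕ} (h : IsSink f z n) (l : ℕ) : IsSink f (f^[l] z) n := by
  induction l with
  | zero => exact h
  | succ l ih =>
    rw [Function.iterate_succ_apply']
    exact isSink_map hf ih

/-- the image of a point attracted by a cycle in the plane is one -/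
private theorem efin_att {d : ℕ} {v0 : E d} (hcop : IsCoprime (pol v0.1) (pol v0.2)) {c : ℂ}
    (h : AttG v0 c) (l : ℕ) : AttG v0 (it v0 l c) := by
  obtain ⟨h1, z, n, h2, h3, h4⟩ := h
  have hf : Continuous (Rf v0) := rat_continuous hcop
  refine ⟨fun n => ?_, it v0 l z, n, ?_, ?_, ?_⟩
  · rw [← it_add]
    exact h1 _
  · have hz : (Rf v0)^[l] (z : OnePoint ℂ) = ((it v0 l z : ℂ) : OnePoint ℂ) :=
      rat_it fun i hi => ((orb_of_fin (n := l) fun j _ => h3 j) i hi).1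
    rw [← hz]
    exact efin_sink hf h2 l
  · intro j
    have hz : (Rf v0)^[l] (z : OnePoint ℂ) = ((it v0 l z : ℂ) : OnePoint ℂ) :=
      rat_it fun i hi => ((orb_of_fin (n := l) fun j _ => h3 j) i hi).1
    rw [← hz, ← Function.iterate_add_apply]
    exact h3 _
  · have hz : (Rf v0)^[l] (z : OnePoint ℂ) = ((it v0 l z : ℂ) : OnePoint ℂ) :=
      rat_it fun i hi => ((orb_of_fin (n := l) fun j _ => h3 j) i hi).1
    have hc : (Rf v0)^[l] (c : OnePoint ℂ) = ((it v0 l c : ℂ) : OnePoint ℂ) :=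
      rat_it fun i _ => h1 i
    rw [← hz, ← hc]
    have h5 := ((hf.iterate l).tendsto (z : OnePoint ℂ)).comp h4
    refine h5.congr fun j => ?_
    show (Rf v0)^[l] ((Rf v0)^[n * j] (c : OnePoint ℂ)) = _
    rw [← Function.iterate_add_apply, ← Function.iterate_add_apply, add_comm]

/-- no critical point lands on a critical point which is not attracted -/
private theorem efin_no {d : ℕ} {v0 : E d} (hcop : IsCoprime (pol v0.1) (pol v0.2)) {c1 : ℂ}
    (hw1 : wv v0 c1 = 0) (hn1 : ¬ AttG v0 c1) {c : ℂ}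
    (hc : AttG v0 c ∨ (ev v0.2 c ≠ 0 ∧ GrS v0 (it v0 1 c))) {l : ℕ} (hl : 0 < l) :
    (Rf v0)^[l] (c : OnePoint ℂ) ≠ (c1 : OnePoint ℂ) := by
  intro heq
  rcases hc with hc | ⟨hb, hg⟩
  · have h1 : (Rf v0)^[l] (c : OnePoint ℂ) = ((it v0 l c : ℂ) : OnePoint ℂ) :=
      rat_it fun i _ => hc.1 i
    rw [h1] at heq
    have h2 := OnePoint.coe_injective heq
    apply hn1
    rw [← h2]
    exact efin_att hcop hc l
  · have hden : ∀ i, ev v0.2 (it v0 i c) ≠ 0 := by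
      intro i
      cases i with
      | zero => exact hb
      | succ i =>
        have h1 := hg.1 i
        rwa [← it_add] at h1
    have h1 : (Rf v0)^[l] (c : OnePoint ℂ) = ((it v0 l c : ℂ) : OnePoint ℂ) :=
      rat_it fun i _ => hden i
    rw [h1] at heq
    have h2 := OnePoint.coe_injective heq
    obtain ⟨l', rfl⟩ : ∃ l', l = l' + 1 := ⟨l - 1, by omega⟩
    have h3 : it v0 l' (it v0 1 c) = c1 := by
      rw [← it_add]
      exact h2
    obtain ⟨-, k, q, hk, hq, hgr⟩ := hg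
    have h4 : trD v0 (l' + 1) (it v0 1 c) = 0 := by
      unfold trD
      rw [Finset.prod_range_succ, h3, hw1, zero_div, mul_zero]
    have h5 := hgr (l' + 1)
    rw [h4, norm_zero] at h5
    have h6 : 0 < k * q ^ (l' + 1) * (1 + ‖it v0 (l' + 1) (it v0 1 c)‖ ^ 2) := by positivity
    linarith

/-- the neighbourhoods of the attracted critical points -/
private theorem efin_near {d : ℕ} (hd : 2 ≤ d) {v0 : E d}
    (hcop : IsCoprime (pol v0.1) (pol v0.2))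
    (hdeg : max (pol v0.1).natDegree (pol v0.2).natDegree = d) {c : ℂ} (hc : AttG v0 c) :
    ∃ R : ℝ, 0 < R ∧ ∀ᶠ w in 𝓝 v0, ∀ z ∈ ball c R, Att (Rf w) (z : OnePoint ℂ) := by
  obtain ⟨h1, z, n, h2, h3, h4⟩ := hc
  have h5 := att_good hd hcop hdeg h2 h3 (y := fun j => it v0 j c)
    (fun j i _ => ⟨h1 i, rfl⟩) h4
  obtain ⟨ε, hε, hball⟩ := Metric.eventually_nhds_iff_ball.1 h5
  refine ⟨ε, hε, ?_⟩
  filter_upwards [ball_mem_nhds v0 hε] with w hw z' hz'
  refine hball (w, z') ?_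
  rw [← ball_prod_same]
  exact ⟨hw, hz'⟩

private theorem efin_seq {d : ℕ} (hd : 2 ≤ d) {v0 : E d} (hcop : IsCoprime (pol v0.1) (pol v0.2))
    (hdeg : max (pol v0.1).natDegree (pol v0.2).natDegree = d) (hne : WP v0 ≠ 0)
    (hfin : Finite {c : ℂ // wv v0 c = 0 ∧ ¬ AttG v0 c})
    (hinf : ∀ c : ℂ, wv v0 c = 0 → ∀ n, (Rf v0)^[n] OnePoint.infty ≠ (c : OnePoint ℂ))
    (hc : ∀ c : ℂ, wv v0 c = 0 → AttG v0 c ∨ (ev v0.2 c ≠ 0 ∧ GrS v0 (it v0 1 c)))
    (hex : ∃ c : ℂ, wv v0 c = 0 ∧ (∀ k, ev v0.2 (it v0 k c) ≠ 0) ∧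
      Function.Injective fun k : ℕ => it v0 k c) :
    ∃ w : ℕ → E d, Tendsto w atTop (𝓝 v0) ∧ ∀ c : ℂ, wv v0 c = 0 → ¬ AttG v0 c →
      ∃ R : ℝ, 0 < R ∧ ∀ᶠ j in atTop, ∀ z ∈ ball c R, wv (w j) z = 0 →
        Att (Rf (w j)) (z : OnePoint ℂ) := by
  classical
  rcases isEmpty_or_nonempty {c : ℂ // wv v0 c = 0 ∧ ¬ AttG v0 c} with hE | ⟨⟨i1⟩⟩
  · exact ⟨fun _ => v0, tendsto_const_nhds, fun c h1 h2 => (hE.false ⟨c, h1, h2⟩).elim⟩
  have : Fintype {c : ℂ // wv v0 c = 0 ∧ ¬ AttG v0 c} := Fintype.ofFinite _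
  have hgood : ∀ i : {c : ℂ // wv v0 c = 0 ∧ ¬ AttG v0 c},
      ev v0.2 (i : ℂ) ≠ 0 ∧ GrS v0 (it v0 1 (i : ℂ)) := fun i =>
    (hc i i.2.1).resolve_left i.2.2
  have hm : ∀ i : {c : ℂ // wv v0 c = 0 ∧ ¬ AttG v0 c},
      1 ≤ (WP v0).rootMultiplicity (i : ℂ) := by
    intro i
    refine (rootMultiplicity_pos hne).2 ?_
    show (WP v0).eval (i : ℂ) = 0
    have h1 := i.2.1
    rw [Pool.Agent.H61.TT.wv_pol] at h1
    exact h1
  obtain ⟨κ, hκ, -⟩ := tails hd hcop hdeg (x := fun i : {c : ℂ // wv v0 c = 0 ∧ ¬ AttG v0 c} =>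
    it v0 1 (i : ℂ)) (fun i => (hgood i).2)
  have hex' : ∃ c0 : ℂ, wv v0 c0 = 0 ∧ (∀ k, ev v0.2 (it v0 k c0) ≠ 0) ∧
      (Function.Injective fun k : ℕ => it v0 k c0) ∧
      ∀ n, (Rf v0)^[n] OnePoint.infty ≠ (c0 : OnePoint ℂ) := by
    obtain ⟨c0, h1, h2, h3⟩ := hex
    exact ⟨c0, h1, h2, h3, hinf c0 h1⟩
  have hsur := esur hd hcop hdeg (c := fun i : {c : ℂ // wv v0 c = 0 ∧ ¬ AttG v0 c} => (i : ℂ))
    (m := fun i => (WP v0).rootMultiplicity (i : ℂ)) Subtype.coe_injective hm (fun i => rfl)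
    (fun i => (hgood i).1) (fun i => (hgood i).2) hex' (κ := κ) hκ
  obtain ⟨w, z, N, hw, hz, hev⟩ := sys hd hcop hdeg
    (c := fun i : {c : ℂ // wv v0 c = 0 ∧ ¬ AttG v0 c} => (i : ℂ))
    (m := fun i => (WP v0).rootMultiplicity (i : ℂ)) hne hm (fun i => rfl)
    (fun i => (hgood i).1) (fun i => (hgood i).2) (κ := κ) hκ hsur i1
    (fun i U k hU hk => land_near hd hcop hdeg i1.2.1 (hinf _ i1.2.1)
      (fun c hc0 l hl => efin_no hcop i1.2.1 i1.2.2 (hc c hc0) hl) (hgood i).2 hU hk)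
  refine ⟨w, hw, fun c h1 h2 => ?_⟩
  obtain ⟨R, hR, hRev⟩ := crit_iso (v0 := v0) (c := c) (m := (WP v0).rootMultiplicity c) hne rfl
  refine ⟨R, hR, ?_⟩
  have h3 : ∀ᶠ j in atTop, z j ⟨c, h1, h2⟩ ∈ ball c R := (hz ⟨c, h1, h2⟩).eventually
    (ball_mem_nhds c hR)
  filter_upwards [hw.eventually hRev, h3, hev, hw.eventually (cop_near hcop hdeg (by omega))]
    with j k1 k2 k3 k4 z' hz' hwz
  obtain ⟨k5, k6, k7⟩ := k3 ⟨c, h1, h2⟩
  have hz'' : z' = z j ⟨c, h1, h2⟩ := by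
    refine k1 _ k2 k6 z' hz' ?_
    rw [Pool.Agent.H61.TT.wv_pol] at hwz
    exact hwz
  rw [hz'']
  obtain ⟨l5, l6, l7⟩ := k3 i1
  have hwi : wv (w j) (z j i1) = 0 := by
    rw [Pool.Agent.H61.TT.wv_pol]
    have h4 : (X - C (z j i1)) ∣ WP (w j) := (dvd_pow_self _ (by have := hm i1; omega)).trans l6
    exact dvd_iff_isRoot.1 h4
  have hatt := super_att hd k4.1 k4.2 hwi l5 l7
  rw [← k7] at hatt
  exact (att_iter (rat_continuous k4.1) _ _).1 hatt

theorem cs_core {d : ℕ} (hd : 2 ≤ d) {v0 : E d} (hcop : IsCoprime (pol v0.1) (pol v0.2))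
    (hdeg : max (pol v0.1).natDegree (pol v0.2).natDegree = d)
    (h1 : ¬ IsCrit (Rf v0) OnePoint.infty)
    (hinf : ∀ c : ℂ, wv v0 c = 0 → ∀ n, (Rf v0)^[n] OnePoint.infty ≠ (c : OnePoint ℂ))
    (hc : ∀ c : ℂ, wv v0 c = 0 → AttG v0 c ∨ (ev v0.2 c ≠ 0 ∧ GrS v0 (it v0 1 c)))
    (hex : ∃ c : ℂ, wv v0 c = 0 ∧ (∀ k, ev v0.2 (it v0 k c) ≠ 0) ∧
      Function.Injective fun k : ℕ => it v0 k c) {ε : ℝ} (hε : 0 < ε) :
    ∃ w ∈ ball v0 ε, HypDeg w := by
  classical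
  have hzf : {c : ℂ | wv v0 c = 0}.Finite := Pool.Agent.H91.CE.wv_ne hd hcop hdeg
  have hne : WP v0 ≠ 0 := by
    intro h
    have h2 : {c : ℂ | wv v0 c = 0} = Set.univ := by
      ext z
      have h3 : wv v0 z = 0 := by
        rw [Pool.Agent.H61.TT.wv_pol]
        have h4 : (WP v0).eval z = 0 := by rw [h, eval_zero]
        exact h4
      simp [h3]
    rw [h2] at hzf
    exact Set.infinite_univ hzf
  have hfin : Finite {c : ℂ // wv v0 c = 0 ∧ ¬ AttG v0 c} := by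
    have h3 : {c : ℂ | wv v0 c = 0 ∧ ¬ AttG v0 c}.Finite := hzf.subset fun c h => h.1
    exact h3.to_subtype
  obtain ⟨w, hw, hseq⟩ := efin_seq hd hcop hdeg hne hfin hinf hc hex
  have hloc : ∀ c : ℂ, ∃ R : ℝ, 0 < R ∧ (wv v0 c = 0 → ∀ᶠ j in atTop, ∀ z ∈ ball c R,
      wv (w j) z = 0 → Att (Rf (w j)) (z : OnePoint ℂ)) := by
    intro c
    by_cases hw0 : wv v0 c = 0
    swap
    · exact ⟨1, one_pos, fun h => absurd h hw0⟩
    by_cases hA : AttG v0 c
    · obtain ⟨R, hR, hev⟩ := efin_near hd hcop hdeg hA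
      refine ⟨R, hR, fun _ => ?_⟩
      filter_upwards [hw.eventually hev] with j hj z hz _
      exact hj z hz
    · obtain ⟨R, hR, hev⟩ := hseq c hw0 hA
      exact ⟨R, hR, fun _ => hev⟩
  choose R hR0 hR using hloc
  have h2 := hw.eventually (Pool.Agent.H91.CE.hyp_near hd hcop hdeg h1 (R := R) fun c _ => hR0 c)
  have h3 : ∀ᶠ j in atTop, ∀ c ∈ hzf.toFinset, ∀ z ∈ ball c (R c),
      wv (w j) z = 0 → Att (Rf (w j)) (z : OnePoint ℂ) := by
    rw [Filter.eventually_all_finset]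
    intro c hc
    exact hR c (hzf.mem_toFinset.1 hc)
  have h4 := hw.eventually (ball_mem_nhds v0 hε)
  obtain ⟨j, ⟨k1, k2⟩, k3⟩ := ((h2.and h3).and h4).exists
  refine ⟨w j, k3, k1 fun c hc z hz hwz => ?_⟩
  exact k2 c (hzf.mem_toFinset.2 hc) z hz hwz

end Pool.Agent.H91.CS
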