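import Pool.Agent.H91.CS.PDefs
import Pool.Agent.H91.CE.GRCH

/-!
# Module EGRS: exponential growth in the chordal metric

PROOF. Exactly as `gr_conj` (H91/CE/GRCH; copy the private `grch_lim`), without the compact set: with `w0 = Lin s v0` all iterates of `w` are finite (`orb_all`), and `C q ^ n * (hs s (it w0 n w)) ^ 2 / (hs s w) ^ 2 ≤ ‖trD w0 n w‖` for all `n`. `hs s t = √(‖t‖ ^ 2 + ‖1 + s t‖ ^ 2)` (H35/EX/Chord), and
`(hs s t) ^ 2 ≥ c' (1 + ‖t‖ ^ 2)` with `c' > 0` depending on `s` (`1 ≤ ‖1 + s t‖ + ‖s‖ ‖t‖ ≤ (1 + ‖s‖) √2 hs s t`, `‖t‖ ≤ hs s t`). So `GrS` with `c = C c' / (hs s w) ^ 2`.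
-/

set_option autoImplicit false

open Filter Topology Polynomial Metric Set

namespace Pool.Agent.H91.CS

open Pool.Agent.H44.Fatou Pool.Agent.H32.BT Pool.Agent.H79.Eul Pool.Agent.H79.Par
open Pool.Agent.H35.RL Pool.Agent.H35.EX Pool.Agent.H91.CE

/-- from the local expansion of `‖a - b‖ / (hs s a * hs s b)` to the derivative -/
private theorem egrs_lim {s : ℂ} {F : ℂ → ℂ} {D w : ℂ} {q : ℝ} (hF : HasDerivAt F D w)
    (h : ∀ᶠ u in 𝓝 w, q * (‖w - u‖ / (hs s w * hs s u)) ≤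
      ‖F w - F u‖ / (hs s (F w) * hs s (F u))) :
    q * ((hs s (F w) * hs s (F w)) / (hs s w * hs s w)) ≤ ‖D‖ := by
  have h1 : Tendsto (fun u => ‖slope F w u‖) (𝓝[≠] w) (𝓝 ‖D‖) :=
    (hasDerivAt_iff_tendsto_slope.1 hF).norm
  have h2 : Tendsto (fun u => hs s u) (𝓝[≠] w) (𝓝 (hs s w)) :=
    ((hs_cont s).tendsto w).mono_left nhdsWithin_le_nhds
  have h3 : Tendsto (fun u => hs s (F u)) (𝓝[≠] w) (𝓝 (hs s (F w))) :=
    (((hs_cont s).tendsto (F w)).comp hF.continuousAt).mono_left nhdsWithin_le_nhds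
  have h4 : Tendsto (fun u => q * ((hs s (F w) * hs s (F u)) / (hs s w * hs s u))) (𝓝[≠] w)
      (𝓝 (q * ((hs s (F w) * hs s (F w)) / (hs s w * hs s w)))) := by
    refine Tendsto.const_mul q (Tendsto.div (h3.const_mul _) (h2.const_mul _) ?_)
    have := hs_pos s w
    positivity
  refine le_of_tendsto_of_tendsto h4 h1 ?_
  have h5 : ∀ᶠ u in 𝓝[≠] w, u ≠ w := eventually_mem_nhdsWithin
  filter_upwards [h5, h.filter_mono nhdsWithin_le_nhds] with u hu hu2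
  have p1 := hs_pos s w
  have p2 := hs_pos s u
  have p3 := hs_pos s (F w)
  have p4 := hs_pos s (F u)
  have p5 : 0 < ‖w - u‖ := norm_pos_iff.2 (sub_ne_zero.2 hu.symm)
  have h6 : ‖slope F w u‖ = ‖F w - F u‖ / ‖w - u‖ := by
    rw [slope_def_field, norm_div, ← norm_neg (F u - F w), ← norm_neg (u - w), neg_sub, neg_sub]
  rw [h6, le_div_iff₀ p5]
  rw [le_div_iff₀ (by positivity)] at hu2
  calc q * (hs s (F w) * hs s (F u) / (hs s w * hs s u)) * ‖w - u‖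
      = q * (‖w - u‖ / (hs s w * hs s u)) * (hs s (F w) * hs s (F u)) := by ring
    _ ≤ ‖F w - F u‖ := hu2

private theorem egrs_low (s t : ℂ) :
    1 / ((1 + ‖s‖) ^ 2 + 1) * (1 + ‖t‖ ^ 2) ≤ hs s t * hs s t := by
  have h1 : hs s t * hs s t = ‖t‖ ^ 2 + ‖1 + s * t‖ ^ 2 := by
    unfold hs
    exact Real.mul_self_sqrt (by positivity)
  have hp := hs_pos s t
  have h2 : ‖t‖ ≤ hs s t := by
    apply le_of_sq_le_sq _ hp.le
    have h6 : 0 ≤ ‖1 + s * t‖ ^ 2 := by positivity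
    rw [sq (hs s t), h1]
    linarith
  have h3 : ‖1 + s * t‖ ≤ hs s t := by
    apply le_of_sq_le_sq _ hp.le
    have h6 : 0 ≤ ‖t‖ ^ 2 := by positivity
    rw [sq (hs s t), h1]
    linarith
  have h4 : 1 ≤ (1 + ‖s‖) * hs s t := by
    have h5 : ‖(1 : ℂ)‖ ≤ ‖1 + s * t‖ + ‖s * t‖ := by
      calc ‖(1 : ℂ)‖ = ‖(1 + s * t) - s * t‖ := by rw [add_sub_cancel_right]
        _ ≤ _ := norm_sub_le _ _
    rw [norm_one, norm_mul] at h5
    have h6 : ‖s‖ * ‖t‖ ≤ ‖s‖ * hs s t := mul_le_mul_of_nonneg_left h2 (norm_nonneg s)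
    linarith
  have h7 : 1 + ‖t‖ ^ 2 ≤ ((1 + ‖s‖) ^ 2 + 1) * (hs s t * hs s t) := by
    have h8 : 1 ≤ ((1 + ‖s‖) * hs s t) ^ 2 := one_le_pow₀ h4
    have h9 : ‖t‖ ^ 2 ≤ hs s t ^ 2 := pow_le_pow_left₀ (norm_nonneg t) h2 2
    calc 1 + ‖t‖ ^ 2 ≤ ((1 + ‖s‖) * hs s t) ^ 2 + hs s t ^ 2 := add_le_add h8 h9
      _ = _ := by ring
  have h10 : 0 < (1 + ‖s‖) ^ 2 + 1 := by positivity
  rw [one_div, inv_mul_le_iff₀ h10]
  exact h7

theorem grs_conj {d : ℕ} {v0 : E d} {s : ℂ} {φ : OnePoint ℂ ≃ₜ OnePoint ℂ}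
    (hφs : φ s = OnePoint.infty)
    (hφ : ∀ z : ℂ, z ≠ s → φ (z : OnePoint ℂ) = (((z - s)⁻¹ : ℂ) : OnePoint ℂ))
    (hφi : φ OnePoint.infty = ((0 : ℂ) : OnePoint ℂ))
    (hconj : ∀ x, Rf (Lin s v0) (φ x) = φ (Rf v0 x)) {x : OnePoint ℂ} {w : ℂ}
    (hxw : φ x = (w : OnePoint ℂ)) (hce : CEAt (Rf v0) x)
    (hfin : ∀ j, (Rf (Lin s v0))^[j] (w : OnePoint ℂ) ≠ OnePoint.infty) :
    GrS (Lin s v0) w := by
  obtain ⟨C, q, hC, hq, hex⟩ := hce
  set w0 : E d := Lin s v0 with hw0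
  have hcit : ∀ (n : ℕ) (x : OnePoint ℂ), (Rf w0)^[n] (φ x) = φ ((Rf v0)^[n] x) :=
    fun n x => iter_conj φ hconj n x
  have horb := orb_all hfin
  have hder : ∀ n : ℕ, HasDerivAt (fun u => it w0 n u) (trD w0 n w) w := fun n =>
    (orb_deriv (horb.1 n)).self_of_nhds
  have hpw := hs_pos s w
  refine ⟨fun n => (horb.1 (n + 1) n (Nat.lt_succ_self n)).1,
    C * (1 / ((1 + ‖s‖) ^ 2 + 1)) / (hs s w * hs s w), q, by positivity, hq, fun n => ?_⟩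
  have h1 : Tendsto (fun u : ℂ => φ.symm (u : OnePoint ℂ)) (𝓝 w) (𝓝 x) := by
    have h2 : φ.symm ((w : ℂ) : OnePoint ℂ) = x := by rw [← hxw, φ.symm_apply_apply]
    rw [← h2]
    exact (φ.symm.continuous.comp OnePoint.continuous_coe).tendsto w
  have h3 : ∀ᶠ u : ℂ in 𝓝 w, ∀ j < n, ev w0.2 (it w0 j u) ≠ 0 := by
    have hc : Tendsto (fun u : ℂ => (w0, u)) (𝓝 w) (𝓝 (w0, w)) :=
      (continuous_const.prodMk continuous_id).tendsto _
    exact hc.eventually (orb_near (horb.1 n))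
  have hstep : ∀ᶠ u in 𝓝 w, C * q ^ n * (‖w - u‖ / (hs s w * hs s u)) ≤
      ‖it w0 n w - it w0 n u‖ / (hs s (it w0 n w) * hs s (it w0 n u)) := by
    filter_upwards [h1.eventually (hex n), h3] with u hu1 hu3
    have e1 : φ (φ.symm (u : OnePoint ℂ)) = (u : OnePoint ℂ) := φ.apply_symm_apply _
    have e2 : φ ((Rf v0)^[n] x) = ((it w0 n w : ℂ) : OnePoint ℂ) := by
      rw [← hcit, hxw, horb.2 n]
    have e3 : φ ((Rf v0)^[n] (φ.symm (u : OnePoint ℂ))) = ((it w0 n u : ℂ) : OnePoint ℂ) := by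
      rw [← hcit, e1, rat_it hu3]
    rw [chord_phi hφs hφ hφi hxw e1, chord_phi hφs hφ hφi e2 e3] at hu1
    exact hu1
  have h4 := egrs_lim (hder n) hstep
  have h6 := egrs_low s (it w0 n w)
  have hqn : 0 < q ^ n := by positivity
  calc C * (1 / ((1 + ‖s‖) ^ 2 + 1)) / (hs s w * hs s w) * q ^ n * (1 + ‖it w0 n w‖ ^ 2)
      = C * q ^ n * ((1 / ((1 + ‖s‖) ^ 2 + 1) * (1 + ‖it w0 n w‖ ^ 2)) /
          (hs s w * hs s w)) := by ring
    _ ≤ C * q ^ n * ((hs s (it w0 n w) * hs s (it w0 n w)) / (hs s w * hs s w)) := by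
        apply mul_le_mul_of_nonneg_left _ (by positivity)
        exact div_le_div_of_nonneg_right h6 (by positivity)
    _ ≤ _ := h4

end Pool.Agent.H91.CS
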