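import Mathlib

/-!
# Module EHERM: Hermite interpolation

PROOF. Suppose `β i0 l0 ≠ 0`. It is enough to find `η` of degree at most `D` such that, at `c i`, the polynomial `V = η' b - 2 η b'` satisfies `(hasseDeriv l V).eval (c i) = 0` for all `l < m i - 1` except for `(i, l) = (i0, l0)`, where it is `1`. At `c = c i0`, `m = m i0`: let `u` be a
polynomial with `b ^ 3 * u ≡ (X - c) ^ l0` modulo `(X - c) ^ (m - 1)` (`b` is prime to `X - c`), `θ` a primitive of `u` (`derivative θ = u`), `η0 = b ^ 2 * θ`: `η0' b - 2 η0 b' = b ^ 3 u`. If `η ≡ η0` modulo `(X - c) ^ m`, then `V ≡ b ^ 3 u` modulo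
`(X - c) ^ (m - 1)`. By the Chinese remainder theorem there is a polynomial `η` with `η ≡ η0` modulo `(X - c i0) ^ m i0` and `η ≡ 0` modulo `(X - c i) ^ m i` for `i ≠ i0`, and after reduction modulo the product `∏ (X - c i) ^ m i`, of degree `∑ m i ≤ D`, it has degree less than `D`
(or `= 0`). (`(X - C c) ^ k ∣ Q` implies `(hasseDeriv l Q).eval c = 0` for `l < k`, Taylor expansion: `Polynomial.taylor`, `taylor_coeff`.)
-/

set_option autoImplicit false

open Polynomial

namespace Pool.Agent.H91.CS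

private theorem herm_tay (c : ℂ) (k : ℕ) (W : Polynomial ℂ) :
    taylor c ((X - C c) ^ k * W) = X ^ k * taylor c W := by
  have h : taylor c (X - C c : Polynomial ℂ) = X := by
    rw [map_sub, taylor_X, taylor_C]
    ring
  rw [taylor_mul, taylor_pow, h]

private theorem herm_zero {c : ℂ} {k l : ℕ} {Q : Polynomial ℂ} (h : (X - C c) ^ k ∣ Q)
    (hl : l < k) : (hasseDeriv l Q).eval c = 0 := by
  obtain ⟨W, rfl⟩ := h
  rw [← taylor_coeff, herm_tay, coeff_X_pow_mul', if_neg (by omega)]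

private theorem herm_one (c : ℂ) (l l0 : ℕ) :
    (hasseDeriv l ((X - C c) ^ l0 : Polynomial ℂ)).eval c = if l = l0 then 1 else 0 := by
  have h := herm_tay c l0 1
  rw [mul_one] at h
  have h1 : taylor c (1 : Polynomial ℂ) = 1 := by
    rw [← C_1, taylor_C]
  rw [← taylor_coeff, h, h1, mul_one, coeff_X_pow]

private theorem herm_V {c : ℂ} {k : ℕ} {b Q : Polynomial ℂ} (h : (X - C c) ^ k ∣ Q) :
    (X - C c) ^ (k - 1) ∣ derivative Q * b - 2 * Q * derivative b := by
  obtain ⟨W, rfl⟩ := h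
  rcases k with _ | k
  · simp
  · rw [Nat.add_sub_cancel]
    refine ⟨(C ((k : ℂ) + 1) * W + (X - C c) * derivative W) * b -
      2 * ((X - C c) * W) * derivative b, ?_⟩
    rw [derivative_mul, derivative_X_sub_C_pow]
    push_cast
    simp only [Nat.add_sub_cancel, map_add, map_one, C_eq_natCast, map_natCast]
    ring

private theorem herm_prim (u : Polynomial ℂ) : ∃ θ : Polynomial ℂ, derivative θ = u := by
  induction u using Polynomial.induction_on' with
  | add p q hp hq =>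
    obtain ⟨a, ha⟩ := hp
    obtain ⟨b, hb⟩ := hq
    exact ⟨a + b, by rw [derivative_add, ha, hb]⟩
  | monomial n a =>
    refine ⟨monomial (n + 1) (a / ((n : ℂ) + 1)), ?_⟩
    rw [derivative_monomial, Nat.add_sub_cancel]
    congr 1
    have : (n : ℂ) + 1 ≠ 0 := by exact_mod_cast Nat.succ_ne_zero n
    push_cast
    field_simp

private theorem herm_cop {c : ℂ} {b : Polynomial ℂ} (hb : b.eval c ≠ 0) :
    IsCoprime b (X - C c) := by
  have h : IsCoprime (X - C c) b := by
    rw [(irreducible_X_sub_C c).coprime_iff_not_dvd, dvd_iff_isRoot]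
    exact hb
  exact h.symm

theorem herm {ι : Type} [Fintype ι] {c : ι → ℂ} (hinj : Function.Injective c) {m : ι → ℕ}
    (hm : ∀ i, 1 ≤ m i) {D : ℕ} (hD : ∑ i, m i ≤ D) {b : Polynomial ℂ}
    (hb : ∀ i, b.eval (c i) ≠ 0) {β : (i : ι) → Fin (m i - 1) → ℂ}
    (h : ∀ η : Polynomial ℂ, η.natDegree ≤ D → ∑ i, ∑ l, β i l *
      (hasseDeriv (l : ℕ) (derivative η * b - 2 * η * derivative b)).eval (c i) = 0) :
    ∀ i l, β i l = 0 := by
  classical
  intro i0 l0
  -- local data
  obtain ⟨s, t, hst⟩ : IsCoprime (b ^ 3) ((X - C (c i0)) ^ (m i0 - 1)) := (herm_cop (hb i0)).pow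
  obtain ⟨θ, hθ⟩ := herm_prim (s * (X - C (c i0)) ^ (l0 : ℕ))
  obtain ⟨G, hG⟩ : ∃ G : Polynomial ℂ, G = ∏ i ∈ Finset.univ.erase i0, (X - C (c i)) ^ m i :=
    ⟨_, rfl⟩
  have hcop : IsCoprime G ((X - C (c i0)) ^ m i0) := by
    rw [hG]
    refine IsCoprime.prod_left fun i hi => ?_
    refine IsCoprime.pow (herm_cop ?_)
    rw [eval_sub, eval_X, eval_C]
    intro h0
    exact (Finset.ne_of_mem_erase hi) (hinj (sub_eq_zero.1 h0)).symm
  obtain ⟨s', t', hst'⟩ := hcop
  obtain ⟨P, hP⟩ : ∃ P : Polynomial ℂ, P = ∏ i, (X - C (c i)) ^ m i := ⟨_, rfl⟩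
  have hPG : P = (X - C (c i0)) ^ m i0 * G := by
    rw [hP, hG, Finset.mul_prod_erase _ (fun i => (X - C (c i)) ^ m i) (Finset.mem_univ i0)]
  have hmonic : P.Monic := by
    rw [hP]
    exact monic_prod_of_monic _ _ fun i _ => (monic_X_sub_C (c i)).pow (m i)
  have hdegP : P.natDegree ≤ D := by
    rw [hP, natDegree_prod_of_monic _ _ fun i _ => (monic_X_sub_C (c i)).pow (m i)]
    simpa [natDegree_pow] using hD
  obtain ⟨η, hη⟩ : ∃ η, η = (b ^ 2 * θ * s' * G) %ₘ P := ⟨_, rfl⟩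
  have hηdeg : η.natDegree ≤ D := by
    rw [hη]
    exact (natDegree_modByMonic_le _ hmonic).trans hdegP
  have hηdiv : P ∣ b ^ 2 * θ * s' * G - η := by
    refine ⟨(b ^ 2 * θ * s' * G) /ₘ P, ?_⟩
    have := modByMonic_add_div (b ^ 2 * θ * s' * G) P
    rw [hη]
    linear_combination -this
  -- the other points
  have hother : ∀ i, i ≠ i0 → (X - C (c i)) ^ m i ∣ η := by
    intro i hi
    have h1 : (X - C (c i)) ^ m i ∣ P := by
      rw [hP]
      exact Finset.dvd_prod_of_mem _ (Finset.mem_univ i)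
    have h2 : (X - C (c i)) ^ m i ∣ G := by
      rw [hG]
      exact Finset.dvd_prod_of_mem _ (Finset.mem_erase.2 ⟨hi, Finset.mem_univ i⟩)
    have h3 : (X - C (c i)) ^ m i ∣ b ^ 2 * θ * s' * G := h2.mul_left _
    have h4 := dvd_sub h3 (h1.trans hηdiv)
    rwa [sub_sub_cancel] at h4
  have hmain : (X - C (c i0)) ^ m i0 ∣ η - b ^ 2 * θ := by
    have h1 : (X - C (c i0)) ^ m i0 ∣ P := by
      rw [hP]
      exact Finset.dvd_prod_of_mem _ (Finset.mem_univ i0)
    have h2 : (X - C (c i0)) ^ m i0 ∣ b ^ 2 * θ * s' * G - b ^ 2 * θ := by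
      refine ⟨-(b ^ 2 * θ * t'), ?_⟩
      linear_combination (b ^ 2 * θ) * hst'
    have h4 := dvd_sub h2 (h1.trans hηdiv)
    have e : b ^ 2 * θ * s' * G - b ^ 2 * θ - (b ^ 2 * θ * s' * G - η) = η - b ^ 2 * θ := by ring
    rwa [e] at h4
  have hV0 : (X - C (c i0)) ^ (m i0 - 1) ∣ (derivative η * b - 2 * η * derivative b) -
      (X - C (c i0)) ^ (l0 : ℕ) := by
    have h1 := herm_V (b := b) hmain
    have h2 : (X - C (c i0)) ^ (m i0 - 1) ∣
        b ^ 3 * (s * (X - C (c i0)) ^ (l0 : ℕ)) - (X - C (c i0)) ^ (l0 : ℕ) := by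
      refine ⟨-(t * (X - C (c i0)) ^ (l0 : ℕ)), ?_⟩
      linear_combination ((X - C (c i0)) ^ (l0 : ℕ)) * hst
    have h3 := dvd_add h1 h2
    have e : derivative (η - b ^ 2 * θ) * b - 2 * (η - b ^ 2 * θ) * derivative b +
        (b ^ 3 * (s * (X - C (c i0)) ^ (l0 : ℕ)) - (X - C (c i0)) ^ (l0 : ℕ)) =
        (derivative η * b - 2 * η * derivative b) - (X - C (c i0)) ^ (l0 : ℕ) := by
      rw [derivative_sub, derivative_mul, hθ, derivative_pow]
      simp only [Nat.cast_ofNat, C_ofNat]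
      ring
    rwa [e] at h3
  have hval : ∀ i (l : Fin (m i - 1)), β i l *
      (hasseDeriv (l : ℕ) (derivative η * b - 2 * η * derivative b)).eval (c i) =
      if h : i = i0 then (if (l : ℕ) = l0 then β i l else 0) else 0 := by
    intro i l
    split_ifs with hi hl
    · subst hi
      have h1 := herm_zero hV0 l.2
      rw [map_sub, eval_sub, herm_one, if_pos hl] at h1
      rw [sub_eq_zero.1 h1, mul_one]
    · subst hi
      have h1 := herm_zero hV0 l.2
      rw [map_sub, eval_sub, herm_one, if_neg hl] at h1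
      rw [sub_eq_zero.1 h1, mul_zero]
    · rw [herm_zero (herm_V (b := b) (hother i hi)) l.2, mul_zero]
  have hfin := h η hηdeg
  rw [Finset.sum_congr rfl fun i _ => Finset.sum_congr rfl fun l _ => hval i l] at hfin
  rw [Finset.sum_eq_single i0 (fun i _ hi => by
    refine Finset.sum_eq_zero fun l _ => ?_
    rw [dif_neg hi]) (fun h0 => absurd (Finset.mem_univ _) h0)] at hfin
  rw [Finset.sum_eq_single l0 (fun l _ hl => by
    rw [dif_pos rfl, if_neg]
    intro h0
    exact hl (Fin.ext h0)) (fun h0 => absurd (Finset.mem_univ _) h0), dif_pos rfl, if_pos rfl] at hfin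
  exact hfin

end Pool.Agent.H91.CS
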