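import Pool.Agent.H91.CS.EDefs

/-!
# Module ELF: the landing function near a target

PROOF. `XC σ` is holomorphic near `Z0`; the denominators `ev w.2 (it w i (XC σ Z))`, `i < l`, are continuous functions of `(w, Z)` near `(v0, Z0)` and not zero there (induction on `i`, as `orb_cont`, `orb_near` in H79/Par/It, `diff_n` in H91/CE/EXPN), so `LFn σ l` is differentiable near
`(v0, Z0)` (compositions of quotients of polynomials in the coefficients and the point). `ch σ Z = (XC σ Z : OnePoint ℂ)` for `Z` near `Z0` (`Z ≠ 0` if `σ = true`), and `(Rf w)^[l] y = it w l y` if the denominators do not vanish (`rat_it` or `it_rat`).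
The derivative in `Z` at `(v0, Z0)` is `trD v0 l (XC σ Z0)` (`tr_hasDerivAt`) times the derivative of `XC σ`, which is `1` or `- 1 / Z0 ^ 2`.
-/

set_option autoImplicit false

open Filter Topology Metric Set Polynomial

namespace Pool.Agent.H91.CS

open Pool.Agent.H44.Fatou Pool.Agent.H32.BT Pool.Agent.H79.Eul Pool.Agent.H79.Par

private theorem ELF_ev {d : ℕ} {P : E d × ℂ → Fin (d + 1) → ℂ} {g : E d × ℂ → ℂ}
    {x : E d × ℂ} (hP : DifferentiableAt ℂ P x) (hg : DifferentiableAt ℂ g x) :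
    DifferentiableAt ℂ (fun y => ev (P y) (g y)) x := by
  unfold ev
  apply DifferentiableAt.fun_sum
  intro i _
  exact (differentiableAt_pi.1 hP i).mul (hg.pow _)

private theorem ELF_it {d : ℕ} {f : E d × ℂ → ℂ} {x : E d × ℂ} (hf : DifferentiableAt ℂ f x)
    (n : ℕ) (hev : ∀ i < n, ev x.1.2 (it x.1 i (f x)) ≠ 0) :
    DifferentiableAt ℂ (fun y : E d × ℂ => it y.1 n (f y)) x := by
  induction n with
  | zero => exact hf
  | succ n ih =>
    have ih' := ih fun i hi => hev i (by omega)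
    have h1 : DifferentiableAt ℂ (fun y : E d × ℂ => y.1.1) x := by fun_prop
    have h2 : DifferentiableAt ℂ (fun y : E d × ℂ => y.1.2) x := by fun_prop
    have h3 := hev n (by omega)
    have h4 : DifferentiableAt ℂ (fun y : E d × ℂ => (ev y.1.2 (it y.1 n (f y)))⁻¹) x :=
      DifferentiableAt.fun_inv (ELF_ev h2 ih') h3
    have h5 : (fun y : E d × ℂ => it y.1 (n + 1) (f y)) =
        fun y : E d × ℂ => ev y.1.1 (it y.1 n (f y)) * (ev y.1.2 (it y.1 n (f y)))⁻¹ := by
      funext y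
      rw [← div_eq_mul_inv]
      rfl
    rw [h5]
    exact (ELF_ev h1 ih').mul h4

private theorem ELF_xc {σ : Bool} {Z : ℂ} (hZ : σ = true → Z ≠ 0) :
    ∃ D : ℂ, D ≠ 0 ∧ HasDerivAt (XC σ) D Z := by
  cases σ with
  | false =>
    refine ⟨1, one_ne_zero, ?_⟩
    have h : XC false = fun z : ℂ => z := by
      funext z
      simp [XC]
    rw [h]
    exact hasDerivAt_id Z
  | true =>
    have h0 := hZ rfl
    refine ⟨-(Z ^ 2)⁻¹, neg_ne_zero.2 (inv_ne_zero (pow_ne_zero 2 h0)), ?_⟩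
    have h : XC true = fun z : ℂ => z⁻¹ := by
      funext z
      simp [XC]
    rw [h]
    exact hasDerivAt_inv h0

private theorem ELF_ch {σ : Bool} {Z : ℂ} (hZ : σ = true → Z ≠ 0) :
    ch σ Z = ((XC σ Z : ℂ) : OnePoint ℂ) := by
  cases σ with
  | false => simp [XC, ch_false_coe]
  | true =>
    rw [ch_true]
    unfold pt
    rw [if_neg (hZ rfl)]
    simp [XC]

theorem lf_near {d : ℕ} {v0 : E d} {c1 : ℂ} {σ : Bool} {l : ℕ} {Z0 : ℂ}
    (hZ : σ = true → Z0 ≠ 0) (hl : Lands v0 c1 (XC σ Z0) l) :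
    (∃ r : ℝ, 0 < r ∧ ∀ x ∈ ball ((v0, Z0) : E d × ℂ) r, DifferentiableAt ℂ (LFn σ l) x ∧
      (Rf x.1)^[l] (ch σ x.2) = ((LFn σ l x : ℂ) : OnePoint ℂ)) ∧
    LFn σ l (v0, Z0) = c1 ∧ deriv (fun Z : ℂ => LFn σ l (v0, Z)) Z0 ≠ 0 := by
  obtain ⟨hev, hc1, htr⟩ := hl
  obtain ⟨D, hD0, hD⟩ := ELF_xc hZ
  refine ⟨?_, hc1, ?_⟩
  · have ho : Orb v0 (fun j => it v0 j (XC σ Z0)) l := fun j hj => ⟨hev j hj, rfl⟩
    have hnear := orb_near ho
    have hΨ : Tendsto (fun x : E d × ℂ => (x.1, XC σ x.2)) (𝓝 (v0, Z0)) (𝓝 (v0, XC σ Z0)) := by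
      have h1 : ContinuousAt (fun x : E d × ℂ => XC σ x.2) (v0, Z0) :=
        ContinuousAt.comp (f := fun x : E d × ℂ => x.2) (g := XC σ) (x := (v0, Z0))
          hD.continuousAt continuous_snd.continuousAt
      exact (continuous_fst.continuousAt.prodMk h1)
    have hn : ∀ᶠ x : E d × ℂ in 𝓝 (v0, Z0), ∀ j < l, ev x.1.2 (it x.1 j (XC σ x.2)) ≠ 0 :=
      hΨ.eventually hnear
    have hz : ∀ᶠ x : E d × ℂ in 𝓝 (v0, Z0), σ = true → x.2 ≠ 0 := by
      cases σ with
      | false => exact Filter.Eventually.of_forall fun x h => absurd h (by decide)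
      | true =>
        have h2 : Tendsto (fun x : E d × ℂ => x.2) (𝓝 (v0, Z0)) (𝓝 Z0) :=
          continuous_snd.tendsto _
        filter_upwards [h2.eventually_ne (hZ rfl)] with x hx _
        exact hx
    obtain ⟨r, hr, hball⟩ := Metric.eventually_nhds_iff_ball.1 (hn.and hz)
    refine ⟨r, hr, ?_⟩
    intro x hx
    obtain ⟨hx1, hx2⟩ := hball x hx
    obtain ⟨D', _, hD'⟩ := ELF_xc hx2
    constructor
    · have h3 : DifferentiableAt ℂ (fun y : E d × ℂ => XC σ y.2) x :=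
        hD'.differentiableAt.comp x (differentiableAt_snd)
      exact ELF_it h3 l hx1
    · rw [ELF_ch hx2]
      exact rat_it hx1
  · have h1 := tr_hasDerivAt v0 (XC σ Z0) l hev
    have h2 : HasDerivAt (fun Z : ℂ => LFn σ l (v0, Z)) (trD v0 l (XC σ Z0) * D) Z0 :=
      HasDerivAt.comp Z0 h1 hD
    rw [h2.deriv]
    exact mul_ne_zero htr hD0

end Pool.Agent.H91.CS
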