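import Pool.Agent.H91.CS.EDefs

/-!
# Module ELOC: rescaled local equations and rescaled starting points

PROOF. General lemma: let `F : E d × ℂ → ℂ` be differentiable near `0`, `F 0 = 0`, with derivative `A` at `0`. Then `F (ρ j • x') / ρ j → A x` as `(j, x') → (∞, x)` (`HasFDerivAt.isLittleO`: `F (ρ x') = A (ρ x') + o(ρ)`), for every `x`, and on every ball `ball 0 M` the functions
`x ↦ F (ρ j • x) / ρ j` are differentiable for large `j`. Apply it to `F (p, z) = (hasseDeriv l (pol v0.2 * WP (v0 + θ • p))).eval (c + z)`, which is a polynomial in `z` and in the coefficients of `p` (`WP (v0 + p) = WP v0 + W1 v0 p + WP p`, the last term is quadratic), with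
derivative `(p, z) ↦ θ (hasseDeriv l (pol v0.2 * W1 v0 p)).eval c + (l + 1) (hasseDeriv (l + 1) (pol v0.2 * WP v0)).eval c * z` (`derivative (hasseDeriv l P) = (l + 1) hasseDeriv (l + 1) P`); and to
`F (p, z) = ev (v0 + θ • p).1 (c + z) / ev (v0 + θ • p).2 (c + z) - it v0 1 c`, with derivative `θ xi v0 p c` because `wv v0 c = 0`.
-/

set_option autoImplicit false

open Filter Topology Metric Set Polynomial

namespace Pool.Agent.H91.CS

open Pool.Agent.H44.Fatou Pool.Agent.H32.BT Pool.Agent.H79.Eul Pool.Agent.H79.Par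

/-- polynomials with differentiable coefficients and bounded degree -/
private def CD {d : ℕ} (Q : E d → ℂ[X]) : Prop :=
  (∀ i, Differentiable ℂ fun p => (Q p).coeff i) ∧ ∃ N : ℕ, ∀ p, (Q p).natDegree ≤ N

private theorem cd_const {d : ℕ} (P : ℂ[X]) : CD (fun _ : E d => P) :=
  ⟨fun _ => differentiable_const _, P.natDegree, fun _ => le_rfl⟩

private theorem cd_add {d : ℕ} {P Q : E d → ℂ[X]} (hP : CD P) (hQ : CD Q) :
    CD fun p => P p + Q p := by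
  obtain ⟨h1, N, h2⟩ := hP
  obtain ⟨h3, M, h4⟩ := hQ
  refine ⟨fun i => ?_, max N M, fun p => ?_⟩
  · simp only [coeff_add]
    exact (h1 i).add (h3 i)
  · exact (natDegree_add_le _ _).trans (max_le_max (h2 p) (h4 p))

private theorem cd_sub {d : ℕ} {P Q : E d → ℂ[X]} (hP : CD P) (hQ : CD Q) :
    CD fun p => P p - Q p := by
  obtain ⟨h1, N, h2⟩ := hP
  obtain ⟨h3, M, h4⟩ := hQ
  refine ⟨fun i => ?_, max N M, fun p => ?_⟩
  · simp only [coeff_sub]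
    exact (h1 i).sub (h3 i)
  · exact (natDegree_sub_le _ _).trans (max_le_max (h2 p) (h4 p))

private theorem cd_mul {d : ℕ} {P Q : E d → ℂ[X]} (hP : CD P) (hQ : CD Q) :
    CD fun p => P p * Q p := by
  obtain ⟨h1, N, h2⟩ := hP
  obtain ⟨h3, M, h4⟩ := hQ
  refine ⟨fun i => ?_, N + M, fun p => ?_⟩
  · simp only [coeff_mul]
    exact Differentiable.fun_sum fun x _ => (h1 _).mul (h3 _)
  · exact natDegree_mul_le.trans (add_le_add (h2 p) (h4 p))

private theorem cd_der {d : ℕ} {P : E d → ℂ[X]} (hP : CD P) : CD fun p => derivative (P p) := by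
  obtain ⟨h1, N, h2⟩ := hP
  refine ⟨fun i => ?_, N, fun p => ?_⟩
  · simp only [coeff_derivative]
    exact (h1 _).mul (differentiable_const _)
  · exact (natDegree_derivative_le _).trans (by have := h2 p; omega)

private theorem cd_pol {d : ℕ} {L : E d → (Fin (d + 1) → ℂ)} (hL : Differentiable ℂ L) :
    CD fun p => pol (L p) := by
  refine ⟨fun i => ?_, d, fun p => pol_deg _⟩
  simp only [pol_coeff']
  by_cases h : i < d + 1
  · simp only [dif_pos h]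
    exact differentiable_pi.1 hL _
  · simp only [dif_neg h]
    exact differentiable_const _

private theorem cd_eval {d : ℕ} {Q : E d → ℂ[X]} (hQ : CD Q) (l : ℕ) :
    Differentiable ℂ fun x : E d × ℂ => (hasseDeriv l (Q x.1)).eval x.2 := by
  obtain ⟨h1, N, h2⟩ := hQ
  have e : (fun x : E d × ℂ => (hasseDeriv l (Q x.1)).eval x.2) = fun x : E d × ℂ =>
      ∑ i ∈ Finset.range (N + 1), (((i + l).choose l : ℕ) : ℂ) * (Q x.1).coeff (i + l) *
        x.2 ^ i := by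
    funext x
    have h3 : (hasseDeriv l (Q x.1)).natDegree < N + 1 := by
      have h4 := natDegree_hasseDeriv_le (Q x.1) l
      have h5 := h2 x.1
      omega
    rw [eval_eq_sum_range' h3]
    refine Finset.sum_congr rfl fun i _ => ?_
    rw [hasseDeriv_coeff]
  rw [e]
  refine Differentiable.fun_sum fun i _ => ?_
  exact ((differentiable_const _).mul ((h1 _).comp differentiable_fst)).mul
    (differentiable_snd.pow _)

private theorem cd_wp {d : ℕ} {L : E d → E d} (hL : Differentiable ℂ L) :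
    CD fun p => WP (L p) := by
  unfold WP Pool.Agent.H61.TT.ww
  exact cd_sub (cd_mul (cd_der (cd_pol hL.fst)) (cd_pol hL.snd))
    (cd_mul (cd_pol hL.fst) (cd_der (cd_pol hL.snd)))

private theorem cd_w1 {d : ℕ} (v0 : E d) : CD fun p => W1 v0 p := by
  unfold W1
  exact cd_sub (cd_sub (cd_add (cd_mul (cd_der (cd_pol differentiable_fst)) (cd_const _))
    (cd_mul (cd_const _) (cd_pol differentiable_snd)))
      (cd_mul (cd_pol differentiable_fst) (cd_const _)))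
        (cd_mul (cd_const _) (cd_der (cd_pol differentiable_snd)))

private theorem wp_exp {d : ℕ} (v0 p : E d) (s : ℂ) :
    WP (v0 + s • p) = WP v0 + C s * W1 v0 p + C s ^ 2 * WP p := by
  unfold WP W1 Pool.Agent.H61.TT.ww
  rw [Prod.fst_add, Prod.snd_add, Prod.smul_fst, Prod.smul_snd, pol_add, pol_add, pol_smul,
    pol_smul]
  simp only [derivative_add, derivative_mul, derivative_C, zero_mul, zero_add]
  ring

private theorem hd_exp {d : ℕ} (v0 p : E d) (s : ℂ) (l : ℕ) (y : ℂ) :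
    (hasseDeriv l (pol v0.2 * WP (v0 + s • p))).eval y =
      (hasseDeriv l (pol v0.2 * WP v0)).eval y + s * (hasseDeriv l (pol v0.2 * W1 v0 p)).eval y +
        s ^ 2 * (hasseDeriv l (pol v0.2 * WP p)).eval y := by
  rw [wp_exp]
  have e : pol v0.2 * (WP v0 + C s * W1 v0 p + C s ^ 2 * WP p) =
      pol v0.2 * WP v0 + s • (pol v0.2 * W1 v0 p) + s ^ 2 • (pol v0.2 * WP p) := by
    rw [smul_eq_C_mul, smul_eq_C_mul, C_pow]
    ring
  rw [e, map_add, map_add, map_smul, map_smul, eval_add, eval_add, eval_smul, eval_smul,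
    smul_eq_mul, smul_eq_mul]

/-- a polynomial vanishing at `c`, rescaled -/
private theorem pol_lim {P : ℂ[X]} {c : ℂ} (h0 : P.eval c = 0) {ρ : ℕ → ℝ} (hρ : ∀ j, 0 < ρ j)
    (hρ0 : Tendsto ρ atTop (𝓝 0)) {α : Type} {F : Filter α} {J : α → ℕ} (hJ : Tendsto J F atTop)
    {Z : α → ℂ} {z : ℂ} (hZ : Tendsto Z F (𝓝 z)) :
    Tendsto (fun a => P.eval (c + ρ (J a) * Z a) / (ρ (J a) : ℂ)) F
      (𝓝 ((derivative P).eval c * z)) := by
  obtain ⟨R, hR⟩ := dvd_iff_isRoot.2 h0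
  have hy : Tendsto (fun a => c + (ρ (J a) : ℂ) * Z a) F (𝓝 c) := by
    have h1 : Tendsto (fun a => (ρ (J a) : ℂ)) F (𝓝 ((0 : ℝ) : ℂ)) :=
      (Complex.continuous_ofReal.tendsto 0).comp (hρ0.comp hJ)
    have h2 := (h1.mul hZ).const_add c
    rwa [Complex.ofReal_zero, zero_mul, add_zero] at h2
  have h3 : Tendsto (fun a => Z a * R.eval (c + (ρ (J a) : ℂ) * Z a)) F (𝓝 (z * R.eval c)) :=
    hZ.mul ((R.continuous.tendsto c).comp hy)
  have h4 : (derivative P).eval c = R.eval c := by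
    rw [hR, derivative_mul, derivative_X_sub_C, eval_add, eval_mul, eval_mul, eval_sub, eval_X,
      eval_C, sub_self, zero_mul, add_zero, eval_one, one_mul]
  rw [h4, mul_comm]
  refine h3.congr fun a => ?_
  have h5 : (ρ (J a) : ℂ) ≠ 0 := Complex.ofReal_ne_zero.2 (hρ _).ne'
  rw [hR, eval_mul, eval_sub, eval_X, eval_C, add_sub_cancel_left]
  field_simp

theorem loc_lim {d : ℕ} {v0 : E d} {c : ℂ} {l : ℕ}
    (h0 : (hasseDeriv l (pol v0.2 * WP v0)).eval c = 0) (θ : ℝ) {ρ : ℕ → ℝ} (hρ : ∀ j, 0 < ρ j)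
    (hρ0 : Tendsto ρ atTop (𝓝 0)) :
    (∀ j, Differentiable ℂ (fun x : E d × ℂ =>
      (hasseDeriv l (pol v0.2 * WP (v0 + ((ρ j * θ : ℝ) : ℂ) • x.1))).eval (c + ρ j * x.2) /
        (ρ j : ℂ))) ∧
    ∀ x : E d × ℂ, Tendsto (fun w : ℕ × (E d × ℂ) =>
      (hasseDeriv l (pol v0.2 * WP (v0 + ((ρ w.1 * θ : ℝ) : ℂ) • w.2.1))).eval
        (c + ρ w.1 * w.2.2) / (ρ w.1 : ℂ)) (atTop ×ˢ 𝓝 x)
      (𝓝 (θ * (hasseDeriv l (pol v0.2 * W1 v0 x.1)).eval c +
        (l + 1) * (hasseDeriv (l + 1) (pol v0.2 * WP v0)).eval c * x.2)) := by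
  constructor
  · intro j
    have hL : Differentiable ℂ fun p : E d => v0 + ((ρ j * θ : ℝ) : ℂ) • p := by fun_prop
    have h1 : CD fun p : E d => pol v0.2 * WP (v0 + ((ρ j * θ : ℝ) : ℂ) • p) :=
      cd_mul (cd_const _) (cd_wp hL)
    have h2 := cd_eval h1 l
    have h3 : Differentiable ℂ fun x : E d × ℂ => (x.1, c + (ρ j : ℂ) * x.2) :=
      differentiable_fst.prodMk ((differentiable_snd.const_mul _).const_add _)
    have h4 := h2.comp h3
    simp only [div_eq_mul_inv]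
    exact h4.mul_const _
  · intro x
    have hJ : Tendsto (fun w : ℕ × (E d × ℂ) => w.1) (atTop ×ˢ 𝓝 x) atTop := tendsto_fst
    have hX : Tendsto (fun w : ℕ × (E d × ℂ) => w.2) (atTop ×ˢ 𝓝 x) (𝓝 x) := tendsto_snd
    have hX1 : Tendsto (fun w : ℕ × (E d × ℂ) => w.2.1) (atTop ×ˢ 𝓝 x) (𝓝 x.1) :=
      (continuous_fst.tendsto x).comp hX
    have hX2 : Tendsto (fun w : ℕ × (E d × ℂ) => w.2.2) (atTop ×ˢ 𝓝 x) (𝓝 x.2) :=
      (continuous_snd.tendsto x).comp hX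
    have hr : Tendsto (fun w : ℕ × (E d × ℂ) => (ρ w.1 : ℂ)) (atTop ×ˢ 𝓝 x) (𝓝 0) := by
      have h1 := (Complex.continuous_ofReal.tendsto 0).comp (hρ0.comp hJ)
      rwa [Complex.ofReal_zero] at h1
    have hy : Tendsto (fun w : ℕ × (E d × ℂ) => c + (ρ w.1 : ℂ) * w.2.2) (atTop ×ˢ 𝓝 x)
        (𝓝 c) := by
      have h1 := (hr.mul hX2).const_add c
      rwa [zero_mul, add_zero] at h1
    have t1 := pol_lim h0 hρ hρ0 hJ hX2
    have t2 : Tendsto (fun w : ℕ × (E d × ℂ) =>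
        (hasseDeriv l (pol v0.2 * W1 v0 w.2.1)).eval (c + (ρ w.1 : ℂ) * w.2.2))
        (atTop ×ˢ 𝓝 x) (𝓝 ((hasseDeriv l (pol v0.2 * W1 v0 x.1)).eval c)) :=
      ((cd_eval (cd_mul (cd_const (pol v0.2)) (cd_w1 v0)) l).continuous.tendsto (x.1, c)).comp
        (hX1.prodMk_nhds hy)
    have t3 : Tendsto (fun w : ℕ × (E d × ℂ) =>
        (hasseDeriv l (pol v0.2 * WP w.2.1)).eval (c + (ρ w.1 : ℂ) * w.2.2))
        (atTop ×ˢ 𝓝 x) (𝓝 ((hasseDeriv l (pol v0.2 * WP x.1)).eval c)) :=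
      ((cd_eval (cd_mul (cd_const (pol v0.2)) (cd_wp differentiable_id)) l).continuous.tendsto
        (x.1, c)).comp (hX1.prodMk_nhds hy)
    have t4 := (t1.add (t2.const_mul (θ : ℂ))).add ((hr.mul (t3.const_mul ((θ : ℂ) ^ 2))))
    have e1 : (derivative (hasseDeriv l (pol v0.2 * WP v0))).eval c =
        (l + 1) * (hasseDeriv (l + 1) (pol v0.2 * WP v0)).eval c := by
      have h1 := LinearMap.congr_fun (hasseDeriv_comp (R := ℂ) 1 l) (pol v0.2 * WP v0)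
      rw [LinearMap.comp_apply, hasseDeriv_one] at h1
      rw [h1, LinearMap.smul_apply, Nat.choose_one_right, add_comm 1 l, nsmul_eq_mul, eval_mul,
        eval_natCast]
      push_cast
      ring
    rw [e1, zero_mul, add_zero] at t4
    have e3 : (θ : ℂ) * (hasseDeriv l (pol v0.2 * W1 v0 x.1)).eval c +
        (l + 1) * (hasseDeriv (l + 1) (pol v0.2 * WP v0)).eval c * x.2 =
        (l + 1) * (hasseDeriv (l + 1) (pol v0.2 * WP v0)).eval c * x.2 +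
          (θ : ℂ) * (hasseDeriv l (pol v0.2 * W1 v0 x.1)).eval c := add_comm _ _
    rw [e3]
    refine t4.congr fun w => ?_
    have h5 : (ρ w.1 : ℂ) ≠ 0 := Complex.ofReal_ne_zero.2 (hρ _).ne'
    rw [hd_exp]
    push_cast
    field_simp

private theorem ev_exp {d : ℕ} (a p : Fin (d + 1) → ℂ) (s y : ℂ) :
    ev (a + s • p) y = ev a y + s * ev p y := by
  rw [← pol_eval, ← pol_eval, ← pol_eval, pol_add, pol_smul, eval_add, eval_mul, eval_C]

private theorem start_diff {d : ℕ} {v0 : E d} {c : ℂ} (hb : ev v0.2 c ≠ 0) (θ : ℝ)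
    {ρ : ℕ → ℝ} (hρ : ∀ j, 0 < ρ j) (hρ0 : Tendsto ρ atTop (𝓝 0)) (M : ℝ) :
    ∀ᶠ j in atTop, DifferentiableOn ℂ (fun x : E d × ℂ =>
      (ev (v0 + ((ρ j * θ : ℝ) : ℂ) • x.1).1 (c + ρ j * x.2) /
        ev (v0 + ((ρ j * θ : ℝ) : ℂ) • x.1).2 (c + ρ j * x.2) - it v0 1 c) / (ρ j : ℂ))
      (ball 0 M) := by
  have h0 : ∀ᶠ y : E d × ℂ in 𝓝 (v0, c), ev y.1.2 y.2 ≠ 0 :=
    (ev2_cont (d := d)).continuousAt.eventually_ne hb
  obtain ⟨δ, hδ, hδb⟩ := Metric.eventually_nhds_iff_ball.1 h0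
  have h1 : Tendsto (fun j => ρ j * ((|θ| + 1) * (|M| + 1))) atTop (𝓝 0) := by
    have := hρ0.mul_const ((|θ| + 1) * (|M| + 1))
    rwa [zero_mul] at this
  filter_upwards [h1.eventually (gt_mem_nhds hδ)] with j hj
  have hne : ∀ x ∈ ball (0 : E d × ℂ) M,
      ev (v0 + ((ρ j * θ : ℝ) : ℂ) • x.1).2 (c + ρ j * x.2) ≠ 0 := by
    intro x hx
    have hx' : ‖x‖ < M := mem_ball_zero_iff.1 hx
    have hM : ‖x‖ < |M| + 1 := by
      have := le_abs_self M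
      linarith
    refine hδb (v0 + ((ρ j * θ : ℝ) : ℂ) • x.1, c + ρ j * x.2) ?_
    rw [← ball_prod_same]
    constructor
    · show v0 + ((ρ j * θ : ℝ) : ℂ) • x.1 ∈ ball v0 δ
      rw [mem_ball_iff_norm, add_sub_cancel_left, norm_smul, Complex.norm_real, norm_mul,
        Real.norm_of_nonneg (hρ j).le, Real.norm_eq_abs, mul_assoc]
      refine lt_of_le_of_lt ?_ hj
      refine mul_le_mul_of_nonneg_left ?_ (hρ j).le
      exact mul_le_mul (by linarith) ((norm_fst_le x).trans hM.le) (norm_nonneg _)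
        (by positivity)
    · show c + ρ j * x.2 ∈ ball c δ
      rw [mem_ball_iff_norm, add_sub_cancel_left, norm_mul, Complex.norm_real,
        Real.norm_of_nonneg (hρ j).le]
      refine lt_of_le_of_lt ?_ hj
      refine mul_le_mul_of_nonneg_left ?_ (hρ j).le
      have h2 := (norm_snd_le x).trans hM.le
      have h3 : 0 ≤ |θ| := abs_nonneg _
      have h4 : 0 ≤ |M| + 1 := by positivity
      nlinarith
  have hL : Differentiable ℂ fun p : E d => v0 + ((ρ j * θ : ℝ) : ℂ) • p := by fun_prop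
  have h3 : Differentiable ℂ fun x : E d × ℂ => (x.1, c + (ρ j : ℂ) * x.2) :=
    differentiable_fst.prodMk ((differentiable_snd.const_mul _).const_add _)
  have hA : Differentiable ℂ fun x : E d × ℂ =>
      ev (v0 + ((ρ j * θ : ℝ) : ℂ) • x.1).1 (c + ρ j * x.2) := by
    have h4 := (cd_eval (cd_pol hL.fst) 0).comp h3
    have e : (fun x : E d × ℂ => ev (v0 + ((ρ j * θ : ℝ) : ℂ) • x.1).1 (c + ρ j * x.2)) =
        (fun x : E d × ℂ => (hasseDeriv 0 (pol (v0 + ((ρ j * θ : ℝ) : ℂ) • x.1).1)).eval x.2) ∘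
          fun x : E d × ℂ => (x.1, c + (ρ j : ℂ) * x.2) := by
      funext x
      simp only [Function.comp_apply, hasseDeriv_zero', pol_eval]
    rw [e]
    exact h4
  have hB : Differentiable ℂ fun x : E d × ℂ =>
      ev (v0 + ((ρ j * θ : ℝ) : ℂ) • x.1).2 (c + ρ j * x.2) := by
    have h4 := (cd_eval (cd_pol hL.snd) 0).comp h3
    have e : (fun x : E d × ℂ => ev (v0 + ((ρ j * θ : ℝ) : ℂ) • x.1).2 (c + ρ j * x.2)) =
        (fun x : E d × ℂ => (hasseDeriv 0 (pol (v0 + ((ρ j * θ : ℝ) : ℂ) • x.1).2)).eval x.2) ∘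
          fun x : E d × ℂ => (x.1, c + (ρ j : ℂ) * x.2) := by
      funext x
      simp only [Function.comp_apply, hasseDeriv_zero', pol_eval]
    rw [e]
    exact h4
  have h5 : DifferentiableOn ℂ (fun x : E d × ℂ =>
      ev (v0 + ((ρ j * θ : ℝ) : ℂ) • x.1).1 (c + ρ j * x.2) /
        ev (v0 + ((ρ j * θ : ℝ) : ℂ) • x.1).2 (c + ρ j * x.2)) (ball 0 M) :=
    (hA.differentiableOn.fun_mul (hB.differentiableOn.fun_inv hne)).congr fun x _ => by
      rw [div_eq_mul_inv]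
  have h6 := (h5.sub_const (it v0 1 c)).mul_const (ρ j : ℂ)⁻¹
  exact h6.congr fun x _ => by rw [div_eq_mul_inv]

private theorem start_ev1 {d : ℕ} {α : Type} {F : Filter α} {p : α → E d} {y : α → ℂ} {q : E d}
    {c : ℂ} (hp : Tendsto p F (𝓝 q)) (hy : Tendsto y F (𝓝 c)) :
    Tendsto (fun a => ev (p a).1 (y a)) F (𝓝 (ev q.1 c)) := by
  have h1 := (ev1_cont (d := d)).tendsto (q, c)
  have h2 := hp.prodMk_nhds hy
  have h3 := Filter.Tendsto.comp h1 h2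
  exact h3

private theorem start_ev2 {d : ℕ} {α : Type} {F : Filter α} {p : α → E d} {y : α → ℂ} {q : E d}
    {c : ℂ} (hp : Tendsto p F (𝓝 q)) (hy : Tendsto y F (𝓝 c)) :
    Tendsto (fun a => ev (p a).2 (y a)) F (𝓝 (ev q.2 c)) := by
  have h1 := (ev2_cont (d := d)).tendsto (q, c)
  have h2 := hp.prodMk_nhds hy
  have h3 := Filter.Tendsto.comp h1 h2
  exact h3

private theorem start_alg {a0 b0 a b p q s θ : ℂ} (hb : b0 ≠ 0) (hs : s ≠ 0)
    (h : b + s * θ * q ≠ 0) :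
    ((b0 * a - a0 * b) / s + θ * (p * b0 - a0 * q)) / ((b + s * θ * q) * b0) =
      ((a + s * θ * p) / (b + s * θ * q) - a0 / b0) / s := by
  field_simp
  ring

theorem start_lim {d : ℕ} {v0 : E d} {c : ℂ} (hc : wv v0 c = 0) (hb : ev v0.2 c ≠ 0) (θ : ℝ)
    {ρ : ℕ → ℝ} (hρ : ∀ j, 0 < ρ j) (hρ0 : Tendsto ρ atTop (𝓝 0)) (x : E d × ℂ) :
    (∀ᶠ w : ℕ × (E d × ℂ) in atTop ×ˢ 𝓝 x,
      ev (v0 + ((ρ w.1 * θ : ℝ) : ℂ) • w.2.1).2 (c + ρ w.1 * w.2.2) ≠ 0) ∧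
    (∀ M : ℝ, ∀ᶠ j in atTop, DifferentiableOn ℂ (fun x : E d × ℂ =>
      (ev (v0 + ((ρ j * θ : ℝ) : ℂ) • x.1).1 (c + ρ j * x.2) /
        ev (v0 + ((ρ j * θ : ℝ) : ℂ) • x.1).2 (c + ρ j * x.2) - it v0 1 c) / (ρ j : ℂ))
      (ball 0 M)) ∧
    Tendsto (fun w : ℕ × (E d × ℂ) =>
      (ev (v0 + ((ρ w.1 * θ : ℝ) : ℂ) • w.2.1).1 (c + ρ w.1 * w.2.2) /
        ev (v0 + ((ρ w.1 * θ : ℝ) : ℂ) • w.2.1).2 (c + ρ w.1 * w.2.2) - it v0 1 c) /
          (ρ w.1 : ℂ)) (atTop ×ˢ 𝓝 x) (𝓝 (θ * xi v0 x.1 c)) := by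
  have hJ : Tendsto (fun w : ℕ × (E d × ℂ) => w.1) (atTop ×ˢ 𝓝 x) atTop := tendsto_fst
  have hX : Tendsto (fun w : ℕ × (E d × ℂ) => w.2) (atTop ×ˢ 𝓝 x) (𝓝 x) := tendsto_snd
  have hX1 : Tendsto (fun w : ℕ × (E d × ℂ) => w.2.1) (atTop ×ˢ 𝓝 x) (𝓝 x.1) :=
    (continuous_fst.tendsto x).comp hX
  have hX2 : Tendsto (fun w : ℕ × (E d × ℂ) => w.2.2) (atTop ×ˢ 𝓝 x) (𝓝 x.2) :=
    (continuous_snd.tendsto x).comp hX
  have hr : Tendsto (fun w : ℕ × (E d × ℂ) => (ρ w.1 : ℂ)) (atTop ×ˢ 𝓝 x) (𝓝 0) := by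
    have h1 := (Complex.continuous_ofReal.tendsto 0).comp (hρ0.comp hJ)
    rwa [Complex.ofReal_zero] at h1
  have hy : Tendsto (fun w : ℕ × (E d × ℂ) => c + (ρ w.1 : ℂ) * w.2.2) (atTop ×ˢ 𝓝 x)
      (𝓝 c) := by
    have h1 := (hr.mul hX2).const_add c
    rwa [zero_mul, add_zero] at h1
  have hP1 : Tendsto (fun w : ℕ × (E d × ℂ) => ev w.2.1.1 (c + (ρ w.1 : ℂ) * w.2.2))
      (atTop ×ˢ 𝓝 x) (𝓝 (ev x.1.1 c)) :=
    start_ev1 hX1 hy
  have hP2 : Tendsto (fun w : ℕ × (E d × ℂ) => ev w.2.1.2 (c + (ρ w.1 : ℂ) * w.2.2))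
      (atTop ×ˢ 𝓝 x) (𝓝 (ev x.1.2 c)) :=
    start_ev2 hX1 hy
  have hQ2 : Tendsto (fun w : ℕ × (E d × ℂ) => ev v0.2 (c + (ρ w.1 : ℂ) * w.2.2))
      (atTop ×ˢ 𝓝 x) (𝓝 (ev v0.2 c)) :=
    start_ev2 tendsto_const_nhds hy
  have e3 : ∀ w : ℕ × (E d × ℂ), ev (v0 + ((ρ w.1 * θ : ℝ) : ℂ) • w.2.1).2 (c + ρ w.1 * w.2.2) =
      ev v0.2 (c + ρ w.1 * w.2.2) + ρ w.1 * θ * ev w.2.1.2 (c + ρ w.1 * w.2.2) := by
    intro w
    rw [Prod.snd_add, Prod.smul_snd, ev_exp, Complex.ofReal_mul]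
  have hden : Tendsto (fun w : ℕ × (E d × ℂ) =>
      ev (v0 + ((ρ w.1 * θ : ℝ) : ℂ) • w.2.1).2 (c + ρ w.1 * w.2.2)) (atTop ×ˢ 𝓝 x)
      (𝓝 (ev v0.2 c)) := by
    have h1 := hQ2.add ((hr.mul_const (θ : ℂ)).mul hP2)
    rw [zero_mul, zero_mul, add_zero] at h1
    exact h1.congr fun w => (e3 w).symm
  have hev0 := hden.eventually_ne hb
  refine ⟨hev0, fun M => start_diff hb θ hρ hρ0 M, ?_⟩
  have hT0 : (C (ev v0.2 c) * pol v0.1 - C (ev v0.1 c) * pol v0.2).eval c = 0 := by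
    rw [eval_sub, eval_mul, eval_mul, eval_C, eval_C, pol_eval, pol_eval]
    ring
  have hT1 : (derivative (C (ev v0.2 c) * pol v0.1 - C (ev v0.1 c) * pol v0.2)).eval c = 0 := by
    rw [Pool.Agent.H61.TT.wv_pol] at hc
    unfold Pool.Agent.H61.TT.ww at hc
    rw [eval_sub, eval_mul, eval_mul, pol_eval, pol_eval] at hc
    rw [derivative_sub, derivative_C_mul, derivative_C_mul, eval_sub, eval_mul, eval_mul,
      eval_C, eval_C]
    linear_combination hc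
  have t1 := pol_lim hT0 hρ hρ0 hJ hX2
  rw [hT1, zero_mul] at t1
  have t2 := ((hP1.mul_const (ev v0.2 c)).sub (hP2.const_mul (ev v0.1 c))).const_mul (θ : ℂ)
  have hden2 : Tendsto (fun w : ℕ × (E d × ℂ) =>
      ev (v0 + ((ρ w.1 * θ : ℝ) : ℂ) • w.2.1).2 (c + ρ w.1 * w.2.2) * ev v0.2 c) (atTop ×ˢ 𝓝 x)
      (𝓝 (ev v0.2 c * ev v0.2 c)) := hden.mul_const (ev v0.2 c)
  have t3 : Tendsto (fun w : ℕ × (E d × ℂ) =>
      ((C (ev v0.2 c) * pol v0.1 - C (ev v0.1 c) * pol v0.2).eval (c + ρ w.1 * w.2.2) /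
        (ρ w.1 : ℂ) + (θ : ℂ) * (ev w.2.1.1 (c + (ρ w.1 : ℂ) * w.2.2) * ev v0.2 c -
          ev v0.1 c * ev w.2.1.2 (c + (ρ w.1 : ℂ) * w.2.2))) /
      (ev (v0 + ((ρ w.1 * θ : ℝ) : ℂ) • w.2.1).2 (c + ρ w.1 * w.2.2) * ev v0.2 c))
      (atTop ×ˢ 𝓝 x) (𝓝 ((0 + (θ : ℂ) * (ev x.1.1 c * ev v0.2 c - ev v0.1 c * ev x.1.2 c)) /
      (ev v0.2 c * ev v0.2 c))) := (t1.add t2).div hden2 (mul_ne_zero hb hb)
  clear t1 t2 hden2 hT1
  have e1 : (0 + (θ : ℂ) * (ev x.1.1 c * ev v0.2 c - ev v0.1 c * ev x.1.2 c)) /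
      (ev v0.2 c * ev v0.2 c) = θ * xi v0 x.1 c := by
    unfold xi
    rw [zero_add, pow_two, mul_div_assoc]
  rw [e1] at t3
  refine t3.congr' ?_
  filter_upwards [hev0] with w hw
  have h5 : (ρ w.1 : ℂ) ≠ 0 := Complex.ofReal_ne_zero.2 (hρ _).ne'
  have e2 : ev (v0 + ((ρ w.1 * θ : ℝ) : ℂ) • w.2.1).1 (c + ρ w.1 * w.2.2) =
      ev v0.1 (c + ρ w.1 * w.2.2) + ρ w.1 * θ * ev w.2.1.1 (c + ρ w.1 * w.2.2) := by
    rw [Prod.fst_add, Prod.smul_fst, ev_exp, Complex.ofReal_mul]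
  have e4 : (C (ev v0.2 c) * pol v0.1 - C (ev v0.1 c) * pol v0.2).eval (c + ρ w.1 * w.2.2) =
      ev v0.2 c * ev v0.1 (c + ρ w.1 * w.2.2) - ev v0.1 c * ev v0.2 (c + ρ w.1 * w.2.2) := by
    rw [eval_sub, eval_mul, eval_mul, eval_C, eval_C, pol_eval, pol_eval]
  rw [e3 w] at hw
  rw [show it v0 1 c = ev v0.1 c / ev v0.2 c from rfl]
  rw [e4, e2, e3 w]
  exact start_alg hb h5 hw

end Pool.Agent.H91.CS
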