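import Pool.Agent.H91.CS.EDefs

/-!
# Module ETARG: targets

PROOF. Let `B0 = ball 0 (r / 2)`, `K0 = closedBall 0 (r / 2)`. `Y` is holomorphic on `ball 0 1`, not constant, so `deriv Y` is not identically zero and the set `Z0` of its zeros in the compact set `K0` is finite; `Bd = Y '' Z0`, finite. `Y '' B0` is an
open neighbourhood of `Y 0` (open mapping theorem, `AnalyticOnNhd.is_constant_or_isOpen`). Let `j` be large with `s j ∈ Y '' B0`; `xk = it v0 (n j) x` is a point of the plane with `ch σ (s j) = xk`, so if `σ = true` `s j ≠ 0` and `xk = (s j)⁻¹`. Let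
`U = {z | z ≠ 0 if σ = true, XC σ z ∈ Y '' B0} \ ({z | XC σ z ∈ Bd} \ {xk})` (for `σ = true`, `XC σ z = z⁻¹`, remove also the possible `z` with `z⁻¹ ∈ Bd`; all these sets are finite): an open set containing `xk` (if `σ = true` and `xk = 0`
impossible: `ch true u = 0` never, as `1 / u ≠ 0`). `hland` gives `y ∈ U`, `y ≠ xk`, landing on `c1`; `XC σ y = Y τ` with `τ ∈ B0`, and `XC σ y ∉ Bd`, so `deriv Y τ ≠ 0`; `XC σ (XC σ y) = y`.
-/

set_option autoImplicit false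

open Filter Topology Metric Set Polynomial

namespace Pool.Agent.H91.CS

open Pool.Agent.H44.Fatou Pool.Agent.H32.BT Pool.Agent.H79.Eul Pool.Agent.H79.Par

private theorem ETARG_XC (σ : Bool) (z : ℂ) : XC σ (XC σ z) = z := by
  unfold XC
  cases σ <;> simp

/-- the domain of the chart -/
private def ETARG_D (σ : Bool) : Set ℂ := {z | σ = true → z ≠ 0}

private theorem ETARG_open (σ : Bool) {V : Set ℂ} (hV : IsOpen V) :
    IsOpen {z | z ∈ ETARG_D σ ∧ XC σ z ∈ V} := by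
  cases σ
  · have : {z | z ∈ ETARG_D false ∧ XC false z ∈ V} = V := by
      ext z
      simp [ETARG_D, XC]
    rw [this]
    exact hV
  · have h1 : IsOpen ({z : ℂ | z ≠ 0}) := isOpen_ne
    have h2 : ContinuousOn (fun z : ℂ => z⁻¹) {z : ℂ | z ≠ 0} :=
      continuousOn_inv₀
    have h3 := h2.isOpen_inter_preimage h1 hV
    have : {z | z ∈ ETARG_D true ∧ XC true z ∈ V} = {z : ℂ | z ≠ 0} ∩ (fun z : ℂ => z⁻¹) ⁻¹' V := by
      ext z
      simp [ETARG_D, XC]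
    rw [this]
    exact h3

private theorem ETARG_ch {σ : Bool} {x s : ℂ} (h : (x : OnePoint ℂ) = ch σ s) :
    x ∈ ETARG_D σ ∧ XC σ x = s := by
  cases σ
  · rw [ch_false_coe] at h
    have := OnePoint.coe_injective h
    simp [ETARG_D, XC, this]
  · rw [ch_true] at h
    unfold pt at h
    split_ifs at h with h1
    · exact absurd h (OnePoint.coe_ne_infty _)
    · have h2 : x = 1 / s := OnePoint.coe_injective h
      refine ⟨fun _ => ?_, ?_⟩
      · rw [h2]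
        exact one_div_ne_zero h1
      · unfold XC
        rw [if_pos rfl, h2, one_div, inv_inv]

private theorem ETARG_fin {Y : ℂ → ℂ} (hY : DifferentiableOn ℂ Y (ball 0 1))
    (hYn : ∃ η ∈ ball (0 : ℂ) 1, Y η ≠ Y 0) {r : ℝ} (hr1 : r < 1) :
    {z : ℂ | z ∈ closedBall (0 : ℂ) r ∧ deriv Y z = 0}.Finite := by
  have hsub : closedBall (0 : ℂ) r ⊆ ball 0 1 := closedBall_subset_ball hr1
  have han : AnalyticOnNhd ℂ (deriv Y) (ball 0 1) :=
    (hY.analyticOnNhd isOpen_ball).deriv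
  by_contra hinf
  have hinf' : {z : ℂ | z ∈ closedBall (0 : ℂ) r ∧ deriv Y z = 0}.Infinite := hinf
  obtain ⟨z0, hz0, hacc⟩ := hinf'.exists_accPt_of_subset_isCompact
    (isCompact_closedBall (0 : ℂ) r) (fun z hz => hz.1)
  have hfreq : ∃ᶠ z in 𝓝[≠] z0, deriv Y z = 0 := by
    rw [accPt_iff_frequently_nhdsNE] at hacc
    exact hacc.mono fun z hz => hz.2
  have hzero := han.eqOn_zero_of_preconnected_of_frequently_eq_zero
    (convex_ball (0 : ℂ) 1).isPreconnected (hsub hz0) hfreq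
  obtain ⟨η, hη, hne⟩ := hYn
  apply hne
  exact isOpen_ball.is_const_of_deriv_eq_zero (convex_ball (0 : ℂ) 1).isPreconnected hY
    (fun z hz => hzero hz) hη (mem_ball_self one_pos)

theorem targ {d : ℕ} {v0 : E d} {c1 x : ℂ} (hx : ∀ n, ev v0.2 (it v0 n x) ≠ 0)
    (hland : ∀ (U : Set ℂ) (k : ℕ), IsOpen U → it v0 k x ∈ U →
      ∃ y ∈ U, y ≠ it v0 k x ∧ ∃ l, Lands v0 c1 y l)
    {Y : ℂ → ℂ} (hY : DifferentiableOn ℂ Y (ball 0 1)) (hYn : ∃ η ∈ ball (0 : ℂ) 1, Y η ≠ Y 0)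
    {σ : Bool} {n : ℕ → ℕ} {s : ℕ → ℂ} (hs : Tendsto s atTop (𝓝 (Y 0)))
    (hch : ∀ᶠ j in atTop, ((it v0 (n j) x : ℂ) : OnePoint ℂ) = ch σ (s j)) {r : ℝ} (hr : 0 < r)
    (hr1 : r < 1) :
    ∃ τ ∈ ball (0 : ℂ) r, deriv Y τ ≠ 0 ∧ (σ = true → Y τ ≠ 0) ∧
      ∃ l, Lands v0 c1 (XC σ (Y τ)) l := by
  have _ := hx
  have hfin := ETARG_fin hY hYn hr1
  have hop : IsOpen (Y '' ball (0 : ℂ) r) := by
    rcases (hY.analyticOnNhd isOpen_ball).is_constant_or_isOpen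
      (convex_ball (0 : ℂ) 1).isPreconnected with ⟨w, hw⟩ | h
    · obtain ⟨η, hη, hne⟩ := hYn
      exact absurd ((hw η hη).trans (hw 0 (mem_ball_self one_pos)).symm) hne
    · exact h _ (ball_subset_ball hr1.le) isOpen_ball
  have hY0 : Y 0 ∈ Y '' ball (0 : ℂ) r := ⟨0, mem_ball_self hr, rfl⟩
  obtain ⟨j, hj1, hj2⟩ := ((hs.eventually (hop.mem_nhds hY0)).and hch).exists
  obtain ⟨hD, hXC⟩ := ETARG_ch hj2
  obtain ⟨B, hB⟩ : ∃ B : Set ℂ, B = (fun z => XC σ (Y z)) ''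
    {z : ℂ | z ∈ closedBall (0 : ℂ) r ∧ deriv Y z = 0} := ⟨_, rfl⟩
  have hBf : (B \ {it v0 (n j) x}).Finite := by
    rw [hB]
    exact (hfin.image _).subset sdiff_subset
  obtain ⟨y, hyU, hyne, l, hl⟩ := hland
    ({z | z ∈ ETARG_D σ ∧ XC σ z ∈ Y '' ball (0 : ℂ) r} \ (B \ {it v0 (n j) x})) (n j)
    ((ETARG_open σ hop).sdiff hBf.isClosed)
    ⟨⟨hD, by rw [hXC]; exact hj1⟩, fun h => h.2 rfl⟩
  obtain ⟨⟨hyD, τ, hτ, hYτ⟩, hyB⟩ := hyU
  have hy : XC σ (Y τ) = y := by rw [hYτ, ETARG_XC]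
  refine ⟨τ, hτ, ?_, ?_, l, by rw [hy]; exact hl⟩
  · intro hder
    apply hyB
    refine ⟨?_, hyne⟩
    rw [hB]
    exact ⟨τ, ⟨ball_subset_closedBall hτ, hder⟩, hy⟩
  · intro hσ h0
    apply hyD hσ
    rw [← hy, h0]
    unfold XC
    rw [if_pos hσ, inv_zero]

end Pool.Agent.H91.CS
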