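import Pool.Agent.H91.CS.HURW

/-!
# Module HURJ: Hurwitz theorem, with joint convergence

PROOF. On the compact ball `closedBall x0 (r / 2)` (finite dimension) the convergence is uniform: `tendstoLocallyUniformlyOn_iff_tendstoUniformlyOn_of_compact` or directly: for `ε > 0` every `x` of the compact ball has a neighbourhood `U x` and `J x` with
`‖H j y - H0 x‖ < ε / 2` for `j ≥ J x`, `y ∈ U x`, and `‖H0 y - H0 x‖ < ε / 2` (`H0` is continuous); finitely many cover. Then `hurw` with `r / 2`.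
-/

set_option autoImplicit false

open Metric Set Filter Topology

namespace Pool.Agent.H91.CS

theorem hurj {X Y : Type} [NormedAddCommGroup X] [NormedSpace ℂ X] [FiniteDimensional ℂ X]
    [NormedAddCommGroup Y] [NormedSpace ℂ Y] [FiniteDimensional ℂ Y] {H : ℕ → X → Y} {H0 : X → Y}
    {x0 : X} {r : ℝ} (hr : 0 < r) (hd : ∀ᶠ j in atTop, DifferentiableOn ℂ (H j) (ball x0 r))
    (hd0 : DifferentiableOn ℂ H0 (ball x0 r))
    (hu : ∀ x ∈ ball x0 r, Tendsto (fun w : ℕ × X => H w.1 w.2) (atTop ×ˢ 𝓝 x) (𝓝 (H0 x)))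
    (h0 : H0 x0 = 0) (hs : Function.Surjective (fderiv ℂ H0 x0)) :
    ∃ x : ℕ → X, Tendsto x atTop (𝓝 x0) ∧ ∀ᶠ j in atTop, H j (x j) = 0 := by
  have : ProperSpace X := FiniteDimensional.proper ℂ X
  have hsub : closedBall x0 (r / 2) ⊆ ball x0 r := closedBall_subset_ball (by linarith)
  have hsub2 : ball x0 (r / 2) ⊆ ball x0 r := ball_subset_ball (by linarith)
  have hloc : TendstoLocallyUniformlyOn H H0 atTop (closedBall x0 (r / 2)) := by
    rw [Metric.tendstoLocallyUniformlyOn_iff]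
    intro ε hε x hx
    have hx' : x ∈ ball x0 r := hsub hx
    have h1 : ∀ᶠ w in (atTop : Filter ℕ) ×ˢ 𝓝 x, dist (H w.1 w.2) (H0 x) < ε / 2 :=
      (Metric.tendsto_nhds.1 (hu x hx')) (ε / 2) (by linarith)
    obtain ⟨pa, hpa, pb, hpb, hab⟩ := eventually_prod_iff.1 h1
    have hc : ContinuousAt H0 x :=
      (hd0.differentiableAt (isOpen_ball.mem_nhds hx')).continuousAt
    have h2 : ∀ᶠ y in 𝓝 x, dist (H0 y) (H0 x) < ε / 2 :=
      (Metric.tendsto_nhds.1 hc) (ε / 2) (by linarith)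
    refine ⟨{y | pb y ∧ dist (H0 y) (H0 x) < ε / 2}, mem_nhdsWithin_of_mem_nhds (hpb.and h2), ?_⟩
    filter_upwards [hpa] with j hj y hy
    have h3 := hab hj hy.1
    have h4 := hy.2
    calc dist (H0 y) (H j y) ≤ dist (H0 y) (H0 x) + dist (H0 x) (H j y) := dist_triangle _ _ _
      _ < ε / 2 + ε / 2 := by
        rw [dist_comm (H0 x)]
        exact add_lt_add h4 h3
      _ = ε := by ring
  have hun : TendstoUniformlyOn H H0 atTop (closedBall x0 (r / 2)) :=
    (tendstoLocallyUniformlyOn_iff_tendstoUniformlyOn_of_compact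
      (isCompact_closedBall x0 (r / 2))).1 hloc
  exact hurw (half_pos hr) (hd.mono fun j hj => hj.mono hsub2) (hd0.mono hsub2)
    (hun.mono ball_subset_closedBall) h0 hs

end Pool.Agent.H91.CS
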