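import Pool.Agent.H91.CS.PTAIL
import Pool.Agent.H91.CS.ETARG
import Pool.Agent.H91.CS.ELF
import Pool.Agent.H91.CS.ELOC
import Pool.Agent.H91.CS.ECRIT
import Pool.Agent.H91.CS.HURJ

/-!
# Module ESYS: maps with all these critical points landing on one of them

PROOF. `x i = it v0 1 (c i)`, `b = pol v0.2`, `hc i : wv v0 (c i) = 0` (`hm`, `hmult`). `κ` from `tails` (equal to the given one by `hκ`), `θ ∈ (0, 1]` with `θ ‖κ i p‖ ≤ ‖p‖ / 4`, `θ ‖xi v0 p (c i)‖ ≤ ‖p‖ / 4` (linear in `p`, finite dimension). `tails`: `ρ, n, σ, g, Y`. Let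
`t i p = xi v0 p (c i) + κ i p`. The linear map of `hsur` has a right inverse of norm at most `C0`: for small `r` and any `τ i ∈ ball 0 r` there is `p0`, `‖p0‖ < 1 / 2`, with `θ t i p0 = τ i`, `(hasseDeriv l (b * W1 v0 p0)).eval (c i) = 0` for `l < m i - 1`.
`targ` (with `s j = g i j 0`, which tends to `Y i 0` by `tails`; `hx` from `hgr`; `(Rf v0)^[n] (x i) = it v0 n (x i)`) gives such `τ i` and `l i` with `Lands v0 (c i1) (XC (σ i) (Y i (τ i))) (l i)`. `z0 i` is chosen with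
`θ (hasseDeriv (m i - 1) (b * W1 v0 p0)).eval (c i) + m i * (hasseDeriv (m i) (b * WP v0)).eval (c i) * z0 i = 0` (`of_div`). `X = E d × (ι → ℂ)`, `Y = (ι → ℂ) × ((i : ι) → Fin (m i) → ℂ)`, `w = v0 + (ρ j θ) • p`,
`H j (p, z) = (i ↦ LFn (σ i) (l i) (w, g i j (p, S)) - (c i1 + ρ j * z i1), (i, l) ↦ (hasseDeriv l (b * WP w)).eval (c i + ρ j * z i) / ρ j)`, `S = (ev w.1 (c i + ρ j * z i) / ev w.2 (c i + ρ j * z i) - x i) / ρ j`,
`H0 (p, z) = (i ↦ LFn (σ i) (l i) (v0, Y i (θ t i p)) - c i1, (i, l) ↦ θ (hasseDeriv l (b * W1 v0 p)).eval (c i) + (l + 1) (hasseDeriv (l + 1) (b * WP v0)).eval (c i) * z i)`.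
On a small ball around `(p0, z0)`: joint convergence by `loc_lim`, `start_lim` (`S → θ xi v0 p (c i)`, `(p, θ xi v0 p (c i)) ∈ ball 0 (3 / 4)`), `tails` and the continuity of `LFn` near `(v0, Y i (τ i))` (`lf_near`); the `H j` are differentiable there for large `j` (the arguments of `LFn` are in
the ball of `lf_near`: joint convergence on a compact ball). `H0 (p0, z0) = 0`. The derivative of `H0` at `(p0, z0)` is `(p, z) ↦ (λ i * t i p, θ .. p + (l + 1) .. * z i)` with `λ i = deriv (LFn (v0, ·)) * deriv Y * θ ≠ 0` and the second term `0` for `l < m i - 1`, not zero for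
`l = m i - 1`: surjective by `hsur`. `hurj`: `(p j, z j) → (p0, z0)` with `H j = 0`. `w j = v0 + (ρ j θ) • p j`, `z' j i = c i + ρ j * z j i`, `N j i = 1 + n i j + l i`: `(X - z' j i) ^ m i ∣ WP (w j)` by `div_of`; `(Rf w)^[1] (z') = x i + ρ j S`
(denominator not zero), then `tails`, then `lf_near`.
-/

set_option autoImplicit false

open Filter Topology Metric Set Polynomial

namespace Pool.Agent.H91.CS

open Pool.Agent.H44.Fatou Pool.Agent.H32.BT Pool.Agent.H79.Eul Pool.Agent.H79.Par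

private theorem ESYS_unif {X Z : Type} [TopologicalSpace X] [TopologicalSpace Z]
    {F : ℕ × X → Z} {F0 : X → Z} {K : Set X} (hK : IsCompact K) {U : Set Z} (hU : IsOpen U)
    (hF : ∀ x ∈ K, Tendsto F (atTop ×ˢ 𝓝 x) (𝓝 (F0 x))) (h0 : ∀ x ∈ K, F0 x ∈ U) :
    ∀ᶠ j in atTop, ∀ x ∈ K, F (j, x) ∈ U := by
  refine hK.induction_on (p := fun S => ∀ᶠ j in atTop, ∀ x ∈ S, F (j, x) ∈ U) ?_ ?_ ?_ ?_
  · exact Eventually.of_forall fun j x hx => absurd hx (Set.notMem_empty x)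
  · intro s t hst ht
    filter_upwards [ht] with j hj x hx
    exact hj x (hst hx)
  · intro s t hs ht
    filter_upwards [hs, ht] with j h1 h2 x hx
    rcases hx with hx | hx
    · exact h1 x hx
    · exact h2 x hx
  · intro x hx
    have h1 : ∀ᶠ w : ℕ × X in atTop ×ˢ 𝓝 x, F w ∈ U :=
      (hF x hx).eventually (hU.mem_nhds (h0 x hx))
    rw [Filter.eventually_prod_iff] at h1
    obtain ⟨pa, hpa, pb, hpb, h2⟩ := h1
    refine ⟨{y | pb y}, mem_nhdsWithin_of_mem_nhds hpb, ?_⟩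
    filter_upwards [hpa] with j hj y hy
    exact h2 hj hy

private theorem ESYS_wv {d : ℕ} (v : E d) (z : ℂ) : wv v z = (WP v).eval z := by
  unfold wv WP Pool.Agent.H61.TT.ww
  rw [eval_sub, eval_mul, eval_mul, pol_deriv_eval, pol_deriv_eval, pol_eval, pol_eval]

private theorem ESYS_ev_add {d : ℕ} (p q : Fin (d + 1) → ℂ) (z : ℂ) :
    ev (p + q) z = ev p z + ev q z := by
  unfold ev
  rw [← Finset.sum_add_distrib]
  refine Finset.sum_congr rfl fun i _ => ?_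
  rw [Pi.add_apply]
  ring

private theorem ESYS_ev_smul {d : ℕ} (c : ℂ) (p : Fin (d + 1) → ℂ) (z : ℂ) :
    ev (c • p) z = c * ev p z := by
  unfold ev
  rw [Finset.mul_sum]
  refine Finset.sum_congr rfl fun i _ => ?_
  rw [Pi.smul_apply, smul_eq_mul]
  ring

private theorem ESYS_xi {d : ℕ} (v0 : E d) (z : ℂ) :
    ∃ A : E d →L[ℂ] ℂ, ∀ p, A p = xi v0 p z := by
  let L : E d →ₗ[ℂ] ℂ :=
    { toFun := fun p => xi v0 p z
      map_add' := by
        intro p q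
        unfold xi
        rw [Prod.fst_add, Prod.snd_add, ESYS_ev_add, ESYS_ev_add]
        ring
      map_smul' := by
        intro a p
        unfold xi
        rw [Prod.smul_fst, Prod.smul_snd, ESYS_ev_smul, ESYS_ev_smul, RingHom.id_apply,
          smul_eq_mul]
        ring }
  exact ⟨LinearMap.toContinuousLinearMap L, fun p => rfl⟩

private theorem ESYS_W1_add {d : ℕ} (v0 p q : E d) : W1 v0 (p + q) = W1 v0 p + W1 v0 q := by
  unfold W1
  rw [Prod.fst_add, Prod.snd_add, pol_add, pol_add, derivative_add, derivative_add]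
  ring

private theorem ESYS_W1_smul {d : ℕ} (v0 p : E d) (a : ℂ) : W1 v0 (a • p) = C a * W1 v0 p := by
  unfold W1
  rw [Prod.smul_fst, Prod.smul_snd, pol_smul, pol_smul, derivative_C_mul, derivative_C_mul]
  ring

private theorem ESYS_W {d : ℕ} (v0 : E d) (l : ℕ) (z : ℂ) :
    ∃ A : E d →L[ℂ] ℂ, ∀ p, A p = (hasseDeriv l (pol v0.2 * W1 v0 p)).eval z := by
  let L : E d →ₗ[ℂ] ℂ :=
    { toFun := fun p => (hasseDeriv l (pol v0.2 * W1 v0 p)).eval z
      map_add' := by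
        intro p q
        rw [ESYS_W1_add, mul_add, map_add, eval_add]
      map_smul' := by
        intro a p
        rw [ESYS_W1_smul, RingHom.id_apply, smul_eq_mul, mul_left_comm, ← smul_eq_C_mul,
          map_smul, eval_smul, smul_eq_mul] }
  exact ⟨LinearMap.toContinuousLinearMap L, fun p => rfl⟩

theorem sys {d : ℕ} (hd : 2 ≤ d) {v0 : E d} (hcop : IsCoprime (pol v0.1) (pol v0.2))
    (hdeg : max (pol v0.1).natDegree (pol v0.2).natDegree = d) {ι : Type} [Fintype ι]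
    {c : ι → ℂ} {m : ι → ℕ} (hne : WP v0 ≠ 0) (hm : ∀ i, 1 ≤ m i)
    (hmult : ∀ i, (WP v0).rootMultiplicity (c i) = m i) (hb : ∀ i, ev v0.2 (c i) ≠ 0)
    (hgr : ∀ i, GrS v0 (it v0 1 (c i))) {κ : ι → E d →L[ℂ] ℂ}
    (hκ : ∀ i p, κ i p = ∑' k : ℕ, xi v0 p (it v0 k (it v0 1 (c i))) /
      trD v0 (k + 1) (it v0 1 (c i)))
    (hsur : Function.Surjective (fun v : E d => ((fun i => xi v0 v (c i) + κ i v,
      fun i l => (hasseDeriv (l : ℕ) (pol v0.2 * W1 v0 v)).eval (c i)) :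
        (ι → ℂ) × ((i : ι) → Fin (m i - 1) → ℂ))))
    (i1 : ι) (hland : ∀ i, ∀ (U : Set ℂ) (k : ℕ), IsOpen U → it v0 k (it v0 1 (c i)) ∈ U →
      ∃ y ∈ U, y ≠ it v0 k (it v0 1 (c i)) ∧ ∃ l, Lands v0 (c i1) y l) :
    ∃ (w : ℕ → E d) (z : ℕ → ι → ℂ) (N : ℕ → ι → ℕ), Tendsto w atTop (𝓝 v0) ∧
      (∀ i, Tendsto (fun j => z j i) atTop (𝓝 (c i))) ∧
      ∀ᶠ j in atTop, ∀ i, 0 < N j i ∧ (X - C (z j i)) ^ m i ∣ WP (w j) ∧
        (Rf (w j))^[N j i] ((z j i : ℂ) : OnePoint ℂ) = ((z j i1 : ℂ) : OnePoint ℂ) := by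
  classical
  have hWne : ∀ i, (pol v0.2).eval (c i) ≠ 0 := fun i => by
    rw [pol_eval]
    exact hb i
  have hod : ∀ i, (∀ l < m i, (hasseDeriv l (pol v0.2 * WP v0)).eval (c i) = 0) ∧
      (hasseDeriv (m i) (pol v0.2 * WP v0)).eval (c i) ≠ 0 :=
    fun i => of_div (hWne i) hne (hmult i)
  have hc : ∀ i, wv v0 (c i) = 0 := by
    intro i
    rw [ESYS_wv]
    have h1 : 0 < (WP v0).rootMultiplicity (c i) := by
      rw [hmult i]
      exact hm i
    exact (rootMultiplicity_pos hne).1 h1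
  obtain ⟨κ', hκ', htails⟩ := tails hd hcop hdeg (x := fun i => it v0 1 (c i)) hgr
  have hκκ : κ' = κ := by
    funext i
    refine ContinuousLinearMap.ext fun p => ?_
    rw [hκ', hκ]
  subst hκκ
  choose Ξ hΞ using fun i => ESYS_xi v0 (c i)
  choose A hA using fun (i : ι) (l : ℕ) => ESYS_W v0 l (c i)
  obtain ⟨θ, hθ, hθ1, hθκ, hθΞ⟩ : ∃ θ : ℝ, 0 < θ ∧ θ ≤ 1 ∧
      (∀ i p, θ * ‖κ' i p‖ ≤ ‖p‖ / 4) ∧ ∀ i p, θ * ‖Ξ i p‖ ≤ ‖p‖ / 4 := by
    obtain ⟨K, hK1, hKi⟩ : ∃ K : ℝ, 1 ≤ K ∧ ∀ i, ‖κ' i‖ ≤ K ∧ ‖Ξ i‖ ≤ K := by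
      refine ⟨1 + ∑ i, (‖κ' i‖ + ‖Ξ i‖), ?_, ?_⟩
      · have : 0 ≤ ∑ i, (‖κ' i‖ + ‖Ξ i‖) := Finset.sum_nonneg fun i _ => by positivity
        linarith
      · intro i
        have h1 := Finset.single_le_sum (f := fun i => ‖κ' i‖ + ‖Ξ i‖)
          (fun i _ => by positivity) (Finset.mem_univ i)
        have h2 := norm_nonneg (κ' i)
        have h3 := norm_nonneg (Ξ i)
        beta_reduce at h1
        constructor <;> linarith
    have key : ∀ (B : E d →L[ℂ] ℂ) (p : E d), ‖B‖ ≤ K → 1 / (4 * K) * ‖B p‖ ≤ ‖p‖ / 4 := by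
      intro B p hB
      have h1 : ‖B p‖ ≤ K * ‖p‖ := (B.le_opNorm p).trans
        (mul_le_mul_of_nonneg_right hB (norm_nonneg _))
      calc 1 / (4 * K) * ‖B p‖ ≤ 1 / (4 * K) * (K * ‖p‖) :=
            mul_le_mul_of_nonneg_left h1 (by positivity)
        _ = ‖p‖ / 4 := by
            have : K ≠ 0 := by linarith
            field_simp
    refine ⟨1 / (4 * K), by positivity, ?_, fun i p => key _ p (hKi i).1,
      fun i p => key _ p (hKi i).2⟩
    rw [div_le_one (by positivity)]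
    linarith
  obtain ⟨ρ, n, σ, g, Y, hρ, hρ0, hall⟩ := htails θ hθ hθ1 hθκ
  -- the linear map
  obtain ⟨C0, hC0, hpre⟩ : ∃ C0 > 0, ∀ y : (ι → ℂ) × ((i : ι) → Fin (m i - 1) → ℂ),
      ∃ x : E d, (∀ i, Ξ i x + κ' i x = y.1 i) ∧ (∀ i (l : Fin (m i - 1)), A i l x = y.2 i l) ∧
        ‖x‖ ≤ C0 * ‖y‖ := by
    let L : E d →L[ℂ] (ι → ℂ) × ((i : ι) → Fin (m i - 1) → ℂ) :=
      (ContinuousLinearMap.pi fun i => Ξ i + κ' i).prod
        (ContinuousLinearMap.pi fun i => ContinuousLinearMap.pi fun l : Fin (m i - 1) => A i l)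
    have hL : Function.Surjective L := by
      intro y
      obtain ⟨v, hv⟩ := hsur y
      refine ⟨v, ?_⟩
      rw [← hv]
      refine Prod.ext ?_ ?_
      · funext i
        show Ξ i v + κ' i v = xi v0 v (c i) + κ' i v
        rw [hΞ]
      · funext i l
        show A i l v = (hasseDeriv (l : ℕ) (pol v0.2 * W1 v0 v)).eval (c i)
        rw [hA]
    obtain ⟨C0, hC0, h⟩ := L.exists_preimage_norm_le hL
    refine ⟨C0, hC0, fun y => ?_⟩
    obtain ⟨x, hx, hxn⟩ := h y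
    refine ⟨x, fun i => ?_, fun i l => ?_, hxn⟩
    · rw [← hx]
      rfl
    · rw [← hx]
      rfl
  obtain ⟨r, hr0, hr1, hrC⟩ : ∃ r : ℝ, 0 < r ∧ r < 1 ∧ C0 * (r / θ) ≤ 1 / 4 := by
    refine ⟨min (1 / 2) (θ / (4 * C0)), by positivity, ?_, ?_⟩
    · exact lt_of_le_of_lt (min_le_left _ _) (by norm_num)
    · calc C0 * (min (1 / 2) (θ / (4 * C0)) / θ) ≤ C0 * (θ / (4 * C0) / θ) := by
            gcongr
            exact min_le_right _ _
        _ = 1 / 4 := by field_simp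
  have htarg : ∀ i, ∃ τ ∈ ball (0 : ℂ) r, deriv (Y i) τ ≠ 0 ∧ (σ i = true → Y i τ ≠ 0) ∧
      ∃ l, Lands v0 (c i1) (XC (σ i) (Y i τ)) l := by
    intro i
    obtain ⟨h1, h2, h3, h4, h5, h6⟩ := hall i
    have hs : Tendsto (fun j => g i j 0) atTop (𝓝 (Y i 0)) := by
      have h := h5 0 (mem_ball_self (by norm_num))
      have h' : Tendsto (fun j : ℕ => (j, (0 : E d × ℂ))) atTop
          (atTop ×ˢ 𝓝 (0 : E d × ℂ)) := tendsto_id.prodMk tendsto_const_nhds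
      have h'' : Tendsto (fun j => g i j 0) atTop
          (𝓝 (Y i ((0 : E d × ℂ).2 + θ * κ' i (0 : E d × ℂ).1))) := h.comp h'
      rwa [Prod.snd_zero, Prod.fst_zero, map_zero, mul_zero, add_zero] at h''
    refine targ (n := n i) (hgr i).1 (hland i) h2 h3 hs ?_ hr0 hr1
    filter_upwards [h6] with j hj
    have h7 := hj 0 (mem_ball_self one_pos)
    simp only [Prod.fst_zero, Prod.snd_zero, smul_zero, add_zero, mul_zero] at h7
    rw [rat_it (fun k _ => (hgr i).1 k)] at h7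
    exact h7
  choose τ hτ hτd hτn l hl using htarg
  obtain ⟨p0, hp0T, hp0A, hp0n⟩ := hpre (fun i => τ i / θ, 0)
  have hp0 : ‖p0‖ < 1 / 2 := by
    have h1 : ‖((fun i => τ i / θ, 0) : (ι → ℂ) × ((i : ι) → Fin (m i - 1) → ℂ))‖ ≤ r / θ := by
      rw [Prod.norm_mk, norm_zero, max_le_iff]
      refine ⟨(pi_norm_le_iff_of_nonneg (by positivity)).2 fun i => ?_, by positivity⟩
      rw [norm_div, Complex.norm_real, Real.norm_of_nonneg hθ.le]
      have := mem_ball_zero_iff.1 (hτ i)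
      gcongr
    calc ‖p0‖ ≤ C0 * (r / θ) := hp0n.trans (mul_le_mul_of_nonneg_left h1 hC0.le)
      _ ≤ 1 / 4 := hrC
      _ < 1 / 2 := by norm_num
  have hθc : (θ : ℂ) ≠ 0 := by exact_mod_cast hθ.ne'
  have hT0 : ∀ i, (θ : ℂ) * (Ξ i + κ' i) p0 = τ i := by
    intro i
    rw [add_apply, hp0T i]
    field_simp
  have hA0 : ∀ i (k : ℕ), k < m i - 1 → A i k p0 = 0 := by
    intro i k hk
    have := hp0A i ⟨k, hk⟩
    simpa using this
  have hB : ∀ i, ∃ z : ℂ, (θ : ℂ) * A i (m i - 1) p0 + (((m i - 1 : ℕ) : ℂ) + 1) *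
      (hasseDeriv (m i - 1 + 1) (pol v0.2 * WP v0)).eval (c i) * z = 0 := by
    intro i
    have h1 : m i - 1 + 1 = m i := Nat.sub_add_cancel (hm i)
    have h2 : (((m i - 1 : ℕ) : ℂ) + 1) ≠ 0 := Nat.cast_add_one_ne_zero _
    have h3 : (hasseDeriv (m i - 1 + 1) (pol v0.2 * WP v0)).eval (c i) ≠ 0 := by
      rw [h1]
      exact (hod i).2
    refine ⟨-(θ * A i (m i - 1) p0) / ((((m i - 1 : ℕ) : ℂ) + 1) *
      (hasseDeriv (m i - 1 + 1) (pol v0.2 * WP v0)).eval (c i)), ?_⟩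
    rw [mul_div_cancel₀ _ (mul_ne_zero h2 h3)]
    ring
  choose z0 hz0 using hB
  have hlf := fun i => lf_near (hτn i) (hl i)
  choose rr hrr hlfb using fun i => (hlf i).1
  have hlf0 : ∀ i, LFn (σ i) (l i) (v0, Y i (τ i)) = c i1 := fun i => (hlf i).2.1
  have hlfd : ∀ i, deriv (fun Z : ℂ => LFn (σ i) (l i) (v0, Z)) (Y i (τ i)) ≠ 0 :=
    fun i => (hlf i).2.2
  obtain ⟨S, hS⟩ : ∃ S : ℕ → ι → E d × (ι → ℂ) → ℂ, ∀ j i x, S j i x =
      (ev (v0 + ((ρ j * θ : ℝ) : ℂ) • x.1).1 (c i + ρ j * x.2 i) /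
        ev (v0 + ((ρ j * θ : ℝ) : ℂ) • x.1).2 (c i + ρ j * x.2 i) - it v0 1 (c i)) /
          (ρ j : ℂ) := ⟨_, fun _ _ _ => rfl⟩
  obtain ⟨H, hH⟩ : ∃ H : ℕ → E d × (ι → ℂ) → (ι → ℂ) × ((i : ι) → Fin (m i) → ℂ),
      ∀ j x, H j x = (fun i => LFn (σ i) (l i) (v0 + ((ρ j * θ : ℝ) : ℂ) • x.1,
        g i j (x.1, S j i x)) - (c i1 + ρ j * x.2 i1),
        fun i (k : Fin (m i)) =>
          (hasseDeriv (k : ℕ) (pol v0.2 * WP (v0 + ((ρ j * θ : ℝ) : ℂ) • x.1))).eval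
          (c i + ρ j * x.2 i) / (ρ j : ℂ)) := ⟨_, fun _ _ => rfl⟩
  obtain ⟨H0, hH0⟩ : ∃ H0 : E d × (ι → ℂ) → (ι → ℂ) × ((i : ι) → Fin (m i) → ℂ),
      ∀ x, H0 x = (fun i => LFn (σ i) (l i) (v0, Y i (θ * (Ξ i + κ' i) x.1)) - c i1,
        fun i (k : Fin (m i)) => θ * A i k x.1 + (((k : ℕ) : ℂ) + 1) *
          (hasseDeriv ((k : ℕ) + 1) (pol v0.2 * WP v0)).eval (c i) * x.2 i) := ⟨_, fun _ => rfl⟩
  have hprc : ∀ i : ι, Continuous (fun x : E d × (ι → ℂ) => ((x.1, x.2 i) : E d × ℂ)) :=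
    fun i => by fun_prop
  have hprt : ∀ (i : ι) (x : E d × (ι → ℂ)),
      Tendsto (fun w : ℕ × (E d × (ι → ℂ)) => (w.1, ((w.2.1, w.2.2 i) : E d × ℂ)))
        (atTop ×ˢ 𝓝 x) (atTop ×ˢ 𝓝 ((x.1, x.2 i) : E d × ℂ)) :=
    fun i x => tendsto_fst.prodMk (((hprc i).tendsto x).comp tendsto_snd)
  have hft : ∀ x : E d × (ι → ℂ), Tendsto (fun w : ℕ × (E d × (ι → ℂ)) => w.2.1)
      (atTop ×ˢ 𝓝 x) (𝓝 x.1) := fun x => (continuous_fst.tendsto x).comp tendsto_snd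
  have hSt : ∀ i (x : E d × (ι → ℂ)), Tendsto (fun w : ℕ × (E d × (ι → ℂ)) => S w.1 i w.2)
      (atTop ×ˢ 𝓝 x) (𝓝 (θ * Ξ i x.1)) := by
    intro i x
    have h := (start_lim (hc i) (hb i) θ hρ hρ0 (x.1, x.2 i)).2.2.comp (hprt i x)
    rw [hΞ]
    refine h.congr fun w => ?_
    rw [hS]
    rfl
  have hwt : ∀ x : E d × (ι → ℂ), Tendsto (fun w : ℕ × (E d × (ι → ℂ)) =>
      v0 + ((ρ w.1 * θ : ℝ) : ℂ) • w.2.1) (atTop ×ˢ 𝓝 x) (𝓝 v0) := by
    intro x
    have h0 : Tendsto (fun j : ℕ => ρ j * θ) atTop (𝓝 0) := by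
      have := hρ0.mul_const θ
      rwa [zero_mul] at this
    have h1 : Tendsto (fun j : ℕ => ((ρ j * θ : ℝ) : ℂ)) atTop (𝓝 ((0 : ℝ) : ℂ)) :=
      (Complex.continuous_ofReal.tendsto 0).comp h0
    have h3 := (h1.comp (tendsto_fst (g := 𝓝 x))).smul (hft x)
    have h4 := h3.const_add v0
    rw [Complex.ofReal_zero, zero_smul, add_zero] at h4
    exact h4
  have hgt : ∀ i (x : E d × (ι → ℂ)), ‖x.1‖ < 3 / 4 →
      Tendsto (fun w : ℕ × (E d × (ι → ℂ)) => g i w.1 (w.2.1, S w.1 i w.2)) (atTop ×ˢ 𝓝 x)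
        (𝓝 (Y i (θ * (Ξ i + κ' i) x.1))) := by
    intro i x hx
    obtain ⟨-, -, -, -, h5, -⟩ := hall i
    have h3 : Tendsto (fun w : ℕ × (E d × (ι → ℂ)) => (w.1, ((w.2.1, S w.1 i w.2) : E d × ℂ)))
        (atTop ×ˢ 𝓝 x) (atTop ×ˢ 𝓝 ((x.1, θ * Ξ i x.1) : E d × ℂ)) :=
      tendsto_fst.prodMk ((hft x).prodMk_nhds (hSt i x))
    have hmem : ((x.1, θ * Ξ i x.1) : E d × ℂ) ∈ ball (0 : E d × ℂ) (3 / 4) := by
      rw [mem_ball_zero_iff, Prod.norm_mk, max_lt_iff]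
      refine ⟨hx, ?_⟩
      rw [norm_mul, Complex.norm_real, Real.norm_of_nonneg hθ.le]
      have h1 := hθΞ i x.1
      have h2 := norm_nonneg x.1
      linarith
    have h4 := (h5 _ hmem).comp h3
    have e : (θ : ℂ) * Ξ i x.1 + θ * κ' i x.1 = θ * (Ξ i + κ' i) x.1 := by
      rw [add_apply]
      ring
    beta_reduce at h4
    rw [e] at h4
    exact h4
  have hP1 : ∀ i (q : E d), ‖q‖ < 3 / 4 → (θ : ℂ) * (Ξ i + κ' i) q ∈ ball (0 : ℂ) 1 := by
    intro i q hq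
    rw [mem_ball_zero_iff, add_apply, mul_add]
    have h1 := hθΞ i q
    have h2 := hθκ i q
    have h3 := norm_add_le ((θ : ℂ) * Ξ i q) (θ * κ' i q)
    rw [norm_mul, norm_mul, Complex.norm_real, Real.norm_of_nonneg hθ.le] at h3
    linarith
  have hYd : ∀ i, ∀ u ∈ ball (0 : ℂ) 1, DifferentiableAt ℂ (Y i) u := fun i u hu =>
    (hall i).2.1.differentiableAt (isOpen_ball.mem_nhds hu)
  have hτ1 : ∀ i, τ i ∈ ball (0 : ℂ) 1 := fun i =>
    ball_subset_ball hr1.le (hτ i)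
  obtain ⟨R, hR, hRD⟩ : ∃ R : ℝ, 0 < R ∧ ∀ x ∈ closedBall ((p0, z0) : E d × (ι → ℂ)) R,
      ‖x.1‖ < 3 / 4 ∧ ∀ i, dist (Y i (θ * (Ξ i + κ' i) x.1)) (Y i (τ i)) < rr i := by
    have h1 : ∀ᶠ x in 𝓝 ((p0, z0) : E d × (ι → ℂ)), ‖x.1‖ < 3 / 4 := by
      have h : ContinuousAt (fun x : E d × (ι → ℂ) => ‖x.1‖) (p0, z0) := by fun_prop
      exact h.tendsto.eventually (gt_mem_nhds (by
        show ‖p0‖ < 3 / 4
        linarith))
    have h2 : ∀ i, ∀ᶠ x in 𝓝 ((p0, z0) : E d × (ι → ℂ)),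
        dist (Y i (θ * (Ξ i + κ' i) x.1)) (Y i (τ i)) < rr i := by
      intro i
      have hY : ContinuousAt (Y i) (τ i) := (hYd i _ (hτ1 i)).continuousAt
      have hc1 : ContinuousAt (fun x : E d × (ι → ℂ) => (θ : ℂ) * (Ξ i + κ' i) x.1)
          (p0, z0) := by fun_prop
      have hc2 : Tendsto (fun x : E d × (ι → ℂ) => (θ : ℂ) * (Ξ i + κ' i) x.1)
          (𝓝 (p0, z0)) (𝓝 (τ i)) := by
        have := hc1.tendsto
        beta_reduce at this
        rw [hT0 i] at this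
        exact this
      exact Metric.tendsto_nhds.1 (hY.tendsto.comp hc2) (rr i) (hrr i)
    obtain ⟨R, hR, h⟩ := Metric.nhds_basis_closedBall.eventually_iff.1
      (h1.and (eventually_all.2 h2))
    exact ⟨R, hR, fun x hx => h hx⟩
  have hlfm : ∀ i, ∀ x ∈ closedBall ((p0, z0) : E d × (ι → ℂ)) R,
      ((v0, Y i (θ * (Ξ i + κ' i) x.1)) : E d × ℂ) ∈ ball ((v0, Y i (τ i)) : E d × ℂ) (rr i) := by
    intro i x hx
    rw [mem_ball, Prod.dist_eq, max_lt_iff]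
    refine ⟨?_, (hRD x hx).2 i⟩
    show dist v0 v0 < rr i
    rw [dist_self]
    exact hrr i
  have hρt : ∀ (x : E d × (ι → ℂ)) (i : ι) (a : ℂ), Tendsto (fun w : ℕ × (E d × (ι → ℂ)) =>
      a + ρ w.1 * w.2.2 i) (atTop ×ˢ 𝓝 x) (𝓝 a) := by
    intro x i a
    have h1 : Tendsto (fun j : ℕ => ((ρ j : ℝ) : ℂ)) atTop (𝓝 ((0 : ℝ) : ℂ)) :=
      (Complex.continuous_ofReal.tendsto 0).comp hρ0
    have h2 : Tendsto (fun w : ℕ × (E d × (ι → ℂ)) => w.2.2 i) (atTop ×ˢ 𝓝 x) (𝓝 (x.2 i)) :=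
      (((continuous_apply i).comp continuous_snd).tendsto x).comp tendsto_snd
    have h3 := ((h1.comp (tendsto_fst (g := 𝓝 x))).mul h2).const_add a
    rw [Complex.ofReal_zero, zero_mul, add_zero] at h3
    exact h3
  -- joint convergence
  have hHt : ∀ x ∈ closedBall ((p0, z0) : E d × (ι → ℂ)) R,
      Tendsto (fun w : ℕ × (E d × (ι → ℂ)) => H w.1 w.2) (atTop ×ˢ 𝓝 x) (𝓝 (H0 x)) := by
    intro x hx
    have e : (fun w : ℕ × (E d × (ι → ℂ)) => H w.1 w.2) = fun w => _ :=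
      funext fun w => hH w.1 w.2
    rw [e, hH0]
    refine Tendsto.prodMk_nhds (tendsto_pi_nhds.2 fun i => ?_)
      (tendsto_pi_nhds.2 fun i => tendsto_pi_nhds.2 fun k => ?_)
    · have h1 := (hlfb i _ (hlfm i x hx)).1.continuousAt.tendsto
      have h2 := h1.comp ((hwt x).prodMk_nhds (hgt i x (hRD x hx).1))
      exact h2.sub (hρt x i1 (c i1))
    · have h1 := ((loc_lim ((hod i).1 (k : ℕ) k.2) θ hρ hρ0).2 (x.1, x.2 i)).comp (hprt i x)
      rw [hA]
      exact h1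
  -- differentiability of the approximations
  have hHd : ∀ᶠ j in atTop, DifferentiableOn ℂ (H j) (ball ((p0, z0) : E d × (ι → ℂ)) R) := by
    have hK : IsCompact (closedBall ((p0, z0) : E d × (ι → ℂ)) R) := isCompact_closedBall _ _
    have e1 : ∀ i, ∀ᶠ j in atTop, ∀ x ∈ closedBall ((p0, z0) : E d × (ι → ℂ)) R,
        ((x.1, S j i x) : E d × ℂ) ∈ ball (0 : E d × ℂ) 1 := by
      intro i
      refine ESYS_unif (F := fun w : ℕ × (E d × (ι → ℂ)) => ((w.2.1, S w.1 i w.2) : E d × ℂ))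
        (F0 := fun x => (x.1, θ * Ξ i x.1)) hK isOpen_ball
        (fun x _ => (hft x).prodMk_nhds (hSt i x)) ?_
      intro x hx
      rw [mem_ball_zero_iff, Prod.norm_mk, max_lt_iff]
      have h0 := (hRD x hx).1
      refine ⟨by linarith, ?_⟩
      rw [norm_mul, Complex.norm_real, Real.norm_of_nonneg hθ.le]
      have h1 := hθΞ i x.1
      linarith
    have e2 : ∀ i, ∀ᶠ j in atTop, ∀ x ∈ closedBall ((p0, z0) : E d × (ι → ℂ)) R,
        ((v0 + ((ρ j * θ : ℝ) : ℂ) • x.1, g i j (x.1, S j i x)) : E d × ℂ) ∈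
          ball ((v0, Y i (τ i)) : E d × ℂ) (rr i) := by
      intro i
      exact ESYS_unif (F := fun w : ℕ × (E d × (ι → ℂ)) =>
        ((v0 + ((ρ w.1 * θ : ℝ) : ℂ) • w.2.1, g i w.1 (w.2.1, S w.1 i w.2)) : E d × ℂ))
        (F0 := fun x => (v0, Y i (θ * (Ξ i + κ' i) x.1))) hK isOpen_ball
        (fun x hx => (hwt x).prodMk_nhds (hgt i x (hRD x hx).1)) (hlfm i)
    have e3 : ∀ i, ∀ᶠ j in atTop, DifferentiableOn ℂ (fun x : E d × ℂ =>
        (ev (v0 + ((ρ j * θ : ℝ) : ℂ) • x.1).1 (c i + ρ j * x.2) /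
        ev (v0 + ((ρ j * θ : ℝ) : ℂ) • x.1).2 (c i + ρ j * x.2) - it v0 1 (c i)) / (ρ j : ℂ))
        (ball 0 (‖((p0, z0) : E d × (ι → ℂ))‖ + R)) := by
      intro i
      exact (start_lim (hc i) (hb i) θ hρ hρ0 (p0, z0 i)).2.1 _
    filter_upwards [eventually_all.2 e1, eventually_all.2 e2, eventually_all.2 e3] with
      j h1 h2 h3 x hx
    have hxc := ball_subset_closedBall hx
    have hxn : ‖x‖ < ‖((p0, z0) : E d × (ι → ℂ))‖ + R := by
      have := mem_ball_iff_norm.1 hx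
      have h' := norm_le_norm_add_norm_sub' x ((p0, z0) : E d × (ι → ℂ))
      linarith
    have hSd : ∀ i, DifferentiableAt ℂ (S j i) x := by
      intro i
      have e : S j i = (fun x : E d × ℂ =>
        (ev (v0 + ((ρ j * θ : ℝ) : ℂ) • x.1).1 (c i + ρ j * x.2) /
        ev (v0 + ((ρ j * θ : ℝ) : ℂ) • x.1).2 (c i + ρ j * x.2) - it v0 1 (c i)) / (ρ j : ℂ)) ∘
          (fun x : E d × (ι → ℂ) => ((x.1, x.2 i) : E d × ℂ)) := by
        funext y
        rw [hS]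
        rfl
      rw [e]
      refine DifferentiableAt.comp x ((h3 i).differentiableAt (isOpen_ball.mem_nhds ?_))
        (by fun_prop)
      rw [mem_ball_zero_iff]
      refine lt_of_le_of_lt ?_ hxn
      rw [Prod.norm_mk, Prod.norm_def]
      exact max_le_max le_rfl (norm_le_pi_norm x.2 i)
    refine DifferentiableAt.differentiableWithinAt ?_
    have e : H j = fun x => _ := funext fun x => hH j x
    rw [e]
    refine DifferentiableAt.prodMk (differentiableAt_pi.2 fun i => ?_)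
      (differentiableAt_pi.2 fun i => differentiableAt_pi.2 fun k => ?_)
    · refine DifferentiableAt.sub ?_ (by fun_prop)
      have hg : DifferentiableAt ℂ (fun y : E d × (ι → ℂ) => g i j (y.1, S j i y)) x := by
        have hgj : DifferentiableAt ℂ (g i j) (x.1, S j i x) :=
          ((hall i).2.2.2.1 j).differentiableAt (isOpen_ball.mem_nhds (h1 i x hxc))
        exact DifferentiableAt.comp x hgj (differentiableAt_fst.prodMk (hSd i))
      have hw : DifferentiableAt ℂ (fun y : E d × (ι → ℂ) =>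
        v0 + ((ρ j * θ : ℝ) : ℂ) • y.1) x := by fun_prop
      exact DifferentiableAt.comp (g := LFn (σ i) (l i)) x (hlfb i _ (h2 i x hxc)).1
        (hw.prodMk hg)
    · have h4 := (loc_lim ((hod i).1 (k : ℕ) k.2) θ hρ hρ0).1 j
      have h5 : Differentiable ℂ (fun x : E d × (ι → ℂ) => ((x.1, x.2 i) : E d × ℂ)) := by
        fun_prop
      exact (h4.comp h5) x
  -- differentiability of the limit
  have hLd : ∀ i, ∀ x ∈ closedBall ((p0, z0) : E d × (ι → ℂ)) R, DifferentiableAt ℂ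
      (fun x : E d × (ι → ℂ) => LFn (σ i) (l i) (v0, Y i (θ * (Ξ i + κ' i) x.1))) x := by
    intro i x hx
    have h1 : DifferentiableAt ℂ (fun x : E d × (ι → ℂ) => (θ : ℂ) * (Ξ i + κ' i) x.1) x := by
      fun_prop
    have h2 : DifferentiableAt ℂ (fun x : E d × (ι → ℂ) => Y i (θ * (Ξ i + κ' i) x.1)) x :=
      DifferentiableAt.comp (g := Y i) x (hYd i _ (hP1 i x.1 (hRD x hx).1)) h1
    exact DifferentiableAt.comp (g := LFn (σ i) (l i)) x (hlfb i _ (hlfm i x hx)).1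
      ((differentiableAt_const v0).prodMk h2)
  have hH0d : DifferentiableOn ℂ H0 (ball ((p0, z0) : E d × (ι → ℂ)) R) := by
    intro x hx
    refine DifferentiableAt.differentiableWithinAt ?_
    have e : H0 = fun x => _ := funext fun x => hH0 x
    rw [e]
    refine DifferentiableAt.prodMk (differentiableAt_pi.2 fun i => ?_)
      (differentiableAt_pi.2 fun i => differentiableAt_pi.2 fun k => ?_)
    · exact (hLd i x (ball_subset_closedBall hx)).sub (differentiableAt_const _)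
    · fun_prop
  have hH00 : H0 (p0, z0) = 0 := by
    rw [hH0]
    refine Prod.ext ?_ ?_
    · funext i
      show LFn (σ i) (l i) (v0, Y i (θ * (Ξ i + κ' i) p0)) - c i1 = 0
      rw [hT0, hlf0, sub_self]
    · funext i k
      show (θ : ℂ) * A i k p0 + (((k : ℕ) : ℂ) + 1) *
        (hasseDeriv ((k : ℕ) + 1) (pol v0.2 * WP v0)).eval (c i) * z0 i = 0
      by_cases hk : (k : ℕ) < m i - 1
      · rw [hA0 i k hk, (hod i).1 ((k : ℕ) + 1) (by omega)]
        ring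
      · have hk' : (k : ℕ) = m i - 1 := by
          have := k.2
          omega
        rw [hk']
        exact hz0 i
  -- the derivative of the limit
  obtain ⟨μ, hμ0, hμ⟩ : ∃ μ : ι → ℂ, (∀ i, μ i ≠ 0) ∧ ∀ i,
      HasDerivAt (fun u : ℂ => LFn (σ i) (l i) (v0, Y i u)) (μ i) (τ i) := by
    refine ⟨fun i => deriv (fun Z : ℂ => LFn (σ i) (l i) (v0, Z)) (Y i (τ i)) * deriv (Y i) (τ i),
      fun i => mul_ne_zero (hlfd i) (hτd i), fun i => ?_⟩
    have h1 : DifferentiableAt ℂ (LFn (σ i) (l i)) (v0, Y i (τ i)) :=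
      (hlfb i _ (mem_ball_self (hrr i))).1
    have h2 : DifferentiableAt ℂ (fun Z : ℂ => LFn (σ i) (l i) (v0, Z)) (Y i (τ i)) :=
      DifferentiableAt.comp (g := LFn (σ i) (l i)) (Y i (τ i)) h1
        ((differentiableAt_const v0).prodMk differentiableAt_id)
    exact HasDerivAt.comp (τ i) h2.hasDerivAt (hYd i _ (hτ1 i)).hasDerivAt
  have hfd : ∀ y : (ι → ℂ) × ((i : ι) → Fin (m i) → ℂ), ∃ x, fderiv ℂ H0 (p0, z0) x = y := by
    have hD : HasFDerivAt H0 ((ContinuousLinearMap.pi fun i => μ i • ((θ : ℂ) •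
        ((Ξ i + κ' i).comp (ContinuousLinearMap.fst ℂ (E d) (ι → ℂ))))).prod
        (ContinuousLinearMap.pi fun i => ContinuousLinearMap.pi fun k : Fin (m i) =>
          (θ : ℂ) • ((A i k).comp (ContinuousLinearMap.fst ℂ (E d) (ι → ℂ))) +
          ((((k : ℕ) : ℂ) + 1) * (hasseDeriv ((k : ℕ) + 1) (pol v0.2 * WP v0)).eval (c i)) •
            ((ContinuousLinearMap.proj i : (ι → ℂ) →L[ℂ] ℂ).comp
              (ContinuousLinearMap.snd ℂ (E d) (ι → ℂ))))) (p0, z0) := by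
      have e : H0 = fun x => _ := funext fun x => hH0 x
      rw [e]
      refine HasFDerivAt.prodMk (hasFDerivAt_pi.2 fun i => ?_)
        (hasFDerivAt_pi.2 fun i => hasFDerivAt_pi.2 fun k => ?_)
      · refine HasFDerivAt.sub_const _ ?_
        have h1 : HasFDerivAt (fun x : E d × (ι → ℂ) => (θ : ℂ) * (Ξ i + κ' i) x.1)
            ((θ : ℂ) • ((Ξ i + κ' i).comp (ContinuousLinearMap.fst ℂ (E d) (ι → ℂ))))
            (p0, z0) :=
          ((θ : ℂ) • ((Ξ i + κ' i).comp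
            (ContinuousLinearMap.fst ℂ (E d) (ι → ℂ)))).hasFDerivAt
        have h2 : HasDerivAt (fun u : ℂ => LFn (σ i) (l i) (v0, Y i u)) (μ i)
            ((fun x : E d × (ι → ℂ) => (θ : ℂ) * (Ξ i + κ' i) x.1) (p0, z0)) := by
          beta_reduce
          rw [hT0 i]
          exact hμ i
        exact h2.comp_hasFDerivAt (p0, z0) h1
      · exact ((θ : ℂ) • ((A i k).comp (ContinuousLinearMap.fst ℂ (E d) (ι → ℂ))) +
          ((((k : ℕ) : ℂ) + 1) * (hasseDeriv ((k : ℕ) + 1) (pol v0.2 * WP v0)).eval (c i)) •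
            ((ContinuousLinearMap.proj i : (ι → ℂ) →L[ℂ] ℂ).comp
              (ContinuousLinearMap.snd ℂ (E d) (ι → ℂ)))).hasFDerivAt
    intro y
    have hB' : ∀ i, (((m i - 1 : ℕ) : ℂ) + 1) *
        (hasseDeriv (m i - 1 + 1) (pol v0.2 * WP v0)).eval (c i) ≠ 0 := by
      intro i
      have h1 : m i - 1 + 1 = m i := Nat.sub_add_cancel (hm i)
      refine mul_ne_zero (Nat.cast_add_one_ne_zero _) ?_
      rw [h1]
      exact (hod i).2
    obtain ⟨q, hq1, hq2, -⟩ := hpre (fun i => y.1 i / (μ i * θ),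
      fun i k => y.2 i ⟨k, by
        have := k.2
        omega⟩ / θ)
    refine ⟨(q, fun i => (y.2 i ⟨m i - 1, by
      have := hm i
      omega⟩ - θ * A i (m i - 1) q) / ((((m i - 1 : ℕ) : ℂ) + 1) *
        (hasseDeriv (m i - 1 + 1) (pol v0.2 * WP v0)).eval (c i))), ?_⟩
    rw [hD.fderiv]
    refine Prod.ext ?_ ?_
    · funext i
      show μ i * ((θ : ℂ) * (Ξ i q + κ' i q)) = y.1 i
      rw [hq1 i]
      have := hμ0 i
      field_simp
    · funext i k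
      show (θ : ℂ) * A i k q + ((((k : ℕ) : ℂ) + 1) *
        (hasseDeriv ((k : ℕ) + 1) (pol v0.2 * WP v0)).eval (c i)) *
          ((y.2 i ⟨m i - 1, _⟩ - θ * A i (m i - 1) q) / ((((m i - 1 : ℕ) : ℂ) + 1) *
        (hasseDeriv (m i - 1 + 1) (pol v0.2 * WP v0)).eval (c i))) = y.2 i k
      by_cases hk : (k : ℕ) < m i - 1
      · have h1 := hq2 i ⟨k, hk⟩
        beta_reduce at h1
        rw [(hod i).1 ((k : ℕ) + 1) (by omega), h1]
        simp only [mul_zero, zero_mul, add_zero]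
        field_simp
      · have hk' : k = ⟨m i - 1, by
            have := hm i
            omega⟩ := by
          apply Fin.ext
          have := k.2
          show (k : ℕ) = m i - 1
          omega
        rw [hk']
        show (θ : ℂ) * A i (m i - 1) q + ((((m i - 1 : ℕ) : ℂ) + 1) *
          (hasseDeriv (m i - 1 + 1) (pol v0.2 * WP v0)).eval (c i)) *
            ((y.2 i ⟨m i - 1, _⟩ - θ * A i (m i - 1) q) / ((((m i - 1 : ℕ) : ℂ) + 1) *
          (hasseDeriv (m i - 1 + 1) (pol v0.2 * WP v0)).eval (c i))) = y.2 i ⟨m i - 1, _⟩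
        rw [mul_div_cancel₀ _ (hB' i)]
        ring
  obtain ⟨x, hx, hxH⟩ := hurj hR hHd hH0d
    (fun x hx => hHt x (ball_subset_closedBall hx)) hH00 hfd
  have hjx : Tendsto (fun j : ℕ => (j, x j)) atTop (atTop ×ˢ 𝓝 ((p0, z0) : E d × (ι → ℂ))) :=
    tendsto_id.prodMk hx
  have hzt : ∀ i, Tendsto (fun j => c i + ρ j * (x j).2 i) atTop (𝓝 (c i)) := fun i =>
    (hρt (p0, z0) i (c i)).comp hjx
  refine ⟨fun j => v0 + ((ρ j * θ : ℝ) : ℂ) • (x j).1, fun j i => c i + ρ j * (x j).2 i,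
    fun j i => 1 + n i j + l i, (hwt (p0, z0)).comp hjx, hzt, ?_⟩
  have hmem0 : ((p0, z0) : E d × (ι → ℂ)) ∈ closedBall ((p0, z0) : E d × (ι → ℂ)) R :=
    mem_closedBall_self hR.le
  have f1 : ∀ i, ∀ᶠ j in atTop, (pol v0.2).eval (c i + ρ j * (x j).2 i) ≠ 0 := by
    intro i
    have h1 := ((pol v0.2).continuous.tendsto (c i)).comp (hzt i)
    exact h1.eventually_ne (hWne i)
  have f2 : ∀ i, ∀ᶠ j in atTop, ev (v0 + ((ρ j * θ : ℝ) : ℂ) • (x j).1).2
      (c i + ρ j * (x j).2 i) ≠ 0 := fun i =>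
    ((hprt i (p0, z0)).comp hjx).eventually (start_lim (hc i) (hb i) θ hρ hρ0 (p0, z0 i)).1
  have f3 : ∀ i, ∀ᶠ j in atTop, (((x j).1, S j i (x j)) : E d × ℂ) ∈
      ball (0 : E d × ℂ) 1 := by
    intro i
    have h1 := (((hft (p0, z0)).prodMk_nhds (hSt i (p0, z0))).comp hjx)
    refine h1.eventually (isOpen_ball.mem_nhds ?_)
    rw [mem_ball_zero_iff, Prod.norm_mk, max_lt_iff]
    have h2 := (hRD _ hmem0).1
    refine ⟨by linarith, ?_⟩
    rw [norm_mul, Complex.norm_real, Real.norm_of_nonneg hθ.le]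
    have h3 := hθΞ i (((p0, z0) : E d × (ι → ℂ)).1)
    linarith
  have f4 : ∀ i, ∀ᶠ j in atTop, ((v0 + ((ρ j * θ : ℝ) : ℂ) • (x j).1,
      g i j ((x j).1, S j i (x j))) : E d × ℂ) ∈ ball ((v0, Y i (τ i)) : E d × ℂ) (rr i) := by
    intro i
    have h1 := (((hwt (p0, z0)).prodMk_nhds (hgt i (p0, z0) (hRD _ hmem0).1)).comp hjx)
    exact h1.eventually (isOpen_ball.mem_nhds (hlfm i _ hmem0))
  filter_upwards [hxH, eventually_all.2 f1, eventually_all.2 f2, eventually_all.2 f3,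
    eventually_all.2 f4, eventually_all.2 (fun i => (hall i).2.2.2.2.2)] with
    j h0 h1 h2 h3 h4 h5 i
  have hρj : (ρ j : ℂ) ≠ 0 := by exact_mod_cast (hρ j).ne'
  rw [hH] at h0
  refine ⟨by omega, ?_, ?_⟩
  · refine div_of (h1 i) fun k hk => ?_
    have h6 := congrFun (congrFun (Prod.ext_iff.1 h0).2 i) ⟨k, hk⟩
    have h7 : (hasseDeriv k (pol v0.2 * WP (v0 + ((ρ j * θ : ℝ) : ℂ) • (x j).1))).eval
        (c i + ρ j * (x j).2 i) / (ρ j : ℂ) = 0 := h6
    exact (div_eq_zero_iff.1 h7).resolve_right hρj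
  · have h6 := congrFun (Prod.ext_iff.1 h0).1 i
    have h7 : LFn (σ i) (l i) (v0 + ((ρ j * θ : ℝ) : ℂ) • (x j).1,
        g i j ((x j).1, S j i (x j))) = c i1 + ρ j * (x j).2 i1 := sub_eq_zero.1 h6
    have h8 : Rf (v0 + ((ρ j * θ : ℝ) : ℂ) • (x j).1)
        ((c i + ρ j * (x j).2 i : ℂ) : OnePoint ℂ) =
          ((it v0 1 (c i) + ρ j * S j i (x j) : ℂ) : OnePoint ℂ) := by
      have h9 : (pol (v0 + ((ρ j * θ : ℝ) : ℂ) • (x j).1).2).eval
          (c i + ρ j * (x j).2 i) ≠ 0 := by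
        rw [pol_eval]
        exact h2 i
      unfold Rf
      rw [rat_coe_of_ne h9]
      congr 1
      rw [pol_eval, pol_eval, hS, mul_div_cancel₀ _ hρj]
      ring
    rw [show 1 + n i j + l i = l i + (n i j + 1) by ring, Function.iterate_add_apply,
      Function.iterate_succ_apply, h8, h5 i _ (h3 i), (hlfb i _ (h4 i)).2, h7]

end Pool.Agent.H91.CS
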