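import Mathlib

/-!
# Module HURW: zeros of limits of holomorphic maps in several variables

PROOF. Let `A` be the derivative of `H0` at `x0`, `S` a continuous linear right inverse of `A` (`LinearMap.exists_rightInverse_of_surjective`, finite dimension). Put `G j y = H j (x0 + S y)`, `G0 y = H0 (x0 + S y)` on a small ball
`ball 0 r' ` of `Y`: `G0 0 = 0`, the derivative of `G0` at `0` is the identity. The derivatives of `G j` tend to that of `G0` locally uniformly (Cauchy estimate on lines: for `y` in `ball 0 (r' / 2)` and a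
unit vector `e`, the derivative of `G j - G0` in the direction `e` at `y` is at most `sup ‖G j - G0‖ / (r' / 4)` over a slightly larger ball: `Complex.norm_deriv_le_of_forall_mem_sphere_norm_le` for `t ↦ (G j - G0) (y + t e)`; the
operator norm is the supremum over unit vectors). So for every `ε` there is `r''` such that, for large `j`, `y ↦ y - G j y` is Lipschitz with constant `1 / 2` on `closedBall 0 r''` (`Convex.norm_image_sub_le_of_norm_fderiv_le`) and
`‖G j 0‖ ≤ r'' / 2`: it maps `closedBall 0 r''` into itself, so it has a fixed point `y j` (`ContractingWith` on a complete set, `exists_fixedPoint'`), `‖y j‖ ≤ 2 ‖G j 0‖ → 0`. `x j = x0 + S (y j)`. (`y j = 0` for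
small `j`.)
-/

set_option autoImplicit false

open Metric Set Filter Topology

namespace Pool.Agent.H91.CS

private theorem hurw_cauchy {Y : Type} [NormedAddCommGroup Y] [NormedSpace ℂ Y]
    [FiniteDimensional ℂ Y] {φ : Y → Y} {ρ r' M : ℝ} (hρ : 0 < ρ) (h2 : 2 * ρ < r')
    (hd : DifferentiableOn ℂ φ (ball 0 r')) (hM : ∀ z ∈ closedBall (0 : Y) (2 * ρ), ‖φ z‖ ≤ M)
    {y : Y} (hy : y ∈ closedBall (0 : Y) ρ) : ‖fderiv ℂ φ y‖ ≤ M / ρ := by
  have : CompleteSpace Y := FiniteDimensional.complete ℂ Y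
  have hM0 : 0 ≤ M := (norm_nonneg _).trans (hM 0 (mem_closedBall_self (by linarith)))
  rw [mem_closedBall_zero_iff] at hy
  have hyr : y ∈ ball (0 : Y) r' := by
    rw [mem_ball_zero_iff]
    linarith
  have hφ : HasFDerivAt φ (fderiv ℂ φ y) y := (hd.differentiableAt (isOpen_ball.mem_nhds hyr)).hasFDerivAt
  refine ContinuousLinearMap.opNorm_le_bound _ (by positivity) fun v => ?_
  by_cases hv : v = 0
  · subst hv
    simp
  have hv0 : 0 < ‖v‖ := norm_pos_iff.2 hv
  have hR : 0 < ρ / ‖v‖ := by positivity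
  have hball : ∀ t : ℂ, ‖t‖ ≤ ρ / ‖v‖ → ‖y + t • v‖ ≤ 2 * ρ := by
    intro t ht
    refine (norm_add_le _ _).trans ?_
    rw [norm_smul]
    have h3 : ‖t‖ * ‖v‖ ≤ ρ / ‖v‖ * ‖v‖ := mul_le_mul_of_nonneg_right ht hv0.le
    have h4 : ρ / ‖v‖ * ‖v‖ = ρ := by field_simp
    linarith
  have hline : HasDerivAt (fun t : ℂ => y + t • v) v 0 := by
    have h5 := ((hasDerivAt_id (0 : ℂ)).smul_const v).const_add y
    rw [one_smul] at h5
    exact h5
  have hφ' : HasFDerivAt φ (fderiv ℂ φ y) (y + (0 : ℂ) • v) := by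
    rw [zero_smul, add_zero]
    exact hφ
  have hf := hφ'.comp_hasDerivAt (0 : ℂ) hline
  have hdc : DiffContOnCl ℂ (φ ∘ fun t : ℂ => y + t • v) (ball 0 (ρ / ‖v‖)) := by
    have h6 : DifferentiableOn ℂ (φ ∘ fun t : ℂ => y + t • v)
        {t : ℂ | y + t • v ∈ ball (0 : Y) r'} := by
      apply hd.comp
      · exact ((differentiable_id.smul_const v).const_add y).differentiableOn
      · intro t ht
        exact ht
    apply h6.diffContOnCl_ball
    intro t ht
    rw [mem_closedBall_zero_iff] at ht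
    change y + t • v ∈ ball (0 : Y) r'
    rw [mem_ball_zero_iff]
    exact (hball t ht).trans_lt h2
  have hb := Complex.norm_deriv_le_of_forall_mem_sphere_norm_le hR hdc (C := M) (by
    intro t ht
    rw [mem_sphere_zero_iff_norm] at ht
    exact hM _ (mem_closedBall_zero_iff.2 (hball t ht.le)))
  rw [hf.deriv] at hb
  refine hb.trans (le_of_eq ?_)
  field_simp

private theorem hurw_fix {Y : Type} [NormedAddCommGroup Y] [NormedSpace ℂ Y]
    [FiniteDimensional ℂ Y] {G : Y → Y} {ρ r' : ℝ} (hρ : 0 < ρ) (h2 : 2 * ρ < r')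
    (hd : DifferentiableOn ℂ G (ball 0 r'))
    (hM : ∀ z ∈ closedBall (0 : Y) (2 * ρ), ‖z - G z‖ ≤ ρ / 2) :
    ∃ y : Y, G y = 0 ∧ ‖y‖ ≤ 2 * ‖G 0‖ := by
  have : CompleteSpace Y := FiniteDimensional.complete ℂ Y
  have hsub : closedBall (0 : Y) ρ ⊆ ball 0 r' := closedBall_subset_ball (by linarith)
  have hdφ : DifferentiableOn ℂ (fun z => z - G z) (ball 0 r') := differentiableOn_id.sub hd
  have hlip : ∀ a ∈ closedBall (0 : Y) ρ, ∀ b ∈ closedBall (0 : Y) ρ,
      ‖(b - G b) - (a - G a)‖ ≤ 1 / 2 * ‖b - a‖ := by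
    intro a ha b hb
    refine (convex_closedBall (0 : Y) ρ).norm_image_sub_le_of_norm_fderiv_le (𝕜 := ℂ)
      (f := fun z => z - G z) (C := 1 / 2) (fun x hx => ?_) (fun x hx => ?_) ha hb
    · exact hdφ.differentiableAt (isOpen_ball.mem_nhds (hsub hx))
    · refine (hurw_cauchy hρ h2 hdφ hM hx).trans (le_of_eq ?_)
      field_simp
  have hmaps : MapsTo (fun z => z - G z) (closedBall (0 : Y) ρ) (closedBall (0 : Y) ρ) := by
    intro z hz
    rw [mem_closedBall_zero_iff] at hz ⊢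
    have := hM z (mem_closedBall_zero_iff.2 (by linarith))
    linarith
  have hcon : ContractingWith (1 / 2 : NNReal) (hmaps.restrict _ _ _) := by
    refine ⟨by
      rw [← NNReal.coe_lt_coe]
      norm_num, ?_⟩
    apply LipschitzWith.of_dist_le_mul
    intro x y
    rw [Subtype.dist_eq, Subtype.dist_eq, dist_eq_norm, dist_eq_norm]
    have := hlip y.1 y.2 x.1 x.2
    simpa using this
  obtain ⟨y, hy, hfix, -⟩ := ContractingWith.exists_fixedPoint' (isClosed_closedBall.isComplete)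
    hmaps hcon (mem_closedBall_self hρ.le) (edist_ne_top _ _)
  have hfix' : y - G y = y := hfix
  have hG : G y = 0 := by
    have := sub_eq_self.1 hfix'
    exact this
  refine ⟨y, hG, ?_⟩
  have h3 := hlip 0 (mem_closedBall_self hρ.le) y hy
  rw [hG, sub_zero, zero_sub, sub_neg_eq_add] at h3
  have h4 : ‖y‖ ≤ ‖y + G 0‖ + ‖G 0‖ := by
    calc ‖y‖ = ‖(y + G 0) - G 0‖ := by rw [add_sub_cancel_right]
      _ ≤ _ := norm_sub_le _ _
  linarith

theorem hurw {X Y : Type} [NormedAddCommGroup X] [NormedSpace ℂ X] [FiniteDimensional ℂ X]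
    [NormedAddCommGroup Y] [NormedSpace ℂ Y] [FiniteDimensional ℂ Y] {H : ℕ → X → Y} {H0 : X → Y}
    {x0 : X} {r : ℝ} (hr : 0 < r) (hd : ∀ᶠ j in atTop, DifferentiableOn ℂ (H j) (ball x0 r))
    (hd0 : DifferentiableOn ℂ H0 (ball x0 r)) (hu : TendstoUniformlyOn H H0 atTop (ball x0 r))
    (h0 : H0 x0 = 0) (hs : Function.Surjective (fderiv ℂ H0 x0)) :
    ∃ x : ℕ → X, Tendsto x atTop (𝓝 x0) ∧ ∀ᶠ j in atTop, H j (x j) = 0 := by
  classical
  obtain ⟨g, hg⟩ := LinearMap.exists_rightInverse_of_surjective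
    (fderiv ℂ H0 x0 : X →ₗ[ℂ] Y) (LinearMap.range_eq_top.2 hs)
  obtain ⟨S, hS⟩ : ∃ S : Y →L[ℂ] X, ∀ y, fderiv ℂ H0 x0 (S y) = y := by
    refine ⟨LinearMap.toContinuousLinearMap g, fun y => ?_⟩
    have := LinearMap.congr_fun hg y
    simpa using this
  obtain ⟨r', hr'⟩ : ∃ r' : ℝ, r' = r / (‖S‖ + 1) := ⟨_, rfl⟩
  have hr'0 : 0 < r' := by
    rw [hr']
    positivity
  have hmem : ∀ y ∈ ball (0 : Y) r', x0 + S y ∈ ball x0 r := by
    intro y hy
    rw [mem_ball_zero_iff, hr', lt_div_iff₀ (by positivity)] at hy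
    rw [mem_ball, dist_eq_norm, add_sub_cancel_left]
    have := S.le_opNorm y
    nlinarith [norm_nonneg y]
  have haff : Differentiable ℂ fun y : Y => x0 + S y := S.differentiable.const_add x0
  have hG0d : DifferentiableOn ℂ (fun y => H0 (x0 + S y)) (ball 0 r') :=
    hd0.comp haff.differentiableOn hmem
  have hx0 : x0 ∈ ball x0 r := mem_ball_self hr
  have hder : HasFDerivAt (fun y => H0 (x0 + S y)) (ContinuousLinearMap.id ℂ Y) 0 := by
    have h1 : HasFDerivAt (fun y : Y => x0 + S y) S 0 := S.hasFDerivAt.const_add x0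
    have h2 : HasFDerivAt H0 (fderiv ℂ H0 x0) (x0 + S 0) := by
      rw [map_zero, add_zero]
      exact (hd0.differentiableAt (isOpen_ball.mem_nhds hx0)).hasFDerivAt
    have h3 := h2.comp (0 : Y) h1
    have h4 : (fderiv ℂ H0 x0).comp S = ContinuousLinearMap.id ℂ Y := by
      ext y
      exact hS y
    rw [h4] at h3
    exact h3
  -- the small ball
  have hlo := (hasFDerivAt_iff_isLittleO_nhds_zero.1 hder).def (by norm_num : (0 : ℝ) < 1 / 8)
  obtain ⟨δ, hδ, hδ'⟩ := Metric.eventually_nhds_iff.1 hlo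
  obtain ⟨ρ, hρe⟩ : ∃ ρ : ℝ, ρ = min (δ / 4) (r' / 4) := ⟨_, rfl⟩
  have hρ : 0 < ρ := by
    rw [hρe]
    positivity
  have hρ1 : ρ ≤ δ / 4 := by
    rw [hρe]
    exact min_le_left _ _
  have hρ2 : ρ ≤ r' / 4 := by
    rw [hρe]
    exact min_le_right _ _
  have h2ρ : 2 * ρ < r' := by linarith
  have hφ0 : ∀ z ∈ closedBall (0 : Y) (2 * ρ), ‖z - H0 (x0 + S z)‖ ≤ ρ / 4 := by
    intro z hz
    rw [mem_closedBall_zero_iff] at hz
    have h5 := hδ' (y := z) (by
      rw [dist_zero_right]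
      linarith)
    rw [zero_add, map_zero, add_zero, h0, sub_zero, ContinuousLinearMap.id_apply,
      norm_sub_rev] at h5
    linarith
  have hev : ∀ᶠ j in atTop, ∃ y : Y, H j (x0 + S y) = 0 ∧ ‖y‖ ≤ 2 * ‖H j x0‖ := by
    have hun := Metric.tendstoUniformlyOn_iff.1 hu (ρ / 4) (by linarith)
    filter_upwards [hd, hun] with j hj1 hj2
    have hGd : DifferentiableOn ℂ (fun y => H j (x0 + S y)) (ball 0 r') :=
      hj1.comp haff.differentiableOn hmem
    have h6 := hurw_fix (G := fun y => H j (x0 + S y)) hρ h2ρ hGd (by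
      intro z hz
      have h7 := hφ0 z hz
      have h8 := hj2 (x0 + S z) (hmem z (closedBall_subset_ball h2ρ hz))
      rw [dist_eq_norm] at h8
      have h9 : z - H j (x0 + S z) = (z - H0 (x0 + S z)) + (H0 (x0 + S z) - H j (x0 + S z)) := by
        abel
      rw [h9]
      exact (norm_add_le _ _).trans (by linarith))
    simpa using h6
  let y : ℕ → Y := fun j =>
    if h : ∃ y : Y, H j (x0 + S y) = 0 ∧ ‖y‖ ≤ 2 * ‖H j x0‖ then h.choose else 0
  have hy : ∀ᶠ j in atTop, H j (x0 + S (y j)) = 0 ∧ ‖y j‖ ≤ 2 * ‖H j x0‖ := by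
    filter_upwards [hev] with j hj
    have : y j = hj.choose := dif_pos hj
    rw [this]
    exact hj.choose_spec
  have hHx : Tendsto (fun j => H j x0) atTop (𝓝 0) := by
    have := hu.tendsto_at hx0
    rwa [h0] at this
  have hy0 : Tendsto y atTop (𝓝 0) := by
    apply squeeze_zero_norm' (hy.mono fun j hj => hj.2)
    have := (hHx.norm.const_mul 2)
    simpa using this
  refine ⟨fun j => x0 + S (y j), ?_, hy.mono fun j hj => hj.1⟩
  have h10 : Tendsto (fun j => x0 + S (y j)) atTop (𝓝 (x0 + S 0)) :=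
    ((S.continuous.tendsto 0).comp hy0).const_add x0
  rwa [map_zero, add_zero] at h10

end Pool.Agent.H91.CS
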