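import Pool.Agent.H91.CS.MDISC

/-!
# Module MBLO: Bloch's theorem

PROOF. Nothing to show if `deriv h 0 = 0` (the ball of radius `0` is empty). The continuous function `z ↦ (1 / 2 - ‖z‖) * ‖deriv h z‖` on `closedBall 0 (1 / 2)` has a maximum `M` at `z0`, `M ≥ ‖deriv h 0‖ / 2 > 0`.
With `t = 1 / 2 - ‖z0‖ > 0`, `A = ‖deriv h z0‖ = M / t`: on `ball z0 (t / 2)` `1 / 2 - ‖z‖ ≥ t / 2`, so `‖deriv h z‖ ≤ 2 A`. `disc_image`: the image contains `ball (h z0) (A * (t / 2) / 24)`, radius `M / 48 ≥ ‖deriv h 0‖ / 96`.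
-/

set_option autoImplicit false

open Metric Set Filter Topology

namespace Pool.Agent.H91.CS

theorem bloch {h : ℂ → ℂ} (hd : DifferentiableOn ℂ h (ball 0 1)) :
    ∃ w : ℂ, ball w (‖deriv h 0‖ / 96) ⊆ h '' ball 0 1 := by
  by_cases h0 : deriv h 0 = 0
  · refine ⟨0, ?_⟩
    rw [h0, norm_zero, zero_div, ball_zero]
    exact empty_subset _
  have hpos : 0 < ‖deriv h 0‖ := norm_pos_iff.mpr h0
  have hsub : closedBall (0 : ℂ) (1 / 2) ⊆ ball 0 1 := closedBall_subset_ball (by norm_num)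
  have hcd : ContinuousOn (deriv h) (ball 0 1) := (hd.deriv isOpen_ball).continuousOn
  have hcont : ContinuousOn (fun z : ℂ => (1 / 2 - ‖z‖) * ‖deriv h z‖) (closedBall 0 (1 / 2)) :=
    (continuousOn_const.sub continuous_norm.continuousOn).mul (hcd.mono hsub).norm
  obtain ⟨z0, hz0, hmax⟩ := (isCompact_closedBall (0 : ℂ) (1 / 2)).exists_isMaxOn
    ⟨0, mem_closedBall_self (by norm_num)⟩ hcont
  have h1 : (1 / 2 - ‖(0 : ℂ)‖) * ‖deriv h 0‖ ≤ (1 / 2 - ‖z0‖) * ‖deriv h z0‖ :=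
    hmax (mem_closedBall_self (by norm_num))
  rw [norm_zero, sub_zero] at h1
  have hz0n : ‖z0‖ ≤ 1 / 2 := by
    rw [mem_closedBall, dist_zero_right] at hz0
    exact hz0
  set t : ℝ := 1 / 2 - ‖z0‖ with ht
  set A : ℝ := ‖deriv h z0‖ with hA
  have hM : 0 < t * A := by linarith
  have ht0 : 0 ≤ t := by linarith
  have hA0 : 0 ≤ A := norm_nonneg _
  have htpos : 0 < t := by
    rcases ht0.lt_or_eq with h2 | h2
    · exact h2
    · rw [← h2, zero_mul] at hM
      exact absurd hM (lt_irrefl 0)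
  have hApos : 0 < A := by
    rcases hA0.lt_or_eq with h2 | h2
    · exact h2
    · rw [← h2, mul_zero] at hM
      exact absurd hM (lt_irrefl 0)
  have hb : ∀ z ∈ ball z0 (t / 2), ‖z‖ ≤ 1 / 2 - t / 2 := by
    intro z hz
    rw [mem_ball, dist_eq_norm] at hz
    have h2 : ‖z‖ ≤ ‖z - z0‖ + ‖z0‖ := by
      have := norm_add_le (z - z0) z0
      rwa [sub_add_cancel] at this
    linarith
  have hsub2 : ball z0 (t / 2) ⊆ ball 0 1 := by
    intro z hz
    rw [mem_ball, dist_zero_right]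
    have := hb z hz
    linarith
  have hbd : ∀ z ∈ ball z0 (t / 2), ‖deriv h z‖ ≤ 2 * A := by
    intro z hz
    have h2 := hb z hz
    have h3 : (1 / 2 - ‖z‖) * ‖deriv h z‖ ≤ t * A := by
      apply hmax
      rw [mem_closedBall, dist_zero_right]
      linarith
    have h4 : t / 2 * ‖deriv h z‖ ≤ (1 / 2 - ‖z‖) * ‖deriv h z‖ :=
      mul_le_mul_of_nonneg_right (by linarith) (norm_nonneg _)
    have h5 : t / 2 * ‖deriv h z‖ ≤ t / 2 * (2 * A) := by
      calc t / 2 * ‖deriv h z‖ ≤ t * A := h4.trans h3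
        _ = t / 2 * (2 * A) := by ring
    exact le_of_mul_le_mul_left h5 (by linarith)
  have h6 := disc_image (F := h) (c := z0) (r := t / 2) (A := A) (by linarith) hApos
    (hd.mono hsub2) rfl hbd
  refine ⟨h z0, (ball_subset_ball ?_).trans (h6.trans (image_mono hsub2))⟩
  have e1 : A * (t / 2) / 24 = t * A / 48 := by ring
  rw [e1]
  linarith

end Pool.Agent.H91.CS
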