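import Mathlib

/-!
# Module MDISC: the image of a disc contains a disc

PROOF. `deriv F` is holomorphic on the ball, `‖deriv F z - deriv F c‖ ≤ 3 A`, so by the Schwarz lemma at most `3 A ‖z - c‖ / r`, so at most `A / 2` on `closedBall c (r / 6)`.
So `‖F z - F c‖ ≥ A r / 12` on the sphere of radius `r / 6`, and `DiffContOnCl.ball_subset_image_closedBall` gives the disc of radius `A r / 24`.
-/

set_option autoImplicit false

open Metric Set Filter Topology

namespace Pool.Agent.H91.CS

theorem disc_image {F : ℂ → ℂ} {c : ℂ} {r A : ℝ} (hr : 0 < r) (hA : 0 < A)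
    (hF : DifferentiableOn ℂ F (ball c r)) (h0 : ‖deriv F c‖ = A)
    (hb : ∀ z ∈ ball c r, ‖deriv F z‖ ≤ 2 * A) : ball (F c) (A * r / 24) ⊆ F '' ball c r := by
  have hd : DifferentiableOn ℂ (deriv F) (ball c r) := hF.deriv isOpen_ball
  have hc : c ∈ ball c r := mem_ball_self hr
  have hmaps : MapsTo (deriv F) (ball c r) (closedBall (deriv F c) (3 * A)) := by
    intro z hz
    rw [mem_closedBall, dist_eq_norm]
    calc ‖deriv F z - deriv F c‖ ≤ ‖deriv F z‖ + ‖deriv F c‖ := norm_sub_le _ _
      _ ≤ 2 * A + A := add_le_add (hb z hz) h0.le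
      _ = 3 * A := by ring
  have hr6 : 0 < r / 6 := by positivity
  have hsub : closedBall c (r / 6) ⊆ ball c r := closedBall_subset_ball (by linarith)
  -- bound for the derivative of the difference
  have hder : ∀ z ∈ closedBall c (r / 6), ‖deriv F z - deriv F c‖ ≤ A / 2 := by
    intro z hz
    have h1 := Complex.dist_le_div_mul_dist_of_mapsTo_ball hd hmaps (hsub hz)
    rw [dist_eq_norm] at h1
    rw [mem_closedBall] at hz
    calc ‖deriv F z - deriv F c‖ ≤ 3 * A / r * dist z c := h1
      _ ≤ 3 * A / r * (r / 6) := by gcongr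
      _ = A / 2 := by field_simp; norm_num
  have hdiff : ∀ z ∈ closedBall c (r / 6), DifferentiableAt ℂ F z := fun z hz =>
    hF.differentiableAt (isOpen_ball.mem_nhds (hsub hz))
  have hlow : ∀ z ∈ sphere c (r / 6), A * r / 12 ≤ ‖F z - F c‖ := by
    intro z hz
    have hz' : z ∈ closedBall c (r / 6) := sphere_subset_closedBall hz
    have h2 : ‖(F z - deriv F c * z) - (F c - deriv F c * c)‖ ≤ A / 2 * ‖z - c‖ := by
      refine Convex.norm_image_sub_le_of_norm_deriv_le (𝕜 := ℂ) (f := fun w => F w - deriv F c * w)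
        (s := closedBall c (r / 6)) ?_ ?_ (convex_closedBall c _) (mem_closedBall_self hr6.le) hz'
      · intro w hw
        exact (hdiff w hw).sub ((differentiableAt_id).const_mul _)
      · intro w hw
        have h3 : HasDerivAt (fun w => F w - deriv F c * w) (deriv F w - deriv F c) w := by
          have h4 := (hdiff w hw).hasDerivAt.fun_sub ((hasDerivAt_id w).const_mul (deriv F c))
          simpa using h4
        rw [h3.deriv]
        exact hder w hw
    have h5 : ‖z - c‖ = r / 6 := by
      rw [mem_sphere, dist_eq_norm] at hz; exact hz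
    have h6 : ‖deriv F c * (z - c)‖ = A * (r / 6) := by rw [norm_mul, h0, h5]
    have h7 : deriv F c * (z - c) =
        (F z - F c) - ((F z - deriv F c * z) - (F c - deriv F c * c)) := by ring
    have h8 : ‖deriv F c * (z - c)‖ ≤
        ‖F z - F c‖ + ‖(F z - deriv F c * z) - (F c - deriv F c * c)‖ := by
      conv_lhs => rw [h7]
      exact norm_sub_le _ _
    rw [h6] at h8
    rw [h5] at h2
    nlinarith [h8, h2]
  have hdc : DiffContOnCl ℂ F (ball c (r / 6)) := by
    refine DifferentiableOn.diffContOnCl ?_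
    rw [closure_ball c hr6.ne']
    exact hF.mono hsub
  have hne : ∃ᶠ z in 𝓝 c, F z ≠ F c := by
    have h9 : deriv F c ≠ 0 := by
      intro h; rw [h, norm_zero] at h0; linarith
    have h10 : HasDerivAt F (deriv F c) c := (hdiff c (mem_closedBall_self hr6.le)).hasDerivAt
    have h11 : ∀ᶠ z in 𝓝[≠] c, F z ≠ F c := h10.eventually_ne h9
    exact (h11.frequently).filter_mono nhdsWithin_le_nhds
  have h12 := hdc.ball_subset_image_closedBall hr6 hlow hne
  have h13 : A * r / 12 / 2 = A * r / 24 := by ring
  rw [h13] at h12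
  exact h12.trans (image_mono hsub)

end Pool.Agent.H91.CS
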