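import Pool.Agent.H91.CS.PDefs

/-!
# Module PCH: the maps in the charts

PROOF. `ev (sh x p) Z = ev p (x + Z)` (`ev_cf`, `pol_eval`, `eval_comp`, degree at most `d`), which gives `tc_ev1`, `tc_ev2`; `sh x` is linear, `‖sh x p‖ ≤ C(d, R) ‖p‖` for `‖x‖ ≤ R` (coefficients of `(X + C x) ^ i`), `rv` and the swap are linear isometries. So
`add, smul, bdd` of `AS`. The coordinates `X n = XC (sg n) (x n)`, `x n = it v0 n x`, satisfy `‖X n‖ ≤ R` (`R ≥ 1`; `x n ≠ 0` if `sg n = true`). Let `w = tr (sg n) (sg (n + 1)) v0`. With `(A', B') = v0` or `rv v0`, `A' (X n) / B' (X n) = x (n + 1)` (`ev_rev` in H44/Fatou/Mob2 for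
`sg n = true`; `B' (X n) ≠ 0`), so `ev w.1 (X n) = X (n + 1) * ev w.2 (X n)`: `zero`. `den`: by compactness of `closedBall 0 R` there is `δ0 > 0` with `δ0 ≤ ‖A' X‖ + ‖B' X‖` for `‖X‖ ≤ R`, both for `v0` and `rv v0` (no common
zeros: coprime; for `rv v0` at `0`: `last_ne`, at `X ≠ 0` by `ev_rev`). If `sg (n + 1) = false`: `‖A'‖ = ‖x (n + 1)‖ ‖B'‖ ≤ R ‖B'‖`, so `‖B'‖ ≥ δ0 / (1 + R)`; if it is `true`: `‖B'‖ = ‖A'‖ / ‖x (n + 1)‖ ≤ ‖A'‖`, `‖A'‖ ≥ δ0 / 2`.
`tc_step`: `ch σ X = pt` of the homogeneous coordinates, `Rf v` on homogeneous coordinates is `pt` of the values of the polynomials (`rat_coe`; `rat_coe_eq`, `rat_infty`, `eval_reflect` for the chart `1 / z`; the degree `dg` is `d`): so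
`Rf v (ch σ X) = pt (ev w.1' X) (ev w.2' X)`, `w' = tr σ false v`, and with `τ`: `ch τ (a / b) = pt a b` or `pt b a` if `b ≠ 0` for `(a, b)` the values of `tr σ τ v`. `tc_it`: induction.
-/

set_option autoImplicit false

open Filter Topology Metric Set Polynomial

namespace Pool.Agent.H91.CS

open Pool.Agent.H44.Fatou Pool.Agent.H32.BT Pool.Agent.H79.Eul Pool.Agent.H79.Par

variable {d : ℕ} {v0 : E d} {R : ℝ} {x : ℂ}

private theorem pch_ev_sh (a : ℂ) (p : Fin (d + 1) → ℂ) (Z : ℂ) :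
    ev (sh a p) Z = ev p (a + Z) := by
  unfold sh
  have h1 : ((pol p).comp (X + C a)).natDegree ≤ d := by
    rw [natDegree_comp, natDegree_X_add_C, mul_one]
    exact pol_deg p
  rw [ev_cf h1, eval_comp, eval_add, eval_X, eval_C, pol_eval, add_comm]

private theorem pch_ev_sub (p q : Fin (d + 1) → ℂ) (k Z : ℂ) :
    ev (p - k • q) Z = ev p Z - k * ev q Z := by
  unfold ev
  rw [Finset.mul_sum, ← Finset.sum_sub_distrib]
  refine Finset.sum_congr rfl fun i _ => ?_
  rw [Pi.sub_apply, Pi.smul_apply, smul_eq_mul]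
  ring

theorem tc_ev2 (n : ℕ) (v : E d) (Z : ℂ) : ev (TC v0 R x n v).2 Z =
    ev (tr (sg v0 R x n) (sg v0 R x (n + 1)) v).2 (XC (sg v0 R x n) (it v0 n x) + Z) := by
  unfold TC
  exact pch_ev_sh _ _ _

theorem tc_ev1 (n : ℕ) (v : E d) (Z : ℂ) : ev (TC v0 R x n v).1 Z =
    ev (tr (sg v0 R x n) (sg v0 R x (n + 1)) v).1 (XC (sg v0 R x n) (it v0 n x) + Z) -
      XC (sg v0 R x (n + 1)) (it v0 (n + 1) x) * ev (TC v0 R x n v).2 Z := by
  rw [tc_ev2]
  unfold TC
  simp only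
  rw [pch_ev_sub, pch_ev_sh, pch_ev_sh]

/-- coordinates are small -/
private theorem pch_XC (hR : 1 ≤ R) (n : ℕ) : ‖XC (sg v0 R x n) (it v0 n x)‖ ≤ R := by
  unfold XC sg
  by_cases h : R < ‖it v0 n x‖
  · rw [if_pos h, if_pos rfl, norm_inv]
    have h1 : 1 ≤ ‖it v0 n x‖ := hR.trans h.le
    exact (inv_le_one_of_one_le₀ h1).trans hR
  · rw [if_neg h, if_neg (by simp)]
    exact not_lt.1 h

private theorem pch_pol_add (p q : Fin (d + 1) → ℂ) : pol (p + q) = pol p + pol q := by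
  unfold pol
  rw [← Finset.sum_add_distrib]
  refine Finset.sum_congr rfl fun i _ => ?_
  rw [Pi.add_apply, C_add, add_mul]

private theorem pch_pol_smul (k : ℂ) (p : Fin (d + 1) → ℂ) : pol (k • p) = C k * pol p := by
  unfold pol
  rw [Finset.mul_sum]
  refine Finset.sum_congr rfl fun i _ => ?_
  rw [Pi.smul_apply, smul_eq_mul, C_mul, mul_assoc]

private theorem pch_sh_add (a : ℂ) (p q : Fin (d + 1) → ℂ) : sh a (p + q) = sh a p + sh a q := by
  unfold sh
  rw [pch_pol_add, add_comp]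
  funext i
  simp only [cf, coeff_add, Pi.add_apply]

private theorem pch_sh_smul (a k : ℂ) (p : Fin (d + 1) → ℂ) : sh a (k • p) = k • sh a p := by
  unfold sh
  rw [pch_pol_smul, mul_comp, C_comp]
  funext i
  simp only [cf, coeff_C_mul, Pi.smul_apply, smul_eq_mul]

private theorem pch_sh_bd (hR : 1 ≤ R) {a : ℂ} (ha : ‖a‖ ≤ R) (p : Fin (d + 1) → ℂ) :
    ‖sh a p‖ ≤ ((d : ℝ) + 1) * (R ^ d * 2 ^ d) * ‖p‖ := by
  have hR0 : 0 ≤ R := by linarith
  rw [pi_norm_le_iff_of_nonneg (by positivity)]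
  intro i
  unfold sh cf pol
  rw [Polynomial.sum_comp, finsetSum_coeff]
  refine (norm_sum_le _ _).trans ?_
  have h1 : ∀ j ∈ (Finset.univ : Finset (Fin (d + 1))),
      ‖((C (p j) * X ^ (j : ℕ)).comp (X + C a)).coeff (i : ℕ)‖ ≤ R ^ d * 2 ^ d * ‖p‖ := by
    intro j _
    rw [mul_comp, C_comp, pow_comp, X_comp, coeff_C_mul, coeff_X_add_C_pow, norm_mul, norm_mul,
      norm_pow, mul_comm]
    have hj : (j : ℕ) ≤ d := by omega
    have e1 : ‖a‖ ^ ((j : ℕ) - (i : ℕ)) ≤ R ^ d := by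
      calc ‖a‖ ^ ((j : ℕ) - (i : ℕ)) ≤ R ^ ((j : ℕ) - (i : ℕ)) :=
            pow_le_pow_left₀ (norm_nonneg _) ha _
        _ ≤ R ^ d := pow_le_pow_right₀ hR (by omega)
    have e2 : ‖(((j : ℕ).choose (i : ℕ) : ℕ) : ℂ)‖ ≤ 2 ^ d := by
      rw [Complex.norm_natCast]
      have e3 : (j : ℕ).choose (i : ℕ) ≤ 2 ^ d :=
        (Nat.choose_le_two_pow _ _).trans (Nat.pow_le_pow_right (by norm_num) hj)
      exact_mod_cast e3
    exact mul_le_mul (mul_le_mul e1 e2 (norm_nonneg _) (by positivity)) (norm_le_pi_norm p j)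
      (norm_nonneg _) (by positivity)
  refine (Finset.sum_le_sum h1).trans (le_of_eq ?_)
  rw [Finset.sum_const, Finset.card_univ, Fintype.card_fin, nsmul_eq_mul]
  push_cast
  ring

private theorem pch_rv_norm (v : E d) : ‖rv v‖ ≤ ‖v‖ := by
  have h1 : ∀ p : Fin (d + 1) → ℂ, ‖fun i => p (Fin.rev i)‖ ≤ ‖p‖ := by
    intro p
    rw [pi_norm_le_iff_of_nonneg (norm_nonneg _)]
    exact fun i => norm_le_pi_norm p _
  unfold rv
  rw [Prod.norm_def]
  exact max_le ((h1 v.1).trans (norm_fst_le v)) ((h1 v.2).trans (norm_snd_le v))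

private theorem pch_tr_norm (σ τ : Bool) (v : E d) : ‖tr σ τ v‖ ≤ ‖v‖ := by
  have h1 : ‖(if σ then rv v else v)‖ ≤ ‖v‖ := by
    cases σ
    · exact le_rfl
    · exact pch_rv_norm v
  unfold tr
  cases τ
  · exact h1
  · refine le_trans ?_ h1
    rw [if_pos rfl, Prod.norm_def]
    exact max_le (norm_snd_le _) (norm_fst_le _)

private theorem pch_tr_add (σ τ : Bool) (v w : E d) : tr σ τ (v + w) = tr σ τ v + tr σ τ w := by
  cases σ <;> cases τ <;> rfl

private theorem pch_tr_smul (σ τ : Bool) (k : ℂ) (v : E d) : tr σ τ (k • v) = k • tr σ τ v := by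
  cases σ <;> cases τ <;> rfl

/-- no common zeros -/
private theorem pch_nc (hcop : IsCoprime (pol v0.1) (pol v0.2)) (a : ℂ) :
    ev v0.1 a ≠ 0 ∨ ev v0.2 a ≠ 0 := by
  have h1 := coprime_eval hcop a
  rwa [pol_eval, pol_eval] at h1

private theorem pch_nc_rv (hd : 1 ≤ d) (hcop : IsCoprime (pol v0.1) (pol v0.2))
    (hdeg : max (pol v0.1).natDegree (pol v0.2).natDegree = d) (a : ℂ) :
    ev (rv v0).1 a ≠ 0 ∨ ev (rv v0).2 a ≠ 0 := by
  by_cases ha : a = 0
  · subst ha
    rw [CopNearAux.ev_zero', CopNearAux.ev_zero']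
    have h1 := CopNearAux.last_ne hdeg hd
    simpa [rv] using h1
  · have h1 := pch_nc hcop a⁻¹
    rw [ev_rev v0.1 (inv_ne_zero ha), ev_rev v0.2 (inv_ne_zero ha), inv_inv] at h1
    rcases h1 with h1 | h1
    · exact Or.inl (left_ne_zero_of_mul h1)
    · exact Or.inr (left_ne_zero_of_mul h1)

private theorem pch_min (u : E d) (hu : ∀ a, ev u.1 a ≠ 0 ∨ ev u.2 a ≠ 0) (hR : 1 ≤ R) :
    ∃ δ : ℝ, 0 < δ ∧ ∀ a : ℂ, ‖a‖ ≤ R → δ ≤ ‖ev u.1 a‖ + ‖ev u.2 a‖ := by
  have hid : Continuous (fun z : ℂ => (u, z)) := Continuous.prodMk continuous_const continuous_id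
  have hc1 : Continuous (fun z => ev u.1 z) := by
    have h := Continuous.comp (ev1_cont (d := d)) hid
    exact h
  have hc2 : Continuous (fun z => ev u.2 z) := by
    have h := Continuous.comp (ev2_cont (d := d)) hid
    exact h
  obtain ⟨a0, _, h2⟩ := (isCompact_closedBall (0 : ℂ) R).exists_isMinOn
    ⟨0, mem_closedBall_self (by linarith)⟩ (hc1.norm.add hc2.norm).continuousOn
  refine ⟨‖ev u.1 a0‖ + ‖ev u.2 a0‖, ?_, fun a ha => ?_⟩
  · rcases hu a0 with h | h
    · have := norm_pos_iff.2 h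
      positivity
    · have := norm_pos_iff.2 h
      positivity
  · exact h2 (by rwa [mem_closedBall, dist_zero_right])

/-- the image of the point in the first chart -/
private theorem pch_img (hR : 1 ≤ R) (hden : ∀ n, ev v0.2 (it v0 n x) ≠ 0) (n : ℕ) :
    ev (if sg v0 R x n then rv v0 else v0).2 (XC (sg v0 R x n) (it v0 n x)) ≠ 0 ∧
    ev (if sg v0 R x n then rv v0 else v0).1 (XC (sg v0 R x n) (it v0 n x)) =
      it v0 (n + 1) x *
        ev (if sg v0 R x n then rv v0 else v0).2 (XC (sg v0 R x n) (it v0 n x)) := by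
  have h0 : it v0 (n + 1) x = ev v0.1 (it v0 n x) / ev v0.2 (it v0 n x) := rfl
  have h1 := hden n
  rw [h0]
  by_cases h : R < ‖it v0 n x‖
  · have hsg : sg v0 R x n = true := if_pos h
    have hz : it v0 n x ≠ 0 := by
      intro h2
      rw [h2, norm_zero] at h
      linarith
    rw [hsg, if_pos rfl]
    have hX : XC true (it v0 n x) = (it v0 n x)⁻¹ := rfl
    rw [hX]
    have e1 := ev_rev v0.1 hz
    have e2 := ev_rev v0.2 hz
    have e3 : ev (rv v0).2 (it v0 n x)⁻¹ ≠ 0 := by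
      intro h3
      apply h1
      rw [e2]
      change ev (rv v0).2 (it v0 n x)⁻¹ * _ = 0
      rw [h3, zero_mul]
    refine ⟨e3, ?_⟩
    have e4 : ev v0.1 (it v0 n x) = ev (rv v0).1 (it v0 n x)⁻¹ * it v0 n x ^ d := e1
    have e5 : ev v0.2 (it v0 n x) = ev (rv v0).2 (it v0 n x)⁻¹ * it v0 n x ^ d := e2
    rw [e4, e5, mul_div_mul_right _ _ (pow_ne_zero d hz), div_mul_cancel₀ _ e3]
  · have hsg : sg v0 R x n = false := if_neg h
    rw [hsg]
    refine ⟨h1, ?_⟩
    exact (div_mul_cancel₀ _ h1).symm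

theorem tc_as (hd : 1 ≤ d) (hcop : IsCoprime (pol v0.1) (pol v0.2))
    (hdeg : max (pol v0.1).natDegree (pol v0.2).natDegree = d) (hR : 1 ≤ R)
    (hden : ∀ n, ev v0.2 (it v0 n x) ≠ 0) : ∃ R' δ : ℝ, AS (TC v0 R x) v0 R' δ := by
  obtain ⟨δ1, hδ1, h1⟩ := pch_min v0 (pch_nc hcop) hR
  obtain ⟨δ2, hδ2, h2⟩ := pch_min (rv v0) (pch_nc_rv hd hcop hdeg) hR
  have hR0 : 0 ≤ R := by linarith
  obtain ⟨K, hK⟩ : ∃ K : ℝ, K = ((d : ℝ) + 1) * (R ^ d * 2 ^ d) := ⟨_, rfl⟩
  have hK1 : 1 ≤ K := by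
    have e1 : 1 ≤ R ^ d := one_le_pow₀ hR
    have e2 : (1 : ℝ) ≤ 2 ^ d := one_le_pow₀ (by norm_num)
    have e3 : (1 : ℝ) ≤ (d : ℝ) + 1 := by
      have := Nat.cast_nonneg (α := ℝ) d
      linarith
    rw [hK]
    exact one_le_mul_of_one_le_of_one_le e3 (one_le_mul_of_one_le_of_one_le e1 e2)
  have hmin : ∀ n, min δ1 δ2 ≤
      ‖ev (if sg v0 R x n then rv v0 else v0).1 (XC (sg v0 R x n) (it v0 n x))‖ +
      ‖ev (if sg v0 R x n then rv v0 else v0).2 (XC (sg v0 R x n) (it v0 n x))‖ := by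
    intro n
    have h3 := pch_XC (v0 := v0) (x := x) hR n
    cases hsg : sg v0 R x n
    · rw [hsg] at h3
      exact (min_le_left _ _).trans (h1 _ h3)
    · rw [hsg] at h3
      exact (min_le_right _ _).trans (h2 _ h3)
  refine ⟨K * (1 + R), min δ1 δ2 / (1 + R), ?_, ?_, ?_, ?_, ?_, ?_, ?_⟩
  · exact one_le_mul_of_one_le_of_one_le hK1 (by linarith)
  · exact div_pos (lt_min hδ1 hδ2) (by linarith)
  · intro n v w
    unfold TC
    rw [pch_tr_add, Prod.fst_add, Prod.snd_add, pch_sh_add, pch_sh_add, smul_add]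
    refine Prod.ext ?_ rfl
    simp only [Prod.fst_add]
    abel
  · intro n k v
    unfold TC
    rw [pch_tr_smul, Prod.smul_fst, Prod.smul_snd, pch_sh_smul, pch_sh_smul]
    refine Prod.ext ?_ rfl
    simp only [Prod.smul_fst]
    rw [smul_sub, smul_comm]
  · intro n v
    have h3 := pch_XC (v0 := v0) (x := x) hR n
    have h4 := pch_XC (v0 := v0) (x := x) hR (n + 1)
    have h5 := pch_tr_norm (sg v0 R x n) (sg v0 R x (n + 1)) v
    have h6 : ∀ p : Fin (d + 1) → ℂ, ‖p‖ ≤ ‖v‖ →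
        ‖sh (XC (sg v0 R x n) (it v0 n x)) p‖ ≤ K * ‖v‖ := by
      intro p hp
      refine (pch_sh_bd hR h3 p).trans ?_
      rw [← hK]
      exact mul_le_mul_of_nonneg_left hp (by linarith)
    have h7 := h6 _ ((norm_fst_le _).trans h5)
    have h8 := h6 _ ((norm_snd_le _).trans h5)
    have hKv : 0 ≤ K * ‖v‖ := mul_nonneg (by linarith) (norm_nonneg _)
    unfold TC
    rw [Prod.norm_def]
    refine max_le ?_ ?_
    · refine (norm_sub_le _ _).trans ?_
      rw [norm_smul]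
      have h9 := mul_le_mul h4 h8 (norm_nonneg _) hR0
      nlinarith
    · nlinarith
  · intro n
    obtain ⟨e1, e2⟩ := pch_img (v0 := v0) (x := x) hR hden n
    rw [tc_ev1, tc_ev2, add_zero]
    by_cases h : R < ‖it v0 (n + 1) x‖
    · have hsg : sg v0 R x (n + 1) = true := if_pos h
      have hz : it v0 (n + 1) x ≠ 0 := by
        intro h2
        rw [h2, norm_zero] at h
        linarith
      rw [hsg]
      have hX : XC true (it v0 (n + 1) x) = (it v0 (n + 1) x)⁻¹ := rfl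
      have ht : tr (sg v0 R x n) true v0 = ((if sg v0 R x n then rv v0 else v0).2,
        (if sg v0 R x n then rv v0 else v0).1) := rfl
      rw [hX, ht]
      simp only
      rw [e2, inv_mul_cancel_left₀ hz, sub_self]
    · have hsg : sg v0 R x (n + 1) = false := if_neg h
      rw [hsg]
      have hX : XC false (it v0 (n + 1) x) = it v0 (n + 1) x := rfl
      have ht : tr (sg v0 R x n) false v0 = (if sg v0 R x n then rv v0 else v0) := rfl
      rw [hX, ht, e2, sub_self]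
  · intro n
    obtain ⟨e1, e2⟩ := pch_img (v0 := v0) (x := x) hR hden n
    have h3 := hmin n
    have e3 := congrArg norm e2
    rw [norm_mul] at e3
    rw [tc_ev2, add_zero, div_le_iff₀ (by linarith)]
    by_cases h : R < ‖it v0 (n + 1) x‖
    · have hsg : sg v0 R x (n + 1) = true := if_pos h
      rw [hsg]
      have ht : tr (sg v0 R x n) true v0 = ((if sg v0 R x n then rv v0 else v0).2,
        (if sg v0 R x n then rv v0 else v0).1) := rfl
      rw [ht]
      simp only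
      have h5 := norm_nonneg
        (ev (if sg v0 R x n then rv v0 else v0).1 (XC (sg v0 R x n) (it v0 n x)))
      have h6 := norm_nonneg
        (ev (if sg v0 R x n then rv v0 else v0).2 (XC (sg v0 R x n) (it v0 n x)))
      have h7 : ‖ev (if sg v0 R x n then rv v0 else v0).2 (XC (sg v0 R x n) (it v0 n x))‖ ≤
          ‖ev (if sg v0 R x n then rv v0 else v0).1 (XC (sg v0 R x n) (it v0 n x))‖ := by
        rw [e3]
        exact le_mul_of_one_le_left h6 (by linarith)
      nlinarith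
    · have hsg : sg v0 R x (n + 1) = false := if_neg h
      rw [hsg]
      have ht : tr (sg v0 R x n) false v0 = (if sg v0 R x n then rv v0 else v0) := rfl
      rw [ht]
      have h6 := norm_nonneg
        (ev (if sg v0 R x n then rv v0 else v0).2 (XC (sg v0 R x n) (it v0 n x)))
      have h7 : ‖ev (if sg v0 R x n then rv v0 else v0).1 (XC (sg v0 R x n) (it v0 n x))‖ ≤
          R * ‖ev (if sg v0 R x n then rv v0 else v0).2 (XC (sg v0 R x n) (it v0 n x))‖ := by
        rw [e3]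
        exact mul_le_mul_of_nonneg_right (not_lt.1 h) h6
      linarith

private theorem pch_Rf {v : E d} (hdeg : max (pol v.1).natDegree (pol v.2).natDegree = d)
    (σ : Bool) (U : ℂ) : Rf v (ch σ U) =
      pt (ev (if σ then rv v else v).1 U) (ev (if σ then rv v else v).2 U) := by
  have hdg : dg (pol v.1) (pol v.2) = d := hdeg
  unfold Rf
  cases σ
  · rw [ch_false_coe, rat_coe, pol_eval, pol_eval]
    rfl
  · by_cases hU : U = 0
    · subst hU
      have h0 : ch true 0 = OnePoint.infty := by rw [ch_true]; unfold pt; rw [if_pos rfl]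
      rw [h0, rat_infty, hdg, if_pos rfl, CopNearAux.ev_zero', CopNearAux.ev_zero']
      have h1 : (rv v).1 0 = v.1 (Fin.last d) := by simp [rv]
      have h2 : (rv v).2 0 = v.2 (Fin.last d) := by simp [rv]
      have h3 := pol_coeff v.1 (Fin.last d)
      have h4 := pol_coeff v.2 (Fin.last d)
      rw [Fin.val_last] at h3 h4
      rw [h1, h2, h3, h4]
    · have h0 : ch true U = ((U⁻¹ : ℂ) : OnePoint ℂ) := by
        rw [ch_true]
        unfold pt
        rw [if_neg hU, one_div]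
      rw [h0, rat_coe, pol_eval, pol_eval, if_pos rfl, ev_rev v.1 (inv_ne_zero hU),
        ev_rev v.2 (inv_ne_zero hU), inv_inv, pt_smul (pow_ne_zero _ (inv_ne_zero hU))]
      rfl

theorem tc_step {v : E d} (hd : 1 ≤ d) (hcop : IsCoprime (pol v.1) (pol v.2))
    (hdeg : max (pol v.1).natDegree (pol v.2).natDegree = d) {n : ℕ} {Z : ℂ}
    (h : ev (TC v0 R x n v).2 Z ≠ 0) :
    Rf v (ch (sg v0 R x n) (XC (sg v0 R x n) (it v0 n x) + Z)) =
      ch (sg v0 R x (n + 1)) (XC (sg v0 R x (n + 1)) (it v0 (n + 1) x) +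
        st (TC v0 R x) v n Z) := by
  have h1 : XC (sg v0 R x (n + 1)) (it v0 (n + 1) x) + st (TC v0 R x) v n Z =
      ev (tr (sg v0 R x n) (sg v0 R x (n + 1)) v).1 (XC (sg v0 R x n) (it v0 n x) + Z) /
        ev (tr (sg v0 R x n) (sg v0 R x (n + 1)) v).2 (XC (sg v0 R x n) (it v0 n x) + Z) := by
    unfold st
    rw [tc_ev1, sub_div, mul_div_cancel_right₀ _ h, tc_ev2]
    ring
  rw [tc_ev2] at h
  rw [h1, pch_Rf hdeg]
  cases hτ : sg v0 R x (n + 1)
  · rw [hτ] at h
    have ht : tr (sg v0 R x n) false v = (if sg v0 R x n then rv v else v) := rfl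
    rw [ht] at h ⊢
    rw [ch_false_coe]
    unfold pt
    rw [if_neg h]
  · rw [hτ] at h
    have ht : tr (sg v0 R x n) true v = ((if sg v0 R x n then rv v else v).2,
        (if sg v0 R x n then rv v else v).1) := rfl
    rw [ht] at h ⊢
    simp only at h ⊢
    rw [ch_true, ← pt_smul (x := 1) h, one_mul, div_mul_cancel₀ _ h]

theorem tc_it {v : E d} (hd : 1 ≤ d) (hcop : IsCoprime (pol v.1) (pol v.2))
    (hdeg : max (pol v.1).natDegree (pol v.2).natDegree = d) (hx : ‖x‖ ≤ R) {n : ℕ} {Z : ℂ}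
    (h : ∀ i < n, ev (TC v0 R x i v).2 (nit (TC v0 R x) v i Z) ≠ 0) :
    (Rf v)^[n] ((x + Z : ℂ) : OnePoint ℂ) =
      ch (sg v0 R x n) (XC (sg v0 R x n) (it v0 n x) + nit (TC v0 R x) v n Z) := by
  induction n with
  | zero =>
    have hsg : sg v0 R x 0 = false := if_neg (not_lt.2 hx)
    rw [hsg, ch_false_coe]
    rfl
  | succ n ih =>
    rw [Function.iterate_succ_apply', ih fun i hi => h i (by omega),
      tc_step hd hcop hdeg (h n (Nat.lt_succ_self n))]
    rfl

end Pool.Agent.H91.CS
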