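import Pool.Agent.H91.CS.PCH

/-!
# Module PGRO: growth and the functional in the charts

PROOF. `x n = it v0 n x`, `σ n = sg v0 R x n`, `w = tr (σ n) (σ (n + 1)) v0`, `X n = XC (σ n) (x n)`. By `tc_ev1`, `tc_ev2` `en (TC ..) v0 n` is the derivative at `X n` of `ev w.1 / ev w.2`, which is the map `XC (σ (n + 1)) ∘ f ∘ (inverse of XC (σ n))`:
`en = jc (σ (n + 1)) (x (n + 1)) * f' (x n) / jc (σ n) (x n)`, `f' (x n) = wv v0 (x n) / ev v0.2 (x n) ^ 2` (chain rule with `tr_hasDerivAt_ev`; or direct computation: `wv` of `rv v0` and of the swapped pair, see `Mob2`). The product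
telescopes, `jc (σ 0) (x 0) = 1` as `‖x‖ ≤ R`: `en_prod`. Growth: if `σ n = false` `‖EN n‖ = ‖trD n x‖ ≥ c q ^ n`; if `true`, `‖EN n‖ = ‖trD n x‖ / ‖x n‖ ^ 2 ≥ c q ^ n`. `xn_eq`: the derivative at `t = 0` of `st T (v0 + t p) n 0`, the coordinate of
`f_(v0 + t p) (x n)`, is `jc (σ (n + 1)) (x (n + 1)) * xi v0 p (x n)` (algebra). `kp_eq`: the factors `jc` cancel (`jc ≠ 0`).
-/

set_option autoImplicit false

open Filter Topology Metric Set Polynomial

namespace Pool.Agent.H91.CS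

open Pool.Agent.H44.Fatou Pool.Agent.H32.BT Pool.Agent.H79.Eul Pool.Agent.H79.Par

variable {d : ℕ} {v0 : E d} {R : ℝ} {x : ℂ}

private theorem pg_hasDerivAt (p : Fin (d + 1) → ℂ) (z : ℂ) :
    HasDerivAt (fun z => ev p z) (dev p z) z := by
  unfold ev dev
  apply HasDerivAt.fun_sum
  intro i _
  exact (hasDerivAt_pow (i : ℕ) z).const_mul (p i)

private theorem pg_hasDerivAt' (p : Fin (d + 1) → ℂ) (X : ℂ) :
    HasDerivAt (fun Z => ev p (X + Z)) (dev p X) 0 := by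
  have h := pg_hasDerivAt p (X + 0)
  have h2 := HasDerivAt.comp_const_add X 0 h
  rwa [add_zero] at h2

private theorem pg_dev2 (n : ℕ) (v : E d) : dev (TC v0 R x n v).2 0 =
    dev (tr (sg v0 R x n) (sg v0 R x (n + 1)) v).2 (XC (sg v0 R x n) (it v0 n x)) := by
  have h1 := pg_hasDerivAt (TC v0 R x n v).2 0
  have h2 := pg_hasDerivAt' (tr (sg v0 R x n) (sg v0 R x (n + 1)) v).2
    (XC (sg v0 R x n) (it v0 n x))
  have h3 : (fun z => ev (TC v0 R x n v).2 z) = fun Z =>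
      ev (tr (sg v0 R x n) (sg v0 R x (n + 1)) v).2 (XC (sg v0 R x n) (it v0 n x) + Z) := by
    funext Z
    exact tc_ev2 n v Z
  rw [h3] at h1
  exact h1.unique h2

private theorem pg_dev1 (n : ℕ) (v : E d) : dev (TC v0 R x n v).1 0 =
    dev (tr (sg v0 R x n) (sg v0 R x (n + 1)) v).1 (XC (sg v0 R x n) (it v0 n x)) -
      XC (sg v0 R x (n + 1)) (it v0 (n + 1) x) *
        dev (tr (sg v0 R x n) (sg v0 R x (n + 1)) v).2 (XC (sg v0 R x n) (it v0 n x)) := by
  have h1 := pg_hasDerivAt (TC v0 R x n v).1 0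
  have h2 := (pg_hasDerivAt' (tr (sg v0 R x n) (sg v0 R x (n + 1)) v).1
    (XC (sg v0 R x n) (it v0 n x))).sub
      ((pg_hasDerivAt' (tr (sg v0 R x n) (sg v0 R x (n + 1)) v).2
        (XC (sg v0 R x n) (it v0 n x))).const_mul (XC (sg v0 R x (n + 1)) (it v0 (n + 1) x)))
  have h3 : (fun z => ev (TC v0 R x n v).1 z) =
      (fun Z => ev (tr (sg v0 R x n) (sg v0 R x (n + 1)) v).1
        (XC (sg v0 R x n) (it v0 n x) + Z)) -
      (fun Z => XC (sg v0 R x (n + 1)) (it v0 (n + 1) x) *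
        ev (tr (sg v0 R x n) (sg v0 R x (n + 1)) v).2 (XC (sg v0 R x n) (it v0 n x) + Z)) := by
    funext Z
    rw [tc_ev1 n v Z, tc_ev2 n v Z]
    rfl
  rw [h3] at h1
  exact h1.unique h2

/-- derivative of the map, from values -/
private noncomputable def pG (v : E d) (z : ℂ) : ℂ := wv v z / ev v.2 z ^ 2

private theorem pg_rv (v : E d) {c : ℂ} (hc : c ≠ 0) : pG (rv v) c⁻¹ = pG v c / jc true c := by
  have key : c ^ 2 * wv v c = -(c ^ d * c ^ d * wv (rv v) c⁻¹) :=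
    wv_rev_aux c (c ^ d) d (ev v.1 c) (ev v.2 c) (dev v.1 c) (dev v.2 c)
      (ev (fun i => v.1 (Fin.rev i)) c⁻¹) (ev (fun i => v.2 (Fin.rev i)) c⁻¹)
      (dev (fun i => v.1 (Fin.rev i)) c⁻¹) (dev (fun i => v.2 (Fin.rev i)) c⁻¹)
      (ev_rev v.1 hc) (ev_rev v.2 hc) (dev_rev v.1 hc) (dev_rev v.2 hc)
  have key2 : ev v.2 c = ev (rv v).2 c⁻¹ * c ^ d := ev_rev v.2 hc
  have hcd : c ^ d ≠ 0 := pow_ne_zero _ hc
  unfold pG jc
  simp only [if_true]
  have h1 : wv (rv v) c⁻¹ = -(c ^ 2 * wv v c) / (c ^ d * c ^ d) := by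
    rw [key]; field_simp
  have h2 : ev (rv v).2 c⁻¹ = ev v.2 c / c ^ d := by
    rw [key2]; field_simp
  rw [h1, h2]
  by_cases h0 : ev v.2 c = 0
  · rw [h0]; simp
  · field_simp

private theorem pg_swap (v : E d) {c : ℂ} (h1 : ev v.1 c ≠ 0) (h2 : ev v.2 c ≠ 0) :
    pG ((v.2, v.1) : E d) c = jc true (ev v.1 c / ev v.2 c) * pG v c := by
  unfold pG jc wv
  simp only [if_true]
  field_simp
  ring

/-- the data of one step -/
private theorem pg_data (hR : 1 ≤ R) (n : ℕ) : sg v0 R x n = true → it v0 n x ≠ 0 := by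
  intro h h0
  unfold sg at h
  rw [h0] at h
  simp only [norm_zero] at h
  split_ifs at h with h1
  linarith

private theorem pg_jc (hR : 1 ≤ R) (n : ℕ) : jc (sg v0 R x n) (it v0 n x) ≠ 0 := by
  rcases hb : sg v0 R x n with _ | _
  · unfold jc
    simp
  · have := pg_data hR n hb
    unfold jc
    simp [this]

private theorem pg_tr (hR : 1 ≤ R) (hden : ∀ n, ev v0.2 (it v0 n x) ≠ 0) (n : ℕ) :
    pG (tr (sg v0 R x n) (sg v0 R x (n + 1)) v0) (XC (sg v0 R x n) (it v0 n x)) =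
      jc (sg v0 R x (n + 1)) (it v0 (n + 1) x) * pG v0 (it v0 n x) /
        jc (sg v0 R x n) (it v0 n x) := by
  have hz1 := pg_data (v0 := v0) (x := x) hR n
  have hz2 := pg_data (v0 := v0) (x := x) hR (n + 1)
  have hd := hden n
  have hit : it v0 (n + 1) x = ev v0.1 (it v0 n x) / ev v0.2 (it v0 n x) := rfl
  rw [hit] at hz2 ⊢
  generalize it v0 n x = z at *
  generalize sg v0 R x n = σ at *
  generalize sg v0 R x (n + 1) = τ at *
  rcases σ with _ | _
  · rcases τ with _ | _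
    · simp [tr, XC, jc]
    · have hA : ev v0.1 z ≠ 0 := by
        intro h
        apply hz2 rfl
        rw [h, zero_div]
      have := pg_swap v0 hA hd
      simp only [tr, XC, if_true, Bool.false_eq_true, if_false]
      rw [this]
      simp [jc]
  · have hz : z ≠ 0 := hz1 rfl
    have h1 : ev v0.1 z = ev (rv v0).1 z⁻¹ * z ^ d := ev_rev v0.1 hz
    have h2 : ev v0.2 z = ev (rv v0).2 z⁻¹ * z ^ d := ev_rev v0.2 hz
    have hzd : z ^ d ≠ 0 := pow_ne_zero _ hz
    have h3 : ev (rv v0).1 z⁻¹ / ev (rv v0).2 z⁻¹ = ev v0.1 z / ev v0.2 z := by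
      rw [h1, h2, mul_div_mul_right _ _ hzd]
    rcases τ with _ | _
    · simp only [tr, XC, if_true, Bool.false_eq_true, if_false]
      rw [pg_rv v0 hz]
      simp [jc]
    · have hA : ev v0.1 z ≠ 0 := by
        intro h
        apply hz2 rfl
        rw [h, zero_div]
      have hA' : ev (rv v0).1 z⁻¹ ≠ 0 := by
        intro h
        apply hA
        rw [h1, h, zero_mul]
      have hB' : ev (rv v0).2 z⁻¹ ≠ 0 := by
        intro h
        apply hd
        rw [h2, h, zero_mul]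
      have := pg_swap (rv v0) hA' hB'
      simp only [tr, XC, if_true]
      rw [this, h3, pg_rv v0 hz, mul_div_assoc]

private theorem pg_den0 (hd : 1 ≤ d) (hcop : IsCoprime (pol v0.1) (pol v0.2))
    (hdeg : max (pol v0.1).natDegree (pol v0.2).natDegree = d) (hR : 1 ≤ R)
    (hden : ∀ n, ev v0.2 (it v0 n x) ≠ 0) (n : ℕ) :
    ev (tr (sg v0 R x n) (sg v0 R x (n + 1)) v0).2 (XC (sg v0 R x n) (it v0 n x)) ≠ 0 ∧
    ev (tr (sg v0 R x n) (sg v0 R x (n + 1)) v0).1 (XC (sg v0 R x n) (it v0 n x)) =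
      XC (sg v0 R x (n + 1)) (it v0 (n + 1) x) *
      ev (tr (sg v0 R x n) (sg v0 R x (n + 1)) v0).2 (XC (sg v0 R x n) (it v0 n x)) := by
  obtain ⟨R', δ, h⟩ := tc_as (x := x) hd hcop hdeg hR hden
  have h1 := h.den n
  have h2 := h.zero n
  rw [tc_ev1, tc_ev2, add_zero] at h2
  rw [tc_ev2, add_zero] at h1
  refine ⟨?_, sub_eq_zero.1 h2⟩
  intro h0
  rw [h0, norm_zero] at h1
  have := h.hδ
  linarith

private theorem pg_en (hd : 1 ≤ d) (hcop : IsCoprime (pol v0.1) (pol v0.2))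
    (hdeg : max (pol v0.1).natDegree (pol v0.2).natDegree = d) (hR : 1 ≤ R)
    (hden : ∀ n, ev v0.2 (it v0 n x) ≠ 0) (n : ℕ) :
    en (TC v0 R x) v0 n =
      jc (sg v0 R x (n + 1)) (it v0 (n + 1) x) * pG v0 (it v0 n x) /
        jc (sg v0 R x n) (it v0 n x) := by
  rw [← pg_tr hR hden n]
  obtain ⟨h1, h2⟩ := pg_den0 (x := x) hd hcop hdeg hR hden n
  unfold en pG wv
  rw [pg_dev1, tc_ev2, add_zero, h2]
  field_simp

theorem en_prod (hd : 1 ≤ d) (hcop : IsCoprime (pol v0.1) (pol v0.2))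
    (hdeg : max (pol v0.1).natDegree (pol v0.2).natDegree = d) (hR : 1 ≤ R) (hx : ‖x‖ ≤ R)
    (hden : ∀ n, ev v0.2 (it v0 n x) ≠ 0) (n : ℕ) :
    EN (TC v0 R x) v0 n = trD v0 n x * jc (sg v0 R x n) (it v0 n x) := by
  induction n with
  | zero =>
    have h1 : sg v0 R x 0 = false := by
      unfold sg
      rw [if_neg]
      exact not_lt.2 hx
    rw [h1]
    simp [EN, trD, jc]
  | succ n ih =>
    unfold EN at ih ⊢
    rw [Finset.prod_range_succ, ih, pg_en hd hcop hdeg hR hden n]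
    have h1 : trD v0 (n + 1) x = trD v0 n x * pG v0 (it v0 n x) := by
      unfold trD pG
      rw [Finset.prod_range_succ]
    rw [h1]
    have h2 := pg_jc (v0 := v0) (x := x) hR n
    field_simp

theorem xn_eq (hd : 1 ≤ d) (hcop : IsCoprime (pol v0.1) (pol v0.2))
    (hdeg : max (pol v0.1).natDegree (pol v0.2).natDegree = d) (hR : 1 ≤ R)
    (hden : ∀ n, ev v0.2 (it v0 n x) ≠ 0) (p : E d) (n : ℕ) :
    xn (TC v0 R x) v0 p n = jc (sg v0 R x (n + 1)) (it v0 (n + 1) x) * xi v0 p (it v0 n x) := by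
  obtain ⟨h1, h2⟩ := pg_den0 (x := x) hd hcop hdeg hR hden n
  unfold xn
  rw [tc_ev1, tc_ev2, tc_ev2, add_zero]
  have hz1 := pg_data (v0 := v0) (x := x) hR n
  have hz2 := pg_data (v0 := v0) (x := x) hR (n + 1)
  have hd' := hden n
  have hit : it v0 (n + 1) x = ev v0.1 (it v0 n x) / ev v0.2 (it v0 n x) := rfl
  rw [hit] at hz2 ⊢
  clear h1 h2 hit hden
  generalize it v0 n x = z at *
  generalize sg v0 R x n = σ at *
  generalize sg v0 R x (n + 1) = τ at *
  unfold xi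
  rcases σ with _ | _
  · rcases τ with _ | _
    · simp only [tr, XC, jc, Bool.false_eq_true, if_false]
      field_simp
    · have hA : ev v0.1 z ≠ 0 := by
        intro h
        apply hz2 rfl
        rw [h, zero_div]
      simp only [tr, XC, jc, Bool.false_eq_true, if_false, if_true]
      field_simp
      ring
  · have hz : z ≠ 0 := hz1 rfl
    have h1 : ev v0.1 z = ev (rv v0).1 z⁻¹ * z ^ d := ev_rev v0.1 hz
    have h2 : ev v0.2 z = ev (rv v0).2 z⁻¹ * z ^ d := ev_rev v0.2 hz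
    have h3 : ev p.1 z = ev (rv p).1 z⁻¹ * z ^ d := ev_rev p.1 hz
    have h4 : ev p.2 z = ev (rv p).2 z⁻¹ * z ^ d := ev_rev p.2 hz
    have hzd : z ^ d ≠ 0 := pow_ne_zero _ hz
    have hB' : ev (rv v0).2 z⁻¹ ≠ 0 := by
      intro h
      apply hd'
      rw [h2, h, zero_mul]
    rcases τ with _ | _
    · simp only [tr, XC, jc, if_true, Bool.false_eq_true, if_false]
      rw [h1, h2, h3, h4]
      clear h1 h2 h3 h4
      generalize ev (rv v0).1 z⁻¹ = a1 at *
      generalize ev (rv v0).2 z⁻¹ = a2 at *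
      generalize ev (rv p).1 z⁻¹ = a3 at *
      generalize ev (rv p).2 z⁻¹ = a4 at *
      generalize z ^ d = zd at *
      field_simp
    · have hA : ev v0.1 z ≠ 0 := by
        intro h
        apply hz2 rfl
        rw [h, zero_div]
      have hA' : ev (rv v0).1 z⁻¹ ≠ 0 := by
        intro h
        apply hA
        rw [h1, h, zero_mul]
      simp only [tr, XC, jc, if_true]
      rw [h1, h2, h3, h4]
      clear h1 h2 h3 h4
      generalize ev (rv v0).1 z⁻¹ = a1 at *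
      generalize ev (rv v0).2 z⁻¹ = a2 at *
      generalize ev (rv p).1 z⁻¹ = a3 at *
      generalize ev (rv p).2 z⁻¹ = a4 at *
      generalize z ^ d = zd at *
      field_simp
      ring

theorem tc_ag (hd : 1 ≤ d) (hcop : IsCoprime (pol v0.1) (pol v0.2))
    (hdeg : max (pol v0.1).natDegree (pol v0.2).natDegree = d) (hR : 1 ≤ R) (hx : ‖x‖ ≤ R)
    (hg : GrS v0 x) : ∃ c q : ℝ, AG (TC v0 R x) v0 c q := by
  obtain ⟨hden, c, q, hc, hq, hgr⟩ := hg
  refine ⟨c, q, hc, hq, fun n => ?_⟩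
  rw [en_prod hd hcop hdeg hR hx hden n, norm_mul]
  have h1 := hgr n
  have hcq : 0 ≤ c * q ^ n := by positivity
  rcases hb : sg v0 R x n with _ | _
  · have hj : jc false (it v0 n x) = 1 := by simp [jc]
    rw [hj, norm_one, mul_one]
    refine le_trans ?_ h1
    nlinarith [sq_nonneg ‖it v0 n x‖]
  · have h0 := pg_data hR n hb
    have hn : 0 < ‖it v0 n x‖ := norm_pos_iff.2 h0
    have hj : ‖jc true (it v0 n x)‖ = (‖it v0 n x‖ ^ 2)⁻¹ := by
      simp [jc]
    rw [hj, ← div_eq_mul_inv, le_div_iff₀ (by positivity)]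
    refine le_trans ?_ h1
    nlinarith

theorem kp_eq (hd : 1 ≤ d) (hcop : IsCoprime (pol v0.1) (pol v0.2))
    (hdeg : max (pol v0.1).natDegree (pol v0.2).natDegree = d) (hR : 1 ≤ R) (hx : ‖x‖ ≤ R)
    (hg : GrS v0 x) (p : E d) :
    kp (TC v0 R x) v0 p = ∑' k : ℕ, xi v0 p (it v0 k x) / trD v0 (k + 1) x := by
  unfold kp
  apply tsum_congr
  intro k
  rw [en_prod hd hcop hdeg hR hx hg.1 (k + 1), xn_eq hd hcop hdeg hR hg.1 p k,
    mul_comm (trD v0 (k + 1) x), mul_div_mul_left _ _ (pg_jc hR (k + 1))]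

end Pool.Agent.H91.CS
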