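import Pool.Agent.H91.CS.SGOOD
import Pool.Agent.H35.EX.Ascoli

/-!
# Module SLIM: limits of the rescaled functions depend on one variable only

PROOF (compare H91/CE/LIMS). `s, M, ρ, ε, n` from `good_scales`. Let `Φ k j y = G k (n k j) (ρ j • (0, y))`, holomorphic on `ball 0 1`, bounded by `M`, `Φ k j 0 = 0`. By Cauchy's estimate the `Φ k j` have a common Lipschitz constant on
every smaller ball; `ascoli` (for all `k` successively, or as in LIMS) gives a subsequence of `j` along which all `Φ k j` converge pointwise on `ball 0 1`, so locally uniformly, to a holomorphic function `Ψ k`, `Ψ k 0 = 0`; replace `ρ, ε, n`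
by the subsequence. Limit: let `u ∈ ball 0 (3 / 4)` (maximum norm of `V × ℂ`), `y = u.2 + κ k u.1`, `‖y‖ < 3 / 4 + 3 / 16 < 1`; for `u'` near `u` put `y' = u'.2 + κ k u'.1`: the points `ρ j • u'` and `ρ j • (0, y')` of `ball 0 (ρ j)` are
related, so `‖G k (n k j) (ρ j • u') - Φ k j y'‖ ≤ ε j`, and `Φ k j y' → Ψ k y` as `(j, u') → (∞, u)`. Not constant: `good_scales` gives `u j ∈ ball 0 (1 / 2)` with `s ≤ ‖G k (n k j) (ρ j • u j)‖`; `y j = (u j).2 + κ k (u j).1` has norm at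
most `5 / 8` and `‖Φ k j (y j)‖ ≥ s - ε j`; a limit point `y` of the `y j` has `‖Ψ k y‖ ≥ s`.
-/

set_option autoImplicit false

open Filter Topology Metric Set

namespace Pool.Agent.H91.CS

/-- a common subsequence for finitely many sequences -/
private theorem slim_ascoli {ι : Type} [DecidableEq ι] {Φ : ι → ℕ → ℂ → ℂ} {C Λ : ℝ}
    (hb : ∀ k j, ∀ X ∈ ball (0 : ℂ) 1, ‖Φ k j X‖ ≤ C)
    (hL : ∀ k j, ∀ X ∈ ball (0 : ℂ) 1, ∀ Y ∈ ball (0 : ℂ) 1,
      ‖Φ k j X - Φ k j Y‖ ≤ Λ * ‖X - Y‖) (S : Finset ι) :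
    ∃ (σ : ℕ → ℕ) (Ψ : ι → ℂ → ℂ), StrictMono σ ∧
      ∀ k ∈ S, ∀ X ∈ ball (0 : ℂ) 1, Tendsto (fun j => Φ k (σ j) X) atTop (𝓝 (Ψ k X)) := by
  induction S using Finset.induction_on with
  | empty => exact ⟨id, fun _ _ => 0, strictMono_id, fun k hk => absurd hk (Finset.notMem_empty k)⟩
  | insert a S ha ih =>
    obtain ⟨σ, Ψ, hσ, hΨ⟩ := ih
    obtain ⟨τ, Ψ', hτ, hΨ'⟩ := Pool.Agent.H35.EX.ascoli (Φ := fun j => Φ a (σ j)) (R := 1)
      (C := C) (L := Λ) one_pos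
      (Filter.Eventually.of_forall fun j => hb a (σ j))
      (Filter.Eventually.of_forall fun j => hL a (σ j))
    refine ⟨fun j => σ (τ j), fun k => if k = a then Ψ' else Ψ k, hσ.comp hτ, ?_⟩
    intro k hk X hX
    by_cases hka : k = a
    · subst hka
      beta_reduce
      rw [if_pos rfl]
      exact hΨ' X hX
    · beta_reduce
      rw [if_neg hka]
      have hkS : k ∈ S := (Finset.mem_insert.mp hk).resolve_left hka
      exact (hΨ k hkS X hX).comp hτ.tendsto_atTop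

theorem slim {ι : Type} [Finite ι] {V : Type} [NormedAddCommGroup V] [NormedSpace ℂ V]
    {G : ι → ℕ → V × ℂ → ℂ} {ok : ι → ℕ → V × ℂ → Prop} {e : ι → ℕ → ℝ} {κ : ι → V →L[ℂ] ℂ}
    (hκ : ∀ k p, ‖κ k p‖ ≤ ‖p‖ / 4)
    (h : ∀ k, ∃ ρ0 r1 L c q : ℝ, SR (G k) (ok k) (e k)
      (fun u u' => u.2 + κ k u.1 = u'.2 + κ k u'.1) ρ0 r1 L c q) :
    ∃ (ρ : ℕ → ℝ) (n : ι → ℕ → ℕ) (Ψ : ι → ℂ → ℂ), (∀ j, 0 < ρ j) ∧ Tendsto ρ atTop (𝓝 0) ∧
      ∀ k, Tendsto (n k) atTop atTop ∧ DifferentiableOn ℂ (Ψ k) (ball 0 1) ∧ Ψ k 0 = 0 ∧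
        (∃ η ∈ ball (0 : ℂ) 1, Ψ k η ≠ 0) ∧
        (∀ j, DifferentiableOn ℂ (fun u => G k (n k j) ((ρ j : ℂ) • u)) (ball 0 1)) ∧
        (∀ j, ∀ i < n k j, ∀ u ∈ ball (0 : V × ℂ) 1, ok k i ((ρ j : ℂ) • u)) ∧
        ∀ u ∈ ball (0 : V × ℂ) (3 / 4),
          Tendsto (fun w : ℕ × (V × ℂ) => G k (n k w.1) ((ρ w.1 : ℂ) • w.2)) (atTop ×ˢ 𝓝 u)
            (𝓝 (Ψ k (u.2 + κ k u.1))) := by
  classical
  have hft : Fintype ι := Fintype.ofFinite ι
  have hzero : ∀ k n, G k n 0 = 0 := by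
    intro k n
    obtain ⟨ρ0, r1, L, c, q, hSR⟩ := h k
    exact hSR.zero n
  obtain ⟨s, M, r, ε, n, hs, hr0, hrlim, hεlim, hnlim, hall⟩ := good_scales h
  -- the rescaled maps
  set Φ : ι → ℕ → ℂ → ℂ :=
    fun k j X => G k (n k j) (((3 / 4 * r j : ℝ) : ℂ) • ((0 : V), X)) with hΦ
  have hnorm : ∀ j, ‖((3 / 4 * r j : ℝ) : ℂ)‖ = 3 / 4 * r j := fun j => by
    rw [Complex.norm_real, Real.norm_eq_abs, abs_of_pos (by have := hr0 j; positivity)]
  have hmem : ∀ j (u : V × ℂ), u ∈ ball (0 : V × ℂ) (4 / 3) →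
      ((3 / 4 * r j : ℝ) : ℂ) • u ∈ ball (0 : V × ℂ) (r j) := by
    intro j u hu
    rw [mem_ball_zero_iff] at hu ⊢
    rw [norm_smul, hnorm]
    have := hr0 j
    nlinarith
  have hpair : ∀ X : ℂ, ‖((0 : V), X)‖ = ‖X‖ := fun X => by
    rw [Prod.norm_def]
    simp
  have hpmem : ∀ (R : ℝ) (X : ℂ), X ∈ ball (0 : ℂ) R → ((0 : V), X) ∈ ball (0 : V × ℂ) R := by
    intro R X hX
    rw [mem_ball_zero_iff] at hX ⊢
    rwa [hpair]
  have hΦb : ∀ k j, ∀ X ∈ ball (0 : ℂ) (4 / 3), ‖Φ k j X‖ ≤ M := by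
    intro k j X hX
    exact (hall k j).2.1 _ (hmem j _ (hpmem _ X hX))
  have hΦd : ∀ k j, DifferentiableOn ℂ (Φ k j) (ball 0 (4 / 3)) := by
    intro k j
    have h1 : DifferentiableOn ℂ (fun X : ℂ => ((3 / 4 * r j : ℝ) : ℂ) • ((0 : V), X))
        (ball 0 (4 / 3)) := by
      exact DifferentiableOn.const_smul ((differentiableOn_const (0 : V)).prodMk
        differentiableOn_id) (((3 / 4 * r j : ℝ) : ℂ))
    exact (hall k j).1.comp h1 (fun X hX => hmem j _ (hpmem _ X hX))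
  have hsub : ball (0 : ℂ) 1 ⊆ ball (0 : ℂ) (4 / 3) := ball_subset_ball (by norm_num)
  have hΦderiv : ∀ k j, ∀ X ∈ ball (0 : ℂ) 1, ‖deriv (Φ k j) X‖ ≤ M / (1 / 4) := by
    intro k j X hX
    have hcl : closedBall X (1 / 4) ⊆ ball (0 : ℂ) (4 / 3) := by
      intro Y hY
      rw [mem_closedBall, dist_eq_norm] at hY
      rw [mem_ball_zero_iff] at hX ⊢
      calc ‖Y‖ = ‖(Y - X) + X‖ := by rw [sub_add_cancel]
        _ ≤ ‖Y - X‖ + ‖X‖ := norm_add_le _ _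
        _ < 4 / 3 := by linarith
    refine Complex.norm_deriv_le_of_forall_mem_sphere_norm_le (by norm_num) ?_ ?_
    · refine DifferentiableOn.diffContOnCl ?_
      refine (hΦd k j).mono ?_
      rw [closure_ball _ (by norm_num)]
      exact hcl
    · intro Y hY
      exact hΦb k j Y (hcl (sphere_subset_closedBall hY))
  set Λ : ℝ := M / (1 / 4) with hΛ
  have hΦL : ∀ k j, ∀ X ∈ ball (0 : ℂ) 1, ∀ Y ∈ ball (0 : ℂ) 1,
      ‖Φ k j X - Φ k j Y‖ ≤ Λ * ‖X - Y‖ := by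
    intro k j X hX Y hY
    refine Convex.norm_image_sub_le_of_norm_deriv_le (𝕜 := ℂ) (s := ball (0 : ℂ) 1) ?_
      (hΦderiv k j) (convex_ball 0 1) hY hX
    intro Z hZ
    exact (hΦd k j).differentiableAt (isOpen_ball.mem_nhds (hsub hZ))
  obtain ⟨σ, Ψ, hσ, hΨ'⟩ := slim_ascoli (fun k j X hX => hΦb k j X (hsub hX)) hΦL
    (Finset.univ : Finset ι)
  have hΨ : ∀ k, ∀ X ∈ ball (0 : ℂ) 1, Tendsto (fun j => Φ k (σ j) X) atTop (𝓝 (Ψ k X)) :=
    fun k => hΨ' k (Finset.mem_univ k)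
  -- the joint limit
  have hlim : ∀ k, ∀ η ∈ ball (0 : ℂ) 1,
      Tendsto (fun w : ℕ × ℂ => Φ k (σ w.1) w.2) (atTop ×ˢ 𝓝 η) (𝓝 (Ψ k η)) := by
    intro k η hη
    rw [tendsto_iff_norm_sub_tendsto_zero]
    have h1 : Tendsto (fun w : ℕ × ℂ => Λ * ‖w.2 - η‖ + ‖Φ k (σ w.1) η - Ψ k η‖)
        (atTop ×ˢ 𝓝 η) (𝓝 (Λ * 0 + 0)) := by
      refine Tendsto.add (Tendsto.const_mul _ ?_) ?_
      · have h2 : Tendsto (fun x : ℂ => ‖x - η‖) (𝓝 η) (𝓝 0) :=
          tendsto_iff_norm_sub_tendsto_zero.1 tendsto_id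
        exact h2.comp tendsto_snd
      · exact (tendsto_iff_norm_sub_tendsto_zero.1 (hΨ k η hη)).comp tendsto_fst
    rw [mul_zero, add_zero] at h1
    refine squeeze_zero' (Filter.Eventually.of_forall fun w => norm_nonneg _) ?_ h1
    have h3 : ∀ᶠ x in 𝓝 η, x ∈ ball (0 : ℂ) 1 := isOpen_ball.mem_nhds hη
    filter_upwards [h3.prod_inr (atTop : Filter ℕ)] with w hw
    calc ‖Φ k (σ w.1) w.2 - Ψ k η‖
        = ‖(Φ k (σ w.1) w.2 - Φ k (σ w.1) η) + (Φ k (σ w.1) η - Ψ k η)‖ := by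
          rw [sub_add_sub_cancel]
      _ ≤ ‖Φ k (σ w.1) w.2 - Φ k (σ w.1) η‖ + ‖Φ k (σ w.1) η - Ψ k η‖ := norm_add_le _ _
      _ ≤ Λ * ‖w.2 - η‖ + ‖Φ k (σ w.1) η - Ψ k η‖ :=
          add_le_add (hΦL k (σ w.1) w.2 hw η hη) le_rfl
  have hΨL : ∀ k, ∀ X ∈ ball (0 : ℂ) 1, ∀ Y ∈ ball (0 : ℂ) 1,
      ‖Ψ k X - Ψ k Y‖ ≤ Λ * ‖X - Y‖ := by
    intro k X hX Y hY
    exact le_of_tendsto ((hΨ k X hX).sub (hΨ k Y hY)).norm
      (Filter.Eventually.of_forall fun j => hΦL k (σ j) X hX Y hY)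
  -- comparison with points which have the same second coordinate
  have hny : ∀ (k : ι) (u : V × ℂ), ‖u.2 + κ k u.1‖ ≤ 5 / 4 * ‖u‖ := by
    intro k u
    have h1 : ‖u.1‖ ≤ ‖u‖ := norm_fst_le u
    have h2 : ‖u.2‖ ≤ ‖u‖ := norm_snd_le u
    have h3 := hκ k u.1
    calc ‖u.2 + κ k u.1‖ ≤ ‖u.2‖ + ‖κ k u.1‖ := norm_add_le _ _
      _ ≤ 5 / 4 * ‖u‖ := by linarith
  have hcomp : ∀ (k : ι) (j : ℕ) (u : V × ℂ), u ∈ ball (0 : V × ℂ) (4 / 3) →
      u.2 + κ k u.1 ∈ ball (0 : ℂ) 1 →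
      ‖G k (n k j) (((3 / 4 * r j : ℝ) : ℂ) • u) - Φ k j (u.2 + κ k u.1)‖ ≤ ε j := by
    intro k j u hu hy
    refine (hall k j).2.2.2.2 _ (hmem j u hu) _ (hmem j _ (hpmem _ _ (hsub hy))) ?_
    show (((3 / 4 * r j : ℝ) : ℂ) • u).2 + κ k (((3 / 4 * r j : ℝ) : ℂ) • u).1 =
      (((3 / 4 * r j : ℝ) : ℂ) • ((0 : V), u.2 + κ k u.1)).2 +
        κ k (((3 / 4 * r j : ℝ) : ℂ) • ((0 : V), u.2 + κ k u.1)).1
    simp only [Prod.smul_fst, Prod.smul_snd, map_smul, smul_zero, map_zero, add_zero, smul_add]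
  refine ⟨fun j => 3 / 4 * r (σ j), fun k j => n k (σ j), Ψ, ?_, ?_, fun k =>
    ⟨?_, ?_, ?_, ?_, ?_, ?_, ?_⟩⟩
  · intro j
    have := hr0 (σ j)
    positivity
  · have h1 := (hrlim.comp hσ.tendsto_atTop).const_mul (3 / 4 : ℝ)
    rw [mul_zero] at h1
    exact h1
  · exact (hnlim k).comp hσ.tendsto_atTop
  · have hloc : TendstoLocallyUniformlyOn (fun j => Φ k (σ j)) (Ψ k) atTop (ball 0 1) := by
      rw [Metric.tendstoLocallyUniformlyOn_iff]
      intro ε hε x hx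
      have hδ : 0 < ε / (4 * (|Λ| + 1)) := by positivity
      refine ⟨ball x (ε / (4 * (|Λ| + 1))) ∩ ball 0 1,
        inter_mem (mem_nhdsWithin_of_mem_nhds (ball_mem_nhds x hδ)) self_mem_nhdsWithin, ?_⟩
      have h1 := (Metric.tendsto_atTop.1 (hΨ k x hx)) (ε / 2) (by positivity)
      obtain ⟨N, hN⟩ := h1
      filter_upwards [eventually_ge_atTop N] with j hj
      rintro y ⟨hy1, hy2⟩
      have h2 := hN j hj
      rw [dist_eq_norm] at h2 ⊢
      rw [mem_ball, dist_eq_norm] at hy1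
      have h3 := hΨL k y hy2 x hx
      have h4 := hΦL k (σ j) x hx y hy2
      have h5 : Λ * ‖y - x‖ ≤ ε / 4 := by
        calc Λ * ‖y - x‖ ≤ (|Λ| + 1) * ‖y - x‖ := by
              refine mul_le_mul_of_nonneg_right ?_ (norm_nonneg _)
              linarith [le_abs_self Λ]
          _ ≤ (|Λ| + 1) * (ε / (4 * (|Λ| + 1))) := by
              refine mul_le_mul_of_nonneg_left hy1.le (by positivity)
          _ = ε / 4 := by field_simp
      have h6 : ‖x - y‖ = ‖y - x‖ := norm_sub_rev _ _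
      rw [h6] at h4
      calc ‖Ψ k y - Φ k (σ j) y‖
          = ‖(Ψ k y - Ψ k x) + (Ψ k x - Φ k (σ j) x) + (Φ k (σ j) x - Φ k (σ j) y)‖ := by
            congr 1
            ring
        _ ≤ ‖(Ψ k y - Ψ k x) + (Ψ k x - Φ k (σ j) x)‖ + ‖Φ k (σ j) x - Φ k (σ j) y‖ :=
            norm_add_le _ _
        _ ≤ ‖Ψ k y - Ψ k x‖ + ‖Ψ k x - Φ k (σ j) x‖ + ‖Φ k (σ j) x - Φ k (σ j) y‖ :=
            add_le_add (norm_add_le _ _) le_rfl
        _ < ε := by
            rw [norm_sub_rev (Ψ k x)]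
            linarith
    refine hloc.differentiableOn (Filter.Eventually.of_forall fun j => ?_) isOpen_ball
    exact (hΦd k (σ j)).mono hsub
  · have h01 : (0 : ℂ) ∈ ball (0 : ℂ) 1 := mem_ball_self one_pos
    have h1 := hΨ k 0 h01
    have h2 : (fun j => Φ k (σ j) 0) = fun _ => (0 : ℂ) := by
      funext j
      show G k (n k (σ j)) (((3 / 4 * r (σ j) : ℝ) : ℂ) • ((0 : V), (0 : ℂ))) = 0
      have h3 : ((0 : V), (0 : ℂ)) = 0 := rfl
      rw [h3, smul_zero, hzero]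
    rw [h2] at h1
    exact tendsto_nhds_unique h1 tendsto_const_nhds
  · have ht : ∀ j, ∃ t ∈ ball (0 : V × ℂ) (r j / 2), s ≤ ‖G k (n k j) t‖ :=
      fun j => (hall k j).2.2.2.1
    choose t ht1 ht2 using ht
    have hne : ∀ j, ((3 / 4 * r j : ℝ) : ℂ) ≠ 0 := by
      intro j
      have := hr0 j
      rw [Ne, Complex.ofReal_eq_zero]
      positivity
    set v : ℕ → V × ℂ := fun j => (((3 / 4 * r j : ℝ) : ℂ))⁻¹ • t j with hv
    have hvt : ∀ j, ((3 / 4 * r j : ℝ) : ℂ) • v j = t j := by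
      intro j
      show ((3 / 4 * r j : ℝ) : ℂ) • ((((3 / 4 * r j : ℝ) : ℂ))⁻¹ • t j) = t j
      rw [smul_inv_smul₀ (hne j)]
    have hvn : ∀ j, ‖v j‖ ≤ 2 / 3 := by
      intro j
      have h1 := ht1 j
      rw [mem_ball_zero_iff, ← hvt j, norm_smul, hnorm] at h1
      have h2 := hr0 j
      by_contra hcon
      push Not at hcon
      nlinarith
    set X : ℕ → ℂ := fun j => (v j).2 + κ k (v j).1 with hX
    have hXn : ∀ j, ‖X j‖ ≤ 5 / 6 := by
      intro j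
      have h1 := hny k (v j)
      have h2 := hvn j
      show ‖(v j).2 + κ k (v j).1‖ ≤ 5 / 6
      linarith
    have hXm : ∀ j, X j ∈ closedBall (0 : ℂ) (5 / 6) := fun j => by
      rw [mem_closedBall_zero_iff]
      exact hXn j
    have hΦX : ∀ j, s - ε j ≤ ‖Φ k j (X j)‖ := by
      intro j
      have h1 : v j ∈ ball (0 : V × ℂ) (4 / 3) := by
        rw [mem_ball_zero_iff]
        have := hvn j
        linarith
      have h2 : (v j).2 + κ k (v j).1 ∈ ball (0 : ℂ) 1 := by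
        rw [mem_ball_zero_iff]
        have h3 := hXn j
        change ‖(v j).2 + κ k (v j).1‖ ≤ 5 / 6 at h3
        linarith
      have h3 := hcomp k j (v j) h1 h2
      rw [hvt j] at h3
      have h4 := ht2 j
      have h5 : ‖G k (n k j) (t j)‖ ≤
          ‖G k (n k j) (t j) - Φ k j ((v j).2 + κ k (v j).1)‖ +
            ‖Φ k j ((v j).2 + κ k (v j).1)‖ := by
        calc ‖G k (n k j) (t j)‖ = ‖(G k (n k j) (t j) - Φ k j ((v j).2 + κ k (v j).1)) +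
            Φ k j ((v j).2 + κ k (v j).1)‖ := by rw [sub_add_cancel]
          _ ≤ _ := norm_add_le _ _
      show s - ε j ≤ ‖Φ k j ((v j).2 + κ k (v j).1)‖
      linarith
    obtain ⟨Y, hY, τ, hτ, hconv⟩ := (isCompact_closedBall (0 : ℂ) (5 / 6)).tendsto_subseq
      (fun j => hXm (σ j))
    have hY1 : Y ∈ ball (0 : ℂ) 1 := by
      rw [mem_closedBall_zero_iff] at hY
      rw [mem_ball_zero_iff]
      linarith
    refine ⟨Y, hY1, ?_⟩
    have h1 : Tendsto (fun j => Φ k (σ (τ j)) (X (σ (τ j)))) atTop (𝓝 (Ψ k Y)) :=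
      (hlim k Y hY1).comp (hτ.tendsto_atTop.prodMk hconv)
    have h3 := h1.norm
    have h5 : Tendsto (fun j => s - ε (σ (τ j))) atTop (𝓝 (s - 0)) :=
      tendsto_const_nhds.sub (hεlim.comp (hσ.tendsto_atTop.comp hτ.tendsto_atTop))
    have h4 : s - 0 ≤ ‖Ψ k Y‖ := le_of_tendsto_of_tendsto' h5 h3 (fun j => hΦX (σ (τ j)))
    intro h0
    rw [h0, norm_zero, sub_zero] at h4
    exact absurd h4 (not_le.mpr hs)
  · intro j
    have h1 : DifferentiableOn ℂ (fun u : V × ℂ => ((3 / 4 * r (σ j) : ℝ) : ℂ) • u)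
        (ball 0 1) := by
      exact DifferentiableOn.const_smul differentiableOn_id (((3 / 4 * r (σ j) : ℝ) : ℂ))
    exact (hall k (σ j)).1.comp h1
      (fun u hu => hmem (σ j) u (ball_subset_ball (by norm_num) hu))
  · intro j i hi u hu
    exact (hall k (σ j)).2.2.1 i hi _ (hmem (σ j) u (ball_subset_ball (by norm_num) hu))
  · intro u hu
    have hu' : ‖u‖ < 3 / 4 := by rwa [mem_ball_zero_iff] at hu
    have hy : u.2 + κ k u.1 ∈ ball (0 : ℂ) 1 := by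
      rw [mem_ball_zero_iff]
      have := hny k u
      linarith
    have h1 : Tendsto (fun w : ℕ × (V × ℂ) => (w.1, w.2.2 + κ k w.2.1)) (atTop ×ˢ 𝓝 u)
        (atTop ×ˢ 𝓝 (u.2 + κ k u.1)) := by
      refine tendsto_fst.prodMk ?_
      have h2 : Continuous (fun x : V × ℂ => x.2 + κ k x.1) :=
        continuous_snd.add ((κ k).continuous.comp continuous_fst)
      exact (h2.tendsto u).comp tendsto_snd
    have h2 := (hlim k _ hy).comp h1
    have h3 : Tendsto (fun w : ℕ × (V × ℂ) => G k (n k (σ w.1))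
        (((3 / 4 * r (σ w.1) : ℝ) : ℂ) • w.2) - Φ k (σ w.1) (w.2.2 + κ k w.2.1))
        (atTop ×ˢ 𝓝 u) (𝓝 0) := by
      rw [tendsto_zero_iff_norm_tendsto_zero]
      have h4 : Tendsto (fun w : ℕ × (V × ℂ) => ε (σ w.1)) (atTop ×ˢ 𝓝 u) (𝓝 0) :=
        (hεlim.comp hσ.tendsto_atTop).comp tendsto_fst
      refine squeeze_zero' (Filter.Eventually.of_forall fun w => norm_nonneg _) ?_ h4
      have h5 : ∀ᶠ x in 𝓝 u, x ∈ ball (0 : V × ℂ) (3 / 4) := isOpen_ball.mem_nhds hu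
      filter_upwards [h5.prod_inr (atTop : Filter ℕ)] with w hw
      rw [mem_ball_zero_iff] at hw
      apply hcomp k (σ w.1) w.2
      · rw [mem_ball_zero_iff]
        linarith
      · rw [mem_ball_zero_iff]
        have := hny k w.2
        linarith
    have h4 := h3.add h2
    rw [zero_add] at h4
    refine h4.congr (fun w => ?_)
    simp only [Function.comp_apply, sub_add_cancel]

end Pool.Agent.H91.CS
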