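import Pool.Agent.H91.CS.PGRO
import Pool.Agent.H91.CS.SLIM
import Pool.Agent.H91.CS.ASR

/-!
# Module PTAIL: the rescaled orbits converge to functions of one variable

PROOF. `R ≥ 1` with `‖x i‖ ≤ R` for all `i`; `T i = TC v0 R (x i)`: `tc_as`, `tc_ag`, `kp_lin`, `kp_eq`. Let `θ` be given. `a_sr`, then `slim` for `G i = GG (T i) v0 θ`, `κ' i = θ • κ i` (the relations agree: `κ' i p = θ * kp (T i) v0 p`): `ρ, n, Ψ`. The points
`XC (sg .. (n i j)) (it v0 (n i j) (x i))` have norm at most `R`: pass to a subsequence of `j` along which for every `i` (finitely many) `sg v0 R (x i) (n i j) = σ i` does not depend on `j` and these points converge to `X' i`. Put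
`g i j u = XC (σ i) (it v0 (n i j) (x i)) + GG (T i) v0 θ (n i j) (ρ j • u)`, `Y i y = X' i + Ψ i y`. Last property: for large `j` the vectors `v0 + (ρ j θ) • u.1`, `‖u.1‖ < 1`, are coprime of degree `d` (`cop_near`), and `tc_it` for `Z = ρ j * u.2`,
`v = v0 + θ • (ρ j • u.1)`, the denominators being not zero by `slim` (`ok`).
-/

set_option autoImplicit false

open Filter Topology Metric Set Polynomial

namespace Pool.Agent.H91.CS

open Pool.Agent.H44.Fatou Pool.Agent.H32.BT Pool.Agent.H79.Eul Pool.Agent.H79.Par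

private theorem tails_xc {d : ℕ} {v0 : E d} {R : ℝ} (hR : 1 ≤ R) (x : ℂ) (n : ℕ) :
    ‖XC (sg v0 R x n) (it v0 n x)‖ ≤ R := by
  unfold XC sg
  by_cases h : R < ‖it v0 n x‖
  · rw [if_pos h]
    simp only [if_true]
    rw [norm_inv]
    have h1 : 0 < ‖it v0 n x‖ := by linarith
    have h2 : ‖it v0 n x‖⁻¹ ≤ 1 := inv_le_one_of_one_le₀ (by linarith)
    linarith
  · rw [if_neg h]
    push Not at h
    simpa using h

private theorem tails_sub {d : ℕ} {v0 : E d} {R : ℝ} (hR : 1 ≤ R) {ι : Type} [Finite ι]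
    (x : ι → ℂ) (n : ι → ℕ → ℕ) : ∃ (φ : ℕ → ℕ) (σ : ι → Bool) (X' : ι → ℂ), StrictMono φ ∧
      ∀ i, (∀ᶠ j in atTop, sg v0 R (x i) (n i (φ j)) = σ i) ∧
        Tendsto (fun j => XC (sg v0 R (x i) (n i (φ j))) (it v0 (n i (φ j)) (x i))) atTop
          (𝓝 (X' i)) := by
  have hcpt : IsCompact ((Set.univ : Set (ι → Bool)) ×ˢ
      (Set.pi Set.univ fun _ : ι => closedBall (0 : ℂ) R)) :=
    isCompact_univ.prod (isCompact_univ_pi fun _ => isCompact_closedBall 0 R)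
  obtain ⟨a, -, φ, hφ, hlim⟩ := hcpt.tendsto_subseq (x := fun j : ℕ =>
    ((fun i => sg v0 R (x i) (n i j)), fun i => XC (sg v0 R (x i) (n i j)) (it v0 (n i j) (x i))))
    (fun j => ⟨Set.mem_univ _, fun i _ => by
      rw [mem_closedBall_zero_iff]
      exact tails_xc hR (x i) (n i j)⟩)
  refine ⟨φ, a.1, a.2, hφ, ?_⟩
  intro i
  have h1 : Tendsto (fun j => (fun i => sg v0 R (x i) (n i (φ j)))) atTop (𝓝 a.1) :=
    (continuous_fst.tendsto a).comp hlim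
  have h2 : Tendsto (fun j => (fun i => XC (sg v0 R (x i) (n i (φ j)))
      (it v0 (n i (φ j)) (x i)))) atTop (𝓝 a.2) :=
    (continuous_snd.tendsto a).comp hlim
  refine ⟨?_, (tendsto_pi_nhds.1 h2) i⟩
  have h3 := (tendsto_pi_nhds.1 h1) i
  rw [nhds_discrete] at h3
  exact tendsto_pure.1 h3

theorem tails {d : ℕ} (hd : 2 ≤ d) {v0 : E d} (hcop : IsCoprime (pol v0.1) (pol v0.2))
    (hdeg : max (pol v0.1).natDegree (pol v0.2).natDegree = d) {ι : Type} [Finite ι] {x : ι → ℂ}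
    (hx : ∀ i, GrS v0 (x i)) : ∃ κ : ι → E d →L[ℂ] ℂ,
      (∀ i p, κ i p = ∑' k : ℕ, xi v0 p (it v0 k (x i)) / trD v0 (k + 1) (x i)) ∧
      ∀ θ : ℝ, 0 < θ → θ ≤ 1 → (∀ i p, θ * ‖κ i p‖ ≤ ‖p‖ / 4) →
        ∃ (ρ : ℕ → ℝ) (n : ι → ℕ → ℕ) (σ : ι → Bool) (g : ι → ℕ → E d × ℂ → ℂ) (Y : ι → ℂ → ℂ),
          (∀ j, 0 < ρ j) ∧ Tendsto ρ atTop (𝓝 0) ∧ ∀ i, Tendsto (n i) atTop atTop ∧
            DifferentiableOn ℂ (Y i) (ball 0 1) ∧ (∃ η ∈ ball (0 : ℂ) 1, Y i η ≠ Y i 0) ∧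
            (∀ j, DifferentiableOn ℂ (g i j) (ball 0 1)) ∧
            (∀ u ∈ ball (0 : E d × ℂ) (3 / 4),
              Tendsto (fun w : ℕ × (E d × ℂ) => g i w.1 w.2) (atTop ×ˢ 𝓝 u)
                (𝓝 (Y i (u.2 + θ * κ i u.1)))) ∧
            ∀ᶠ j in atTop, ∀ u ∈ ball (0 : E d × ℂ) 1,
              (Rf (v0 + ((ρ j * θ : ℝ) : ℂ) • u.1))^[n i j] ((x i + ρ j * u.2 : ℂ) : OnePoint ℂ) =
                ch (σ i) (g i j u) := by
  classical
  have hd1 : 1 ≤ d := by omega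
  have : Fintype ι := Fintype.ofFinite ι
  obtain ⟨R, hR1, hxR⟩ : ∃ R : ℝ, 1 ≤ R ∧ ∀ i, ‖x i‖ ≤ R := by
    refine ⟨1 + ∑ i, ‖x i‖, ?_, ?_⟩
    · have : 0 ≤ ∑ i, ‖x i‖ := Finset.sum_nonneg fun i _ => norm_nonneg _
      linarith
    · intro i
      have := Finset.single_le_sum (f := fun i => ‖x i‖) (fun i _ => norm_nonneg _)
        (Finset.mem_univ i)
      linarith
  have hdata : ∀ i, ∃ κ : E d →L[ℂ] ℂ, (∀ p, κ p = kp (TC v0 R (x i)) v0 p) ∧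
      ∀ θ : ℝ, 0 < θ → θ ≤ 1 → ∃ ρ0 r1 L c' q' : ℝ, SR (GG (TC v0 R (x i)) v0 θ)
        (fun n u => ev (TC v0 R (x i) n (v0 + (θ : ℂ) • u.1)).2
          (GG (TC v0 R (x i)) v0 θ n u) ≠ 0) (fun n => ‖en (TC v0 R (x i)) v0 n‖)
        (fun u u' => u.2 + θ * kp (TC v0 R (x i)) v0 u.1 =
          u'.2 + θ * kp (TC v0 R (x i)) v0 u'.1) ρ0 r1 L c' q' := by
    intro i
    obtain ⟨R', δ, has⟩ := tc_as hd1 hcop hdeg hR1 (hx i).1
    obtain ⟨c, q, hag⟩ := tc_ag hd1 hcop hdeg hR1 (hxR i) (hx i)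
    obtain ⟨κ, hκ⟩ := kp_lin has hag
    exact ⟨κ, hκ, fun θ h0 h1 => a_sr has hag h0 h1⟩
  choose κ hκ hsr using hdata
  refine ⟨κ, fun i p => by rw [hκ, kp_eq hd1 hcop hdeg hR1 (hxR i) (hx i)], ?_⟩
  intro θ hθ hθ1 hκθ
  have hκ' : ∀ i p, ‖((θ : ℂ) • κ i) p‖ ≤ ‖p‖ / 4 := by
    intro i p
    rw [smul_apply, norm_smul, Complex.norm_real, Real.norm_of_nonneg hθ.le]
    exact hκθ i p
  have hSR : ∀ i, ∃ ρ0 r1 L c q : ℝ, SR (GG (TC v0 R (x i)) v0 θ)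
      (fun n u => ev (TC v0 R (x i) n (v0 + (θ : ℂ) • u.1)).2
        (GG (TC v0 R (x i)) v0 θ n u) ≠ 0) (fun n => ‖en (TC v0 R (x i)) v0 n‖)
      (fun u u' => u.2 + ((θ : ℂ) • κ i) u.1 = u'.2 + ((θ : ℂ) • κ i) u'.1) ρ0 r1 L c q := by
    intro i
    have e : (fun u u' : E d × ℂ => u.2 + ((θ : ℂ) • κ i) u.1 = u'.2 + ((θ : ℂ) • κ i) u'.1) =
        (fun u u' => u.2 + θ * kp (TC v0 R (x i)) v0 u.1 =
          u'.2 + θ * kp (TC v0 R (x i)) v0 u'.1) := by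
      funext u u'
      simp only [smul_apply, smul_eq_mul, hκ]
    rw [e]
    exact hsr i θ hθ hθ1
  obtain ⟨ρ, n, Ψ, hρ0, hρ, hall⟩ := slim (κ := fun i => (θ : ℂ) • κ i) hκ' hSR
  obtain ⟨φ, σ, X', hφ, hsub⟩ := tails_sub (v0 := v0) hR1 x n
  obtain ⟨ε, hε, hnear⟩ := Metric.eventually_nhds_iff_ball.1 (cop_near hcop hdeg hd1)
  refine ⟨fun j => ρ (φ j), fun i j => n i (φ j), σ,
    fun i j u => XC (sg v0 R (x i) (n i (φ j))) (it v0 (n i (φ j)) (x i)) +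
      GG (TC v0 R (x i)) v0 θ (n i (φ j)) ((ρ (φ j) : ℂ) • u),
    fun i y => X' i + Ψ i y, fun j => hρ0 _, hρ.comp hφ.tendsto_atTop, ?_⟩
  intro i
  obtain ⟨h1, h2, h3, h4, h5, h6, h7⟩ := hall i
  refine ⟨h1.comp hφ.tendsto_atTop, h2.const_add _, ?_, ?_, ?_, ?_⟩
  · obtain ⟨η, hη, hne⟩ := h4
    refine ⟨η, hη, ?_⟩
    beta_reduce
    rw [h3, add_zero]
    intro hc
    exact hne (by simpa using hc)
  · intro j
    exact (h5 (φ j)).const_add _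
  · intro u hu
    have hA : Tendsto (fun w : ℕ × (E d × ℂ) => XC (sg v0 R (x i) (n i (φ w.1)))
        (it v0 (n i (φ w.1)) (x i))) (atTop ×ˢ 𝓝 u) (𝓝 (X' i)) :=
      (hsub i).2.comp tendsto_fst
    have hB := (h7 u hu).comp ((hφ.tendsto_atTop).prodMap (tendsto_id (x := 𝓝 u)))
    exact hA.add hB
  · have hρφ : Tendsto (fun j => ρ (φ j)) atTop (𝓝 0) := hρ.comp hφ.tendsto_atTop
    have hlt : ∀ᶠ j in atTop, ρ (φ j) < ε := hρφ.eventually (gt_mem_nhds hε)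
    filter_upwards [(hsub i).1, hlt] with j hj1 hj2 u hu
    have hu1 : ‖u.1‖ < 1 := lt_of_le_of_lt (norm_fst_le u) (mem_ball_zero_iff.1 hu)
    have hv : v0 + ((ρ (φ j) * θ : ℝ) : ℂ) • u.1 ∈ ball v0 ε := by
      rw [mem_ball_iff_norm, add_sub_cancel_left, norm_smul, Complex.norm_real,
        Real.norm_of_nonneg (mul_nonneg (hρ0 _).le hθ.le)]
      have h8 : ρ (φ j) * θ ≤ ρ (φ j) := mul_le_of_le_one_right (hρ0 _).le hθ1
      have h9 : ρ (φ j) * θ * ‖u.1‖ ≤ ρ (φ j) * θ :=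
        mul_le_of_le_one_right (mul_nonneg (hρ0 _).le hθ.le) hu1.le
      linarith
    obtain ⟨hc', hd'⟩ := hnear _ hv
    have hvv : v0 + (θ : ℂ) • ((ρ (φ j) : ℂ) • u).1 = v0 + ((ρ (φ j) * θ : ℝ) : ℂ) • u.1 := by
      rw [Prod.smul_fst, smul_smul]
      push_cast
      rw [mul_comm]
    have key := tc_it (x := x i) (R := R) (v0 := v0) (v := v0 + ((ρ (φ j) * θ : ℝ) : ℂ) • u.1)
      hd1 hc' hd' (hxR i) (n := n i (φ j)) (Z := ρ (φ j) * u.2) (by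
        intro k hk
        have := h6 (φ j) k hk u hu
        beta_reduce at this
        rw [hvv] at this
        unfold GG at this
        rw [hvv] at this
        exact this)
    rw [key]
    unfold GG
    rw [hvv, hj1]
    rfl

end Pool.Agent.H91.CS
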