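import Pool.Agent.H91.CS.SEXIT

/-!
# Module SBETA: the sum over scales and times of `min 1 (D / e)`

PROOF. Let `N j = ex G r1 (sc ρ0 r1 L j)`; it is monotone in `j` (`ex_mono`, `ex_spec`) and `N j ≤ C (j + 1)` (`ex_spec`, `log (1 / sc j) ≤ j log 2 + const`). Fix `i` and let `j_i` be the least `j` with `i < N j` (if there is one). For
`j ≥ j_i` `Dn G i (sc j) ≤ 2 ^ (- (j - j_i)) Dn G i (sc j_i) ≤ 2 ^ (- (j - j_i))` (`dn_schwarz` with `t = 2 ^ (- (j - j_i))`; `G i` is holomorphic on `ball 0 (sc j_i)` and bounded by `r1 ≤ 1` there). So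
`∑_(j with i < N j, j < J) min 1 (Dn G i (sc j) / e i) ≤ ∑_(k ≥ 0) min 1 (2 ^ (- k) / e i) ≤ 3 + 2 max 0 (- log (e i))` (the terms with `2 ^ (- k) > e i` are at most `max 0 (- log (e i)) / log 2 + 1`, `1 / log 2 ≤ 2`; the other ones
are at most `2 ^ (- (k - k0))`, `k0` the first of them). Exchange the sums: only `i < N J` occur, so the double sum is at most
`∑_(i < N J) (3 + 2 max 0 (- log (e i))) ≤ 3 N J + 2 L (N J + 1)` (`esum`).
-/

set_option autoImplicit false

open Filter Topology Metric Set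

namespace Pool.Agent.H91.CS

variable {W : Type} [NormedAddCommGroup W] [NormedSpace ℂ W] {G : ℕ → W → ℂ} {ok : ℕ → W → Prop}
  {e : ℕ → ℝ} {rel : W → W → Prop} {ρ0 r1 L c q : ℝ}

private theorem sbeta_geo0 (m : ℕ) : ∀ (x : ℝ) (_ : (1 / 2 : ℝ) ^ m ≤ x) (K : ℕ),
    ∑ k ∈ Finset.range K, min 1 ((1 / 2 : ℝ) ^ k / x) ≤ m + 2 := by
  induction m with
  | zero =>
    intro x hx K
    rw [pow_zero] at hx
    have h1 : ∀ k, min 1 ((1 / 2 : ℝ) ^ k / x) ≤ (1 / 2 : ℝ) ^ k := fun k =>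
      (min_le_right _ _).trans (div_le_self (by positivity) hx)
    refine (Finset.sum_le_sum fun k _ => h1 k).trans ?_
    have h2 := (summable_geometric_two).sum_le_tsum (Finset.range K) (fun _ _ => by positivity)
    rw [tsum_geometric_two] at h2
    simpa using h2
  | succ m ih =>
    intro x hx K
    have hx0 : 0 < x := lt_of_lt_of_le (by positivity) hx
    cases K with
    | zero =>
      rw [Finset.range_zero, Finset.sum_empty]
      positivity
    | succ K =>
      rw [Finset.sum_range_succ']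
      have h1 := ih (2 * x) (by rw [pow_succ] at hx; linarith) K
      have h2 : ∀ k, (1 / 2 : ℝ) ^ (k + 1) / x = (1 / 2 : ℝ) ^ k / (2 * x) := by
        intro k
        rw [pow_succ]
        field_simp
      simp only [h2]
      have h3 : min 1 ((1 / 2 : ℝ) ^ 0 / x) ≤ 1 := min_le_left _ _
      push_cast
      linarith

theorem geo_min {x : ℝ} (hx : 0 < x) (K : ℕ) :
    ∑ k ∈ Finset.range K, min 1 ((1 / 2 : ℝ) ^ k / x) ≤ 3 + 2 * max 0 (-Real.log x) := by
  have hl2 : (1 / 2 : ℝ) < Real.log 2 := by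
    have := Real.log_two_gt_d9
    linarith
  obtain ⟨M, hM⟩ : ∃ M : ℝ, M = max 0 (-Real.log x) := ⟨_, rfl⟩
  have hM0 : 0 ≤ M := by rw [hM]; exact le_max_left _ _
  have hM1 : -Real.log x ≤ M := by rw [hM]; exact le_max_right _ _
  rw [← hM]
  obtain ⟨m, hm⟩ : ∃ m : ℕ, m = ⌈M / Real.log 2⌉₊ := ⟨_, rfl⟩
  have hq0 : 0 ≤ M / Real.log 2 := div_nonneg hM0 (by linarith)
  have h1 : M / Real.log 2 ≤ m := by rw [hm]; exact Nat.le_ceil _
  have h2 : (m : ℝ) < M / Real.log 2 + 1 := by rw [hm]; exact Nat.ceil_lt_add_one hq0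
  have h3 : M / Real.log 2 ≤ 2 * M := by
    rw [div_le_iff₀ (by linarith)]
    nlinarith
  have h4 : (1 / 2 : ℝ) ^ m ≤ x := by
    rw [div_le_iff₀ (by linarith)] at h1
    rw [← Real.log_le_log_iff (by positivity) hx, Real.log_pow, one_div, Real.log_inv]
    linarith
  have := sbeta_geo0 m x h4 K
  linarith

private theorem sbeta_sc_pos (h : SR G ok e rel ρ0 r1 L c q) (j : ℕ) : 0 < sc ρ0 r1 L j := by
  have h1 := h.hρ0
  have h2 := h.hr1
  have h3 : 0 < L := lt_of_lt_of_le one_pos h.hL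
  unfold sc
  exact div_pos (lt_min h1 (div_pos h2 h3)) (by positivity)

private theorem sbeta_sc_le (h : SR G ok e rel ρ0 r1 L c q) (j : ℕ) :
    sc ρ0 r1 L j ≤ min ρ0 (r1 / L) := by
  have h1 := h.hρ0
  have h2 := h.hr1
  have h3 : 0 < L := lt_of_lt_of_le one_pos h.hL
  unfold sc
  exact div_le_self (lt_min h1 (div_pos h2 h3)).le (one_le_pow₀ (by norm_num))

private theorem sbeta_sc_L (h : SR G ok e rel ρ0 r1 L c q) (j : ℕ) :
    L * sc ρ0 r1 L j ≤ r1 := by
  have h3 : 0 < L := lt_of_lt_of_le one_pos h.hL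
  have h4 := (sbeta_sc_le h j).trans (min_le_right _ _)
  rw [le_div_iff₀ h3] at h4
  linarith

private theorem sbeta_sc_add (j k : ℕ) :
    sc ρ0 r1 L (j + k) = (1 / 2 : ℝ) ^ k * sc ρ0 r1 L j := by
  unfold sc
  rw [pow_add, one_div, inv_pow]
  field_simp

private theorem sbeta_col (h : SR G ok e rel ρ0 r1 L c q) (N : ℕ → ℕ) (hmono : Monotone N)
    (hst : ∀ j, ∀ i < N j, ∀ u ∈ ball (0 : W) (sc ρ0 r1 L j), ‖G i u‖ ≤ r1) (i J : ℕ) :
    ∑ j ∈ Finset.range J, (if i < N j then min 1 (Dn G i (sc ρ0 r1 L j) / e i) else 0) ≤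
      3 + 2 * max 0 (-Real.log (e i)) := by
  have hB : 0 ≤ 3 + 2 * max 0 (-Real.log (e i)) := by
    have := le_max_left 0 (-Real.log (e i))
    linarith
  by_cases hex : ∃ j, i < N j
  · obtain ⟨j0, hj0, hmin⟩ : ∃ j0, i < N j0 ∧ ∀ j < j0, ¬ i < N j :=
      ⟨Nat.find hex, Nat.find_spec hex, fun j hj => Nat.find_min hex hj⟩
    rcases le_total J j0 with hJ | hJ
    · refine (le_of_eq (Finset.sum_eq_zero fun j hj => ?_)).trans hB
      rw [Finset.mem_range] at hj
      exact if_neg (hmin j (by omega))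
    · obtain ⟨K, rfl⟩ := Nat.exists_eq_add_of_le hJ
      rw [Finset.sum_range_add]
      have h0 : ∑ j ∈ Finset.range j0,
          (if i < N j then min 1 (Dn G i (sc ρ0 r1 L j) / e i) else 0) = 0 :=
        Finset.sum_eq_zero fun j hj => if_neg (hmin j (Finset.mem_range.1 hj))
      rw [h0, zero_add]
      refine le_trans (Finset.sum_le_sum fun k _ => ?_) (geo_min (h.epos i) K)
      rw [if_pos (lt_of_lt_of_le hj0 (hmono (Nat.le_add_right j0 k)))]
      refine min_le_min le_rfl ?_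
      refine div_le_div_of_nonneg_right ?_ (h.epos i).le
      have hρ := sbeta_sc_pos h j0
      have hd := (ex_diff h hρ ((sbeta_sc_le h j0).trans (min_le_left _ _)) (hst j0)).1 i hj0.le
      have h1 := dn_schwarz hρ hd (h.zero i) (hst j0 i hj0) (t := (1 / 2 : ℝ) ^ k)
        (by positivity) (pow_le_one₀ (by norm_num) (by norm_num))
      rw [← sbeta_sc_add] at h1
      refine h1.trans ?_
      have h2 : Dn G i (sc ρ0 r1 L j0) ≤ r1 := dn_le hρ (hst j0 i hj0)
      exact mul_le_of_le_one_right (by positivity) (h2.trans h.hr2)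
  · push Not at hex
    refine (le_of_eq (Finset.sum_eq_zero fun j hj => ?_)).trans hB
    exact if_neg (not_lt.2 (hex j))

theorem beta_sum (h : SR G ok e rel ρ0 r1 L c q) : ∃ C : ℝ, ∀ J : ℕ,
    (ex G r1 (sc ρ0 r1 L J) : ℝ) ≤ C * (J + 1) ∧
    ∑ j ∈ Finset.range J, ∑ i ∈ Finset.range (ex G r1 (sc ρ0 r1 L j)),
      min 1 (Dn G i (sc ρ0 r1 L j) / e i) ≤ C * (J + 1) := by
  obtain ⟨C0, hC0, hsp⟩ := ex_spec h
  obtain ⟨N, hN⟩ : ∃ N : ℕ → ℕ, N = fun j => ex G r1 (sc ρ0 r1 L j) := ⟨_, rfl⟩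
  have hNj : ∀ j, N j = ex G r1 (sc ρ0 r1 L j) := fun j => by rw [hN]
  have hs := fun j => hsp (sc ρ0 r1 L j) (sbeta_sc_pos h j)
    ((sbeta_sc_le h j).trans (min_le_left _ _)) (sbeta_sc_L h j)
  simp only [← hNj] at hs ⊢
  have hmono : Monotone N := by
    refine monotone_nat_of_le_succ fun j => ?_
    rw [hNj, hNj]
    refine ex_mono ?_ ⟨N (j + 1), (hs (j + 1)).2.2.2.1⟩
    rw [sbeta_sc_add]
    exact mul_le_of_le_one_left (sbeta_sc_pos h j).le (by norm_num)
  have hL0 := h.hL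
  have hs0 : 0 < sc ρ0 r1 L 0 := sbeta_sc_pos h 0
  have hs1 : sc ρ0 r1 L 0 ≤ 1 := ((sbeta_sc_le h 0).trans (min_le_left _ _)).trans h.hρ1
  have hlog : 0 ≤ -Real.log (sc ρ0 r1 L 0) := by
    have := Real.log_nonpos hs0.le hs1
    linarith
  obtain ⟨C1, hC1⟩ : ∃ C1 : ℝ, C1 = C0 * (1 + -Real.log (sc ρ0 r1 L 0)) := ⟨_, rfl⟩
  have hC10 : 0 < C1 := by
    rw [hC1]
    exact mul_pos hC0 (by linarith)
  have hNb : ∀ j, (N j : ℝ) ≤ C1 * (j + 1) := by
    intro j
    refine (hs j).2.1.trans ?_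
    rw [hC1, mul_assoc]
    refine mul_le_mul_of_nonneg_left ?_ hC0.le
    have e1 : Real.log (1 / sc ρ0 r1 L j) = j * Real.log 2 + -Real.log (sc ρ0 r1 L 0) := by
      have e2 := sbeta_sc_add (ρ0 := ρ0) (r1 := r1) (L := L) 0 j
      rw [zero_add] at e2
      rw [e2, one_div, Real.log_inv, Real.log_mul (by positivity) hs0.ne', Real.log_pow, one_div,
        Real.log_inv]
      ring
    rw [e1]
    have e3 : (j : ℝ) * Real.log 2 ≤ j * 1 :=
      mul_le_mul_of_nonneg_left (by linarith [Real.log_two_lt_d9]) (Nat.cast_nonneg j)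
    have e4 : 0 ≤ (j : ℝ) * (-Real.log (sc ρ0 r1 L 0)) := mul_nonneg (Nat.cast_nonneg j) hlog
    nlinarith
  refine ⟨(3 + 4 * L) * C1, fun J => ⟨?_, ?_⟩⟩
  · refine (hNb J).trans ?_
    have e1 : 0 ≤ C1 * ((J : ℝ) + 1) := by positivity
    nlinarith
  · have e1 : ∑ j ∈ Finset.range J, ∑ i ∈ Finset.range (N j),
        min 1 (Dn G i (sc ρ0 r1 L j) / e i) =
        ∑ i ∈ Finset.range (N J), ∑ j ∈ Finset.range J,
          (if i < N j then min 1 (Dn G i (sc ρ0 r1 L j) / e i) else 0) := by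
      rw [Finset.sum_comm (s := Finset.range (N J))]
      refine Finset.sum_congr rfl fun j hj => ?_
      rw [← Finset.sum_filter]
      refine Finset.sum_congr ?_ fun _ _ => rfl
      ext i
      rw [Finset.mem_filter, Finset.mem_range, Finset.mem_range]
      have := hmono (Finset.mem_range.1 hj).le
      constructor
      · intro hi
        exact ⟨by omega, hi⟩
      · exact fun hi => hi.2
    rw [e1]
    refine (Finset.sum_le_sum fun i _ =>
      sbeta_col h N hmono (fun j => (hs j).2.2.1) i J).trans ?_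
    rw [Finset.sum_add_distrib, ← Finset.mul_sum, Finset.sum_const, Finset.card_range,
      nsmul_eq_mul]
    have e2 := h.esum (N J)
    have e3 : (1 : ℝ) ≤ N J := by exact_mod_cast (hs J).1
    have e4 := hNb J
    have e5 : (3 + 4 * L) * (N J : ℝ) ≤ (3 + 4 * L) * (C1 * (J + 1)) :=
      mul_le_mul_of_nonneg_left e4 (by linarith)
    nlinarith

end Pool.Agent.H91.CS
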