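import Mathlib

/-!
# Module SCNT: infinitely many good indices

PROOF. Let `N` be the number of elements of `ι`, `C ≥ 0` (replace `C` by `max C 0`), `K = N C + 1`. Suppose that for some `j0` every `j ≥ j0` has some `k` with `β k j > K`. Then for `J > j0` `K (J - j0) ≤ ∑_k ∑_(j < J) β k j ≤ N C (J + 1)`, which
is false for large `J` since `K > N C`.
-/

set_option autoImplicit false

namespace Pool.Agent.H91.CS

theorem cnt2 {ι : Type} [Finite ι] {β : ι → ℕ → ℝ} {C : ℝ} (h0 : ∀ k j, 0 ≤ β k j)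
    (hC : ∀ k, ∀ J : ℕ, ∑ j ∈ Finset.range J, β k j ≤ C * (J + 1)) :
    ∃ K : ℝ, ∀ j0 : ℕ, ∃ j ≥ j0, ∀ k, β k j ≤ K := by
  classical
  have := Fintype.ofFinite ι
  obtain ⟨N, hN⟩ : ∃ N : ℝ, N = ((Fintype.card ι : ℕ) : ℝ) := ⟨_, rfl⟩
  set C' : ℝ := max C 0 with hC'
  have hC0 : 0 ≤ C' := le_max_right _ _
  have hN0 : 0 ≤ N := by rw [hN]; exact Nat.cast_nonneg _
  refine ⟨N * C' + 1, fun j0 => ?_⟩
  by_contra hcon
  push Not at hcon
  -- the sum over `ι` is large for every `j ≥ j0`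
  have h1 : ∀ j, j0 ≤ j → N * C' + 1 ≤ ∑ k, β k j := by
    intro j hj
    obtain ⟨k, hk⟩ := hcon j hj
    exact hk.le.trans (Finset.single_le_sum (f := fun k => β k j) (fun k _ => h0 k j)
      (Finset.mem_univ k))
  have h2 : ∀ m : ℕ, (N * C' + 1) * m ≤ N * C' * (j0 + m + 1) := by
    intro m
    have e1 : ∑ j ∈ Finset.range (j0 + m), ∑ k, β k j ≤ N * C' * (j0 + m + 1) := by
      rw [Finset.sum_comm]
      have e2 : ∀ k ∈ (Finset.univ : Finset ι), ∑ j ∈ Finset.range (j0 + m), β k j ≤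
          C' * (j0 + m + 1) := by
        intro k _
        have e3 := hC k (j0 + m)
        push_cast at e3
        refine e3.trans ?_
        exact mul_le_mul_of_nonneg_right (le_max_left _ _) (by positivity)
      refine (Finset.sum_le_sum e2).trans (le_of_eq ?_)
      rw [Finset.sum_const, nsmul_eq_mul, Finset.card_univ, ← hN]
      ring
    have e4 : (N * C' + 1) * m ≤ ∑ j ∈ Finset.range (j0 + m), ∑ k, β k j := by
      rw [Finset.sum_range_add]
      have e5 : 0 ≤ ∑ j ∈ Finset.range j0, ∑ k, β k j :=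
        Finset.sum_nonneg fun j _ => Finset.sum_nonneg fun k _ => h0 k j
      have e6 : ∑ _j ∈ Finset.range m, (N * C' + 1) ≤ ∑ j ∈ Finset.range m, ∑ k, β k (j0 + j) :=
        Finset.sum_le_sum fun j _ => h1 (j0 + j) (Nat.le_add_right _ _)
      rw [Finset.sum_const, nsmul_eq_mul, Finset.card_range] at e6
      linarith
    exact e4.trans e1
  obtain ⟨m, hm⟩ := exists_nat_gt (N * C' * (j0 + 1))
  have h3 := h2 m
  nlinarith

end Pool.Agent.H91.CS
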