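import Pool.Agent.H91.CS.SSUP

/-!
# Module SEXIT: exit times

PROOF (compare H91/CE/EXIT). Let `0 < ρ ≤ ρ0`, `L ρ ≤ r1`. If `‖G i u‖ ≤ r1` on the ball for all `i < n` then, by `start`, `step` (induction) all `G i`, `i ≤ n`, are holomorphic on the ball and `ok i u` for `i < n`, and (`n ≥ 1`, `step` with
`D = r1`) `‖G n u‖ ≤ L (r1 + ρ) ≤ 2 L r1`; for `n = 0` `‖G 0 u‖ ≤ L ρ ≤ r1`: so the exit time is at least `1`. By `low` for `n - 1`: `c q ^ (n - 1) ρ ≤ r1 ≤ 1`, so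
`n ≤ 1 + log (1 / (c ρ)) / log q ≤ C (1 + log (1 / ρ))`; so the set in the definition of `ex` is not empty (otherwise `c q ^ n ρ ≤ 1` for all `n`) and `Nat.sInf_mem`, `Nat.notMem_of_lt_sInf` give `ex_spec`.
`ex_mono`: the set for `ρ'` is contained in the set for `ρ`; `Nat.sInf_le`. `ex_slow`: by induction on `τ' ≤ τ`: `‖G (n + τ') u‖ ≤ L ^ τ' * (s + τ' * ρ)` on the ball (with `L ≥ 1`: `L (L ^ τ' (s + τ' ρ) + ρ) ≤ L ^ (τ' + 1) (s + (τ' + 1) ρ)`),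
which is `≤ r1` for `τ' ≤ τ`.
-/

set_option autoImplicit false

open Filter Topology Metric Set

namespace Pool.Agent.H91.CS

variable {W : Type} [NormedAddCommGroup W] [NormedSpace ℂ W] {G : ℕ → W → ℂ} {ok : ℕ → W → Prop}
  {e : ℕ → ℝ} {rel : W → W → Prop} {ρ0 r1 L c q : ℝ}

theorem ex_diff (h : SR G ok e rel ρ0 r1 L c q) {ρ : ℝ} (hρ : 0 < ρ) (hρ0 : ρ ≤ ρ0) {n : ℕ}
    (hs : ∀ i < n, ∀ u ∈ ball (0 : W) ρ, ‖G i u‖ ≤ r1) :
    (∀ i ≤ n, DifferentiableOn ℂ (G i) (ball 0 ρ)) ∧ ∀ i < n, ∀ u ∈ ball (0 : W) ρ, ok i u := by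
  have h1 : ∀ i ≤ n, DifferentiableOn ℂ (G i) (ball 0 ρ) := by
    intro i
    induction i with
    | zero =>
      intro _
      exact h.start.mono (ball_subset_ball hρ0)
    | succ i ih =>
      intro hi
      exact (h.step i ρ r1 hρ hρ0 h.hr1.le le_rfl (ih (by omega)) (hs i (by omega))).1
  exact ⟨h1, fun i hi => (h.step i ρ r1 hρ hρ0 h.hr1.le le_rfl (h1 i hi.le) (hs i hi)).2.1⟩

theorem ex_spec (h : SR G ok e rel ρ0 r1 L c q) : ∃ C : ℝ, 0 < C ∧ ∀ ρ : ℝ, 0 < ρ → ρ ≤ ρ0 →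
    L * ρ ≤ r1 → 1 ≤ ex G r1 ρ ∧ (ex G r1 ρ : ℝ) ≤ C * (1 + Real.log (1 / ρ)) ∧
      (∀ i < ex G r1 ρ, ∀ u ∈ ball (0 : W) ρ, ‖G i u‖ ≤ r1) ∧
      (¬ ∀ u ∈ ball (0 : W) ρ, ‖G (ex G r1 ρ) u‖ ≤ r1) ∧
      ∀ u ∈ ball (0 : W) ρ, ‖G (ex G r1 ρ) u‖ ≤ 2 * L * r1 := by
  classical
  have hq := h.hq
  have hc := h.hc
  have hlq : 0 < Real.log q := Real.log_pos hq
  have hC0 : 0 ≤ (|Real.log (r1 / c)| + 1) / Real.log q := by positivity
  refine ⟨(|Real.log (r1 / c)| + 1) / Real.log q + 1, by positivity, ?_⟩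
  intro ρ hρ hρ0 hρ1
  have hρ01 : ρ ≤ 1 := hρ0.trans h.hρ1
  have hlog : 0 ≤ Real.log (1 / ρ) := Real.log_nonneg (by rw [le_div_iff₀ hρ]; linarith)
  -- the bound for the times with small oscillation
  have key : ∀ i : ℕ, (∀ j < i + 1, ∀ u ∈ ball (0 : W) ρ, ‖G j u‖ ≤ r1) →
      (i : ℝ) ≤ (|Real.log (r1 / c)| + 1) / Real.log q * (1 + Real.log (1 / ρ)) := by
    intro i hs
    have hd := (ex_diff h hρ hρ0 hs).1 i (by omega)
    have h2 : c * q ^ i * ρ ≤ r1 := h.low i ρ r1 hρ hρ0 hd (hs i (by omega))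
    have h3 : q ^ i ≤ r1 / c * (1 / ρ) := by
      rw [one_div, ← div_eq_mul_inv, div_div, le_div_iff₀ (by positivity)]
      calc q ^ i * (c * ρ) = c * q ^ i * ρ := by ring
        _ ≤ r1 := h2
    have h4 : (i : ℝ) * Real.log q ≤ Real.log (r1 / c) + Real.log (1 / ρ) := by
      have h5 := Real.log_le_log (by positivity) h3
      rw [Real.log_pow, Real.log_mul (by have := h.hr1; positivity) (by positivity)] at h5
      exact h5
    rw [div_mul_eq_mul_div, le_div_iff₀ hlq]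
    refine h4.trans ?_
    have h5 := le_abs_self (Real.log (r1 / c))
    nlinarith [mul_nonneg (abs_nonneg (Real.log (r1 / c))) hlog]
  have hex : ∃ n : ℕ, ¬ ∀ u ∈ ball (0 : W) ρ, ‖G n u‖ ≤ r1 := by
    by_contra hcon
    push Not at hcon
    obtain ⟨i, hi⟩ := exists_nat_gt ((|Real.log (r1 / c)| + 1) / Real.log q *
      (1 + Real.log (1 / ρ)))
    have h1 := key i (fun j _ u hu => hcon j u hu)
    linarith
  have hP : ¬ ∀ u ∈ ball (0 : W) ρ, ‖G (ex G r1 ρ) u‖ ≤ r1 := Nat.sInf_mem (s := {n : ℕ |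
    ¬ ∀ u ∈ ball (0 : W) ρ, ‖G n u‖ ≤ r1}) hex
  have hmin : ∀ i < ex G r1 ρ, ∀ u ∈ ball (0 : W) ρ, ‖G i u‖ ≤ r1 := by
    intro i hi
    exact not_not.1 (Nat.notMem_of_lt_sInf hi)
  have h1 : 1 ≤ ex G r1 ρ := by
    by_contra hlt
    have h0 : ex G r1 ρ = 0 := by omega
    rw [h0] at hP
    apply hP
    intro t ht
    have h2 := h.start' t (ball_subset_ball hρ0 ht)
    refine h2.trans (le_trans ?_ hρ1)
    have h3 : ‖t‖ < ρ := by simpa using ht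
    exact mul_le_mul_of_nonneg_left h3.le (by have := h.hL; linarith)
  refine ⟨h1, ?_, hmin, hP, ?_⟩
  · obtain ⟨i, hi⟩ : ∃ i, ex G r1 ρ = i + 1 := ⟨ex G r1 ρ - 1, by omega⟩
    have h3 := key i (by rw [← hi]; exact hmin)
    have h4 : (ex G r1 ρ : ℝ) = i + 1 := by rw [hi]; push_cast; ring
    rw [h4]
    nlinarith
  · obtain ⟨m, hm⟩ : ∃ i, ex G r1 ρ = i + 1 := ⟨ex G r1 ρ - 1, by omega⟩
    intro t ht
    have hd := (ex_diff h hρ hρ0 hmin).1 m (by omega)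
    have h2 := (h.step m ρ r1 hρ hρ0 h.hr1.le le_rfl hd (hmin m (by omega))).2.2 t ht
    rw [hm]
    refine h2.trans ?_
    have hL := h.hL
    have h3 : ρ ≤ r1 := by nlinarith
    nlinarith

theorem ex_mono {ρ ρ' : ℝ} (hle : ρ' ≤ ρ)
    (hne : ∃ n, ¬ ∀ u ∈ ball (0 : W) ρ', ‖G n u‖ ≤ r1) : ex G r1 ρ ≤ ex G r1 ρ' := by
  have hP : ¬ ∀ u ∈ ball (0 : W) ρ', ‖G (ex G r1 ρ') u‖ ≤ r1 := Nat.sInf_mem (s := {n : ℕ |
    ¬ ∀ u ∈ ball (0 : W) ρ', ‖G n u‖ ≤ r1}) hne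
  refine Nat.sInf_le ?_
  intro hcon
  exact hP fun u hu => hcon u (ball_subset_ball hle hu)

theorem ex_slow (h : SR G ok e rel ρ0 r1 L c q) {ρ s : ℝ} (hρ : 0 < ρ) (hρ0 : ρ ≤ ρ0)
    (hρL : L * ρ ≤ r1) {n τ : ℕ} (hst : ∀ i < n, ∀ u ∈ ball (0 : W) ρ, ‖G i u‖ ≤ r1) (hs0 : 0 ≤ s)
    (hs : ∀ u ∈ ball (0 : W) ρ, ‖G n u‖ ≤ s) (hτ : L ^ τ * (s + τ * ρ) ≤ r1) :
    n + τ + 1 ≤ ex G r1 ρ := by
  have hL := h.hL
  have hle : ∀ i ≤ τ, L ^ i * (s + i * ρ) ≤ r1 := by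
    intro i hi
    refine le_trans ?_ hτ
    have h1 : L ^ i ≤ L ^ τ := pow_le_pow_right₀ hL hi
    have h2 : (i : ℝ) ≤ τ := by exact_mod_cast hi
    have h3 : s + i * ρ ≤ s + τ * ρ := by nlinarith
    have h4 : (0 : ℝ) ≤ i := Nat.cast_nonneg i
    exact mul_le_mul h1 h3 (by positivity) (by positivity)
  have key : ∀ i ≤ τ, DifferentiableOn ℂ (G (n + i)) (ball 0 ρ) ∧
      ∀ t ∈ ball (0 : W) ρ, ‖G (n + i) t‖ ≤ L ^ i * (s + i * ρ) := by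
    intro i
    induction i with
    | zero =>
      intro _
      refine ⟨(ex_diff h hρ hρ0 hst).1 n le_rfl, ?_⟩
      simpa using hs
    | succ i ih =>
      intro hi
      obtain ⟨h1, h2⟩ := ih (by omega)
      have hi0 : (0 : ℝ) ≤ i := Nat.cast_nonneg i
      have h3 : L ^ i * (s + i * ρ) ≤ r1 := hle i (by omega)
      have hp : (1 : ℝ) ≤ L ^ i := one_le_pow₀ hL
      obtain ⟨h4, _, h5⟩ := h.step (n + i) ρ (L ^ i * (s + i * ρ)) hρ hρ0 (by positivity) h3 h1 h2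
      refine ⟨h4, fun t ht => (h5 t ht).trans ?_⟩
      push_cast
      rw [pow_succ]
      have h6 : ρ ≤ L ^ i * ρ := by nlinarith
      nlinarith
  have hall : ∀ i < n + τ + 1, ∀ u ∈ ball (0 : W) ρ, ‖G i u‖ ≤ r1 := by
    intro i hi u hu
    rcases Nat.lt_or_ge i n with h1 | h1
    · exact hst i h1 u hu
    · obtain ⟨j, rfl⟩ := Nat.exists_eq_add_of_le h1
      exact ((key j (by omega)).2 u hu).trans (hle j (by omega))
  obtain ⟨C, _, hC⟩ := ex_spec h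
  obtain ⟨_, _, _, hP, _⟩ := hC ρ hρ hρ0 hρL
  by_contra hlt
  exact hP (hall _ (by omega))

end Pool.Agent.H91.CS
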