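import Pool.Agent.H91.CS.SDefs

/-!
# Module SMON: changing the constants

PROOF. `sr_mono`: check each field (`min`, `1 + L * min ..` are monotone in `L`; `c' q' ^ n ≤ c q ^ n`; `D' ≥ 0` since it bounds a norm). `sr_unif`: take the minimum of the `ρ0, r1, c, q` and the maximum of the `L` over the finite
type (compare `run_unif`, H91/CE/SCALE); if the type is empty any numbers.
-/

set_option autoImplicit false

open Filter Topology Metric Set

namespace Pool.Agent.H91.CS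

theorem sr_mono {W : Type} [NormedAddCommGroup W] [NormedSpace ℂ W] {G : ℕ → W → ℂ}
    {ok : ℕ → W → Prop} {e : ℕ → ℝ} {rel : W → W → Prop} {ρ0 r1 L c q ρ0' r1' L' c' q' : ℝ}
    (h : SR G ok e rel ρ0 r1 L c q) (h1 : 0 < ρ0') (h2 : ρ0' ≤ ρ0) (h3 : 0 < r1') (h4 : r1' ≤ r1)
    (h5 : L ≤ L') (h6 : 0 < c') (h7 : c' ≤ c) (h8 : 1 < q') (h9 : q' ≤ q) :
    SR G ok e rel ρ0' r1' L' c' q' := by
  have hL := h.hL
  refine ⟨h1, h2.trans h.hρ1, h3, h4.trans h.hr2, h.hL.trans h5, h6, h8, h.zero,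
    h.start.mono (ball_subset_ball h2), ?_, ?_, ?_, h.epos, ?_, ?_, h.init⟩
  · intro u hu
    have h10 := h.start' u (ball_subset_ball h2 hu)
    have h11 : L * ‖u‖ ≤ L' * ‖u‖ := mul_le_mul_of_nonneg_right h5 (norm_nonneg _)
    linarith
  · intro n ρ D hρ hρ' hD hD' hd hb
    obtain ⟨h10, h11, h12⟩ := h.step n ρ D hρ (hρ'.trans h2) hD (hD'.trans h4) hd hb
    refine ⟨h10, h11, fun u hu => (h12 u hu).trans ?_⟩
    exact mul_le_mul_of_nonneg_right h5 (by linarith)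
  · intro n ρ D hρ hρ' hd hb
    refine le_trans ?_ (h.low n ρ D hρ (hρ'.trans h2) hd hb)
    have h10 : q' ^ n ≤ q ^ n := pow_le_pow_left₀ (by linarith) h9 n
    have h11 : 0 ≤ q' ^ n := by positivity
    have hc := h.hc
    exact mul_le_mul_of_nonneg_right (mul_le_mul h7 h10 h11 hc.le) hρ.le
  · intro n
    refine (h.esum n).trans ?_
    exact mul_le_mul_of_nonneg_right h5 (by positivity)
  · intro n ρ D D' hρ hρ' hD hDr hd hb hsup hb' u hu u' hu'
    have h10 := h.cmp n ρ D D' hρ (hρ'.trans h2) hD (hDr.trans h4) hd hb hsup hb' u hu u' hu'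
    have h0 : (0 : W) ∈ ball (0 : W) ρ := mem_ball_self hρ
    have hD'0 : 0 ≤ D' := (norm_nonneg _).trans (hb' 0 h0)
    have hmin : 0 ≤ min 1 (D / e n) := le_min zero_le_one (div_pos hD (h.epos n)).le
    have h11 : 1 + L * min 1 (D / e n) ≤ 1 + L' * min 1 (D / e n) := by
      have := mul_le_mul_of_nonneg_right h5 hmin
      linarith
    have h12 : D' + L * ρ ≤ D' + L' * ρ := by
      have := mul_le_mul_of_nonneg_right h5 hρ.le
      linarith
    have h13 : 0 ≤ D' + L * ρ := by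
      have : 0 ≤ L * ρ := by positivity
      linarith
    have h14 : 0 ≤ 1 + L' * min 1 (D / e n) := by
      have : 0 ≤ L' * min 1 (D / e n) := mul_nonneg (by linarith) hmin
      linarith
    have h15 : (1 + L * min 1 (D / e n)) * (D' + L * ρ) ≤
        (1 + L' * min 1 (D / e n)) * (D' + L' * ρ) := mul_le_mul h11 h12 h13 h14
    have h16 := mul_le_mul_of_nonneg_right h15 (norm_nonneg (G n u - G n u'))
    have h17 : L * ρ * D ≤ L' * ρ * D :=
      mul_le_mul_of_nonneg_right (mul_le_mul_of_nonneg_right h5 hρ.le) hD.le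
    linarith

theorem sr_unif {ι : Type} [Finite ι] {W : Type} [NormedAddCommGroup W] [NormedSpace ℂ W]
    {G : ι → ℕ → W → ℂ} {ok : ι → ℕ → W → Prop} {e : ι → ℕ → ℝ} {rel : ι → W → W → Prop}
    (h : ∀ k, ∃ ρ0 r1 L c q : ℝ, SR (G k) (ok k) (e k) (rel k) ρ0 r1 L c q) :
    ∃ ρ0 r1 L c q : ℝ, ∀ k, SR (G k) (ok k) (e k) (rel k) ρ0 r1 L c q := by
  rcases isEmpty_or_nonempty ι with hι | hι
  · exact ⟨0, 0, 0, 0, 0, fun k => hι.elim k⟩
  choose ρ0 r1 L c q hr using h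
  obtain ⟨k1, hk1⟩ := Finite.exists_min ρ0
  obtain ⟨k2, hk2⟩ := Finite.exists_min r1
  obtain ⟨k3, hk3⟩ := Finite.exists_max L
  obtain ⟨k4, hk4⟩ := Finite.exists_min c
  obtain ⟨k5, hk5⟩ := Finite.exists_min q
  exact ⟨ρ0 k1, r1 k2, L k3, c k4, q k5, fun k => sr_mono (hr k) (hr k1).hρ0 (hk1 k) (hr k2).hr1
    (hk2 k) (hk3 k) (hr k4).hc (hk4 k) (hr k5).hq (hk5 k)⟩

end Pool.Agent.H91.CS
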