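import Mathlib

/-!
# Module SRAT: a real recursion

PROOF. Write `R n = Δ n / D n`. Dividing the hypothesis by `D n * D (n + 1)`: `R (n + 1) ≤ (1 + L a n) (1 + L ρ / D (n + 1)) R n + L ρ / D (n + 1)`, and `b n = L ρ / D (n + 1) ≤ (L / c) q ^ (- (n + 1))` since `D (n + 1) ≥ c q ^ (n + 1) ρ`. By
induction on `n ≥ n0`: `R n ≤ exp (∑_(n0 ≤ i < n) (L a i + b i)) * (R n0 + ∑_(n0 ≤ i < n) b i)` (`1 + x ≤ exp x`), and `∑_(i ≥ n0) b i ≤ (L / c) q ^ (- n0) / (q - 1) =: B q ^ (- n0)`, at most `L / (c (q - 1))`.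
-/

set_option autoImplicit false

namespace Pool.Agent.H91.CS

theorem ratio {D Δ a : ℕ → ℝ} {ρ L c q K : ℝ} {n0 N : ℕ} (hρ : 0 < ρ) (hL : 1 ≤ L) (hc : 0 < c)
    (hq : 1 < q) (hn : n0 ≤ N) (hD : ∀ n ≤ N, c * q ^ n * ρ ≤ D n) (hΔ : ∀ n, 0 ≤ Δ n)
    (ha : ∀ n, 0 ≤ a n) (hK : ∑ i ∈ Finset.range N, a i ≤ K)
    (hstep : ∀ n < N, Δ (n + 1) * D n ≤
      (1 + L * a n) * (D (n + 1) + L * ρ) * Δ n + L * ρ * D n) :
    Δ N ≤ Real.exp (L * K + L / (c * (q - 1))) *
      (Δ n0 / D n0 + L / (c * (q - 1)) * (1 / q) ^ n0) * D N := by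
  set q' : ℝ := 1 / q with hq'
  have hq0 : 0 < q := by linarith
  have hq1 : 0 < q - 1 := by linarith
  have hq'0 : 0 < q' := by positivity
  have hq'1 : q' ≤ 1 := by
    rw [hq', div_le_one hq0]
    exact hq.le
  set B : ℝ := L / (c * (q - 1)) with hB
  have hL0 : 0 < L := by linarith
  have hB0 : 0 < B := by positivity
  have hDpos : ∀ n ≤ N, 0 < D n := fun n hn => lt_of_lt_of_le (by positivity) (hD n hn)
  set β : ℕ → ℝ := fun n => L / c * q' ^ (n + 1) with hβ
  have hβ0 : ∀ n, 0 ≤ β n := fun n => by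
    rw [hβ]
    positivity
  have hβt : ∀ n, β n = B * q' ^ n - B * q' ^ (n + 1) := by
    intro n
    rw [hβ, hB, hq']
    dsimp only
    rw [pow_succ]
    field_simp
  -- one step
  have hR : ∀ n < N, Δ (n + 1) / D (n + 1) ≤
      (1 + L * a n) * (1 + β n) * (Δ n / D n) + β n := by
    intro n hn
    have h1 := hDpos n hn.le
    have h2 := hDpos (n + 1) hn
    have h3 := hstep n hn
    have h4 : L * ρ / D (n + 1) ≤ β n := by
      rw [div_le_iff₀ h2]
      have h5 := hD (n + 1) hn
      have h6 : β n * (c * q ^ (n + 1) * ρ) = L * ρ := by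
        rw [hβ, hq']
        dsimp only
        rw [div_pow, one_pow]
        field_simp
      calc L * ρ = β n * (c * q ^ (n + 1) * ρ) := h6.symm
        _ ≤ β n * D (n + 1) := mul_le_mul_of_nonneg_left h5 (hβ0 n)
    have h7 : Δ (n + 1) / D (n + 1) ≤
        (1 + L * a n) * (1 + L * ρ / D (n + 1)) * (Δ n / D n) + L * ρ / D (n + 1) := by
      have e1 : (1 + L * a n) * (1 + L * ρ / D (n + 1)) * (Δ n / D n) + L * ρ / D (n + 1) =
          ((1 + L * a n) * (D (n + 1) + L * ρ) * Δ n + L * ρ * D n) / (D n * D (n + 1)) := by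
        field_simp
      have e2 : Δ (n + 1) / D (n + 1) = Δ (n + 1) * D n / (D n * D (n + 1)) := by
        field_simp
      rw [e1, e2]
      exact div_le_div_of_nonneg_right h3 (by positivity)
    have h8 : 0 ≤ Δ n / D n := div_nonneg (hΔ n) h1.le
    have h9 : 0 ≤ 1 + L * a n := by
      have := mul_nonneg hL0.le (ha n)
      linarith
    calc Δ (n + 1) / D (n + 1) ≤ _ := h7
      _ ≤ (1 + L * a n) * (1 + β n) * (Δ n / D n) + β n := by gcongr
  set A : ℕ → ℝ := fun n => ∑ i ∈ Finset.range n, a i with hA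
  set T : ℕ → ℝ := fun n => B * q' ^ n0 - B * q' ^ n with hT
  have hT0 : ∀ n, n0 ≤ n → 0 ≤ T n := by
    intro n hn
    have h1 : q' ^ n ≤ q' ^ n0 := pow_le_pow_of_le_one hq'0.le hq'1 hn
    have h2 : B * q' ^ n ≤ B * q' ^ n0 := mul_le_mul_of_nonneg_left h1 hB0.le
    rw [hT]
    dsimp only
    linarith
  have hAmono : ∀ n, n0 ≤ n → A n0 ≤ A n := by
    intro n hn
    exact Finset.sum_le_sum_of_subset_of_nonneg (Finset.range_subset_range.2 hn)
      fun i _ _ => ha i
  have key : ∀ n, n0 ≤ n → n ≤ N → Δ n / D n ≤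
      Real.exp (L * (A n - A n0) + T n) * (Δ n0 / D n0 + T n) := by
    intro n hn1
    induction n, hn1 using Nat.le_induction with
    | base =>
      intro _
      rw [hT]
      dsimp only
      rw [sub_self, sub_self, mul_zero, add_zero, Real.exp_zero, one_mul, add_zero]
    | succ n hn1 ih =>
      intro hnN
      have h1 := ih (by omega)
      have h2 := hR n (by omega)
      have h3 : T (n + 1) = T n + β n := by
        rw [hβt n, hT]
        ring
      have h4 : A (n + 1) = A n + a n := by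
        rw [hA]
        exact Finset.sum_range_succ _ _
      have h5 : (1 + L * a n) * (1 + β n) ≤ Real.exp (L * a n + β n) := by
        rw [Real.exp_add]
        have e1 := Real.add_one_le_exp (L * a n)
        have e2 := Real.add_one_le_exp (β n)
        have e3 : 0 ≤ L * a n := mul_nonneg hL0.le (ha n)
        have e4 := hβ0 n
        have e5 : 0 < Real.exp (L * a n) := Real.exp_pos _
        calc (1 + L * a n) * (1 + β n) ≤ Real.exp (L * a n) * Real.exp (β n) := by
              refine mul_le_mul (by linarith) (by linarith) (by linarith) e5.le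
          _ = _ := rfl
      have hΔ0 : 0 ≤ Δ n0 / D n0 := div_nonneg (hΔ n0) (hDpos n0 hn).le
      have h6 : 0 ≤ Δ n / D n := div_nonneg (hΔ n) (hDpos n (by omega)).le
      have h7 : 0 ≤ L * (A (n + 1) - A n0) + T (n + 1) := by
        have e1 := hAmono (n + 1) (by omega)
        have e2 := hT0 (n + 1) (by omega)
        have e3 : 0 ≤ L * (A (n + 1) - A n0) := mul_nonneg hL0.le (by linarith)
        linarith
      have h8 : 1 ≤ Real.exp (L * (A (n + 1) - A n0) + T (n + 1)) := Real.one_le_exp h7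
      have h9 : Real.exp (L * a n + β n) * Real.exp (L * (A n - A n0) + T n) =
          Real.exp (L * (A (n + 1) - A n0) + T (n + 1)) := by
        rw [← Real.exp_add, h3, h4]
        congr 1
        ring
      have hTn := hT0 n hn1
      have e5 : 0 ≤ Δ n0 / D n0 + T n := by linarith
      calc Δ (n + 1) / D (n + 1) ≤ (1 + L * a n) * (1 + β n) * (Δ n / D n) + β n := h2
        _ ≤ Real.exp (L * a n + β n) * (Real.exp (L * (A n - A n0) + T n) *
              (Δ n0 / D n0 + T n)) + β n := by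
            have := mul_le_mul h5 h1 h6 (Real.exp_pos _).le
            linarith
        _ = Real.exp (L * (A (n + 1) - A n0) + T (n + 1)) * (Δ n0 / D n0 + T n) + β n := by
            rw [← mul_assoc, h9]
        _ ≤ Real.exp (L * (A (n + 1) - A n0) + T (n + 1)) * (Δ n0 / D n0 + T n) +
              Real.exp (L * (A (n + 1) - A n0) + T (n + 1)) * β n := by
            have := mul_le_mul_of_nonneg_right h8 (hβ0 n)
            linarith
        _ = Real.exp (L * (A (n + 1) - A n0) + T (n + 1)) * (Δ n0 / D n0 + T (n + 1)) := by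
            rw [h3]
            ring
  have hfin := key N hn le_rfl
  have hDN := hDpos N le_rfl
  have hA0 : 0 ≤ A n0 := Finset.sum_nonneg fun i _ => ha i
  have hTN : T N ≤ B * q' ^ n0 := by
    have : 0 ≤ B * q' ^ N := by positivity
    rw [hT]
    dsimp only
    linarith
  have hTB : B * q' ^ n0 ≤ B := by
    have : q' ^ n0 ≤ 1 := pow_le_one₀ hq'0.le hq'1
    nlinarith
  have hexp : Real.exp (L * (A N - A n0) + T N) ≤ Real.exp (L * K + B) := by
    apply Real.exp_le_exp.2
    have e1 : L * (A N - A n0) ≤ L * K := mul_le_mul_of_nonneg_left (by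
      have : A N ≤ K := hK
      linarith) hL0.le
    linarith
  have hΔ0 : 0 ≤ Δ n0 / D n0 := div_nonneg (hΔ n0) (hDpos n0 hn).le
  have hfin2 : Δ N / D N ≤ Real.exp (L * K + B) * (Δ n0 / D n0 + B * q' ^ n0) := by
    refine hfin.trans ?_
    have e6 := hT0 N hn
    refine mul_le_mul hexp (by linarith) (by linarith) (Real.exp_pos _).le
  rw [div_le_iff₀ hDN] at hfin2
  exact hfin2

end Pool.Agent.H91.CS
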