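import Pool.Agent.H91.CS.SBETA
import Pool.Agent.H91.CS.SCNT
import Pool.Agent.H91.CS.SRAT
import Pool.Agent.H91.CS.SMON

/-!
# Module SGOOD: good scales

PROOF. Constants `ρ0, r1, L, c, q` from `sr_unif`. Let `β k j = ∑_(i < N k j) min 1 (Dn (G k) i (sc j) / e k i) + (N k (j + 1) - N k j)`, `N k j = ex (G k) r1 (sc j)`. By `beta_sum` and `ex_mono` `∑_(j < J) β k j ≤ C (J + 1)`, so by `cnt2` there are
`K` and arbitrarily large `j` with `β k j ≤ K` for all `k`. Choose `s ∈ (0, r1)` and `j1` with `L ^ τ * (s + τ * sc j) ≤ r1` for `j ≥ j1`, `τ = ⌈K⌉₊`. Good scales: `ρ = sc j`, `j ≥ j1` as above, `n k = N k j`. Holomorphy, `ok`, the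
bound `2 L r1`: `ex_spec`, `ex_diff`. If `‖G k (n k) u‖ < s` for all `u ∈ ball 0 (ρ / 2)`, `ρ / 2 = sc (j + 1)`, then by `ex_slow` (scale `sc (j + 1)`, which stays up to `n k` since it is contained in the ball of radius `ρ`)
`N k (j + 1) ≥ N k j + τ + 1`, against `β k j ≤ K`. Last property: given `η > 0`, `init` gives `n0` (as large as we want: with `L / (c (q - 1)) (1 / q) ^ n0 ≤ η`) and `ρ1`; for the good scales `ρ ≤ ρ1` with `n0 ≤ n k` (`N k j → ∞`: for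
fixed `n0` `Dn (G k) i (sc j) → 0` as `j → ∞` for `i ≤ n0`, by `start'` and `step`: `‖G i u‖ ≤ L ^ i (L + i) ρ`, or by `dn_schwarz`) `ratio` with `D n = Dn (G k) n ρ`, `Δ n = ‖G k n u - G k n u'‖`, `a n = min 1 (D n / e n)` for `n < N k j`
and `0` otherwise; `cmp` needs `0 < D n` (`low`), `D n ≤ r1`; for `n + 1 ≤ N k j` the bound `D' = Dn (G k) (n + 1) ρ` (`le_dn`) gives
`‖G k (n k) u - G k (n k) u'‖ ≤ exp (..) * 2 η * 2 L r1`. Choose a sequence of good scales tending to `0` and let `ε j` be the supremum of the left sides over `u, u'` related (at most `4 L r1`), or use a diagonal argument: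
it tends to `0` by the above.
-/

set_option autoImplicit false

open Filter Topology Metric Set

namespace Pool.Agent.H91.CS

private theorem sgood_pos {ρ0 r1 L : ℝ} (h0 : 0 < ρ0) (h1 : 0 < r1) (hL : 1 ≤ L) (j : ℕ) :
    0 < sc ρ0 r1 L j := by
  unfold sc
  have : 0 < min ρ0 (r1 / L) := lt_min h0 (div_pos h1 (by linarith))
  positivity

private theorem sgood_le {ρ0 r1 L : ℝ} (h0 : 0 < ρ0) (h1 : 0 < r1) (hL : 1 ≤ L) (j : ℕ) :
    sc ρ0 r1 L j ≤ min ρ0 (r1 / L) := by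
  unfold sc
  have h : 0 < min ρ0 (r1 / L) := lt_min h0 (div_pos h1 (by linarith))
  exact div_le_self h.le (one_le_pow₀ (by norm_num))

private theorem sgood_le0 {ρ0 r1 L : ℝ} (h0 : 0 < ρ0) (h1 : 0 < r1) (hL : 1 ≤ L) (j : ℕ) :
    sc ρ0 r1 L j ≤ ρ0 := (sgood_le h0 h1 hL j).trans (min_le_left _ _)

private theorem sgood_leL {ρ0 r1 L : ℝ} (h0 : 0 < ρ0) (h1 : 0 < r1) (hL : 1 ≤ L) (j : ℕ) :
    L * sc ρ0 r1 L j ≤ r1 := by
  have h := (sgood_le h0 h1 hL j).trans (min_le_right _ _)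
  have hLp : 0 < L := by linarith
  rw [le_div_iff₀ hLp] at h
  linarith

private theorem sgood_succ {ρ0 r1 L : ℝ} (j : ℕ) : sc ρ0 r1 L (j + 1) = sc ρ0 r1 L j / 2 := by
  unfold sc
  rw [pow_succ]
  field_simp

private theorem sgood_tendsto {ρ0 r1 L : ℝ} : Tendsto (sc ρ0 r1 L) atTop (𝓝 0) := by
  have h : Tendsto (fun j : ℕ => min ρ0 (r1 / L) * (1 / 2 : ℝ) ^ j) atTop
      (𝓝 (min ρ0 (r1 / L) * 0)) :=
    (tendsto_pow_atTop_nhds_zero_of_lt_one (by norm_num) (by norm_num)).const_mul _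
  rw [mul_zero] at h
  refine h.congr fun j => ?_
  unfold sc
  rw [one_div, inv_pow]
  exact (div_eq_mul_inv _ _).symm

section one

variable {W : Type} [NormedAddCommGroup W] [NormedSpace ℂ W] {G : ℕ → W → ℂ} {ok : ℕ → W → Prop}
  {e : ℕ → ℝ} {rel : W → W → Prop} {ρ0 r1 L c q : ℝ}

omit [NormedSpace ℂ W] in
private theorem sgood_dn_nonneg (G : ℕ → W → ℂ) (n : ℕ) (ρ : ℝ) : 0 ≤ Dn G n ρ := by
  unfold Dn
  apply Real.sSup_nonneg
  rintro x ⟨u, _, rfl⟩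
  exact norm_nonneg _

private theorem sgood_mono (h : SR G ok e rel ρ0 r1 L c q) (j : ℕ) :
    ex G r1 (sc ρ0 r1 L j) ≤ ex G r1 (sc ρ0 r1 L (j + 1)) := by
  obtain ⟨C, _, hC⟩ := ex_spec h
  have hp := sgood_pos h.hρ0 h.hr1 h.hL j
  refine ex_mono (by rw [sgood_succ]; linarith) ⟨_, (hC _ (sgood_pos h.hρ0 h.hr1 h.hL (j + 1))
    (sgood_le0 h.hρ0 h.hr1 h.hL _) (sgood_leL h.hρ0 h.hr1 h.hL _)).2.2.2.1⟩

/-- exit times tend to infinity -/
private theorem sgood_large (h : SR G ok e rel ρ0 r1 L c q) :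
    Tendsto (fun j => ex G r1 (sc ρ0 r1 L j)) atTop atTop := by
  rw [Filter.tendsto_atTop]
  intro τ
  have h1 : Tendsto (fun j : ℕ => L ^ τ * (L + τ) * sc ρ0 r1 L j) atTop
      (𝓝 (L ^ τ * (L + τ) * 0)) := sgood_tendsto.const_mul _
  rw [mul_zero] at h1
  filter_upwards [h1.eventually_le_const h.hr1] with j hj
  have hp := sgood_pos h.hρ0 h.hr1 h.hL j
  have hL0 : 0 < L := by linarith [h.hL]
  have h2 := ex_slow h hp (sgood_le0 h.hρ0 h.hr1 h.hL j) (sgood_leL h.hρ0 h.hr1 h.hL j)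
    (n := 0) (τ := τ) (s := L * sc ρ0 r1 L j) (fun i hi => absurd hi (Nat.not_lt_zero _))
    (by positivity)
    (by
      intro u hu
      have hu0 : u ∈ ball (0 : W) ρ0 :=
        ball_subset_ball (sgood_le0 h.hρ0 h.hr1 h.hL j) hu
      refine (h.start' u hu0).trans ?_
      have : ‖u‖ ≤ sc ρ0 r1 L j := by
        rw [mem_ball_zero_iff] at hu
        exact hu.le
      exact mul_le_mul_of_nonneg_left this hL0.le)
    (by
      refine le_trans (le_of_eq ?_) hj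
      ring)
  omega

/-- comparison of related points at a good scale -/
private theorem sgood_cmp (h : SR G ok e rel ρ0 r1 L c q) {K η : ℝ} (hη : 0 < η) :
    ∀ᶠ j in atTop, (∑ i ∈ Finset.range (ex G r1 (sc ρ0 r1 L j)),
      min 1 (Dn G i (sc ρ0 r1 L j) / e i) ≤ K) →
      ∀ u ∈ ball (0 : W) (sc ρ0 r1 L j), ∀ u' ∈ ball (0 : W) (sc ρ0 r1 L j), rel u u' →
        ‖G (ex G r1 (sc ρ0 r1 L j)) u - G (ex G r1 (sc ρ0 r1 L j)) u'‖ ≤
          Real.exp (L * K + L / (c * (q - 1))) * (η + η) * (2 * L * r1) := by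
  have hL0 : 0 < L := by linarith [h.hL]
  have hq0 : 0 < q := by linarith [h.hq]
  have hq1 : 0 < q - 1 := by linarith [h.hq]
  have hc0 := h.hc
  obtain ⟨N0, hN0⟩ := h.init η hη
  have hB : Tendsto (fun n : ℕ => L / (c * (q - 1)) * (1 / q) ^ n) atTop
      (𝓝 (L / (c * (q - 1)) * 0)) :=
    (tendsto_pow_atTop_nhds_zero_of_lt_one (by positivity)
      (by rw [div_lt_one hq0]; exact h.hq)).const_mul _
  rw [mul_zero] at hB
  obtain ⟨n0, hn1, hn2⟩ := ((hB.eventually_le_const hη).and (eventually_ge_atTop N0)).exists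
  obtain ⟨ρ1, hρ1, hinit⟩ := hN0 n0 hn2
  obtain ⟨C, _, hC⟩ := ex_spec h
  filter_upwards [(sgood_tendsto (ρ0 := ρ0) (r1 := r1) (L := L)).eventually_le_const hρ1,
    (sgood_large h).eventually_ge_atTop n0] with j hj1 hj2 hK u hu u' hu' hrel
  have hp := sgood_pos h.hρ0 h.hr1 h.hL j
  have hp0 := sgood_le0 h.hρ0 h.hr1 h.hL j
  have hpL := sgood_leL h.hρ0 h.hr1 h.hL j
  obtain ⟨_, _, hst, _, hex⟩ := hC _ hp hp0 hpL
  set ρ := sc ρ0 r1 L j with hρdef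
  set N := ex G r1 ρ with hNdef
  obtain ⟨hdiff, _⟩ := ex_diff h hp hp0 hst
  have hbd : ∀ n ≤ N, ∃ B : ℝ, ∀ v ∈ ball (0 : W) ρ, ‖G n v‖ ≤ B := by
    intro n hn
    rcases Nat.lt_or_ge n N with h1 | h1
    · exact ⟨r1, hst n h1⟩
    · have : n = N := le_antisymm hn h1
      subst this
      exact ⟨2 * L * r1, hex⟩
  have hdn : ∀ n ≤ N, ∀ v ∈ ball (0 : W) ρ, ‖G n v‖ ≤ Dn G n ρ := by
    intro n hn v hv
    obtain ⟨B, hB⟩ := hbd n hn
    exact le_dn hB hv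
  have hlow : ∀ n ≤ N, c * q ^ n * ρ ≤ Dn G n ρ := fun n hn =>
    h.low n ρ _ hp hp0 (hdiff n hn) (hdn n hn)
  have hdpos : ∀ n ≤ N, 0 < Dn G n ρ := fun n hn =>
    lt_of_lt_of_le (by positivity) (hlow n hn)
  have hr := ratio (D := fun n => Dn G n ρ) (Δ := fun n => ‖G n u - G n u'‖)
    (a := fun n => if n < N then min 1 (Dn G n ρ / e n) else 0) (K := K) hp h.hL h.hc h.hq
    (n0 := n0) (N := N) hj2 hlow (fun n => norm_nonneg _)
    (by
      intro n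
      split_ifs
      · exact le_min zero_le_one (div_nonneg (sgood_dn_nonneg G n ρ) (h.epos n).le)
      · exact le_refl _)
    (by
      refine le_trans (le_of_eq ?_) hK
      refine Finset.sum_congr rfl fun i hi => ?_
      rw [if_pos (Finset.mem_range.1 hi)])
    (by
      intro n hn
      rw [if_pos hn]
      exact h.cmp n ρ (Dn G n ρ) (Dn G (n + 1) ρ) hp hp0 (hdpos n hn.le)
        (dn_le hp (hst n hn)) (hdiff n hn.le) (hdn n hn.le) (fun D1 hD1 => dn_lt hp hD1)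
        (hdn (n + 1) hn) u hu u' hu')
  refine hr.trans ?_
  have hi : ‖G n0 u - G n0 u'‖ / Dn G n0 ρ ≤ η := by
    rw [div_le_iff₀ (hdpos n0 hj2)]
    exact hinit ρ hp hj1 _ (hdiff n0 hj2) (hdn n0 hj2) u hu u' hu' hrel
  have hDN : Dn G N ρ ≤ 2 * L * r1 := dn_le hp hex
  have hr1 := h.hr1
  apply mul_le_mul
  · exact mul_le_mul_of_nonneg_left (add_le_add hi hn1) (Real.exp_pos _).le
  · exact hDN
  · exact sgood_dn_nonneg G N ρ
  · positivity

end one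

theorem good_scales {ι : Type} [Finite ι] {W : Type} [NormedAddCommGroup W] [NormedSpace ℂ W]
    {G : ι → ℕ → W → ℂ} {ok : ι → ℕ → W → Prop} {e : ι → ℕ → ℝ} {rel : ι → W → W → Prop}
    (h : ∀ k, ∃ ρ0 r1 L c q : ℝ, SR (G k) (ok k) (e k) (rel k) ρ0 r1 L c q) :
    ∃ (s M : ℝ) (ρ ε : ℕ → ℝ) (n : ι → ℕ → ℕ), 0 < s ∧ (∀ j, 0 < ρ j) ∧ Tendsto ρ atTop (𝓝 0) ∧
      Tendsto ε atTop (𝓝 0) ∧ (∀ k, Tendsto (n k) atTop atTop) ∧ ∀ k j,
        DifferentiableOn ℂ (G k (n k j)) (ball 0 (ρ j)) ∧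
        (∀ u ∈ ball (0 : W) (ρ j), ‖G k (n k j) u‖ ≤ M) ∧
        (∀ i < n k j, ∀ u ∈ ball (0 : W) (ρ j), ok k i u) ∧
        (∃ u ∈ ball (0 : W) (ρ j / 2), s ≤ ‖G k (n k j) u‖) ∧
        ∀ u ∈ ball (0 : W) (ρ j), ∀ u' ∈ ball (0 : W) (ρ j), rel k u u' →
          ‖G k (n k j) u - G k (n k j) u'‖ ≤ ε j := by
  classical
  rcases isEmpty_or_nonempty ι with hι | ⟨⟨k0⟩⟩
  · refine ⟨1, 0, fun j => 1 / ((j : ℝ) + 1), fun _ => 0, fun k _ => 0, one_pos,
      fun j => by positivity, tendsto_one_div_add_atTop_nhds_zero_nat, tendsto_const_nhds,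
      fun k => (hι.false k).elim, fun k => (hι.false k).elim⟩
  obtain ⟨ρ0, r1, L, c, q, hU⟩ := sr_unif h
  have hρ0 := (hU k0).hρ0
  have hr1 := (hU k0).hr1
  have hL := (hU k0).hL
  have hc := (hU k0).hc
  have hq := (hU k0).hq
  have hL0 : 0 < L := by linarith
  have hq1 : 0 < q - 1 := by linarith
  have hp : ∀ j, 0 < sc ρ0 r1 L j := sgood_pos hρ0 hr1 hL
  have hp0 : ∀ j, sc ρ0 r1 L j ≤ ρ0 := sgood_le0 hρ0 hr1 hL
  have hpL : ∀ j, L * sc ρ0 r1 L j ≤ r1 := sgood_leL hρ0 hr1 hL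
  -- the counting
  have hC : ∀ k, ∃ C : ℝ, ∀ J : ℕ,
      ∑ j ∈ Finset.range J, ((∑ i ∈ Finset.range (ex (G k) r1 (sc ρ0 r1 L j)),
        min 1 (Dn (G k) i (sc ρ0 r1 L j) / e k i)) +
        ((ex (G k) r1 (sc ρ0 r1 L (j + 1)) : ℝ) - ex (G k) r1 (sc ρ0 r1 L j))) ≤ C * (J + 1) := by
    intro k
    obtain ⟨C, hC⟩ := beta_sum (hU k)
    refine ⟨2 * C, fun J => ?_⟩
    rw [Finset.sum_add_distrib, Finset.sum_range_sub (fun j => (ex (G k) r1 (sc ρ0 r1 L j) : ℝ))]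
    obtain ⟨h1, h2⟩ := hC J
    have h3 : (0 : ℝ) ≤ ex (G k) r1 (sc ρ0 r1 L 0) := Nat.cast_nonneg _
    linarith
  choose C hC using hC
  obtain ⟨C', hC'⟩ := (Set.finite_range C).bddAbove
  have hnn : ∀ k j, 0 ≤ ∑ i ∈ Finset.range (ex (G k) r1 (sc ρ0 r1 L j)),
        min 1 (Dn (G k) i (sc ρ0 r1 L j) / e k i) := fun k j =>
    Finset.sum_nonneg fun i _ =>
      le_min zero_le_one (div_nonneg (sgood_dn_nonneg _ _ _) ((hU k).epos i).le)
  have hmo : ∀ k j, (0 : ℝ) ≤ (ex (G k) r1 (sc ρ0 r1 L (j + 1)) : ℝ) -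
      ex (G k) r1 (sc ρ0 r1 L j) := by
    intro k j
    have := sgood_mono (hU k) j
    have h2 : (ex (G k) r1 (sc ρ0 r1 L j) : ℝ) ≤ ex (G k) r1 (sc ρ0 r1 L (j + 1)) := by
      exact_mod_cast this
    linarith
  obtain ⟨K, hK⟩ := cnt2 (β := fun k j => (∑ i ∈ Finset.range (ex (G k) r1 (sc ρ0 r1 L j)),
        min 1 (Dn (G k) i (sc ρ0 r1 L j) / e k i)) +
        ((ex (G k) r1 (sc ρ0 r1 L (j + 1)) : ℝ) - ex (G k) r1 (sc ρ0 r1 L j))) (C := C')
    (fun k j => add_nonneg (hnn k j) (hmo k j))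
    (fun k J => (hC k J).trans
      (mul_le_mul_of_nonneg_right (hC' (Set.mem_range_self k)) (by positivity)))
  -- the constant s
  set τ : ℕ := ⌈K⌉₊ with hτdef
  have hLτ : 0 < L ^ τ := by positivity
  have hs0 : 0 < r1 / 2 / L ^ τ := by positivity
  have hev : ∀ᶠ j in atTop, L ^ τ * (r1 / 2 / L ^ τ + τ * sc ρ0 r1 L j) ≤ r1 := by
    have h1 : Tendsto (fun j : ℕ => L ^ τ * τ * sc ρ0 r1 L j) atTop
        (𝓝 (L ^ τ * τ * 0)) := sgood_tendsto.const_mul _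
    rw [mul_zero] at h1
    have h2 : 0 < r1 / 2 := by positivity
    filter_upwards [h1.eventually_le_const h2] with j hj
    have h3 : L ^ τ * (r1 / 2 / L ^ τ) = r1 / 2 := by
      field_simp
    have h4 : L ^ τ * (r1 / 2 / L ^ τ + τ * sc ρ0 r1 L j) =
        L ^ τ * (r1 / 2 / L ^ τ) + L ^ τ * τ * sc ρ0 r1 L j := by ring
    rw [h4, h3]
    linarith
  obtain ⟨j1, hj1⟩ := eventually_atTop.1 hev
  -- the good scales
  have hfreq : ∃ᶠ j in atTop, j1 ≤ j ∧ ∀ k, (∑ i ∈ Finset.range (ex (G k) r1 (sc ρ0 r1 L j)),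
        min 1 (Dn (G k) i (sc ρ0 r1 L j) / e k i)) +
        ((ex (G k) r1 (sc ρ0 r1 L (j + 1)) : ℝ) - ex (G k) r1 (sc ρ0 r1 L j)) ≤ K := by
    rw [frequently_atTop]
    intro a
    obtain ⟨j, hj, hjK⟩ := hK (max a j1)
    exact ⟨j, le_trans (le_max_left _ _) hj, le_trans (le_max_right _ _) hj, hjK⟩
  obtain ⟨φ, hφ, hgood⟩ := extraction_of_frequently_atTop hfreq
  have hφt : Tendsto φ atTop atTop := hφ.tendsto_atTop
  have hspec : ∀ k j, (∀ i < ex (G k) r1 (sc ρ0 r1 L j), ∀ u ∈ ball (0 : W) (sc ρ0 r1 L j),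
      ‖G k i u‖ ≤ r1) ∧
      ∀ u ∈ ball (0 : W) (sc ρ0 r1 L j), ‖G k (ex (G k) r1 (sc ρ0 r1 L j)) u‖ ≤ 2 * L * r1 := by
    intro k j
    obtain ⟨_, _, hC⟩ := ex_spec (hU k)
    obtain ⟨_, _, h3, _, h5⟩ := hC _ (hp j) (hp0 j) (hpL j)
    exact ⟨h3, h5⟩
  let A : ℕ → Set ℝ := fun j => {x : ℝ | ∃ k, ∃ u ∈ ball (0 : W) (sc ρ0 r1 L (φ j)),
    ∃ u' ∈ ball (0 : W) (sc ρ0 r1 L (φ j)), rel k u u' ∧
      x = ‖G k (ex (G k) r1 (sc ρ0 r1 L (φ j))) u - G k (ex (G k) r1 (sc ρ0 r1 L (φ j))) u'‖}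
  have hAb : ∀ j, BddAbove (A j) := by
    intro j
    refine ⟨4 * L * r1, ?_⟩
    rintro x ⟨k, u, hu, u', hu', _, rfl⟩
    have h1 := (hspec k (φ j)).2 u hu
    have h2 := (hspec k (φ j)).2 u' hu'
    have h3 := norm_sub_le (G k (ex (G k) r1 (sc ρ0 r1 L (φ j))) u)
      (G k (ex (G k) r1 (sc ρ0 r1 L (φ j))) u')
    linarith
  refine ⟨r1 / 2 / L ^ τ, 2 * L * r1, fun j => sc ρ0 r1 L (φ j), fun j => sSup (A j),
    fun k j => ex (G k) r1 (sc ρ0 r1 L (φ j)), hs0, fun j => hp _,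
    sgood_tendsto.comp hφt, ?_, fun k => (sgood_large (hU k)).comp hφt, ?_⟩
  · -- `ε` tends to zero
    rw [Metric.tendsto_nhds]
    intro δ hδ
    set E : ℝ := Real.exp (L * K + L / (c * (q - 1))) * (2 * L * r1) with hE
    have hE0 : 0 < E := by positivity
    set η : ℝ := δ / (4 * E) with hηdef
    have hη : 0 < η := by positivity
    have hall : ∀ᶠ j in atTop, ∀ k, (∑ i ∈ Finset.range (ex (G k) r1 (sc ρ0 r1 L j)),
        min 1 (Dn (G k) i (sc ρ0 r1 L j) / e k i) ≤ K) →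
        ∀ u ∈ ball (0 : W) (sc ρ0 r1 L j), ∀ u' ∈ ball (0 : W) (sc ρ0 r1 L j), rel k u u' →
          ‖G k (ex (G k) r1 (sc ρ0 r1 L j)) u - G k (ex (G k) r1 (sc ρ0 r1 L j)) u'‖ ≤
            Real.exp (L * K + L / (c * (q - 1))) * (η + η) * (2 * L * r1) :=
      eventually_all.2 fun k => sgood_cmp (hU k) hη
    filter_upwards [hφt.eventually hall] with j hj
    have hnon : 0 ≤ sSup (A j) := by
      apply Real.sSup_nonneg
      rintro x ⟨k, u, hu, u', hu', _, rfl⟩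
      exact norm_nonneg _
    have hle : sSup (A j) ≤ δ / 2 := by
      apply Real.sSup_le
      · rintro x ⟨k, u, hu, u', hu', hr, rfl⟩
        have h1 := hj k (by have := (hgood j).2 k; have h2 := hmo k (φ j); linarith) u hu u' hu' hr
        refine h1.trans (le_of_eq ?_)
        have h3 : Real.exp (L * K + L / (c * (q - 1))) * (η + η) * (2 * L * r1) =
            2 * E * η := by
          rw [hE]; ring
        rw [h3, hηdef]
        field_simp
        norm_num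
      · positivity
    rw [Real.dist_eq, sub_zero, abs_of_nonneg hnon]
    linarith
  · intro k j
    obtain ⟨hst, hex⟩ := hspec k (φ j)
    obtain ⟨hdiff, hok⟩ := ex_diff (hU k) (hp (φ j)) (hp0 (φ j)) hst
    refine ⟨hdiff _ le_rfl, hex, hok, ?_, ?_⟩
    · by_contra hcon
      push Not at hcon
      have hsub : ∀ u ∈ ball (0 : W) (sc ρ0 r1 L (φ j + 1)), u ∈ ball (0 : W) (sc ρ0 r1 L (φ j)) := by
        intro u hu
        refine ball_subset_ball ?_ hu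
        rw [sgood_succ]
        have := hp (φ j)
        linarith
      have hsl := ex_slow (hU k) (hp (φ j + 1)) (hp0 _) (hpL _)
        (n := ex (G k) r1 (sc ρ0 r1 L (φ j))) (τ := τ) (s := r1 / 2 / L ^ τ)
        (fun i hi u hu => hst i hi u (hsub u hu)) hs0.le
        (fun u hu => (hcon u (by rw [← sgood_succ]; exact hu)).le)
        (hj1 (φ j + 1) (by have := (hgood j).1; omega))
      have h1 := (hgood j).2 k
      have h2 := hnn k (φ j)
      have h3 : K ≤ τ := Nat.le_ceil K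
      have h4 : ((ex (G k) r1 (sc ρ0 r1 L (φ j)) + τ + 1 : ℕ) : ℝ) ≤
          (ex (G k) r1 (sc ρ0 r1 L (φ j + 1)) : ℝ) := by exact_mod_cast hsl
      push_cast at h4
      linarith
    · intro u hu u' hu' hr
      exact le_csSup (hAb j) ⟨k, u, hu, u', hu', hr, rfl⟩

end Pool.Agent.H91.CS
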