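import Pool.Agent.H91.CS.SDefs

/-!
# Module SSUP: suprema on balls and the Schwarz lemma

PROOF. `dn_le`, `le_dn`, `dn_lt`: `csSup_le`, `le_csSup`, `exists_lt_of_lt_csSup` (the image of `ball 0 ρ` is nonempty, it contains `‖G n 0‖`). `dn_schwarz`: let `u ∈ ball 0 (t ρ)`. If `u = 0`: `G n u = 0`. Otherwise the function
`z ↦ G n (z • u)` is holomorphic for `‖z‖ < ρ / ‖u‖`, vanishes at `0`, with values of norm at most `D = Dn G n ρ`; by the Schwarz lemma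
(`Complex.norm_le_norm_of_mapsTo_ball`, `Complex.dist_le_div_mul_dist_of_mapsTo_ball` or their closed versions; or by `D < D + ε`, `ε → 0`) `‖G n u‖ ≤ D * (‖u‖ / ρ) ≤ t * D`. Then `dn_le`.
-/

set_option autoImplicit false

open Filter Topology Metric Set

namespace Pool.Agent.H91.CS

variable {W : Type} [NormedAddCommGroup W] {G : ℕ → W → ℂ} {n : ℕ} {ρ D : ℝ}

theorem dn_le (hρ : 0 < ρ) (hb : ∀ u ∈ ball (0 : W) ρ, ‖G n u‖ ≤ D) : Dn G n ρ ≤ D := by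
  unfold Dn
  refine csSup_le ⟨_, mem_image_of_mem _ (mem_ball_self hρ)⟩ ?_
  rintro _ ⟨u, hu, rfl⟩
  exact hb u hu

theorem le_dn (hb : ∀ u ∈ ball (0 : W) ρ, ‖G n u‖ ≤ D) {u : W} (hu : u ∈ ball (0 : W) ρ) :
    ‖G n u‖ ≤ Dn G n ρ := by
  unfold Dn
  refine le_csSup ⟨D, ?_⟩ (mem_image_of_mem (fun u : W => ‖G n u‖) hu)
  rintro _ ⟨u, hu, rfl⟩
  exact hb u hu

theorem dn_lt (hρ : 0 < ρ) {D1 : ℝ} (h : D1 < Dn G n ρ) : ∃ u ∈ ball (0 : W) ρ, D1 < ‖G n u‖ := by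
  unfold Dn at h
  obtain ⟨_, ⟨u, hu, rfl⟩, h1⟩ := exists_lt_of_lt_csSup
    ⟨_, mem_image_of_mem (fun u : W => ‖G n u‖) (mem_ball_self hρ)⟩ h
  exact ⟨u, hu, h1⟩

theorem dn_schwarz [NormedSpace ℂ W] (hρ : 0 < ρ) (hd : DifferentiableOn ℂ (G n) (ball 0 ρ))
    (h0 : G n 0 = 0) (hb : ∀ u ∈ ball (0 : W) ρ, ‖G n u‖ ≤ D) {t : ℝ} (ht : 0 < t) (ht1 : t ≤ 1) :
    Dn G n (t * ρ) ≤ t * Dn G n ρ := by
  refine dn_le (mul_pos ht hρ) fun u hu => ?_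
  have hu1 : u ∈ ball (0 : W) ρ := ball_subset_ball (by nlinarith) hu
  have hmaps : MapsTo (G n) (ball 0 ρ) (closedBall (G n 0) (Dn G n ρ)) := by
    intro v hv
    rw [h0, mem_closedBall_zero_iff]
    exact le_dn hb hv
  have h1 := Complex.dist_le_div_mul_dist_of_mapsTo_ball hd hmaps hu1
  rw [h0, dist_zero_right, dist_zero_right] at h1
  have hD : 0 ≤ Dn G n ρ := (norm_nonneg _).trans (le_dn hb (mem_ball_self hρ))
  have hu2 : ‖u‖ ≤ t * ρ := (mem_ball_zero_iff.1 hu).le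
  calc ‖G n u‖ ≤ Dn G n ρ / ρ * ‖u‖ := h1
    _ ≤ Dn G n ρ / ρ * (t * ρ) := mul_le_mul_of_nonneg_left hu2 (by positivity)
    _ = t * Dn G n ρ := by
        field_simp

end Pool.Agent.H91.CS
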