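import Pool.Agent.H91.CS.TBase

/-!
# Module TKER: the kernel with poles at 0, 1, p is integrable

PROOF. `R = 2 ‖p‖ + 2`. On `ball 0 R` use, for `x` different from `0, 1, p` (almost every `x`),
`p (p - 1) / (x (x - 1) (x - p)) = 1 / (x - p) + (p - 1) / x - p / (x - 1)` (`field_simp; ring`) and `∫⁻ x in ball c δ, ofReal ‖x - p‖⁻¹ ≤ ofReal (3 π δ)` (private lemmas `tayl_ker_zero`, `tayl_ker` of H91/CE/TAYL.lean: copy them):
at most `3 π R (1 + ‖p - 1‖ + ‖p‖) ≤ 12 π (1 + ‖p‖) ^ 2`. Outside (`‖x‖ ≥ R`): `‖x - 1‖ ≥ ‖x‖ / 2`, `‖x - p‖ ≥ ‖x‖ / 2`, so the integrand is at most `4 ‖p‖ (‖p‖ + 1) / ‖x‖ ^ 3`, and `∫⁻ x in {x | 1 ≤ ‖x‖}, ofReal (1 / ‖x‖ ^ 3)` is finite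
(`out_bound`, H35/EX/KerB; `ENNReal.toReal` of it is a constant). `(1 + ‖p‖) ^ 2 ≤ 2 (1 + ‖p‖ ^ 2)`.
-/

set_option autoImplicit false

open Filter Topology Polynomial Metric Set MeasureTheory

namespace Pool.Agent.H91.CS

open Pool.Agent.H44.Fatou Pool.Agent.H61.TT Pool.Agent.H35.EX Pool.Agent.H91.CE

private theorem tkerx_ker_zero {δ : ℝ} (hδ : 0 < δ) :
    ∫⁻ x in ball (0 : ℂ) δ, ENNReal.ofReal (‖x‖⁻¹) ≤ ENNReal.ofReal (2 * Real.pi * δ) := by
  rw [← lintegral_indicator measurableSet_ball, ← Complex.lintegral_comp_polarCoord_symm]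
  have h1 : (∫⁻ q in polarCoord.target, ENNReal.ofReal q.1 •
      (ball (0 : ℂ) δ).indicator (fun x => ENNReal.ofReal (‖x‖⁻¹)) (Complex.polarCoord.symm q)) ≤
      ∫⁻ q in polarCoord.target, (Iio δ ×ˢ (univ : Set ℝ)).indicator 1 q := by
    refine setLIntegral_mono' polarCoord.open_target.measurableSet fun q hq => ?_
    have hq1 : 0 < q.1 := hq.1
    by_cases h : q.1 < δ
    · have hm : q ∈ Iio δ ×ˢ (univ : Set ℝ) := ⟨h, mem_univ _⟩
      have hb : Complex.polarCoord.symm q ∈ ball (0 : ℂ) δ := by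
        rw [mem_ball_zero_iff, Complex.norm_polarCoord_symm, abs_of_pos hq1]
        exact h
      rw [indicator_of_mem hm, indicator_of_mem hb, Complex.norm_polarCoord_symm, abs_of_pos hq1,
        smul_eq_mul, ← ENNReal.ofReal_mul hq1.le, mul_inv_cancel₀ hq1.ne', ENNReal.ofReal_one]
      exact le_refl _
    · have hb : Complex.polarCoord.symm q ∉ ball (0 : ℂ) δ := by
        rw [mem_ball_zero_iff, Complex.norm_polarCoord_symm, abs_of_pos hq1]
        exact h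
      rw [indicator_of_notMem hb, smul_zero]
      exact bot_le
  have hms : MeasurableSet (Iio δ ×ˢ (univ : Set ℝ)) := measurableSet_Iio.prod MeasurableSet.univ
  rw [lintegral_indicator_one hms, Measure.restrict_apply hms] at h1
  refine (h1.trans (measure_mono (t := Ioo (0 : ℝ) δ ×ˢ Ioo (-Real.pi) Real.pi) ?_)).trans ?_
  · rintro q ⟨h2, h3⟩
    exact ⟨⟨h3.1, h2.1⟩, h3.2⟩
  · rw [Measure.volume_eq_prod, Measure.prod_prod, Real.volume_Ioo, Real.volume_Ioo,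
      ← ENNReal.ofReal_mul (by linarith)]
    apply le_of_eq
    congr 1
    ring

private theorem tkerx_ker (c p : ℂ) {δ : ℝ} (hδ : 0 < δ) :
    ∫⁻ x in ball c δ, ENNReal.ofReal (‖x - p‖⁻¹) ≤ ENNReal.ofReal (3 * Real.pi * δ) := by
  have h1 : ∀ x : ℂ, ENNReal.ofReal (‖x - p‖⁻¹) ≤
      (ball (0 : ℂ) δ).indicator (fun x => ENNReal.ofReal (‖x‖⁻¹)) (x - p) +
        ENNReal.ofReal δ⁻¹ := by
    intro x
    by_cases h : x - p ∈ ball (0 : ℂ) δ
    · rw [indicator_of_mem h]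
      exact le_self_add
    · rw [indicator_of_notMem h, zero_add]
      rw [mem_ball_zero_iff, not_lt] at h
      exact ENNReal.ofReal_le_ofReal (inv_anti₀ hδ h)
  calc ∫⁻ x in ball c δ, ENNReal.ofReal (‖x - p‖⁻¹)
      ≤ ∫⁻ x in ball c δ, ((ball (0 : ℂ) δ).indicator
          (fun x => ENNReal.ofReal (‖x‖⁻¹)) (x - p) + ENNReal.ofReal δ⁻¹) :=
        lintegral_mono fun x => h1 x
    _ = (∫⁻ x in ball c δ, (ball (0 : ℂ) δ).indicator
          (fun x => ENNReal.ofReal (‖x‖⁻¹)) (x - p)) + ∫⁻ x in ball c δ, ENNReal.ofReal δ⁻¹ :=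
        lintegral_add_right _ measurable_const
    _ ≤ (∫⁻ x, (ball (0 : ℂ) δ).indicator
          (fun x => ENNReal.ofReal (‖x‖⁻¹)) (x - p)) + ENNReal.ofReal (Real.pi * δ) := by
        refine add_le_add (setLIntegral_le_lintegral _ _) ?_
        rw [setLIntegral_const, Complex.volume_ball]
        have h2 : ((NNReal.pi : NNReal) : ENNReal) = ENNReal.ofReal Real.pi := by
          rw [← NNReal.coe_real_pi, ENNReal.ofReal_coe_nnreal]
        rw [h2, ← ENNReal.ofReal_pow hδ.le, ← ENNReal.ofReal_mul (by positivity),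
          ← ENNReal.ofReal_mul (by positivity)]
        apply le_of_eq
        congr 1
        field_simp
    _ = (∫⁻ x in ball (0 : ℂ) δ, ENNReal.ofReal (‖x‖⁻¹)) + ENNReal.ofReal (Real.pi * δ) := by
        congr 1
        rw [lintegral_sub_right_eq_self
          (fun x => (ball (0 : ℂ) δ).indicator (fun x => ENNReal.ofReal (‖x‖⁻¹)) x) p,
          lintegral_indicator measurableSet_ball]
    _ ≤ ENNReal.ofReal (2 * Real.pi * δ) + ENNReal.ofReal (Real.pi * δ) :=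
        add_le_add (tkerx_ker_zero hδ) le_rfl
    _ = ENNReal.ofReal (3 * Real.pi * δ) := by
        rw [← ENNReal.ofReal_add (by positivity) (by positivity)]
        congr 1
        ring

private theorem tkerx_in (p x : ℂ) : ‖p * (p - 1) / (x * (x - 1) * (x - p))‖ ≤
    ‖x - p‖⁻¹ + ‖p - 1‖ * ‖x - 0‖⁻¹ + ‖p‖ * ‖x - 1‖⁻¹ := by
  by_cases h0 : x * (x - 1) * (x - p) = 0
  · rw [h0, div_zero, norm_zero]
    positivity
  · have h1 : x ≠ 0 := by
      rintro rfl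
      simp at h0
    have h2 : x - 1 ≠ 0 := by
      intro h
      rw [h] at h0
      simp at h0
    have h3 : x - p ≠ 0 := by
      intro h
      rw [h] at h0
      simp at h0
    have h4 : p * (p - 1) / (x * (x - 1) * (x - p)) =
        1 / (x - p) + (p - 1) / (x - 0) - p / (x - 1) := by
      rw [sub_zero]
      field_simp
      ring
    rw [h4]
    refine (norm_sub_le _ _).trans ?_
    refine add_le_add ((norm_add_le _ _).trans (add_le_add ?_ ?_)) ?_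
    · rw [norm_div, norm_one, one_div]
    · rw [norm_div, div_eq_mul_inv]
    · rw [norm_div, div_eq_mul_inv]

private theorem tkerx_out (p x : ℂ) (hx : 2 * ‖p‖ + 2 ≤ ‖x‖) :
    ‖p * (p - 1) / (x * (x - 1) * (x - p))‖ ≤ 4 * ‖p‖ * (‖p‖ + 1) * (1 / ‖x‖ ^ 3) := by
  have hp := norm_nonneg p
  have hx0 : 0 < ‖x‖ := by linarith
  have h1 : ‖x‖ / 2 ≤ ‖x - 1‖ := by
    have h2 := norm_sub_norm_le x 1
    rw [norm_one] at h2
    linarith
  have h3 : ‖x‖ / 2 ≤ ‖x - p‖ := by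
    have h2 := norm_sub_norm_le x p
    linarith
  have h4 : ‖p - 1‖ ≤ ‖p‖ + 1 := by
    have h5 := norm_sub_le p 1
    rwa [norm_one] at h5
  have g1 : 0 < ‖x - 1‖ := by linarith
  have g2 : 0 < ‖x - p‖ := by linarith
  rw [norm_div, norm_mul, norm_mul, norm_mul, mul_one_div,
    div_le_div_iff₀ (by positivity) (by positivity)]
  have h6 : ‖x‖ ^ 3 ≤ 4 * (‖x‖ * ‖x - 1‖ * ‖x - p‖) := by
    have h7 : ‖x‖ / 2 * (‖x‖ / 2) ≤ ‖x - 1‖ * ‖x - p‖ := mul_le_mul h1 h3 (by positivity)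
      (norm_nonneg _)
    have h8 := mul_le_mul_of_nonneg_left h7 hx0.le
    nlinarith
  calc ‖p‖ * ‖p - 1‖ * ‖x‖ ^ 3 ≤ ‖p‖ * (‖p‖ + 1) * (4 * (‖x‖ * ‖x - 1‖ * ‖x - p‖)) :=
        mul_le_mul (mul_le_mul_of_nonneg_left h4 hp) h6 (by positivity) (by positivity)
    _ = _ := by ring

theorem ker_phi : ∃ K : ℝ, 0 ≤ K ∧ ∀ p : ℂ,
    ∫⁻ x : ℂ, ‖p * (p - 1) / (x * (x - 1) * (x - p))‖ₑ ≤ ENNReal.ofReal (K * (1 + ‖p‖ ^ 2)) := by
  obtain ⟨Q, hQ⟩ : ∃ Q : ℝ, Q = (∫⁻ x in {x : ℂ | (1 : ℝ) ≤ ‖x‖},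
    ENNReal.ofReal (1 / ‖x‖ ^ 3)).toReal := ⟨_, rfl⟩
  have hQ0 : 0 ≤ Q := by
    rw [hQ]
    exact ENNReal.toReal_nonneg
  have hQ1 : (∫⁻ x in {x : ℂ | (1 : ℝ) ≤ ‖x‖}, ENNReal.ofReal (1 / ‖x‖ ^ 3)) =
      ENNReal.ofReal Q := by
    rw [hQ, ENNReal.ofReal_toReal (out_bound le_rfl)]
  refine ⟨24 * Real.pi + 8 * Q, by positivity, fun p => ?_⟩
  have hp := norm_nonneg p
  obtain ⟨R, hR⟩ : ∃ R : ℝ, R = 2 * ‖p‖ + 2 := ⟨_, rfl⟩
  have hR0 : 0 < R := by rw [hR]; positivity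
  have hpi := Real.pi_pos
  rw [← lintegral_add_compl _ (measurableSet_ball (x := (0 : ℂ)) (ε := R))]
  have h1 : ∫⁻ x in ball (0 : ℂ) R, ‖p * (p - 1) / (x * (x - 1) * (x - p))‖ₑ ≤
      ENNReal.ofReal (3 * Real.pi * R * (1 + ‖p - 1‖ + ‖p‖)) := by
    have hm : ∀ c : ℂ, Measurable fun x : ℂ => ENNReal.ofReal (‖x - c‖⁻¹) := fun c =>
      ((measurable_id.sub_const c).norm.inv).ennreal_ofReal
    calc ∫⁻ x in ball (0 : ℂ) R, ‖p * (p - 1) / (x * (x - 1) * (x - p))‖ₑ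
        ≤ ∫⁻ x in ball (0 : ℂ) R, (ENNReal.ofReal (‖x - p‖⁻¹) +
            ENNReal.ofReal ‖p - 1‖ * ENNReal.ofReal (‖x - 0‖⁻¹) +
            ENNReal.ofReal ‖p‖ * ENNReal.ofReal (‖x - 1‖⁻¹)) := by
          refine lintegral_mono fun x => ?_
          rw [← ENNReal.ofReal_mul (norm_nonneg _), ← ENNReal.ofReal_mul (norm_nonneg _),
            ← ENNReal.ofReal_add (by positivity) (by positivity),
            ← ENNReal.ofReal_add (by positivity) (by positivity), ← ofReal_norm]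
          exact ENNReal.ofReal_le_ofReal (tkerx_in p x)
      _ = (∫⁻ x in ball (0 : ℂ) R, ENNReal.ofReal (‖x - p‖⁻¹)) +
            ENNReal.ofReal ‖p - 1‖ * (∫⁻ x in ball (0 : ℂ) R, ENNReal.ofReal (‖x - 0‖⁻¹)) +
            ENNReal.ofReal ‖p‖ * ∫⁻ x in ball (0 : ℂ) R, ENNReal.ofReal (‖x - 1‖⁻¹) := by
          rw [lintegral_add_right _ ((hm 1).const_mul _), lintegral_add_right _
            ((hm 0).const_mul _), lintegral_const_mul _ (hm 0), lintegral_const_mul _ (hm 1)]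
      _ ≤ ENNReal.ofReal (3 * Real.pi * R) +
            ENNReal.ofReal ‖p - 1‖ * ENNReal.ofReal (3 * Real.pi * R) +
            ENNReal.ofReal ‖p‖ * ENNReal.ofReal (3 * Real.pi * R) := by
          gcongr
          · exact tkerx_ker 0 p hR0
          · exact tkerx_ker 0 0 hR0
          · exact tkerx_ker 0 1 hR0
      _ = ENNReal.ofReal (3 * Real.pi * R * (1 + ‖p - 1‖ + ‖p‖)) := by
          rw [← ENNReal.ofReal_mul (norm_nonneg _), ← ENNReal.ofReal_mul (norm_nonneg _),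
            ← ENNReal.ofReal_add (by positivity) (by positivity),
            ← ENNReal.ofReal_add (by positivity) (by positivity)]
          congr 1
          ring
  have h2 : ∫⁻ x in (ball (0 : ℂ) R)ᶜ, ‖p * (p - 1) / (x * (x - 1) * (x - p))‖ₑ ≤
      ENNReal.ofReal (4 * ‖p‖ * (‖p‖ + 1) * Q) := by
    have hsub : (ball (0 : ℂ) R)ᶜ ⊆ {x : ℂ | (1 : ℝ) ≤ ‖x‖} := by
      intro x hx
      rw [mem_compl_iff, mem_ball_zero_iff, not_lt, hR] at hx
      change (1 : ℝ) ≤ ‖x‖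
      linarith
    calc ∫⁻ x in (ball (0 : ℂ) R)ᶜ, ‖p * (p - 1) / (x * (x - 1) * (x - p))‖ₑ
        ≤ ∫⁻ x in (ball (0 : ℂ) R)ᶜ, ENNReal.ofReal (4 * ‖p‖ * (‖p‖ + 1)) *
            ENNReal.ofReal (1 / ‖x‖ ^ 3) := by
          refine setLIntegral_mono' measurableSet_ball.compl fun x hx => ?_
          rw [mem_compl_iff, mem_ball_zero_iff, not_lt, hR] at hx
          rw [← ENNReal.ofReal_mul (by positivity), ← ofReal_norm]
          exact ENNReal.ofReal_le_ofReal (tkerx_out p x hx)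
      _ ≤ ∫⁻ x in {x : ℂ | (1 : ℝ) ≤ ‖x‖}, ENNReal.ofReal (4 * ‖p‖ * (‖p‖ + 1)) *
            ENNReal.ofReal (1 / ‖x‖ ^ 3) := lintegral_mono_set hsub
      _ = ENNReal.ofReal (4 * ‖p‖ * (‖p‖ + 1)) * ENNReal.ofReal Q := by
          rw [lintegral_const_mul' _ _ ENNReal.ofReal_ne_top, hQ1]
      _ = ENNReal.ofReal (4 * ‖p‖ * (‖p‖ + 1) * Q) := by
          rw [← ENNReal.ofReal_mul (by positivity)]
  refine (add_le_add h1 h2).trans ?_
  rw [← ENNReal.ofReal_add (by positivity) (by positivity)]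
  refine ENNReal.ofReal_le_ofReal ?_
  have h3 : ‖p - 1‖ ≤ ‖p‖ + 1 := by
    have h5 := norm_sub_le p 1
    rwa [norm_one] at h5
  have h4 : 3 * Real.pi * R * (1 + ‖p - 1‖ + ‖p‖) ≤ 24 * Real.pi * (1 + ‖p‖ ^ 2) := by
    have e1 : 3 * Real.pi * R * (1 + ‖p - 1‖ + ‖p‖) ≤ 3 * Real.pi * R * (2 * (1 + ‖p‖)) :=
      mul_le_mul_of_nonneg_left (by linarith) (by positivity)
    refine e1.trans ?_
    rw [hR]
    have e2 : (1 + ‖p‖) ^ 2 ≤ 2 * (1 + ‖p‖ ^ 2) := by nlinarith [sq_nonneg (1 - ‖p‖)]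
    have e3 := mul_le_mul_of_nonneg_left e2 (by positivity : (0 : ℝ) ≤ 12 * Real.pi)
    nlinarith
  have h5 : 4 * ‖p‖ * (‖p‖ + 1) * Q ≤ 8 * Q * (1 + ‖p‖ ^ 2) := by
    have e2 : 4 * ‖p‖ * (‖p‖ + 1) ≤ 8 * (1 + ‖p‖ ^ 2) := by nlinarith [sq_nonneg (1 - ‖p‖)]
    have e3 := mul_le_mul_of_nonneg_right e2 hQ0
    linarith
  linarith

end Pool.Agent.H91.CS
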