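import Pool.Agent.H91.CS.TBase

/-!
# Module TPR: sums over pairs

PROOF. `F = ∑ i, (the family x ↦ if x.1 = i then F x else 0)`; each of them is summable on `ι × ℕ` because `k ↦ (i, k)` is injective and the family vanishes off its range (`Function.Injective.summable_iff`, or `hasSum_iff`), with sum `∑' k, F (i, k)`; finite sum over `i` (`summable_sum`, `Summable.tsum_finsetSum`, or
`hasSum_sum`); transport by `e` (`e.summable_iff`, `e.tsum_eq`, `Equiv.hasSum_iff`).
-/

set_option autoImplicit false

open Filter Topology Polynomial Metric Set MeasureTheory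

namespace Pool.Agent.H91.CS

open Pool.Agent.H44.Fatou Pool.Agent.H61.TT Pool.Agent.H35.EX Pool.Agent.H91.CE

theorem sum_e {ι : Type} [Fintype ι] {G : Type} [NormedAddCommGroup G] [CompleteSpace G]
    (e : ℕ ≃ ι × ℕ) {F : ι × ℕ → G} (h : ∀ i, Summable fun k => F (i, k)) :
    (Summable fun n => F (e n)) ∧ ∑' n, F (e n) = ∑ i, ∑' k, F (i, k) := by
  classical
  have h1 : ∀ i, HasSum (fun x : ι × ℕ => if x.1 = i then F x else 0) (∑' k, F (i, k)) := by
    intro i
    have hinj : Function.Injective fun k : ℕ => (i, k) := by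
      intro k l hkl
      exact (Prod.ext_iff.1 hkl).2
    have h2 : ∀ x ∉ Set.range fun k : ℕ => (i, k), (if x.1 = i then F x else 0) = 0 := by
      intro x hx
      rw [if_neg]
      intro h3
      exact hx ⟨x.2, by rw [← h3]⟩
    rw [← hinj.hasSum_iff h2]
    have h4 : ((fun x : ι × ℕ => if x.1 = i then F x else 0) ∘ fun k : ℕ => (i, k)) =
        fun k => F (i, k) := by
      funext k
      simp
    rw [h4]
    exact (h i).hasSum
  have h2 : HasSum F (∑ i, ∑' k, F (i, k)) := by
    have h3 := hasSum_sum (s := Finset.univ) fun i (_ : i ∈ Finset.univ) => h1 i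
    have h4 : (fun x : ι × ℕ => ∑ i, if x.1 = i then F x else 0) = F := by
      funext x
      simp
    rwa [h4] at h3
  have h3 : HasSum (fun n => F (e n)) (∑ i, ∑' k, F (i, k)) := e.hasSum_iff.2 h2
  exact ⟨h3.summable, h3.tsum_eq⟩

end Pool.Agent.H91.CS
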