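import Pool.Agent.H91.CS.TTAY

/-!
# Module TRES: the singular part at a point

PROOF. `β' k = if P k = s then 0 else β k`, `P' k = if P k = s then s + 1 else P k`: `P' k ≠ s`, `‖β' k‖ ≤ ‖β k‖`. For every `x` with `Summable (fun k => β k / (x - P k))` (almost every `x`, `ae_sum` of H35/EX/SerA): `qs β P x = rs β P s / (x - s) + qs β' P' x`: the terms with
`P k = s` have sum `∑' k, indicator {k | P k = s} β k / (x - s)` (`tsum_div_const`), the others are those of `qs β' P'` (`Summable.tsum_add` of the two families; both summable: `Summable.indicator`). Then `qs_taylor'` for `β', P'` with `m = 0`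
(empty sum, `δ ^ 1`).
-/

set_option autoImplicit false

open Filter Topology Polynomial Metric Set MeasureTheory

namespace Pool.Agent.H91.CS

open Pool.Agent.H44.Fatou Pool.Agent.H61.TT Pool.Agent.H35.EX Pool.Agent.H91.CE

theorem qs_res {β P : ℕ → ℂ} (hβ : Summable fun k => ‖β k‖) (s : ℂ) :
    Tendsto (fun δ : ℝ => (∫⁻ x in ball s δ, ‖qs β P x - rs β P s / (x - s)‖ₑ) /
      ENNReal.ofReal δ) (𝓝[>] 0) (𝓝 0) := by
  classical
  set β' : ℕ → ℂ := fun k => if P k = s then 0 else β k with hβ'
  set P' : ℕ → ℂ := fun k => if P k = s then s + 1 else P k with hP'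
  have hne : ∀ k, P' k ≠ s := by
    intro k
    rw [hP']
    simp only
    split_ifs with hk
    · simp
    · exact hk
  have hβs : Summable fun k => ‖β' k‖ := by
    refine Summable.of_nonneg_of_le (fun k => norm_nonneg _) (fun k => ?_) hβ
    rw [hβ']
    simp only
    split_ifs with hk
    · rw [norm_zero]
      exact norm_nonneg _
    · exact le_rfl
  have hkey : ∀ᵐ x : ℂ, qs β P x - rs β P s / (x - s) = qs β' P' x := by
    filter_upwards [ae_sum (p := P) hβ] with x hx
    have h1 := hx.indicator {k : ℕ | P k = s}
    have h2 := hx.tsum_sub h1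
    have h3 : rs β P s / (x - s) = ∑' k, Set.indicator {k : ℕ | P k = s} (fun k => β k / (x - P k)) k := by
      unfold rs
      rw [← tsum_div_const]
      refine tsum_congr fun k => ?_
      by_cases hk : P k = s
      · rw [Set.indicator_of_mem (show k ∈ {k | P k = s} from hk), Set.indicator_of_mem (show k ∈ {k | P k = s} from hk), hk]
      · rw [Set.indicator_of_notMem (show k ∉ {k | P k = s} from hk),
          Set.indicator_of_notMem (show k ∉ {k | P k = s} from hk), zero_div]
    unfold qs
    rw [h3, ← h2]
    refine tsum_congr fun k => ?_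
    by_cases hk : P k = s
    · rw [Set.indicator_of_mem (show k ∈ {k | P k = s} from hk), sub_self, hβ']
      simp only
      rw [if_pos hk, zero_div]
    · rw [Set.indicator_of_notMem (show k ∉ {k | P k = s} from hk), sub_zero, hβ', hP']
      simp only
      rw [if_neg hk, if_neg hk]
  have h4 := qs_taylor' (m := 0) hne hβs (by simpa using hβs)
  refine h4.congr fun δ => ?_
  rw [zero_add, pow_one]
  congr 1
  refine lintegral_congr_ae ?_
  filter_upwards [ae_restrict_of_ae hkey] with x hx
  rw [hx]
  simp

end Pool.Agent.H91.CS
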