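import Pool.Agent.H91.CS.TBase

/-!
# Module TRF: rational functions with simple poles

PROOF. `rf_diff`: finite sum. `rf_pole`: `rf S R x = R s / (x - s) + (sum over S.erase s)`, the second part is continuous at `s`, so bounded near `s`; `‖R s / (x - s)‖ → ∞`. `rf_zeros`: `N = ∑ s ∈ S, C (R s) * ∏ s' ∈ S.erase s, (X - C s')` satisfies `N.eval s = R s * ∏ (s - s') ≠ 0` for `s ∈ S`, so
`N ≠ 0` (`S` is not empty), and for `x ∉ S` `rf S R x * ∏ s ∈ S, (x - s) = N.eval x`, so the zeros of `rf` off `S` are roots of `N`.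
-/

set_option autoImplicit false

open Filter Topology Polynomial Metric Set MeasureTheory

namespace Pool.Agent.H91.CS

open Pool.Agent.H44.Fatou Pool.Agent.H61.TT Pool.Agent.H35.EX Pool.Agent.H91.CE

theorem rf_diff {S : Finset ℂ} (R : ℂ → ℂ) {x : ℂ} (hx : x ∉ S) :
    DifferentiableAt ℂ (rf S R) x := by
  unfold rf
  refine DifferentiableAt.fun_sum fun s hs => ?_
  have hne : x - s ≠ 0 := by
    intro h
    exact hx ((sub_eq_zero.1 h) ▸ hs)
  exact (differentiableAt_const _).div (differentiableAt_id.sub_const s) hne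

theorem rf_pole {S : Finset ℂ} {R : ℂ → ℂ} {s : ℂ} (hs : s ∈ S) (hR : R s ≠ 0) :
    Tendsto (fun x => ‖rf S R x‖) (𝓝[≠] s) atTop := by
  classical
  have h1 : ∀ x, rf S R x = R s / (x - s) + rf (S.erase s) R x := by
    intro x
    unfold rf
    exact (Finset.add_sum_erase S (fun s => R s / (x - s)) hs).symm
  have h2 : Tendsto (fun x => rf (S.erase s) R x) (𝓝[≠] s) (𝓝 (rf (S.erase s) R s)) :=
    ((rf_diff R (Finset.notMem_erase s S)).continuousAt.tendsto).mono_left nhdsWithin_le_nhds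
  have h3 : Tendsto (fun x : ℂ => ‖R s‖ * ‖x - s‖⁻¹) (𝓝[≠] s) atTop :=
    (tendsto_inv_nhdsGT_zero.comp (tendsto_norm_sub_self_nhdsNE s)).const_mul_atTop (norm_pos_iff.2 hR)
  have h4 : Tendsto (fun x : ℂ => ‖R s‖ * ‖x - s‖⁻¹ + -‖rf (S.erase s) R x‖) (𝓝[≠] s) atTop :=
    h3.atTop_add h2.norm.neg
  refine tendsto_atTop_mono (fun x => ?_) h4
  rw [h1 x, ← norm_inv, ← norm_mul, ← div_eq_mul_inv, ← sub_eq_add_neg]
  exact norm_sub_le_norm_add _ _

theorem rf_zeros {S : Finset ℂ} {R : ℂ → ℂ} (hR : ∀ s ∈ S, R s ≠ 0) (hS : S.Nonempty) :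
    {x : ℂ | x ∉ S ∧ rf S R x = 0}.Finite := by
  classical
  set N : Polynomial ℂ := ∑ s ∈ S, C (R s) * ∏ s' ∈ S.erase s, (X - C s') with hN
  have hev : ∀ x, N.eval x = ∑ s ∈ S, R s * ∏ s' ∈ S.erase s, (x - s') := by
    intro x
    rw [hN, eval_finsetSum]
    refine Finset.sum_congr rfl fun s _ => ?_
    rw [eval_mul, eval_C, eval_prod]
    simp
  have hN0 : N ≠ 0 := by
    obtain ⟨s₀, hs₀⟩ := hS
    intro h0
    have h1 := hev s₀
    rw [h0, eval_zero, Finset.sum_eq_single s₀] at h1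
    · have h2 : R s₀ * ∏ s' ∈ S.erase s₀, (s₀ - s') ≠ 0 := by
        refine mul_ne_zero (hR _ hs₀) (Finset.prod_ne_zero_iff.2 fun s' hs' => ?_)
        exact sub_ne_zero.2 (Finset.ne_of_mem_erase hs').symm
      exact h2 h1.symm
    · intro s hs hne
      rw [Finset.prod_eq_zero (i := s₀) (Finset.mem_erase.2 ⟨hne.symm, hs₀⟩) (sub_self _), mul_zero]
    · intro h
      exact absurd hs₀ h
  refine (N.roots.toFinset.finite_toSet).subset ?_
  rintro x ⟨hx, h0⟩
  rw [Finset.mem_coe, Multiset.mem_toFinset, mem_roots hN0, IsRoot, hev]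
  have h1 : ∀ s ∈ S, x - s ≠ 0 := fun s hs h => hx ((sub_eq_zero.1 h) ▸ hs)
  have h2 : (∑ s ∈ S, R s * ∏ s' ∈ S.erase s, (x - s')) = rf S R x * ∏ s ∈ S, (x - s) := by
    unfold rf
    rw [Finset.sum_mul]
    refine Finset.sum_congr rfl fun s hs => ?_
    rw [← Finset.mul_prod_erase S (fun s' => x - s') hs, div_mul_eq_mul_div, mul_comm (x - s), ← mul_assoc,
      mul_div_assoc, div_self (h1 s hs), mul_one]
  rw [h2, h0, zero_mul]

end Pool.Agent.H91.CS
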