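import Pool.Agent.H91.CS.TBase

/-!
# Module TSUR: images and derivatives of the approximating maps

PROOF. Derivatives: `TendstoLocallyUniformlyOn.deriv` (with `hu.tendstoLocallyUniformlyOn`) on the open ball; on the compact set `closedBall ζ (r / 2)` the convergence is uniform (`tendstoLocallyUniformlyOn_iff_forall_isCompact`); `deriv Φ` is continuous
at `ζ`, so for small `r1` and large `j` the second statement holds. Images: `Φ` has derivative `v = deriv Φ ζ ≠ 0` at `ζ`, so for small `r1' < r1` `‖Φ z - Φ ζ‖ ≥ ‖v‖ * r1' / 2` for `‖z - ζ‖ = r1'`; for large `j` `‖Φj j z - Φ z‖ ≤ ‖v‖ * r1' / 16`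
on the ball, so `‖Φj j z - Φj j ζ‖ ≥ ‖v‖ * r1' / 4` on the sphere and `DiffContOnCl.ball_subset_image_closedBall` (see the end of MDISC.lean for the use) gives `ball (Φj j ζ) (‖v‖ * r1' / 8) ⊆ Φj j '' closedBall ζ r1'`; it contains
`ball s (‖v‖ * r1' / 16)`. (The hypothesis `∃ᶠ z in 𝓝 ζ, Φj j z ≠ Φj j ζ`: `Φj j` is not locally constant since its derivative at `ζ` is not `0`.)
-/

set_option autoImplicit false

open Filter Topology Polynomial Metric Set MeasureTheory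

namespace Pool.Agent.H91.CS

open Pool.Agent.H44.Fatou Pool.Agent.H61.TT Pool.Agent.H35.EX Pool.Agent.H91.CE

theorem blow_sur {ζ s : ℂ} {r : ℝ} {Φj : ℕ → ℂ → ℂ} {Φ : ℂ → ℂ} (hr : 0 < r)
    (hΦ : DifferentiableOn ℂ Φ (ball ζ r)) (hs : Φ ζ = s) (hd : deriv Φ ζ ≠ 0)
    (hj : ∀ j, DifferentiableOn ℂ (Φj j) (ball ζ r))
    (hu : TendstoUniformlyOn Φj Φ atTop (ball ζ r)) {ε : ℝ} (hε : 0 < ε) :
    ∃ r1 r2 : ℝ, 0 < r1 ∧ r1 ≤ ε ∧ r1 ≤ r ∧ 0 < r2 ∧ ∀ᶠ j in atTop,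
      ball s r2 ⊆ Φj j '' ball ζ r1 ∧
        ∀ z ∈ ball ζ r1, ‖deriv (Φj j) z - deriv Φ ζ‖ ≤ ε * ‖deriv Φ ζ‖ := by
  have hv : 0 < ‖deriv Φ ζ‖ := norm_pos_iff.mpr hd
  obtain ⟨v, hvd⟩ : ∃ v, v = deriv Φ ζ := ⟨_, rfl⟩
  rw [← hvd] at hv hd ⊢
  have hopen : IsOpen (ball ζ r) := isOpen_ball
  have hζ : ζ ∈ ball ζ r := mem_ball_self hr
  obtain ⟨e, he⟩ : ∃ e : ℝ, e = min ε (1 / 2) := ⟨_, rfl⟩
  have he0 : 0 < e := by rw [he]; exact lt_min hε (by norm_num)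
  have he1 : e ≤ ε := by rw [he]; exact min_le_left _ _
  have he2 : e ≤ 1 / 2 := by rw [he]; exact min_le_right _ _
  have hlu : TendstoLocallyUniformlyOn (deriv ∘ Φj) (deriv Φ) atTop (ball ζ r) :=
    hu.tendstoLocallyUniformlyOn.deriv (Filter.Eventually.of_forall hj) hopen
  obtain ⟨t, ht, htj⟩ := (Metric.tendstoLocallyUniformlyOn_iff.mp hlu) (e * ‖v‖ / 2)
    (by positivity) ζ hζ
  have ht' : t ∈ 𝓝 ζ := by rwa [hopen.nhdsWithin_eq hζ] at ht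
  have hcont : ContinuousAt (deriv Φ) ζ :=
    (hΦ.deriv hopen).continuousOn.continuousAt (hopen.mem_nhds hζ)
  have hc2 : ∀ᶠ z in 𝓝 ζ, dist (deriv Φ z) v < e * ‖v‖ / 2 := by
    rw [hvd]
    rw [hvd] at hv
    exact Metric.tendsto_nhds.mp hcont _ (by positivity)
  have hder : HasDerivAt Φ v ζ := by
    rw [hvd]
    exact (hΦ.differentiableAt (hopen.mem_nhds hζ)).hasDerivAt
  have hc3 : ∀ᶠ z in 𝓝 ζ, ‖Φ z - Φ ζ - (z - ζ) • v‖ ≤ ‖v‖ / 2 * ‖z - ζ‖ :=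
    (hasDerivAt_iff_isLittleO.mp hder).def (by positivity)
  obtain ⟨ρ, hρ, hρs⟩ := Metric.eventually_nhds_iff_ball.mp
    (hc2.and (hc3.and (show ∀ᶠ z in 𝓝 ζ, z ∈ t from ht')))
  obtain ⟨r1, hr1d⟩ : ∃ r1 : ℝ, r1 = min (min ε r) ρ := ⟨_, rfl⟩
  have hr1 : 0 < r1 := by rw [hr1d]; exact lt_min (lt_min hε hr) hρ
  have hr1ε : r1 ≤ ε := by rw [hr1d]; exact (min_le_left _ _).trans (min_le_left _ _)
  have hr1r : r1 ≤ r := by rw [hr1d]; exact (min_le_left _ _).trans (min_le_right _ _)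
  have hr1ρ : r1 ≤ ρ := by rw [hr1d]; exact min_le_right _ _
  have hη : 0 < ‖v‖ * r1 / 32 := by positivity
  refine ⟨r1, ‖v‖ * r1 / 32, hr1, hr1ε, hr1r, hη, ?_⟩
  filter_upwards [htj, (Metric.tendstoUniformlyOn_iff.mp hu) (‖v‖ * r1 / 32) hη] with j h1 h2
  have hdd : ∀ z ∈ ball ζ r1, ‖deriv (Φj j) z - v‖ ≤ e * ‖v‖ := by
    intro z hz
    have hz' := hρs z (ball_subset_ball hr1ρ hz)
    have h3 := h1 z hz'.2.2
    have h4 := hz'.1
    simp only [Function.comp_apply] at h3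
    rw [dist_comm, dist_eq_norm] at h3
    rw [dist_eq_norm] at h4
    calc ‖deriv (Φj j) z - v‖ = ‖(deriv (Φj j) z - deriv Φ z) + (deriv Φ z - v)‖ := by
          congr 1
          ring
      _ ≤ ‖deriv (Φj j) z - deriv Φ z‖ + ‖deriv Φ z - v‖ := norm_add_le _ _
      _ ≤ e * ‖v‖ := by linarith
  refine ⟨?_, fun z hz => (hdd z hz).trans (mul_le_mul_of_nonneg_right he1 hv.le)⟩
  have hsub : closedBall ζ (r1 / 2) ⊆ ball ζ r1 := closedBall_subset_ball (by linarith)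
  have hsub2 : closedBall ζ (r1 / 2) ⊆ ball ζ r := hsub.trans (ball_subset_ball hr1r)
  have hdc : DiffContOnCl ℂ (Φj j) (ball ζ (r1 / 2)) := by
    refine DifferentiableOn.diffContOnCl ?_
    rw [closure_ball _ (by positivity)]
    exact (hj j).mono hsub2
  have hsph : ∀ z ∈ sphere ζ (r1 / 2), ‖v‖ * r1 / 8 ≤ ‖Φj j z - Φj j ζ‖ := by
    intro z hz
    have hz1 : z ∈ closedBall ζ (r1 / 2) := sphere_subset_closedBall hz
    have hz2 := (hρs z (ball_subset_ball hr1ρ (hsub hz1))).2.1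
    have hz3 : ‖z - ζ‖ = r1 / 2 := by rwa [mem_sphere, dist_eq_norm] at hz
    have h5 := h2 z (hsub2 hz1)
    have h6 := h2 ζ hζ
    rw [dist_eq_norm] at h5 h6
    rw [hz3] at hz2
    have h7 : ‖(z - ζ) • v‖ = r1 / 2 * ‖v‖ := by rw [norm_smul, hz3]
    have h8 : ‖(z - ζ) • v‖ ≤ ‖Φ z - Φ ζ‖ + ‖Φ z - Φ ζ - (z - ζ) • v‖ := by
      have : (z - ζ) • v = (Φ z - Φ ζ) - (Φ z - Φ ζ - (z - ζ) • v) := by ring
      conv_lhs => rw [this]
      exact norm_sub_le _ _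
    have h9 : ‖Φ z - Φ ζ‖ ≤ ‖Φj j z - Φj j ζ‖ + ‖Φ z - Φj j z‖ + ‖Φ ζ - Φj j ζ‖ := by
      have : Φ z - Φ ζ = (Φj j z - Φj j ζ) + (Φ z - Φj j z) - (Φ ζ - Φj j ζ) := by ring
      rw [this]
      exact (norm_sub_le _ _).trans (by linarith [norm_add_le (Φj j z - Φj j ζ) (Φ z - Φj j z)])
    linarith
  have hfr : ∃ᶠ z in 𝓝 ζ, Φj j z ≠ Φj j ζ := by
    have hd1 : HasDerivAt (Φj j) (deriv (Φj j) ζ) ζ :=
      ((hj j).differentiableAt (hopen.mem_nhds hζ)).hasDerivAt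
    have hne : deriv (Φj j) ζ ≠ 0 := by
      intro h0
      have h3 := hdd ζ (mem_ball_self hr1)
      rw [h0, zero_sub, norm_neg] at h3
      have h4 : e * ‖v‖ ≤ 1 / 2 * ‖v‖ := mul_le_mul_of_nonneg_right he2 hv.le
      linarith
    exact (hd1.eventually_ne hne).frequently.filter_mono nhdsWithin_le_nhds
  have himg := hdc.ball_subset_image_closedBall (by positivity) hsph hfr
  intro y hy
  have hy2 : y ∈ ball (Φj j ζ) (‖v‖ * r1 / 8 / 2) := by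
    have h6 := h2 ζ hζ
    rw [hs] at h6
    rw [mem_ball] at hy ⊢
    have := dist_triangle y s (Φj j ζ)
    linarith
  obtain ⟨z, hz, hzy⟩ := himg hy2
  exact ⟨z, hsub hz, hzy⟩

end Pool.Agent.H91.CS
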